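import Pool.Agent.Lib.P4a9818.LinD

/-!
# P4a9818.LinH : homogeneous polynomials, restriction to a hyperplane, ideals of codimension two

Let `v ⬝ a = 1` and `M = 1 - vecMulVec a v`, i.e. `M *ᵥ x = x - (v ⬝ x) a` (projection to `v = 0`).
See the comments of the statements.
-/

namespace Pool.Agent.Lib.P4a9818

open MvPolynomial Matrix

variable {σ : Type} [Fintype σ] [DecidableEq σ]

namespace LinHAux

omit [Fintype σ] [DecidableEq σ] in
theorem hc_mul {f : MvPolynomial σ ℂ} {m : ℕ} (hf : f.IsHomogeneous m) (t : MvPolynomial σ ℂ)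
    (n : ℕ) : homogeneousComponent n (t * f) =
      if m ≤ n then homogeneousComponent (n - m) t * f else 0 := by
  have h1 : t * f = ∑ i ∈ Finset.range (t.totalDegree + 1), homogeneousComponent i t * f := by
    rw [← Finset.sum_mul, sum_homogeneousComponent]
  have h2 : ∀ i, homogeneousComponent n (homogeneousComponent i t * f) =
      if n = i + m then homogeneousComponent i t * f else 0 := by
    intro i
    exact homogeneousComponent_of_mem
      ((mem_homogeneousSubmodule _ _).2 ((homogeneousComponent_isHomogeneous i t).mul hf))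
  rw [h1, map_sum, Finset.sum_congr rfl (fun i _ => h2 i)]
  split_ifs with hmn
  · by_cases h3 : n - m ∈ Finset.range (t.totalDegree + 1)
    · rw [Finset.sum_eq_single_of_mem (n - m) h3]
      · rw [if_pos (by omega)]
      · intro b _ hb
        rw [if_neg (by omega)]
    · rw [homogeneousComponent_eq_zero (n - m) t (by
        rw [Finset.mem_range] at h3; omega), zero_mul]
      refine Finset.sum_eq_zero fun i hi => ?_
      rw [if_neg]
      intro h
      apply h3
      have : n - m = i := by omega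
      rw [this]; exact hi
  · refine Finset.sum_eq_zero fun i _ => ?_
    rw [if_neg (by omega)]

omit [DecidableEq σ] in
theorem exists_dual {v : σ → ℂ} (hv : v ≠ 0) : ∃ a : σ → ℂ, v ⬝ᵥ a = 1 := by
  classical
  obtain ⟨k, hk⟩ := Function.ne_iff.1 hv
  refine ⟨Pi.single k (v k)⁻¹, ?_⟩
  rw [dotProduct_single]
  exact mul_inv_cancel₀ hk

theorem proj_mulVec (a v x : σ → ℂ) :
    (1 - vecMulVec a v : Matrix σ σ ℂ) *ᵥ x = x - (v ⬝ᵥ x) • a := by
  rw [sub_mulVec, one_mulVec]
  congr 1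
  ext i
  simp only [mulVec, dotProduct, vecMulVec_apply, Pi.smul_apply, smul_eq_mul, Finset.sum_mul]
  refine Finset.sum_congr rfl fun j _ => by ring

theorem proj_transpose_mulVec (a v w : σ → ℂ) :
    (1 - vecMulVec a v : Matrix σ σ ℂ)ᵀ *ᵥ w = w - (w ⬝ᵥ a) • v := by
  rw [transpose_sub, transpose_one, sub_mulVec, one_mulVec]
  congr 1
  ext i
  simp only [mulVec, dotProduct, transpose_apply, vecMulVec_apply, Pi.smul_apply, smul_eq_mul,
    Finset.sum_mul]
  refine Finset.sum_congr rfl fun j _ => by ring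

omit [DecidableEq σ] in
theorem ne_zero_of_dot {v a : σ → ℂ} (h : v ⬝ᵥ a = 1) : v ≠ 0 := by
  rintro rfl
  simp at h

theorem span_pow_le {R : Type} [CommRing R] (z y : R) (k : ℕ) :
    (Ideal.span {z, y}) ^ (k + 1) ≤
      Ideal.span {z} * (Ideal.span {z, y}) ^ k ⊔ Ideal.span {y ^ (k + 1)} := by
  have hI : Ideal.span ({z, y} : Set R) = Ideal.span {z} ⊔ Ideal.span {y} := by
    rw [Ideal.span_insert]
  induction k with
  | zero =>
    rw [zero_add, pow_one, pow_one, pow_zero, mul_one, hI]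
  | succ k ih =>
    set I : Ideal R := Ideal.span {z, y} with hIdef
    have h1 : I ^ (k + 1 + 1) = Ideal.span {z} * I ^ (k + 1) ⊔ Ideal.span {y} * I ^ (k + 1) := by
      rw [pow_succ' I (k + 1)]
      conv_lhs => rw [hI, Ideal.sup_mul]
      rw [← hI]
    rw [h1]
    refine sup_le le_sup_left ?_
    refine (Ideal.mul_mono_right ih).trans ?_
    rw [Ideal.mul_sup]
    refine sup_le ?_ ?_
    · refine le_trans ?_ le_sup_left
      rw [← mul_assoc, mul_comm (Ideal.span {y}), mul_assoc]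
      refine Ideal.mul_mono_right ?_
      rw [pow_succ' I k]
      refine Ideal.mul_mono_left ?_
      rw [hI]
      exact le_sup_right
    · refine le_trans ?_ le_sup_right
      rw [Ideal.span_singleton_mul_span_singleton, ← pow_succ' y (k + 1)]

theorem mem_pow_of_mul_mem {R : Type} [CommRing R] [IsDomain R] {z y : R} (hz : Prime z)
    (hzy : ¬ z ∣ y) (k : ℕ) (g : R) (hg : z * g ∈ (Ideal.span {z, y}) ^ (k + 1)) :
    g ∈ (Ideal.span {z, y}) ^ k := by
  have h1 := span_pow_le z y k hg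
  rw [Submodule.mem_sup] at h1
  obtain ⟨p, hp, q, hq, hpq⟩ := h1
  rw [Ideal.mem_span_singleton_mul] at hp
  obtain ⟨p', hp', rfl⟩ := hp
  rw [Ideal.mem_span_singleton'] at hq
  obtain ⟨c, rfl⟩ := hq
  have h2 : z ∣ c * y ^ (k + 1) := by
    refine ⟨g - p', ?_⟩
    rw [mul_sub, ← hpq]
    ring
  rcases hz.dvd_or_dvd h2 with h3 | h3
  · obtain ⟨c', rfl⟩ := h3
    have h4 : g = p' + c' * y ^ (k + 1) := by
      apply mul_left_cancel₀ hz.ne_zero
      rw [← hpq]
      ring
    rw [h4]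
    refine Ideal.add_mem _ hp' (Ideal.mul_mem_left _ _ ?_)
    rw [pow_succ]
    exact Ideal.mul_mem_right _ _ (Ideal.pow_mem_pow (Ideal.subset_span (by simp)) k)
  · exact absurd (hz.dvd_of_dvd_pow h3) hzy

omit [Fintype σ] [DecidableEq σ] in
theorem hc_mem_mul {I J : Ideal (MvPolynomial σ ℂ)}
    (hI : ∀ f ∈ I, ∀ d, homogeneousComponent d f ∈ I)
    (hJ : ∀ f ∈ J, ∀ d, homogeneousComponent d f ∈ J) :
    ∀ f ∈ I * J, ∀ d, homogeneousComponent d f ∈ I * J := by
  intro f hf d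
  refine Submodule.mul_induction_on hf ?_ ?_
  · intro m hm n hn
    have h1 : m * n = ∑ i ∈ Finset.range (m.totalDegree + 1), n * homogeneousComponent i m := by
      rw [← Finset.mul_sum, sum_homogeneousComponent, mul_comm]
    rw [h1, map_sum]
    refine Ideal.sum_mem _ fun i _ => ?_
    rw [hc_mul (homogeneousComponent_isHomogeneous i m)]
    split_ifs with h
    · rw [mul_comm (homogeneousComponent (d - i) n)]
      exact Ideal.mul_mem_mul (hI m hm i) (hJ n hn _)
    · exact Ideal.zero_mem _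
  · intro x y hx hy
    rw [map_add]
    exact Ideal.add_mem _ hx hy

end LinHAux

open LinHAux

theorem eval_sub (M : Matrix σ σ ℂ) (f : MvPolynomial σ ℂ) (x : σ → ℂ) :
    eval x (sub M f) = eval (M *ᵥ x) f := by
  have h : ((aeval x : MvPolynomial σ ℂ →ₐ[ℂ] ℂ).comp (sub M)) = aeval (M *ᵥ x) := by
    apply algHom_ext
    intro i
    rw [AlgHom.comp_apply, sub, aeval_X, aeval_X]
    exact eval_lf _ _
  exact DFunLike.congr_fun h f

theorem sub_lf (M : Matrix σ σ ℂ) (w : σ → ℂ) : sub M (lf w) = lf (Mᵀ *ᵥ w) := by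
  apply MvPolynomial.funext
  intro x
  rw [eval_sub, eval_lf, eval_lf, mulVec_transpose, ← dotProduct_mulVec]

theorem sub_isHomogeneous (M : Matrix σ σ ℂ) {f : MvPolynomial σ ℂ} {d : ℕ}
    (hf : f.IsHomogeneous d) : (sub M f).IsHomogeneous d := by
  have := hf.aeval (fun k => lf (M k)) (fun i => isHomogeneous_lf (M i))
  rw [one_mul] at this
  exact this

theorem lf_dvd_iff_sub {v a : σ → ℂ} (h : v ⬝ᵥ a = 1) (f : MvPolynomial σ ℂ) :
    lf v ∣ f ↔ sub (1 - vecMulVec a v) f = 0 := by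
  rw [lf_dvd_iff (ne_zero_of_dot h)]
  constructor
  · intro hf
    apply MvPolynomial.funext
    intro x
    rw [eval_sub, map_zero, proj_mulVec]
    apply hf
    rw [dotProduct_sub, dotProduct_smul, h, smul_eq_mul, mul_one, sub_self]
  · intro hf p hp
    have h1 := congrArg (eval p) hf
    rw [eval_sub, map_zero, proj_mulVec, hp, zero_smul, sub_zero] at h1
    exact h1

theorem isHomogeneous_of_mul {f g : MvPolynomial σ ℂ} {m n : ℕ} (hg : g.IsHomogeneous m)
    (hg0 : g ≠ 0) (h : (g * f).IsHomogeneous (m + n)) : f.IsHomogeneous n := by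
  have h1 : ∀ e, e ≠ n → homogeneousComponent e f = 0 := by
    intro e he
    have h2 := hc_mul hg f (e + m)
    rw [if_pos (Nat.le_add_left _ _), Nat.add_sub_cancel, mul_comm f g,
      homogeneousComponent_of_mem ((mem_homogeneousSubmodule _ _).2 h), if_neg (by omega)] at h2
    rcases mul_eq_zero.1 h2.symm with h3 | h3
    · exact h3
    · exact absurd h3 hg0
  have h4 : f = homogeneousComponent n f := by
    conv_lhs => rw [← sum_homogeneousComponent f]
    by_cases h5 : n ∈ Finset.range (f.totalDegree + 1)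
    · rw [Finset.sum_eq_single_of_mem n h5 (fun b _ hb => h1 b hb)]
    · rw [homogeneousComponent_eq_zero n f (by rw [Finset.mem_range] at h5; omega)]
      exact Finset.sum_eq_zero fun i hi => h1 i (by rintro rfl; exact h5 hi)
  rw [h4]
  exact homogeneousComponent_isHomogeneous n f

theorem isHomogeneous_prod_lf {κ : Type} (s : Finset κ) (w : κ → σ → ℂ) :
    (∏ j ∈ s, lf (w j)).IsHomogeneous s.card := by
  have := IsHomogeneous.prod s (fun j => lf (w j)) (fun _ => 1) (fun j _ => isHomogeneous_lf (w j))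
  simpa using this

theorem prod_lf_ne_zero {κ : Type} (s : Finset κ) (w : κ → σ → ℂ) (hw : ∀ j ∈ s, w j ≠ 0) :
    ∏ j ∈ s, lf (w j) ≠ 0 := by
  rw [Finset.prod_ne_zero_iff]
  intro j hj h
  exact hw j hj ((lf_eq_zero_iff _).1 h)

/-- A nonzero homogeneous polynomial of degree `d` has no homogeneous divisor of degree `> d`. -/
theorem eq_zero_of_dvd {f g : MvPolynomial σ ℂ} {d e : ℕ} (hf : f.IsHomogeneous d)
    (hg : g.IsHomogeneous e) (h : g ∣ f) (hde : d < e) : f = 0 := by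
  by_contra hf0
  obtain ⟨k, rfl⟩ := h
  have hg0 : g ≠ 0 := left_ne_zero_of_mul hf0
  have hk0 : k ≠ 0 := right_ne_zero_of_mul hf0
  have h1 := totalDegree_mul_of_isDomain hg0 hk0
  rw [hf.totalDegree hf0, hg.totalDegree hg0] at h1
  omega

/-- A homogeneous multiple of the same degree is a constant multiple. -/
theorem eq_C_mul_of_dvd {f g : MvPolynomial σ ℂ} {d : ℕ} (hf : f.IsHomogeneous d)
    (hg : g.IsHomogeneous d) (h : g ∣ f) : ∃ c : ℂ, f = C c * g := by
  by_cases hf0 : f = 0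
  · exact ⟨0, by rw [hf0, map_zero, zero_mul]⟩
  obtain ⟨k, rfl⟩ := h
  have hg0 : g ≠ 0 := left_ne_zero_of_mul hf0
  have hk0 : k ≠ 0 := right_ne_zero_of_mul hf0
  have h1 := totalDegree_mul_of_isDomain hg0 hk0
  rw [hf.totalDegree hf0, hg.totalDegree hg0] at h1
  have h2 : k.totalDegree = 0 := by omega
  rw [totalDegree_eq_zero_iff_eq_C] at h2
  exact ⟨_, by rw [mul_comm]; conv_lhs => rw [h2]⟩

theorem restrict_dvd {κ : Type} [DecidableEq κ] {v a : σ → ℂ} (hva : v ⬝ᵥ a = 1)
    (s : Finset κ) (w : κ → σ → ℂ) (hw : ∀ j ∈ s, ∀ c : ℂ, w j ≠ c • v)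
    (hpair : ∀ i ∈ s, ∀ j ∈ s, i ≠ j → w j ∉ Submodule.span ℂ {v, w i})
    {f : MvPolynomial σ ℂ} {d : ℕ} (hf : f.IsHomogeneous d) (k : ℕ)
    (h : ∀ j ∈ s, f ∈ Ideal.span {lf v, (lf (w j)) ^ k}) :
    (d < k * s.card → lf v ∣ f) ∧
    (d = k * s.card → ∃ c : ℂ, lf v ∣ f - C c * ∏ j ∈ s, (lf (w j)) ^ k) := by
  set M : Matrix σ σ ℂ := 1 - vecMulVec a v with hM
  set w' : κ → σ → ℂ := fun j => w j - (w j ⬝ᵥ a) • v with hw'
  have hsub : ∀ j, sub M (lf (w j)) = lf (w' j) := by
    intro j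
    rw [sub_lf, hM, proj_transpose_mulVec]
  have hsubv : sub M (lf v) = 0 := by
    rw [sub_lf, hM, proj_transpose_mulVec, hva, one_smul, sub_self, lf_zero]
  have hw'0 : ∀ j ∈ s, w' j ≠ 0 := by
    intro j hj h0
    exact hw j hj (w j ⬝ᵥ a) (sub_eq_zero.1 h0)
  have hdiv : ∀ j ∈ s, (lf (w' j)) ^ k ∣ sub M f := by
    intro j hj
    obtain ⟨x, y, hxy⟩ := Ideal.mem_span_pair.1 (h j hj)
    refine ⟨sub M y, ?_⟩
    rw [← hxy, map_add, map_mul, map_mul, hsubv, map_pow, hsub, mul_zero, zero_add, mul_comm]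
  have hcop : ((s : Finset κ) : Set κ).Pairwise
      (Function.onFun IsRelPrime (fun j => (lf (w' j)) ^ k)) := by
    intro i hi j hj hij
    change IsRelPrime ((lf (w' i)) ^ k) ((lf (w' j)) ^ k)
    have h1 : IsRelPrime (lf (w' i)) (lf (w' j)) := by
      rw [(prime_lf (hw'0 i hi)).irreducible.isRelPrime_iff_not_dvd]
      intro h2
      obtain ⟨c, hc⟩ := (lf_dvd_lf_iff (hw'0 i hi) (w' j)).1 h2
      apply hpair i hi j hj hij
      have h3 : w j = (w j ⬝ᵥ a - c * (w i ⬝ᵥ a)) • v + c • w i := by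
        have h4 : w j - (w j ⬝ᵥ a) • v = c • (w i - (w i ⬝ᵥ a) • v) := hc
        rw [sub_eq_iff_eq_add] at h4
        refine h4.trans ?_
        simp only [smul_sub, sub_smul, mul_smul]
        abel
      rw [h3]
      exact Submodule.add_mem _ (Submodule.smul_mem _ _ (Submodule.subset_span (by simp)))
        (Submodule.smul_mem _ _ (Submodule.subset_span (by simp)))
    exact (h1.pow_left).pow_right
  have hprod : ∏ j ∈ s, (lf (w' j)) ^ k ∣ sub M f :=
    Finset.prod_dvd_of_isRelPrime hcop hdiv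
  have hhom : (∏ j ∈ s, (lf (w' j)) ^ k).IsHomogeneous (k * s.card) := by
    have := IsHomogeneous.prod s (fun j => (lf (w' j)) ^ k) (fun _ => 1 * k)
      (fun j _ => (isHomogeneous_lf (w' j)).pow k)
    simpa [mul_comm] using this
  have hsf := sub_isHomogeneous M hf
  constructor
  · intro hd
    rw [lf_dvd_iff_sub hva]
    exact eq_zero_of_dvd hsf hhom hprod hd
  · intro hd
    rw [← hd] at hhom
    obtain ⟨c, hc⟩ := eq_C_mul_of_dvd hsf hhom hprod
    refine ⟨c, ?_⟩
    rw [lf_dvd_iff_sub hva, ← hM, map_sub, map_mul, map_prod, hc]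
    have h5 : sub M (C c) = C c := by
      rw [sub, aeval_C]; rfl
    rw [h5]
    simp only [map_pow, hsub, sub_self]

section PF

variable {ι : Type} {l : ι → σ → ℂ} {i j : ι}

private theorem li_facts (h : LinearIndependent ℂ ![l i, l j]) :
    l i ≠ 0 ∧ (∀ c : ℂ, l j ≠ c • l i) := by
  have h1 := LinearIndependent.pair_iff.1 h
  refine ⟨fun h0 => ?_, fun c hc => ?_⟩
  · have := h1 1 0 (by rw [h0]; simp)
    exact one_ne_zero this.1
  · have := h1 c (-1) (by rw [hc]; simp)
    have h2 := this.2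
    simp at h2

private theorem mem_PF_iff_dvd (h : LinearIndependent ℂ ![l i, l j]) {a : σ → ℂ}
    (ha : l i ⬝ᵥ a = 1) (f : MvPolynomial σ ℂ) :
    f ∈ PF l i j ↔ lf (l j - (l j ⬝ᵥ a) • l i) ∣ sub (1 - vecMulVec a (l i)) f := by
  set M : Matrix σ σ ℂ := 1 - vecMulVec a (l i) with hM
  constructor
  · intro hf
    obtain ⟨x, y, rfl⟩ := Ideal.mem_span_pair.1 hf
    rw [map_add, map_mul, map_mul, sub_lf, sub_lf, hM, proj_transpose_mulVec,
      proj_transpose_mulVec, ha, one_smul, sub_self, lf_zero, mul_zero, zero_add]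
    exact dvd_mul_left _ _
  · rintro ⟨q, hq⟩
    have h1 : lf (l i) ∣ f - sub M f := by
      rw [lf_dvd_iff (li_facts h).1]
      intro p hp
      rw [map_sub, eval_sub, hM, proj_mulVec, hp, zero_smul, sub_zero, sub_self]
    obtain ⟨r, hr⟩ := h1
    have h2 : f = r * lf (l i) + (lf (l j) - C (l j ⬝ᵥ a) * lf (l i)) * q := by
      have h3 : lf (l j) - C (l j ⬝ᵥ a) * lf (l i) = lf (l j - (l j ⬝ᵥ a) • l i) := by
        have h4 : lf (l j) = lf ((l j - (l j ⬝ᵥ a) • l i) + (l j ⬝ᵥ a) • l i) := by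
          rw [sub_add_cancel]
        rw [h4, lf_add, lf_smul, add_sub_cancel_right]
      rw [h3, ← hq, mul_comm r, ← hr]
      ring
    rw [PF, Ideal.mem_span_pair]
    refine ⟨r - C (l j ⬝ᵥ a) * q, q, ?_⟩
    rw [h2]
    ring

theorem mem_PF_iff
    (h : LinearIndependent ℂ ![l i, l j]) (f : MvPolynomial σ ℂ) :
    f ∈ PF l i j ↔ ∀ p, l i ⬝ᵥ p = 0 → l j ⬝ᵥ p = 0 → eval p f = 0 := by
  obtain ⟨h0, h1⟩ := li_facts h
  obtain ⟨a, ha⟩ := exists_dual h0
  constructor
  · intro hf p hp hp'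
    obtain ⟨x, y, rfl⟩ := Ideal.mem_span_pair.1 hf
    rw [map_add, map_mul, map_mul, eval_lf, eval_lf, hp, hp']
    ring
  · intro hf
    rw [mem_PF_iff_dvd h ha, lf_dvd_iff (fun h2 => h1 _ (sub_eq_zero.1 h2))]
    intro x hx
    rw [eval_sub, proj_mulVec]
    rw [sub_dotProduct, smul_dotProduct, smul_eq_mul] at hx
    apply hf
    · rw [dotProduct_sub, dotProduct_smul, ha, smul_eq_mul, mul_one, sub_self]
    · rw [dotProduct_sub, dotProduct_smul, smul_eq_mul, mul_comm]
      exact hx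

theorem PF_prime
    (h : LinearIndependent ℂ ![l i, l j]) : (PF l i j).IsPrime := by
  obtain ⟨h0, h1⟩ := li_facts h
  obtain ⟨a, ha⟩ := exists_dual h0
  have hw : l j - (l j ⬝ᵥ a) • l i ≠ 0 := fun h2 => h1 _ (sub_eq_zero.1 h2)
  obtain ⟨b, hb⟩ := exists_dual hw
  have h2 : PF l i j = RingHom.ker
      ((sub (1 - vecMulVec b (l j - (l j ⬝ᵥ a) • l i))).comp (sub (1 - vecMulVec a (l i)))) := by
    ext f
    rw [mem_PF_iff_dvd h ha, lf_dvd_iff_sub hb, RingHom.mem_ker, AlgHom.comp_apply]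
  rw [h2]
  exact RingHom.ker_isPrime _

theorem lf_mem_PF_iff
    (h : LinearIndependent ℂ ![l i, l j]) (w : σ → ℂ) :
    lf w ∈ PF l i j ↔ w ∈ Submodule.span ℂ {l i, l j} := by
  obtain ⟨h0, h1⟩ := li_facts h
  obtain ⟨a, ha⟩ := exists_dual h0
  have hw : l j - (l j ⬝ᵥ a) • l i ≠ 0 := fun h2 => h1 _ (sub_eq_zero.1 h2)
  constructor
  · intro hf
    rw [mem_PF_iff_dvd h ha, sub_lf, proj_transpose_mulVec, lf_dvd_lf_iff hw] at hf
    obtain ⟨c, hc⟩ := hf
    rw [Submodule.mem_span_pair]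
    refine ⟨w ⬝ᵥ a - c * (l j ⬝ᵥ a), c, ?_⟩
    have h3 : w = c • (l j - (l j ⬝ᵥ a) • l i) + (w ⬝ᵥ a) • l i := by
      rw [← hc, sub_add_cancel]
    conv_rhs => rw [h3]
    simp only [smul_sub, sub_smul, mul_smul]
    abel
  · intro hw'
    obtain ⟨c, d, rfl⟩ := Submodule.mem_span_pair.1 hw'
    rw [lf_add, lf_smul, lf_smul]
    exact Ideal.mem_span_pair.2 ⟨_, _, rfl⟩

theorem mul_mem_pow_left
    (h : LinearIndependent ℂ ![l i, l j]) (k : ℕ) (g : MvPolynomial σ ℂ)
    (hg : lf (l i) * g ∈ (PF l i j) ^ (k + 1)) : g ∈ (PF l i j) ^ k := by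
  obtain ⟨h0, h1⟩ := li_facts h
  refine mem_pow_of_mul_mem (prime_lf h0) ?_ k g hg
  intro h2
  obtain ⟨c, hc⟩ := (lf_dvd_lf_iff h0 _).1 h2
  exact h1 c hc

theorem mul_mem_pow_right
    (h : LinearIndependent ℂ ![l i, l j]) (k : ℕ) (g : MvPolynomial σ ℂ)
    (hg : lf (l j) * g ∈ (PF l i j) ^ (k + 1)) : g ∈ (PF l i j) ^ k := by
  have h' : LinearIndependent ℂ ![l j, l i] := by
    rw [LinearIndependent.pair_iff] at h ⊢
    intro s t hst
    have := h t s (by rw [add_comm]; exact hst)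
    exact ⟨this.2, this.1⟩
  have h2 : PF l i j = PF l j i := by
    rw [PF, PF, Set.pair_comm]
  rw [h2] at hg ⊢
  exact mul_mem_pow_left h' k g hg

end PF

theorem pow_PF_le {ι : Type} {l : ι → σ → ℂ} (i j : ι) (k : ℕ) :
    (PF l i j) ^ k ≤ Ideal.span {lf (l i), (lf (l j)) ^ k} := by
  cases k with
  | zero =>
    rw [pow_zero, pow_zero, Ideal.one_eq_top, top_le_iff, Ideal.eq_top_iff_one]
    exact Ideal.subset_span (by simp)
  | succ k =>
    refine (span_pow_le _ _ k).trans ?_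
    refine sup_le ?_ ?_
    · refine Ideal.mul_le_left.trans (Ideal.span_mono ?_)
      intro x hx
      exact Or.inl hx
    · exact Ideal.span_mono (by intro x hx; exact Or.inr hx)

/-- Symbolic powers are homogeneous. -/
theorem homogeneousComponent_mem_JFs {ι : Type} (l : ι → σ → ℂ) (m d : ℕ)
    {f : MvPolynomial σ ℂ} (hf : f ∈ JFs l m) : homogeneousComponent d f ∈ JFs l m := by
  have h1 : ∀ i j, ∀ f ∈ PF l i j, ∀ d, homogeneousComponent d f ∈ PF l i j := by
    intro i j f hf d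
    obtain ⟨x, y, rfl⟩ := Ideal.mem_span_pair.1 hf
    rw [map_add, hc_mul (isHomogeneous_lf _), hc_mul (isHomogeneous_lf _)]
    refine Ideal.add_mem _ ?_ ?_
    · split_ifs
      · exact Ideal.mul_mem_left _ _ (Ideal.subset_span (by simp))
      · exact Ideal.zero_mem _
    · split_ifs
      · exact Ideal.mul_mem_left _ _ (Ideal.subset_span (by simp))
      · exact Ideal.zero_mem _
  have h2 : ∀ i j, ∀ m, ∀ f ∈ (PF l i j) ^ m, ∀ d, homogeneousComponent d f ∈ (PF l i j) ^ m := by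
    intro i j m
    induction m with
    | zero =>
      intro f _ d
      rw [pow_zero, Ideal.one_eq_top]
      exact Submodule.mem_top
    | succ m ih =>
      rw [pow_succ]
      exact hc_mem_mul ih (h1 i j)
  rw [JFs] at hf ⊢
  simp only [Submodule.mem_iInf] at hf ⊢
  intro i j hij
  exact h2 i j m f (hf i j hij) d

end Pool.Agent.Lib.P4a9818
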