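import Pool.Agent.Lib.P4a9818.Rank2
import Pool.Agent.Lib.P4a9818.LinH

/-!
# P4a9818.Act : the group acts on polynomials
-/

namespace Pool.Agent.Lib.P4a9818

open MvPolynomial Matrix

variable {σ : Type} [Fintype σ] [DecidableEq σ]

theorem sub_mul (M N : Matrix σ σ ℂ) (f : MvPolynomial σ ℂ) :
    sub (M * N) f = sub N (sub M f) := by
  apply MvPolynomial.funext
  intro x
  rw [eval_sub, eval_sub, eval_sub, mulVec_mulVec]

theorem sub_one (f : MvPolynomial σ ℂ) : sub (1 : Matrix σ σ ℂ) f = f := by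
  apply MvPolynomial.funext
  intro x
  rw [eval_sub, one_mulVec]

omit [DecidableEq σ] in
private theorem sub_C' (M : Matrix σ σ ℂ) (c : ℂ) : sub M (C c) = C c := by
  rw [sub, aeval_C]; rfl

private theorem sub_inv_sub (g : GL σ ℂ) (f : MvPolynomial σ ℂ) :
    sub ((g⁻¹ : GL σ ℂ) : Matrix σ σ ℂ) (sub (g : Matrix σ σ ℂ) f) = f := by
  rw [← sub_mul, ← Units.val_mul, mul_inv_cancel, Units.val_one, sub_one]

variable (A : Datum σ)

namespace Datum

theorem g_mem (i : A.ι) : A.g i ∈ A.G := Subgroup.subset_closure ⟨i, rfl⟩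

theorem det_g (i : A.ι) : (A.g i : Matrix σ σ ℂ).det = A.z i := by
  have h1 : (A.g i : Matrix σ σ ℂ) =
      1 + replicateCol Unit ((A.z i - 1) • A.a i) * replicateRow Unit (A.l i) := by
    rw [A.hg i, ← vecMulVec_eq, smul_vecMulVec]
  rw [h1, det_one_add_replicateCol_mul_replicateRow, dotProduct_smul, A.la, smul_eq_mul, mul_one]
  ring

theorem g_mulVec (i : A.ι) {p : σ → ℂ} (hp : A.l i ⬝ᵥ p = 0) :
    (A.g i : Matrix σ σ ℂ) *ᵥ p = p := by
  rw [A.hg i, add_mulVec, one_mulVec, smul_mulVec]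
  have h1 : vecMulVec (A.a i) (A.l i) *ᵥ p = 0 := by
    ext k
    have h2 : (vecMulVec (A.a i) (A.l i) *ᵥ p) k = A.a i k * (A.l i ⬝ᵥ p) := by
      simp only [mulVec, dotProduct, vecMulVec_apply, Finset.mul_sum]
      refine Finset.sum_congr rfl fun j _ => by ring
    rw [h2, hp, mul_zero]
    rfl
  rw [h1, smul_zero, add_zero]

private theorem transpose_mulVec_vecMulVec (a l w : σ → ℂ) :
    (vecMulVec a l)ᵀ *ᵥ w = (w ⬝ᵥ a) • l := by
  ext k
  simp only [mulVec, dotProduct, transpose_apply, vecMulVec_apply, Pi.smul_apply, smul_eq_mul,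
    Finset.sum_mul]
  refine Finset.sum_congr rfl fun j _ => by ring

theorem sub_g_lf (i : A.ι) :
    sub (A.g i : Matrix σ σ ℂ) (lf (A.l i)) = C (A.z i) * lf (A.l i) := by
  rw [sub_lf, A.hg i, transpose_add, transpose_one, transpose_smul, add_mulVec, one_mulVec,
    smul_mulVec, transpose_mulVec_vecMulVec, A.la, one_smul, lf_add, lf_smul, map_sub, map_one]
  ring

private theorem lf_ne_zero' (i : A.ι) : lf (A.l i) ≠ 0 := fun h =>
  A.l_ne_zero i ((lf_eq_zero_iff _).1 h)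

theorem exists_perm_G (g : GL σ ℂ) (hg : g ∈ A.G) : ∃ e : Equiv.Perm A.ι, ∀ j, ∃ μ : ℂ,
    μ ≠ 0 ∧ sub (g : Matrix σ σ ℂ) (lf (A.l (e j))) = C μ * lf (A.l j) := by
  refine Subgroup.closure_induction (p := fun (g : GL σ ℂ) _ => ∃ e : Equiv.Perm A.ι, ∀ j, ∃ μ : ℂ,
    μ ≠ 0 ∧ sub (g : Matrix σ σ ℂ) (lf (A.l (e j))) = C μ * lf (A.l j)) ?_ ?_ ?_ ?_ hg
  · rintro _ ⟨i, rfl⟩
    obtain ⟨e, he⟩ := A.exists_perm i
    refine ⟨e, fun j => ?_⟩
    have h1 := he j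
    have h2 : sub (A.g i : Matrix σ σ ℂ) (lf (A.l (e j))) =
        C (A.l (e j) ⬝ᵥ ((A.g i : Matrix σ σ ℂ) *ᵥ A.a j)) * lf (A.l j) := by
      rw [sub_lf, ← lf_smul]
      congr 1
      have h3 := congrArg (fun M => Mᵀ *ᵥ A.l (e j)) h1
      simp only [transpose_mul, ← mulVec_mulVec] at h3
      rw [P, P, transpose_mulVec_vecMulVec, transpose_mulVec_vecMulVec, A.la, one_smul,
        mulVec_transpose, ← dotProduct_mulVec] at h3
      rw [mulVec_transpose, ← h3]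
    refine ⟨_, ?_, h2⟩
    intro h4
    rw [h4, map_zero, zero_mul] at h2
    have h5 := sub_inv_sub (A.g i) (lf (A.l (e j)))
    rw [h2, map_zero] at h5
    exact A.lf_ne_zero' _ h5.symm
  · exact ⟨1, fun j => ⟨1, one_ne_zero, by
      rw [Units.val_one, sub_one, map_one, one_mul]; rfl⟩⟩
  · rintro g h _ _ ⟨e, he⟩ ⟨e', he'⟩
    refine ⟨e * e', fun j => ?_⟩
    obtain ⟨μ, hμ, h1⟩ := he (e' j)
    obtain ⟨ν, hν, h2⟩ := he' j
    refine ⟨μ * ν, mul_ne_zero hμ hν, ?_⟩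
    rw [Units.val_mul, sub_mul, Equiv.Perm.mul_apply, h1, map_mul, sub_C', h2, map_mul, mul_assoc]
  · rintro g _ ⟨e, he⟩
    refine ⟨e⁻¹, fun j => ?_⟩
    obtain ⟨μ, hμ, h1⟩ := he (e⁻¹ j)
    refine ⟨μ⁻¹, inv_ne_zero hμ, ?_⟩
    rw [show e (e⁻¹ j) = j from Equiv.apply_symm_apply e j] at h1
    have h2 := sub_inv_sub g (lf (A.l j))
    rw [h1, map_mul, sub_C'] at h2
    rw [← h2, ← mul_assoc, ← map_mul, inv_mul_cancel₀ hμ, map_one, one_mul]

theorem sub_mem_Js (g : GL σ ℂ) (hg : g ∈ A.G) (m : ℕ) {f : MvPolynomial σ ℂ}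
    (hf : f ∈ A.Js m) : sub (g : Matrix σ σ ℂ) f ∈ A.Js m := by
  obtain ⟨e, he⟩ := A.exists_perm_G g hg
  rw [Js, JFs] at hf ⊢
  simp only [Submodule.mem_iInf] at hf ⊢
  intro i j hij
  have h1 := hf (e i) (e j) (fun h => hij (e.injective h))
  have h2 : Ideal.map (sub (g : Matrix σ σ ℂ)) (PF A.l (e i) (e j)) ≤ PF A.l i j := by
    rw [PF, Ideal.map_span, Ideal.span_le]
    rintro _ ⟨x, hx, rfl⟩
    rcases hx with rfl | rfl
    · obtain ⟨μ, _, h3⟩ := he i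
      rw [h3]
      exact Ideal.mul_mem_left _ _ (Ideal.subset_span (by simp))
    · obtain ⟨μ, _, h3⟩ := he j
      rw [h3]
      exact Ideal.mul_mem_left _ _ (Ideal.subset_span (by simp))
  have h4 := Ideal.mem_map_of_mem (sub (g : Matrix σ σ ℂ)) h1
  rw [Ideal.map_pow] at h4
  exact Ideal.pow_right_mono h2 m h4

theorem sub_mem_J (g : GL σ ℂ) (hg : g ∈ A.G) {f : MvPolynomial σ ℂ} (hf : f ∈ A.J) :
    sub (g : Matrix σ σ ℂ) f ∈ A.J := by
  have h1 : A.J = A.Js 1 := by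
    rw [J, Js, JF, JFs]
    simp only [pow_one]
  rw [h1] at hf ⊢
  exact A.sub_mem_Js g hg 1 hf

private theorem sub_Q_gen (i : A.ι) :
    sub (A.g i : Matrix σ σ ℂ) A.Q = C (A.g i : Matrix σ σ ℂ).det * A.Q := by
  classical
  obtain ⟨e, he⟩ := A.exists_perm_G (A.g i) (A.g_mem i)
  choose μ hμ hμ' using he
  have h1 : sub (A.g i : Matrix σ σ ℂ) A.Q = C (∏ j, μ j) * A.Q := by
    rw [Q, map_prod, ← Equiv.prod_comp e, map_prod, ← Finset.prod_mul_distrib]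
    exact Finset.prod_congr rfl fun j _ => hμ' j
  obtain ⟨p, hp, hp'⟩ := exists_generic (A.l i) (Finset.univ.erase i) A.l (fun j hj c =>
    A.l_not_smul (Finset.ne_of_mem_erase hj).symm c)
  have hQ : A.Q = lf (A.l i) * A.q i := by
    rw [Q, q, Finset.mul_prod_erase Finset.univ (fun j => lf (A.l j)) (Finset.mem_univ i)]
  have h2 : C (A.z i) * sub (A.g i : Matrix σ σ ℂ) (A.q i) = C (∏ j, μ j) * A.q i := by
    apply mul_left_cancel₀ (A.lf_ne_zero' i)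
    have h3 : sub (A.g i : Matrix σ σ ℂ) A.Q =
        lf (A.l i) * (C (A.z i) * sub (A.g i : Matrix σ σ ℂ) (A.q i)) := by
      rw [hQ, map_mul, A.sub_g_lf]
      ring
    rw [← h3, h1, hQ]
    ring
  have h4 := congrArg (eval p) h2
  rw [map_mul, map_mul, eval_sub, A.g_mulVec i hp, eval_C, eval_C] at h4
  have h5 : eval p (A.q i) ≠ 0 := by
    rw [q, map_prod, Finset.prod_ne_zero_iff]
    intro j hj
    rw [eval_lf]
    exact hp' j hj
  have h6 := mul_right_cancel₀ h5 h4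
  rw [h1, ← h6, A.det_g]

theorem sub_Q (g : GL σ ℂ) (hg : g ∈ A.G) :
    sub (g : Matrix σ σ ℂ) A.Q = C (g : Matrix σ σ ℂ).det * A.Q := by
  refine Subgroup.closure_induction (p := fun (g : GL σ ℂ) _ =>
    sub (g : Matrix σ σ ℂ) A.Q = C (g : Matrix σ σ ℂ).det * A.Q) ?_ ?_ ?_ ?_ hg
  · rintro _ ⟨i, rfl⟩
    exact A.sub_Q_gen i
  · rw [Units.val_one, sub_one, det_one, map_one, one_mul]
  · intro g h _ _ h1 h2
    rw [Units.val_mul, sub_mul, h1, map_mul, sub_C', h2, det_mul, map_mul, mul_assoc]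
  · intro g _ h1
    have h2 := sub_inv_sub g A.Q
    rw [h1, map_mul, sub_C'] at h2
    have h3 : ((g⁻¹ : GL σ ℂ) : Matrix σ σ ℂ).det * (g : Matrix σ σ ℂ).det = 1 := by
      rw [← det_mul, ← Units.val_mul, inv_mul_cancel, Units.val_one, det_one]
    conv_rhs => rw [← h2]
    rw [← mul_assoc, ← map_mul, h3, map_one, one_mul]

theorem dvd_sub_sub (i : A.ι) (f : MvPolynomial σ ℂ) :
    lf (A.l i) ∣ sub (A.g i : Matrix σ σ ℂ) f - f := by
  rw [lf_dvd_iff (A.l_ne_zero i)]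
  intro p hp
  rw [map_sub, eval_sub, A.g_mulVec i hp, sub_self]

theorem dvd_of_semi (i : A.ι) {f : MvPolynomial σ ℂ} {c : ℂ} (hc : c ≠ 1)
    (h : sub (A.g i : Matrix σ σ ℂ) f = C c * f) : lf (A.l i) ∣ f := by
  rw [lf_dvd_iff (A.l_ne_zero i)]
  intro p hp
  have h1 := congrArg (eval p) h
  rw [eval_sub, A.g_mulVec i hp, map_mul, eval_C] at h1
  have h2 : (1 - c) * eval p f = 0 := by
    rw [_root_.sub_mul, one_mul, ← h1, sub_self]
  rcases mul_eq_zero.1 h2 with h3 | h3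
  · exact absurd (sub_eq_zero.1 h3).symm hc
  · exact h3

theorem finite_G : Finite A.G := A.fin

end Datum

end Pool.Agent.Lib.P4a9818
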