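import Pool.Agent.Lib.P4a9818.Defs

/-!
# P4a9818.CFDef : the setting of the freeness theorem (definitions, do not change)

`R = ℂ[x]`; a finite group `𝒢` generated by elements `s i` acts on `R` (`θ`) by graded algebra
automorphisms and on `R^κ` (`Θ`) semilinearly; `Dp ⊆ R^κ` is a graded submodule containing
`q R^κ` and all the invariants of `R^κ`, and `Θ (s i) η - η ∈ ℓ i • Dp` for `η ∈ Dp`.
Then `Dp` is a free `R`-module (`CFd`).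
-/

namespace Pool.Agent.Lib.P4a9818

open MvPolynomial

structure Chev (σ κ 𝒢 ι : Type) [Fintype σ] [DecidableEq σ] [Fintype κ] [Group 𝒢] where
  θ : 𝒢 →* (MvPolynomial σ ℂ ≃ₐ[ℂ] MvPolynomial σ ℂ)
  Θ : 𝒢 →* Module.End ℂ (κ → MvPolynomial σ ℂ)
  hθ : ∀ g (f : MvPolynomial σ ℂ) d, f.IsHomogeneous d → (θ g f).IsHomogeneous d
  hsemi : ∀ g (f : MvPolynomial σ ℂ) (η : κ → MvPolynomial σ ℂ), Θ g (f • η) = θ g f • Θ g η
  hΘ : ∀ g (η : κ → MvPolynomial σ ℂ) d, (∀ k, (η k).IsHomogeneous d) →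
    ∀ k, (Θ g η k).IsHomogeneous d
  s : ι → 𝒢
  hs : Subgroup.closure (Set.range s) = ⊤
  ℓ : ι → MvPolynomial σ ℂ
  hℓ : ∀ i, (ℓ i).IsHomogeneous 1 ∧ ℓ i ≠ 0
  hΔ : ∀ i f, ℓ i ∣ θ (s i) f - f
  Dp : Submodule (MvPolynomial σ ℂ) (κ → MvPolynomial σ ℂ)
  hgr : ∀ η ∈ Dp, ∀ e, (fun k => homogeneousComponent e (η k)) ∈ Dp
  hΔD : ∀ i, ∀ η ∈ Dp, ∃ η' ∈ Dp, Θ (s i) η - η = ℓ i • η'
  hinv : ∀ η, (∀ g, Θ g η = η) → η ∈ Dp
  q : MvPolynomial σ ℂ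
  hq0 : q ≠ 0
  hq : ∀ η : κ → MvPolynomial σ ℂ, q • η ∈ Dp

namespace Chev

variable {σ κ 𝒢 ι : Type} [Fintype σ] [DecidableEq σ] [Fintype κ] [Group 𝒢]
  (𝒞 : Chev σ κ 𝒢 ι)

/-- Invariant homogeneous vector of degree `d`. -/
def Inv (d : ℕ) (η : κ → MvPolynomial σ ℂ) : Prop :=
  (∀ g, 𝒞.Θ g η = η) ∧ ∀ k, (η k).IsHomogeneous d

/-- The ideal generated by the homogeneous invariants of positive degree. -/
noncomputable def HI : Ideal (MvPolynomial σ ℂ) :=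
  Ideal.span {p | (∀ g, 𝒞.θ g p = p) ∧ ∃ d, 0 < d ∧ p.IsHomogeneous d}

/-- `𝔪 • Dp`. -/
noncomputable def mDp : Submodule (MvPolynomial σ ℂ) (κ → MvPolynomial σ ℂ) :=
  (Ideal.span (Set.range (X : σ → MvPolynomial σ ℂ))) • 𝒞.Dp

/-- Homogeneous invariant vectors which are independent modulo `𝔪 • Dp`. -/
def IsMin {r : ℕ} (η : Fin r → κ → MvPolynomial σ ℂ) (d : Fin r → ℕ) : Prop :=
  (∀ i, 𝒞.Inv (d i) (η i)) ∧
    ∀ c : Fin r → ℂ, (∑ i, (C (c i) : MvPolynomial σ ℂ) • η i) ∈ 𝒞.mDp → c = 0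

end Chev

end Pool.Agent.Lib.P4a9818
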