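import Pool.Agent.Lib.P4a9818.CFDef
import Pool.Agent.Lib.P4a9818.LinH

/-!
# P4a9818.CFa : averaging, `Dp = R · invariants`, Chevalley's lemma   (estimate 3 h)

* `Θ_stable`: `Θ g Dp ⊆ Dp`: true for `g = s i` by `hΔD`; the set of such `g` is closed under
  products, and inverses are powers (`𝒢` is finite), so it is everything
  (e.g. `Submonoid.closure`, `Subgroup.closure_toSubmonoid_of_finite`, or `isOfFinOrder`).
* `avgR`, `avgM`: `(1/|𝒢|) ∑_g θ g f` is invariant, homogeneous of degree `d` if `f` is, and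
  `avg (p * f) = p * avg f` for invariant `p`. The same for vectors.
* `dp_eq` (`Dp` is spanned by invariant homogeneous vectors): let `N0` be the span of the
  homogeneous invariants; `Θ g N0 ⊆ N0` (semilinear). Show by strong induction on `e`: `η ∈ Dp`
  homogeneous of degree `e` lies in the span of invariant vectors of degree `≤ e`. For `g = s i`:
  `Θ g η - η = ℓ i • η'`, `η' ∈ Dp`; replacing `η'` by its component of degree `e - 1` (`hgr`; if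
  `e = 0` then the left side has degree `0` and is divisible by `ℓ i`, so it vanishes) we get
  `η' ∈ N0` by induction. The set of `g` with `Θ g η - η ∈ N0` is a subgroup
  (`Θ (g h) η - η = Θ g (Θ h η - η) + (Θ g η - η)`), so it is everything; hence the average `η0` of
  `η` satisfies `η0 - η ∈ N0`, and `η0 ∈ N0`. A general `η ∈ Dp` is the sum of its components.
* `chevalley_lemma`: induction on `e` (for all `h`). `e = 0`: `h 0 = C a`; if `a ≠ 0` average the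
  relation: `C a f_0 = - ∑_{i≥1} avg(h_i) f_i`, contradiction to `hno`; so `h 0 = 0`.
  `e > 0`: write `θ (s i) (h j) - h j = ℓ i * Δ_j`; apply `θ (s i)` to the relation, subtract, divide
  by `ℓ i`: `∑ Δ_j f_j = 0`, `Δ_0` homogeneous of degree `e - 1`, so `Δ_0 ∈ HI` and
  `θ (s i) (h 0) - h 0 ∈ HI`. `HI` is `θ`-stable, so `θ g (h 0) - h 0 ∈ HI` for all `g`, and
  `avg (h 0) - h 0 ∈ HI`; `avg (h 0)` is a homogeneous invariant of degree `e > 0`, so it is in `HI`.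
-/

namespace Pool.Agent.Lib.P4a9818

open MvPolynomial

namespace Chev

variable {σ κ 𝒢 ι : Type} [Fintype σ] [DecidableEq σ] [Fintype κ] [Group 𝒢] [Finite 𝒢]
  (𝒞 : Chev σ κ 𝒢 ι)

namespace CFaAux

theorem gen_ind {P : 𝒢 → Prop} (h1 : P 1) (hs : ∀ i, P (𝒞.s i))
    (hmul : ∀ g h, P g → P h → P (g * h)) (g : 𝒢) : P g := by
  have hle : Submonoid.closure (Set.range 𝒞.s) ≤
      ({ carrier := {g | P g}, mul_mem' := fun {a b} ha hb => hmul a b ha hb, one_mem' := h1 } :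
        Submonoid 𝒢) := by
    rw [Submonoid.closure_le]
    rintro _ ⟨i, rfl⟩
    exact hs i
  have hg : g ∈ (Subgroup.closure (Set.range 𝒞.s)).toSubmonoid := by
    rw [𝒞.hs]
    exact Subgroup.mem_top g
  rw [Subgroup.closure_toSubmonoid_of_finite] at hg
  exact hle hg

theorem θ_one (f : MvPolynomial σ ℂ) : 𝒞.θ 1 f = f := by rw [map_one]; rfl

theorem θ_mul (g h : 𝒢) (f : MvPolynomial σ ℂ) : 𝒞.θ (g * h) f = 𝒞.θ g (𝒞.θ h f) := by
  rw [map_mul]; rfl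

theorem Θ_one (f : κ → MvPolynomial σ ℂ) : 𝒞.Θ 1 f = f := by rw [map_one]; rfl

theorem Θ_mul (g h : 𝒢) (f : κ → MvPolynomial σ ℂ) : 𝒞.Θ (g * h) f = 𝒞.Θ g (𝒞.Θ h f) := by
  rw [map_mul]; rfl

section
variable [Fintype 𝒢]

/-- the average on `R` -/
noncomputable def avR : MvPolynomial σ ℂ →ₗ[ℂ] MvPolynomial σ ℂ :=
  (Fintype.card 𝒢 : ℂ)⁻¹ • ∑ g, (𝒞.θ g).toLinearMap

/-- the average on `R^κ` -/
noncomputable def avM : (κ → MvPolynomial σ ℂ) →ₗ[ℂ] (κ → MvPolynomial σ ℂ) :=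
  (Fintype.card 𝒢 : ℂ)⁻¹ • ∑ g, 𝒞.Θ g

theorem avR_apply (f : MvPolynomial σ ℂ) :
    avR 𝒞 f = (Fintype.card 𝒢 : ℂ)⁻¹ • ∑ g, 𝒞.θ g f := by
  simp [avR, LinearMap.sum_apply]

theorem avM_apply (f : κ → MvPolynomial σ ℂ) :
    avM 𝒞 f = (Fintype.card 𝒢 : ℂ)⁻¹ • ∑ g, 𝒞.Θ g f := by
  simp [avM, LinearMap.sum_apply]

omit [Finite 𝒢] in
theorem card_ne (𝒢 : Type) [Group 𝒢] [Fintype 𝒢] : (Fintype.card 𝒢 : ℂ) ≠ 0 :=
  Nat.cast_ne_zero.2 Fintype.card_ne_zero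

theorem avR_inv (f : MvPolynomial σ ℂ) (g : 𝒢) : 𝒞.θ g (avR 𝒞 f) = avR 𝒞 f := by
  rw [avR_apply, map_smul, map_sum]
  congr 1
  exact Fintype.sum_equiv (Equiv.mulLeft g) _ _ fun h => (θ_mul 𝒞 g h f).symm

theorem avM_inv (f : κ → MvPolynomial σ ℂ) (g : 𝒢) : 𝒞.Θ g (avM 𝒞 f) = avM 𝒞 f := by
  rw [avM_apply, map_smul, map_sum]
  congr 1
  exact Fintype.sum_equiv (Equiv.mulLeft g) _ _ fun h => (Θ_mul 𝒞 g h f).symm

theorem avR_of_inv {f : MvPolynomial σ ℂ} (h : ∀ g, 𝒞.θ g f = f) : avR 𝒞 f = f := by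
  rw [avR_apply, Finset.sum_congr rfl fun g _ => h g, Finset.sum_const, Finset.card_univ,
    ← Nat.cast_smul_eq_nsmul ℂ, smul_smul, inv_mul_cancel₀ (card_ne 𝒢), one_smul]

theorem avM_of_inv {f : κ → MvPolynomial σ ℂ} (h : ∀ g, 𝒞.Θ g f = f) : avM 𝒞 f = f := by
  rw [avM_apply, Finset.sum_congr rfl fun g _ => h g, Finset.sum_const, Finset.card_univ,
    ← Nat.cast_smul_eq_nsmul ℂ, smul_smul, inv_mul_cancel₀ (card_ne 𝒢), one_smul]

theorem avR_hom {f : MvPolynomial σ ℂ} {d : ℕ} (h : f.IsHomogeneous d) :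
    (avR 𝒞 f).IsHomogeneous d := by
  rw [avR_apply]
  refine (homogeneousSubmodule σ ℂ d).smul_mem _ ((homogeneousSubmodule σ ℂ d).sum_mem fun g _ => ?_)
  exact 𝒞.hθ g f d h

theorem avM_hom {f : κ → MvPolynomial σ ℂ} {d : ℕ} (h : ∀ k, (f k).IsHomogeneous d) (k : κ) :
    (avM 𝒞 f k).IsHomogeneous d := by
  rw [avM_apply, Pi.smul_apply, Finset.sum_apply]
  refine (homogeneousSubmodule σ ℂ d).smul_mem _ ((homogeneousSubmodule σ ℂ d).sum_mem fun g _ => ?_)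
  exact 𝒞.hΘ g f d h k

theorem avR_mul {p : MvPolynomial σ ℂ} (f : MvPolynomial σ ℂ) (h : ∀ g, 𝒞.θ g p = p) :
    avR 𝒞 (p * f) = p * avR 𝒞 f := by
  rw [avR_apply, avR_apply, mul_smul_comm, Finset.mul_sum]
  congr 1
  exact Finset.sum_congr rfl fun g _ => by rw [map_mul, h g]

theorem avM_smul {p : MvPolynomial σ ℂ} (f : κ → MvPolynomial σ ℂ) (h : ∀ g, 𝒞.θ g p = p) :
    avM 𝒞 (p • f) = p • avM 𝒞 f := by
  have e : ∑ g, 𝒞.Θ g (p • f) = p • ∑ g, 𝒞.Θ g f := by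
    rw [Finset.smul_sum]
    exact Finset.sum_congr rfl fun g _ => by rw [𝒞.hsemi, h g]
  rw [avM_apply, avM_apply, e]
  exact smul_comm _ _ _

theorem avR_sub (I : Ideal (MvPolynomial σ ℂ)) {f : MvPolynomial σ ℂ}
    (h : ∀ g, 𝒞.θ g f - f ∈ I) : avR 𝒞 f - f ∈ I := by
  have e : avR 𝒞 f - f = C ((Fintype.card 𝒢 : ℂ)⁻¹) * ∑ g, (𝒞.θ g f - f) := by
    rw [Finset.sum_sub_distrib, Finset.sum_const, Finset.card_univ, mul_sub, ← smul_eq_C_mul,
      ← smul_eq_C_mul, ← avR_apply, ← Nat.cast_smul_eq_nsmul ℂ, smul_smul,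
      inv_mul_cancel₀ (card_ne 𝒢), one_smul]
  rw [e]
  exact I.mul_mem_left _ (I.sum_mem fun g _ => h g)

theorem avM_sub (N : Submodule (MvPolynomial σ ℂ) (κ → MvPolynomial σ ℂ))
    {f : κ → MvPolynomial σ ℂ} (h : ∀ g, 𝒞.Θ g f - f ∈ N) : avM 𝒞 f - f ∈ N := by
  have hC : ∀ (c : ℂ) (v : κ → MvPolynomial σ ℂ), c • v = (C c : MvPolynomial σ ℂ) • v := by
    intro c v
    funext k
    simp [smul_eq_C_mul]
  have e : avM 𝒞 f - f = (C ((Fintype.card 𝒢 : ℂ)⁻¹) : MvPolynomial σ ℂ) •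
      ∑ g, (𝒞.Θ g f - f) := by
    rw [Finset.sum_sub_distrib, Finset.sum_const, Finset.card_univ, smul_sub, ← hC,
      ← hC, ← avM_apply, ← Nat.cast_smul_eq_nsmul ℂ, smul_smul,
      inv_mul_cancel₀ (card_ne 𝒢), one_smul]
  rw [e]
  exact N.smul_mem _ (N.sum_mem fun g _ => h g)

end

/-- spans of invariant vectors are stable -/
theorem span_stable {S : Set (κ → MvPolynomial σ ℂ)} (hS : ∀ x ∈ S, ∀ g, 𝒞.Θ g x = x) (g : 𝒢)
    {x : κ → MvPolynomial σ ℂ} (hx : x ∈ Submodule.span (MvPolynomial σ ℂ) S) :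
    𝒞.Θ g x ∈ Submodule.span (MvPolynomial σ ℂ) S := by
  induction hx using Submodule.span_induction with
  | mem x hx => rw [hS x hx g]; exact Submodule.subset_span hx
  | zero => rw [map_zero]; exact Submodule.zero_mem _
  | add x y _ _ h1 h2 => rw [map_add]; exact Submodule.add_mem _ h1 h2
  | smul a x _ h => rw [𝒞.hsemi]; exact Submodule.smul_mem _ _ h

theorem ideal_stable {S : Set (MvPolynomial σ ℂ)} (hS : ∀ x ∈ S, ∀ g, 𝒞.θ g x = x) (g : 𝒢)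
    {x : MvPolynomial σ ℂ} (hx : x ∈ Ideal.span S) : 𝒞.θ g x ∈ Ideal.span S := by
  induction hx using Submodule.span_induction with
  | mem x hx => rw [hS x hx g]; exact Ideal.subset_span hx
  | zero => rw [map_zero]; exact Ideal.zero_mem _
  | add x y _ _ h1 h2 => rw [map_add]; exact Ideal.add_mem _ h1 h2
  | smul a x _ h => rw [smul_eq_mul, map_mul]; exact Ideal.mul_mem_left _ _ h

end CFaAux

open CFaAux

theorem Θ_stable (g : 𝒢) {η : κ → MvPolynomial σ ℂ} (hη : η ∈ 𝒞.Dp) : 𝒞.Θ g η ∈ 𝒞.Dp := by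
  revert η
  refine gen_ind 𝒞 (P := fun g => ∀ {η : κ → MvPolynomial σ ℂ}, η ∈ 𝒞.Dp → 𝒞.Θ g η ∈ 𝒞.Dp)
    ?_ ?_ ?_ g
  · intro η hη
    rw [Θ_one]
    exact hη
  · intro i η hη
    obtain ⟨η', hη', h⟩ := 𝒞.hΔD i η hη
    rw [sub_eq_iff_eq_add] at h
    rw [h]
    exact 𝒞.Dp.add_mem (𝒞.Dp.smul_mem _ hη') hη
  · intro g h hg hh η hη
    rw [Θ_mul]
    exact hg (hh hη)

/-- Reynolds operator on `R`. -/
theorem exists_avgR : ∃ av : MvPolynomial σ ℂ →ₗ[ℂ] MvPolynomial σ ℂ,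
    (∀ f g, 𝒞.θ g (av f) = av f) ∧ (∀ f, (∀ g, 𝒞.θ g f = f) → av f = f) ∧
    (∀ f d, f.IsHomogeneous d → (av f).IsHomogeneous d) ∧
    (∀ p f, (∀ g, 𝒞.θ g p = p) → av (p * f) = p * av f) ∧
    (∀ (I : Ideal (MvPolynomial σ ℂ)) f, (∀ g, 𝒞.θ g f - f ∈ I) → av f - f ∈ I) := by
  haveI := Fintype.ofFinite 𝒢
  exact ⟨avR 𝒞, fun f g => avR_inv 𝒞 f g, fun f h => avR_of_inv 𝒞 h, fun f d h => avR_hom 𝒞 h,
    fun p f h => avR_mul 𝒞 f h, fun I f h => avR_sub 𝒞 I h⟩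

/-- Reynolds operator on `R^κ`. -/
theorem exists_avgM : ∃ av : (κ → MvPolynomial σ ℂ) →ₗ[ℂ] (κ → MvPolynomial σ ℂ),
    (∀ η g, 𝒞.Θ g (av η) = av η) ∧ (∀ η, (∀ g, 𝒞.Θ g η = η) → av η = η) ∧
    (∀ η d, (∀ k, (η k).IsHomogeneous d) → ∀ k, (av η k).IsHomogeneous d) ∧
    (∀ p η, (∀ g, 𝒞.θ g p = p) → av (p • η) = p • av η) := by
  haveI := Fintype.ofFinite 𝒢
  exact ⟨avM 𝒞, fun f g => avM_inv 𝒞 f g, fun f h => avM_of_inv 𝒞 h, fun f d h => avM_hom 𝒞 h,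
    fun p f h => avM_smul 𝒞 f h⟩

theorem dp_eq (e : ℕ) {η : κ → MvPolynomial σ ℂ} (hη : η ∈ 𝒞.Dp)
    (he : ∀ k, (η k).IsHomogeneous e) :
    η ∈ Submodule.span (MvPolynomial σ ℂ) {η' | ∃ d ≤ e, 𝒞.Inv d η'} := by
  haveI := Fintype.ofFinite 𝒢
  induction e using Nat.strong_induction_on generalizing η with
  | _ e ih =>
    have hstab : ∀ x ∈ {η' : κ → MvPolynomial σ ℂ | ∃ d ≤ e, 𝒞.Inv d η'}, ∀ g, 𝒞.Θ g x = x := by
      rintro x ⟨d, -, hx⟩ g
      exact hx.1 g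
    have hall : ∀ g, 𝒞.Θ g η - η ∈ Submodule.span (MvPolynomial σ ℂ)
        {η' | ∃ d ≤ e, 𝒞.Inv d η'} := by
      refine gen_ind 𝒞 (P := fun g => 𝒞.Θ g η - η ∈ Submodule.span (MvPolynomial σ ℂ)
        {η' | ∃ d ≤ e, 𝒞.Inv d η'}) ?_ ?_ ?_
      · rw [Θ_one, sub_self]
        exact Submodule.zero_mem _
      · intro i
        obtain ⟨η', hη', h⟩ := 𝒞.hΔD i η hη
        have hhom : ∀ k, (𝒞.ℓ i * η' k).IsHomogeneous e := by
          intro k
          have h1 := congrFun h k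
          rw [Pi.sub_apply, Pi.smul_apply, smul_eq_mul] at h1
          rw [← h1]
          exact (homogeneousSubmodule σ ℂ e).sub_mem (𝒞.hΘ (𝒞.s i) η e he k) (he k)
        rw [h]
        rcases Nat.eq_zero_or_pos e with h0 | h0
        · have hz : 𝒞.ℓ i • η' = 0 := by
            funext k
            rw [Pi.smul_apply, smul_eq_mul, Pi.zero_apply]
            refine eq_zero_of_dvd (hhom k) (𝒞.hℓ i).1 (dvd_mul_right _ _) ?_
            omega
          rw [hz]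
          exact Submodule.zero_mem _
        · obtain ⟨e', rfl⟩ : ∃ e', e = 1 + e' := ⟨e - 1, by omega⟩
          refine Submodule.smul_mem _ _ ?_
          have h2 := ih e' (by omega) hη' fun k =>
            isHomogeneous_of_mul (𝒞.hℓ i).1 (𝒞.hℓ i).2 (hhom k)
          refine Submodule.span_mono ?_ h2
          rintro x ⟨d, hd, hx⟩
          exact ⟨d, by omega, hx⟩
      · intro g h hg hh
        have e1 : 𝒞.Θ (g * h) η - η = 𝒞.Θ g (𝒞.Θ h η - η) + (𝒞.Θ g η - η) := by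
          rw [Θ_mul, map_sub]
          abel
        rw [e1]
        exact Submodule.add_mem _ (span_stable 𝒞 hstab g hh) hg
    have h1 := avM_sub 𝒞 _ hall
    have h2 : avM 𝒞 η ∈ Submodule.span (MvPolynomial σ ℂ) {η' | ∃ d ≤ e, 𝒞.Inv d η'} :=
      Submodule.subset_span ⟨e, le_rfl, fun g => avM_inv 𝒞 η g, avM_hom 𝒞 he⟩
    have h3 := Submodule.sub_mem _ h2 h1
    rwa [sub_sub_cancel] at h3

theorem chevalley_lemma {r : ℕ} (f h : Fin (r + 1) → MvPolynomial σ ℂ)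
    (hf : ∀ i g, 𝒞.θ g (f i) = f i) (hsum : ∑ i, h i * f i = 0)
    (hno : ¬ ∃ t : Fin r → MvPolynomial σ ℂ, (∀ i g, 𝒞.θ g (t i) = t i) ∧
      f 0 = ∑ i, t i * f i.succ) (e : ℕ) (h0 : (h 0).IsHomogeneous e) : h 0 ∈ 𝒞.HI := by
  haveI := Fintype.ofFinite 𝒢
  induction e generalizing h with
  | zero =>
    obtain ⟨a, ha⟩ : ∃ a : ℂ, h 0 = C a := ⟨coeff 0 (h 0), by
      refine (totalDegree_eq_zero_iff_eq_C).1 ?_
      exact Nat.le_zero.1 h0.totalDegree_le⟩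
    by_cases ha0 : a = 0
    · rw [ha, ha0, C_0]
      exact Ideal.zero_mem _
    · exfalso
      apply hno
      refine ⟨fun i => C (-a⁻¹) * avR 𝒞 (h i.succ), fun i g => ?_, ?_⟩
      · rw [map_mul, avR_inv, ← algebraMap_eq, AlgEquiv.commutes]
      · have h1 := congrArg (avR 𝒞) hsum
        rw [map_zero, map_sum, Fin.sum_univ_succ] at h1
        have h2 : ∀ i, avR 𝒞 (h i * f i) = avR 𝒞 (h i) * f i := by
          intro i
          rw [mul_comm (h i), avR_mul 𝒞 _ (hf i), mul_comm]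
        have h3 : avR 𝒞 (h 0) = C a := by
          rw [ha]
          refine avR_of_inv 𝒞 fun g => ?_
          rw [← algebraMap_eq, AlgEquiv.commutes]
        rw [h2, h3, Finset.sum_congr rfl fun i _ => h2 i.succ] at h1
        have h4 : C (-a⁻¹) * (C a * f 0) = - f 0 := by
          rw [← mul_assoc, ← C_mul, neg_mul, inv_mul_cancel₀ ha0, C_neg, C_1, neg_one_mul]
        have h5 : ∑ i : Fin r, C (-a⁻¹) * avR 𝒞 (h i.succ) * f i.succ =
            C (-a⁻¹) * ∑ i : Fin r, avR 𝒞 (h i.succ) * f i.succ := by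
          rw [Finset.mul_sum]
          exact Finset.sum_congr rfl fun i _ => mul_assoc _ _ _
        rw [h5, eq_neg_of_add_eq_zero_right h1, mul_neg, h4, neg_neg]
  | succ e ih =>
    have hstab : ∀ x ∈ {p : MvPolynomial σ ℂ | (∀ g, 𝒞.θ g p = p) ∧
        ∃ d, 0 < d ∧ p.IsHomogeneous d}, ∀ g, 𝒞.θ g x = x := fun x hx g => hx.1 g
    have hall : ∀ g, 𝒞.θ g (h 0) - h 0 ∈ 𝒞.HI := by
      refine gen_ind 𝒞 (P := fun g => 𝒞.θ g (h 0) - h 0 ∈ 𝒞.HI) ?_ ?_ ?_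
      · rw [θ_one, sub_self]
        exact Ideal.zero_mem _
      · intro i
        choose Δ hΔ using fun j => 𝒞.hΔ i (h j)
        have h1 : 𝒞.ℓ i * ∑ j, Δ j * f j = 0 := by
          rw [Finset.mul_sum]
          have h2 : ∀ j, 𝒞.ℓ i * (Δ j * f j) = 𝒞.θ (𝒞.s i) (h j * f j) - h j * f j := by
            intro j
            rw [map_mul, hf j, ← sub_mul, hΔ j, mul_assoc]
          rw [Finset.sum_congr rfl fun j _ => h2 j, Finset.sum_sub_distrib, ← map_sum, hsum,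
            map_zero, sub_zero]
        have h3 : ∑ j, Δ j * f j = 0 := (mul_eq_zero.1 h1).resolve_left (𝒞.hℓ i).2
        have h4 : (Δ 0).IsHomogeneous e := by
          refine isHomogeneous_of_mul (𝒞.hℓ i).1 (𝒞.hℓ i).2 ?_
          rw [← hΔ 0, add_comm 1 e]
          exact (homogeneousSubmodule σ ℂ (e + 1)).sub_mem (𝒞.hθ (𝒞.s i) _ _ h0) h0
        have h5 := ih Δ h3 h4
        rw [hΔ 0]
        exact Ideal.mul_mem_left _ _ h5
      · intro g g' hg hg'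
        have e1 : 𝒞.θ (g * g') (h 0) - h 0 = 𝒞.θ g (𝒞.θ g' (h 0) - h 0) + (𝒞.θ g (h 0) - h 0) := by
          rw [θ_mul, map_sub]
          ring
        rw [e1]
        exact Ideal.add_mem _ (ideal_stable 𝒞 hstab g hg') hg
    have h1 := avR_sub 𝒞 𝒞.HI hall
    have h2 : avR 𝒞 (h 0) ∈ 𝒞.HI :=
      Ideal.subset_span ⟨fun g => avR_inv 𝒞 (h 0) g, e + 1, Nat.succ_pos e, avR_hom 𝒞 h0⟩
    have h3 := Ideal.sub_mem _ h2 h1
    rwa [sub_sub_cancel] at h3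

end Chev

end Pool.Agent.Lib.P4a9818
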