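import Pool.Agent.Lib.P4a9818.CFa

/-!
# P4a9818.CFb : minimal families of invariants are independent   (estimate 3 h)
-/

namespace Pool.Agent.Lib.P4a9818

open MvPolynomial

namespace CFbAux

variable {σ : Type} [Fintype σ]

omit [Fintype σ] in
theorem hc_mul {f : MvPolynomial σ ℂ} {m : ℕ} (hf : f.IsHomogeneous m) (t : MvPolynomial σ ℂ)
    (n : ℕ) : homogeneousComponent n (t * f) =
      if m ≤ n then homogeneousComponent (n - m) t * f else 0 := by
  have h1 : t * f = ∑ i ∈ Finset.range (t.totalDegree + 1), homogeneousComponent i t * f := by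
    rw [← Finset.sum_mul, sum_homogeneousComponent]
  have h2 : ∀ i, homogeneousComponent n (homogeneousComponent i t * f) =
      if n = i + m then homogeneousComponent i t * f else 0 := by
    intro i
    exact homogeneousComponent_of_mem
      ((mem_homogeneousSubmodule _ _).2 ((homogeneousComponent_isHomogeneous i t).mul hf))
  rw [h1, map_sum, Finset.sum_congr rfl (fun i _ => h2 i)]
  split_ifs with hmn
  · by_cases h3 : n - m ∈ Finset.range (t.totalDegree + 1)
    · rw [Finset.sum_eq_single_of_mem (n - m) h3]
      · rw [if_pos (by omega)]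
      · intro b _ hb
        rw [if_neg (by omega)]
    · rw [homogeneousComponent_eq_zero (n - m) t (by
        rw [Finset.mem_range] at h3; omega), zero_mul]
      refine Finset.sum_eq_zero fun i hi => ?_
      rw [if_neg]
      intro h
      apply h3
      have : n - m = i := by omega
      rw [this]; exact hi
  · refine Finset.sum_eq_zero fun i _ => ?_
    rw [if_neg (by omega)]

theorem mem_m_of_constantCoeff {p : MvPolynomial σ ℂ} (h : constantCoeff p = 0) :
    p ∈ Ideal.span (Set.range (X : σ → MvPolynomial σ ℂ)) := by
  rw [← Set.image_univ, mem_ideal_span_X_image]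
  intro m hm
  by_contra hcon
  push Not at hcon
  have h0 : m = 0 := by
    ext i
    exact hcon i (Set.mem_univ i)
  rw [mem_support_iff, h0] at hm
  exact hm h

theorem mem_m_of_homogeneous {p : MvPolynomial σ ℂ} {d : ℕ} (hd : 0 < d)
    (hp : p.IsHomogeneous d) :
    p ∈ Ideal.span (Set.range (X : σ → MvPolynomial σ ℂ)) := by
  apply mem_m_of_constantCoeff
  by_contra h
  have := hp (d := 0) (by rw [constantCoeff_eq] at h; exact h)
  simp at this
  omega

theorem sub_C_mem (p : MvPolynomial σ ℂ) :
    p - C (constantCoeff p) ∈ Ideal.span (Set.range (X : σ → MvPolynomial σ ℂ)) := by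
  apply mem_m_of_constantCoeff
  simp

omit [Fintype σ] in
theorem eq_zero_of_hc {p : MvPolynomial σ ℂ} (h : ∀ e, homogeneousComponent e p = 0) : p = 0 := by
  rw [← sum_homogeneousComponent p]
  exact Finset.sum_eq_zero fun i _ => h i

end CFbAux

open CFbAux

namespace Chev

variable {σ κ 𝒢 ι : Type} [Fintype σ] [DecidableEq σ] [Fintype κ] [Group 𝒢] [Finite 𝒢]
  (𝒞 : Chev σ κ 𝒢 ι)

omit [Finite 𝒢] in
private theorem θ_hc (g : 𝒢) (t : MvPolynomial σ ℂ) (e : ℕ) :
    𝒞.θ g (homogeneousComponent e t) = homogeneousComponent e (𝒞.θ g t) := by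
  have h1 : 𝒞.θ g t = ∑ i ∈ Finset.range (t.totalDegree + 1),
      𝒞.θ g (homogeneousComponent i t) := by
    rw [← map_sum, sum_homogeneousComponent]
  have h2 : ∀ i, homogeneousComponent e (𝒞.θ g (homogeneousComponent i t)) =
      if e = i then 𝒞.θ g (homogeneousComponent i t) else 0 := by
    intro i
    exact homogeneousComponent_of_mem
      ((mem_homogeneousSubmodule _ _).2 (𝒞.hθ g _ _ (homogeneousComponent_isHomogeneous i t)))
  rw [h1, map_sum, Finset.sum_congr rfl (fun i _ => h2 i), Finset.sum_ite_eq]
  split_ifs with h3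
  · rfl
  · rw [homogeneousComponent_eq_zero e t (by simpa using h3), map_zero]

omit [Finite 𝒢] in
private theorem θ_totalDegree (g : 𝒢) (t : MvPolynomial σ ℂ) :
    (𝒞.θ g t).totalDegree ≤ t.totalDegree := by
  have h1 : 𝒞.θ g t = ∑ i ∈ Finset.range (t.totalDegree + 1),
      𝒞.θ g (homogeneousComponent i t) := by
    rw [← map_sum, sum_homogeneousComponent]
  rw [h1]
  refine totalDegree_finsetSum_le fun i hi => ?_
  refine ((𝒞.hθ g _ _ (homogeneousComponent_isHomogeneous i t)).totalDegree_le).trans ?_
  have := Finset.mem_range.1 hi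
  omega

private theorem mem_mDp_of_HI {η : κ → MvPolynomial σ ℂ} (hη : ∀ g, 𝒞.Θ g η = η)
    (h : ∀ k, η k ∈ 𝒞.HI) : η ∈ 𝒞.mDp := by
  classical
  obtain ⟨av, h1, h2, h3, h4⟩ := 𝒞.exists_avgM
  have key : ∀ (k : κ) (p : MvPolynomial σ ℂ), p ∈ 𝒞.HI → ∀ u : MvPolynomial σ ℂ,
      av (Pi.single k (u * p)) ∈ 𝒞.mDp := by
    intro k p hp
    refine Submodule.span_induction (p := fun p _ => ∀ u : MvPolynomial σ ℂ,
      av (Pi.single k (u * p)) ∈ 𝒞.mDp) ?_ ?_ ?_ ?_ hp
    · rintro x ⟨hx1, d, hd, hx2⟩ u
      have e1 : (Pi.single k (u * x) : κ → MvPolynomial σ ℂ) = x • Pi.single k u := by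
        rw [← Pi.single_smul', smul_eq_mul, mul_comm]
      rw [e1, h4 x _ hx1]
      exact Submodule.smul_mem_smul (mem_m_of_homogeneous hd hx2) (𝒞.hinv _ (fun g => h1 _ g))
    · intro u
      rw [mul_zero, Pi.single_zero, map_zero]
      exact Submodule.zero_mem _
    · intro x y _ _ hx hy u
      rw [mul_add, Pi.single_add, map_add]
      exact Submodule.add_mem _ (hx u) (hy u)
    · intro a x _ hx u
      rw [smul_eq_mul, ← mul_assoc]
      exact hx (u * a)
  have e2 : η = ∑ k, av (Pi.single k (1 * η k)) := by
    rw [← map_sum]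
    have e3 : ∑ k, (Pi.single k (1 * η k) : κ → MvPolynomial σ ℂ) = η := by
      simp only [one_mul]
      exact Finset.univ_sum_single η
    rw [e3, h2 η hη]
  rw [e2]
  exact Submodule.sum_mem _ fun k _ => key k _ (h k) 1

theorem rel_zero {r : ℕ} (η : Fin r → κ → MvPolynomial σ ℂ) (d : Fin r → ℕ)
    (hη : 𝒞.IsMin η d) (δ : ℕ) (f : Fin r → MvPolynomial σ ℂ)
    (hf : ∀ i g, 𝒞.θ g (f i) = f i)
    (hd : ∀ i, f i = 0 ∨ (d i ≤ δ ∧ (f i).IsHomogeneous (δ - d i)))
    (hsum : ∑ i, f i • η i = 0) : f = 0 := by
  classical
  induction r with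
  | zero => exact Subsingleton.elim _ _
  | succ r ih =>
    obtain ⟨hη1, hη2⟩ := hη
    by_cases hno : ∃ t : Fin r → MvPolynomial σ ℂ, (∀ i g, 𝒞.θ g (t i) = t i) ∧
      f 0 = ∑ i, t i * f i.succ
    · -- case (B)
      have hno' : ∃ t : Fin r → MvPolynomial σ ℂ, (∀ i g, 𝒞.θ g (t i) = t i) ∧
          (∀ i, t i = 0 ∨ (d 0 ≤ d i.succ ∧ (t i).IsHomogeneous (d i.succ - d 0))) ∧
          f 0 = ∑ i, t i * f i.succ := by
        obtain ⟨t, ht1, ht2⟩ := hno
        rcases hd 0 with h0 | ⟨h0, h0'⟩
        · exact ⟨fun _ => 0, fun _ g => map_zero _, fun _ => Or.inl rfl, by simp [h0]⟩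
        · refine ⟨fun i => if d 0 ≤ d i.succ then
            homogeneousComponent (d i.succ - d 0) (t i) else 0, ?_, ?_, ?_⟩
          · intro i g
            dsimp only
            split_ifs with h
            · rw [θ_hc, ht1]
            · exact map_zero _
          · intro i
            dsimp only
            split_ifs with h
            · exact Or.inr ⟨h, homogeneousComponent_isHomogeneous _ _⟩
            · exact Or.inl rfl
          · have e1 : f 0 = homogeneousComponent (δ - d 0) (f 0) := by
              rw [homogeneousComponent_of_mem ((mem_homogeneousSubmodule _ _).2 h0'), if_pos rfl]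
            rw [e1]
            conv_lhs => rw [ht2]
            rw [map_sum]
            refine Finset.sum_congr rfl fun i _ => ?_
            rcases hd i.succ with h1 | ⟨h1, h1'⟩
            · rw [h1, mul_zero, mul_zero, map_zero]
            · rw [hc_mul h1']
              by_cases h2 : d 0 ≤ d i.succ
              · rw [if_pos (by omega)]
                dsimp only
                rw [if_pos h2]
                congr 3
                omega
              · rw [if_neg (by omega)]
                dsimp only
                rw [if_neg h2, zero_mul]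
      obtain ⟨t, ht1, ht2, ht3⟩ := hno'
      have hmin : 𝒞.IsMin (fun i : Fin r => η i.succ + t i • η 0) (fun i => d i.succ) := by
        refine ⟨fun i => ⟨fun g => ?_, fun k => ?_⟩, fun c hc => ?_⟩
        · rw [map_add, 𝒞.hsemi, ht1, (hη1 i.succ).1 g, (hη1 0).1 g]
        · dsimp only
          rcases ht2 i with h | ⟨h, h'⟩
          · rw [h, zero_smul, add_zero]
            exact (hη1 i.succ).2 k
          · refine IsHomogeneous.add ((hη1 i.succ).2 k) ?_
            have := h'.mul ((hη1 0).2 k)
            rw [Nat.sub_add_cancel h] at this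
            exact this
        · set τ : MvPolynomial σ ℂ := ∑ i, C (c i) * t i with hτ
          have e1 : ∑ i, (C (c i) : MvPolynomial σ ℂ) • (η i.succ + t i • η 0) =
              ∑ i, (C (c i) : MvPolynomial σ ℂ) • η i.succ + τ • η 0 := by
            rw [hτ, Finset.sum_smul, ← Finset.sum_add_distrib]
            refine Finset.sum_congr rfl fun i _ => ?_
            rw [smul_add, smul_smul]
          have e2 : (τ - C (constantCoeff τ)) • η 0 ∈ 𝒞.mDp :=
            Submodule.smul_mem_smul (sub_C_mem τ) (𝒞.hinv _ (hη1 0).1)
          have e3 := hη2 (Fin.cons (constantCoeff τ) c) (by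
            rw [Fin.sum_univ_succ]
            simp only [Fin.cons_zero, Fin.cons_succ]
            have e4 := Submodule.sub_mem _ hc e2
            rw [e1] at e4
            convert e4 using 1
            rw [sub_smul]
            abel)
          funext i
          have := congrFun e3 i.succ
          simpa using this
      have hz := ih (fun i : Fin r => η i.succ + t i • η 0) (fun i => d i.succ) hmin
        (fun i => f i.succ) (fun i g => hf i.succ g) (fun i => hd i.succ) (by
          rw [Fin.sum_univ_succ, ht3, Finset.sum_smul] at hsum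
          rw [← hsum, ← Finset.sum_add_distrib]
          refine Finset.sum_congr rfl fun i _ => ?_
          rw [smul_add, smul_smul, mul_comm, add_comm])
      have hz' : ∀ i : Fin r, f i.succ = 0 := fun i => congrFun hz i
      funext i
      refine Fin.cases ?_ hz' i
      rw [ht3]
      exact Finset.sum_eq_zero fun i _ => by rw [hz' i, mul_zero]
    · -- case (A)
      exfalso
      have h1 : ∀ k, η 0 k ∈ 𝒞.HI := by
        intro k
        refine 𝒞.chevalley_lemma f (fun i => η i k) hf ?_ hno (d 0) ((hη1 0).2 k)
        have := congrFun hsum k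
        rw [Finset.sum_apply] at this
        rw [← Pi.zero_apply (M := fun _ => MvPolynomial σ ℂ) k, ← this]
        refine Finset.sum_congr rfl fun i _ => ?_
        rw [Pi.smul_apply, smul_eq_mul, mul_comm]
      have h2 := 𝒞.mem_mDp_of_HI (hη1 0).1 h1
      have h3 := hη2 (Pi.single 0 1) (by
        rw [Finset.sum_eq_single 0]
        · rw [Pi.single_eq_same, map_one, one_smul]
          exact h2
        · intro b _ hb
          rw [Pi.single_eq_of_ne hb, map_zero, zero_smul]
        · intro h
          exact absurd (Finset.mem_univ _) h)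
      have := congrFun h3 0
      simp at this

private theorem inv_zero {r : ℕ} (η : Fin r → κ → MvPolynomial σ ℂ) (d : Fin r → ℕ)
    (hη : 𝒞.IsMin η d) (f : Fin r → MvPolynomial σ ℂ)
    (hf : ∀ i g, 𝒞.θ g (f i) = f i) (hsum : ∑ i, f i • η i = 0) : f = 0 := by
  have key : ∀ δ, (fun i => if d i ≤ δ then homogeneousComponent (δ - d i) (f i) else 0) =
      (0 : Fin r → MvPolynomial σ ℂ) := by
    intro δ
    refine 𝒞.rel_zero η d hη δ _ ?_ ?_ ?_
    · intro i g
      split_ifs with h
      · rw [θ_hc, hf]
      · exact map_zero _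
    · intro i
      split_ifs with h
      · exact Or.inr ⟨h, homogeneousComponent_isHomogeneous _ _⟩
      · exact Or.inl rfl
    · funext k
      have h1 := congrArg (homogeneousComponent δ) (congrFun hsum k)
      rw [Finset.sum_apply, map_sum, Pi.zero_apply, map_zero] at h1
      rw [Finset.sum_apply, Pi.zero_apply]
      refine (Finset.sum_congr rfl fun i _ => ?_).trans h1
      rw [Pi.smul_apply, Pi.smul_apply, smul_eq_mul, smul_eq_mul, hc_mul ((hη.1 i).2 k), ite_mul,
        zero_mul]
  funext i
  refine eq_zero_of_hc fun e => ?_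
  have := congrFun (key (e + d i)) i
  rw [if_pos (Nat.le_add_left _ _), Nat.add_sub_cancel] at this
  exact this

theorem min_indep {r : ℕ} (η : Fin r → κ → MvPolynomial σ ℂ) (d : Fin r → ℕ)
    (hη : 𝒞.IsMin η d) : LinearIndependent (MvPolynomial σ ℂ) η := by
  have main : ∀ (N : ℕ) (f : Fin r → MvPolynomial σ ℂ),
      (∀ i, f i = 0 ∨ (f i).totalDegree < N) → ∑ i, f i • η i = 0 → f = 0 := by
    intro N
    induction N with
    | zero =>
      intro f hf _
      funext i
      rcases hf i with h | h
      · exact h
      · omega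
    | succ N ih =>
      intro f hf hsum
      refine 𝒞.inv_zero η d hη f ?_ hsum
      have hs : ∀ j i, 𝒞.θ (𝒞.s j) (f i) = f i := by
        intro j
        choose Δ hΔ using fun i => 𝒞.hΔ j (f i)
        have hΔ0 : Δ = 0 := by
          apply ih
          · intro i
            by_cases h0 : Δ i = 0
            · exact Or.inl h0
            · right
              have h1 : (𝒞.ℓ j * Δ i).totalDegree = 1 + (Δ i).totalDegree := by
                rw [totalDegree_mul_of_isDomain (𝒞.hℓ j).2 h0,
                  (𝒞.hℓ j).1.totalDegree (𝒞.hℓ j).2]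
              have h2 : (𝒞.ℓ j * Δ i).totalDegree ≤ (f i).totalDegree := by
                rw [← hΔ i]
                refine (totalDegree_sub _ _).trans (max_le (𝒞.θ_totalDegree _ _) le_rfl)
              rcases hf i with h3 | h3
              · exfalso
                have h4 := hΔ i
                rw [h3, map_zero, sub_zero] at h4
                rcases mul_eq_zero.1 h4.symm with h5 | h5
                · exact (𝒞.hℓ j).2 h5
                · exact h0 h5
              · omega
          · have h1 : 𝒞.ℓ j • ∑ i, Δ i • η i = 0 := by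
              have h2 : ∑ i, 𝒞.θ (𝒞.s j) (f i) • η i = 0 := by
                have h3 := congrArg (𝒞.Θ (𝒞.s j)) hsum
                rw [map_zero, map_sum] at h3
                rw [← h3]
                refine Finset.sum_congr rfl fun i _ => ?_
                rw [𝒞.hsemi, (hη.1 i).1]
              rw [Finset.smul_sum]
              have h4 : ∑ i, 𝒞.ℓ j • Δ i • η i =
                  ∑ i, 𝒞.θ (𝒞.s j) (f i) • η i - ∑ i, f i • η i := by
                rw [← Finset.sum_sub_distrib]
                refine Finset.sum_congr rfl fun i _ => ?_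
                rw [smul_smul, ← hΔ i, sub_smul]
              rw [h4, h2, hsum, sub_zero]
            funext k
            have h5 := congrFun h1 k
            rw [Pi.smul_apply, smul_eq_mul, Pi.zero_apply] at h5
            rcases mul_eq_zero.1 h5 with h6 | h6
            · exact absurd h6 (𝒞.hℓ j).2
            · exact h6
        intro i
        have h7 := hΔ i
        rw [hΔ0, Pi.zero_apply, mul_zero] at h7
        exact sub_eq_zero.1 h7
      intro i g
      have hg : g ∈ Subgroup.closure (Set.range 𝒞.s) := by rw [𝒞.hs]; trivial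
      refine Subgroup.closure_induction (p := fun g _ => 𝒞.θ g (f i) = f i) ?_ ?_ ?_ ?_ hg
      · rintro _ ⟨j, rfl⟩
        exact hs j i
      · rw [map_one]; rfl
      · intro x y _ _ hx hy
        rw [map_mul, AlgEquiv.mul_apply, hy, hx]
      · intro x _ hx
        rw [map_inv]
        change (𝒞.θ x).symm (f i) = f i
        rw [AlgEquiv.symm_apply_eq]
        exact hx.symm
  rw [Fintype.linearIndependent_iff]
  intro f hsum
  have := main ((Finset.univ.sup fun i => (f i).totalDegree) + 1) f (fun i => Or.inr (by
    have := Finset.le_sup (f := fun i => (f i).totalDegree) (Finset.mem_univ i)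
    omega)) hsum
  exact fun i => congrFun this i

end Chev

end Pool.Agent.Lib.P4a9818
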