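import Pool.Agent.Lib.P4a9818.CFb

/-!
# P4a9818.CFc : the freeness theorem   (estimate 2 h)

By `min_indep` a family with `IsMin` has at most `card κ` members. Take one of maximal length `r`
(the empty family is one). Claim: it spans `Dp`. If not, by `dp_eq` (and `hgr`) there is an
invariant homogeneous `η` (automatically in `Dp`, `hinv`) not in `span (range η_i)`; take one of
minimal degree `e`. The family extended by `η` is again `IsMin`: suppose
`C c • η + ∑ C (c i) • η_i ∈ 𝔪 Dp`. If `c ≠ 0`, take the component of degree `e` (`𝔪 Dp` is graded, and its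
elements of degree `e` are `∑ X_k ζ_k` with `ζ_k ∈ Dp` of degree `e - 1`); by `dp_eq` the `ζ_k` are
combinations of invariant vectors of degree `< e`, which are in `span (range η_i)` by minimality; so
`η ∈ span (range η_i)`, a contradiction. So `c = 0`, and all `c i = 0` by `IsMin`. This contradicts the
maximality of `r`.
So the family is a basis of `Dp`, and `r = card κ` because `q R^κ ⊆ Dp ⊆ R^κ` (the `card κ`
independent vectors `q e_k` lie in the free module `Dp` of rank `r`, and the `r` independent vectors
`η_i` lie in `R^κ`). Reindex by an equivalence `κ ≃ Fin r`.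
-/

namespace Pool.Agent.Lib.P4a9818

open MvPolynomial

namespace CFcAux

variable {σ κ : Type}

/-- The homogeneous component of a vector. -/
noncomputable def hv (e : ℕ) (η : κ → MvPolynomial σ ℂ) : κ → MvPolynomial σ ℂ :=
  fun k => homogeneousComponent e (η k)

theorem hv_add (e : ℕ) (η ξ : κ → MvPolynomial σ ℂ) : hv e (η + ξ) = hv e η + hv e ξ := by
  funext k
  simp [hv]

theorem hv_zero (e : ℕ) : hv e (0 : κ → MvPolynomial σ ℂ) = 0 := by
  funext k
  simp [hv]

theorem hv_sum {ι : Type} (s : Finset ι) (e : ℕ) (f : ι → κ → MvPolynomial σ ℂ) :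
    hv e (∑ i ∈ s, f i) = ∑ i ∈ s, hv e (f i) := by
  classical
  induction s using Finset.induction_on with
  | empty => simp [hv_zero]
  | insert a s ha ih => rw [Finset.sum_insert ha, Finset.sum_insert ha, hv_add, ih]

theorem hv_C (e : ℕ) (c : ℂ) (η : κ → MvPolynomial σ ℂ) :
    hv e ((C c : MvPolynomial σ ℂ) • η) = (C c : MvPolynomial σ ℂ) • hv e η := by
  funext k
  simp only [hv, Pi.smul_apply, smul_eq_mul, homogeneousComponent_C_mul]

theorem hc_X_mul_succ (e : ℕ) (s : σ) (f : MvPolynomial σ ℂ) :
    homogeneousComponent (e + 1) (X s * f) = X s * homogeneousComponent e f := by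
  classical
  apply MvPolynomial.ext
  intro u
  rw [coeff_homogeneousComponent, coeff_X_mul', coeff_X_mul', coeff_homogeneousComponent]
  by_cases hs : s ∈ u.support
  · have hd : u.degree = (u - Finsupp.single s 1).degree + 1 := by
      have h1 : u = (u - Finsupp.single s 1) + Finsupp.single s 1 := by
        rw [tsub_add_cancel_of_le]
        rw [Finsupp.single_le_iff]
        exact Nat.one_le_iff_ne_zero.mpr (Finsupp.mem_support_iff.mp hs)
      conv_lhs => rw [h1]
      rw [map_add, Finsupp.degree_single]
    rw [if_pos hs, if_pos hs, hd]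
    simp only [Nat.add_right_cancel_iff]
  · rw [if_neg hs, if_neg hs]
    split_ifs <;> rfl

theorem hc_X_mul_zero (s : σ) (f : MvPolynomial σ ℂ) :
    homogeneousComponent 0 (X s * f) = 0 := by
  classical
  rw [homogeneousComponent_zero, coeff_X_mul', if_neg (by simp), C_0]

theorem sum_hv [Fintype κ] (η : κ → MvPolynomial σ ℂ) :
    ∃ N : ℕ, η = ∑ e ∈ Finset.range (N + 1), hv e η := by
  refine ⟨∑ k, (η k).totalDegree, ?_⟩
  funext k
  rw [Finset.sum_apply]
  have hk : (η k).totalDegree ≤ ∑ k, (η k).totalDegree :=
    Finset.single_le_sum (f := fun k => (η k).totalDegree) (fun _ _ => Nat.zero_le _)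
      (Finset.mem_univ k)
  conv_lhs => rw [← sum_homogeneousComponent (η k)]
  apply Finset.sum_subset
  · intro e he
    rw [Finset.mem_range] at he ⊢
    omega
  · intro e _ he
    rw [Finset.mem_range] at he
    exact homogeneousComponent_eq_zero _ _ (by omega)

end CFcAux

namespace Chev

variable {σ κ 𝒢 ι : Type} [Fintype σ] [DecidableEq σ] [Fintype κ] [Group 𝒢] [Finite 𝒢]
  (𝒞 : Chev σ κ 𝒢 ι)

open CFcAux

theorem CFcAux_mDp (e : ℕ) (S : Submodule (MvPolynomial σ ℂ) (κ → MvPolynomial σ ℂ))
    (hS : ∀ d < e, ∀ η, 𝒞.Inv d η → η ∈ S) {ξ : κ → MvPolynomial σ ℂ} (hξ : ξ ∈ 𝒞.mDp) :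
    hv e ξ ∈ S := by
  unfold mDp at hξ
  induction hξ using Submodule.smul_induction_on' with
  | smul r hr n hn =>
    revert n
    induction hr using Submodule.span_induction with
    | mem x hx =>
      intro n hn
      obtain ⟨s, rfl⟩ := hx
      cases e with
      | zero =>
        have : hv 0 ((X s : MvPolynomial σ ℂ) • n) = 0 := by
          funext k
          exact hc_X_mul_zero s (n k)
        rw [this]
        exact zero_mem _
      | succ e =>
        have : hv (e + 1) ((X s : MvPolynomial σ ℂ) • n) = (X s : MvPolynomial σ ℂ) • hv e n := by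
          funext k
          exact hc_X_mul_succ e s (n k)
        rw [this]
        apply Submodule.smul_mem
        have h1 := 𝒞.dp_eq e (𝒞.hgr n hn e) (fun k => homogeneousComponent_isHomogeneous _ _)
        refine (Submodule.span_le.mpr ?_) h1
        rintro η ⟨d, hd, hη⟩
        exact hS d (by omega) η hη
    | zero => intro n _; rw [zero_smul, hv_zero]; exact zero_mem _
    | add x y _ _ hx hy => intro n hn; rw [add_smul, hv_add]; exact add_mem (hx n hn) (hy n hn)
    | smul a x _ hx =>
      intro n hn
      have : (a • x) • n = x • (a • n) := by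
        rw [smul_eq_mul, mul_comm, mul_smul]
      rw [this]
      exact hx _ (Submodule.smul_mem _ _ hn)
  | add x _ y _ hx hy => rw [hv_add]; exact add_mem hx hy

theorem CFcAux_le_card {r : ℕ} {η : Fin r → κ → MvPolynomial σ ℂ} {d : Fin r → ℕ}
    (h : 𝒞.IsMin η d) : r ≤ Fintype.card κ := by
  have h1 := (𝒞.min_indep η d h).fintype_card_le_finrank
  rwa [Module.finrank_fintype_fun_eq_card, Fintype.card_fin] at h1

theorem exists_basis : ∃ (ηb : κ → κ → MvPolynomial σ ℂ) (d : κ → ℕ),
    (∀ i k, (ηb i k).IsHomogeneous (d i)) ∧ LinearIndependent (MvPolynomial σ ℂ) ηb ∧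
    Submodule.span (MvPolynomial σ ℂ) (Set.range ηb) = 𝒞.Dp := by
  classical
  obtain ⟨r, ⟨η, d, hmin⟩, hmax⟩ : ∃ r, (∃ (η : Fin r → κ → MvPolynomial σ ℂ) (d : Fin r → ℕ),
      𝒞.IsMin η d) ∧ ∀ (η : Fin (r + 1) → κ → MvPolynomial σ ℂ) (d : Fin (r + 1) → ℕ),
      ¬ 𝒞.IsMin η d := by
    by_contra hcon
    push Not at hcon
    have hall : ∀ r, ∃ (η : Fin r → κ → MvPolynomial σ ℂ) (d : Fin r → ℕ), 𝒞.IsMin η d := by
      intro r
      induction r with
      | zero =>
        refine ⟨fun _ => 0, fun _ => 0, fun i => i.elim0, fun c _ => ?_⟩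
        exact Subsingleton.elim _ _
      | succ r ih =>
        exact hcon r ih
    obtain ⟨η, d, h⟩ := hall (Fintype.card κ + 1)
    have := 𝒞.CFcAux_le_card h
    omega
  set S : Submodule (MvPolynomial σ ℂ) (κ → MvPolynomial σ ℂ) :=
    Submodule.span (MvPolynomial σ ℂ) (Set.range η) with hSdef
  have hηS : ∀ i, η i ∈ S := fun i => Submodule.subset_span ⟨i, rfl⟩
  have hInv : ∀ e, ∀ ζ, 𝒞.Inv e ζ → ζ ∈ S := by
    intro e
    induction e using Nat.strong_induction_on with
    | _ e ih =>
      intro ζ hζ
      by_contra hζS
      apply hmax (Fin.cons ζ η) (Fin.cons e d)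
      refine ⟨?_, ?_⟩
      · intro i
        refine Fin.cases ?_ ?_ i
        · simpa using hζ
        · intro j
          simpa using hmin.1 j
      · intro c hc
        rw [Fin.sum_univ_succ] at hc
        simp only [Fin.cons_zero, Fin.cons_succ] at hc
        have hc0 : c 0 = 0 := by
          by_contra hne
          have h1 := 𝒞.CFcAux_mDp e S ih hc
          rw [hv_add, hv_C, hv_sum] at h1
          have h2 : ∀ i, hv e ((C (c (Fin.succ i)) : MvPolynomial σ ℂ) • η i) ∈ S := by
            intro i
            rw [hv_C]
            apply Submodule.smul_mem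
            by_cases hde : d i = e
            · have : hv e (η i) = η i := by
                funext k
                have h3 := (hmin.1 i).2 k
                rw [hde] at h3
                exact homogeneousComponent_of_mem h3 |>.trans (if_pos rfl)
              rw [this]
              exact hηS i
            · have : hv e (η i) = 0 := by
                funext k
                have h3 := (hmin.1 i).2 k
                exact homogeneousComponent_of_mem h3 |>.trans (if_neg (Ne.symm hde))
              rw [this]
              exact zero_mem _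
          have h4 : hv e ζ = ζ := by
            funext k
            exact homogeneousComponent_of_mem (hζ.2 k) |>.trans (if_pos rfl)
          have h5 : (C (c 0) : MvPolynomial σ ℂ) • ζ ∈ S := by
            rw [h4] at h1
            exact (Submodule.add_mem_iff_left _ (Submodule.sum_mem _ fun i _ => h2 i)).mp h1
          apply hζS
          have h6 : ζ = (C (c 0)⁻¹ : MvPolynomial σ ℂ) • ((C (c 0) : MvPolynomial σ ℂ) • ζ) := by
            rw [smul_smul, ← C_mul, inv_mul_cancel₀ hne, C_1, one_smul]
          rw [h6]
          exact Submodule.smul_mem _ _ h5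
        rw [hc0, C_0, zero_smul, zero_add] at hc
        have h7 := hmin.2 (fun i => c i.succ) hc
        funext i
        refine Fin.cases ?_ ?_ i
        · exact hc0
        · intro j
          exact congrFun h7 j
  have hSD : S = 𝒞.Dp := by
    apply le_antisymm
    · rw [hSdef, Submodule.span_le]
      rintro _ ⟨i, rfl⟩
      exact 𝒞.hinv _ (hmin.1 i).1
    · intro ξ hξ
      obtain ⟨N, hN⟩ := sum_hv ξ
      rw [hN]
      apply Submodule.sum_mem
      intro e _
      have h1 := 𝒞.dp_eq e (𝒞.hgr ξ hξ e) (fun k => homogeneousComponent_isHomogeneous _ _)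
      refine (Submodule.span_le.mpr ?_) h1
      rintro η ⟨d, _, hη⟩
      exact hInv d η hη
  have hind := 𝒞.min_indep η d hmin
  have hcard : Fintype.card κ = r := by
    apply le_antisymm
    · have hfr : Module.finrank (MvPolynomial σ ℂ) S = r := by
        rw [hSdef, finrank_span_eq_card hind, Fintype.card_fin]
      have hfin : Module.Finite (MvPolynomial σ ℂ) S := by
        rw [hSdef]
        exact Module.Finite.span_of_finite _ (Set.finite_range _)
      have hmem : ∀ k : κ, 𝒞.q • (Pi.single k (1 : MvPolynomial σ ℂ) : κ → MvPolynomial σ ℂ) ∈ S := by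
        intro k
        rw [hSD]
        exact 𝒞.hq _
      have hli : LinearIndependent (MvPolynomial σ ℂ) (fun k : κ => (⟨_, hmem k⟩ : S)) := by
        apply LinearIndependent.of_comp S.subtype
        rw [Fintype.linearIndependent_iff]
        intro g hg k
        have h8 := congrFun hg k
        simp only [Function.comp_apply, Submodule.subtype_apply, Finset.sum_apply, Pi.smul_apply,
          smul_eq_mul, Pi.zero_apply] at h8
        rw [Finset.sum_eq_single k] at h8
        · simp only [Pi.single_eq_same, mul_one] at h8
          exact (mul_eq_zero.mp h8).resolve_right 𝒞.hq0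
        · intro j _ hj
          rw [Pi.single_eq_of_ne hj.symm]
          simp
        · intro h
          exact absurd (Finset.mem_univ k) h
      have h9 := hli.fintype_card_le_finrank
      rwa [hfr] at h9
    · exact 𝒞.CFcAux_le_card hmin
  let e : κ ≃ Fin r := Fintype.equivFinOfCardEq hcard
  refine ⟨fun k => η (e k), fun k => d (e k), fun i k => (hmin.1 (e i)).2 k,
    hind.comp e e.injective, ?_⟩
  rw [← hSD, hSdef]
  congr 1
  exact e.surjective.range_comp η

end Chev

end Pool.Agent.Lib.P4a9818
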