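import Pool.Agent.Lib.P4a9818.JD
import Pool.Agent.Lib.P4a9818.Act

/-!
# P4a9818.CInd : the restrictions to two different hyperplanes are independent  (estimate 2.5 h)

Let `J_D` be the space of homogeneous elements of degree `D` in `J`. For `F ∈ J_D` and each `i`
`F ≡ C (c_i F) π_i mod ℓ_i` (`mem_J_iff`); `c_i(F)` is unique (`ℓ_i ∤ π_i`), linear in `F`, and
`c_i(F) = 0 ↔ ℓ_i ∣ F`. By `exists_basis` `c_i ≠ 0`.
Claim: for `i ≠ j` there is `F ∈ J_D` with `ℓ_j ∣ F`, `ℓ_i ∤ F`. Suppose not: `c_j F = 0 ⇒ c_i F = 0`.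
Let `F1 ∈ J_D` with `c_i F1 ≠ 0`; then `c_j F1 ≠ 0`, and for `F ∈ J_D`, `F - (c_j F/c_j F1) F1` is
killed by `c_j`, hence by `c_i`: `c_i F = (c_j F / c_j F1) c_i F1`. So `ℓ_i ∣ F ↔ ℓ_j ∣ F` on `J_D`.
Let `W = closure {g i, g j} ⊆ G`, finite, and `K = {F ∈ J_D | ℓ_i ∣ F} = {F ∈ J_D | ℓ_j ∣ F}`.
`W` acts on `J_D` (`sub g`, `sub_mem_J`, `sub_isHomogeneous`), `K` is stable under `g i`
(`sub_g_lf`) and `g j`, and `sub (g i) F - F ∈ K`, `sub (g j) F - F ∈ K` (`dvd_sub_sub`). So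
`sub w F1 - F1 ∈ K` for all `w ∈ W` (closure induction; for inverses multiply back), and the average
`F0 = (1/|W|) ∑_{w∈W} sub w F1` satisfies `F0 - F1 ∈ K`, so `ℓ_i ∤ F0`, `F0 ∈ J_D`, and
`sub w F0 = F0` for `w ∈ W`.
By `Lin.exists_generic_sub` (`S = span {l i, l j}`) there is `p` with `l i ⬝ p = l j ⬝ p = 0` and
`l r ⬝ p ≠ 0` for all `r ∉ cls i j`. All derivatives of `F0` at `p` vanish: `F0(g x) = F0(x)` for
`g = g i` and `g p = p` give `∂_{g v} F0(p) = ∂_v F0(p)`; for `v = a i`, `g v = z v`, `z ≠ 1`: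
`∂_{a i} F0(p) = 0`; the same for `a j`; `F0` vanishes on `X = {l i = l j = 0}` (`F0 ∈ J`), so
`∂_b F0(p) = 0` for `b ∈ X`; and every `v` is a combination of `a i`, `a j` and an element of `X`
because the matrix `(1, l i ⬝ a j; l j ⬝ a i, 1)` has determinant `1 - t i j ≠ 0` (`t_ne_one`).
On the other hand `F0 = C c π_i + ℓ_i u`, `c ≠ 0`. Let `r ∈ rep i ∩ cls i j` (so
`span {l i, l r} = span {l i, l j}`), choose `b` with `l i ⬝ b = 0`, `l r ⬝ b = 1`:
`0 = ∂_b F0(p) = c ∂_b π_i(p) = c ∏_{r'≠r} (l r' ⬝ p) ≠ 0` (`ℓ_r(p) = 0`; the other representatives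
are not in `cls i j`). Contradiction.
-/

namespace Pool.Agent.Lib.P4a9818

open MvPolynomial Matrix

variable {σ : Type} [Fintype σ] [DecidableEq σ] (A : Datum σ)

namespace CIndAux

/-- The chain rule. -/
theorem dd_sub_mat (M : Matrix σ σ ℂ) (v : σ → ℂ) (f : MvPolynomial σ ℂ) :
    dd v (sub M f) = sub M (dd (M *ᵥ v) f) := by
  induction f using MvPolynomial.induction_on with
  | C a =>
    have h1 : sub M (C a) = C a := by
      unfold sub
      rw [aeval_C, algebraMap_eq]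
    rw [h1, dd_C, dd_C, map_zero]
  | add p q hp hq => rw [map_add, dd_add, hp, hq, dd_add, map_add]
  | mul_X p k hp =>
    have h1 : sub M (X k) = lf (M k) := by
      unfold sub
      rw [aeval_X]
    have h2 : dd (M *ᵥ v) (X k : MvPolynomial σ ℂ) = C ((M *ᵥ v) k) := by
      classical
      rw [← lf_single k, dd_lf, single_one_dotProduct]
    have h3 : sub M (C ((M *ᵥ v) k)) = C ((M *ᵥ v) k) := by
      unfold sub
      rw [aeval_C, algebraMap_eq]
    rw [map_mul, dd_mul, hp, dd_mul, map_add, map_mul, map_mul, h1, h2, h3, dd_lf]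
    rfl

theorem g_mulVec_a (i : A.ι) : (A.g i : Matrix σ σ ℂ) *ᵥ A.a i = A.z i • A.a i := by
  rw [A.hg i, add_mulVec, one_mulVec, smul_mulVec, vecMulVec_mulVec, A.la i]
  ext k
  simp
  ring

/-- A polynomial divisible by two different linear forms has no linear part along their
intersection. -/
theorem eval_dd_of_dvd {i j : A.ι} (hij : i ≠ j) {f : MvPolynomial σ ℂ} (hi : lf (A.l i) ∣ f)
    (hj : lf (A.l j) ∣ f) (v : σ → ℂ) {p : σ → ℂ} (hpi : A.l i ⬝ᵥ p = 0)
    (hpj : A.l j ⬝ᵥ p = 0) : eval p (dd v f) = 0 := by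
  obtain ⟨u, rfl⟩ := hi
  have h1 : ¬ lf (A.l j) ∣ lf (A.l i) := by
    rw [lf_dvd_lf_iff (A.l_ne_zero j)]
    rintro ⟨c, hc⟩
    exact A.l_not_smul hij.symm c hc
  have h2 : lf (A.l j) ∣ u := ((prime_lf (A.l_ne_zero j)).dvd_or_dvd hj).resolve_left h1
  obtain ⟨w, rfl⟩ := h2
  rw [eval_dd_mul_lf _ _ _ _ hpi, map_mul, eval_lf, hpj, zero_mul, mul_zero]

theorem deriv_zero {i j : A.ι} (hij : i ≠ j) {F : MvPolynomial σ ℂ}
    (hi : lf (A.l i) ∣ sub (A.g i : Matrix σ σ ℂ) F - F)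
    (hj : lf (A.l j) ∣ sub (A.g i : Matrix σ σ ℂ) F - F) {p : σ → ℂ} (hpi : A.l i ⬝ᵥ p = 0)
    (hpj : A.l j ⬝ᵥ p = 0) : eval p (dd (A.a i) F) = 0 := by
  have h1 := eval_dd_of_dvd A hij hi hj (A.a i) hpi hpj
  rw [dd_sub, map_sub, dd_sub_mat, eval_sub, A.g_mulVec i hpi, g_mulVec_a, dd_smul_left, map_mul,
    eval_C] at h1
  have h2 : (A.z i - 1) * eval p (dd (A.a i) F) = 0 := by linear_combination h1
  exact (mul_eq_zero.1 h2).resolve_left (sub_ne_zero.2 (A.hz i))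

end CIndAux

namespace Datum

open CIndAux

theorem exists_cInd {lam : ℂ} {D : ℕ} (hS : A.Scal lam D) {i j : A.ι} (hij : i ≠ j) :
    ∃ F : MvPolynomial σ ℂ, F.IsHomogeneous D ∧ F ∈ A.J ∧ lf (A.l j) ∣ F ∧
      ¬ lf (A.l i) ∣ F := by
  classical
  by_contra hcon
  push Not at hcon
  obtain ⟨Fb, hFb⟩ := A.exists_basis hS
  obtain ⟨s, hs⟩ := hFb.ndvd i
  set F1 := Fb s with hF1
  have hom := hFb.hom s
  have hmem := hFb.mem s
  have hj1 : ¬ lf (A.l j) ∣ F1 := fun h => hs (hcon F1 hom hmem h)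
  obtain ⟨c1, hc1⟩ := (A.mem_J_iff hS hom).1 hmem j
  have hc10 : c1 ≠ 0 := by
    rintro rfl
    rw [C_0, zero_mul, sub_zero] at hc1
    exact hj1 hc1
  -- divisibility by the two forms is equivalent
  have hK : ∀ F : MvPolynomial σ ℂ, F.IsHomogeneous D → F ∈ A.J → lf (A.l i) ∣ F →
      lf (A.l j) ∣ F := by
    intro F hF hFJ hi
    obtain ⟨c, hc⟩ := (A.mem_J_iff hS hF).1 hFJ j
    have h1 : lf (A.l j) ∣ F - C (c / c1) * F1 := by
      have h2 : F - C (c / c1) * F1 = (F - C c * A.pi j) - C (c / c1) * (F1 - C c1 * A.pi j) := by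
        have h3 : (C c : MvPolynomial σ ℂ) = C (c / c1) * C c1 := by
          rw [← C_mul, div_mul_cancel₀ _ hc10]
        rw [h3]
        ring
      rw [h2]
      exact dvd_sub hc (Dvd.dvd.mul_left hc1 _)
    have h2 : (F - C (c / c1) * F1).IsHomogeneous D := by
      have h3 : (C (c / c1) * F1).IsHomogeneous (0 + D) := (isHomogeneous_C _ _).mul hom
      rw [zero_add] at h3
      exact hF.sub h3
    have h3 : F - C (c / c1) * F1 ∈ A.J := Ideal.sub_mem _ hFJ (Ideal.mul_mem_left _ _ hmem)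
    have h4 := hcon _ h2 h3 h1
    have h5 : lf (A.l i) ∣ C (c / c1) * F1 := by
      have h6 := dvd_sub hi h4
      rwa [sub_sub_cancel] at h6
    by_cases h0 : c / c1 = 0
    · rw [h0, C_0, zero_mul, sub_zero] at h1
      exact h1
    · exfalso
      have h6 : F1 = C (c / c1)⁻¹ * (C (c / c1) * F1) := by
        rw [← mul_assoc, ← C_mul, inv_mul_cancel₀ h0, C_1, one_mul]
      apply hs
      rw [h6]
      exact Dvd.dvd.mul_left h5 _
  -- the group elements
  have hgi : ∀ k : A.ι, (sub (A.g k : Matrix σ σ ℂ) F1 - F1).IsHomogeneous D ∧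
      sub (A.g k : Matrix σ σ ℂ) F1 - F1 ∈ A.J := fun k =>
    ⟨(sub_isHomogeneous _ hom).sub hom, Ideal.sub_mem _ (A.sub_mem_J _ (A.g_mem k) hmem) hmem⟩
  -- the generic point
  obtain ⟨p, hp1, hp2⟩ := exists_generic_sub (Submodule.span ℂ {A.l i, A.l j})
    (Finset.univ.filter fun k => k ∉ A.cls i j) A.l (by
      intro k hk hmem'
      rw [Finset.mem_filter] at hk
      exact hk.2 ((A.mem_cls_iff i j k).2 hmem'))
  have hpi : A.l i ⬝ᵥ p = 0 := hp1 _ (Submodule.subset_span (by simp))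
  have hpj : A.l j ⬝ᵥ p = 0 := hp1 _ (Submodule.subset_span (by simp))
  have hda : eval p (dd (A.a i) F1) = 0 := by
    have h1 := A.dvd_sub_sub i F1
    exact deriv_zero A hij h1 (hK _ (hgi i).1 (hgi i).2 h1) hpi hpj
  have hdb : eval p (dd (A.a j) F1) = 0 := by
    have h1 := A.dvd_sub_sub j F1
    exact deriv_zero A hij.symm h1 (hcon _ (hgi j).1 (hgi j).2 h1) hpj hpi
  have hdy : ∀ y : σ → ℂ, A.l i ⬝ᵥ y = 0 → A.l j ⬝ᵥ y = 0 → eval p (dd y F1) = 0 := by
    intro y hyi hyj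
    have h1 : F1 ∈ PF A.l i j := by
      have h2 := hmem
      unfold Datum.J JF at h2
      rw [Ideal.mem_iInf] at h2
      have h3 := h2 i
      rw [Ideal.mem_iInf] at h3
      have h4 := h3 j
      rw [Ideal.mem_iInf] at h4
      exact h4 hij
    unfold PF at h1
    rw [Ideal.mem_span_pair] at h1
    obtain ⟨u, v, huv⟩ := h1
    rw [← huv, mul_comm u, mul_comm v, dd_add, map_add, eval_dd_mul_lf _ _ _ _ hpi,
      eval_dd_mul_lf _ _ _ _ hpj, hyi, hyj, zero_mul, zero_mul, add_zero]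
  have hall : ∀ b : σ → ℂ, eval p (dd b F1) = 0 := by
    intro b
    set x := A.l i ⬝ᵥ b with hx
    set y := A.l j ⬝ᵥ b with hy
    set m := A.l i ⬝ᵥ A.a j with hm
    set n := A.l j ⬝ᵥ A.a i with hn
    have ht : 1 - m * n ≠ 0 := by
      have h1 := A.t_ne_one hij
      unfold Datum.t at h1
      intro h2
      exact h1 (by linear_combination -h2)
    set α := (x - m * y) / (1 - m * n) with hα
    set β := (y - n * x) / (1 - m * n) with hβ
    have e1 : α + m * β = x := by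
      rw [hα, hβ]
      field_simp
      ring
    have e2 : n * α + β = y := by
      rw [hα, hβ, mul_div_assoc', ← add_div, div_eq_iff ht]
      ring
    have h1 : A.l i ⬝ᵥ (b - (α • A.a i + β • A.a j)) = 0 := by
      rw [dotProduct_sub, dotProduct_add, dotProduct_smul, dotProduct_smul, A.la i, smul_eq_mul,
        smul_eq_mul, ← hx, ← hm]
      linear_combination -e1
    have h2 : A.l j ⬝ᵥ (b - (α • A.a i + β • A.a j)) = 0 := by
      rw [dotProduct_sub, dotProduct_add, dotProduct_smul, dotProduct_smul, A.la j, smul_eq_mul,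
        smul_eq_mul, ← hy, ← hn]
      linear_combination -e2
    have h3 := hdy _ h1 h2
    have h4 : b = (b - (α • A.a i + β • A.a j)) + (α • A.a i + β • A.a j) := by
      rw [sub_add_cancel]
    rw [h4, dd_add_left, dd_add_left, dd_smul_left, dd_smul_left, map_add, map_add, map_mul,
      map_mul, h3, hda, hdb, mul_zero, mul_zero, add_zero, add_zero]
  -- the restriction to `ℓ i = 0`
  obtain ⟨c, u, hu⟩ := (A.mem_J_iff hS hom).1 hmem i
  have hc0 : c ≠ 0 := by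
    rintro rfl
    rw [C_0, zero_mul, sub_zero] at hu
    exact hs ⟨u, hu⟩
  obtain ⟨hrep1, hrep2⟩ := A.isRep_rep i
  obtain ⟨r, ⟨hr1, hr2⟩, hr3⟩ := hrep2 j hij.symm
  have hri : i ≠ r := fun h => hrep1 (h ▸ hr1)
  have hpr : A.l r ⬝ᵥ p = 0 := hp1 _ ((A.mem_cls_iff i j r).1 hr2)
  obtain ⟨b0, hb1, hb2⟩ := exists_generic (A.l i) {r} A.l (by
    intro k hk c'
    rw [Finset.mem_singleton] at hk
    subst hk
    exact A.l_not_smul hri c')
  have hb3 := hb2 r (Finset.mem_singleton_self r)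
  have hfin := hall b0
  have hF : F1 = C c * A.pi i + lf (A.l i) * u := by linear_combination hu
  rw [hF, dd_add, map_add, eval_dd_mul_lf _ _ _ _ hpi, hb1, zero_mul, add_zero, dd_C_mul, map_mul,
    eval_C, mul_eq_zero] at hfin
  have hfin2 := hfin.resolve_left hc0
  unfold Datum.pi at hfin2
  rw [← Finset.mul_prod_erase (A.rep i) (fun r => lf (A.l r)) hr1, eval_dd_mul_lf _ _ _ _ hpr,
    mul_eq_zero] at hfin2
  have hfin3 := hfin2.resolve_left hb3
  rw [map_prod, Finset.prod_eq_zero_iff] at hfin3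
  obtain ⟨r', hr', hr0⟩ := hfin3
  rw [eval_lf] at hr0
  rw [Finset.mem_erase] at hr'
  refine hp2 r' ?_ hr0
  rw [Finset.mem_filter]
  refine ⟨Finset.mem_univ _, fun hmem' => hr'.1 ?_⟩
  exact hr3 r' ⟨hr'.2, hmem'⟩

end Datum

end Pool.Agent.Lib.P4a9818
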