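import Pool.Agent.Lib.P4a9818.Rank2

/-!
# P4a9818.DecA : splitting by the eigenspaces of `T`   (estimate 2 h)

`T P_k = P_k T` (`T_mul_P`), so `T a_k = P_k T a_k = μ_k a_k` and `l_k T = μ_k l_k`,
`μ_k = l k ⬝ (T a_k)`.
Let `μ` be an eigenvalue of `T` (`σ → ℂ` is not `0`, otherwise `T = 0` is scalar), `n = card σ`,
`V1 = ker (T - μ)^n`, `V2 = range (T - μ)^n`: complementary (Fitting), `T`-stable and `P_k`-stable
(`P_k` commutes with `(T - μ)^n`), `V1 ≠ ⊥`. `V2 ≠ ⊥`: otherwise `T - μ` is nilpotent, so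
`μ_k = μ` for all `k` (`(T - μ) a_k = (μ_k - μ) a_k`), hence `(T - μ) T = ∑_k (T - μ) a_k ⊗ l_k = 0`. If
`μ ≠ 0` then `T` is invertible (`T = μ + nilpotent`), so `T = μ`, scalar: contradiction. If `μ = 0`:
`T` is nilpotent, so `0 = trace T = ∑_k l k ⬝ a k = N`, there are no hyperplanes and `T = 0` is scalar.
For each `k`: write `a_k = x + y`, `x ∈ V1`, `y ∈ V2`; `P_k x = (l_k ⬝ x) a_k ∈ V1`,
`P_k y = (l_k ⬝ y) a_k ∈ V2`, and `l_k ⬝ x + l_k ⬝ y = 1`, so `a_k ∈ V1` or `a_k ∈ V2`. If `a_k ∈ V1` then for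
`v ∈ V2`: `P_k v = (l_k ⬝ v) a_k ∈ V1 ∩ V2 = 0`, so `l_k ⬝ v = 0`.
-/

namespace Pool.Agent.Lib.P4a9818

open Matrix

variable {σ : Type} [Fintype σ] [DecidableEq σ] (A : Datum σ)

namespace Datum

theorem exists_split (hT : ∀ lam : ℂ, A.T ≠ lam • 1) :
    ∃ V1 V2 : Submodule ℂ (σ → ℂ), IsCompl V1 V2 ∧ V1 ≠ ⊥ ∧ V2 ≠ ⊥ ∧
      ∀ k, (A.a k ∈ V1 ∧ ∀ v ∈ V2, A.l k ⬝ᵥ v = 0) ∨ (A.a k ∈ V2 ∧ ∀ v ∈ V1, A.l k ⬝ᵥ v = 0) := by
  classical
  have hvm : ∀ (u w y : σ → ℂ), vecMulVec u w *ᵥ y = (w ⬝ᵥ y) • u := by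
    intro u w y
    funext i
    simp only [mulVec, dotProduct, vecMulVec_apply, Pi.smul_apply, smul_eq_mul, Finset.sum_mul]
    exact Finset.sum_congr rfl fun t _ => by ring
  have hne : Nonempty σ := by
    by_contra h
    rw [not_nonempty_iff] at h
    exact hT 0 (Subsingleton.elim _ _)
  let φ := Matrix.toLinAlgEquiv' (R := ℂ) (n := σ)
  have hφ : ∀ M v, φ M v = M *ᵥ v := fun M v => Matrix.toLinAlgEquiv'_apply M v
  obtain ⟨μ, hμ⟩ := Module.End.exists_eigenvalue (φ A.T)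
  obtain ⟨v0, hv0⟩ := hμ.exists_hasEigenvector
  set M := A.T - μ • (1 : Matrix σ σ ℂ) with hM
  have hMv0 : M *ᵥ v0 = 0 := by
    have h1 := hv0.apply_eq_smul
    rw [hφ] at h1
    rw [hM, sub_mulVec, h1, smul_mulVec, one_mulVec, sub_self]
  obtain ⟨n0, hn0⟩ := Filter.eventually_atTop.1
    (LinearMap.eventually_isCompl_ker_pow_range_pow (φ M))
  set n := max n0 1 with hn
  have hn1 : 1 ≤ n := le_max_right _ _
  have hC := hn0 n (le_max_left _ _)
  have hpow : (φ M) ^ n = φ (M ^ n) := (map_pow φ M n).symm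
  rw [hpow] at hC
  -- eigenvectors
  let μk : A.ι → ℂ := fun k => A.l k ⬝ᵥ (A.T *ᵥ A.a k)
  have hTa : ∀ k, A.T *ᵥ A.a k = μk k • A.a k := by
    intro k
    have h1 := congrArg (fun N => N *ᵥ A.a k) (A.T_mul_P k)
    simp only [← mulVec_mulVec, Datum.P] at h1
    rw [hvm, hvm, A.la, one_smul] at h1
    exact h1
  have hMa : ∀ k, M *ᵥ A.a k = (μk k - μ) • A.a k := by
    intro k
    rw [hM, sub_mulVec, hTa, smul_mulVec, one_mulVec, sub_smul]
  have hMna : ∀ (j : ℕ) k, M ^ j *ᵥ A.a k = (μk k - μ) ^ j • A.a k := by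
    intro j k
    induction j with
    | zero => simp
    | succ j ih => rw [pow_succ, ← mulVec_mulVec, hMa, mulVec_smul, ih, smul_smul, pow_succ']
  have hcomm : ∀ k, Commute M (A.P k) := by
    intro k
    rw [hM]
    exact Commute.sub_left (A.T_mul_P k) ((Commute.one_left _).smul_left μ)
  have hcomm2 : ∀ k, M ^ n * A.P k = A.P k * M ^ n := fun k => ((hcomm k).pow_left n)
  refine ⟨LinearMap.ker (φ (M ^ n)), LinearMap.range (φ (M ^ n)), hC, ?_, ?_, ?_⟩
  · intro h0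
    have h1 : v0 ∈ LinearMap.ker (φ (M ^ n)) := by
      rw [LinearMap.mem_ker, hφ]
      obtain ⟨m, hm⟩ := Nat.exists_eq_add_of_le' hn1
      rw [hm, pow_succ, ← mulVec_mulVec, hMv0, mulVec_zero]
    rw [h0] at h1
    exact hv0.2 ((Submodule.mem_bot ℂ).1 h1)
  · intro h0
    have hMn : M ^ n = 0 := by
      rw [LinearMap.range_eq_bot] at h0
      exact φ.injective (by rw [h0, map_zero])
    have hμk : ∀ k, μk k = μ := by
      intro k
      have h1 := hMna n k
      rw [hMn, zero_mulVec] at h1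
      have h2 := (smul_eq_zero.1 h1.symm).resolve_right (A.a_ne_zero k)
      exact sub_eq_zero.1 (pow_eq_zero_iff (by omega) |>.1 h2)
    have hMT : M * A.T = 0 := by
      rw [Datum.T, Finset.mul_sum]
      apply Finset.sum_eq_zero
      intro k _
      have h1 : M * A.P k = vecMulVec (M *ᵥ A.a k) (A.l k) := by
        rw [Datum.P, mul_vecMulVec]
      rw [h1, hMa, hμk, sub_self, zero_smul, zero_vecMulVec]
    have hTM : A.T = M + μ • 1 := by rw [hM]; abel
    by_cases hμ0 : μ = 0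
    · rw [hμ0, zero_smul, add_zero] at hTM
      have hnil : IsNilpotent A.T := ⟨n, by rw [hTM, hMn]⟩
      have htr : A.T.trace = 0 := (Matrix.isNilpotent_trace_of_isNilpotent hnil).eq_zero
      have htr2 : A.T.trace = (Fintype.card A.ι : ℂ) := by
        rw [Datum.T, Matrix.trace_sum]
        have h1 : ∀ k, (A.P k).trace = 1 := by
          intro k
          rw [Datum.P, Matrix.trace_vecMulVec, dotProduct_comm, A.la]
        simp [h1]
      rw [htr] at htr2
      have h2 : Fintype.card A.ι = 0 := by exact_mod_cast htr2.symm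
      have h3 : IsEmpty A.ι := Fintype.card_eq_zero_iff.1 h2
      apply hT 0
      rw [Datum.T, zero_smul]
      exact Finset.sum_eq_zero fun k _ => (h3.false k).elim
    · have h1 : M * M = (-μ) • M := by
        have h2 : M * M = M * A.T - μ • M := by
          rw [hTM]
          rw [mul_add, mul_smul_comm, mul_one]
          abel
        rw [h2, hMT, zero_sub, neg_smul]
      have h2 : ∀ j : ℕ, M ^ (j + 1) = (-μ) ^ j • M := by
        intro j
        induction j with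
        | zero => simp
        | succ j ih => rw [pow_succ, ih, smul_mul_assoc, h1, smul_smul, pow_succ]
      obtain ⟨m, hm⟩ := Nat.exists_eq_add_of_le' hn1
      have h3 := h2 m
      rw [← hm, hMn] at h3
      have h4 : M = 0 :=
        (smul_eq_zero.1 h3.symm).resolve_left (pow_ne_zero _ (neg_ne_zero.2 hμ0))
      apply hT μ
      rw [hTM, h4, zero_add]
  · intro k
    have hinv1 : ∀ x ∈ LinearMap.ker (φ (M ^ n)),
        (A.l k ⬝ᵥ x) • A.a k ∈ LinearMap.ker (φ (M ^ n)) := by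
      intro x hx
      rw [LinearMap.mem_ker, hφ] at hx ⊢
      have h1 := congrArg (fun N => N *ᵥ x) (hcomm2 k)
      simp only [← mulVec_mulVec] at h1
      rw [hx, mulVec_zero, Datum.P, hvm] at h1
      exact h1
    have hinv2 : ∀ x ∈ LinearMap.range (φ (M ^ n)),
        (A.l k ⬝ᵥ x) • A.a k ∈ LinearMap.range (φ (M ^ n)) := by
      rintro x ⟨y, rfl⟩
      refine ⟨A.P k *ᵥ y, ?_⟩
      rw [hφ, hφ]
      have h1 := congrArg (fun N => N *ᵥ y) (hcomm2 k)
      simp only [← mulVec_mulVec] at h1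
      rw [h1, Datum.P, hvm]
    have hak : A.a k ∈ LinearMap.ker (φ (M ^ n)) ⊔ LinearMap.range (φ (M ^ n)) := by
      rw [hC.sup_eq_top]; trivial
    obtain ⟨x, hx, y, hy, hxy⟩ := Submodule.mem_sup.1 hak
    have hsum : A.l k ⬝ᵥ x + A.l k ⬝ᵥ y = 1 := by
      rw [← dotProduct_add, hxy, A.la]
    by_cases h0 : A.l k ⬝ᵥ x = 0
    · right
      have hy1 : A.l k ⬝ᵥ y ≠ 0 := by
        intro h; rw [h0, h, add_zero] at hsum; exact zero_ne_one hsum
      have h1 : A.a k ∈ LinearMap.range (φ (M ^ n)) :=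
        (Submodule.smul_mem_iff _ hy1).1 (hinv2 y hy)
      refine ⟨h1, fun v hv => ?_⟩
      have h2 := hinv1 v hv
      have h3 : (A.l k ⬝ᵥ v) • A.a k ∈ LinearMap.ker (φ (M ^ n)) ⊓ LinearMap.range (φ (M ^ n)) :=
        ⟨h2, Submodule.smul_mem _ _ h1⟩
      rw [hC.inf_eq_bot, Submodule.mem_bot] at h3
      exact (smul_eq_zero.1 h3).resolve_right (A.a_ne_zero k)
    · left
      have h1 : A.a k ∈ LinearMap.ker (φ (M ^ n)) :=
        (Submodule.smul_mem_iff _ h0).1 (hinv1 x hx)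
      refine ⟨h1, fun v hv => ?_⟩
      have h2 := hinv2 v hv
      have h3 : (A.l k ⬝ᵥ v) • A.a k ∈ LinearMap.ker (φ (M ^ n)) ⊓ LinearMap.range (φ (M ^ n)) :=
        ⟨Submodule.smul_mem _ _ h1, h2⟩
      rw [hC.inf_eq_bot, Submodule.mem_bot] at h3
      exact (smul_eq_zero.1 h3).resolve_right (A.a_ne_zero k)

end Datum

end Pool.Agent.Lib.P4a9818
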