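import Pool.Agent.Lib.P4a9818.Rank2

/-!
# P4a9818.DecB : the arrangement induced on a summand   (estimate 3 h)

`ι1 = {k // a k ∈ V1}`. For `k ∈ ι1`: `A1.a k = ` coordinates of `a k` in the basis `b`
(`b.repr ⟨a k, _⟩`), `A1.l k t = l k ⬝ (b t)`, `z` the same; `∑_t (A1.l k t) (b.repr v t) = l k ⬝ v` for
`v ∈ V1`.
* `la`: clear. `li`, `ai`: `l i`, `l j` vanish on `V2`, so a relation between the restrictions to `V1` is a
  relation on the whole space; `b.repr` is injective on `V1`.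
* `g`: the matrix `1 + (z - 1) • vecMulVec a l` is invertible: its determinant is
  `1 + (z - 1) (l ⬝ a) = z ≠ 0` (`A.z_ne_zero`), or give the inverse `1 + (z⁻¹ - 1) • vecMulVec a l`.
* All `g k` (`k : A.ι`) map `V1` to itself (for `a k ∈ V1`: `g k v = v + (z - 1)(l k ⬝ v) a k`; for
  `a k ∈ V2`: `l k` vanishes on `V1`, `g k v = v`), so every `g ∈ G` does, and `g ↦ matrix of g|V1 in the
  basis b` is a group homomorphism `A.G → GL (Fin n1) ℂ` mapping `g k` (`k ∈ ι1`) to `A1.g k`.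
* `perm`: for `i, j ∈ ι1` let `g i P_j = P_k g i`. Then `a k` is a multiple of `g i (a j) ∈ V1` (column
  spaces), so `k ∈ ι1`, and restricting to `V1` gives the identity for `A1`.
* `fin`: the closure of the `A1.g k` is contained in the image of the finite group `A.G`.
-/

namespace Pool.Agent.Lib.P4a9818

open Matrix

variable {σ : Type} [Fintype σ] [DecidableEq σ] (A : Datum σ)

namespace Datum

theorem restrict_datum (V1 V2 : Submodule ℂ (σ → ℂ)) (hV : IsCompl V1 V2)
    (hk : ∀ k, (A.a k ∈ V1 ∧ ∀ v ∈ V2, A.l k ⬝ᵥ v = 0) ∨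
      (A.a k ∈ V2 ∧ ∀ v ∈ V1, A.l k ⬝ᵥ v = 0))
    {n1 : ℕ} (b : Module.Basis (Fin n1) ℂ V1) :
    ∃ (A1 : Datum (Fin n1)) (e : A1.ι → A.ι), Function.Injective e ∧
      (∀ k, (∃ i, e i = k) ↔ A.a k ∈ V1) ∧
      ∀ i, A1.l i = fun t => A.l (e i) ⬝ᵥ (b t : σ → ℂ) := by
  classical
  -- the inclusion in coordinates
  let inc : (Fin n1 → ℂ) →ₗ[ℂ] (σ → ℂ) := V1.subtype ∘ₗ b.equivFun.symm.toLinearMap
  have hinj : Function.Injective inc := by
    intro x y hxy
    have h1 : b.equivFun.symm x = b.equivFun.symm y := Subtype.ext hxy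
    exact b.equivFun.symm.injective h1
  let a1 : {k : A.ι // A.a k ∈ V1} → Fin n1 → ℂ := fun k => b.equivFun ⟨A.a k, k.2⟩
  let l1 : {k : A.ι // A.a k ∈ V1} → Fin n1 → ℂ := fun k t => A.l k ⬝ᵥ (b t : σ → ℂ)
  have inc_a : ∀ k, inc (a1 k) = A.a k := by
    intro k
    change ((b.equivFun.symm (b.equivFun ⟨A.a k, k.2⟩) : V1) : σ → ℂ) = _
    rw [LinearEquiv.symm_apply_apply]
  have l_inc : ∀ k x, l1 k ⬝ᵥ x = A.l k ⬝ᵥ inc x := by
    intro k x
    have h1 : inc x = ∑ t, x t • (b t : σ → ℂ) := by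
      change ((b.equivFun.symm x : V1) : σ → ℂ) = _
      rw [Module.Basis.equivFun_symm_apply]
      simp
    rw [h1, dotProduct_sum]
    simp only [dotProduct_smul, smul_eq_mul]
    change ∑ t, l1 k t * x t = _
    exact Finset.sum_congr rfl fun t _ => mul_comm _ _
  have P_inc : ∀ k x, inc (vecMulVec (a1 k) (l1 k) *ᵥ x)
      = vecMulVec (A.a k) (A.l k) *ᵥ inc x := by
    intro k x
    have hv : ∀ {n : Type} [Fintype n] (u w y : n → ℂ),
        vecMulVec u w *ᵥ y = (w ⬝ᵥ y) • u := by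
      intro n _ u w y
      funext i
      simp only [mulVec, dotProduct, vecMulVec_apply, Pi.smul_apply, smul_eq_mul, Finset.sum_mul]
      exact Finset.sum_congr rfl fun t _ => by ring
    rw [hv, hv, map_smul, inc_a, l_inc]
  have hP : ∀ k : {k : A.ι // A.a k ∈ V1}, vecMulVec (a1 k) (l1 k) * vecMulVec (a1 k) (l1 k)
      = vecMulVec (a1 k) (l1 k) := by
    intro k
    have h1 : l1 k ⬝ᵥ a1 k = 1 := by rw [l_inc, inc_a, A.la]
    rw [vecMulVec_mul_vecMulVec, h1, one_smul]
  have hmul : ∀ (k : {k : A.ι // A.a k ∈ V1}) (u w : ℂ), u * w = 1 →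
      (1 + (u - 1) • vecMulVec (a1 k) (l1 k)) * (1 + (w - 1) • vecMulVec (a1 k) (l1 k)) = 1 := by
    intro k u w huw
    have h1 := hP k
    generalize vecMulVec (a1 k) (l1 k) = P at h1 ⊢
    have h2 : (1 + (u - 1) • P) * (1 + (w - 1) • P) = 1 + ((u * w - 1)) • P := by
      simp only [mul_add, add_mul, mul_one, one_mul, smul_mul_assoc, mul_smul_comm, h1]
      module
    rw [h2, huw, sub_self, zero_smul, add_zero]
  let g1 : {k : A.ι // A.a k ∈ V1} → GL (Fin n1) ℂ := fun k =>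
    ⟨1 + (A.z k - 1) • vecMulVec (a1 k) (l1 k), 1 + ((A.z k)⁻¹ - 1) • vecMulVec (a1 k) (l1 k),
      hmul k _ _ (mul_inv_cancel₀ (A.z_ne_zero k)), hmul k _ _ (inv_mul_cancel₀ (A.z_ne_zero k))⟩
  have hg1 : ∀ k, (g1 k : Matrix (Fin n1) (Fin n1) ℂ)
      = 1 + (A.z k - 1) • vecMulVec (a1 k) (l1 k) := fun k => rfl
  have g_inc : ∀ k x, inc ((g1 k : Matrix (Fin n1) (Fin n1) ℂ) *ᵥ x)
      = (A.g k : Matrix σ σ ℂ) *ᵥ inc x := by
    intro k x
    rw [hg1, A.hg, add_mulVec, add_mulVec, one_mulVec, one_mulVec, smul_mulVec, smul_mulVec,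
      map_add, map_smul, P_inc]
  have ext_inc : ∀ M M' : Matrix (Fin n1) (Fin n1) ℂ,
      (∀ x, inc (M *ᵥ x) = inc (M' *ᵥ x)) → M = M' := by
    intro M M' h
    apply Matrix.ext_of_mulVec_single
    intro i
    exact hinj (h _)
  have l_V2 : ∀ k : {k : A.ι // A.a k ∈ V1}, ∀ v ∈ V2, A.l k ⬝ᵥ v = 0 := by
    intro k v hv
    rcases hk k with h | h
    · exact h.2 v hv
    · exfalso
      have h2 : A.a k ∈ V1 ⊓ V2 := ⟨k.2, h.1⟩
      rw [hV.inf_eq_bot] at h2
      exact A.a_ne_zero k ((Submodule.mem_bot ℂ).1 h2)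
  have hperm : ∀ i j : {k : A.ι // A.a k ∈ V1}, ∃ k : {k : A.ι // A.a k ∈ V1},
      (g1 i : Matrix (Fin n1) (Fin n1) ℂ) * vecMulVec (a1 j) (l1 j)
        = vecMulVec (a1 k) (l1 k) * (g1 i : Matrix (Fin n1) (Fin n1) ℂ) := by
    intro i j
    obtain ⟨k, hkij⟩ := A.perm i j
    have hv : ∀ (u w y : σ → ℂ), vecMulVec u w *ᵥ y = (w ⬝ᵥ y) • u := by
      intro u w y
      funext i
      simp only [mulVec, dotProduct, vecMulVec_apply, Pi.smul_apply, smul_eq_mul, Finset.sum_mul]
      exact Finset.sum_congr rfl fun t _ => by ring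
    have h1 : (A.g i : Matrix σ σ ℂ) *ᵥ A.a j
        = (A.l k ⬝ᵥ ((A.g i : Matrix σ σ ℂ) *ᵥ A.a j)) • A.a k := by
      have h2 := congrArg (fun M => M *ᵥ A.a j) hkij
      simp only [← mulVec_mulVec] at h2
      rw [hv, hv, A.la, one_smul] at h2
      exact h2
    have h3 : (A.g i : Matrix σ σ ℂ) *ᵥ A.a j ∈ V1 := by
      rw [A.hg, add_mulVec, one_mulVec, smul_mulVec, hv]
      exact V1.add_mem j.2 (V1.smul_mem _ (V1.smul_mem _ i.2))
    have h4 : (A.g i : Matrix σ σ ℂ) *ᵥ A.a j ≠ 0 := by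
      intro h0
      apply A.a_ne_zero j
      have h5 := congrArg (fun v => ((A.g i)⁻¹ : GL σ ℂ).val *ᵥ v) h0
      simp only [mulVec_mulVec, mulVec_zero] at h5
      rw [← Units.val_mul, inv_mul_cancel, Units.val_one, one_mulVec] at h5
      exact h5
    have h5 : A.a k ∈ V1 := by
      have h6 : (A.l k ⬝ᵥ ((A.g i : Matrix σ σ ℂ) *ᵥ A.a j)) ≠ 0 := by
        intro h0
        rw [h0, zero_smul] at h1
        exact h4 h1
      rw [h1] at h3
      exact (V1.smul_mem_iff h6).1 h3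
    refine ⟨⟨k, h5⟩, ?_⟩
    apply ext_inc
    intro x
    rw [← mulVec_mulVec, ← mulVec_mulVec, g_inc, P_inc, P_inc, g_inc, mulVec_mulVec,
      mulVec_mulVec, hkij]
  -- the group of all automorphisms of `V1` induced by elements of `A.G`
  let K : Subgroup (GL (Fin n1) ℂ) :=
    { carrier := {h | ∃ g ∈ Subgroup.closure (Set.range A.g), ∀ x,
        inc ((h : Matrix (Fin n1) (Fin n1) ℂ) *ᵥ x) = (g : Matrix σ σ ℂ) *ᵥ inc x}
      one_mem' := ⟨1, Subgroup.one_mem _, fun x => by simp⟩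
      mul_mem' := by
        rintro h h' ⟨g, hg, hx⟩ ⟨g', hg', hx'⟩
        refine ⟨g * g', Subgroup.mul_mem _ hg hg', fun x => ?_⟩
        rw [Units.val_mul, Units.val_mul, ← mulVec_mulVec, ← mulVec_mulVec, hx, hx']
      inv_mem' := by
        rintro h ⟨g, hg, hx⟩
        refine ⟨g⁻¹, Subgroup.inv_mem _ hg, fun x => ?_⟩
        have h1 := hx ((h⁻¹ : GL (Fin n1) ℂ).val *ᵥ x)
        rw [mulVec_mulVec, ← Units.val_mul, mul_inv_cancel, Units.val_one, one_mulVec] at h1
        rw [h1, mulVec_mulVec, ← Units.val_mul, inv_mul_cancel, Units.val_one, one_mulVec] }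
  have hKfin : Finite K := by
    have hfin := A.fin
    let f : K → Subgroup.closure (Set.range A.g) := fun h =>
      ⟨h.2.choose, h.2.choose_spec.1⟩
    have hf : Function.Injective f := by
      intro h h' hh
      have e : h.2.choose = h'.2.choose := congrArg Subtype.val hh
      apply Subtype.ext
      apply Units.ext
      apply ext_inc
      intro x
      rw [h.2.choose_spec.2 x, h'.2.choose_spec.2 x, e]
    exact Finite.of_injective f hf
  have hle : Subgroup.closure (Set.range g1) ≤ K := by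
    rw [Subgroup.closure_le]
    rintro _ ⟨k, rfl⟩
    exact ⟨A.g k, Subgroup.subset_closure ⟨k, rfl⟩, g_inc k⟩
  refine ⟨{
    ι := {k : A.ι // A.a k ∈ V1}
    instF := inferInstance
    instD := inferInstance
    a := a1
    l := l1
    z := fun k => A.z k
    g := g1
    la := fun k => by rw [l_inc, inc_a, A.la]
    li := ?_
    ai := ?_
    hz := fun k => A.hz k
    hg := fun k => rfl
    perm := hperm
    fin := Finite.of_injective (Subgroup.inclusion hle) (Subgroup.inclusion_injective hle) },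
    Subtype.val, Subtype.val_injective, ?_, fun i => rfl⟩
  · intro i j hij
    have h0 := A.li i j (fun h => hij (Subtype.ext h))
    rw [LinearIndependent.pair_iff] at h0 ⊢
    intro s t hst
    apply h0 s t
    have hv1 : ∀ v ∈ V1, (s • A.l i + t • A.l j) ⬝ᵥ v = 0 := by
      intro v hv
      have e1 : inc (b.equivFun ⟨v, hv⟩) = v := by
        change ((b.equivFun.symm (b.equivFun ⟨v, hv⟩) : V1) : σ → ℂ) = _
        rw [LinearEquiv.symm_apply_apply]
      have e2 : (s • l1 i + t • l1 j) ⬝ᵥ (b.equivFun ⟨v, hv⟩) = 0 := by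
        rw [hst, zero_dotProduct]
      rw [add_dotProduct, smul_dotProduct, smul_dotProduct, l_inc, l_inc, e1] at e2
      rw [add_dotProduct, smul_dotProduct, smul_dotProduct]
      exact e2
    have hv2 : ∀ v ∈ V2, (s • A.l i + t • A.l j) ⬝ᵥ v = 0 := by
      intro v hv
      rw [add_dotProduct, smul_dotProduct, smul_dotProduct, l_V2 i v hv, l_V2 j v hv]
      simp
    have hall : ∀ v, (s • A.l i + t • A.l j) ⬝ᵥ v = 0 := by
      intro v
      have hv : v ∈ V1 ⊔ V2 := by rw [hV.sup_eq_top]; trivial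
      obtain ⟨v1, h1, v2, h2, rfl⟩ := Submodule.mem_sup.1 hv
      rw [dotProduct_add, hv1 v1 h1, hv2 v2 h2, add_zero]
    exact dotProduct_eq_zero _ hall
  · intro i j hij
    have h0 := A.ai i j (fun h => hij (Subtype.ext h))
    rw [LinearIndependent.pair_iff] at h0 ⊢
    intro s t hst
    apply h0 s t
    have h1 := congrArg inc hst
    rw [map_add, map_smul, map_smul, inc_a, inc_a, map_zero] at h1
    exact h1
  · intro k
    constructor
    · rintro ⟨i, rfl⟩
      exact i.2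
    · intro h
      exact ⟨⟨k, h⟩, rfl⟩

end Datum

end Pool.Agent.Lib.P4a9818
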