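import Pool.Agent.Lib.P4a9818.Prod

/-!
# P4a9818.Trans : change of coordinates; `Str` for products   (estimate 2 h)

* `trans_JF`, `trans_JFs`: an algebra isomorphism maps intersections, powers and spans of ideals to
  such (`Ideal.map` of a ring isomorphism = comap of the inverse); `Ψ ℓ_i = C c ℓ'_{e i}` with `c ≠ 0`
  generate the same ideals.
* `trans_cont`, `trans_str`: immediate; the number `max 1 (rkF l)` is the same by `hr`.
* `prod_str`: if `ι₂` is empty, `JF l2 = ⊤` (generated by `1 = g2 0`; `rkF l2 = 0`) and `Q2 = 1`; by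
  `prod_J` (or directly) `JF (sumL l1 l2) = (JF l1).map i1` because `Q1 ∈ JF l1`; and
  `rkF (sumL l1 l2) = rkF l1`. The same if `ι₁` is empty. If both are nonempty then `rkF l1, rkF l2 ≥ 1`
  and `rkF (sumL l1 l2) = rkF l1 + rkF l2` (the span of the union of two families in complementary
  subspaces), so `max 1 (rkF (sumL l1 l2)) = max 1 (rkF l1) + max 1 (rkF l2)`; `prod_J`.
-/

namespace Pool.Agent.Lib.P4a9818

open MvPolynomial

namespace TransAux

/-- `v ↦ (v, 0)` -/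
def L1 (σ τ : Type) : (σ → ℂ) →ₗ[ℂ] (σ ⊕ τ → ℂ) where
  toFun v := Sum.elim v 0
  map_add' v w := by
    ext x
    rcases x with x | x <;> simp
  map_smul' c v := by
    ext x
    rcases x with x | x <;> simp

/-- `v ↦ (0, v)` -/
def L2 (σ τ : Type) : (τ → ℂ) →ₗ[ℂ] (σ ⊕ τ → ℂ) where
  toFun v := Sum.elim 0 v
  map_add' v w := by
    ext x
    rcases x with x | x <;> simp
  map_smul' c v := by
    ext x
    rcases x with x | x <;> simp

theorem L1_inj (σ τ : Type) : Function.Injective (L1 σ τ) := by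
  intro v w h
  ext x
  exact congrFun h (Sum.inl x)

theorem L2_inj (σ τ : Type) : Function.Injective (L2 σ τ) := by
  intro v w h
  ext x
  exact congrFun h (Sum.inr x)

theorem finrank_map_inj {V W : Type*} [AddCommGroup V] [Module ℂ V] [AddCommGroup W] [Module ℂ W]
    (f : V →ₗ[ℂ] W) (hf : Function.Injective f) (p : Submodule ℂ V) :
    Module.finrank ℂ (p.map f) = Module.finrank ℂ p :=
  (Submodule.equivMapOfInjective f hf p).finrank_eq.symm

theorem str_of_equiv {R κ : Type*} [CommRing R] {I : Ideal R} {n : ℕ} (e : Fin n ≃ κ) (g : κ → R)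
    (h : I = Ideal.span (Set.range g)) : ∃ g' : Fin n → R, I = Ideal.span (Set.range g') :=
  ⟨g ∘ e, by rw [e.surjective.range_comp, h]⟩

theorem range_sum_elim {α β γ : Type*} (f : α → γ) (g : β → γ) :
    Set.range (Sum.elim f g) = Set.range f ∪ Set.range g := Set.Sum.elim_range f g

theorem rk_pos {σ ι : Type} [Fintype σ] [Nonempty ι] {l : ι → σ → ℂ} (h : ∀ i, l i ≠ 0) :
    1 ≤ rkF l := by
  unfold rkF
  obtain ⟨i⟩ := ‹Nonempty ι›
  have h1 : (⟨l i, Submodule.subset_span ⟨i, rfl⟩⟩ : Submodule.span ℂ (Set.range l)) ≠ 0 := by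
    intro h2
    exact h i (congrArg Subtype.val h2)
  have h2 : Nontrivial (Submodule.span ℂ (Set.range l)) := ⟨⟨_, 0, h1⟩⟩
  exact Module.finrank_pos

theorem rk_empty {σ ι : Type} [IsEmpty ι] (l : ι → σ → ℂ) : rkF l = 0 := by
  unfold rkF
  rw [Set.range_eq_empty, Submodule.span_empty]
  exact finrank_bot ℂ _

end TransAux

open TransAux

section

variable {σ τ ι₁ ι₂ : Type} [Fintype σ] [Fintype τ] [DecidableEq σ] [DecidableEq τ]
  [Fintype ι₁] [Fintype ι₂] [DecidableEq ι₁] [DecidableEq ι₂]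

theorem rk_sumL (l1 : ι₁ → σ → ℂ) (l2 : ι₂ → τ → ℂ) : rkF (sumL l1 l2) = rkF l1 + rkF l2 := by
  have h1 : Submodule.span ℂ (Set.range (sumL l1 l2)) =
      (Submodule.span ℂ (Set.range l1)).map (L1 σ τ) ⊔
        (Submodule.span ℂ (Set.range l2)).map (L2 σ τ) := by
    rw [Submodule.map_span, Submodule.map_span, ← Submodule.span_union]
    congr 1
    unfold sumL
    rw [range_sum_elim, ← Set.range_comp, ← Set.range_comp]
    rfl
  have h2 : (Submodule.span ℂ (Set.range l1)).map (L1 σ τ) ⊓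
        (Submodule.span ℂ (Set.range l2)).map (L2 σ τ) = ⊥ := by
    rw [eq_bot_iff]
    rintro x ⟨⟨v, -, hv⟩, ⟨w, -, hw⟩⟩
    rw [Submodule.mem_bot]
    ext y
    rcases y with y | y
    · rw [← hw]
      rfl
    · rw [← hv]
      rfl
  have h3 := Submodule.finrank_sup_add_finrank_inf_eq
    ((Submodule.span ℂ (Set.range l1)).map (L1 σ τ))
    ((Submodule.span ℂ (Set.range l2)).map (L2 σ τ))
  rw [h2, finrank_bot, add_zero, finrank_map_inj _ (L1_inj σ τ), finrank_map_inj _ (L2_inj σ τ),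
    ← h1] at h3
  exact h3

theorem prod_str (l1 : ι₁ → σ → ℂ) (l2 : ι₂ → τ → ℂ) (h1 : ∀ i, l1 i ≠ 0) (h2 : ∀ j, l2 j ≠ 0)
    (hi1 : ∀ i j, i ≠ j → LinearIndependent ℂ ![l1 i, l1 j])
    (hi2 : ∀ i j, i ≠ j → LinearIndependent ℂ ![l2 i, l2 j])
    (hs1 : Str l1) (hs2 : Str l2) : Str (sumL l1 l2) := by
  obtain ⟨g1, hg1⟩ := hs1
  obtain ⟨g2, hg2⟩ := hs2
  have hJ := prod_J l1 l2 h1 h2 hi1 hi2 g1 g2 hg1 hg2
  unfold Str
  rw [rk_sumL]
  rcases isEmpty_or_nonempty ι₁ with he1 | hn1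
  · have hr : max 1 (rkF l1 + rkF l2) = max 1 (rkF l2) := by
      rw [rk_empty l1, zero_add]
    rw [hr]
    refine ⟨fun t => i2 σ τ (g2 t), ?_⟩
    rw [hJ, range_sum_elim]
    have hQ : ∏ i, lf (l1 i) = 1 := Fintype.prod_empty _
    have e1 : (Set.range fun t => i1 σ τ (∏ i, lf (l1 i)) * i2 σ τ (g2 t)) =
        Set.range fun t => i2 σ τ (g2 t) := by
      rw [hQ]
      simp only [map_one, one_mul]
    rw [e1, Ideal.span_union, sup_eq_right, Ideal.span_le]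
    rintro _ ⟨t, rfl⟩
    refine Ideal.mul_mem_right _ _ ?_
    have h3 : ∏ j, lf (l2 j) ∈ JF l2 := Q_mem l2
    rw [hg2] at h3
    have h4 := Ideal.mem_map_of_mem (i2 σ τ) h3
    rw [Ideal.map_span, ← Set.range_comp] at h4
    exact h4
  · rcases isEmpty_or_nonempty ι₂ with he2 | hn2
    · have hr : max 1 (rkF l1 + rkF l2) = max 1 (rkF l1) := by
        rw [rk_empty l2, add_zero]
      rw [hr]
      refine ⟨fun t => i1 σ τ (g1 t), ?_⟩
      rw [hJ, range_sum_elim]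
      have hQ : ∏ j, lf (l2 j) = 1 := Fintype.prod_empty _
      have e1 : (Set.range fun t => i2 σ τ (∏ j, lf (l2 j)) * i1 σ τ (g1 t)) =
          Set.range fun t => i1 σ τ (g1 t) := by
        rw [hQ]
        simp only [map_one, one_mul]
      rw [e1, Ideal.span_union, sup_eq_left, Ideal.span_le]
      rintro _ ⟨t, rfl⟩
      refine Ideal.mul_mem_right _ _ ?_
      have h3 : ∏ i, lf (l1 i) ∈ JF l1 := Q_mem l1
      rw [hg1] at h3
      have h4 := Ideal.mem_map_of_mem (i1 σ τ) h3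
      rw [Ideal.map_span, ← Set.range_comp] at h4
      exact h4
    · have k1 := rk_pos h1
      have k2 := rk_pos h2
      have hr : max 1 (rkF l1 + rkF l2) = max 1 (rkF l1) + max 1 (rkF l2) := by
        rw [max_eq_right k1, max_eq_right k2, max_eq_right (by omega)]
      rw [hr]
      exact str_of_equiv finSumFinEquiv.symm _ hJ

end

section

variable {σ τ ι ι' : Type} [Fintype σ] [Fintype τ]

namespace TransAux

theorem map_PF (l : ι → σ → ℂ) (l' : ι' → τ → ℂ) (e : ι ≃ ι')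
    (Ψ : MvPolynomial σ ℂ ≃ₐ[ℂ] MvPolynomial τ ℂ)
    (hΨ : ∀ i, ∃ c : ℂ, c ≠ 0 ∧ Ψ (lf (l i)) = C c * lf (l' (e i))) (i j : ι) :
    (PF l i j).map Ψ = PF l' (e i) (e j) := by
  unfold PF
  rw [Ideal.map_span, Set.image_pair]
  obtain ⟨c, hc, h1⟩ := hΨ i
  obtain ⟨d, hd, h2⟩ := hΨ j
  rw [h1, h2, Ideal.span_insert, Ideal.span_insert]
  rw [Ideal.span_singleton_mul_left_unit ((isUnit_iff_ne_zero.2 hc).map C),
    Ideal.span_singleton_mul_left_unit ((isUnit_iff_ne_zero.2 hd).map C)]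

theorem mem_map_iff (Ψ : MvPolynomial σ ℂ ≃ₐ[ℂ] MvPolynomial τ ℂ) (I : Ideal (MvPolynomial σ ℂ))
    (y : MvPolynomial τ ℂ) : y ∈ I.map Ψ ↔ Ψ.symm y ∈ I := by
  rw [Ideal.mem_map_iff_of_surjective Ψ Ψ.surjective]
  constructor
  · rintro ⟨x, hx, rfl⟩
    rw [Ψ.symm_apply_apply]
    exact hx
  · intro h
    exact ⟨_, h, Ψ.apply_symm_apply y⟩

theorem map_JFs (l : ι → σ → ℂ) (l' : ι' → τ → ℂ) (e : ι ≃ ι')
    (Ψ : MvPolynomial σ ℂ ≃ₐ[ℂ] MvPolynomial τ ℂ)
    (hΨ : ∀ i, ∃ c : ℂ, c ≠ 0 ∧ Ψ (lf (l i)) = C c * lf (l' (e i))) (m : ℕ) :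
    (JFs l m).map Ψ = JFs l' m := by
  ext y
  rw [mem_map_iff]
  unfold JFs
  simp only [Ideal.mem_iInf]
  have h1 : ∀ i j, Ψ.symm y ∈ PF l i j ^ m ↔ y ∈ PF l' (e i) (e j) ^ m := by
    intro i j
    rw [← mem_map_iff, Ideal.map_pow, map_PF l l' e Ψ hΨ]
  constructor
  · intro h i j hij
    have h2 := (h1 (e.symm i) (e.symm j)).1 (h _ _ (e.symm.injective.ne hij))
    rw [e.apply_symm_apply, e.apply_symm_apply] at h2
    exact h2
  · intro h i j hij
    exact (h1 i j).2 (h _ _ (e.injective.ne hij))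

end TransAux

theorem trans_cont (l : ι → σ → ℂ) (l' : ι' → τ → ℂ) (e : ι ≃ ι')
    (Ψ : MvPolynomial σ ℂ ≃ₐ[ℂ] MvPolynomial τ ℂ)
    (hΨ : ∀ i, ∃ c : ℂ, c ≠ 0 ∧ Ψ (lf (l i)) = C c * lf (l' (e i))) (h : Cont l) : Cont l' := by
  unfold Cont at *
  rw [← map_JFs l l' e Ψ hΨ 5, JF_eq_JFs l', ← map_JFs l l' e Ψ hΨ 1, ← Ideal.map_pow,
    ← JF_eq_JFs l]
  exact Ideal.map_mono h

theorem trans_str (l : ι → σ → ℂ) (l' : ι' → τ → ℂ) (e : ι ≃ ι')
    (Ψ : MvPolynomial σ ℂ ≃ₐ[ℂ] MvPolynomial τ ℂ)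
    (hΨ : ∀ i, ∃ c : ℂ, c ≠ 0 ∧ Ψ (lf (l i)) = C c * lf (l' (e i))) (hr : rkF l = rkF l')
    (h : Str l) : Str l' := by
  unfold Str at *
  obtain ⟨g, hg⟩ := h
  rw [← hr]
  refine ⟨fun t => Ψ (g t), ?_⟩
  rw [JF_eq_JFs l', ← map_JFs l l' e Ψ hΨ 1, ← JF_eq_JFs l, hg, Ideal.map_span, ← Set.range_comp]
  rfl

end

end Pool.Agent.Lib.P4a9818
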