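import Pool.Agent.Lib.P4a9818.DecA
import Pool.Agent.Lib.P4a9818.DecB
import Pool.Agent.Lib.P4a9818.Trans

/-!
# P4a9818.DecC : an arrangement with `T` not scalar is a product   (estimate 2.5 h)

`V1, V2` from `exists_split`, bases `b1, b2` of `V1, V2` indexed by `Fin n1`, `Fin n2`
(`Module.finBasis`), `n1 + n2 = card σ`, `n1, n2 ≥ 1`. `A1`, `A2` from `restrict_datum` (for `A2` exchange
the roles of `V1` and `V2`), `e : A1.ι ⊕ A2.ι ≃ A.ι` (every `a k` is in exactly one of `V1`, `V2`, as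
`a k ≠ 0`).
`Ψ : MvPolynomial (Fin n1 ⊕ Fin n2) ℂ ≃ₐ MvPolynomial σ ℂ` sends `X t` to the linear form `v ↦ t`-th
coordinate of `v` in the basis `(b1, b2)` of `σ → ℂ` (inverse: `X k ↦` the linear form
`∑_t (b t) k X t`). Then `Ψ (lf (Sum.elim (A1.l i) 0)) = ∑_t (l (e i) ⬝ b1 t) coord_t = lf (l (e i))` because
`l (e i)` vanishes on `V2`.
Then `Cont`, `Str` follow from `prod_cont`, `prod_str`, `trans_cont`, `trans_str` (`rkF` is preserved: `lf` is
injective linear; the span of the `A.l k` and the span of the `sumL` vectors correspond under the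
linear isomorphism induced by `Ψ` on linear forms).
-/

namespace Pool.Agent.Lib.P4a9818

open MvPolynomial Matrix

variable {σ : Type} [Fintype σ] [DecidableEq σ] (A : Datum σ)

/-- Linear substitution. -/
private noncomputable def subM {α β : Type} [Fintype β] (M : Matrix α β ℂ) :
    MvPolynomial α ℂ →ₐ[ℂ] MvPolynomial β ℂ :=
  aeval (fun a => lf (M a))

private theorem subM_lf {α β : Type} [Fintype α] [Fintype β] (M : Matrix α β ℂ) (v : α → ℂ) :
    subM M (lf v) = lf (v ᵥ* M) := by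
  simp only [subM, lf, map_sum, map_mul, aeval_X, aeval_C, algebraMap_eq, vecMul, dotProduct,
    Finset.mul_sum, Finset.sum_mul]
  rw [Finset.sum_comm]
  refine Finset.sum_congr rfl fun b _ => Finset.sum_congr rfl fun a _ => ?_
  ring

private theorem lf_one {α : Type} [Fintype α] [DecidableEq α] (a : α) :
    lf ((1 : Matrix α α ℂ) a) = X a := by
  have h : (1 : Matrix α α ℂ) a = Pi.single a 1 := by
    funext b
    rw [Matrix.one_apply, Pi.single_apply]
    simp [eq_comm]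
  rw [h, lf_single]

private theorem subM_comp {α β : Type} [Fintype α] [Fintype β] [DecidableEq α]
    (M : Matrix α β ℂ) (N : Matrix β α ℂ) (h : M * N = 1) :
    (subM N).comp (subM M) = AlgHom.id ℂ (MvPolynomial α ℂ) := by
  apply MvPolynomial.algHom_ext
  intro a
  have h1 : subM M (X a) = lf (M a) := by simp [subM]
  rw [AlgHom.comp_apply, h1, subM_lf, AlgHom.id_apply]
  have h2 : M a ᵥ* N = (M * N) a := by
    funext b
    rfl
  rw [h2, h, lf_one]

namespace Datum

theorem split_step (hT : ∀ lam : ℂ, A.T ≠ lam • 1)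
    (IH : ∀ (n' : ℕ) (A' : Datum (Fin n')), n' < Fintype.card σ →
      Fintype.card A'.ι ≤ Fintype.card A.ι → Cont A'.l ∧ Str A'.l) :
    Cont A.l ∧ Str A.l := by
  classical
  obtain ⟨V1, V2, hC, hV1, hV2, hk⟩ := A.exists_split hT
  let b1 := Module.finBasis ℂ V1
  let b2 := Module.finBasis ℂ V2
  obtain ⟨A1, e1, he1, hr1, hl1⟩ := A.restrict_datum V1 V2 hC hk b1
  obtain ⟨A2, e2, he2, hr2, hl2⟩ := A.restrict_datum V2 V1 hC.symm (fun k => (hk k).symm) b2
  have hdim : Module.finrank ℂ V1 + Module.finrank ℂ V2 = Fintype.card σ := by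
    rw [Submodule.finrank_add_eq_of_isCompl hC, Module.finrank_fintype_fun_eq_card]
  have hp1 : 0 < Module.finrank ℂ V1 := by
    rw [Nat.pos_iff_ne_zero, Ne, Submodule.finrank_eq_zero]
    exact hV1
  have hp2 : 0 < Module.finrank ℂ V2 := by
    rw [Nat.pos_iff_ne_zero, Ne, Submodule.finrank_eq_zero]
    exact hV2
  obtain ⟨hc1, hs1⟩ := IH _ A1 (by omega) (Fintype.card_le_of_injective e1 he1)
  obtain ⟨hc2, hs2⟩ := IH _ A2 (by omega) (Fintype.card_le_of_injective e2 he2)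
  have hdisj : ∀ k, A.a k ∈ V1 → A.a k ∈ V2 → False := by
    intro k h1 h2
    have h3 : A.a k ∈ V1 ⊓ V2 := ⟨h1, h2⟩
    rw [hC.inf_eq_bot] at h3
    exact A.a_ne_zero k ((Submodule.mem_bot ℂ).1 h3)
  have hbij : Function.Bijective (Sum.elim e1 e2) := by
    constructor
    · rintro (i | i) (j | j) hij
      · exact congrArg Sum.inl (he1 hij)
      · exact (hdisj _ ((hr1 _).1 ⟨i, rfl⟩) ((hr2 _).1 ⟨j, hij.symm⟩)).elim
      · exact (hdisj _ ((hr1 _).1 ⟨j, hij.symm⟩) ((hr2 _).1 ⟨i, rfl⟩)).elim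
      · exact congrArg Sum.inr (he2 hij)
    · intro k
      rcases hk k with h | h
      · obtain ⟨i, hi⟩ := (hr1 k).2 h.1
        exact ⟨Sum.inl i, hi⟩
      · obtain ⟨i, hi⟩ := (hr2 k).2 h.1
        exact ⟨Sum.inr i, hi⟩
  let e : A1.ι ⊕ A2.ι ≃ A.ι := Equiv.ofBijective _ hbij
  -- the basis and the matrices
  let Bs : Module.Basis (Fin (Module.finrank ℂ V1) ⊕ Fin (Module.finrank ℂ V2)) ℂ (σ → ℂ) :=
    (b1.prod b2).map (V1.prodEquivOfIsCompl V2 hC)
  have hBl : ∀ t, Bs (Sum.inl t) = (b1 t : σ → ℂ) := by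
    intro t
    simp [Bs]
  have hBr : ∀ t, Bs (Sum.inr t) = (b2 t : σ → ℂ) := by
    intro t
    simp [Bs]
  let P := Bs.toMatrix (Pi.basisFun ℂ σ)
  let Q := (Pi.basisFun ℂ σ).toMatrix Bs
  have hPQ : P * Q = 1 := Bs.toMatrix_mul_toMatrix_flip (Pi.basisFun ℂ σ)
  have hQP : Q * P = 1 := (Pi.basisFun ℂ σ).toMatrix_mul_toMatrix_flip Bs
  have hQ : ∀ k t, Q k t = Bs t k := by
    intro k t
    simp [Q, Module.Basis.toMatrix_apply]
  let Ψ : MvPolynomial (Fin (Module.finrank ℂ V1) ⊕ Fin (Module.finrank ℂ V2)) ℂ ≃ₐ[ℂ]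
      MvPolynomial σ ℂ :=
    AlgEquiv.ofAlgHom (subM P) (subM Q) (subM_comp Q P hQP) (subM_comp P Q hPQ)
  have hΨ0 : ∀ f, Ψ f = subM P f := fun f => rfl
  have key : ∀ i, sumL A1.l A2.l i = A.l (e i) ᵥ* Q := by
    intro i
    funext t
    have h1 : (A.l (e i) ᵥ* Q) t = A.l (e i) ⬝ᵥ Bs t := by
      simp only [vecMul, dotProduct, hQ]
    rw [h1]
    rcases i with i | i
    · have ei : e (Sum.inl i) = e1 i := rfl
      rcases t with t | t
      · rw [hBl, ei]
        change A1.l i t = _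
        rw [hl1]
      · rw [hBr, ei]
        change (0 : ℂ) = _
        have h2 : A.a (e1 i) ∈ V1 := (hr1 _).1 ⟨i, rfl⟩
        rcases hk (e1 i) with h | h
        · exact (h.2 _ (b2 t).2).symm
        · exact (hdisj _ h2 h.1).elim
    · have ei : e (Sum.inr i) = e2 i := rfl
      rcases t with t | t
      · rw [hBl, ei]
        change (0 : ℂ) = _
        have h2 : A.a (e2 i) ∈ V2 := (hr2 _).1 ⟨i, rfl⟩
        rcases hk (e2 i) with h | h
        · exact (hdisj _ h.1 h2).elim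
        · exact (h.2 _ (b1 t).2).symm
      · rw [hBr, ei]
        change A2.l i t = _
        rw [hl2]
  have key2 : ∀ i, sumL A1.l A2.l i ᵥ* P = A.l (e i) := by
    intro i
    rw [key, vecMul_vecMul, hQP, vecMul_one]
  have hΨ : ∀ i, ∃ c : ℂ, c ≠ 0 ∧ Ψ (lf (sumL A1.l A2.l i)) = C c * lf (A.l (e i)) := by
    intro i
    refine ⟨1, one_ne_zero, ?_⟩
    rw [hΨ0, subM_lf, key2, C_1, one_mul]
  have hrk : rkF (sumL A1.l A2.l) = rkF A.l := by
    let L : (Fin (Module.finrank ℂ V1) ⊕ Fin (Module.finrank ℂ V2) → ℂ) ≃ₗ[ℂ] (σ → ℂ) :=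
      LinearEquiv.ofLinearMap (Matrix.vecMulLinear P) (Matrix.vecMulLinear Q)
        (by
          apply LinearMap.ext
          intro v
          change (v ᵥ* Q) ᵥ* P = v
          rw [vecMul_vecMul, hQP, vecMul_one])
        (by
          apply LinearMap.ext
          intro v
          change (v ᵥ* P) ᵥ* Q = v
          rw [vecMul_vecMul, hPQ, vecMul_one])
    have hr : Set.range A.l = L '' Set.range (sumL A1.l A2.l) := by
      ext w
      constructor
      · rintro ⟨k, rfl⟩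
        refine ⟨_, ⟨e.symm k, rfl⟩, ?_⟩
        change sumL A1.l A2.l (e.symm k) ᵥ* P = _
        rw [key2, Equiv.apply_symm_apply]
      · rintro ⟨_, ⟨i, rfl⟩, rfl⟩
        refine ⟨e i, ?_⟩
        change _ = sumL A1.l A2.l i ᵥ* P
        rw [key2]
    have hsp : Submodule.span ℂ (Set.range A.l)
        = (Submodule.span ℂ (Set.range (sumL A1.l A2.l))).map (L : _ →ₗ[ℂ] _) := by
      rw [Submodule.map_span, hr]
      rfl
    rw [rkF, rkF, hsp, LinearEquiv.finrank_map_eq]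
  exact ⟨trans_cont (sumL A1.l A2.l) A.l e Ψ hΨ
      (prod_cont A1.l A2.l A1.l_ne_zero A2.l_ne_zero A1.li A2.li hc1 hc2),
    trans_str (sumL A1.l A2.l) A.l e Ψ hΨ hrk
      (prod_str A1.l A2.l A1.l_ne_zero A2.l_ne_zero A1.li A2.li hs1 hs2)⟩

end Datum

end Pool.Agent.Lib.P4a9818
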