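import Mathlib

/-!
# MP_4a9818_ag : definitions for the project P4a9818

`J^(5) ⊆ J^3` for the singular loci of reflection arrangements.
Everything is over `ℂ`; the polynomial ring is `MvPolynomial σ ℂ` with `σ` a finite type.
-/

namespace Pool.Agent.Lib.P4a9818

open MvPolynomial Matrix

/-- The linear form with coefficient vector `v`. -/
noncomputable def lf {σ : Type} [Fintype σ] (v : σ → ℂ) : MvPolynomial σ ℂ :=
  ∑ k, C (v k) * X k

/-- The derivative of `f` in the direction of the constant vector `c`. -/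
noncomputable def dd {σ : Type} [Fintype σ] (c : σ → ℂ) (f : MvPolynomial σ ℂ) :
    MvPolynomial σ ℂ :=
  ∑ k, C (c k) * pderiv k f

/-- The value of the vector of polynomials `G` (a 1-form) at the constant vector `v`. -/
noncomputable def ap {σ : Type} [Fintype σ] (G : σ → MvPolynomial σ ℂ) (v : σ → ℂ) :
    MvPolynomial σ ℂ :=
  ∑ k, C (v k) * G k

/-- The linear substitution `f ↦ f ∘ M` (so `eval x (sub M f) = eval (M *ᵥ x) f`). -/
noncomputable def sub {σ : Type} [Fintype σ] (M : Matrix σ σ ℂ) :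
    MvPolynomial σ ℂ →ₐ[ℂ] MvPolynomial σ ℂ :=
  aeval (fun k => lf (M k))

/-- The ideal of the codimension two subspace `l i = l j = 0`. -/
noncomputable def PF {σ ι : Type} [Fintype σ] (l : ι → σ → ℂ) (i j : ι) :
    Ideal (MvPolynomial σ ℂ) :=
  Ideal.span {lf (l i), lf (l j)}

/-- The ideal of the singular locus of the arrangement of the hyperplanes `l i = 0`. -/
noncomputable def JF {σ ι : Type} [Fintype σ] (l : ι → σ → ℂ) : Ideal (MvPolynomial σ ℂ) :=
  ⨅ i, ⨅ j, ⨅ (_ : i ≠ j), PF l i j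

/-- The `m`-th symbolic power. -/
noncomputable def JFs {σ ι : Type} [Fintype σ] (l : ι → σ → ℂ) (m : ℕ) :
    Ideal (MvPolynomial σ ℂ) :=
  ⨅ i, ⨅ j, ⨅ (_ : i ≠ j), (PF l i j) ^ m

/-- A reflection arrangement: finitely many hyperplanes `l i = 0`, and for each of them a
reflection `g i = 1 + (z i - 1) a i ⊗ l i`, such that the reflections permute the projections
`a j ⊗ l j` and generate a finite group. -/
structure Datum (σ : Type) [Fintype σ] [DecidableEq σ] where
  ι : Type
  instF : Fintype ι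
  instD : DecidableEq ι
  a : ι → σ → ℂ
  l : ι → σ → ℂ
  z : ι → ℂ
  g : ι → GL σ ℂ
  la : ∀ i, l i ⬝ᵥ a i = 1
  li : ∀ i j, i ≠ j → LinearIndependent ℂ ![l i, l j]
  ai : ∀ i j, i ≠ j → LinearIndependent ℂ ![a i, a j]
  hz : ∀ i, z i ≠ 1
  hg : ∀ i, (g i : Matrix σ σ ℂ) = 1 + (z i - 1) • vecMulVec (a i) (l i)
  perm : ∀ i j, ∃ k, (g i : Matrix σ σ ℂ) * vecMulVec (a j) (l j)
    = vecMulVec (a k) (l k) * (g i : Matrix σ σ ℂ)
  fin : Finite (Subgroup.closure (Set.range g))

attribute [instance] Datum.instF Datum.instD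

namespace Datum

variable {σ : Type} [Fintype σ] [DecidableEq σ] (A : Datum σ)

/-- The group generated by the reflections. -/
def G : Subgroup (GL σ ℂ) := Subgroup.closure (Set.range A.g)

/-- The projection along the hyperplane. -/
def P (i : A.ι) : Matrix σ σ ℂ := vecMulVec (A.a i) (A.l i)

/-- `T = sum of the projections`. -/
def T : Matrix σ σ ℂ := ∑ i, A.P i

/-- `tr (P i P j)`. -/
def t (i j : A.ι) : ℂ := (A.l i ⬝ᵥ A.a j) * (A.l j ⬝ᵥ A.a i)

/-- The number of hyperplanes. -/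
def N : ℕ := Fintype.card A.ι

/-- The hyperplanes containing `H_i ∩ H_j` (including `i` and `j`). -/
noncomputable def cls (i j : A.ι) : Finset A.ι :=
  open Classical in Finset.univ.filter (fun k => A.l k ∈ Submodule.span ℂ {A.l i, A.l j})

/-- `s` is a system of representatives of the codimension two flats contained in `H_i`. -/
def IsRep (i : A.ι) (s : Finset A.ι) : Prop :=
  i ∉ s ∧ ∀ j, j ≠ i → ∃! r, r ∈ s ∧ r ∈ A.cls i j

/-- A system of representatives of the codimension two flats contained in `H_i`. -/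
noncomputable def rep (i : A.ι) : Finset A.ι :=
  open Classical in if h : ∃ s, A.IsRep i s then h.choose else ∅

/-- The product of all linear forms. -/
noncomputable def Q : MvPolynomial σ ℂ := ∏ j, lf (A.l j)

/-- The product of all linear forms but one. -/
noncomputable def q (i : A.ι) : MvPolynomial σ ℂ := ∏ j ∈ Finset.univ.erase i, lf (A.l j)

/-- A polynomial cutting out (with multiplicity one) the restricted arrangement on `H_i`. -/
noncomputable def pi (i : A.ι) : MvPolynomial σ ℂ := ∏ r ∈ A.rep i, lf (A.l r)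

/-- The ideal `J`. -/
noncomputable def J : Ideal (MvPolynomial σ ℂ) := JF A.l

/-- The symbolic power `J^(m)`. -/
noncomputable def Js (m : ℕ) : Ideal (MvPolynomial σ ℂ) := JFs A.l m

/-- `p` is a generic point of the hyperplane `H_i`. -/
def Gen (i : A.ι) (p : σ → ℂ) : Prop := A.l i ⬝ᵥ p = 0 ∧ ∀ j, j ≠ i → A.l j ⬝ᵥ p ≠ 0

/-- The coefficient `ω_i(b)` at the point `p`. -/
noncomputable def om (i : A.ι) (p b : σ → ℂ) : ℂ :=
  ∑ j ∈ Finset.univ.erase i, 2 * A.t i j * (A.l j ⬝ᵥ b) / (A.l j ⬝ᵥ p)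

/-- The polynomial `ω_i(b) q_i`. -/
noncomputable def W (i : A.ι) (b : σ → ℂ) : MvPolynomial σ ℂ :=
  ∑ j ∈ Finset.univ.erase i, C (2 * A.t i j * (A.l j ⬝ᵥ b)) *
    ∏ k ∈ (Finset.univ.erase i).erase j, lf (A.l k)

/-- The projection of `v` to `H_j` along `a j`. -/
def pr (j : A.ι) (v : σ → ℂ) : σ → ℂ := v - (A.l j ⬝ᵥ v) • A.a j

/-- The lattice `Λ` (multiplied by `Q²`). -/
def InLam (G : σ → MvPolynomial σ ℂ) : Prop :=
  ∀ i p b, A.Gen i p → A.l i ⬝ᵥ b = 0 →
    eval p (ap G b) = 0 ∧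
    eval p (dd (A.a i) (ap G b)) = A.om i p b * eval p (ap G (A.a i))

end Datum

/-- Exact quotient (junk value `0` if `g` does not divide `f`). -/
noncomputable def quo {σ : Type} (f g : MvPolynomial σ ℂ) : MvPolynomial σ ℂ :=
  open Classical in if h : g ∣ f then h.choose else 0

/-- The connection, multiplied by `Q²`: `D_c G (v) = ∂_c G(v) - 2 Σ_j l_j(c) G(pr_j v) / l_j`. -/
noncomputable def Datum.Dop {σ : Type} [Fintype σ] [DecidableEq σ] (A : Datum σ) (c : σ → ℂ)
    (G : σ → MvPolynomial σ ℂ) : σ → MvPolynomial σ ℂ :=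
  fun k => dd c (G k) - 2 * ∑ j, C (A.l j ⬝ᵥ c) * quo (ap G (A.pr j (Pi.single k 1))) (lf (A.l j))

/-- `Q ∇F - F ∇Q`. -/
noncomputable def Datum.GF {σ : Type} [Fintype σ] [DecidableEq σ] (A : Datum σ)
    (F : MvPolynomial σ ℂ) : σ → MvPolynomial σ ℂ :=
  fun k => A.Q * pderiv k F - F * pderiv k A.Q

/-- `T = λ·1`, and all hyperplanes contain exactly `D` flats of codimension two. -/
structure Datum.Scal {σ : Type} [Fintype σ] [DecidableEq σ] (A : Datum σ) (lam : ℂ) (D : ℕ) :
    Prop where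
  hT : A.T = lam • 1
  ne : Nonempty A.ι
  hlam : 2 * lam = A.N + 1 - D
  hrep : ∀ i, (A.rep i).card = D
  hN : Fintype.card σ * (A.N + 1) = 2 * A.N + Fintype.card σ * D
  hD : D < A.N
  hn : Fintype.card σ ≤ A.N

/-- `Fb` is a `ℂ`-basis of the space of homogeneous elements of degree `D` in `J`, with some
further properties. -/
structure Datum.IsBas {σ : Type} [Fintype σ] [DecidableEq σ] (A : Datum σ) (D : ℕ)
    (Fb : σ → MvPolynomial σ ℂ) : Prop where
  hom : ∀ s, (Fb s).IsHomogeneous D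
  mem : ∀ s, Fb s ∈ A.J
  indep : LinearIndependent ℂ Fb
  span : ∀ F : MvPolynomial σ ℂ, F.IsHomogeneous D → F ∈ A.J →
    F ∈ Submodule.span ℂ (Set.range Fb)
  XQ : ∀ k, X k * A.Q ∈ Ideal.span (Set.range Fb)
  ndvd : ∀ i, ∃ s, ¬ lf (A.l i) ∣ Fb s

/-- The rank of the arrangement. -/
noncomputable def rkF {σ ι : Type} (l : ι → σ → ℂ) : ℕ :=
  Module.finrank ℂ (Submodule.span ℂ (Set.range l))

/-- The containment `J^(5) ⊆ J³`. -/
def Cont {σ ι : Type} [Fintype σ] (l : ι → σ → ℂ) : Prop := JFs l 5 ≤ (JF l) ^ 3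

/-- `J` is generated by `max 1 rank` elements. -/
def Str {σ ι : Type} [Fintype σ] (l : ι → σ → ℂ) : Prop :=
  ∃ h : Fin (max 1 (rkF l)) → MvPolynomial σ ℂ, JF l = Ideal.span (Set.range h)

end Pool.Agent.Lib.P4a9818
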