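import Pool.Agent.Lib.P4a9818.LamBasic

/-!
# P4a9818.DopB : first properties of the operator `Dop`   (estimate 2 h)

`Dop c G k = dd c (G k) - 2 ∑_j (l j ⬝ c) quo (ap G (pr j e_k)) ℓ_j`, and for `InLam G` all the
quotients are exact (`lf_dvd_ap_pr`). `pr j` is linear in `v`.
* `ap_Dop`: linearity in `v` of `ap`, `pr` and `quo` (on multiples of `ℓ_j ≠ 0`).
* `Dop_smul`: `ap (f • G) = f * ap G`, `quo (f * x) ℓ = f * quo x ℓ`, product rule for `dd`.
* `Dop_euler`: `∑_k X_k (l j ⬝ e_k) = lf (l j)`, so `∑_k X_k * Dop e_k G m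
  = ∑_k X_k ∂_k (G m) - 2 ∑_j ap G (pr j e_m)`, and `∑_j pr j e_m = N e_m - T e_m = (N - λ) e_m`
  (`∑_j (l j ⬝ v) a j = T *ᵥ v = λ v`).
* `totalDegree_Dop`: `totalDegree (quo x ℓ) + 1 ≤ totalDegree x` or `quo x ℓ = 0`
  (`totalDegree_mul_of_isDomain`), and `totalDegree (ap G v) ≤ d`.
* `Dop_closed`: if `Dop e_k G = 0` for all `k`, multiply `Dop e_k G m = 0` by `Q = ℓ_j q_j`:
  `Q ∂_k (G m) = 2 ∑_j (l j k) q_j ap G (pr j e_m) = 2 ∑_j (l j k) q_j (G m - (l j m) ap G (a j))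
  = 2 (∂_k Q) G m - 2 ∑_j (l j k)(l j m) q_j ap G (a j)` and the last sum is symmetric in `k, m`.
-/

namespace Pool.Agent.Lib.P4a9818

open MvPolynomial Matrix

variable {σ : Type} [Fintype σ] [DecidableEq σ] (A : Datum σ)

namespace Datum

namespace DopBAux

theorem C_2' : (C 2 : MvPolynomial σ ℂ) = 2 := map_ofNat C 2

theorem ap_pr (G : σ → MvPolynomial σ ℂ) (j : A.ι) (v : σ → ℂ) :
    ap G (A.pr j v) = ap G v - C (A.l j ⬝ᵥ v) * ap G (A.a j) := by
  unfold pr
  rw [ap_sub, ap_smul]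

theorem ap_pr_single (G : σ → MvPolynomial σ ℂ) (j : A.ι) (k : σ) :
    ap G (A.pr j (Pi.single k 1)) = G k - C (A.l j k) * ap G (A.a j) := by
  rw [ap_pr, ap_single, dotProduct_single, mul_one]

theorem lf_l_ne_zero (j : A.ι) : lf (A.l j) ≠ 0 :=
  fun h => A.l_ne_zero j ((lf_eq_zero_iff _).1 h)

theorem quo_pr {G : σ → MvPolynomial σ ℂ} (hG : A.InLam G) (j : A.ι) (v : σ → ℂ) :
    lf (A.l j) * quo (ap G (A.pr j v)) (lf (A.l j)) = ap G (A.pr j v) :=
  mul_quo (A.lf_dvd_ap_pr hG j v)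

theorem sum_C_mul_C' (b w : σ → ℂ) :
    ∑ k, C (b k) * (C (w k) : MvPolynomial σ ℂ) = C (w ⬝ᵥ b) := by
  unfold dotProduct
  rw [map_sum]
  refine Finset.sum_congr rfl fun k _ => ?_
  rw [← C_mul, mul_comm]

theorem sum_quo {G : σ → MvPolynomial σ ℂ} (hG : A.InLam G) (j : A.ι) (v : σ → ℂ) :
    ∑ k, C (v k) * quo (ap G (A.pr j (Pi.single k 1))) (lf (A.l j)) =
      quo (ap G (A.pr j v)) (lf (A.l j)) := by
  symm
  apply quo_eq (lf_l_ne_zero A j)
  rw [Finset.mul_sum]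
  have h : ∀ k, lf (A.l j) * (C (v k) * quo (ap G (A.pr j (Pi.single k 1))) (lf (A.l j))) =
      C (v k) * G k - (C (v k) * C (A.l j k)) * ap G (A.a j) := by
    intro k
    rw [mul_left_comm, quo_pr A hG, ap_pr_single]
    ring
  rw [Finset.sum_congr rfl fun k _ => h k, Finset.sum_sub_distrib, ← Finset.sum_mul,
    sum_C_mul_C', ap_pr]
  rfl

theorem Dop_apply (G : σ → MvPolynomial σ ℂ) (c : σ → ℂ) (k : σ) :
    A.Dop c G k = dd c (G k) -
      2 * ∑ j, C (A.l j ⬝ᵥ c) * quo (ap G (A.pr j (Pi.single k 1))) (lf (A.l j)) := rfl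

theorem dd_prod {κ : Type} [DecidableEq κ] (c : σ → ℂ) (s : Finset κ)
    (f : κ → MvPolynomial σ ℂ) :
    dd c (∏ j ∈ s, f j) = ∑ j ∈ s, (∏ k ∈ s.erase j, f k) * dd c (f j) := by
  induction s using Finset.induction_on with
  | empty =>
    rw [Finset.prod_empty, Finset.sum_empty, ← C_1, dd_C]
  | insert i s hi ih =>
    rw [Finset.prod_insert hi, dd_mul, ih, Finset.sum_insert hi, Finset.erase_insert hi,
      Finset.mul_sum, mul_comm (dd c (f i))]
    congr 1
    refine Finset.sum_congr rfl fun j hj => ?_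
    have hij : i ≠ j := by
      rintro rfl
      exact hi hj
    rw [Finset.erase_insert_of_ne hij, Finset.prod_insert, mul_assoc]
    exact fun h => hi (Finset.mem_of_mem_erase h)

theorem pderiv_Q (k : σ) : pderiv k A.Q = ∑ j, A.q j * C (A.l j k) := by
  rw [← dd_single k A.Q]
  unfold Q q
  rw [dd_prod]
  refine Finset.sum_congr rfl fun j _ => ?_
  rw [dd_lf, dotProduct_single, mul_one]

theorem totalDegree_quo {x : MvPolynomial σ ℂ} (j : A.ι) (h : lf (A.l j) ∣ x) {d : ℕ}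
    (hd : x.totalDegree ≤ d) :
    (quo x (lf (A.l j))).totalDegree ≤ d - 1 ∧ (d = 0 → quo x (lf (A.l j)) = 0) := by
  have h0 := lf_l_ne_zero A j
  have h1 := mul_quo h
  by_cases hq : quo x (lf (A.l j)) = 0
  · rw [hq]
    exact ⟨by rw [totalDegree_zero]; exact Nat.zero_le _, fun _ => rfl⟩
  · have h2 := totalDegree_mul_of_isDomain h0 hq
    rw [h1, (isHomogeneous_lf (A.l j)).totalDegree h0] at h2
    exact ⟨by omega, fun h3 => by omega⟩

theorem totalDegree_ap {G : σ → MvPolynomial σ ℂ} {d : ℕ}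
    (hd : ∀ m, (G m).totalDegree ≤ d) (v : σ → ℂ) : (ap G v).totalDegree ≤ d := by
  unfold ap
  refine (totalDegree_finset_sum _ _).trans (Finset.sup_le fun k _ => ?_)
  refine (totalDegree_mul _ _).trans ?_
  rw [totalDegree_C, zero_add]
  exact hd k

theorem T_sum (G : σ → MvPolynomial σ ℂ) {lam : ℂ} (hT : A.T = lam • 1) (m : σ) :
    ∑ j, C (A.l j m) * ap G (A.a j) = C lam * G m := by
  have h1 : ∀ j, C (A.l j m) * ap G (A.a j) = ∑ k, C (A.P j k m) * G k := by
    intro j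
    unfold ap P
    rw [Finset.mul_sum]
    refine Finset.sum_congr rfl fun k _ => ?_
    rw [vecMulVec_apply, C_mul]
    ring
  have h2 : ∀ k, ∑ j, C (A.P j k m) * G k = C (A.T k m) * G k := by
    intro k
    rw [← Finset.sum_mul]
    congr 1
    unfold T
    rw [Matrix.sum_apply, map_sum]
  rw [Finset.sum_congr rfl fun j _ => h1 j, Finset.sum_comm, Finset.sum_congr rfl fun k _ => h2 k,
    Finset.sum_eq_single m]
  · rw [hT, Matrix.smul_apply, Matrix.one_apply_eq, smul_eq_mul, mul_one]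
  · intro k _ hk
    rw [hT, Matrix.smul_apply, Matrix.one_apply_ne hk, smul_zero, C_0, zero_mul]
  · intro hm
    exact absurd (Finset.mem_univ m) hm

end DopBAux

open DopBAux

theorem ap_Dop {G : σ → MvPolynomial σ ℂ} (hG : A.InLam G) (c v : σ → ℂ) :
    ap (A.Dop c G) v = dd c (ap G v)
      - 2 * ∑ j, C (A.l j ⬝ᵥ c) * quo (ap G (A.pr j v)) (lf (A.l j)) := by
  have h1 : ap (A.Dop c G) v = ∑ k, (C (v k) * dd c (G k) - 2 * ∑ j, C (A.l j ⬝ᵥ c) *
      (C (v k) * quo (ap G (A.pr j (Pi.single k 1))) (lf (A.l j)))) := by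
    unfold ap
    refine Finset.sum_congr rfl fun k _ => ?_
    rw [Dop_apply, mul_sub, mul_left_comm, Finset.mul_sum]
    congr 2
    refine Finset.sum_congr rfl fun j _ => ?_
    rw [mul_left_comm]
    rfl
  rw [h1, Finset.sum_sub_distrib, ← Finset.mul_sum, Finset.sum_comm, dd_ap]
  congr 2
  refine Finset.sum_congr rfl fun j _ => ?_
  rw [← Finset.mul_sum, sum_quo A hG]

theorem Dop_add {G H : σ → MvPolynomial σ ℂ} (hG : A.InLam G) (hH : A.InLam H) (c : σ → ℂ) :
    A.Dop c (G + H) = A.Dop c G + A.Dop c H := by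
  funext k
  rw [Pi.add_apply, Dop_apply, Dop_apply, Dop_apply, Pi.add_apply, dd_add]
  have h : ∀ j, C (A.l j ⬝ᵥ c) * quo (ap (G + H) (A.pr j (Pi.single k 1))) (lf (A.l j)) =
      C (A.l j ⬝ᵥ c) * quo (ap G (A.pr j (Pi.single k 1))) (lf (A.l j)) +
      C (A.l j ⬝ᵥ c) * quo (ap H (A.pr j (Pi.single k 1))) (lf (A.l j)) := by
    intro j
    rw [ap_add_left, quo_add (lf_l_ne_zero A j) (A.lf_dvd_ap_pr hG j _)
      (A.lf_dvd_ap_pr hH j _), mul_add]
  rw [Finset.sum_congr rfl fun j _ => h j, Finset.sum_add_distrib]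
  ring

theorem Dop_smul {G : σ → MvPolynomial σ ℂ} (hG : A.InLam G) (f : MvPolynomial σ ℂ)
    (c : σ → ℂ) : A.Dop c (f • G) = dd c f • G + f • A.Dop c G := by
  funext k
  rw [Pi.add_apply, Pi.smul_apply, Pi.smul_apply, Dop_apply, Dop_apply, Pi.smul_apply,
    smul_eq_mul, smul_eq_mul, smul_eq_mul, dd_mul]
  have h : ∀ j, C (A.l j ⬝ᵥ c) * quo (ap (f • G) (A.pr j (Pi.single k 1))) (lf (A.l j)) =
      f * (C (A.l j ⬝ᵥ c) * quo (ap G (A.pr j (Pi.single k 1))) (lf (A.l j))) := by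
    intro j
    rw [ap_mul_left, quo_mul_left _ (lf_l_ne_zero A j) (A.lf_dvd_ap_pr hG j _)]
    ring
  rw [Finset.sum_congr rfl fun j _ => h j, ← Finset.mul_sum]
  ring

theorem Dop_add_left (G : σ → MvPolynomial σ ℂ) (c c' : σ → ℂ) :
    A.Dop (c + c') G = A.Dop c G + A.Dop c' G := by
  funext k
  rw [Pi.add_apply, Dop_apply, Dop_apply, Dop_apply, dd_add_left]
  have h : ∀ j, C (A.l j ⬝ᵥ (c + c')) * quo (ap G (A.pr j (Pi.single k 1))) (lf (A.l j)) =
      C (A.l j ⬝ᵥ c) * quo (ap G (A.pr j (Pi.single k 1))) (lf (A.l j)) +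
      C (A.l j ⬝ᵥ c') * quo (ap G (A.pr j (Pi.single k 1))) (lf (A.l j)) := by
    intro j
    rw [dotProduct_add, C_add, add_mul]
  rw [Finset.sum_congr rfl fun j _ => h j, Finset.sum_add_distrib]
  ring

theorem Dop_smul_left (G : σ → MvPolynomial σ ℂ) (a : ℂ) (c : σ → ℂ) :
    A.Dop (a • c) G = (C a : MvPolynomial σ ℂ) • A.Dop c G := by
  funext k
  rw [Pi.smul_apply, smul_eq_mul, Dop_apply, Dop_apply, dd_smul_left]
  have h : ∀ j, C (A.l j ⬝ᵥ (a • c)) * quo (ap G (A.pr j (Pi.single k 1))) (lf (A.l j)) =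
      C a * (C (A.l j ⬝ᵥ c) * quo (ap G (A.pr j (Pi.single k 1))) (lf (A.l j))) := by
    intro j
    rw [dotProduct_smul, smul_eq_mul, C_mul, mul_assoc]
  rw [Finset.sum_congr rfl fun j _ => h j, ← Finset.mul_sum]
  ring

theorem Dop_euler {G : σ → MvPolynomial σ ℂ} (hG : A.InLam G) {lam : ℂ}
    (hT : A.T = lam • 1) :
    ∑ k, (X k : MvPolynomial σ ℂ) • A.Dop (Pi.single k 1) G
      = (fun m => ∑ k, X k * pderiv k (G m)) - (C (2 * (A.N : ℂ) - 2 * lam) : MvPolynomial σ ℂ) • G := by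
  funext m
  rw [Finset.sum_apply, Pi.sub_apply, Pi.smul_apply, smul_eq_mul]
  have h1 : ∀ k, ((X k : MvPolynomial σ ℂ) • A.Dop (Pi.single k 1) G) m =
      X k * pderiv k (G m) - 2 * ∑ j, (C (A.l j k) * X k) *
        quo (ap G (A.pr j (Pi.single m 1))) (lf (A.l j)) := by
    intro k
    rw [Pi.smul_apply, smul_eq_mul, Dop_apply, dd_single, mul_sub, mul_left_comm, Finset.mul_sum]
    congr 2
    refine Finset.sum_congr rfl fun j _ => ?_
    rw [dotProduct_single, mul_one]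
    ring
  have h2 : ∀ j, ∑ k, (C (A.l j k) * X k) *
        quo (ap G (A.pr j (Pi.single m 1))) (lf (A.l j)) =
        G m - C (A.l j m) * ap G (A.a j) := by
    intro j
    rw [← Finset.sum_mul, ← ap_pr_single]
    exact quo_pr A hG j (Pi.single m 1)
  rw [Finset.sum_congr rfl fun k _ => h1 k, Finset.sum_sub_distrib, ← Finset.mul_sum,
    Finset.sum_comm, Finset.sum_congr rfl fun j _ => h2 j, Finset.sum_sub_distrib, T_sum A G hT,
    Finset.sum_const, Finset.card_univ, nsmul_eq_mul]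
  have h3 : (C (2 * (A.N : ℂ) - 2 * lam) : MvPolynomial σ ℂ) =
      2 * (A.N : MvPolynomial σ ℂ) - 2 * C lam := by
    rw [C_sub, C_mul, C_mul, C_2', map_natCast]
  rw [h3]
  unfold N
  ring

theorem totalDegree_Dop {G : σ → MvPolynomial σ ℂ} (hG : A.InLam G) (c : σ → ℂ) (d : ℕ)
    (hd : ∀ m, (G m).totalDegree ≤ d) :
    (∀ m, (A.Dop c G m).totalDegree ≤ d - 1) ∧ (d = 0 → A.Dop c G = 0) := by
  refine ⟨fun m => ?_, fun h0 => ?_⟩
  · rw [Dop_apply]
    refine (totalDegree_sub _ _).trans (max_le ?_ ?_)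
    · exact (totalDegree_dd_le c (G m)).trans (Nat.sub_le_sub_right (hd m) 1)
    · refine (totalDegree_mul _ _).trans ?_
      rw [← C_2', totalDegree_C, zero_add]
      refine (totalDegree_finset_sum _ _).trans (Finset.sup_le fun j _ => ?_)
      refine (totalDegree_mul _ _).trans ?_
      rw [totalDegree_C, zero_add]
      exact (totalDegree_quo A j (A.lf_dvd_ap_pr hG j _) (totalDegree_ap hd _)).1
  · funext m
    rw [Dop_apply, Pi.zero_apply]
    have h1 : dd c (G m) = 0 := by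
      apply dd_eq_zero_of_totalDegree
      have := hd m
      omega
    rw [h1, zero_sub, neg_eq_zero]
    refine mul_eq_zero_of_right _ (Finset.sum_eq_zero fun j _ => ?_)
    rw [(totalDegree_quo A j (A.lf_dvd_ap_pr hG j _) (totalDegree_ap hd _)).2 h0, mul_zero]

theorem Dop_closed {G : σ → MvPolynomial σ ℂ} (hG : A.InLam G)
    (h : ∀ k, A.Dop (Pi.single k 1) G = 0) (k m : σ) :
    A.Q * pderiv k (G m) - 2 * pderiv k A.Q * G m
      = A.Q * pderiv m (G k) - 2 * pderiv m A.Q * G k := by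
  have key : ∀ k m : σ, A.Q * pderiv k (G m) - 2 * pderiv k A.Q * G m =
      - (2 * ∑ j, (C (A.l j k) * C (A.l j m)) * (A.q j * ap G (A.a j))) := by
    intro k m
    have h1 := congrFun (h k) m
    rw [Dop_apply, Pi.zero_apply, dd_single, sub_eq_zero] at h1
    rw [h1, pderiv_Q]
    have h2 : ∀ j, A.Q * (C (A.l j ⬝ᵥ Pi.single k 1) *
        quo (ap G (A.pr j (Pi.single m 1))) (lf (A.l j))) =
        A.q j * C (A.l j k) * G m -
          (C (A.l j k) * C (A.l j m)) * (A.q j * ap G (A.a j)) := by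
      intro j
      rw [dotProduct_single, mul_one, A.Q_eq j]
      have h3 := quo_pr A hG j (Pi.single m 1)
      rw [ap_pr_single] at h3 ⊢
      have h4 : lf (A.l j) * A.q j * (C (A.l j k) *
          quo (G m - C (A.l j m) * ap G (A.a j)) (lf (A.l j))) =
          A.q j * C (A.l j k) * (lf (A.l j) *
          quo (G m - C (A.l j m) * ap G (A.a j)) (lf (A.l j))) := by ring
      rw [h4, h3]
      ring
    rw [mul_left_comm, Finset.mul_sum, Finset.sum_congr rfl fun j _ => h2 j,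
      Finset.sum_sub_distrib, ← Finset.sum_mul]
    ring
  rw [key, key]
  congr 2
  refine Finset.sum_congr rfl fun j _ => ?_
  rw [mul_comm (C (A.l j k))]

end Datum

end Pool.Agent.Lib.P4a9818
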