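import Pool.Agent.Lib.P4a9818.DpG

/-!
# P4a9818.DpDeg : the sum of the degrees   (estimate 2.5 h)

Let `δ = det (ηb i k)`, homogeneous of degree `∑ d i`, `δ ≠ 0`.
For each `i : A.ι`: `Fb k = C (c k) π_i + ℓ_i (…)`, some `c k0 ≠ 0` (`DpR.refl_rank_one`), and
`ℓ_i ∤ π_i` (`DpR.not_lf_dvd_pi`).
* `ℓ_i ∣ δ`: modulo the prime `ℓ_i` every row satisfies `∑_k c k * ηb _ k ≡ 0`
  (`ℓ_i ∣ Q ∣ ⟨η⟩ ≡ (∑ c k η_k) π_i`, `ℓ_i ∤ π_i`), so the determinant vanishes modulo `ℓ_i`
  (multiply the column `k0` by `c k0` and add `c k` times the other columns). So `Q ∣ δ`.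
* For elements `ξ_1, …, ξ_n` of `Dp` (indexed by `σ`) `det ξ = (det of coefficients) * δ`, so
  `δ ∣ det ξ`. With `ξ_k = q_i • (e_k - C (c k / c k0) e_{k0})` for `k ≠ k0` (`∈ Dp`: `⟨ξ_k⟩` is
  divisible by `q_i` and by `ℓ_i`, which are coprime) and `ξ_{k0} = Q e_{k0}` we get
  `det ξ = ± q_i^n ℓ_i`, so `δ ∣ q_i^n ℓ_i`, and `ℓ_i² ∤ δ`. With `ξ_k = Q e_k`: `δ ∣ Q^n`.
* So `δ = Q u` with `ℓ_i ∤ u` for all `i` (if `ℓ_i ∣ u` then `ℓ_i² ∣ δ`), `u ∣ Q^n`, so `u` is a unit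
  (a prime factor of `u` divides `Q^n`, so it is associated to some `ℓ_i`), and `∑ d i = N`.
-/

namespace Pool.Agent.Lib.P4a9818

open MvPolynomial Matrix

variable {σ : Type} [Fintype σ] [DecidableEq σ] (A : Datum σ)

namespace DpDegAux

theorem det_aux {R : Type} [CommRing R] (u v : σ → R) :
    (1 - vecMulVec u v).det = 1 - v ⬝ᵥ u := by
  have h := det_one_add_replicateCol_mul_replicateRow (ι := Unit) (-u) v
  have h1 : (1 : Matrix σ σ R) + replicateCol Unit (-u) * replicateRow Unit v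
      = 1 - vecMulVec u v := by
    ext i j
    simp [Matrix.mul_apply, vecMulVec_apply, sub_eq_add_neg]
  rw [h1] at h
  rw [h]
  simp [sub_eq_add_neg]

theorem det_isHomogeneous (B : σ → σ → MvPolynomial σ ℂ) (d : σ → ℕ)
    (hh : ∀ i k, (B i k).IsHomogeneous (d i)) :
    ((Matrix.of B).det).IsHomogeneous (∑ i, d i) := by
  rw [Matrix.det_apply]
  refine IsHomogeneous.sum _ _ _ fun e _ => ?_
  have h1 : (∏ i, (Matrix.of B) (e i) i).IsHomogeneous (∑ i, d (e i)) :=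
    IsHomogeneous.prod _ _ _ fun i _ => hh (e i) i
  rw [Equiv.sum_comp e d] at h1
  rcases Int.units_eq_one_or (Equiv.Perm.sign e) with h | h
  · rw [h, one_smul]; exact h1
  · rw [h, Units.neg_smul, one_smul]
    exact h1.neg

theorem det_ne (B : σ → σ → MvPolynomial σ ℂ)
    (hi : LinearIndependent (MvPolynomial σ ℂ) B) : (Matrix.of B).det ≠ 0 := by
  intro h
  obtain ⟨v, hv, hv0⟩ := Matrix.exists_vecMul_eq_zero_iff.2 h
  apply hv
  funext i
  have h2 := Fintype.linearIndependent_iff.1 hi v (by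
    funext k
    have := congrFun hv0 k
    simpa [Matrix.vecMul, dotProduct] using this)
  exact h2 i

/-- `δ ∣ det ξ` -/
theorem det_dvd {B ξ : σ → σ → MvPolynomial σ ℂ}
    (h : ∀ k, ξ k ∈ Submodule.span (MvPolynomial σ ℂ) (Set.range B)) :
    (Matrix.of B).det ∣ (Matrix.of ξ).det := by
  have h1 : ∀ k, ∃ r : σ → MvPolynomial σ ℂ, ∑ m, r m • B m = ξ k := fun k =>
    (Submodule.mem_span_range_iff_exists_fun _).1 (h k)
  choose r hr using h1
  have h2 : Matrix.of ξ = Matrix.of r * Matrix.of B := by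
    ext1 k m
    have := congrFun (hr k) m
    simp only [Finset.sum_apply, Pi.smul_apply, smul_eq_mul] at this
    simp only [Matrix.of_apply, Matrix.mul_apply]
    exact this.symm
  rw [h2, Matrix.det_mul]
  exact dvd_mul_left _ _

theorem not_dvd_q (i : A.ι) : ¬ lf (A.l i) ∣ A.q i := by
  intro h
  obtain ⟨j, hj, hd⟩ := (prime_lf (DpGAux.l_ne A i)).exists_mem_finset_dvd h
  have hji : j ≠ i := Finset.ne_of_mem_erase hj
  obtain ⟨c, hc⟩ := (lf_dvd_lf_iff (DpGAux.l_ne A i) _).1 hd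
  have h1 := A.li i j hji.symm
  rw [LinearIndependent.pair_iff] at h1
  have h2 := h1 c (-1) (by rw [hc]; simp)
  simp at h2

theorem Q_eq (i : A.ι) : A.Q = lf (A.l i) * A.q i :=
  (Finset.mul_prod_erase Finset.univ (fun j => lf (A.l j)) (Finset.mem_univ i)).symm

section

variable {lam : ℂ} {D : ℕ} {Fb : σ → MvPolynomial σ ℂ}

/-- the linear relation satisfied by the elements of `Dp` modulo `ℓ_i`. -/
theorem lin_rel (hS : A.Scal lam D) (i : A.ι) {c : σ → ℂ}
    (hc : ∀ k, lf (A.l i) ∣ Fb k - C (c k) * A.pi i) {η : σ → MvPolynomial σ ℂ}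
    (hη : η ∈ A.DpS Fb) : lf (A.l i) ∣ ∑ k, C (c k) * η k := by
  obtain ⟨u, hu⟩ := (DpGAux.mem_DpS A).1 hη
  have hp : Prime (lf (A.l i)) := prime_lf (DpGAux.l_ne A i)
  have h1 : lf (A.l i) ∣ (∑ k, C (c k) * η k) * A.pi i := by
    have h2 : (∑ k, C (c k) * η k) * A.pi i
        = (∑ k, η k * Fb k) - ∑ k, η k * (Fb k - C (c k) * A.pi i) := by
      rw [← Finset.sum_sub_distrib, Finset.sum_mul]
      refine Finset.sum_congr rfl fun k _ => ?_
      ring
    rw [h2]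
    refine dvd_sub ?_ (Finset.dvd_sum fun k _ => Dvd.dvd.mul_left (hc k) _)
    rw [hu]
    exact (DpGAux.lf_dvd_Q A i).mul_right _
  exact (hp.dvd_or_dvd h1).resolve_right (A.not_lf_dvd_pi hS i)

/-- `ℓ_i ∣ δ` -/
theorem lf_dvd_det (i : A.ι) {c : σ → ℂ} {k0 : σ} (hk0 : c k0 ≠ 0)
    (B : σ → σ → MvPolynomial σ ℂ) (h : ∀ j, lf (A.l i) ∣ ∑ k, C (c k) * B j k) :
    lf (A.l i) ∣ (Matrix.of B).det := by
  have h1 : (Matrix.of B).adjugate *ᵥ ((Matrix.of B) *ᵥ fun k => C (c k))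
      = (Matrix.of B).det • fun k => C (c k) := by
    rw [Matrix.mulVec_mulVec, Matrix.adjugate_mul, Matrix.smul_mulVec, Matrix.one_mulVec]
  have h2 := congrFun h1 k0
  rw [Pi.smul_apply, smul_eq_mul] at h2
  have h3 : lf (A.l i) ∣ (Matrix.of B).det * C (c k0) := by
    rw [← h2]
    refine Finset.dvd_sum fun j _ => Dvd.dvd.mul_left ?_ _
    have h4 : (Matrix.of B *ᵥ fun k => C (c k)) j = ∑ k, C (c k) * B j k := by
      simp only [Matrix.mulVec, dotProduct, Matrix.of_apply]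
      exact Finset.sum_congr rfl fun k _ => mul_comm _ _
    rw [h4]
    exact h j
  have h5 : (Matrix.of B).det = (Matrix.of B).det * C (c k0) * C (c k0)⁻¹ := by
    rw [mul_assoc, ← C_mul, mul_inv_cancel₀ hk0, C_1, mul_one]
  rw [h5]
  exact h3.mul_right _

/-- `δ ∣ Q ^ n` -/
theorem det_dvd_Q {B : σ → σ → MvPolynomial σ ℂ}
    (hs : Submodule.span (MvPolynomial σ ℂ) (Set.range B) = A.DpS Fb) :
    (Matrix.of B).det ∣ A.Q ^ Fintype.card σ := by
  have h1 : (Matrix.of B).det ∣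
      (Matrix.of (fun k m => A.Q * (1 : Matrix σ σ (MvPolynomial σ ℂ)) k m)).det := by
    refine det_dvd fun k => ?_
    rw [hs, DpGAux.mem_DpS]
    refine Finset.dvd_sum fun m _ => ?_
    rw [mul_assoc]
    exact dvd_mul_right _ _
  have h2 : (Matrix.of (fun k m => A.Q * (1 : Matrix σ σ (MvPolynomial σ ℂ)) k m))
      = A.Q • (1 : Matrix σ σ (MvPolynomial σ ℂ)) := by
    ext1 k m
    simp
  rwa [h2, Matrix.det_smul, Matrix.det_one, mul_one] at h1

/-- `δ ∣ q_i ^ n ℓ_i` -/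
theorem det_dvd_q (i : A.ι) {c : σ → ℂ} {k0 : σ} (hk0 : c k0 ≠ 0)
    (hc : ∀ k, lf (A.l i) ∣ Fb k - C (c k) * A.pi i) {B : σ → σ → MvPolynomial σ ℂ}
    (hs : Submodule.span (MvPolynomial σ ℂ) (Set.range B) = A.DpS Fb) :
    (Matrix.of B).det ∣ lf (A.l i) * A.q i ^ Fintype.card σ := by
  set w : σ → MvPolynomial σ ℂ := fun k => if k = k0 then A.Q else A.q i with hw
  set u : σ → MvPolynomial σ ℂ := fun k => if k = k0 then 0 else C (c k / c k0) with hu
  have h1 : (Matrix.of B).det ∣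
      (Matrix.of (fun k m => w k * (1 - vecMulVec u (Pi.single k0 1)) k m)).det := by
    refine det_dvd fun k => ?_
    rw [hs, DpGAux.mem_DpS]
    have h2 : ∑ m, w k * (1 - vecMulVec u (Pi.single k0 1)) k m * Fb m
        = w k * (Fb k - u k * Fb k0) := by
      simp only [Matrix.sub_apply, vecMulVec_apply, Matrix.one_apply, Pi.single_apply]
      simp only [mul_sub, _root_.sub_mul, Finset.sum_sub_distrib]
      congr 1
      · simp
      · simp [mul_assoc]
    rw [h2]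
    by_cases hk : k = k0
    · simp only [hw, hk, if_true]
      exact dvd_mul_right _ _
    · simp only [hw, hu, if_neg hk]
      rw [Q_eq A i, mul_comm]
      refine mul_dvd_mul_left _ ?_
      have h3 : Fb k - C (c k / c k0) * Fb k0
          = (Fb k - C (c k) * A.pi i) - C (c k / c k0) * (Fb k0 - C (c k0) * A.pi i) := by
        have : (C (c k) : MvPolynomial σ ℂ) = C (c k / c k0) * C (c k0) := by
          rw [← C_mul, div_mul_cancel₀ _ hk0]
        rw [this]; ring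
      rw [h3]
      exact dvd_sub (hc k) ((hc k0).mul_left _)
  have h2 : (Matrix.of (fun k m => w k * (1 - vecMulVec u (Pi.single k0 1)) k m))
      = Matrix.diagonal w * (1 - vecMulVec u (Pi.single k0 1)) := by
    ext1 k m
    rw [Matrix.diagonal_mul]
    rfl
  rw [h2, Matrix.det_mul, Matrix.det_diagonal, det_aux] at h1
  have h3 : (Pi.single k0 1 : σ → MvPolynomial σ ℂ) ⬝ᵥ u = 0 := by
    simp [hu]
  rw [h3, sub_zero, mul_one] at h1
  refine h1.trans ?_
  have h4 : ∏ k, w k = A.Q * ∏ k ∈ Finset.univ.erase k0, w k := by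
    rw [← Finset.mul_prod_erase Finset.univ w (Finset.mem_univ k0)]
    simp [hw]
  have h5 : ∏ k ∈ Finset.univ.erase k0, w k = A.q i ^ (Fintype.card σ - 1) := by
    rw [Finset.prod_congr rfl (g := fun _ => A.q i)
      (fun k hk => by simp [hw, Finset.ne_of_mem_erase hk])]
    rw [Finset.prod_const, Finset.card_erase_of_mem (Finset.mem_univ k0), Finset.card_univ]
  rw [h4, h5, Q_eq A i, mul_assoc, ← pow_succ']
  have : Fintype.card σ - 1 + 1 = Fintype.card σ :=
    Nat.sub_add_cancel (Fintype.card_pos_iff.2 ⟨k0⟩)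
  rw [this]

end

end DpDegAux

namespace Datum

open DpDegAux in
theorem DpS_degrees {lam : ℂ} {D : ℕ} (hS : A.Scal lam D) {Fb : σ → MvPolynomial σ ℂ}
    (hF : A.IsBas D Fb) (ηb : σ → σ → MvPolynomial σ ℂ) (d : σ → ℕ)
    (hh : ∀ i k, (ηb i k).IsHomogeneous (d i))
    (hi : LinearIndependent (MvPolynomial σ ℂ) ηb)
    (hs : Submodule.span (MvPolynomial σ ℂ) (Set.range ηb) = A.DpS Fb) :
    ∑ i, d i = A.N := by
  have hne := det_ne ηb hi
  have hmem : ∀ j, ηb j ∈ A.DpS Fb := fun j => by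
    rw [← hs]; exact Submodule.subset_span ⟨j, rfl⟩
  have hQ : A.Q ∣ (Matrix.of ηb).det := by
    refine DpGAux.Q_dvd A fun i => ?_
    obtain ⟨c, f, hc, ⟨k0, hk0⟩, -⟩ := A.refl_rank_one hS hF i
    exact lf_dvd_det A i hk0 ηb fun j => lin_rel A hS i hc (hmem j)
  have hsq : ∀ i, ¬ lf (A.l i) * lf (A.l i) ∣ (Matrix.of ηb).det := by
    intro i h
    obtain ⟨c, f, hc, ⟨k0, hk0⟩, -⟩ := A.refl_rank_one hS hF i
    have h1 := h.trans (det_dvd_q A i hk0 hc hs)
    have h2 : lf (A.l i) ∣ A.q i ^ Fintype.card σ :=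
      (mul_dvd_mul_iff_left (DpGAux.lf_ne A i)).1 h1
    exact not_dvd_q A i ((prime_lf (DpGAux.l_ne A i)).dvd_of_dvd_pow h2)
  obtain ⟨u, hu⟩ := hQ
  have hu0 : u ≠ 0 := by
    rintro rfl
    rw [mul_zero] at hu
    exact hne hu
  have hunit : IsUnit u := by
    by_contra hnu
    obtain ⟨p, hp, hpu⟩ := WfDvdMonoid.exists_irreducible_factor hnu hu0
    have hpp : Prime p := UniqueFactorizationMonoid.irreducible_iff_prime.1 hp
    have h1 : p ∣ A.Q ^ Fintype.card σ :=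
      hpu.trans ((Dvd.intro_left _ hu.symm).trans (det_dvd_Q A hs))
    obtain ⟨j, -, hj⟩ := hpp.exists_mem_finset_dvd (hpp.dvd_of_dvd_pow h1)
    have hlj : Irreducible (lf (A.l j)) := (prime_lf (DpGAux.l_ne A j)).irreducible
    have h2 : lf (A.l j) ∣ p := ((hp.dvd_irreducible_iff_associated hlj).1 hj).symm.dvd
    apply hsq j
    rw [hu]
    exact mul_dvd_mul (DpGAux.lf_dvd_Q A j) (h2.trans hpu)
  obtain ⟨c, hc, hcu⟩ : ∃ c : ℂ, c ≠ 0 ∧ u = C c := by
    have h1 := (isUnit_iff_totalDegree_of_isReduced.1 hunit)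
    refine ⟨coeff 0 u, h1.1.ne_zero, ?_⟩
    exact totalDegree_eq_zero_iff_eq_C.1 h1.2
  have hhom : (Matrix.of ηb).det.IsHomogeneous A.N := by
    rw [hu, hcu]
    have h1 : (A.Q * C c).IsHomogeneous ((Finset.univ : Finset A.ι).card + 0) :=
      (isHomogeneous_prod_lf Finset.univ A.l).mul (isHomogeneous_C σ c)
    simpa [Datum.N] using h1
  exact (det_isHomogeneous ηb d hh).inj_right hhom hne

end Datum

end Pool.Agent.Lib.P4a9818
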