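import Pool.Agent.Lib.P4a9818.JDz
import Pool.Agent.Lib.P4a9818.Act

/-!
# P4a9818.DpR : the action of a reflection on `J_D`
-/

namespace Pool.Agent.Lib.P4a9818

open MvPolynomial Matrix

variable {σ : Type} [Fintype σ] [DecidableEq σ] (A : Datum σ)

namespace Datum

private theorem not_mem_rep (i : A.ι) : i ∉ A.rep i := by
  classical
  by_cases h : ∃ s, A.IsRep i s
  · have h1 : A.rep i = h.choose := by
      rw [rep, dif_pos h]
    rw [h1]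
    exact h.choose_spec.1
  · have h1 : A.rep i = ∅ := by
      rw [rep, dif_neg h]
    rw [h1]
    exact Finset.notMem_empty i

theorem not_lf_dvd_pi {lam : ℂ} {D : ℕ} (hS : A.Scal lam D) (i : A.ι) :
    ¬ lf (A.l i) ∣ A.pi i := by
  intro h
  rw [pi, (prime_lf (A.l_ne_zero i)).dvd_finsetProd_iff] at h
  obtain ⟨r, hr, h1⟩ := h
  obtain ⟨c, hc⟩ := (lf_dvd_lf_iff (A.l_ne_zero i) _).1 h1
  by_cases hir : i = r
  · subst hir
    exact A.not_mem_rep i hr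
  · exact A.l_not_smul hir c hc

private theorem act_eq_zero {lam : ℂ} {D : ℕ} (hS : A.Scal lam D) (i : A.ι)
    {F : MvPolynomial σ ℂ} (hF : F.IsHomogeneous D) (hJ : F ∈ A.J) (h : lf (A.l i) ∣ F) :
    C (A.z i)⁻¹ * sub (A.g i : Matrix σ σ ℂ) F - F = 0 := by
  refine A.eq_zero_of_sq_dvd hS ?_ ?_ i ?_
  · exact ((sub_isHomogeneous _ hF).C_mul _).sub hF
  · exact Ideal.sub_mem _ (Ideal.mul_mem_left _ _ (A.sub_mem_J _ (A.g_mem i) hJ)) hJ
  · obtain ⟨F', rfl⟩ := h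
    obtain ⟨u, hu⟩ := A.dvd_sub_sub i F'
    refine ⟨u, ?_⟩
    have hz : (C (A.z i)⁻¹ : MvPolynomial σ ℂ) * C (A.z i) = 1 := by
      rw [← map_mul, inv_mul_cancel₀ (A.z_ne_zero i), map_one]
    have h1 : sub (A.g i : Matrix σ σ ℂ) F' = F' + lf (A.l i) * u := by
      rw [← hu]; ring
    rw [map_mul, A.sub_g_lf, h1]
    linear_combination (lf (A.l i) * (F' + lf (A.l i) * u)) * hz

theorem refl_rank_one {lam : ℂ} {D : ℕ} (hS : A.Scal lam D) {Fb : σ → MvPolynomial σ ℂ}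
    (hF : A.IsBas D Fb) (i : A.ι) :
    ∃ c f : σ → ℂ, (∀ k, lf (A.l i) ∣ Fb k - C (c k) * A.pi i) ∧ (∃ k, c k ≠ 0) ∧
      ∀ k, C (A.z i)⁻¹ * sub (A.g i : Matrix σ σ ℂ) (Fb k) - Fb k
        = C (c k) * ∑ m, C (f m) * Fb m := by
  choose c hc using fun k => (A.mem_J_iff hS (hF.hom k)).1 (hF.mem k) i
  have hc0 : ∃ k, c k ≠ 0 := by
    obtain ⟨k, hk⟩ := hF.ndvd i
    refine ⟨k, fun h => hk ?_⟩
    have := hc k
    rw [h, map_zero, zero_mul, sub_zero] at this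
    exact this
  obtain ⟨k0, hk0⟩ := hc0
  have hE : ∀ k, C (A.z i)⁻¹ * sub (A.g i : Matrix σ σ ℂ) (Fb k) - Fb k =
      C (c k) * (C (c k0)⁻¹ *
        (C (A.z i)⁻¹ * sub (A.g i : Matrix σ σ ℂ) (Fb k0) - Fb k0)) := by
    intro k
    have h1 := A.act_eq_zero hS i (F := Fb k - C (c k * (c k0)⁻¹) * Fb k0)
      ((hF.hom k).sub ((hF.hom k0).C_mul _))
      (Ideal.sub_mem _ (hF.mem k) (Ideal.mul_mem_left _ _ (hF.mem k0))) (by
        obtain ⟨u, hu⟩ := hc k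
        obtain ⟨v, hv⟩ := hc k0
        refine ⟨u - C (c k * (c k0)⁻¹) * v, ?_⟩
        have h2 : (C (c k * (c k0)⁻¹) : MvPolynomial σ ℂ) * C (c k0) = C (c k) := by
          rw [← map_mul, mul_assoc, inv_mul_cancel₀ hk0, mul_one]
        linear_combination hu - C (c k * (c k0)⁻¹) * hv - A.pi i * h2)
    rw [map_sub, map_mul, show sub (A.g i : Matrix σ σ ℂ) (C (c k * (c k0)⁻¹)) =
      C (c k * (c k0)⁻¹) by rw [sub, aeval_C]; rfl] at h1
    have h3 : (C (c k * (c k0)⁻¹) : MvPolynomial σ ℂ) = C (c k) * C (c k0)⁻¹ := by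
      rw [map_mul]
    rw [h3] at h1
    linear_combination h1
  have hs := hF.span (C (c k0)⁻¹ *
        (C (A.z i)⁻¹ * sub (A.g i : Matrix σ σ ℂ) (Fb k0) - Fb k0))
    ((((sub_isHomogeneous _ (hF.hom k0)).C_mul _).sub (hF.hom k0)).C_mul _)
    (Ideal.mul_mem_left _ _ (Ideal.sub_mem _ (Ideal.mul_mem_left _ _
      (A.sub_mem_J _ (A.g_mem i) (hF.mem k0))) (hF.mem k0)))
  obtain ⟨f, hf⟩ := (Submodule.mem_span_range_iff_exists_fun ℂ).1 hs
  refine ⟨c, f, hc, ⟨k0, hk0⟩, fun k => ?_⟩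
  rw [hE k, ← hf]
  simp only [smul_eq_C_mul]

end Datum

end Pool.Agent.Lib.P4a9818
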