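import Pool.Agent.Lib.P4a9818.CFc
import Pool.Agent.Lib.P4a9818.DpR

/-!
# P4a9818.DpG : the module `{η | Q ∣ ∑ η_k F_k}` is free   (estimate 3 h)

Apply `CFc` with `κ = σ`, `𝒢 = A.G` (as a type), `ι = A.ι`:
* `θ g f = sub (g⁻¹) f` (an algebra automorphism with inverse `sub g`; `sub_mul` makes `θ` a monoid
  homomorphism). `s i = (g i)⁻¹`, so `θ (s i) = sub (g i)`. `ℓ i = lf (l i)`.
* `sub (g⁻¹)` maps `J_D` (homogeneous elements of degree `D` of `J`) to itself; `ρ g` is its matrix in the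
  basis `Fb`: `θ g (Fb k) = ∑_m C (ρ g m k) * Fb m`, `ρ (g h) = ρ g * ρ h`.
* `(Θ g η)_m = C (det g) * ∑_k C (ρ g m k) * θ g (η_k)`. Then, with `⟨η⟩ = ∑_k η_k Fb_k`,
  `⟨Θ g η⟩ = C (det g) * θ g ⟨η⟩`. As `θ g Q = C (det g)⁻¹ * Q` (`sub_Q`): if `⟨η⟩ = u Q` then
  `⟨Θ g η⟩ = (θ g u) Q`.
* `Dp = {η | Q ∣ ⟨η⟩}`, `q = Q`. `hgr`: `⟨η⟩` has components `⟨η_e⟩` in degree `e + D`, and `Q` is
  homogeneous (`Q ∣ P` implies `Q ∣` each component of `P`).
* `hinv`: if `Θ g η = η` for all `g` then `P = ⟨η⟩` satisfies, for `g = (g i)⁻¹`,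
  `P = C (z i)⁻¹ * sub (g i) P`, so `ℓ_i ∣ P` (`dvd_of_semi`, `z i ≠ 1`); so `Q ∣ P` (`prod_lf_dvd`).
* `hΔD`. Fix `i`, `s = (g i)⁻¹`, so `det s = (z i)⁻¹`, `θ s = sub (g i)`. By `DpR.refl_rank_one`
  `(z i)⁻¹ ρ(s) m k - δ_{mk} = f_m c_k` with `ℓ_i ∣ Fb k - C (c_k) π_i` (compare coefficients in the
  `ℂ`-basis `Fb`). For `η ∈ Dp`: `θ s η_k ≡ η_k mod ℓ_i`, so
  `Θ s η - η ≡ ((z i)⁻¹ ρ(s) - 1) η = (∑_k c_k η_k) f mod ℓ_i`, and
  `ℓ_i ∣ Q ∣ ⟨η⟩ ≡ (∑ c_k η_k) π_i`, `ℓ_i ∤ π_i` (`not_lf_dvd_pi`), so `ℓ_i ∣ ∑ c_k η_k`. Hence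
  `Θ s η - η = ℓ_i • η'`, and `ℓ_i ⟨η'⟩ = (θ s u - u) Q = ℓ_i u' Q`, so `⟨η'⟩ = u' Q`, `η' ∈ Dp`.
-/

namespace Pool.Agent.Lib.P4a9818

open MvPolynomial Matrix

variable {σ : Type} [Fintype σ] [DecidableEq σ] (A : Datum σ)

namespace Datum

/-- The module `{η | Q ∣ ∑ η_k F_k}`. -/
noncomputable def DpS (Fb : σ → MvPolynomial σ ℂ) :
    Submodule (MvPolynomial σ ℂ) (σ → MvPolynomial σ ℂ) where
  carrier := {η | A.Q ∣ ∑ k, η k * Fb k}
  add_mem' := by
    intro a b ha hb
    have h : ∑ k, (a + b) k * Fb k = ∑ k, a k * Fb k + ∑ k, b k * Fb k := by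
      simp [add_mul, Finset.sum_add_distrib]
    rw [Set.mem_ofPred_eq, h]
    exact dvd_add ha hb
  zero_mem' := by simp
  smul_mem' := by
    intro c a ha
    have h : ∑ k, (c • a) k * Fb k = c * ∑ k, a k * Fb k := by
      simp [Finset.mul_sum, mul_assoc]
    rw [Set.mem_ofPred_eq, h]
    exact Dvd.dvd.mul_left ha c

end Datum

namespace DpGAux

theorem mem_DpS {Fb : σ → MvPolynomial σ ℂ} {η : σ → MvPolynomial σ ℂ} :
    η ∈ A.DpS Fb ↔ A.Q ∣ ∑ k, η k * Fb k := Iff.rfl

omit [Fintype σ] [DecidableEq σ] in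
/-- homogeneous component of a product with a homogeneous polynomial -/
theorem hc_mul {q u : MvPolynomial σ ℂ} {N : ℕ} (hq : q.IsHomogeneous N) (n : ℕ) :
    q ∣ homogeneousComponent n (q * u) := by
  have hu : u = ∑ i ∈ Finset.range (u.totalDegree + 1), homogeneousComponent i u :=
    (sum_homogeneousComponent u).symm
  rw [hu, Finset.mul_sum, map_sum]
  refine Finset.dvd_sum fun i _ => ?_
  have h1 : (q * homogeneousComponent i u).IsHomogeneous (N + i) :=
    hq.mul (homogeneousComponent_isHomogeneous i u)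
  rw [homogeneousComponent_of_mem h1]
  split_ifs
  · exact dvd_mul_right _ _
  · exact dvd_zero _

omit [Fintype σ] [DecidableEq σ] in
/-- component `e + D` of a product with a homogeneous polynomial of degree `D`. -/
theorem hc_mul_right {F u : MvPolynomial σ ℂ} {D : ℕ} (hF : F.IsHomogeneous D) (e : ℕ) :
    homogeneousComponent (e + D) (u * F) = homogeneousComponent e u * F := by
  have hu : u = ∑ i ∈ Finset.range (u.totalDegree + 1), homogeneousComponent i u :=
    (sum_homogeneousComponent u).symm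
  conv_lhs => rw [hu, Finset.sum_mul, map_sum]
  conv_rhs => rw [hu, map_sum, Finset.sum_mul]
  refine Finset.sum_congr rfl fun i _ => ?_
  have h1 : (homogeneousComponent i u * F).IsHomogeneous (i + D) :=
    (homogeneousComponent_isHomogeneous i u).mul hF
  rw [homogeneousComponent_of_mem h1,
    homogeneousComponent_of_mem (homogeneousComponent_isHomogeneous i u)]
  by_cases h : e = i
  · subst h; simp
  · rw [if_neg (by omega), if_neg (by omega)]; simp

/-- the matrix of the inverse. -/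
noncomputable def Mi (g : A.G) : Matrix σ σ ℂ := ((g⁻¹ : A.G) : GL σ ℂ)

theorem Mi_one : Mi A 1 = 1 := by
  simp [Mi]

theorem Mi_mul (g h : A.G) : Mi A (g * h) = Mi A h * Mi A g := by
  simp [Mi]

/-- the action on polynomials. -/
noncomputable def th (g : A.G) : MvPolynomial σ ℂ →ₐ[ℂ] MvPolynomial σ ℂ := sub (Mi A g)

theorem th_one (f : MvPolynomial σ ℂ) : th A 1 f = f := by
  rw [th, Mi_one]; exact sub_one f

theorem th_mul (g h : A.G) (f : MvPolynomial σ ℂ) : th A (g * h) f = th A g (th A h f) := by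
  rw [th, Mi_mul]; exact sub_mul _ _ f

noncomputable def thE : A.G →* (MvPolynomial σ ℂ ≃ₐ[ℂ] MvPolynomial σ ℂ) where
  toFun g := AlgEquiv.ofAlgHom (th A g) (th A g⁻¹)
    (by
      ext1 k
      simp only [AlgHom.comp_apply, AlgHom.id_apply]
      rw [← th_mul, mul_inv_cancel, th_one])
    (by
      ext1 k
      simp only [AlgHom.comp_apply, AlgHom.id_apply]
      rw [← th_mul, inv_mul_cancel, th_one])
  map_one' := by
    ext1 f
    simp [th_one]
  map_mul' g h := by
    ext1 f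
    simp [th_mul]

theorem thE_apply (g : A.G) (f : MvPolynomial σ ℂ) : thE A g f = th A g f := rfl

theorem th_C (g : A.G) (c : ℂ) : th A g (C c) = C c := by
  have := (th A g).commutes c
  rwa [algebraMap_eq] at this

theorem th_Q (g : A.G) : C ((g : GL σ ℂ) : Matrix σ σ ℂ).det * th A g A.Q = A.Q := by
  rw [th, Mi, A.sub_Q _ (g⁻¹).2, ← mul_assoc, ← C_mul, ← Matrix.det_mul]
  have : (((g : GL σ ℂ)) : Matrix σ σ ℂ) * (((g⁻¹ : A.G) : GL σ ℂ) : Matrix σ σ ℂ) = 1 := by
    rw [← Units.val_mul]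
    simp
  rw [this]
  simp

section

variable {lam : ℂ} {D : ℕ} {Fb : σ → MvPolynomial σ ℂ}

theorem exists_rho (hF : A.IsBas D Fb) (g : A.G) :
    ∃ r : Matrix σ σ ℂ, ∀ k, th A g (Fb k) = ∑ m, C (r m k) * Fb m := by
  have h : ∀ k, ∃ r : σ → ℂ, ∑ m, r m • Fb m = th A g (Fb k) := by
    intro k
    have h1 : th A g (Fb k) ∈ Submodule.span ℂ (Set.range Fb) := by
      apply hF.span
      · exact sub_isHomogeneous _ (hF.hom k)
      · exact A.sub_mem_J _ (g⁻¹).2 (hF.mem k)
    exact (Submodule.mem_span_range_iff_exists_fun ℂ).1 h1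
  choose r hr using h
  refine ⟨fun m k => r k m, fun k => ?_⟩
  rw [← hr k]
  simp [smul_eq_C_mul]

noncomputable def rho (hF : A.IsBas D Fb) (g : A.G) : Matrix σ σ ℂ := (exists_rho A hF g).choose

theorem rho_spec (hF : A.IsBas D Fb) (g : A.G) (k : σ) :
    th A g (Fb k) = ∑ m, C (rho A hF g m k) * Fb m := (exists_rho A hF g).choose_spec k

theorem indep' (hF : A.IsBas D Fb) {a b : σ → ℂ}
    (h : ∑ m, C (a m) * Fb m = ∑ m, C (b m) * Fb m) : a = b := by
  have h1 : ∑ m, (a m - b m) • Fb m = 0 := by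
    simp only [smul_eq_C_mul, C_sub, _root_.sub_mul, Finset.sum_sub_distrib]
    rw [h, sub_self]
  have h2 := Fintype.linearIndependent_iff.1 hF.indep _ h1
  funext m
  exact sub_eq_zero.1 (h2 m)

theorem rho_one (hF : A.IsBas D Fb) : rho A hF 1 = 1 := by
  ext m k
  have h := rho_spec A hF 1 k
  rw [th_one] at h
  have h2 : ∑ m, C ((1 : Matrix σ σ ℂ) m k) * Fb m = Fb k := by
    simp [Matrix.one_apply, Finset.sum_ite_eq']
  have := indep' A hF (h.symm.trans h2.symm)
  exact congrFun this m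

theorem rho_mul (hF : A.IsBas D Fb) (g h : A.G) :
    rho A hF (g * h) = rho A hF g * rho A hF h := by
  ext m k
  have h0 := rho_spec A hF (g * h) k
  rw [th_mul, rho_spec A hF h k, map_sum] at h0
  have h1 : ∑ x, th A g (C (rho A hF h x k) * Fb x)
      = ∑ j, C ((rho A hF g * rho A hF h) j k) * Fb j := by
    simp only [map_mul, th_C, rho_spec A hF g, Matrix.mul_apply, map_sum, Finset.mul_sum,
      Finset.sum_mul]
    rw [Finset.sum_comm]
    refine Finset.sum_congr rfl fun j _ => Finset.sum_congr rfl fun x _ => ?_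
    ring
  have := indep' A hF (h0.symm.trans h1)
  exact congrFun this m

/-- the semilinear action on vectors. -/
noncomputable def Th0 (hF : A.IsBas D Fb) (g : A.G) (η : σ → MvPolynomial σ ℂ) :
    σ → MvPolynomial σ ℂ :=
  fun m => C ((g : GL σ ℂ) : Matrix σ σ ℂ).det * ∑ k, C (rho A hF g m k) * th A g (η k)

noncomputable def Th (hF : A.IsBas D Fb) :
    A.G →* Module.End ℂ (σ → MvPolynomial σ ℂ) where
  toFun g :=
    { toFun := Th0 A hF g
      map_add' := by
        intro x y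
        funext m
        simp only [Th0, Pi.add_apply, map_add, mul_add, Finset.sum_add_distrib]
      map_smul' := by
        intro c x
        funext m
        simp only [Th0, Pi.smul_apply, smul_eq_C_mul, map_mul, th_C, RingHom.id_apply,
          Finset.mul_sum]
        refine Finset.sum_congr rfl fun k _ => ?_
        ring }
  map_one' := by
    refine LinearMap.ext fun η => ?_
    funext m
    simp [Th0, rho_one, th_one, Matrix.one_apply]
  map_mul' g h := by
    refine LinearMap.ext fun η => ?_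
    funext m
    simp only [LinearMap.coe_mk, AddHom.coe_mk, Module.End.mul_apply, Th0, rho_mul,
      Matrix.mul_apply, map_sum, map_mul, th_C, th_mul, Subgroup.coe_mul, Units.val_mul,
      Matrix.det_mul, Finset.mul_sum, Finset.sum_mul]
    rw [Finset.sum_comm]
    refine Finset.sum_congr rfl fun j _ => Finset.sum_congr rfl fun x _ => ?_
    ring

theorem Th_apply (hF : A.IsBas D Fb) (g : A.G) (η : σ → MvPolynomial σ ℂ) :
    Th A hF g η = Th0 A hF g η := rfl

theorem pair_Th (hF : A.IsBas D Fb) (g : A.G) (η : σ → MvPolynomial σ ℂ) :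
    ∑ m, Th A hF g η m * Fb m
      = C ((g : GL σ ℂ) : Matrix σ σ ℂ).det * th A g (∑ k, η k * Fb k) := by
  simp only [Th_apply, Th0, map_sum, map_mul, rho_spec A hF g, Finset.mul_sum, Finset.sum_mul]
  rw [Finset.sum_comm]
  refine Finset.sum_congr rfl fun j _ => Finset.sum_congr rfl fun x _ => ?_
  ring

noncomputable def sG (i : A.ι) : A.G := ⟨A.g i, A.g_mem i⟩⁻¹

theorem th_sG (i : A.ι) (f : MvPolynomial σ ℂ) :
    th A (sG A i) f = sub (A.g i : Matrix σ σ ℂ) f := by
  simp [th, Mi, sG]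

theorem det_sG (i : A.ι) :
    ((sG A i : A.G) : GL σ ℂ).val.det = (A.z i)⁻¹ := by
  have h : ((A.g i : Matrix σ σ ℂ) * (((A.g i)⁻¹ : GL σ ℂ) : Matrix σ σ ℂ)).det = 1 := by
    rw [← Units.val_mul]; simp
  rw [Matrix.det_mul, A.det_g i] at h
  simp only [sG, Subgroup.coe_inv]
  exact eq_inv_of_mul_eq_one_right h

theorem closure_sG : Subgroup.closure (Set.range (sG A)) = ⊤ := by
  rw [eq_top_iff]
  rintro ⟨x, hx⟩ -
  have h : ∀ x (hx : x ∈ Subgroup.closure (Set.range A.g)),
      (⟨x, hx⟩ : A.G) ∈ Subgroup.closure (Set.range (sG A)) := by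
    intro x hx
    induction hx using Subgroup.closure_induction with
    | mem x hx =>
      obtain ⟨i, rfl⟩ := hx
      have h1 : sG A i ∈ Subgroup.closure (Set.range (sG A)) :=
        Subgroup.subset_closure ⟨i, rfl⟩
      have h2 := Subgroup.inv_mem _ h1
      simpa [sG] using h2
    | one => exact Subgroup.one_mem _
    | mul x y hx hy h1 h2 => exact Subgroup.mul_mem _ h1 h2
    | inv x hx h1 => exact Subgroup.inv_mem _ h1
  exact h x hx

theorem l_ne (i : A.ι) : A.l i ≠ 0 := by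
  intro h
  have := A.la i
  rw [h] at this
  simp at this

theorem lf_ne (i : A.ι) : lf (A.l i) ≠ 0 := by
  intro h
  exact l_ne A i ((lf_eq_zero_iff _).1 h)

theorem Q_dvd {f : MvPolynomial σ ℂ} (h : ∀ j, lf (A.l j) ∣ f) : A.Q ∣ f := by
  apply prod_lf_dvd Finset.univ A.l (fun j _ => l_ne A j) _ f (fun j _ => h j)
  intro i _ j _ hij c hc
  have h1 := A.li i j hij
  rw [LinearIndependent.pair_iff] at h1
  have h2 := h1 c (-1) (by rw [hc]; simp)
  simp at h2

theorem lf_dvd_Q (i : A.ι) : lf (A.l i) ∣ A.Q := Finset.dvd_prod_of_mem _ (Finset.mem_univ i)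

theorem Q_ne : A.Q ≠ 0 := prod_lf_ne_zero _ _ (fun j _ => l_ne A j)

theorem z_ne_zero (i : A.ι) : A.z i ≠ 0 := by
  rw [← A.det_g i]
  have : IsUnit ((A.g i : Matrix σ σ ℂ)).det := by
    rw [← Matrix.isUnit_iff_isUnit_det]
    exact (A.g i).isUnit
  exact this.ne_zero

theorem delta (hS : A.Scal lam D) (hF : A.IsBas D Fb) (i : A.ι)
    (η : σ → MvPolynomial σ ℂ) (hη : η ∈ A.DpS Fb) :
    ∃ η' ∈ A.DpS Fb, Th A hF (sG A i) η - η = lf (A.l i) • η' := by
  obtain ⟨c, f, hc, -, hcf⟩ := A.refl_rank_one hS hF i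
  obtain ⟨u, hu⟩ := (mem_DpS A).1 hη
  have hp : Prime (lf (A.l i)) := prime_lf (l_ne A i)
  -- the divisibility of `∑ c k η k`
  have hw : lf (A.l i) ∣ ∑ k, C (c k) * η k := by
    have h1 : lf (A.l i) ∣ (∑ k, C (c k) * η k) * A.pi i := by
      have h2 : (∑ k, C (c k) * η k) * A.pi i
          = (∑ k, η k * Fb k) - ∑ k, η k * (Fb k - C (c k) * A.pi i) := by
        rw [← Finset.sum_sub_distrib, Finset.sum_mul]
        refine Finset.sum_congr rfl fun k _ => ?_
        ring
      rw [h2]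
      refine dvd_sub ?_ (Finset.dvd_sum fun k _ => Dvd.dvd.mul_left (hc k) _)
      rw [hu]
      exact (lf_dvd_Q A i).mul_right _
    exact (hp.dvd_or_dvd h1).resolve_right (A.not_lf_dvd_pi hS i)
  -- the matrix
  have hrho : ∀ m k, (A.z i)⁻¹ * rho A hF (sG A i) m k
      = (1 : Matrix σ σ ℂ) m k + c k * f m := by
    intro m k
    have h1 := hcf k
    rw [← th_sG, rho_spec A hF (sG A i) k] at h1
    have h2 : ∑ m, C ((A.z i)⁻¹ * rho A hF (sG A i) m k) * Fb m
        = ∑ m, C ((1 : Matrix σ σ ℂ) m k + c k * f m) * Fb m := by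
      have h3 : ∑ m, C ((1 : Matrix σ σ ℂ) m k) * Fb m = Fb k := by
        simp [Matrix.one_apply, Finset.sum_ite_eq']
      simp only [C_add, C_mul, add_mul, Finset.sum_add_distrib, h3]
      rw [Finset.mul_sum, Finset.mul_sum, sub_eq_iff_eq_add] at h1
      simp only [mul_assoc]
      rw [h1]
      ring
    exact congrFun (indep' A hF h2) m
  have hTh : ∀ m, Th A hF (sG A i) η m
      = th A (sG A i) (η m) + C (f m) * ∑ k, C (c k) * th A (sG A i) (η k) := by
    intro m
    rw [Th_apply, Th0, det_sG, Finset.mul_sum]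
    have h1 : ∀ k, C (A.z i)⁻¹ * (C (rho A hF (sG A i) m k) * th A (sG A i) (η k))
        = C ((1 : Matrix σ σ ℂ) m k) * th A (sG A i) (η k)
          + C (f m) * (C (c k) * th A (sG A i) (η k)) := by
      intro k
      rw [← mul_assoc, ← C_mul, hrho m k, C_add, C_mul]
      ring
    rw [Finset.sum_congr rfl fun k _ => h1 k, Finset.sum_add_distrib, ← Finset.mul_sum]
    congr 1
    simp [Matrix.one_apply]
  have hd : ∀ k, lf (A.l i) ∣ th A (sG A i) (η k) - η k := by
    intro k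
    rw [th_sG]
    exact A.dvd_sub_sub i (η k)
  have hdiv : ∀ m, lf (A.l i) ∣ Th A hF (sG A i) η m - η m := by
    intro m
    rw [hTh m]
    have h1 : th A (sG A i) (η m) + C (f m) * ∑ k, C (c k) * th A (sG A i) (η k) - η m
        = (th A (sG A i) (η m) - η m)
          + C (f m) * (∑ k, C (c k) * (th A (sG A i) (η k) - η k) + ∑ k, C (c k) * η k) := by
      rw [← Finset.sum_add_distrib]
      have : ∀ k, C (c k) * (th A (sG A i) (η k) - η k) + C (c k) * η k
          = C (c k) * th A (sG A i) (η k) := fun k => by ring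
      rw [Finset.sum_congr rfl fun k _ => this k]
      ring
    rw [h1]
    exact dvd_add (hd m) (Dvd.dvd.mul_left (dvd_add
      (Finset.dvd_sum fun k _ => Dvd.dvd.mul_left (hd k) _) hw) _)
  choose η' hη' using hdiv
  refine ⟨η', ?_, ?_⟩
  · obtain ⟨u', hu'⟩ := A.dvd_sub_sub i u
    refine (mem_DpS A).2 ⟨u', ?_⟩
    apply mul_left_cancel₀ (lf_ne A i)
    calc lf (A.l i) * ∑ k, η' k * Fb k
        = ∑ k, Th A hF (sG A i) η k * Fb k - ∑ k, η k * Fb k := by
          rw [Finset.mul_sum, ← Finset.sum_sub_distrib]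
          refine Finset.sum_congr rfl fun k _ => ?_
          rw [← mul_assoc, ← hη' k]
          ring
      _ = A.Q * th A (sG A i) u - A.Q * u := by
          rw [pair_Th, hu, map_mul, ← mul_assoc]
          rw [show C (((sG A i : A.G) : GL σ ℂ) : Matrix σ σ ℂ).det * th A (sG A i) A.Q = A.Q
            from th_Q A (sG A i)]
      _ = lf (A.l i) * (A.Q * u') := by
          rw [th_sG, ← mul_sub, hu']
          ring
  · funext m
    rw [Pi.sub_apply, Pi.smul_apply, smul_eq_mul]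
    exact hη' m

theorem inv_mem (hF : A.IsBas D Fb) (η : σ → MvPolynomial σ ℂ)
    (h : ∀ g, Th A hF g η = η) : η ∈ A.DpS Fb := by
  refine (mem_DpS A).2 (Q_dvd A fun i => ?_)
  have h1 := pair_Th A hF (sG A i) η
  rw [h (sG A i), det_sG, th_sG] at h1
  refine A.dvd_of_semi i (c := A.z i) (A.hz i) ?_
  conv_rhs => rw [h1]
  rw [← mul_assoc, ← C_mul, mul_inv_cancel₀ (z_ne_zero A i), C_1, one_mul]

noncomputable def chev (hS : A.Scal lam D) (hF : A.IsBas D Fb) : Chev σ σ A.G A.ι where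
  θ := thE A
  Θ := Th A hF
  hθ g f d hf := sub_isHomogeneous _ hf
  hsemi g f η := by
    funext m
    simp only [Th_apply, Th0, Pi.smul_apply, smul_eq_mul, map_mul, thE_apply, Finset.mul_sum]
    refine Finset.sum_congr rfl fun k _ => ?_
    ring
  hΘ g η d hη k := by
    rw [Th_apply, Th0]
    have h1 : (∑ j, C (rho A hF g k j) * th A g (η j)).IsHomogeneous d := by
      refine IsHomogeneous.sum _ _ _ fun j _ => ?_
      have h2 := (isHomogeneous_C σ (rho A hF g k j)).mul
        (sub_isHomogeneous (Mi A g) (hη j))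
      rw [zero_add] at h2
      exact h2
    have h3 := (isHomogeneous_C σ ((g : GL σ ℂ) : Matrix σ σ ℂ).det).mul h1
    rw [zero_add] at h3
    exact h3
  s := sG A
  hs := closure_sG A
  ℓ i := lf (A.l i)
  hℓ i := ⟨isHomogeneous_lf _, lf_ne A i⟩
  hΔ i f := by
    rw [thE_apply, th_sG]
    exact A.dvd_sub_sub i f
  Dp := A.DpS Fb
  hgr η hη e := by
    obtain ⟨u, hu⟩ := (mem_DpS A).1 hη
    refine (mem_DpS A).2 ?_
    have h1 : ∑ k, homogeneousComponent e (η k) * Fb k
        = homogeneousComponent (e + D) (∑ k, η k * Fb k) := by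
      rw [map_sum]
      exact Finset.sum_congr rfl fun k _ => (hc_mul_right (hF.hom k) e).symm
    rw [h1, hu]
    exact hc_mul (isHomogeneous_prod_lf Finset.univ A.l) _
  hΔD i η hη := delta A hS hF i η hη
  hinv η h := inv_mem A hF η h
  q := A.Q
  hq0 := Q_ne A
  hq η := by
    refine (mem_DpS A).2 ?_
    refine Finset.dvd_sum fun k _ => ?_
    simp only [Pi.smul_apply, smul_eq_mul, mul_assoc]
    exact dvd_mul_right _ _

end

end DpGAux

namespace Datum

theorem DpS_free {lam : ℂ} {D : ℕ} (hS : A.Scal lam D) {Fb : σ → MvPolynomial σ ℂ}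
    (hF : A.IsBas D Fb) :
    ∃ (ηb : σ → σ → MvPolynomial σ ℂ) (d : σ → ℕ),
      (∀ i k, (ηb i k).IsHomogeneous (d i)) ∧ LinearIndependent (MvPolynomial σ ℂ) ηb ∧
      Submodule.span (MvPolynomial σ ℂ) (Set.range ηb) = A.DpS Fb := by
  have : Finite A.G := A.finite_G
  exact (DpGAux.chev A hS hF).exists_basis

end Datum

end Pool.Agent.Lib.P4a9818
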