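import Pool.Agent.Lib.P4a9818.GBasic

/-!
# P4a9818.Elim : elimination of variables over a local ring

Induction on `j` for all `κ`, `Φ`; one step removes one row and one variable.
-/

namespace Pool.Agent.Lib.P4a9818

open MvPolynomial

namespace ElimAux

variable {A κ : Type} [CommRing A] [Fintype κ] [DecidableEq κ]

/-- the row `w` after the elimination of the variable `k0` by means of the row `r`. -/
private noncomputable def red (r : κ → A) (v : A) (k0 : κ) (w : κ → A) : {k // k ≠ k0} → A :=
  fun l => w l - w k0 * v * r l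

/-- the substitution. -/
private noncomputable def th (r : κ → A) (v : A) (k0 : κ) :
    MvPolynomial κ A →ₐ[A] MvPolynomial {k // k ≠ k0} A :=
  aeval (fun k => if h : k = k0 then - ∑ l : {k // k ≠ k0}, C (v * r l) * X l else X ⟨k, h⟩)

private noncomputable def io (A : Type) [CommRing A] (k0 : κ) :
    MvPolynomial {k // k ≠ k0} A →ₐ[A] MvPolynomial κ A :=
  rename Subtype.val

private lemma th_X0 (r : κ → A) (v : A) (k0 : κ) :
    th r v k0 (X k0) = - ∑ l : {k // k ≠ k0}, C (v * r l) * X l := by
  simp [th]

private lemma th_X (r : κ → A) (v : A) (k0 : κ) (l : {k // k ≠ k0}) :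
    th r v k0 (X l.1) = X l := by
  simp [th, l.2]

private lemma sum_split (k0 : κ) {M : Type} [AddCommMonoid M] (f : κ → M) :
    ∑ k, f k = f k0 + ∑ l : {k // k ≠ k0}, f l := by
  rw [← Finset.add_sum_erase Finset.univ f (Finset.mem_univ k0)]
  congr 1
  rw [← Finset.sum_subtype (Finset.univ.erase k0) (p := fun k => k ≠ k0) (by simp) f]

private lemma th_hat (r : κ → A) (v : A) (k0 : κ) (w : κ → A) :
    th r v k0 (hat w) = hat (red r v k0 w) := by
  unfold hat
  rw [map_sum, sum_split k0]
  have h0 : th r v k0 (C (w k0) * X k0)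
      = ∑ l : {k // k ≠ k0}, (- (C (w k0 * v * r l) * X l)) := by
    rw [map_mul, th_X0, show th r v k0 (C (w k0)) = C (w k0) from
      (th r v k0).commutes (w k0), mul_neg,
      Finset.mul_sum, ← Finset.sum_neg_distrib]
    refine Finset.sum_congr rfl fun l _ => ?_
    rw [← mul_assoc, ← C_mul, mul_assoc]
  rw [h0, ← Finset.sum_add_distrib]
  refine Finset.sum_congr rfl fun l _ => ?_
  rw [map_mul (th r v k0), th_X, show th r v k0 (C (w l)) = C (w l) from
    (th r v k0).commutes (w l)]
  unfold red
  simp only [C_sub, C_mul]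
  ring

private lemma io_hat (r : κ → A) (v : A) (k0 : κ) (hv : v * r k0 = 1) (w : κ → A) :
    io A k0 (hat (red r v k0 w)) = hat w - C (w k0 * v) * hat r := by
  have h1 : io A k0 (hat (red r v k0 w))
      = ∑ l : {k // k ≠ k0}, C (w l - w k0 * v * r l) * X l.1 := by
    unfold hat io
    rw [map_sum]
    refine Finset.sum_congr rfl fun l _ => ?_
    rw [map_mul, rename_X, rename_C]
    rfl
  have h2 : hat w - C (w k0 * v) * hat r = ∑ k, C (w k - w k0 * v * r k) * X k := by
    unfold hat
    rw [Finset.mul_sum, ← Finset.sum_sub_distrib]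
    refine Finset.sum_congr rfl fun l _ => ?_
    simp only [C_sub, C_mul]
    ring
  rw [h1, h2, sum_split k0]
  have h3 : w k0 - w k0 * v * r k0 = 0 := by rw [mul_assoc, hv, mul_one, sub_self]
  rw [h3, C_0, zero_mul, zero_add]

private lemma sub_mem' (r : κ → A) (v : A) (k0 : κ) (hv : v * r k0 = 1) (b : MvPolynomial κ A) :
    b - io A k0 (th r v k0 b) ∈ Ideal.span {hat r} := by
  rw [← Ideal.Quotient.eq]
  have key : Ideal.Quotient.mkₐ A (Ideal.span {hat r})
      = (Ideal.Quotient.mkₐ A (Ideal.span {hat r})).comp ((io A k0).comp (th r v k0)) := by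
    refine MvPolynomial.algHom_ext fun k => ?_
    simp only [AlgHom.comp_apply, Ideal.Quotient.mkₐ_eq_mk]
    rw [Ideal.Quotient.eq]
    by_cases h : k = k0
    · subst h
      rw [th_X0, map_neg, map_sum, sub_neg_eq_add]
      have h1 : (X k : MvPolynomial κ A) + ∑ l : {l // l ≠ k}, io A k (C (v * r l) * X l)
          = C v * hat r := by
        unfold hat
        rw [Finset.mul_sum, sum_split k]
        congr 1
        · rw [← mul_assoc, ← C_mul, hv, C_1, one_mul]
        · refine Finset.sum_congr rfl fun l _ => ?_
          unfold io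
          rw [map_mul, rename_X, rename_C, C_mul, mul_assoc]
      rw [h1]
      exact Ideal.mul_mem_left _ _ (Ideal.subset_span rfl)
    · have := th_X r v k0 ⟨k, h⟩
      simp only at this
      rw [this]
      simp [io]
  exact DFunLike.congr_fun key b

/-- one step of the elimination. -/
private lemma step_mem {j : ℕ} (Φ : Fin (j + 1) → κ → A) (i0 : Fin (j + 1)) (k0 : κ) (v : A)
    (hv : v * Φ i0 k0 = 1) (b : MvPolynomial κ A) :
    b ∈ Ideal.span (Set.range fun i => hat (Φ i)) ↔
      th (Φ i0) v k0 b ∈
        Ideal.span (Set.range fun i : Fin j => hat (red (Φ i0) v k0 (Φ (i0.succAbove i)))) := by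
  constructor
  · intro hb
    have hle : Ideal.span (Set.range fun i => hat (Φ i)) ≤
        (Ideal.span (Set.range fun i : Fin j =>
          hat (red (Φ i0) v k0 (Φ (i0.succAbove i))))).comap (th (Φ i0) v k0) := by
      rw [Ideal.span_le]
      rintro _ ⟨i, rfl⟩
      simp only [SetLike.mem_coe, Ideal.mem_comap]
      rw [th_hat]
      rcases eq_or_ne i i0 with h | h
      · subst h
        have : hat (red (Φ i) v k0 (Φ i)) = 0 := by
          unfold hat red
          refine Finset.sum_eq_zero fun l _ => ?_
          rw [mul_comm (Φ i k0) v, hv, one_mul, sub_self, C_0, zero_mul]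
        rw [this]
        exact zero_mem _
      · obtain ⟨i', rfl⟩ := Fin.exists_succAbove_eq h
        exact Ideal.subset_span ⟨i', rfl⟩
    exact hle hb
  · intro hb
    have hr : hat (Φ i0) ∈ Ideal.span (Set.range fun i => hat (Φ i)) :=
      Ideal.subset_span ⟨i0, rfl⟩
    have hle : Ideal.span (Set.range fun i : Fin j =>
          hat (red (Φ i0) v k0 (Φ (i0.succAbove i)))) ≤
        (Ideal.span (Set.range fun i => hat (Φ i))).comap (io A k0) := by
      rw [Ideal.span_le]
      rintro _ ⟨i, rfl⟩
      simp only [SetLike.mem_coe, Ideal.mem_comap]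
      rw [io_hat _ _ _ hv]
      exact sub_mem (Ideal.subset_span ⟨_, rfl⟩) (Ideal.mul_mem_left _ _ hr)
    have h1 := hle hb
    have h2 := sub_mem' (Φ i0) v k0 hv b
    have h3 : Ideal.span {hat (Φ i0)} ≤ Ideal.span (Set.range fun i => hat (Φ i)) := by
      rw [Ideal.span_le]
      rintro _ rfl
      exact hr
    have h4 := add_mem (h3 h2) h1
    rwa [sub_add_cancel] at h4

omit [Fintype κ] [DecidableEq κ] in
/-- The extension of a vector. -/
private lemma sum_ext {B : Type} [CommRing B] {j : ℕ} (Φ : Fin (j + 1) → κ → B)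
    (i0 : Fin (j + 1)) (k0 : κ) (v : B) (a : Fin j → B) (k : κ) :
    ∑ i, (i0.insertNth (-(v * ∑ i', a i' * Φ (i0.succAbove i') k0)) a : Fin (j + 1) → B) i * Φ i k
      = ∑ i', a i' * (Φ (i0.succAbove i') k - Φ (i0.succAbove i') k0 * v * Φ i0 k) := by
  rw [Fin.sum_univ_succAbove _ i0]
  simp only [Fin.insertNth_apply_same, Fin.insertNth_apply_succAbove]
  rw [Finset.mul_sum, neg_mul, Finset.sum_mul, ← Finset.sum_neg_distrib,
    ← Finset.sum_add_distrib]
  refine Finset.sum_congr rfl fun i' _ => ?_
  ring

end ElimAux

open ElimAux in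
theorem elim {A κ : Type} [CommRing A] [IsDomain A] [IsLocalRing A] [Fintype κ] [DecidableEq κ]
    {j : ℕ} (Φ : Fin j → κ → A) (c : ℕ)
    (hc : ∀ y : Fin c → Fin j → IsLocalRing.ResidueField A,
      (∀ t k, ∑ i, y t i * IsLocalRing.residue A (Φ i k) = 0) →
        ¬ LinearIndependent (IsLocalRing.ResidueField A) y) :
    ∃ (κ' : Type) (_ : Fintype κ') (j' : ℕ) (ψ : Fin j' → κ' → A)
      (θ : MvPolynomial κ A →ₐ[A] MvPolynomial κ' A), j' < c ∧
      (∀ b, b ∈ Ideal.span (Set.range fun i => hat (Φ i)) ↔
        θ b ∈ Ideal.span (Set.range fun i => hat (ψ i))) ∧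
      ∀ 𝔮 : Ideal A, 𝔮.IsPrime → Ind Φ 𝔮 → Ind ψ 𝔮 := by
  classical
  induction j generalizing κ with
  | zero =>
    refine ⟨κ, inferInstance, 0, Φ, AlgHom.id A _, ?_, fun b => Iff.rfl, fun 𝔮 _ h => h⟩
    rcases Nat.eq_zero_or_pos c with h | h
    · subst h
      exact absurd (linearIndependent_empty_type) (hc (fun t => t.elim0) (fun t => t.elim0))
    · exact h
  | succ j ih =>
    by_cases hall : ∀ i k, IsLocalRing.residue A (Φ i k) = 0
    · -- all entries in the maximal ideal
      refine ⟨κ, inferInstance, j + 1, Φ, AlgHom.id A _, ?_, fun b => Iff.rfl, fun 𝔮 _ h => h⟩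
      by_contra hlt
      rw [not_lt] at hlt
      refine hc (fun t => Pi.single (Fin.castLE hlt t) 1) ?_ ?_
      · intro t k
        exact Finset.sum_eq_zero fun i _ => by rw [hall i k, mul_zero]
      · have h1 := (Pi.basisFun (IsLocalRing.ResidueField A) (Fin (j + 1))).linearIndependent.comp
          (Fin.castLE hlt) (Fin.castLE_injective hlt)
        have h2 : ((Pi.basisFun (IsLocalRing.ResidueField A) (Fin (j + 1))) ∘ (Fin.castLE hlt))
            = fun t => Pi.single (Fin.castLE hlt t) 1 := by
          funext t
          simp [Pi.basisFun_apply]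
        rwa [h2] at h1
    · push Not at hall
      obtain ⟨i0, k0, hu⟩ := hall
      have hunit : IsUnit (Φ i0 k0) := by
        by_contra hn
        exact hu ((IsLocalRing.residue_eq_zero_iff _).2 ((IsLocalRing.mem_maximalIdeal _).2 hn))
      obtain ⟨v, hv⟩ := hunit.exists_left_inv
      obtain ⟨κ', hκ', j', ψ, θ, hj', hmem, hind⟩ := ih (κ := {k // k ≠ k0})
        (fun i : Fin j => red (Φ i0) v k0 (Φ (i0.succAbove i))) (by
          intro y hy hli
          refine hc (fun t => i0.insertNth (-(IsLocalRing.residue A v *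
            ∑ i', y t i' * IsLocalRing.residue A (Φ (i0.succAbove i') k0))) (y t)) ?_ ?_
          · intro t k
            have h1 := sum_ext (fun i k => IsLocalRing.residue A (Φ i k)) i0 k0
              (IsLocalRing.residue A v) (y t) k
            rw [h1]
            by_cases hk : k = k0
            · subst hk
              refine Finset.sum_eq_zero fun i' _ => ?_
              rw [mul_assoc, ← map_mul, hv, map_one, mul_one, sub_self, mul_zero]
            · have h2 := hy t ⟨k, hk⟩
              simp only [red, map_sub, map_mul] at h2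
              exact h2
          · refine LinearIndependent.of_comp (LinearMap.funLeft (IsLocalRing.ResidueField A)
              (IsLocalRing.ResidueField A) i0.succAbove) ?_
            have h3 : (LinearMap.funLeft (IsLocalRing.ResidueField A)
              (IsLocalRing.ResidueField A) i0.succAbove) ∘ (fun t => (i0.insertNth
                (-(IsLocalRing.residue A v *
            ∑ i', y t i' * IsLocalRing.residue A (Φ (i0.succAbove i') k0))) (y t) :
              Fin (j + 1) → IsLocalRing.ResidueField A)) = y := by
              funext t i'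
              simp [LinearMap.funLeft_apply]
            rw [h3]
            exact hli)
      refine ⟨κ', hκ', j', ψ, θ.comp (th (Φ i0) v k0), hj', ?_, ?_⟩
      · intro b
        rw [step_mem Φ i0 k0 v hv b, hmem]
        rfl
      · intro 𝔮 h𝔮 hΦ
        refine hind 𝔮 h𝔮 ?_
        intro a ha i
        have h1 := hΦ (i0.insertNth (-(v * ∑ i', a i' * Φ (i0.succAbove i') k0)) a) (by
          intro k
          rw [sum_ext]
          by_cases hk : k = k0
          · subst hk
            have : ∀ i', a i' * (Φ (i0.succAbove i') k - Φ (i0.succAbove i') k * v * Φ i0 k)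
                = 0 := by
              intro i'
              rw [mul_assoc (Φ (i0.succAbove i') k), hv, mul_one, sub_self, mul_zero]
            rw [Finset.sum_eq_zero fun i' _ => this i']
            exact zero_mem _
          · exact ha ⟨k, hk⟩) (i0.succAbove i)
        rwa [Fin.insertNth_apply_succAbove] at h1

end Pool.Agent.Lib.P4a9818
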