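import Pool.Agent.Lib.P4a9818.Defs

/-!
# P4a9818.FGDefs : reflections, mirrors and the ideals of the statement
-/

namespace Pool.Agent.Lib.P4a9818

open MvPolynomial Matrix

/-- The set of fixed vectors of `g`. -/
def fixSp {n : ℕ} (g : GL (Fin n) ℂ) : Submodule ℂ (Fin n → ℂ) where
  carrier := {v | (g : Matrix (Fin n) (Fin n) ℂ) *ᵥ v = v}
  add_mem' := by
    intro a b ha hb
    show _ *ᵥ (a + b) = a + b
    rw [mulVec_add, ha, hb]
  zero_mem' := by simp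
  smul_mem' := by
    intro c a ha
    show _ *ᵥ (c • a) = c • a
    rw [mulVec_smul, ha]

/-- `g` is not the identity and fixes a hyperplane pointwise. -/
def IsRefl {n : ℕ} (g : GL (Fin n) ℂ) : Prop :=
  g ≠ 1 ∧ Module.finrank ℂ (fixSp g) + 1 = n

/-- The hyperplanes fixed pointwise by some reflection in `G`. -/
def mirrors {n : ℕ} (G : Subgroup (GL (Fin n) ℂ)) : Set (Submodule ℂ (Fin n → ℂ)) :=
  {H | ∃ g ∈ G, IsRefl g ∧ fixSp g = H}

/-- The pointwise stabiliser of `H`. -/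
def stabH {n : ℕ} (G : Subgroup (GL (Fin n) ℂ)) (H : Submodule ℂ (Fin n → ℂ)) :
    Set (GL (Fin n) ℂ) :=
  {g | g ∈ G ∧ H ≤ fixSp g}

/-- `1 -` the average over the pointwise stabiliser of `H`. -/
noncomputable def PH {n : ℕ} (G : Subgroup (GL (Fin n) ℂ)) (H : Submodule ℂ (Fin n → ℂ)) :
    Matrix (Fin n) (Fin n) ℂ :=
  1 - ((stabH G H).ncard : ℂ)⁻¹ • ∑ᶠ g ∈ stabH G H, (g : Matrix (Fin n) (Fin n) ℂ)

end Pool.Agent.Lib.P4a9818
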