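import Pool.Agent.Lib.P4a9818.FGDefs

/-!
# P4a9818.FGa : the projection attached to a mirror   (estimate 3 h)

`G` finite, `H` a mirror, `S = stabH G H` (a finite subgroup: closed under products and inverses,
contains `1` and a reflection with fixed space `H`), `e = (1/|S|) ∑_{g∈S} g`, `PH G H = 1 - e`.
(For the computations it may be convenient to rewrite the `finsum` as a sum over a `Finset` or over a
subgroup; `ncard` is its cardinality.)
* `g e = e g = e` for `g ∈ S` (reindexing), so `e² = e`, and `e v = v` iff `v` is fixed by all of `S`, iff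
  `v ∈ H` (⊇ clear; the fixed space of all of `S` contains `H` and is contained in the fixed space `H`
  of the reflection). So `PH` is a projection (`P² = P`) with kernel `H`; its rank is
  `n - dim H = 1`.
* `exists_al`: a projection of rank one is `a ⊗ l` with `l ⬝ a = 1`: choose `a ≠ 0` in the image; `P v` is a
  multiple `l(v) a`; `P a = a`. `v ∈ H ↔ P v = 0 ↔ l ⬝ v = 0`. (`dim H + 1 = n` for a mirror.)
* `stab_form`: for `g ∈ S`: `g P = g - e = P g`, so `g a = g P a = P g a` is a multiple `z a` of `a`, hence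
  `g P = z P` (`P v = l(v) a`), and `g = g e + g P = e + z P = 1 + (z - 1) P`.
* `conj`: for `g ∈ G`: `h ↦ g h g⁻¹` is a bijection `stabH G H → stabH G (g H)`, so
  `g PH(H) g⁻¹ = PH(g H)`.
* `mirror_map`: `g H` is a mirror: if `h` is a reflection with fixed space `H` then `g h g⁻¹` is one with
  fixed space `g H`.
-/

namespace Pool.Agent.Lib.P4a9818

open Matrix


namespace FGaAux

variable {n : ℕ} (G : Subgroup (GL (Fin n) ℂ))

theorem fin_stab [Finite G] (H : Submodule ℂ (Fin n → ℂ)) : (stabH G H).Finite := by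
  have h : ((G : Set (GL (Fin n) ℂ))).Finite := Set.toFinite _
  exact h.subset (fun g hg => hg.1)

theorem one_mem_stab (H : Submodule ℂ (Fin n → ℂ)) : (1 : GL (Fin n) ℂ) ∈ stabH G H := by
  refine ⟨G.one_mem, ?_⟩
  intro v _
  show ((1 : GL (Fin n) ℂ) : Matrix (Fin n) (Fin n) ℂ) *ᵥ v = v
  simp

theorem mul_mem_stab {H : Submodule ℂ (Fin n → ℂ)} {g h : GL (Fin n) ℂ} (hg : g ∈ stabH G H)
    (hh : h ∈ stabH G H) : g * h ∈ stabH G H := by
  refine ⟨G.mul_mem hg.1 hh.1, ?_⟩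
  intro v hv
  have h1 : (h : Matrix (Fin n) (Fin n) ℂ) *ᵥ v = v := hh.2 hv
  have h2 : (g : Matrix (Fin n) (Fin n) ℂ) *ᵥ v = v := hg.2 hv
  show ((g * h : GL (Fin n) ℂ) : Matrix (Fin n) (Fin n) ℂ) *ᵥ v = v
  rw [Units.val_mul, ← mulVec_mulVec, h1, h2]

theorem inv_fix {g : GL (Fin n) ℂ} {v : Fin n → ℂ}
    (h : (g : Matrix (Fin n) (Fin n) ℂ) *ᵥ v = v) :
    ((g⁻¹ : GL (Fin n) ℂ) : Matrix (Fin n) (Fin n) ℂ) *ᵥ v = v := by
  have h1 : ((g⁻¹ : GL (Fin n) ℂ) : Matrix (Fin n) (Fin n) ℂ) *ᵥ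
      ((g : Matrix (Fin n) (Fin n) ℂ) *ᵥ v) = v := by
    rw [mulVec_mulVec, ← Units.val_mul, inv_mul_cancel]
    simp
  rwa [h] at h1

theorem inv_mem_stab {H : Submodule ℂ (Fin n → ℂ)} {g : GL (Fin n) ℂ} (hg : g ∈ stabH G H) :
    g⁻¹ ∈ stabH G H := by
  refine ⟨G.inv_mem hg.1, ?_⟩
  intro v hv
  exact inv_fix (hg.2 hv)

/-- the sum over the stabiliser -/
noncomputable def SS [Finite G] (H : Submodule ℂ (Fin n → ℂ)) : Matrix (Fin n) (Fin n) ℂ :=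
  ∑ g ∈ (fin_stab G H).toFinset, (g : Matrix (Fin n) (Fin n) ℂ)

/-- the average -/
noncomputable def ee [Finite G] (H : Submodule ℂ (Fin n → ℂ)) : Matrix (Fin n) (Fin n) ℂ :=
  ((stabH G H).ncard : ℂ)⁻¹ • SS G H

theorem PH_eq [Finite G] (H : Submodule ℂ (Fin n → ℂ)) : PH G H = 1 - ee G H := by
  rw [PH, ee, SS, finsum_mem_eq_finite_toFinset_sum _ (fin_stab G H)]

theorem ncard_ne [Finite G] (H : Submodule ℂ (Fin n → ℂ)) : ((stabH G H).ncard : ℂ) ≠ 0 := by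
  have h : (stabH G H).ncard ≠ 0 := by
    have h2 : 0 < (stabH G H).ncard := by
      rw [Set.ncard_pos (fin_stab G H)]
      exact ⟨1, one_mem_stab G H⟩
    omega
  exact_mod_cast h

theorem mul_SS [Finite G] {H : Submodule ℂ (Fin n → ℂ)} {g : GL (Fin n) ℂ}
    (hg : g ∈ stabH G H) : (g : Matrix (Fin n) (Fin n) ℂ) * SS G H = SS G H := by
  rw [SS, Finset.mul_sum]
  refine Finset.sum_nbij' (fun h => g * h) (fun h => g⁻¹ * h) ?_ ?_ ?_ ?_ ?_
  · intro h hh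
    rw [Set.Finite.mem_toFinset] at hh ⊢
    exact mul_mem_stab G hg hh
  · intro h hh
    rw [Set.Finite.mem_toFinset] at hh ⊢
    exact mul_mem_stab G (inv_mem_stab G hg) hh
  · intro h _
    simp
  · intro h _
    simp
  · intro h _
    rw [Units.val_mul]

theorem SS_mul [Finite G] {H : Submodule ℂ (Fin n → ℂ)} {g : GL (Fin n) ℂ}
    (hg : g ∈ stabH G H) : SS G H * (g : Matrix (Fin n) (Fin n) ℂ) = SS G H := by
  rw [SS, Finset.sum_mul]
  refine Finset.sum_nbij' (fun h => h * g) (fun h => h * g⁻¹) ?_ ?_ ?_ ?_ ?_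
  · intro h hh
    rw [Set.Finite.mem_toFinset] at hh ⊢
    exact mul_mem_stab G hh hg
  · intro h hh
    rw [Set.Finite.mem_toFinset] at hh ⊢
    exact mul_mem_stab G hh (inv_mem_stab G hg)
  · intro h _
    simp
  · intro h _
    simp
  · intro h _
    rw [Units.val_mul]

theorem mul_ee [Finite G] {H : Submodule ℂ (Fin n → ℂ)} {g : GL (Fin n) ℂ}
    (hg : g ∈ stabH G H) : (g : Matrix (Fin n) (Fin n) ℂ) * ee G H = ee G H := by
  rw [ee, Matrix.mul_smul, mul_SS G hg]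

theorem ee_mul [Finite G] {H : Submodule ℂ (Fin n → ℂ)} {g : GL (Fin n) ℂ}
    (hg : g ∈ stabH G H) : ee G H * (g : Matrix (Fin n) (Fin n) ℂ) = ee G H := by
  rw [ee, Matrix.smul_mul, SS_mul G hg]

theorem ee_ee [Finite G] (H : Submodule ℂ (Fin n → ℂ)) : ee G H * ee G H = ee G H := by
  have h1 : SS G H * ee G H = ((stabH G H).ncard : ℂ) • ee G H := by
    conv_lhs => rw [SS, Finset.sum_mul]
    rw [Finset.sum_congr rfl (fun g hg => mul_ee G (by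
      rw [Set.Finite.mem_toFinset] at hg; exact hg)), Finset.sum_const,
      ← Set.ncard_eq_toFinset_card _ (fin_stab G H)]
    rw [Nat.cast_smul_eq_nsmul]
  conv_lhs => rw [ee, Matrix.smul_mul]
  rw [← ee, h1, smul_smul, inv_mul_cancel₀ (ncard_ne G H), one_smul]

theorem ee_fix [Finite G] {H : Submodule ℂ (Fin n → ℂ)} {v : Fin n → ℂ} (hv : v ∈ H) :
    ee G H *ᵥ v = v := by
  have h1 : SS G H *ᵥ v = ((stabH G H).ncard : ℂ) • v := by
    rw [SS, Matrix.sum_mulVec]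
    have hc : ∑ g ∈ (fin_stab G H).toFinset, (g : Matrix (Fin n) (Fin n) ℂ) *ᵥ v =
        ∑ g ∈ (fin_stab G H).toFinset, v := by
      refine Finset.sum_congr rfl ?_
      intro g hg
      rw [Set.Finite.mem_toFinset] at hg
      exact hg.2 hv
    rw [hc, Finset.sum_const, ← Set.ncard_eq_toFinset_card _ (fin_stab G H)]
    rw [Nat.cast_smul_eq_nsmul]
  rw [ee, Matrix.smul_mulVec, h1, smul_smul, inv_mul_cancel₀ (ncard_ne G H), one_smul]

theorem fix_of_ee [Finite G] {H : Submodule ℂ (Fin n → ℂ)} {v : Fin n → ℂ}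
    {g : GL (Fin n) ℂ} (hg : g ∈ stabH G H) (hv : ee G H *ᵥ v = v) :
    (g : Matrix (Fin n) (Fin n) ℂ) *ᵥ v = v := by
  calc (g : Matrix (Fin n) (Fin n) ℂ) *ᵥ v
      = (g : Matrix (Fin n) (Fin n) ℂ) *ᵥ (ee G H *ᵥ v) := by rw [hv]
    _ = ee G H *ᵥ v := by rw [mulVec_mulVec, mul_ee G hg]
    _ = v := hv

theorem mem_iff [Finite G] {H : Submodule ℂ (Fin n → ℂ)} (hH : H ∈ mirrors G)
    (v : Fin n → ℂ) : v ∈ H ↔ PH G H *ᵥ v = 0 := by
  rw [PH_eq, Matrix.sub_mulVec, Matrix.one_mulVec, sub_eq_zero]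
  constructor
  · intro hv
    exact (ee_fix G hv).symm
  · intro hv
    obtain ⟨g, hg, -, hfix⟩ := hH
    have h1 : g ∈ stabH G H := ⟨hg, hfix.symm.le⟩
    have h2 := fix_of_ee G h1 hv.symm
    rw [← hfix]
    exact h2

theorem PH_PH [Finite G] (H : Submodule ℂ (Fin n → ℂ)) : PH G H * PH G H = PH G H := by
  rw [PH_eq, Matrix.mul_sub, Matrix.sub_mul, Matrix.sub_mul, ee_ee]
  simp

theorem conj_mem_stab {H : Submodule ℂ (Fin n → ℂ)} {g h : GL (Fin n) ℂ} (hg : g ∈ G)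
    (hh : h ∈ stabH G H) :
    g * h * g⁻¹ ∈ stabH G (H.map (Matrix.mulVecLin (g : Matrix (Fin n) (Fin n) ℂ))) := by
  refine ⟨G.mul_mem (G.mul_mem hg hh.1) (G.inv_mem hg), ?_⟩
  rintro _ ⟨v, hv, rfl⟩
  have h1 : (h : Matrix (Fin n) (Fin n) ℂ) *ᵥ v = v := hh.2 hv
  show ((g * h * g⁻¹ : GL (Fin n) ℂ) : Matrix (Fin n) (Fin n) ℂ) *ᵥ
    ((g : Matrix (Fin n) (Fin n) ℂ) *ᵥ v) = (g : Matrix (Fin n) (Fin n) ℂ) *ᵥ v
  rw [mulVec_mulVec, ← Units.val_mul, inv_mul_cancel_right, Units.val_mul, ← mulVec_mulVec, h1]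

theorem conj_inv_mem_stab {H : Submodule ℂ (Fin n → ℂ)} {g h : GL (Fin n) ℂ} (hg : g ∈ G)
    (hh : h ∈ stabH G (H.map (Matrix.mulVecLin (g : Matrix (Fin n) (Fin n) ℂ)))) :
    g⁻¹ * h * g ∈ stabH G H := by
  refine ⟨G.mul_mem (G.mul_mem (G.inv_mem hg) hh.1) hg, ?_⟩
  intro v hv
  have h1 : (h : Matrix (Fin n) (Fin n) ℂ) *ᵥ ((g : Matrix (Fin n) (Fin n) ℂ) *ᵥ v) =
      (g : Matrix (Fin n) (Fin n) ℂ) *ᵥ v := hh.2 ⟨v, hv, rfl⟩
  show ((g⁻¹ * h * g : GL (Fin n) ℂ) : Matrix (Fin n) (Fin n) ℂ) *ᵥ v = v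
  rw [mul_assoc, Units.val_mul, ← mulVec_mulVec, Units.val_mul, ← mulVec_mulVec, h1,
    mulVec_mulVec, ← Units.val_mul, inv_mul_cancel]
  simp

theorem ncard_conj [Finite G] {H : Submodule ℂ (Fin n → ℂ)} {g : GL (Fin n) ℂ} (hg : g ∈ G) :
    (stabH G (H.map (Matrix.mulVecLin (g : Matrix (Fin n) (Fin n) ℂ)))).ncard =
      (stabH G H).ncard := by
  refine (Set.ncard_congr (fun h _ => g * h * g⁻¹) ?_ ?_ ?_).symm
  · intro h hh
    exact conj_mem_stab G hg hh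
  · intro h k _ _ hhk
    simpa using hhk
  · intro h hh
    refine ⟨g⁻¹ * h * g, conj_inv_mem_stab G hg hh, ?_⟩
    group

theorem SS_conj [Finite G] {H : Submodule ℂ (Fin n → ℂ)} {g : GL (Fin n) ℂ} (hg : g ∈ G) :
    (g : Matrix (Fin n) (Fin n) ℂ) * SS G H =
      SS G (H.map (Matrix.mulVecLin (g : Matrix (Fin n) (Fin n) ℂ))) *
        (g : Matrix (Fin n) (Fin n) ℂ) := by
  rw [SS, SS, Finset.mul_sum, Finset.sum_mul]
  refine Finset.sum_nbij' (fun h => g * h * g⁻¹) (fun h => g⁻¹ * h * g) ?_ ?_ ?_ ?_ ?_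
  · intro h hh
    rw [Set.Finite.mem_toFinset] at hh ⊢
    exact conj_mem_stab G hg hh
  · intro h hh
    rw [Set.Finite.mem_toFinset] at hh ⊢
    exact conj_inv_mem_stab G hg hh
  · intro h _
    show g⁻¹ * (g * h * g⁻¹) * g = h
    group
  · intro h _
    show g * (g⁻¹ * h * g) * g⁻¹ = h
    group
  · intro h _
    show (g : Matrix (Fin n) (Fin n) ℂ) * (h : Matrix (Fin n) (Fin n) ℂ) =
      ((g * h * g⁻¹ : GL (Fin n) ℂ) : Matrix (Fin n) (Fin n) ℂ) * (g : Matrix (Fin n) (Fin n) ℂ)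
    rw [← Units.val_mul, ← Units.val_mul, inv_mul_cancel_right]

theorem fixSp_conj (g h : GL (Fin n) ℂ) :
    fixSp (g * h * g⁻¹) = (fixSp h).map (Matrix.mulVecLin (g : Matrix (Fin n) (Fin n) ℂ)) := by
  ext v
  constructor
  · intro hv
    have hv' : ((g * h * g⁻¹ : GL (Fin n) ℂ) : Matrix (Fin n) (Fin n) ℂ) *ᵥ v = v := hv
    refine ⟨((g⁻¹ : GL (Fin n) ℂ) : Matrix (Fin n) (Fin n) ℂ) *ᵥ v, ?_, ?_⟩
    · show (h : Matrix (Fin n) (Fin n) ℂ) *ᵥ
        (((g⁻¹ : GL (Fin n) ℂ) : Matrix (Fin n) (Fin n) ℂ) *ᵥ v) =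
        ((g⁻¹ : GL (Fin n) ℂ) : Matrix (Fin n) (Fin n) ℂ) *ᵥ v
      conv_rhs => rw [← hv']
      rw [mulVec_mulVec, mulVec_mulVec, ← Units.val_mul, ← Units.val_mul]
      congr 2
      group
    · show (g : Matrix (Fin n) (Fin n) ℂ) *ᵥ
        (((g⁻¹ : GL (Fin n) ℂ) : Matrix (Fin n) (Fin n) ℂ) *ᵥ v) = v
      rw [mulVec_mulVec, ← Units.val_mul, mul_inv_cancel]
      simp
  · rintro ⟨w, hw, rfl⟩
    have hw' : (h : Matrix (Fin n) (Fin n) ℂ) *ᵥ w = w := hw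
    show ((g * h * g⁻¹ : GL (Fin n) ℂ) : Matrix (Fin n) (Fin n) ℂ) *ᵥ
      ((g : Matrix (Fin n) (Fin n) ℂ) *ᵥ w) = (g : Matrix (Fin n) (Fin n) ℂ) *ᵥ w
    rw [mulVec_mulVec, ← Units.val_mul, inv_mul_cancel_right, Units.val_mul, ← mulVec_mulVec,
      hw']

theorem inj_g (g : GL (Fin n) ℂ) :
    Function.Injective (Matrix.mulVecLin (g : Matrix (Fin n) (Fin n) ℂ)) := by
  intro v w hvw
  have h : (g : Matrix (Fin n) (Fin n) ℂ) *ᵥ v = (g : Matrix (Fin n) (Fin n) ℂ) *ᵥ w := hvw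
  have h2 := congrArg (fun x => ((g⁻¹ : GL (Fin n) ℂ) : Matrix (Fin n) (Fin n) ℂ) *ᵥ x) h
  simp only [mulVec_mulVec] at h2
  rw [← Units.val_mul, inv_mul_cancel] at h2
  simpa using h2

theorem al_aux {P : Matrix (Fin n) (Fin n) ℂ} (hP : P * P = P)
    (hr : Module.finrank ℂ (LinearMap.range P.mulVecLin) = 1) :
    ∃ a l : Fin n → ℂ, P = vecMulVec a l ∧ l ⬝ᵥ a = 1 ∧ a ≠ 0 := by
  obtain ⟨⟨a, ha⟩, ha0, hsp⟩ := finrank_eq_one_iff'.1 hr
  have ha0' : a ≠ 0 := by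
    intro h
    apply ha0
    exact Subtype.ext h
  have hk : ∀ k : Fin n, ∃ c : ℂ, c • a = P *ᵥ (Pi.single k 1) := by
    intro k
    obtain ⟨c, hc⟩ := hsp ⟨P *ᵥ (Pi.single k 1), ⟨Pi.single k 1, rfl⟩⟩
    exact ⟨c, congrArg Subtype.val hc⟩
  choose l hl using hk
  have hPe : P = vecMulVec a l := by
    ext i k
    have h := congrFun (hl k) i
    rw [mulVec_single_one] at h
    rw [vecMulVec_apply]
    have h' : l k * a i = P i k := h
    rw [← h', mul_comm]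
  refine ⟨a, l, hPe, ?_, ha0'⟩
  obtain ⟨w, hw⟩ := ha
  have hw' : P *ᵥ w = a := hw
  have h1 : P *ᵥ a = a := by
    rw [← hw', mulVec_mulVec, hP]
  rw [hPe, vecMulVec_mulVec] at h1
  obtain ⟨i, hi⟩ := Function.ne_iff.1 ha0'
  have h2 := congrFun h1 i
  simp only [Pi.smul_apply, MulOpposite.smul_eq_mul_unop, MulOpposite.unop_op] at h2
  have hi' : a i ≠ 0 := hi
  have h3 : a i * (l ⬝ᵥ a) = a i * 1 := by rw [h2, mul_one]
  exact mul_left_cancel₀ hi' h3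

end FGaAux

variable {n : ℕ} (G : Subgroup (GL (Fin n) ℂ))

theorem exists_al [Finite G] {H : Submodule ℂ (Fin n → ℂ)} (hH : H ∈ mirrors G) :
    ∃ a l : Fin n → ℂ, PH G H = vecMulVec a l ∧ l ⬝ᵥ a = 1 ∧ ∀ v, v ∈ H ↔ l ⬝ᵥ v = 0 := by
  have hP := FGaAux.PH_PH G H
  have hker : LinearMap.ker (PH G H).mulVecLin = H := by
    ext v
    rw [LinearMap.mem_ker, Matrix.mulVecLin_apply]
    exact (FGaAux.mem_iff G hH v).symm
  have hdim : Module.finrank ℂ H + 1 = n := by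
    obtain ⟨g, -, hr, hfix⟩ := hH
    rw [← hfix]
    exact hr.2
  have hr : Module.finrank ℂ (LinearMap.range (PH G H).mulVecLin) = 1 := by
    have h := LinearMap.finrank_range_add_finrank_ker (PH G H).mulVecLin
    rw [hker, Module.finrank_fin_fun] at h
    omega
  obtain ⟨a, l, h1, h2, h3⟩ := FGaAux.al_aux hP hr
  refine ⟨a, l, h1, h2, ?_⟩
  intro v
  rw [FGaAux.mem_iff G hH v, h1, vecMulVec_mulVec]
  constructor
  · intro h
    obtain ⟨i, hi⟩ := Function.ne_iff.1 h3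
    have h4 := congrFun h i
    simp only [Pi.smul_apply, MulOpposite.smul_eq_mul_unop, MulOpposite.unop_op,
      Pi.zero_apply] at h4
    exact (mul_eq_zero.1 h4).resolve_left hi
  · intro h
    rw [h]
    simp

theorem stab_form [Finite G] {H : Submodule ℂ (Fin n → ℂ)} (hH : H ∈ mirrors G)
    {g : GL (Fin n) ℂ} (hg : g ∈ stabH G H) :
    ∃ z : ℂ, (g : Matrix (Fin n) (Fin n) ℂ) = 1 + (z - 1) • PH G H := by
  obtain ⟨a, l, h1, h2, -⟩ := exists_al G hH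
  have hcomm : (g : Matrix (Fin n) (Fin n) ℂ) * PH G H =
      PH G H * (g : Matrix (Fin n) (Fin n) ℂ) := by
    rw [FGaAux.PH_eq, Matrix.mul_sub, Matrix.sub_mul, FGaAux.mul_ee G hg, FGaAux.ee_mul G hg]
    simp
  refine ⟨l ⬝ᵥ ((g : Matrix (Fin n) (Fin n) ℂ) *ᵥ a), ?_⟩
  set z := l ⬝ᵥ ((g : Matrix (Fin n) (Fin n) ℂ) *ᵥ a) with hz
  have hga : (g : Matrix (Fin n) (Fin n) ℂ) *ᵥ a = z • a := by
    have h3 := congrArg (fun M => M *ᵥ a) hcomm
    simp only [← mulVec_mulVec] at h3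
    rw [h1, vecMulVec_mulVec, vecMulVec_mulVec, h2] at h3
    rw [← hz] at h3
    simpa using h3
  have hgP : (g : Matrix (Fin n) (Fin n) ℂ) * PH G H = z • PH G H := by
    rw [h1, Matrix.mul_vecMulVec, hga, Matrix.smul_vecMulVec]
  have h4 : (g : Matrix (Fin n) (Fin n) ℂ) * (1 - PH G H) = 1 - PH G H := by
    have : 1 - PH G H = FGaAux.ee G H := by rw [FGaAux.PH_eq]; simp
    rw [this]
    exact FGaAux.mul_ee G hg
  rw [Matrix.mul_sub, Matrix.mul_one, hgP] at h4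
  have h5 : (g : Matrix (Fin n) (Fin n) ℂ) = z • PH G H + (1 - PH G H) := by
    rw [← h4]
    abel
  rw [h5, sub_smul, one_smul]
  abel

theorem mirror_map {H : Submodule ℂ (Fin n → ℂ)} (hH : H ∈ mirrors G) {g : GL (Fin n) ℂ}
    (hg : g ∈ G) : H.map (Matrix.mulVecLin (g : Matrix (Fin n) (Fin n) ℂ)) ∈ mirrors G := by
  obtain ⟨h, hh, hr, hfix⟩ := hH
  refine ⟨g * h * g⁻¹, G.mul_mem (G.mul_mem hg hh) (G.inv_mem hg), ⟨?_, ?_⟩, ?_⟩
  · intro h1
    apply hr.1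
    have : g * h * g⁻¹ = g * 1 * g⁻¹ := by rw [h1]; group
    simpa using this
  · rw [FGaAux.fixSp_conj]
    have h1 := LinearEquiv.finrank_eq (Submodule.equivMapOfInjective
      (Matrix.mulVecLin (g : Matrix (Fin n) (Fin n) ℂ)) (FGaAux.inj_g g) (fixSp h))
    rw [← h1]
    exact hr.2
  · rw [FGaAux.fixSp_conj, hfix]

theorem PH_conj [Finite G] {H : Submodule ℂ (Fin n → ℂ)} {g : GL (Fin n) ℂ} (hg : g ∈ G) :
    (g : Matrix (Fin n) (Fin n) ℂ) * PH G H =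
      PH G (H.map (Matrix.mulVecLin (g : Matrix (Fin n) (Fin n) ℂ))) *
        (g : Matrix (Fin n) (Fin n) ℂ) := by
  rw [FGaAux.PH_eq, FGaAux.PH_eq, Matrix.mul_sub, Matrix.sub_mul, Matrix.mul_one, Matrix.one_mul]
  congr 1
  rw [FGaAux.ee, FGaAux.ee, Matrix.mul_smul, Matrix.smul_mul, FGaAux.SS_conj G hg,
    FGaAux.ncard_conj G hg]

end Pool.Agent.Lib.P4a9818
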