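import Pool.Agent.Lib.P4a9818.FGa

/-!
# P4a9818.FGb : the datum of a finite group   (estimate 2.5 h)

`ι = ↥(mirrors G)` (finite: `G` is finite and `H = fixSp g`), `a H`, `l H` from `exists_al`; `g H` a
reflection in `G` with fixed space `H`, it is in `stabH G H`, so `g H = 1 + (z H - 1) • PH G H` by
`stab_form`, and `z H ≠ 1` since `g H ≠ 1`.
* `li`: if `l H, l H'` are dependent (both nonzero) then they have the same kernel, `H = H'`.
* `ai`: suppose `H ≠ H'` and `a H' = c a H`. Then `PH G H = a ⊗ l`, `PH G H' = a ⊗ l'` with the same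
  `a = a H`, `l ⬝ a = l' ⬝ a = 1`. The commutator `h` of `g H` and `g H'` fixes `a` and acts trivially
  modulo `a`, so `h = 1 + a ⊗ m` with `m ⬝ a = 0` and `h^k = 1 + k (a ⊗ m)`; `h` has finite order, so
  `m = 0`, `h = 1`, `g H` and `g H'` commute, so `a ⊗ l` and `a ⊗ l'` commute:
  `(a ⊗ l)(a ⊗ l') = a ⊗ l'`, `(a ⊗ l')(a ⊗ l) = a ⊗ l`, so `l = l'`, `H = H'`.
* `perm`: `PH_conj` and `mirror_map`.
* `fin`: the closure of the `g H` is contained in `G`.
`vecMulVec (a H) (l H) = PH G H`.
-/

namespace Pool.Agent.Lib.P4a9818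

open Matrix

variable {n : ℕ} (G : Subgroup (GL (Fin n) ℂ))

namespace FGbAux

theorem vv_mulVec (a l w : Fin n → ℂ) : vecMulVec a l *ᵥ w = (l ⬝ᵥ w) • a := by
  rw [vecMulVec_mulVec]
  ext i
  simp [mul_comm]

theorem vv_mul (a l b m : Fin n → ℂ) :
    vecMulVec a l * vecMulVec b m = (l ⬝ᵥ b) • vecMulVec a m := by
  rw [vecMulVec_mul_vecMulVec, vecMulVec_smul]

theorem vv_eq_zero {a m : Fin n → ℂ} (ha : a ≠ 0) (h : vecMulVec a m = 0) : m = 0 := by
  obtain ⟨s, hs⟩ := Function.ne_iff.mp ha
  funext t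
  have := congrFun (congrFun h s) t
  rw [vecMulVec_apply] at this
  exact (mul_eq_zero.mp this).resolve_left hs

theorem pow_one_add (a m : Fin n → ℂ) (hm : m ⬝ᵥ a = 0) (k : ℕ) :
    (1 + vecMulVec a m) ^ k = 1 + (k : ℂ) • vecMulVec a m := by
  induction k with
  | zero => simp
  | succ k ih =>
    rw [pow_succ, ih, add_mul, one_mul, smul_mul_assoc, mul_add, mul_one,
      vv_mul, hm, zero_smul, add_zero]
    push_cast
    rw [add_smul, one_smul]
    abel

/-- Two reflections in a finite group with the same root have the same mirror. -/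
theorem same_root [Finite G] {g h : GL (Fin n) ℂ} (hg : g ∈ G) (hh : h ∈ G)
    {a l l' : Fin n → ℂ} {z z' : ℂ} (hla : l ⬝ᵥ a = 1) (hla' : l' ⬝ᵥ a = 1)
    (hz : z ≠ 1) (hz' : z' ≠ 1)
    (eg : (g : Matrix (Fin n) (Fin n) ℂ) = 1 + (z - 1) • vecMulVec a l)
    (eh : (h : Matrix (Fin n) (Fin n) ℂ) = 1 + (z' - 1) • vecMulVec a l') : l = l' := by
  have ha : a ≠ 0 := by
    rintro rfl
    simp at hla
  have hga : (g : Matrix (Fin n) (Fin n) ℂ) *ᵥ a = z • a := by
    rw [eg, add_mulVec, one_mulVec, smul_mulVec, vv_mulVec, hla, one_smul, sub_smul, one_smul]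
    abel
  have hha : (h : Matrix (Fin n) (Fin n) ℂ) *ᵥ a = z' • a := by
    rw [eh, add_mulVec, one_mulVec, smul_mulVec, vv_mulVec, hla', one_smul, sub_smul, one_smul]
    abel
  have hz0 : z ≠ 0 := by
    rintro rfl
    rw [zero_smul] at hga
    apply ha
    have : ((g⁻¹ : GL (Fin n) ℂ) : Matrix (Fin n) (Fin n) ℂ) *ᵥ
        ((g : Matrix (Fin n) (Fin n) ℂ) *ᵥ a) = a := by
      rw [mulVec_mulVec, Units.inv_mul, one_mulVec]
    rw [hga, mulVec_zero] at this
    exact this.symm
  have hz0' : z' ≠ 0 := by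
    rintro rfl
    rw [zero_smul] at hha
    apply ha
    have : ((h⁻¹ : GL (Fin n) ℂ) : Matrix (Fin n) (Fin n) ℂ) *ᵥ
        ((h : Matrix (Fin n) (Fin n) ℂ) *ᵥ a) = a := by
      rw [mulVec_mulVec, Units.inv_mul, one_mulVec]
    rw [hha, mulVec_zero] at this
    exact this.symm
  set c : ℂ := (z - 1) * (z' - 1) / (z * z') with hc
  have hc0 : c ≠ 0 := div_ne_zero (mul_ne_zero (sub_ne_zero.mpr hz) (sub_ne_zero.mpr hz'))
    (mul_ne_zero hz0 hz0')
  have hma : (c • (l' - l)) ⬝ᵥ a = 0 := by
    rw [smul_dotProduct, sub_dotProduct, hla, hla', sub_self, smul_zero]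
  have key : ((h * g : GL (Fin n) ℂ) : Matrix (Fin n) (Fin n) ℂ) *
      (1 + vecMulVec a (c • (l' - l))) = ((g * h : GL (Fin n) ℂ) : Matrix (Fin n) (Fin n) ℂ) := by
    rw [mul_add, mul_one, mul_vecMulVec, Units.val_mul, ← mulVec_mulVec, hga, mulVec_smul, hha,
      Units.val_mul, eg, eh]
    have e1 : (1 + (z' - 1) • vecMulVec a l') * (1 + (z - 1) • vecMulVec a l) =
        1 + (z' - 1) • vecMulVec a l' + (z - 1) • vecMulVec a l +
          ((z' - 1) * (z - 1)) • vecMulVec a l := by
      rw [add_mul, mul_add, mul_add, one_mul, mul_one, one_mul, smul_mul_smul_comm, vv_mul, hla',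
        one_smul]
      abel
    have e2 : (1 + (z - 1) • vecMulVec a l) * (1 + (z' - 1) • vecMulVec a l') =
        1 + (z - 1) • vecMulVec a l + (z' - 1) • vecMulVec a l' +
          ((z - 1) * (z' - 1)) • vecMulVec a l' := by
      rw [add_mul, mul_add, mul_add, one_mul, mul_one, one_mul, smul_mul_smul_comm, vv_mul, hla,
        one_smul]
      abel
    rw [e1, e2]
    ext s t
    simp only [Matrix.add_apply, Matrix.smul_apply, vecMulVec_apply, Pi.smul_apply, Pi.sub_apply, smul_eq_mul]
    rw [hc]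
    field_simp
    ring
  set w : GL (Fin n) ℂ := (h * g)⁻¹ * (g * h) with hw
  have hwm : (w : Matrix (Fin n) (Fin n) ℂ) = 1 + vecMulVec a (c • (l' - l)) := by
    rw [hw, Units.val_mul, ← key, Units.inv_mul_cancel_left]
  have hwG : w ∈ G := G.mul_mem (G.inv_mem (G.mul_mem hh hg)) (G.mul_mem hg hh)
  have hfin : w ^ Nat.card G = 1 := by
    have h1 : (⟨w, hwG⟩ : G) ^ Nat.card G = 1 := pow_card_eq_one'
    exact congrArg (Subtype.val) h1
  have h3 := congrArg (fun u : GL (Fin n) ℂ => (u : Matrix (Fin n) (Fin n) ℂ)) hfin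
  simp only [Units.val_pow_eq_pow_val, hwm, Units.val_one] at h3
  rw [pow_one_add _ _ hma] at h3
  have h4 : ((Nat.card G : ℕ) : ℂ) • vecMulVec a (c • (l' - l)) = 0 := by
    simpa using h3
  have h5 : ((Nat.card G : ℕ) : ℂ) ≠ 0 := by
    exact_mod_cast Nat.card_pos.ne'
  have h6 := (smul_eq_zero.mp h4).resolve_left h5
  have h7 := vv_eq_zero ha h6
  have h8 := (smul_eq_zero.mp h7).resolve_left hc0
  exact (sub_eq_zero.mp h8).symm

end FGbAux

open FGbAux

theorem exists_datum [Finite G] : ∃ (A : Datum (Fin n)) (e : A.ι ≃ mirrors G),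
    ∀ i v, v ∈ (e i : Submodule ℂ (Fin n → ℂ)) ↔ A.l i ⬝ᵥ v = 0 := by
  classical
  have hfinm : (mirrors G).Finite := by
    have h1 : (fixSp '' (G : Set (GL (Fin n) ℂ))).Finite := Set.Finite.image _ (Set.toFinite _)
    refine h1.subset ?_
    rintro H ⟨g, hg, _, rfl⟩
    exact ⟨g, hg, rfl⟩
  choose a l hP hla hmem using fun H : mirrors G => exists_al G H.2
  choose g hgG hgR hgF using fun H : mirrors G => H.2
  choose z hz using fun H : mirrors G => stab_form G H.2
    (show g H ∈ stabH G H from ⟨hgG H, (hgF H).ge⟩)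
  have hz' : ∀ H, (g H : Matrix (Fin n) (Fin n) ℂ) = 1 + (z H - 1) • vecMulVec (a H) (l H) := by
    intro H
    rw [hz H, hP H]
  have hz1 : ∀ H, z H ≠ 1 := by
    intro H h
    apply (hgR H).1
    have := hz' H
    rw [h, sub_self, zero_smul, add_zero] at this
    exact Units.ext this
  have hl0 : ∀ H, l H ≠ 0 := by
    intro H h
    have := hla H
    rw [h, zero_dotProduct] at this
    exact zero_ne_one this
  have ha0 : ∀ H, a H ≠ 0 := by
    intro H h
    have := hla H
    rw [h, dotProduct_zero] at this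
    exact zero_ne_one this
  have hsame : ∀ H K : mirrors G, ∀ c : ℂ, l H = c • l K → H = K := by
    intro H K c hc
    have hc0 : c ≠ 0 := by
      rintro rfl
      rw [zero_smul] at hc
      exact hl0 H hc
    apply Subtype.ext
    ext v
    rw [hmem H, hmem K, hc, smul_dotProduct, smul_eq_mul, mul_eq_zero]
    simp [hc0]
  have hpair : ∀ (u : mirrors G → Fin n → ℂ), (∀ H, u H ≠ 0) →
      (∀ H K : mirrors G, ∀ c : ℂ, u H = c • u K → H = K) →
      ∀ i j, i ≠ j → LinearIndependent ℂ ![u i, u j] := by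
    intro u hu0 hu i j hij
    rw [LinearIndependent.pair_iff]
    intro x y hxy
    by_cases hx : x = 0
    · refine ⟨hx, ?_⟩
      rw [hx, zero_smul, zero_add] at hxy
      exact (smul_eq_zero.mp hxy).resolve_right (hu0 j)
    · exfalso
      apply hij
      apply hu i j (-(x⁻¹ * y))
      have h1 : x • u i = -(y • u j) := eq_neg_of_add_eq_zero_left hxy
      have h2 : u i = x⁻¹ • (x • u i) := by
        rw [smul_smul, inv_mul_cancel₀ hx, one_smul]
      rw [h2, h1, smul_neg, smul_smul, neg_smul]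
  refine ⟨{ ι := mirrors G
            instF := hfinm.fintype
            instD := inferInstance
            a := a
            l := l
            z := z
            g := g
            la := hla
            li := hpair l hl0 hsame
            ai := hpair a ha0 ?_
            hz := hz1
            hg := hz'
            perm := ?_
            fin := ?_ }, Equiv.refl _, ?_⟩
  · intro H K c hc
    have hc0 : c ≠ 0 := by
      rintro rfl
      rw [zero_smul] at hc
      exact ha0 H hc
    -- `a H = c • a K`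
    have e1 : vecMulVec (a H) (l H) = vecMulVec (a K) (c • l H) := by
      rw [hc, smul_vecMulVec, vecMulVec_smul]
    have e2 : (c • l H) ⬝ᵥ a K = 1 := by
      rw [smul_dotProduct, ← dotProduct_smul, ← hc, hla H]
    have e3 := same_root G (hgG K) (hgG H) (hla K) e2 (hz1 K) (hz1 H) (hz' K)
      (by rw [hz' H, e1])
    exact (hsame K H c e3).symm
  · intro i j
    refine ⟨⟨_, mirror_map G j.2 (hgG i)⟩, ?_⟩
    rw [← hP j, ← hP]
    exact PH_conj G (hgG i)
  · have hle : Subgroup.closure (Set.range g) ≤ G := by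
      rw [Subgroup.closure_le]
      rintro _ ⟨H, rfl⟩
      exact hgG H
    exact Finite.of_injective (Subgroup.inclusion hle) (Subgroup.inclusion_injective hle)
  · intro i v
    exact hmem i v

end Pool.Agent.Lib.P4a9818
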