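import Pool.Agent.Lib.P4a9818.KVClaim

/-!
# P4a9818.HClaim : the socle of `R / J³`   (estimate 2.5 h)

`n = card σ = card κ = m + 1 ≥ 3`, `I j = Iu Φ j`, `x t = C (X (ε t))` for an equivalence `ε : Fin n ≃ σ`.
* `hclaim`: put `δ = d - 3 D`. For `s : σ`: `X s * f ∈ (F)³`, homogeneous of degree `d + 1`, so
  `X s * f = eval F (β s)` with `β s ∈ WB 3 (δ + 1)`: elements of `(F)³` are values at `F` of homogeneous
  polynomials of degree `3` with coefficients in `R`; `F_k` is homogeneous of degree `D`, so we may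
  replace the coefficients by their components of degree `d + 1 - 3 D` (all `0` if this is negative;
  then `X s * f = 0`). Let `c {t} = β (ε t)` (and `c S = 0` otherwise). For `s < t`,
  `kd x c {s, t} = x s * c {t} - x t * c {s}` has value `0` at `F`, so it is in `Iu Φ m` by `lin_type`.
  `kv_claim` for `j = m`, `k = 3`, `i = 1`: the condition on `U`, `u = card U ≤ min 3 m`:
  `1 + u < n` unless (`n = 4`, `u = 3`, `U = univ`, `∑ b = D`, `δ - D + 4 = d + 4 - 4 D ≠ 0`) or
  (`n = 3`, `u = 2`, `U = univ`, `δ - D + 3 = d + 3 - 4 D ≠ 0`).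
  So there is `e ∅ ∈ WB 3 δ` with `β (ε t) - x t * e ∅ ∈ Iu Φ m`; evaluate at `F`
  (`eval F` kills `Iu Φ m`): `X (ε t) * f = X (ε t) * eval F (e ∅)`, so `f = eval F (e ∅) ∈ (F)³`.
-/

namespace Pool.Agent.Lib.P4a9818

open MvPolynomial

namespace HClaimAux

theorem comp_mul {σ : Type} {c p : MvPolynomial σ ℂ} {k : ℕ} (hp : p.IsHomogeneous k) (e : ℕ) :
    homogeneousComponent (e + k) (c * p) = homogeneousComponent e c * p := by
  have h1 : ∀ d, homogeneousComponent (e + k) (homogeneousComponent d c * p)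
      = if e = d then homogeneousComponent d c * p else 0 := by
    intro d
    have hm : homogeneousComponent d c * p ∈ homogeneousSubmodule σ ℂ (d + k) :=
      (homogeneousComponent_isHomogeneous d c).mul hp
    rw [homogeneousComponent_of_mem hm]
    simp
  conv_lhs => rw [← sum_homogeneousComponent c, Finset.sum_mul, map_sum]
  simp only [h1]
  rw [Finset.sum_ite_eq]
  split_ifs with h
  · rfl
  · rw [Finset.mem_range, not_lt] at h
    rw [homogeneousComponent_eq_zero e c (by omega), zero_mul]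

theorem comp_mul_lt {σ : Type} {c p : MvPolynomial σ ℂ} {k : ℕ} (hp : p.IsHomogeneous k) {e : ℕ}
    (he : e < k) : homogeneousComponent e (c * p) = 0 := by
  conv_lhs => rw [← sum_homogeneousComponent c, Finset.sum_mul, map_sum]
  refine Finset.sum_eq_zero fun d _ => ?_
  have hm : homogeneousComponent d c * p ∈ homogeneousSubmodule σ ℂ (d + k) :=
    (homogeneousComponent_isHomogeneous d c).mul hp
  rw [homogeneousComponent_of_mem hm, if_neg (by omega)]

variable {σ κ : Type} [Fintype κ]

theorem deg_of {R κ : Type} [CommRing R] {b : MvPolynomial κ R} {k : ℕ} (hb : b.IsHomogeneous k)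
    {m : κ →₀ ℕ} (hm : coeff m b ≠ 0) : m.degree = k := by
  have h := hb hm
  rw [Finsupp.degree_eq_weight_one]
  exact h

theorem prod_hom {F : κ → MvPolynomial σ ℂ} {D : ℕ} (hF : ∀ k, (F k).IsHomogeneous D)
    (m : κ →₀ ℕ) : (∏ i, F i ^ m i).IsHomogeneous (m.degree * D) := by
  have h : (∏ i, F i ^ m i).IsHomogeneous (∑ i, D * m i) :=
    IsHomogeneous.prod _ _ _ fun i _ => (hF i).pow _
  have e : ∑ i, D * m i = m.degree * D := by
    rw [← Finset.mul_sum, mul_comm]
    congr 1
    rw [Finsupp.degree_eq_sum]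
  rwa [e] at h

theorem mem_pow {F : κ → MvPolynomial σ ℂ} {k : ℕ} {b : MvPolynomial κ (MvPolynomial σ ℂ)}
    (hb : b.IsHomogeneous k) : eval F b ∈ (Ideal.span (Set.range F)) ^ k := by
  rw [eval_eq']
  refine Ideal.sum_mem _ fun m hm => Ideal.mul_mem_left _ _ ?_
  have h1 : m.degree = k := deg_of hb (mem_support_iff.1 hm)
  have h2 : ∏ i, F i ^ m i ∈ ∏ i, (Ideal.span (Set.range F)) ^ m i := by
    refine Ideal.prod_mem_prod fun i _ => Ideal.pow_mem_pow (Ideal.subset_span ?_) _
    exact ⟨i, rfl⟩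
  rw [Finset.prod_pow_eq_pow_sum, ← Finsupp.degree_eq_sum, h1] at h2
  exact h2

theorem exists_of_mem_pow (F : κ → MvPolynomial σ ℂ) (k : ℕ) (g : MvPolynomial σ ℂ)
    (hg : g ∈ (Ideal.span (Set.range F)) ^ k) :
    ∃ b : MvPolynomial κ (MvPolynomial σ ℂ), b.IsHomogeneous k ∧ eval F b = g := by
  let E : ℕ → Ideal (MvPolynomial σ ℂ) := fun k =>
    { carrier := {g | ∃ b : MvPolynomial κ (MvPolynomial σ ℂ), b.IsHomogeneous k ∧ eval F b = g}
      add_mem' := by
        rintro a b ⟨x, hx, rfl⟩ ⟨y, hy, rfl⟩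
        exact ⟨x + y, hx.add hy, by simp⟩
      zero_mem' := ⟨0, isHomogeneous_zero _ _ _, by simp⟩
      smul_mem' := by
        rintro c a ⟨x, hx, rfl⟩
        refine ⟨C c * x, ?_, by simp⟩
        have := (isHomogeneous_C κ c).mul hx
        rwa [zero_add] at this }
  have h1 : Ideal.span (Set.range F) ≤ E 1 := by
    rw [Ideal.span_le]
    rintro _ ⟨i, rfl⟩
    exact ⟨X i, isHomogeneous_X _ i, by simp⟩
  have h2 : ∀ k, (Ideal.span (Set.range F)) ^ k ≤ E k := by
    intro k
    induction k with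
    | zero =>
      intro g _
      exact ⟨C g, isHomogeneous_C κ g, by simp⟩
    | succ k ih =>
      rw [pow_succ, Ideal.mul_le]
      intro r hr s hs
      obtain ⟨x, hx, rfl⟩ := ih hr
      obtain ⟨y, hy, rfl⟩ := h1 hs
      exact ⟨x * y, hx.mul hy, by simp⟩
  exact h2 k hg

theorem exists_WB {F : κ → MvPolynomial σ ℂ} {D : ℕ} (hF : ∀ k, (F k).IsHomogeneous D)
    {b : MvPolynomial κ (MvPolynomial σ ℂ)} (hb : b.IsHomogeneous 3) {e : ℕ}
    (hg : (eval F b).IsHomogeneous e) :
    ∃ b' ∈ (WB 3 ((e : ℤ) - 3 * D) : AddSubgroup (MvPolynomial κ (MvPolynomial σ ℂ))),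
      eval F b' = eval F b := by
  classical
  have hdeg : ∀ m ∈ b.support, m.degree = 3 := by
    intro m hm
    exact deg_of hb (mem_support_iff.1 hm)
  have hcomp : homogeneousComponent e (eval F b) = eval F b := by
    rw [homogeneousComponent_of_mem (n := e) hg, if_pos rfl]
  have hprod : ∀ m ∈ b.support, (∏ i, F i ^ m i).IsHomogeneous (3 * D) := by
    intro m hm
    have := prod_hom hF m
    rwa [hdeg m hm] at this
  by_cases h : 3 * D ≤ e
  · refine ⟨∑ m ∈ b.support, monomial m (homogeneousComponent (e - 3 * D) (coeff m b)),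
      ?_, ?_⟩
    · refine AddSubgroup.sum_mem _ fun m hm => ?_
      intro m' u hu
      rw [coeff_monomial] at hu
      split_ifs at hu with hmm
      · subst hmm
        refine ⟨by rw [hdeg m hm]; rfl, ?_⟩
        have h2 : u.degree = e - 3 * D :=
          deg_of (homogeneousComponent_isHomogeneous (e - 3 * D) (coeff m b)) hu
        rw [h2]
        omega
      · simp at hu
    · rw [map_sum, ← hcomp, eval_eq', map_sum]
      refine Finset.sum_congr rfl fun m hm => ?_
      rw [eval_monomial]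
      have := comp_mul (c := coeff m b) (hprod m hm) (e - 3 * D)
      rw [Nat.sub_add_cancel h] at this
      rw [this, Finsupp.prod_fintype _ _ (by simp)]
  · refine ⟨0, AddSubgroup.zero_mem _, ?_⟩
    rw [map_zero, ← hcomp, eval_eq', map_sum]
    symm
    refine Finset.sum_eq_zero fun m hm => ?_
    exact comp_mul_lt (hprod m hm) (by omega)

end HClaimAux

variable {σ κ : Type} [Fintype σ] [Fintype κ] [DecidableEq κ]

theorem hclaim {F : κ → MvPolynomial σ ℂ} {D m : ℕ} {Φ : Fin m → κ → MvPolynomial σ ℂ}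
    {b : Fin m → ℕ} (hP : Pres F D m Φ b) (hL : LocGen F)
    (hcard : Fintype.card σ = Fintype.card κ) (hn : 3 ≤ Fintype.card σ)
    {f : MvPolynomial σ ℂ} {d : ℕ} (hf : f.IsHomogeneous d)
    (hX : ∀ s, X s * f ∈ (Ideal.span (Set.range F)) ^ 3)
    (h3 : ¬ (Fintype.card σ = 3 ∧ d + 3 = 4 * D))
    (h4 : ¬ (Fintype.card σ = 4 ∧ d + 4 = 4 * D)) :
    f ∈ (Ideal.span (Set.range F)) ^ 3 := by
  classical
  set n := Fintype.card σ with hnd
  let ε : Fin n ≃ σ := (Fintype.equivFin σ).symm
  have hβ : ∀ s, ∃ β ∈ (WB 3 (((d + 1 : ℕ) : ℤ) - 3 * D) :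
      AddSubgroup (MvPolynomial κ (MvPolynomial σ ℂ))), eval F β = X s * f := by
    intro s
    obtain ⟨b0, hb0, hb1⟩ := HClaimAux.exists_of_mem_pow F 3 _ (hX s)
    have hg : (eval F b0).IsHomogeneous (d + 1) := by
      rw [hb1, add_comm]
      exact (isHomogeneous_X ℂ s).mul hf
    obtain ⟨b', h1, h2⟩ := HClaimAux.exists_WB hP.homF hb0 hg
    exact ⟨b', h1, h2.trans hb1⟩
  choose β hβ1 hβ2 using hβ
  have hkill : ∀ a ∈ Iu Φ m, eval F a = 0 := by
    intro a ha
    rw [Iu_all] at ha
    have hle : Ideal.span (Set.range fun i => hat (Φ i)) ≤ RingHom.ker (eval F) := by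
      rw [Ideal.span_le]
      rintro _ ⟨i, rfl⟩
      show eval F (hat (Φ i)) = 0
      unfold hat
      rw [map_sum]
      simp only [map_mul, eval_C, eval_X]
      exact (hP.syz (Φ i)).1 (Submodule.subset_span ⟨i, rfl⟩)
    exact hle ha
  let x : Fin n → MvPolynomial κ (MvPolynomial σ ℂ) := fun t => C (X (ε t))
  let c : Finset (Fin n) → MvPolynomial κ (MvPolynomial σ ℂ) := fun S =>
    if h : ∃ t, S = {t} then β (ε h.choose) else 0
  have hc : ∀ t, c {t} = β (ε t) := by
    intro t
    have h : ∃ t', ({t} : Finset (Fin n)) = {t'} := ⟨t, rfl⟩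
    have h2 : h.choose = t := by
      have := h.choose_spec
      exact (Finset.singleton_inj.1 this).symm
    show (if h : ∃ t', ({t} : Finset (Fin n)) = {t'} then β (ε h.choose) else 0) = _
    rw [dif_pos h, h2]
  have hU : ∀ U : Finset (Fin m), (∀ u ∈ U, u.val < m) → (U.card : ℤ) ≤ 3 →
      1 + U.card < n ∨ ((d : ℤ) - 3 * D) - ((∑ u ∈ U, b u : ℕ) : ℤ) + n ≠ 0 := by
    intro U _ hU3
    have hm : m + 1 = n := by rw [hP.card, ← hcard]
    have hUm : U.card ≤ m := by
      have := Finset.card_le_univ U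
      simpa using this
    by_cases hlt : 1 + U.card < n
    · exact Or.inl hlt
    · right
      have hUfull : U.card = m := by omega
      have hUu : U = Finset.univ := by
        apply Finset.eq_univ_of_card
        rw [hUfull, Fintype.card_fin]
      rw [hUu, hP.sumb]
      have hn4 : n = 3 ∨ n = 4 := by
        have : (U.card : ℤ) ≤ 3 := hU3
        omega
      rcases hn4 with h | h
      · rw [h]
        intro hz
        exact h3 ⟨h, by omega⟩
      · rw [h]
        intro hz
        exact h4 ⟨h, by omega⟩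
  have hKV := kv_claim hP hL ε (le_refl m) 3 ((d : ℤ) - 3 * D) 1 (by norm_num) hU
  obtain ⟨e, he1, he2⟩ := hKV c
    (by
      intro S hS
      obtain ⟨t, rfl⟩ := Finset.card_eq_one.1 hS
      rw [hc t]
      have := hβ1 (ε t)
      have e1 : (((d + 1 : ℕ) : ℤ) - 3 * D) = ((d : ℤ) - 3 * D) + ((1 : ℕ) : ℤ) := by
        push_cast; ring
      rwa [e1] at this)
    (by
      intro S hS
      obtain ⟨s, t, hst, rfl⟩ := Finset.card_eq_two.1 hS
      have main : ∀ s t : Fin n, s < t → kd x c {s, t} ∈ Iu Φ m := by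
        intro s t hst
        rw [kd_pair x c hst, hc s, hc t]
        apply lin_type hP hL
        · have hh : ∀ (a b : Fin n), (x a * β (ε b)).IsHomogeneous 3 := by
            intro a b
            have h1 := ((mem_WB_iff 3 _ _).1 (hβ1 (ε b))).1
            have h2 : (β (ε b)).IsHomogeneous 3 := (mem_WT_iff 3 _).1 h1
            have h3 := (isHomogeneous_C κ (X (ε a) : MvPolynomial σ ℂ)).mul h2
            rwa [zero_add] at h3
          exact (hh s t).sub (hh t s)
        · show eval F (C (X (ε s)) * β (ε t) - C (X (ε t)) * β (ε s)) = 0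
          rw [map_sub, map_mul, map_mul, eval_C, eval_C, hβ2, hβ2]
          ring
      rcases lt_or_gt_of_ne hst with h | h
      · exact main s t h
      · rw [Finset.pair_comm]
        exact main t s h)
  have hpos : 0 < n := by omega
  let t0 : Fin n := ⟨0, hpos⟩
  have h5 := he2 {t0} (Finset.card_singleton _)
  rw [kd_singleton x e t0, hc t0] at h5
  have h6 := hkill _ h5
  rw [map_sub, hβ2] at h6
  have h7 : eval F (x t0 * e ∅) = X (ε t0) * eval F (e ∅) := by
    show eval F (C (X (ε t0)) * e ∅) = _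
    rw [map_mul, eval_C]
  rw [h7, ← mul_sub, mul_eq_zero] at h6
  have h8 : f = eval F (e ∅) := by
    rcases h6 with h6 | h6
    · exact absurd h6 (X_ne_zero _)
    · exact sub_eq_zero.1 h6
  rw [h8]
  apply HClaimAux.mem_pow
  have h9 := he1 ∅ (by simp)
  exact (mem_WT_iff 3 _).1 ((mem_WB_iff 3 _ _).1 h9).1

end Pool.Agent.Lib.P4a9818
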