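import Pool.Agent.Lib.P4a9818.Reps
import Pool.Agent.Lib.P4a9818.LinH

/-!
# P4a9818.Num : elements of `J^(5)` of small degree   (estimate 2.5 h)

* `one_le_D`: `n (N + 1) = 2 N + n D` (`Scal.hN`) with `D = 0` is impossible for `n ≥ 2`
  (`n (N + 1) > 2 N`).
* `num1`: let `f ∈ J^(5)` be homogeneous of degree `d ≤ 4 D`, `D ≥ 1`. Fix `i`. For `r ∈ rep i`
  (`r ≠ i`): `f ∈ (PF l i r)^5 ≤ (ℓ_i, ℓ_r^5)` (`pow_PF_le`), so by `restrict_dvd` (`k = 5`,
  `s = rep i`, `d < 5 D`) `ℓ_i ∣ f`, `f = ℓ_i f1`. Then `f1 ∈ (PF l i r)^4` (`mul_mem_pow_left`),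
  homogeneous of degree `d - 1 < 4 D` (or `f1 = 0`; `isHomogeneous_of_mul`; if `d = 0` then `f = 0`),
  so `ℓ_i ∣ f1` by `restrict_dvd` with `k = 4`. So `ℓ_i² ∣ f` for all `i`; the `ℓ_i` are pairwise
  non-associated primes, so `Q² ∣ f`.
  (The pairs `r ≠ r'` in `rep i` satisfy `l r' ∉ span {l i, l r}`: a class contains only one
  representative, `IsRep`.)
* `special3`: `n = 3`: `3 (N + 1) = 2 N + 3 D`, so `N = 3 D - 3`, and `N ≥ 3` (`Scal.hn`), `D ≥ 2`. If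
  `f ≠ 0` then `Q² ∣ f` gives `2 N ≤ d = 4 D - 3`, i.e. `6 D - 6 ≤ 4 D - 3`, a contradiction.
* `special4`: `n = 4`: `2 N + 4 = 4 D`, `d = 4 D - 4 = 2 N`, so `f = C c * Q²`
  (`eq_C_mul_of_dvd`). Take any `i`. If `card (cls i r) ≥ 3` for all `r ∈ rep i` then
  `N - 1 = ∑_{r∈rep i} (card (cls i r) - 1) ≥ 2 D` (`sum_card_cls`), but `N = 2 D - 2`. So there is
  `r ∈ rep i` with `cls i r = {i, r}`. `Q = ℓ_i ℓ_r u`, `u = ∏_{k≠i,r} ℓ_k ∉ PF l i r` (prime,
  `lf_mem_PF_iff`). If `c ≠ 0`: `ℓ_i² ℓ_r² u² ∈ (PF l i r)^5`, so `u² ∈ PF l i r` by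
  `mul_mem_pow_left/right` (four times): contradiction.
-/

namespace Pool.Agent.Lib.P4a9818

open MvPolynomial Matrix

variable {σ : Type} [Fintype σ] [DecidableEq σ] (A : Datum σ)

namespace NumAux

theorem l_ne (i : A.ι) : A.l i ≠ 0 := by
  intro h
  have := A.la i
  rw [h] at this
  simp at this

theorem l_not_smul {i j : A.ι} (hij : i ≠ j) (c : ℂ) : A.l j ≠ c • A.l i := by
  intro hc
  have h1 := A.li i j hij
  rw [LinearIndependent.pair_iff] at h1
  have h2 := h1 c (-1) (by rw [hc]; simp)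
  simp at h2

theorem mem_cls {i j k : A.ι} : k ∈ A.cls i j ↔ A.l k ∈ Submodule.span ℂ {A.l i, A.l j} := by
  simp [Datum.cls]

theorem self_mem_cls (i j : A.ι) : j ∈ A.cls i j :=
  (mem_cls A).2 (Submodule.subset_span (by simp))

theorem left_mem_cls (i j : A.ι) : i ∈ A.cls i j :=
  (mem_cls A).2 (Submodule.subset_span (by simp))

theorem rep_ne {i r : A.ι} (hr : r ∈ A.rep i) : r ≠ i := by
  rintro rfl
  exact (A.isRep_rep r).1 hr

theorem rep_pair {i r r' : A.ι} (hr : r ∈ A.rep i) (hr' : r' ∈ A.rep i) (h : r ≠ r') :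
    A.l r' ∉ Submodule.span ℂ {A.l i, A.l r} := by
  intro hm
  obtain ⟨x, -, hx⟩ := (A.isRep_rep i).2 r (rep_ne A hr)
  have h1 := hx r ⟨hr, self_mem_cls A i r⟩
  have h2 := hx r' ⟨hr', (mem_cls A).2 hm⟩
  exact h (h1.trans h2.symm)

theorem lf_ne (i : A.ι) : lf (A.l i) ≠ 0 := by
  intro h
  exact l_ne A i ((lf_eq_zero_iff _).1 h)

theorem Q_dvd {f : MvPolynomial σ ℂ} (h : ∀ j, lf (A.l j) ∣ f) : A.Q ∣ f := by
  apply prod_lf_dvd Finset.univ A.l (fun j _ => l_ne A j) _ f (fun j _ => h j)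
  intro i _ j _ hij c
  exact l_not_smul A hij c

theorem Q_eq (i : A.ι) : A.Q = lf (A.l i) * A.q i :=
  (Finset.mul_prod_erase Finset.univ (fun j => lf (A.l j)) (Finset.mem_univ i)).symm

theorem not_dvd_q (i : A.ι) : ¬ lf (A.l i) ∣ A.q i := by
  intro h
  obtain ⟨j, hj, hd⟩ := (prime_lf (l_ne A i)).exists_mem_finset_dvd h
  have hji : j ≠ i := Finset.ne_of_mem_erase hj
  obtain ⟨c, hc⟩ := (lf_dvd_lf_iff (l_ne A i) _).1 hd
  exact l_not_smul A hji.symm c hc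

theorem Q_sq_dvd {f : MvPolynomial σ ℂ} (h : ∀ j, lf (A.l j) ^ 2 ∣ f) : A.Q ^ 2 ∣ f := by
  obtain ⟨g, rfl⟩ := Q_dvd A (f := f) fun j => (dvd_pow_self _ two_ne_zero).trans (h j)
  have hg : A.Q ∣ g := by
    refine Q_dvd A fun j => ?_
    have h1 := h j
    rw [Q_eq A j, pow_two, mul_assoc, mul_dvd_mul_iff_left (lf_ne A j)] at h1
    exact ((prime_lf (l_ne A j)).dvd_or_dvd h1).resolve_left (not_dvd_q A j)
  rw [pow_two]
  exact mul_dvd_mul_left _ hg

theorem mem_pow {m : ℕ} {f : MvPolynomial σ ℂ} (hf : f ∈ A.Js m) {i j : A.ι} (hij : i ≠ j) :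
    f ∈ (PF A.l i j) ^ m := by
  have h := hf
  simp only [Datum.Js, JFs, Submodule.mem_iInf] at h
  exact h i j hij

end NumAux

namespace Datum

open NumAux

theorem one_le_D {lam : ℂ} {D : ℕ} (hS : A.Scal lam D) (hn : 2 ≤ Fintype.card σ) : 1 ≤ D := by
  by_contra h
  have hD : D = 0 := by omega
  have h1 := hS.hN
  rw [hD, mul_zero, add_zero] at h1
  nlinarith

theorem num1 {lam : ℂ} {D : ℕ} (hS : A.Scal lam D) (hD : 1 ≤ D) {f : MvPolynomial σ ℂ} {d : ℕ}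
    (hf : f.IsHomogeneous d) (hd : d ≤ 4 * D) (h : f ∈ A.Js 5) : A.Q ^ 2 ∣ f := by
  refine Q_sq_dvd A fun i => ?_
  have hw : ∀ j ∈ A.rep i, ∀ c : ℂ, A.l j ≠ c • A.l i := fun j hj c =>
    l_not_smul A (rep_ne A hj).symm c
  have hpair : ∀ r ∈ A.rep i, ∀ r' ∈ A.rep i, r ≠ r' →
      A.l r' ∉ Submodule.span ℂ {A.l i, A.l r} := fun r hr r' hr' hne => rep_pair A hr hr' hne
  have h1 : lf (A.l i) ∣ f := by
    refine (restrict_dvd (A.la i) (A.rep i) A.l hw hpair hf 5 fun r hr => ?_).1 ?_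
    · exact pow_PF_le i r 5 (mem_pow A h (rep_ne A hr).symm)
    · rw [hS.hrep i]; omega
  obtain ⟨f1, rfl⟩ := h1
  rcases Nat.eq_zero_or_pos d with hd0 | hd0
  · have : lf (A.l i) * f1 = 0 :=
      eq_zero_of_dvd hf (isHomogeneous_lf (A.l i)) (dvd_mul_right _ _) (by omega)
    rw [this]
    exact dvd_zero _
  · have hf1 : f1.IsHomogeneous (d - 1) := by
      refine isHomogeneous_of_mul (isHomogeneous_lf (A.l i)) (lf_ne A i) ?_
      rwa [Nat.add_sub_cancel' hd0]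
    have h2 : lf (A.l i) ∣ f1 := by
      refine (restrict_dvd (A.la i) (A.rep i) A.l hw hpair hf1 4 fun r hr => ?_).1 ?_
      · refine pow_PF_le i r 4 ?_
        exact mul_mem_pow_left (A.li i r (rep_ne A hr).symm) 4 f1
          (mem_pow A h (rep_ne A hr).symm)
      · rw [hS.hrep i]; omega
    rw [pow_two]
    exact mul_dvd_mul_left _ h2

theorem special3 {lam : ℂ} {D : ℕ} (hS : A.Scal lam D) (hn : Fintype.card σ = 3)
    {f : MvPolynomial σ ℂ} {d : ℕ} (hf : f.IsHomogeneous d) (hd : d + 3 = 4 * D)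
    (h : f ∈ A.Js 5) : f = 0 := by
  have hN := hS.hN
  have hN2 := hS.hn
  rw [hn] at hN hN2
  have h1 := A.num1 hS (A.one_le_D hS (by omega)) hf (by omega) h
  refine eq_zero_of_dvd hf ((isHomogeneous_prod_lf Finset.univ A.l).pow 2) h1 ?_
  change d < A.N * 2
  omega

theorem special4 {lam : ℂ} {D : ℕ} (hS : A.Scal lam D) (hn : Fintype.card σ = 4)
    {f : MvPolynomial σ ℂ} {d : ℕ} (hf : f.IsHomogeneous d) (hd : d + 4 = 4 * D)
    (h : f ∈ A.Js 5) : f = 0 := by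
  have hN := hS.hN
  have hN2 := hS.hn
  rw [hn] at hN hN2
  have h1 := A.num1 hS (A.one_le_D hS (by omega)) hf (by omega) h
  have hdN : d = A.N * 2 := by omega
  have hQh : (A.Q ^ 2).IsHomogeneous (A.N * 2) := (isHomogeneous_prod_lf Finset.univ A.l).pow 2
  obtain ⟨c, hc⟩ := eq_C_mul_of_dvd (hdN ▸ hf) hQh h1
  by_cases hc0 : c = 0
  · rw [hc, hc0]; simp
  exfalso
  obtain ⟨i⟩ := hS.ne
  -- a flat in `H_i` of multiplicity two
  have hr : ∃ r ∈ A.rep i, (A.cls i r).card ≤ 2 := by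
    by_contra hno
    push Not at hno
    have h2 : ∑ r ∈ A.rep i, 2 ≤ ∑ r ∈ A.rep i, ((A.cls i r).card - 1) :=
      Finset.sum_le_sum fun r hr => by have := hno r hr; omega
    rw [A.sum_card_cls i, Finset.sum_const, hS.hrep i, smul_eq_mul] at h2
    omega
  obtain ⟨r, hr, hcard⟩ := hr
  have hri := rep_ne A hr
  have hcls : ∀ k, k ∈ A.cls i r → k = i ∨ k = r := by
    intro k hk
    have h3 : ({i, r} : Finset A.ι) = A.cls i r := by
      apply Finset.eq_of_subset_of_card_le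
      · intro x hx
        simp only [Finset.mem_insert, Finset.mem_singleton] at hx
        rcases hx with rfl | rfl
        · exact left_mem_cls A _ _
        · exact self_mem_cls A _ _
      · rw [Finset.card_pair hri.symm]; exact hcard
    rw [← h3] at hk
    simpa using hk
  have hli := A.li i r hri.symm
  have hprime := PF_prime hli
  set u : MvPolynomial σ ℂ := ∏ k ∈ (Finset.univ.erase i).erase r, lf (A.l k) with hu
  have hQu : A.Q = lf (A.l i) * (lf (A.l r) * u) := by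
    rw [Q_eq A i, hu, Datum.q,
      Finset.mul_prod_erase _ (fun k => lf (A.l k))
        (Finset.mem_erase.2 ⟨hri, Finset.mem_univ r⟩)]
  have hunot : u ∉ PF A.l i r := by
    intro hu'
    obtain ⟨k, hk, hk2⟩ := (hprime.prod_mem_iff).1 hu'
    have h4 := (lf_mem_PF_iff hli _).1 hk2
    have h5 := hcls k ((mem_cls A).2 h4)
    simp only [Finset.mem_erase, Finset.mem_univ, and_true] at hk
    rcases h5 with h5 | h5
    · exact hk.2 h5
    · exact hk.1 h5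
  have hQ5 : A.Q ^ 2 ∈ (PF A.l i r) ^ 5 := by
    have h6 : A.Q ^ 2 = C c⁻¹ * f := by
      rw [hc, ← mul_assoc, ← C_mul, inv_mul_cancel₀ hc0, C_1, one_mul]
    rw [h6]
    exact Ideal.mul_mem_left _ _ (mem_pow A h hri.symm)
  have e1 : A.Q ^ 2 = lf (A.l i) * (lf (A.l i) * (lf (A.l r) * (lf (A.l r) * u ^ 2))) := by
    rw [hQu]; ring
  rw [e1] at hQ5
  have h7 := mul_mem_pow_left hli 4 _ hQ5
  have h8 := mul_mem_pow_left hli 3 _ h7
  have h9 := mul_mem_pow_right hli 2 _ h8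
  have h10 := mul_mem_pow_right hli 1 _ h9
  rw [pow_one] at h10
  exact hunot (hprime.mem_of_pow_mem 2 h10)

end Datum

end Pool.Agent.Lib.P4a9818
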