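import Pool.Agent.Lib.P4a9818.Lin

/-!
# P4a9818.Socle : an element annihilated by the variables   (estimate 1.5 h)

`𝔠 = {a | a f ∈ I}` is an ideal whose zero set is contained in `{0}`, so by the Nullstellensatz
(`MvPolynomial.vanishingIdeal_zeroLocus_eq_radical`) every `X s` is in the radical of `𝔠`. So all
monomials of large degree are in `𝔠`. Choose a monomial `μ` of maximal degree with
`monomial μ 1 * f ∉ I` (`μ = 0` is one).
-/

namespace Pool.Agent.Lib.P4a9818

open MvPolynomial

theorem exists_socle {σ : Type} [Fintype σ] [DecidableEq σ] (I : Ideal (MvPolynomial σ ℂ))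
    (f : MvPolynomial σ ℂ) (hf : f ∉ I)
    (h : ∀ p : σ → ℂ, p ≠ 0 → ∃ a : MvPolynomial σ ℂ, eval p a ≠ 0 ∧ a * f ∈ I) :
    ∃ μ : σ →₀ ℕ, monomial μ (1 : ℂ) * f ∉ I ∧ ∀ s, X s * (monomial μ (1 : ℂ) * f) ∈ I := by
  let J : Ideal (MvPolynomial σ ℂ) :=
    { carrier := {a | a * f ∈ I}
      add_mem' := by
        intro a b ha hb
        change (a + b) * f ∈ I
        rw [add_mul]
        exact I.add_mem ha hb
      zero_mem' := by
        change 0 * f ∈ I
        rw [zero_mul]
        exact I.zero_mem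
      smul_mem' := by
        intro c a ha
        change c * a * f ∈ I
        rw [mul_assoc]
        exact I.mul_mem_left _ ha }
  have hJ : ∀ a, a ∈ J ↔ a * f ∈ I := fun a => Iff.rfl
  have hrad : ∀ s, X s ∈ J.radical := by
    intro s
    rw [← vanishingIdeal_zeroLocus_eq_radical (K := ℂ)]
    rw [mem_vanishingIdeal_iff]
    intro p hp
    by_cases hp0 : p = 0
    · rw [hp0]
      simp
    · obtain ⟨a, ha, haf⟩ := h p hp0
      rw [mem_zeroLocus_iff] at hp
      have h1 := hp a haf
      exact absurd (by simpa using h1) ha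
  choose N hN using hrad
  have hsub : {μ : σ →₀ ℕ | monomial μ (1 : ℂ) * f ∉ I} ⊆
      Set.Iic (Finsupp.equivFunOnFinite.symm N) := by
    intro μ hμ
    rw [Set.mem_Iic]
    intro s
    by_contra hs
    push Not at hs
    apply hμ
    have hs' : N s ≤ μ s := by
      have : (Finsupp.equivFunOnFinite.symm N) s = N s := rfl
      omega
    have h1 : (monomial μ (1 : ℂ) : MvPolynomial σ ℂ) =
        monomial (μ - Finsupp.single s (N s)) 1 * X s ^ N s := by
      rw [X_pow_eq_monomial, monomial_mul, one_mul, tsub_add_cancel_of_le]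
      rwa [Finsupp.single_le_iff]
    rw [h1, mul_assoc]
    exact I.mul_mem_left _ (hN s)
  have hfin : {μ : σ →₀ ℕ | monomial μ (1 : ℂ) * f ∉ I}.Finite :=
    (Set.finite_Iic _).subset hsub
  have hne : {μ : σ →₀ ℕ | monomial μ (1 : ℂ) * f ∉ I}.Nonempty := by
    refine ⟨0, ?_⟩
    change monomial 0 (1 : ℂ) * f ∉ I
    rwa [monomial_zero', C_1, one_mul]
  obtain ⟨μ, hμ, hmax⟩ := Set.exists_max_image _ (fun μ : σ →₀ ℕ => μ.degree) hfin hne
  refine ⟨μ, hμ, fun s => ?_⟩
  by_contra hs
  have h1 : X s * (monomial μ (1 : ℂ) * f) = monomial (μ + Finsupp.single s 1) (1 : ℂ) * f := by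
    rw [← mul_assoc]
    congr 1
    rw [X, monomial_mul, one_mul, add_comm]
  rw [h1] at hs
  have h2 := hmax _ hs
  rw [map_add, Finsupp.degree_single] at h2
  omega

end Pool.Agent.Lib.P4a9818
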