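import Pool.Agent.Lib.P4a9818.LGen
import Pool.Agent.Lib.P4a9818.Num
import Pool.Agent.Lib.P4a9818.HClaim
import Pool.Agent.Lib.P4a9818.Socle

/-!
# P4a9818.MT : the main step (scalar `T`, at least three variables)   (estimate 2 h)

Let `Fb` be from `JD.exists_basis`; `J = (Fb)` (`J_eq`); `Pres`, `LocGen` from `LGen`.
`Str`: `rkF A.l = card σ` (`span_l`), generators `Fb`.
`Cont`: it suffices to treat homogeneous `f ∈ J^(5)` (`homogeneousComponent_mem_JFs`). Suppose
`f ∉ J³`.
1. For every `p ≠ 0` there is `h` with `eval p h ≠ 0` and `h f ∈ J³`: let `A'` be the arrangement at `p`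
   (`exists_loc`); `f ∈ J(A')^(5) ≤ J(A')³` (`Js_le`, `IH1`), and with `h0 = ∏_{l j ⬝ p ≠ 0} ℓ_j`
   (`exists_h`): `h0 J(A') ≤ J`, so `h0³ f ∈ J³`. (`J(A')³` is generated by products of three
   elements: e.g. `(span {h0} * J(A'))^3 ≤ J^3`.)
2. By `Socle.exists_socle` there is a monomial `X^μ` such that `f' = X^μ f ∉ J³` and `X s f' ∈ J³` for
   all `s`; `f'` is homogeneous of degree `d'`, `f' ∈ J^(5)`.
3. If `card σ = 3 ∧ d' + 3 = 4 D` or `card σ = 4 ∧ d' + 4 = 4 D` then `f' = 0` by `special3`, `special4`;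
   otherwise `f' ∈ J³` by `hclaim` (`κ = σ`). Contradiction in both cases.
-/

namespace Pool.Agent.Lib.P4a9818

open MvPolynomial Matrix

variable {σ : Type} [Fintype σ] [DecidableEq σ] (A : Datum σ)

namespace Datum

theorem mt {lam : ℂ} {D : ℕ} (hS : A.Scal lam D) (hn : 3 ≤ Fintype.card σ)
    (IH1 : ∀ (p : σ → ℂ) (A' : Datum σ) (e : A'.ι → A.ι), p ≠ 0 → A.IsLoc A' p e → Cont A'.l)
    (IH2 : ∀ (p : σ → ℂ) (A' : Datum σ) (e : A'.ι → A.ι), p ≠ 0 → A.IsLoc A' p e → Str A'.l) :
    Cont A.l ∧ Str A.l := by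
  obtain ⟨Fb, hF⟩ := A.exists_basis hS
  have hJ : A.J = Ideal.span (Set.range Fb) := A.J_eq hS hF
  have hJ' : JF A.l = Ideal.span (Set.range Fb) := hJ
  obtain ⟨m, Φ, b, hP⟩ := A.exists_pres hS hF
  have hL : LocGen Fb := A.locGen hS hn hF IH2
  have hrk : rkF A.l = Fintype.card σ := by
    unfold rkF
    rw [A.span_l hS, finrank_top, Module.finrank_fintype_fun_eq_card]
  refine ⟨?_, ?_⟩
  · -- the containment
    have hom : ∀ (d : ℕ) (f : MvPolynomial σ ℂ), f.IsHomogeneous d → f ∈ JFs A.l 5 →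
        f ∈ (JF A.l) ^ 3 := by
      intro d f hfd hf5
      by_contra hf3
      have hloc : ∀ p : σ → ℂ, p ≠ 0 →
          ∃ a : MvPolynomial σ ℂ, eval p a ≠ 0 ∧ a * f ∈ (JF A.l) ^ 3 := by
        intro p hp
        obtain ⟨A', e, he⟩ := A.exists_loc p
        classical
        have hex := he.exists_h
        set h0 : MvPolynomial σ ℂ :=
          ∏ j ∈ Finset.univ.filter (fun j => A.l j ⬝ᵥ p ≠ 0), lf (A.l j) with hh0
        have hex' : ∀ f ∈ A'.J, h0 * f ∈ A.J := by
          intro f hf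
          have := hex f hf
          convert this using 3
        refine ⟨h0 ^ 3, ?_, ?_⟩
        · rw [map_pow]
          apply pow_ne_zero
          rw [hh0, map_prod, Finset.prod_ne_zero_iff]
          intro j hj
          rw [eval_lf]
          exact (Finset.mem_filter.1 hj).2
        · have h1 : f ∈ (JF A'.l) ^ 3 := IH1 p A' e hp he (he.Js_le 5 hf5)
          have h2 : Ideal.span {h0} * JF A'.l ≤ JF A.l := by
            rw [Ideal.span_singleton_mul_le_iff]
            intro g hg
            exact hex' g hg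
          have h3 : (Ideal.span {h0} * JF A'.l) ^ 3 ≤ (JF A.l) ^ 3 := Ideal.pow_right_mono h2 3
          apply h3
          rw [mul_pow, Ideal.span_singleton_pow]
          exact Ideal.mul_mem_mul (Ideal.mem_span_singleton_self _) h1
      obtain ⟨μ, hμ1, hμ2⟩ := exists_socle ((JF A.l) ^ 3) f hf3 hloc
      set f' : MvPolynomial σ ℂ := monomial μ (1 : ℂ) * f with hf'
      have hf'd : f'.IsHomogeneous (μ.degree + d) := by
        apply IsHomogeneous.mul _ hfd
        exact isHomogeneous_monomial _ rfl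
      have hf'5 : f' ∈ A.Js 5 := Ideal.mul_mem_left _ _ hf5
      by_cases c3 : Fintype.card σ = 3 ∧ (μ.degree + d) + 3 = 4 * D
      · have := A.special3 hS c3.1 hf'd c3.2 hf'5
        rw [this] at hμ1
        exact hμ1 (Ideal.zero_mem _)
      by_cases c4 : Fintype.card σ = 4 ∧ (μ.degree + d) + 4 = 4 * D
      · have := A.special4 hS c4.1 hf'd c4.2 hf'5
        rw [this] at hμ1
        exact hμ1 (Ideal.zero_mem _)
      apply hμ1
      rw [hJ'] at hμ2 ⊢
      exact hclaim hP hL rfl hn hf'd hμ2 c3 c4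
    intro f hf
    rw [← MvPolynomial.sum_homogeneousComponent f]
    refine Ideal.sum_mem _ fun d _ => hom d _ (homogeneousComponent_isHomogeneous d f) ?_
    exact homogeneousComponent_mem_JFs A.l 5 d hf
  · -- the generators
    have hc : Fintype.card (Fin (max 1 (rkF A.l))) = Fintype.card σ := by
      rw [Fintype.card_fin, hrk]
      omega
    let ε := Fintype.equivOfCardEq hc
    refine ⟨fun t => Fb (ε t), ?_⟩
    rw [hJ']
    congr 1
    ext x
    constructor
    · rintro ⟨s, rfl⟩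
      exact ⟨ε.symm s, by simp⟩
    · rintro ⟨t, rfl⟩
      exact ⟨ε t, rfl⟩

end Datum

end Pool.Agent.Lib.P4a9818
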