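import Pool.Agent.Lib.P4a9818.DecC
import Pool.Agent.Lib.P4a9818.MT

/-!
# P4a9818.Induct : the containment for all data   (estimate 2 h)

* `small`: `card σ ≤ 2`. If there are `i ≠ j` then `card σ = 2`, and every `PF l i j` with `i ≠ j` is the
  ideal `𝔪 = (X s)` (the linear forms `ℓ_i, ℓ_j` span all linear forms), so `J = 𝔪`, `J^(5) = 𝔪⁵ ≤ 𝔪³`,
  `rkF = 2`, two generators. Otherwise `J = ⊤ = J^(5)`, generated by `1` (take `h = fun _ => 1`;
  `max 1 _ ≥ 1`).
* `all`: strong induction on `card σ + card ι` (over all `σ`, `A`; `Type`-valued: quantify over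
  `σ : Type` inside the induction statement).
  - `card σ ≤ 2`: `small`.
  - `T` not scalar: `split_step`.
  - `T = λ`, `ι` empty: `J = ⊤ = J^(5)`, `rkF = 0`.
  - `T = λ`, `ι` nonempty, `card σ ≥ 3`: `scal_exists`, `mt`; for `p ≠ 0` and `A.IsLoc A' p e`: since the
    `l j` span `σ → ℂ` (`LGen.span_l`) some `l j ⬝ p ≠ 0`, so `card A'.ι < card A.ι` (`IsLoc.card_lt`).
-/

namespace Pool.Agent.Lib.P4a9818

open MvPolynomial Matrix

namespace InductAux

variable {σ : Type} [Fintype σ] [DecidableEq σ]

theorem triv {ι : Type} (l : ι → σ → ℂ) (h : ∀ i j : ι, i = j) : Cont l ∧ Str l := by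
  have h5 : JFs l 5 = ⊤ := by
    unfold JFs
    simp only [iInf_eq_top]
    intro i j hij
    exact absurd (h i j) hij
  have h1 : JF l = ⊤ := by
    unfold JF
    simp only [iInf_eq_top]
    intro i j hij
    exact absurd (h i j) hij
  refine ⟨?_, ?_⟩
  · unfold Cont
    rw [h1, h5, Ideal.top_pow]
  · refine ⟨fun _ => 1, ?_⟩
    rw [h1]
    symm
    rw [Ideal.eq_top_iff_one]
    exact Ideal.subset_span ⟨⟨0, by omega⟩, rfl⟩

theorem PF_eq {ι : Type} (l : ι → σ → ℂ) (h2 : Fintype.card σ = 2) {i j : ι}
    (hij : LinearIndependent ℂ ![l i, l j]) :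
    PF l i j = Ideal.span (Set.range (X : σ → MvPolynomial σ ℂ)) := by
  have hspan : Submodule.span ℂ (Set.range ![l i, l j]) = ⊤ := by
    apply hij.span_eq_top_of_card_eq_finrank
    simp [h2]
  rw [Matrix.range_cons, Matrix.range_cons, Matrix.range_empty, Set.union_empty,
    Set.singleton_union] at hspan
  apply le_antisymm
  · unfold PF
    rw [Ideal.span_le]
    have key : ∀ v : σ → ℂ, lf v ∈ Ideal.span (Set.range (X : σ → MvPolynomial σ ℂ)) := by
      intro v
      unfold lf
      exact Ideal.sum_mem _ fun k _ => Ideal.mul_mem_left _ _ (Ideal.subset_span ⟨k, rfl⟩)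
    rintro x (rfl | rfl)
    · exact key _
    · exact key _
  · rw [Ideal.span_le]
    rintro x ⟨s, rfl⟩
    have hs : (Pi.single s (1 : ℂ) : σ → ℂ) ∈ Submodule.span ℂ {l i, l j} := by
      rw [hspan]; trivial
    have := (lf_mem_PF_iff hij (Pi.single s (1 : ℂ))).2 hs
    rwa [lf_single] at this

end InductAux

namespace Datum

theorem small {σ : Type} [Fintype σ] [DecidableEq σ] (A : Datum σ) (h : Fintype.card σ ≤ 2) :
    Cont A.l ∧ Str A.l := by
  by_cases hall : ∀ i j : A.ι, i = j
  · exact InductAux.triv A.l hall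
  push Not at hall
  obtain ⟨i0, j0, hij0⟩ := hall
  have hli := A.li i0 j0 hij0
  have h2 : Fintype.card σ = 2 := by
    have := hli.fintype_card_le_finrank
    simp at this
    omega
  have hJs : ∀ m, JFs A.l m = (Ideal.span (Set.range (X : σ → MvPolynomial σ ℂ))) ^ m := by
    intro m
    unfold JFs
    apply le_antisymm
    · refine (iInf_le _ i0).trans ((iInf_le _ j0).trans ((iInf_le _ hij0).trans ?_))
      rw [InductAux.PF_eq A.l h2 hli]
    · refine le_iInf fun i => le_iInf fun j => le_iInf fun hij => ?_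
      rw [InductAux.PF_eq A.l h2 (A.li i j hij)]
  have hJ : JF A.l = Ideal.span (Set.range (X : σ → MvPolynomial σ ℂ)) := by
    have h1 : JF A.l = JFs A.l 1 := by
      unfold JFs JF
      simp only [pow_one]
    rw [h1, hJs 1, pow_one]
  have hrk : rkF A.l = 2 := by
    unfold rkF
    have htop : Submodule.span ℂ (Set.range A.l) = ⊤ := by
      rw [eq_top_iff]
      have hspan : Submodule.span ℂ (Set.range ![A.l i0, A.l j0]) = ⊤ := by
        apply hli.span_eq_top_of_card_eq_finrank
        simp [h2]
      rw [← hspan]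
      apply Submodule.span_mono
      rw [Matrix.range_cons, Matrix.range_cons, Matrix.range_empty, Set.union_empty,
        Set.singleton_union]
      rintro x (rfl | rfl)
      · exact ⟨i0, rfl⟩
      · exact ⟨j0, rfl⟩
    rw [htop, finrank_top, Module.finrank_fintype_fun_eq_card, h2]
  refine ⟨?_, ?_⟩
  · unfold Cont
    rw [hJs 5, hJ]
    exact Ideal.pow_le_pow_right (by norm_num)
  · have hc : Fintype.card (Fin (max 1 (rkF A.l))) = Fintype.card σ := by
      rw [Fintype.card_fin, hrk, h2]
      rfl
    let ε := Fintype.equivOfCardEq hc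
    refine ⟨fun t => X (ε t), ?_⟩
    rw [hJ]
    congr 1
    ext x
    constructor
    · rintro ⟨s, rfl⟩
      exact ⟨ε.symm s, by simp⟩
    · rintro ⟨t, rfl⟩
      exact ⟨ε t, rfl⟩

theorem all {σ : Type} [Fintype σ] [DecidableEq σ] (A : Datum σ) : Cont A.l ∧ Str A.l := by
  have key : ∀ (N : ℕ) (σ : Type) [Fintype σ] [DecidableEq σ] (A : Datum σ),
      Fintype.card σ + Fintype.card A.ι ≤ N → Cont A.l ∧ Str A.l := by
    intro N
    induction N with
    | zero =>
      intro σ _ _ A hN
      exact A.small (by omega)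
    | succ N ih =>
      intro σ _ _ A hN
      by_cases hs : Fintype.card σ ≤ 2
      · exact A.small hs
      push Not at hs
      by_cases hT : ∀ lam : ℂ, A.T ≠ lam • 1
      · refine A.split_step hT ?_
        intro n' A' h1 h2
        refine ih (Fin n') A' ?_
        rw [Fintype.card_fin]
        omega
      push Not at hT
      obtain ⟨lam, hlam⟩ := hT
      rcases isEmpty_or_nonempty A.ι with hE | hE
      · exact InductAux.triv A.l fun i => (hE.false i).elim
      obtain ⟨D, hS⟩ := A.scal_exists hlam hE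
      have hp : ∀ p : σ → ℂ, p ≠ 0 → ∃ j, A.l j ⬝ᵥ p ≠ 0 := by
        intro p hp0
        by_contra hcon
        push Not at hcon
        apply hp0
        rw [← dotProduct_eq_zero_iff]
        intro w
        have hw : w ∈ Submodule.span ℂ (Set.range A.l) := by
          rw [A.span_l hS]; trivial
        rw [dotProduct_comm]
        induction hw using Submodule.span_induction with
        | mem x hx =>
          obtain ⟨j, rfl⟩ := hx
          exact hcon j
        | zero => simp
        | add x y _ _ hx hy => rw [add_dotProduct, hx, hy, add_zero]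
        | smul c x _ hx => rw [smul_dotProduct, hx, smul_zero]
      have hIH : ∀ (p : σ → ℂ) (A' : Datum σ) (e : A'.ι → A.ι), p ≠ 0 → A.IsLoc A' p e →
          Cont A'.l ∧ Str A'.l := by
        intro p A' e hp0 hloc
        refine ih σ A' ?_
        have := hloc.card_lt (hp p hp0)
        omega
      exact A.mt hS hs (fun p A' e h1 h2 => (hIH p A' e h1 h2).1)
        (fun p A' e h1 h2 => (hIH p A' e h1 h2).2)
  exact key _ σ A le_rfl

end Datum

end Pool.Agent.Lib.P4a9818
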