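import Pool.Agent.Lib.P4a9818.FGb
import Pool.Agent.Lib.P4a9818.Induct

/-!
# P4a9818.Final : the containment for a finite group   (estimate 1 h)

`A`, `e` from `exists_datum`; `Induct.all` gives `Cont A.l`, i.e. `JFs A.l 5 ≤ (JF A.l)^3`. For each
`i`, `ℓ (e i)` and `A.l i` have the same kernel, so `ℓ (e i) = c • A.l i`, `c ≠ 0` (linear algebra; both
are nonzero because a mirror is not the whole space; or: `lf_dvd_iff` and degrees), and the ideals
`span {lf (ℓ H), lf (ℓ H')}` and `PF A.l i j` agree. Reindex the infima by `e`.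
-/

namespace Pool.Agent.Lib.P4a9818

open MvPolynomial Matrix

/-- The `m`-th symbolic power of the ideal of the singular locus of the arrangement of the mirrors
of `G`; `ℓ H` is (the coefficient vector of) a linear form with kernel `H`. -/
noncomputable def symbPow {n : ℕ} (G : Subgroup (GL (Fin n) ℂ))
    (ℓ : Submodule ℂ (Fin n → ℂ) → (Fin n → ℂ)) (m : ℕ) : Ideal (MvPolynomial (Fin n) ℂ) :=
  ⨅ H ∈ mirrors G, ⨅ H' ∈ mirrors G, ⨅ (_ : H ≠ H'), (Ideal.span {lf (ℓ H), lf (ℓ H')}) ^ m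

namespace FinalAux

theorem lf_prop {n : ℕ} {v w : Fin n → ℂ} (hw : w ≠ 0) (h : ∀ p, v ⬝ᵥ p = 0 → w ⬝ᵥ p = 0) :
    ∃ c : ℂ, c ≠ 0 ∧ w = c • v := by
  have hv : v ≠ 0 := by
    rintro rfl
    apply hw
    rw [← dotProduct_eq_zero_iff]
    intro p
    exact h p (zero_dotProduct p)
  have h1 : lf v ∣ lf w := by
    rw [lf_dvd_iff hv]
    intro p hp
    rw [eval_lf]
    exact h p hp
  obtain ⟨c, hc⟩ := (lf_dvd_lf_iff hv w).1 h1
  refine ⟨c, ?_, hc⟩
  rintro rfl
  exact hw (by simpa using hc)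

theorem span_congr {n : ℕ} {v w v' w' : Fin n → ℂ} {c d : ℂ} (hc : c ≠ 0) (hd : d ≠ 0)
    (hv : v' = c • v) (hw : w' = d • w) :
    Ideal.span {lf v', lf w'} = Ideal.span {lf v, lf w} := by
  subst hv hw
  rw [lf_smul, lf_smul]
  rw [Ideal.span_insert, Ideal.span_insert, Ideal.span_singleton_mul_left_unit,
    Ideal.span_singleton_mul_left_unit]
  · exact (isUnit_iff_ne_zero.2 hd).map C
  · exact (isUnit_iff_ne_zero.2 hc).map C

end FinalAux

theorem final {n : ℕ} (G : Subgroup (GL (Fin n) ℂ)) [Finite G]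
    (ℓ : Submodule ℂ (Fin n → ℂ) → (Fin n → ℂ))
    (hℓ : ∀ H ∈ mirrors G, ∀ v, v ∈ H ↔ ℓ H ⬝ᵥ v = 0) :
    symbPow G ℓ 5 ≤ (symbPow G ℓ 1) ^ 3 := by
  obtain ⟨A, e, he⟩ := exists_datum G
  have hprop : ∀ i, ∃ c : ℂ, c ≠ 0 ∧ ℓ (e i : Submodule ℂ (Fin n → ℂ)) = c • A.l i := by
    intro i
    have hH : (e i : Submodule ℂ (Fin n → ℂ)) ∈ mirrors G := (e i).2
    obtain ⟨c, hc, hc'⟩ := FinalAux.lf_prop (v := ℓ (e i : Submodule ℂ (Fin n → ℂ)))
      (w := A.l i) (A.l_ne_zero i) (fun p hp => (he i p).1 ((hℓ _ hH p).2 hp))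
    refine ⟨c⁻¹, inv_ne_zero hc, ?_⟩
    rw [hc', smul_smul, inv_mul_cancel₀ hc, one_smul]
  have key : ∀ m, symbPow G ℓ m = JFs A.l m := by
    intro m
    unfold symbPow JFs
    apply le_antisymm
    · refine le_iInf fun i => le_iInf fun j => le_iInf fun hij => ?_
      obtain ⟨c, hc, hc'⟩ := hprop i
      obtain ⟨d, hd, hd'⟩ := hprop j
      refine (iInf₂_le (e i : Submodule ℂ (Fin n → ℂ)) (e i).2).trans ?_
      refine (iInf₂_le (e j : Submodule ℂ (Fin n → ℂ)) (e j).2).trans ?_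
      refine (iInf_le _ ?_).trans ?_
      · intro h
        exact hij (e.injective (Subtype.ext h))
      · rw [FinalAux.span_congr hc hd hc' hd']
        exact le_refl _
    · refine le_iInf fun H => le_iInf fun hH => le_iInf fun H' => le_iInf fun hH' =>
        le_iInf fun hne => ?_
      obtain ⟨i, hi⟩ := e.surjective ⟨H, hH⟩
      obtain ⟨j, hj⟩ := e.surjective ⟨H', hH'⟩
      have hi' : (e i : Submodule ℂ (Fin n → ℂ)) = H := by rw [hi]
      have hj' : (e j : Submodule ℂ (Fin n → ℂ)) = H' := by rw [hj]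
      obtain ⟨c, hc, hc'⟩ := hprop i
      obtain ⟨d, hd, hd'⟩ := hprop j
      rw [hi'] at hc'
      rw [hj'] at hd'
      have hij : i ≠ j := by
        rintro rfl
        exact hne (hi'.symm.trans hj')
      refine (iInf_le _ i).trans ((iInf_le _ j).trans ((iInf_le _ hij).trans ?_))
      rw [FinalAux.span_congr hc hd hc' hd']
      exact le_refl _
  have h1 : JFs A.l 1 = JF A.l := by
    unfold JFs JF
    simp only [pow_one]
  rw [key 5, key 1, h1]
  exact A.all.1

end Pool.Agent.Lib.P4a9818
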