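import Pool.Agent.Lib.P4a9818.Sums
import Pool.Agent.Lib.P4a9818.LinH

/-!
# P4a9818.Flat : flatness of the connection (polynomial identity)   (estimate 1.5 h)

`Fl a b r s = ∑_j ∑_{k≠j} (l j ⬝ a)(l k ⬝ b) [P j, P k]_{rs} ∏_{m≠j,k} lf (l m) = 0`.

Proof. If `N ≤ 1` the sum is empty. `Fl` is homogeneous of degree `N - 2`. Let `p` be generic on
`H_i`. In `eval p` only the summands with `j = i` or `k = i` survive, and (with
`∏_{m≠i,k} (l m ⬝ p) = q_i(p) / (l k ⬝ p)`)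
`eval p Fl = q_i(p) ∑_{k≠i} ((l i ⬝ a)(l k ⬝ b) - (l k ⬝ a)(l i ⬝ b)) / (l k ⬝ p) [P i, P k]_{rs}
 = q_i(p) ∑_{k≠i} (l k ⬝ w)/(l k ⬝ p) [P i, P k]_{rs}`, `w = (l i ⬝ a) b - (l i ⬝ b) a ∈ H_i`,
which is `0` by `K0`. By `lf_dvd_of_generic` every `lf (l i)` divides `Fl`, so `Q ∣ Fl`
(`prod_lf_dvd`), and `Fl = 0` by degree (`eq_zero_of_dvd`).
-/

namespace Pool.Agent.Lib.P4a9818

open MvPolynomial Matrix

variable {σ : Type} [Fintype σ] [DecidableEq σ] (A : Datum σ)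

namespace Datum

namespace FlatAux

/-- Evaluation at a generic point: only the pairs with `j = i` or `k = i` survive. -/
lemma eval_sum {ι : Type} [Fintype ι] [DecidableEq ι] (i : ι) (y : ι → ℂ) (hy : y i = 0)
    (hy' : ∀ j, j ≠ i → y j ≠ 0) (c : ι → ι → ℂ) :
    ∑ j, ∑ k ∈ Finset.univ.erase j, c j k * ∏ m ∈ (Finset.univ.erase j).erase k, y m
      = (∏ m ∈ Finset.univ.erase i, y m) *
        ∑ k ∈ Finset.univ.erase i, (c i k + c k i) / y k := by
  have hq : ∀ k, k ≠ i → ∏ m ∈ (Finset.univ.erase i).erase k, y m =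
      (∏ m ∈ Finset.univ.erase i, y m) / y k := by
    intro k hk
    rw [← Finset.mul_prod_erase (Finset.univ.erase i) y (Finset.mem_erase.2 ⟨hk, Finset.mem_univ k⟩)]
    rw [mul_div_cancel_left₀ _ (hy' k hk)]
  rw [← Finset.add_sum_erase Finset.univ _ (Finset.mem_univ i)]
  have h1 : ∑ k ∈ Finset.univ.erase i, c i k * ∏ m ∈ (Finset.univ.erase i).erase k, y m
      = (∏ m ∈ Finset.univ.erase i, y m) * ∑ k ∈ Finset.univ.erase i, c i k / y k := by
    rw [Finset.mul_sum]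
    refine Finset.sum_congr rfl fun k hk => ?_
    rw [hq k (Finset.ne_of_mem_erase hk)]
    ring
  have h2 : ∑ j ∈ Finset.univ.erase i, ∑ k ∈ Finset.univ.erase j,
      c j k * ∏ m ∈ (Finset.univ.erase j).erase k, y m
      = (∏ m ∈ Finset.univ.erase i, y m) * ∑ k ∈ Finset.univ.erase i, c k i / y k := by
    rw [Finset.mul_sum]
    refine Finset.sum_congr rfl fun j hj => ?_
    have hji : j ≠ i := Finset.ne_of_mem_erase hj
    rw [Finset.sum_eq_single i]
    · rw [Finset.erase_right_comm, hq j hji]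
      ring
    · intro k _ hki
      rw [Finset.prod_eq_zero (i := i) ?_ hy, mul_zero]
      exact Finset.mem_erase.2 ⟨hki.symm, Finset.mem_erase.2 ⟨hji.symm, Finset.mem_univ i⟩⟩
    · intro h
      exact absurd (Finset.mem_erase.2 ⟨hji.symm, Finset.mem_univ i⟩) h
  rw [h1, h2, ← mul_add, ← Finset.sum_add_distrib]
  congr 1
  refine Finset.sum_congr rfl fun k _ => ?_
  rw [add_div]

lemma l_ne_zero (i : A.ι) : A.l i ≠ 0 := by
  intro h
  have h1 := A.la i
  rw [h, zero_dotProduct] at h1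
  exact zero_ne_one h1

lemma l_ne_smul {i j : A.ι} (h : i ≠ j) (c : ℂ) : A.l j ≠ c • A.l i := by
  intro h1
  have h2 := A.li i j h
  rw [LinearIndependent.pair_iff] at h2
  have h3 := h2 c (-1) (by rw [h1]; simp)
  have h4 := h3.2
  norm_num at h4

end FlatAux

open FlatAux in
theorem flat_poly (a b : σ → ℂ) (r s : σ) :
    ∑ j, ∑ k ∈ Finset.univ.erase j,
      C ((A.l j ⬝ᵥ a) * (A.l k ⬝ᵥ b) * (A.P j * A.P k - A.P k * A.P j) r s) *
        ∏ m ∈ (Finset.univ.erase j).erase k, lf (A.l m) = 0 := by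
  set F : MvPolynomial σ ℂ := ∑ j, ∑ k ∈ Finset.univ.erase j,
      C ((A.l j ⬝ᵥ a) * (A.l k ⬝ᵥ b) * (A.P j * A.P k - A.P k * A.P j) r s) *
        ∏ m ∈ (Finset.univ.erase j).erase k, lf (A.l m) with hF
  by_cases hN : Fintype.card A.ι = 0
  · haveI : IsEmpty A.ι := Fintype.card_eq_zero_iff.1 hN
    rw [hF]
    simp
  have hhom : F.IsHomogeneous (Fintype.card A.ι - 2) := by
    refine IsHomogeneous.sum _ _ _ fun j _ => IsHomogeneous.sum _ _ _ fun k hk => ?_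
    have h1 : ((Finset.univ.erase j).erase k).card = Fintype.card A.ι - 2 := by
      rw [Finset.card_erase_of_mem hk, Finset.card_erase_of_mem (Finset.mem_univ j),
        Finset.card_univ]
      omega
    have h2 := isHomogeneous_prod_lf ((Finset.univ.erase j).erase k) A.l
    rw [h1] at h2
    have h3 := (isHomogeneous_C σ ((A.l j ⬝ᵥ a) * (A.l k ⬝ᵥ b) *
      (A.P j * A.P k - A.P k * A.P j) r s)).mul h2
    rwa [zero_add] at h3
  have hQ : (∏ j, lf (A.l j)).IsHomogeneous (Fintype.card A.ι) := by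
    have h := isHomogeneous_prod_lf (Finset.univ : Finset A.ι) A.l
    rwa [Finset.card_univ] at h
  refine eq_zero_of_dvd hhom hQ ?_ (by omega)
  refine prod_lf_dvd Finset.univ A.l (fun j _ => l_ne_zero A j)
    (fun i _ j _ hij c => l_ne_smul A hij c) F fun i _ => ?_
  refine lf_dvd_of_generic (l_ne_zero A i) (Finset.univ.erase i) A.l
    (fun j hj c => l_ne_smul A (Finset.ne_of_mem_erase hj).symm c) F fun p hp hj => ?_
  have hgen : A.Gen i p := ⟨hp, fun j hji => hj j (Finset.mem_erase.2 ⟨hji, Finset.mem_univ j⟩)⟩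
  have h1 : eval p F = ∑ j, ∑ k ∈ Finset.univ.erase j,
      ((A.l j ⬝ᵥ a) * (A.l k ⬝ᵥ b) * (A.P j * A.P k - A.P k * A.P j) r s) *
        ∏ m ∈ (Finset.univ.erase j).erase k, (A.l m ⬝ᵥ p) := by
    rw [hF]
    simp only [map_sum, map_mul, map_prod, eval_C, eval_lf]
  rw [h1, eval_sum i (fun m => A.l m ⬝ᵥ p) hp hgen.2 fun j k =>
    (A.l j ⬝ᵥ a) * (A.l k ⬝ᵥ b) * (A.P j * A.P k - A.P k * A.P j) r s]
  set w : σ → ℂ := (A.l i ⬝ᵥ a) • b - (A.l i ⬝ᵥ b) • a with hw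
  have hw0 : A.l i ⬝ᵥ w = 0 := by
    rw [hw, dotProduct_sub, dotProduct_smul, dotProduct_smul, smul_eq_mul, smul_eq_mul]
    ring
  have h2 := congrFun (congrFun (A.K0 i hgen hw0) r) s
  rw [Matrix.sum_apply] at h2
  have h3 : ∑ k ∈ Finset.univ.erase i,
      ((A.l i ⬝ᵥ a) * (A.l k ⬝ᵥ b) * (A.P i * A.P k - A.P k * A.P i) r s +
        (A.l k ⬝ᵥ a) * (A.l i ⬝ᵥ b) * (A.P k * A.P i - A.P i * A.P k) r s) / (A.l k ⬝ᵥ p) = 0 := by
    rw [Matrix.zero_apply] at h2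
    rw [← h2]
    refine Finset.sum_congr rfl fun k _ => ?_
    rw [Matrix.smul_apply, Matrix.sub_apply, Matrix.sub_apply, hw, dotProduct_sub,
      dotProduct_smul, dotProduct_smul, smul_eq_mul, smul_eq_mul, smul_eq_mul]
    ring
  rw [h3, mul_zero]

end Datum

end Pool.Agent.Lib.P4a9818
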