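import Pool.Agent.Lib.P4a9818.Flat

/-!
# P4a9818.Flat2 : flatness at a generic point of `H_i`   (estimate 1.5 h)

Write `α = a i`, `Ω(w) = ∑_{k≠i} ((l k ⬝ w)/(l k ⬝ p)) P k` (matrix).

`flat_at`: take `a := c` (with `l i ⬝ c = 0`) and `b := α` in `Flat.flat_poly`, apply `dd α` and
evaluate at `p ∈ H_i` generic. The summands with `j = i` have coefficient `l i ⬝ c = 0`. The
summands with `k = i`, `j ≠ i` give (`l i ⬝ α = 1`)
`(l j ⬝ c) [P j, P i] ∂_α(∏_{m≠i,j} ℓ_m)(p) = q_i(p) ((l j ⬝ c)/(l j ⬝ p)) (S - (l j ⬝ α)/(l j ⬝ p))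
[P j, P i]`, `S = ∑_{m≠i} (l m ⬝ α)/(l m ⬝ p)`. The summands with `j, k ≠ i` contain the factor
`ℓ_i` and give `q_i(p) (l j ⬝ c)(l k ⬝ α)/((l j ⬝ p)(l k ⬝ p)) [P j, P k]`. The part with `S`
vanishes by `K0`. Divide by `q_i(p) ≠ 0`; the terms `j = k` may be added since `[P j, P j] = 0`.

`K2`: multiply `flat_at` by `l i` on the left and by `b ∈ H_i` on the right.
`K0` says that `Ω(c)` commutes with `P i`, so `l i Ω(c) = (l i Ω(c) α) l i = (ω(c)/2) l i`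
(`ω = om i p`), `l i ⬝ (Ω(c) b) = 0`; and `l i Ω(α) w = ∑ t i k (l k ⬝ w)/(l k ⬝ p) = ω(w)/2` for
every `w`. So the left side is `ω(c) ω(b)/4 - ω(Ω(c) b)/2`, and the right side is
`- ∑ t i k (l k ⬝ c)(l k ⬝ b)/(l k ⬝ p)²`. Finally
`ω(Ω(c) b) = ∑_j ((l j ⬝ c)(l j ⬝ b)/(l j ⬝ p)) ω(a j)
 = ∑_j ((l j ⬝ c)(l j ⬝ b)/(l j ⬝ p)) ω(a j - (l i ⬝ a j) α)` by `K1`. Multiply by `-4`.
-/

namespace Pool.Agent.Lib.P4a9818

open MvPolynomial Matrix

variable {σ : Type} [Fintype σ] [DecidableEq σ] (A : Datum σ)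

namespace Datum

namespace Flat2Aux

/-- The first order term of the flatness identity at a generic point. -/
lemma deriv_sum {ι : Type} [Fintype ι] [DecidableEq ι] (i : ι) (y x : ι → ℂ) (hyi : y i = 0)
    (hxi : x i = 1) (hy : ∀ j, j ≠ i → y j ≠ 0) (c : ι → ι → ℂ) (hci : ∀ k, c i k = 0)
    (hcd : ∀ j, c j j = 0) (hK : ∑ j ∈ Finset.univ.erase i, c j i / y j = 0)
    (hG : ∀ t : ℂ, ∑ j, ∑ k ∈ Finset.univ.erase j,
      c j k * ∏ m ∈ (Finset.univ.erase j).erase k, (y m + t * x m) = 0) :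
    ∑ j ∈ Finset.univ.erase i, ∑ k ∈ Finset.univ.erase i, c j k / (y j * y k)
      = ∑ j ∈ Finset.univ.erase i, c j i * x j / y j ^ 2 := by
  set H : ℂ → ℂ := fun t => ∑ j ∈ Finset.univ.erase i,
    (-(c j i * x j / y j) * ∏ m ∈ (Finset.univ.erase j).erase i, (y m + t * x m) +
      ∑ k ∈ (Finset.univ.erase j).erase i,
        c j k * ∏ m ∈ ((Finset.univ.erase j).erase k).erase i, (y m + t * x m)) with hH
  have hmem : ∀ {j : ι}, j ≠ i → i ∈ Finset.univ.erase j := fun hj =>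
    Finset.mem_erase.2 ⟨hj.symm, Finset.mem_univ i⟩
  have h1 : ∀ t, t * H t = 0 := by
    intro t
    have e1 := hG t
    rw [← Finset.add_sum_erase Finset.univ _ (Finset.mem_univ i)] at e1
    have e2 : ∑ k ∈ Finset.univ.erase i,
        c i k * ∏ m ∈ (Finset.univ.erase i).erase k, (y m + t * x m) = 0 :=
      Finset.sum_eq_zero fun k _ => by rw [hci, zero_mul]
    rw [e2, zero_add] at e1
    have e3 : (∏ m ∈ Finset.univ.erase i, (y m + t * x m)) *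
        ∑ j ∈ Finset.univ.erase i, c j i / y j = 0 := by rw [hK, mul_zero]
    rw [hH]
    simp only
    rw [Finset.mul_sum]
    have e4 : ∑ j ∈ Finset.univ.erase i, t *
        (-(c j i * x j / y j) * ∏ m ∈ (Finset.univ.erase j).erase i, (y m + t * x m) +
          ∑ k ∈ (Finset.univ.erase j).erase i,
            c j k * ∏ m ∈ ((Finset.univ.erase j).erase k).erase i, (y m + t * x m)) =
        ∑ j ∈ Finset.univ.erase i, (∑ k ∈ Finset.univ.erase j,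
          c j k * ∏ m ∈ (Finset.univ.erase j).erase k, (y m + t * x m)) -
        (∏ m ∈ Finset.univ.erase i, (y m + t * x m)) *
          ∑ j ∈ Finset.univ.erase i, c j i / y j := by
      rw [Finset.mul_sum, ← Finset.sum_sub_distrib]
      refine Finset.sum_congr rfl fun j hj => ?_
      have hji : j ≠ i := Finset.ne_of_mem_erase hj
      have hyj := hy j hji
      rw [← Finset.add_sum_erase (Finset.univ.erase j) _ (hmem hji)]
      rw [← Finset.mul_prod_erase (Finset.univ.erase i) _ hj]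
      rw [mul_add, Finset.mul_sum]
      have e5 : ∑ k ∈ (Finset.univ.erase j).erase i,
          t * (c j k * ∏ m ∈ ((Finset.univ.erase j).erase k).erase i, (y m + t * x m)) =
          ∑ k ∈ (Finset.univ.erase j).erase i,
            c j k * ∏ m ∈ (Finset.univ.erase j).erase k, (y m + t * x m) := by
        refine Finset.sum_congr rfl fun k hk => ?_
        have hki : k ≠ i := Finset.ne_of_mem_erase hk
        rw [← Finset.mul_prod_erase ((Finset.univ.erase j).erase k) _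
          (Finset.mem_erase.2 ⟨hki.symm, hmem hji⟩), hyi, hxi]
        ring
      rw [e5, Finset.erase_right_comm (a := i) (b := j)]
      have e6 : c j i / y j * (y j + t * x j) = c j i + t * (c j i * x j / y j) := by
        field_simp
      linear_combination (∏ m ∈ (Finset.univ.erase j).erase i, (y m + t * x m)) * e6
    rw [e4, e1, e3, sub_zero]
  have h2 : H 0 = 0 := by
    have hc : Continuous H := by
      rw [hH]
      fun_prop
    have hd : Dense ({0}ᶜ : Set ℂ) := dense_compl_singleton 0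
    have he : Set.EqOn H (fun _ => 0) ({0}ᶜ : Set ℂ) := by
      intro t ht
      have ht' : t ≠ 0 := ht
      exact (mul_eq_zero.1 (h1 t)).resolve_left ht'
    exact congrFun (hc.ext_on hd continuous_const he) 0
  have hq0 : ∏ m ∈ Finset.univ.erase i, y m ≠ 0 :=
    Finset.prod_ne_zero_iff.2 fun m hm => hy m (Finset.ne_of_mem_erase hm)
  have h3 : H 0 = (∏ m ∈ Finset.univ.erase i, y m) *
      (∑ j ∈ Finset.univ.erase i, ∑ k ∈ Finset.univ.erase i, c j k / (y j * y k)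
      - ∑ j ∈ Finset.univ.erase i, c j i * x j / y j ^ 2) := by
    rw [hH]
    simp only [zero_mul, add_zero]
    rw [← Finset.sum_sub_distrib, Finset.mul_sum]
    refine Finset.sum_congr rfl fun j hj => ?_
    have hji : j ≠ i := Finset.ne_of_mem_erase hj
    have hyj := hy j hji
    have e1 : ∏ m ∈ Finset.univ.erase i, y m =
        y j * ∏ m ∈ (Finset.univ.erase j).erase i, y m := by
      rw [← Finset.mul_prod_erase (Finset.univ.erase i) y hj, Finset.erase_right_comm]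
    have e2 : ∑ k ∈ Finset.univ.erase i, c j k / (y j * y k) =
        ∑ k ∈ (Finset.univ.erase j).erase i, c j k / (y j * y k) := by
      rw [Finset.erase_right_comm (a := j) (b := i),
        Finset.sum_erase (a := j) (Finset.univ.erase i) (by rw [hcd, zero_div])]
    rw [e2, mul_sub, Finset.mul_sum]
    have e3 : ∑ k ∈ (Finset.univ.erase j).erase i,
        c j k * ∏ m ∈ ((Finset.univ.erase j).erase k).erase i, y m =
        ∑ k ∈ (Finset.univ.erase j).erase i,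
          (∏ m ∈ Finset.univ.erase i, y m) * (c j k / (y j * y k)) := by
      refine Finset.sum_congr rfl fun k hk => ?_
      have hki : k ≠ i := Finset.ne_of_mem_erase hk
      have hyk := hy k hki
      rw [e1, ← Finset.mul_prod_erase ((Finset.univ.erase j).erase i) y hk,
        Finset.erase_right_comm (a := i) (b := k)]
      field_simp
    rw [e3, e1]
    field_simp
    ring
  rw [h3] at h2
  exact sub_eq_zero.1 ((mul_eq_zero.1 h2).resolve_left hq0)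

lemma P_mulVec (j : A.ι) (v : σ → ℂ) : A.P j *ᵥ v = (A.l j ⬝ᵥ v) • A.a j := by
  funext k
  simp only [P, mulVec, vecMulVec_apply, dotProduct, Pi.smul_apply, smul_eq_mul, Finset.sum_mul]
  refine Finset.sum_congr rfl fun s _ => ?_
  ring

/-- The matrix `Ω(w)`. -/
noncomputable def Om (i : A.ι) (p w : σ → ℂ) : Matrix σ σ ℂ :=
  ∑ k ∈ Finset.univ.erase i, ((A.l k ⬝ᵥ w) / (A.l k ⬝ᵥ p)) • A.P k

lemma sum_dot {κ : Type} (s : Finset κ) (v : σ → ℂ) (f : κ → σ → ℂ) :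
    v ⬝ᵥ (∑ k ∈ s, f k) = ∑ k ∈ s, v ⬝ᵥ f k := dotProduct_sum v s f

lemma Om_mulVec (i : A.ι) (p w v : σ → ℂ) :
    Om A i p w *ᵥ v = ∑ k ∈ Finset.univ.erase i,
      ((A.l k ⬝ᵥ w) / (A.l k ⬝ᵥ p) * (A.l k ⬝ᵥ v)) • A.a k := by
  unfold Om
  rw [Matrix.sum_mulVec]
  refine Finset.sum_congr rfl fun k _ => ?_
  rw [Matrix.smul_mulVec, P_mulVec, smul_smul]

lemma Om_comm (i : A.ι) {p c : σ → ℂ} (hp : A.Gen i p) (hc : A.l i ⬝ᵥ c = 0) (v : σ → ℂ) :
    A.l i ⬝ᵥ (Om A i p c *ᵥ v) = (A.l i ⬝ᵥ v) * (A.l i ⬝ᵥ (Om A i p c *ᵥ A.a i)) := by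
  have h1 : A.P i * Om A i p c = Om A i p c * A.P i := by
    have h := A.K0 i hp hc
    have e : A.P i * Om A i p c - Om A i p c * A.P i = 0 := by
      rw [← h]
      unfold Om
      rw [Finset.mul_sum, Finset.sum_mul, ← Finset.sum_sub_distrib]
      refine Finset.sum_congr rfl fun k _ => ?_
      rw [Matrix.mul_smul, Matrix.smul_mul, ← smul_sub]
    exact sub_eq_zero.1 e
  have h2 : A.P i *ᵥ (Om A i p c *ᵥ v) = Om A i p c *ᵥ (A.P i *ᵥ v) := by
    rw [mulVec_mulVec, mulVec_mulVec, h1]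
  rw [P_mulVec, P_mulVec, mulVec_smul] at h2
  have h3 : A.l i ⬝ᵥ ((A.l i ⬝ᵥ Om A i p c *ᵥ v) • A.a i) =
      A.l i ⬝ᵥ ((A.l i ⬝ᵥ v) • Om A i p c *ᵥ A.a i) := by rw [h2]
  rw [dotProduct_smul, dotProduct_smul, A.la, smul_eq_mul, mul_one, smul_eq_mul] at h3
  exact h3

lemma Om_a (i : A.ι) (p w : σ → ℂ) :
    A.l i ⬝ᵥ (Om A i p w *ᵥ A.a i) = A.om i p w / 2 := by
  rw [Om_mulVec, sum_dot]
  unfold om
  rw [Finset.sum_div]
  refine Finset.sum_congr rfl fun k _ => ?_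
  rw [dotProduct_smul, smul_eq_mul]
  unfold t
  ring

lemma Om_alpha (i : A.ι) (p w : σ → ℂ) :
    A.l i ⬝ᵥ (Om A i p (A.a i) *ᵥ w) = A.om i p w / 2 := by
  rw [Om_mulVec, sum_dot]
  unfold om
  rw [Finset.sum_div]
  refine Finset.sum_congr rfl fun k _ => ?_
  rw [dotProduct_smul, smul_eq_mul]
  unfold t
  ring

lemma om_sum {κ : Type} (i : A.ι) (p : σ → ℂ) (s : Finset κ) (f : κ → ℂ) (v : κ → σ → ℂ) :
    A.om i p (∑ k ∈ s, f k • v k) = ∑ k ∈ s, f k * A.om i p (v k) := by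
  unfold om
  simp only [sum_dot, Finset.mul_sum, dotProduct_smul, smul_eq_mul, Finset.sum_div]
  rw [Finset.sum_comm]
  refine Finset.sum_congr rfl fun k _ => Finset.sum_congr rfl fun j _ => ?_
  ring

lemma om_sub_smul (i : A.ι) (p v w : σ → ℂ) (s : ℂ) :
    A.om i p (v - s • w) = A.om i p v - s * A.om i p w := by
  unfold om
  rw [Finset.mul_sum, ← Finset.sum_sub_distrib]
  refine Finset.sum_congr rfl fun k _ => ?_
  rw [dotProduct_sub, dotProduct_smul, smul_eq_mul]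
  ring

end Flat2Aux

open Flat2Aux

theorem flat_at (i : A.ι) {p c : σ → ℂ} (hp : A.Gen i p) (hc : A.l i ⬝ᵥ c = 0) :
    ∑ j ∈ Finset.univ.erase i, ∑ k ∈ Finset.univ.erase i,
      ((A.l j ⬝ᵥ c) * (A.l k ⬝ᵥ A.a i) / ((A.l j ⬝ᵥ p) * (A.l k ⬝ᵥ p))) •
        (A.P j * A.P k - A.P k * A.P j)
    = ∑ k ∈ Finset.univ.erase i, ((A.l k ⬝ᵥ c) * (A.l k ⬝ᵥ A.a i) / (A.l k ⬝ᵥ p) ^ 2) •
        (A.P k * A.P i - A.P i * A.P k) := by
  ext r s
  have hG : ∀ t : ℂ, ∑ j, ∑ k ∈ Finset.univ.erase j,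
      ((A.l j ⬝ᵥ c) * (A.l k ⬝ᵥ A.a i) * (A.P j * A.P k - A.P k * A.P j) r s) *
        ∏ m ∈ (Finset.univ.erase j).erase k, ((A.l m ⬝ᵥ p) + t * (A.l m ⬝ᵥ A.a i)) = 0 := by
    intro t
    have h := congrArg (eval (p + t • A.a i)) (A.flat_poly c (A.a i) r s)
    simp only [map_sum, map_mul, map_prod, eval_C, eval_lf, map_zero, dotProduct_add,
      dotProduct_smul, smul_eq_mul] at h
    exact h
  have hK : ∑ j ∈ Finset.univ.erase i,
      ((A.l j ⬝ᵥ c) * (A.l i ⬝ᵥ A.a i) * (A.P j * A.P i - A.P i * A.P j) r s) /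
        (A.l j ⬝ᵥ p) = 0 := by
    have h := congrFun (congrFun (A.K0 i hp hc) r) s
    rw [Matrix.sum_apply, Matrix.zero_apply] at h
    rw [← neg_eq_zero, ← Finset.sum_neg_distrib, ← h]
    refine Finset.sum_congr rfl fun k _ => ?_
    rw [Matrix.smul_apply, Matrix.sub_apply, Matrix.sub_apply, smul_eq_mul, A.la]
    ring
  have h := deriv_sum i (fun m => A.l m ⬝ᵥ p) (fun m => A.l m ⬝ᵥ A.a i) hp.1 (A.la i) hp.2
    (fun j k => (A.l j ⬝ᵥ c) * (A.l k ⬝ᵥ A.a i) * (A.P j * A.P k - A.P k * A.P j) r s)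
    (fun k => by simp only [hc, zero_mul]) (fun j => by simp only [sub_self, Matrix.zero_apply, mul_zero])
    hK hG
  rw [Matrix.sum_apply, Matrix.sum_apply]
  have e1 : ∑ j ∈ Finset.univ.erase i, (∑ k ∈ Finset.univ.erase i,
      ((A.l j ⬝ᵥ c) * (A.l k ⬝ᵥ A.a i) / ((A.l j ⬝ᵥ p) * (A.l k ⬝ᵥ p))) •
        (A.P j * A.P k - A.P k * A.P j)) r s =
      ∑ j ∈ Finset.univ.erase i, ∑ k ∈ Finset.univ.erase i,
        ((A.l j ⬝ᵥ c) * (A.l k ⬝ᵥ A.a i) * (A.P j * A.P k - A.P k * A.P j) r s) /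
          ((A.l j ⬝ᵥ p) * (A.l k ⬝ᵥ p)) := by
    refine Finset.sum_congr rfl fun j _ => ?_
    rw [Matrix.sum_apply]
    refine Finset.sum_congr rfl fun k _ => ?_
    rw [Matrix.smul_apply, smul_eq_mul]
    ring
  rw [e1, h]
  refine Finset.sum_congr rfl fun k _ => ?_
  rw [Matrix.smul_apply, smul_eq_mul, A.la]
  ring

theorem K2 (i : A.ι) {p b c : σ → ℂ} (hp : A.Gen i p) (hb : A.l i ⬝ᵥ b = 0)
    (hc : A.l i ⬝ᵥ c = 0) :
    -4 * (∑ j ∈ Finset.univ.erase i,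
        A.t i j * (A.l j ⬝ᵥ b) * (A.l j ⬝ᵥ c) / (A.l j ⬝ᵥ p) ^ 2)
      + 2 * (∑ j ∈ Finset.univ.erase i, (A.l j ⬝ᵥ c) * (A.l j ⬝ᵥ b) / (A.l j ⬝ᵥ p) *
        A.om i p (A.a j - (A.l i ⬝ᵥ A.a j) • A.a i))
      - A.om i p c * A.om i p b = 0 := by
  have h := A.flat_at i hp hc
  have e1 : ∑ j ∈ Finset.univ.erase i, ∑ k ∈ Finset.univ.erase i,
      ((A.l j ⬝ᵥ c) * (A.l k ⬝ᵥ A.a i) / ((A.l j ⬝ᵥ p) * (A.l k ⬝ᵥ p))) •
        (A.P j * A.P k - A.P k * A.P j) =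
      Om A i p c * Om A i p (A.a i) - Om A i p (A.a i) * Om A i p c := by
    unfold Om
    rw [Finset.sum_mul_sum, Finset.sum_mul_sum]
    rw [Finset.sum_comm (f := fun j k => ((A.l j ⬝ᵥ A.a i) / (A.l j ⬝ᵥ p)) • A.P j *
      (((A.l k ⬝ᵥ c) / (A.l k ⬝ᵥ p)) • A.P k))]
    rw [← Finset.sum_sub_distrib]
    refine Finset.sum_congr rfl fun j _ => ?_
    rw [← Finset.sum_sub_distrib]
    refine Finset.sum_congr rfl fun k _ => ?_
    rw [Matrix.smul_mul, Matrix.mul_smul, smul_smul, Matrix.smul_mul, Matrix.mul_smul, smul_smul,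
      smul_sub]
    congr 1
    · congr 1
      ring
    · congr 1
      ring
  rw [e1] at h
  have h2 : A.l i ⬝ᵥ ((Om A i p c * Om A i p (A.a i) - Om A i p (A.a i) * Om A i p c) *ᵥ b) =
      A.l i ⬝ᵥ ((∑ k ∈ Finset.univ.erase i,
      ((A.l k ⬝ᵥ c) * (A.l k ⬝ᵥ A.a i) / (A.l k ⬝ᵥ p) ^ 2) •
        (A.P k * A.P i - A.P i * A.P k)) *ᵥ b) := by rw [h]
  rw [sub_mulVec, ← mulVec_mulVec, ← mulVec_mulVec, dotProduct_sub, Om_comm A i hp hc, Om_a,
    Om_alpha, Om_alpha] at h2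
  have e2 : A.om i p (Om A i p c *ᵥ b) = ∑ j ∈ Finset.univ.erase i,
      (A.l j ⬝ᵥ c) * (A.l j ⬝ᵥ b) / (A.l j ⬝ᵥ p) *
        A.om i p (A.a j - (A.l i ⬝ᵥ A.a j) • A.a i) := by
    rw [Om_mulVec, om_sum]
    have h3 := A.K1 i hp hc hb
    have e3 : ∑ j ∈ Finset.univ.erase i, (A.l j ⬝ᵥ c) * (A.l j ⬝ᵥ b) / (A.l j ⬝ᵥ p) *
        A.om i p (A.a j - (A.l i ⬝ᵥ A.a j) • A.a i) =
        ∑ j ∈ Finset.univ.erase i, (A.l j ⬝ᵥ c) / (A.l j ⬝ᵥ p) * (A.l j ⬝ᵥ b) *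
          A.om i p (A.a j) -
        (∑ k ∈ Finset.univ.erase i, ((A.l k ⬝ᵥ c) / (A.l k ⬝ᵥ p)) *
          ((A.l k ⬝ᵥ b) * (A.l i ⬝ᵥ A.a k))) * A.om i p (A.a i) := by
      rw [Finset.sum_mul, ← Finset.sum_sub_distrib]
      refine Finset.sum_congr rfl fun j _ => ?_
      rw [om_sub_smul]
      ring
    rw [e3, h3, zero_mul, sub_zero]
  have e4 : A.l i ⬝ᵥ ((∑ k ∈ Finset.univ.erase i,
      ((A.l k ⬝ᵥ c) * (A.l k ⬝ᵥ A.a i) / (A.l k ⬝ᵥ p) ^ 2) •
        (A.P k * A.P i - A.P i * A.P k)) *ᵥ b) =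
      - ∑ j ∈ Finset.univ.erase i,
        A.t i j * (A.l j ⬝ᵥ b) * (A.l j ⬝ᵥ c) / (A.l j ⬝ᵥ p) ^ 2 := by
    rw [Matrix.sum_mulVec, sum_dot, ← Finset.sum_neg_distrib]
    refine Finset.sum_congr rfl fun k _ => ?_
    rw [Matrix.smul_mulVec, sub_mulVec, ← mulVec_mulVec, ← mulVec_mulVec, P_mulVec A i b, hb,
      zero_smul, mulVec_zero, zero_sub, P_mulVec, P_mulVec, dotProduct_smul, dotProduct_neg,
      dotProduct_smul, A.la, dotProduct_smul, smul_eq_mul, smul_eq_mul, smul_eq_mul]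
    unfold t
    ring
  rw [e4] at h2
  rw [← e2]
  linear_combination (-4 : ℂ) * h2
end Datum

end Pool.Agent.Lib.P4a9818
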