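import Pool.Agent.Lib.P4a9818.LinD

/-!
# P4a9818.Grad : an Euler argument (abstract)   (estimate 2.5 h)

`L` is a graded submodule of `R^σ` (`R = ℂ[x]`), `Dk k` are operators on `L` with the Leibniz rule,
lowering the degree by one, and `∑_k X_k Dk k G = (e - m) G` for `G ∈ L` homogeneous of degree `e`.
Write `L_e` for the homogeneous elements of degree `e` in `L`.
1. `L_e = 0` for `e < m`: induction on `e`: `Dk k G ∈ L_{e-1} = 0` (or `Dk k G = 0` if `e = 0`),
   so `(e - m) G = 0`.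
2. If `G ∈ L_m` then `Dk k G ∈ L_{m-1} = 0`.
3. For `e > m`: `(e - m) G = ∑ X_k Dk k G`, so by induction `L_e ⊆ R · L_m`. Hence `L = R · L_m`
   (every element of `L` is the sum of its components, `hgr`).
4. If `G_1, …, G_r ∈ L_m` are linearly independent over `ℂ`, they are so over `R`. Let
   `∑ f_j G_j = 0` be a nontrivial relation with `max (totalDegree f_j)` minimal; apply `Dk k`:
   `∑ (pderiv k f_j) G_j = 0`; the degree drops (unless all `f_j` are constants), so by minimality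
   `pderiv k f_j = 0` for all `k, j`, and all `f_j` are constants (char. 0); contradiction.
5. `L_m` is finite dimensional (`R_m^σ` is; or by 4, since `R^σ` has rank `card σ`). Let
   `G_1, …, G_r` be a `ℂ`-basis. By 3, 4 it is an `R`-basis of `L`; since `q R^σ ⊆ L ⊆ R^σ` the rank
   is `r = card σ` (e.g. pass to the fraction field, or: `r ≤ card σ` because `R^σ` has rank
   `card σ`, and the `card σ` independent elements `q e_k` of the free module `L` show
   `card σ ≤ r`). Reindex by `σ`.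
-/

namespace Pool.Agent.Lib.P4a9818

open MvPolynomial Matrix

namespace GradAux

section poly

variable {σ : Type} [Fintype σ] [DecidableEq σ]

theorem coeff_euler (f : MvPolynomial σ ℂ) (u : σ →₀ ℕ) :
    coeff u (∑ k, X k * pderiv k f) = ((Finsupp.degree u : ℕ) : ℂ) * coeff u f := by
  induction f using MvPolynomial.induction_on' with
  | monomial a b =>
    have h1 : ∑ k, X k * pderiv k (monomial a b) =
        ((Finsupp.degree a : ℕ) : MvPolynomial σ ℂ) * monomial a b :=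
      euler (isHomogeneous_monomial b rfl)
    rw [h1, ← map_natCast (C : ℂ →+* MvPolynomial σ ℂ), coeff_C_mul, coeff_monomial]
    split_ifs with h3
    · rw [h3]
    · rw [mul_zero, mul_zero]
  | add p q hp hq =>
    have h2 : ∑ k, X k * pderiv k (p + q) =
        ∑ k, X k * pderiv k p + ∑ k, X k * pderiv k q := by
      rw [← Finset.sum_add_distrib]
      exact Finset.sum_congr rfl fun k _ => by rw [map_add, mul_add]
    rw [h2, coeff_add, hp, hq, coeff_add, mul_add]

theorem const_of_pderiv {f : MvPolynomial σ ℂ} (h : ∀ k, pderiv k f = 0) :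
    f = C (coeff 0 f) := by
  ext u
  rw [coeff_C]
  split_ifs with h0
  · rw [h0]
  · have h1 := coeff_euler f u
    rw [Finset.sum_eq_zero fun k _ => by rw [h k, mul_zero], coeff_zero] at h1
    have h2 : ((Finsupp.degree u : ℕ) : ℂ) ≠ 0 := by
      rw [Nat.cast_ne_zero, Ne, Finsupp.degree_eq_zero_iff]
      exact fun h => h0 h.symm
    exact (mul_eq_zero.1 h1.symm).resolve_left h2

theorem totalDegree_pderiv_le (k : σ) (f : MvPolynomial σ ℂ) :
    (pderiv k f).totalDegree ≤ f.totalDegree - 1 := by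
  rw [← dd_single]
  exact totalDegree_dd_le _ _

theorem pderiv_zero_of_totalDegree (k : σ) {f : MvPolynomial σ ℂ} (hf : f.totalDegree = 0) :
    pderiv k f = 0 := by
  rw [← dd_single]
  exact dd_eq_zero_of_totalDegree _ hf

end poly

variable {σ : Type} [Fintype σ] [DecidableEq σ]
    {L : Submodule (MvPolynomial σ ℂ) (σ → MvPolynomial σ ℂ)}
    {Dk : σ → (σ → MvPolynomial σ ℂ) → (σ → MvPolynomial σ ℂ)} {m : ℕ}

theorem C_smul (c : ℂ) (v : σ → MvPolynomial σ ℂ) : (C c : MvPolynomial σ ℂ) • v = c • v := by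
  funext k
  simp [smul_eq_C_mul]

theorem low (h1 : ∀ k, ∀ G ∈ L, Dk k G ∈ L)
    (h4 : ∀ k, ∀ G ∈ L, ∀ e, (∀ s, (G s).IsHomogeneous (e + 1)) →
      ∀ s, (Dk k G s).IsHomogeneous e)
    (h5 : ∀ k, ∀ G ∈ L, (∀ s, (G s).IsHomogeneous 0) → Dk k G = 0)
    (h6 : ∀ G ∈ L, ∀ e : ℕ, (∀ s, (G s).IsHomogeneous e) →
      ∑ k, (X k : MvPolynomial σ ℂ) • Dk k G = (C ((e : ℂ) - m) : MvPolynomial σ ℂ) • G)
    (e : ℕ) (he : e < m) : ∀ G ∈ L, (∀ s, (G s).IsHomogeneous e) → G = 0 := by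
  induction e with
  | zero =>
    intro G hG hh
    have h7 := h6 G hG 0 hh
    rw [Finset.sum_eq_zero fun k _ => by rw [h5 k G hG hh, smul_zero], C_smul] at h7
    refine (smul_eq_zero.1 h7.symm).resolve_left ?_
    rw [Nat.cast_zero, zero_sub, neg_eq_zero, Nat.cast_eq_zero]
    omega
  | succ e ih =>
    intro G hG hh
    have h7 := h6 G hG (e + 1) hh
    rw [Finset.sum_eq_zero fun k _ => by
      rw [ih (by omega) (Dk k G) (h1 k G hG) (h4 k G hG e hh), smul_zero], C_smul] at h7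
    refine (smul_eq_zero.1 h7.symm).resolve_left ?_
    rw [sub_eq_zero, Nat.cast_inj]
    omega

theorem flat_m (h1 : ∀ k, ∀ G ∈ L, Dk k G ∈ L)
    (h4 : ∀ k, ∀ G ∈ L, ∀ e, (∀ s, (G s).IsHomogeneous (e + 1)) →
      ∀ s, (Dk k G s).IsHomogeneous e)
    (h5 : ∀ k, ∀ G ∈ L, (∀ s, (G s).IsHomogeneous 0) → Dk k G = 0)
    (h6 : ∀ G ∈ L, ∀ e : ℕ, (∀ s, (G s).IsHomogeneous e) →
      ∑ k, (X k : MvPolynomial σ ℂ) • Dk k G = (C ((e : ℂ) - m) : MvPolynomial σ ℂ) • G)
    {G : σ → MvPolynomial σ ℂ} (hG : G ∈ L) (hh : ∀ s, (G s).IsHomogeneous m) (k : σ) :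
    Dk k G = 0 := by
  rcases Nat.eq_zero_or_pos m with h0 | h0
  · refine h5 k G hG fun s => ?_
    rw [← h0]
    exact hh s
  · obtain ⟨m', hm'⟩ : ∃ m', m = m' + 1 := ⟨m - 1, by omega⟩
    refine low h1 h4 h5 h6 m' (by omega) _ (h1 k G hG) (h4 k G hG m' fun s => ?_)
    rw [← hm']
    exact hh s

theorem high (h1 : ∀ k, ∀ G ∈ L, Dk k G ∈ L)
    (h4 : ∀ k, ∀ G ∈ L, ∀ e, (∀ s, (G s).IsHomogeneous (e + 1)) →
      ∀ s, (Dk k G s).IsHomogeneous e)
    (h5 : ∀ k, ∀ G ∈ L, (∀ s, (G s).IsHomogeneous 0) → Dk k G = 0)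
    (h6 : ∀ G ∈ L, ∀ e : ℕ, (∀ s, (G s).IsHomogeneous e) →
      ∑ k, (X k : MvPolynomial σ ℂ) • Dk k G = (C ((e : ℂ) - m) : MvPolynomial σ ℂ) • G)
    {W : Submodule (MvPolynomial σ ℂ) (σ → MvPolynomial σ ℂ)}
    (hW : ∀ G ∈ L, (∀ s, (G s).IsHomogeneous m) → G ∈ W) (e : ℕ) :
    ∀ G ∈ L, (∀ s, (G s).IsHomogeneous e) → G ∈ W := by
  induction e with
  | zero =>
    intro G hG hh
    rcases Nat.eq_zero_or_pos m with h0 | h0
    · refine hW G hG fun s => ?_
      rw [h0]
      exact hh s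
    · rw [low h1 h4 h5 h6 0 h0 G hG hh]
      exact W.zero_mem
  | succ e ih =>
    intro G hG hh
    rcases lt_trichotomy (e + 1) m with h0 | h0 | h0
    · rw [low h1 h4 h5 h6 (e + 1) h0 G hG hh]
      exact W.zero_mem
    · refine hW G hG fun s => ?_
      rw [← h0]
      exact hh s
    · have h7 := h6 G hG (e + 1) hh
      have h8 : ∑ k, (X k : MvPolynomial σ ℂ) • Dk k G ∈ W :=
        W.sum_mem fun k _ => W.smul_mem _ (ih (Dk k G) (h1 k G hG) (h4 k G hG e hh))
      rw [h7] at h8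
      have hne : (((e + 1 : ℕ) : ℂ) - m) ≠ 0 := by
        rw [sub_ne_zero, Ne, Nat.cast_inj]
        omega
      have h9 := W.smul_mem (C ((((e + 1 : ℕ) : ℂ) - m)⁻¹)) h8
      rwa [smul_smul, ← C_mul, inv_mul_cancel₀ hne, C_1, one_smul] at h9

theorem all_span (hgr : ∀ G ∈ L, ∀ e, (fun s => homogeneousComponent e (G s)) ∈ L)
    {W : Submodule (MvPolynomial σ ℂ) (σ → MvPolynomial σ ℂ)}
    (hW : ∀ e, ∀ G ∈ L, (∀ s, (G s).IsHomogeneous e) → G ∈ W) {G : σ → MvPolynomial σ ℂ}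
    (hG : G ∈ L) : G ∈ W := by
  obtain ⟨N, hN⟩ : ∃ N, ∀ s, (G s).totalDegree < N :=
    ⟨(∑ s, (G s).totalDegree) + 1, fun s => Nat.lt_succ_of_le
      (Finset.single_le_sum (f := fun s => (G s).totalDegree) (fun _ _ => Nat.zero_le _)
        (Finset.mem_univ s))⟩
  have e1 : G = ∑ e ∈ Finset.range N, fun s => homogeneousComponent e (G s) := by
    funext s
    rw [Finset.sum_apply]
    have h1 : Finset.range ((G s).totalDegree + 1) ⊆ Finset.range N :=
      Finset.range_subset_range.2 (hN s)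
    rw [← Finset.sum_subset h1]
    · exact (sum_homogeneousComponent (G s)).symm
    · intro e _ he
      refine homogeneousComponent_eq_zero _ _ ?_
      rw [Finset.mem_range] at he
      omega
  rw [e1]
  exact W.sum_mem fun e _ => hW e _ (hgr G hG e) fun s => homogeneousComponent_isHomogeneous e _

theorem Dk_zero (h3 : ∀ k (f : MvPolynomial σ ℂ), ∀ G ∈ L,
      Dk k (f • G) = pderiv k f • G + f • Dk k G) (k : σ) : Dk k 0 = 0 := by
  have h := h3 k 0 0 L.zero_mem
  rw [smul_zero, map_zero, zero_smul, zero_smul, add_zero] at h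
  exact h

theorem Dk_sum (h2 : ∀ k, ∀ G ∈ L, ∀ H ∈ L, Dk k (G + H) = Dk k G + Dk k H)
    (h3 : ∀ k (f : MvPolynomial σ ℂ), ∀ G ∈ L, Dk k (f • G) = pderiv k f • G + f • Dk k G)
    {ι : Type} (t : Finset ι) (G : ι → σ → MvPolynomial σ ℂ) (hG : ∀ i, G i ∈ L) (k : σ) :
    Dk k (∑ i ∈ t, G i) = ∑ i ∈ t, Dk k (G i) := by
  classical
  induction t using Finset.induction_on with
  | empty => rw [Finset.sum_empty, Finset.sum_empty, Dk_zero h3]
  | insert a t ha ih =>
    rw [Finset.sum_insert ha, Finset.sum_insert ha, h2 k _ (hG a) _ (L.sum_mem fun i _ => hG i), ih]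

theorem indep (h2 : ∀ k, ∀ G ∈ L, ∀ H ∈ L, Dk k (G + H) = Dk k G + Dk k H)
    (h3 : ∀ k (f : MvPolynomial σ ℂ), ∀ G ∈ L, Dk k (f • G) = pderiv k f • G + f • Dk k G)
    {ι : Type} (G : ι → σ → MvPolynomial σ ℂ) (hG : ∀ i, G i ∈ L) (hD : ∀ i k, Dk k (G i) = 0)
    (hli : LinearIndependent ℂ G) : LinearIndependent (MvPolynomial σ ℂ) G := by
  rw [linearIndependent_iff'] at hli ⊢
  intro t
  have key : ∀ N : ℕ, ∀ f : ι → MvPolynomial σ ℂ, (∀ i ∈ t, (f i).totalDegree ≤ N) →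
      ∑ i ∈ t, f i • G i = 0 → ∀ i ∈ t, f i = 0 := by
    intro N
    induction N with
    | zero =>
      intro f hf hsum i hi
      have h7 : ∀ j ∈ t, f j = C (coeff 0 (f j)) := fun j hj =>
        const_of_pderiv fun k => pderiv_zero_of_totalDegree k (Nat.le_zero.1 (hf j hj))
      have h8 : ∑ j ∈ t, coeff 0 (f j) • G j = 0 := by
        rw [← hsum]
        refine Finset.sum_congr rfl fun j hj => ?_
        conv_rhs => rw [h7 j hj]
        rw [C_smul]
      rw [h7 i hi, hli t _ h8 i hi, C_0]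
    | succ N ih =>
      intro f hf hsum i hi
      have h7 : ∀ k, ∀ j ∈ t, pderiv k (f j) = 0 := by
        intro k
        refine ih (fun j => pderiv k (f j)) (fun j hj => ?_) ?_
        · have h8 := totalDegree_pderiv_le k (f j)
          have h9 := hf j hj
          omega
        · have h8 := congrArg (Dk k) hsum
          rw [Dk_zero h3, Dk_sum h2 h3 t (fun i => f i • G i) (fun i => L.smul_mem _ (hG i))] at h8
          rw [← h8]
          exact Finset.sum_congr rfl fun j _ => by rw [h3 k _ _ (hG j), hD j k, smul_zero, add_zero]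
      have h7' : ∀ j ∈ t, f j = C (coeff 0 (f j)) := fun j hj =>
        const_of_pderiv fun k => h7 k j hj
      have h8 : ∑ j ∈ t, coeff 0 (f j) • G j = 0 := by
        rw [← hsum]
        refine Finset.sum_congr rfl fun j hj => ?_
        conv_rhs => rw [h7' j hj]
        rw [C_smul]
      rw [h7' i hi, hli t _ h8 i hi, C_0]
  intro f hsum
  exact key (∑ i ∈ t, (f i).totalDegree) f (fun i hi =>
    Finset.single_le_sum (f := fun i => (f i).totalDegree) (fun _ _ => Nat.zero_le _) hi) hsum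

/-- the homogeneous elements of degree `m` in `L` -/
def Lm (L : Submodule (MvPolynomial σ ℂ) (σ → MvPolynomial σ ℂ)) (m : ℕ) :
    Submodule ℂ (σ → MvPolynomial σ ℂ) where
  carrier := {G | G ∈ L ∧ ∀ s, (G s).IsHomogeneous m}
  add_mem' := fun {a b} ha hb => ⟨L.add_mem ha.1 hb.1, fun s =>
    (homogeneousSubmodule σ ℂ m).add_mem (ha.2 s) (hb.2 s)⟩
  zero_mem' := ⟨L.zero_mem, fun s => (homogeneousSubmodule σ ℂ m).zero_mem⟩
  smul_mem' := fun c a ha => ⟨by rw [← C_smul]; exact L.smul_mem _ ha.1, fun s =>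
    (homogeneousSubmodule σ ℂ m).smul_mem c (ha.2 s)⟩

end GradAux

open GradAux

theorem grad_basis {σ : Type} [Fintype σ] [DecidableEq σ]
    (L : Submodule (MvPolynomial σ ℂ) (σ → MvPolynomial σ ℂ))
    (Dk : σ → (σ → MvPolynomial σ ℂ) → (σ → MvPolynomial σ ℂ)) (m : ℕ)
    (h1 : ∀ k, ∀ G ∈ L, Dk k G ∈ L)
    (h2 : ∀ k, ∀ G ∈ L, ∀ H ∈ L, Dk k (G + H) = Dk k G + Dk k H)
    (h3 : ∀ k (f : MvPolynomial σ ℂ), ∀ G ∈ L, Dk k (f • G) = pderiv k f • G + f • Dk k G)
    (h4 : ∀ k, ∀ G ∈ L, ∀ e, (∀ s, (G s).IsHomogeneous (e + 1)) →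
      ∀ s, (Dk k G s).IsHomogeneous e)
    (h5 : ∀ k, ∀ G ∈ L, (∀ s, (G s).IsHomogeneous 0) → Dk k G = 0)
    (h6 : ∀ G ∈ L, ∀ e : ℕ, (∀ s, (G s).IsHomogeneous e) →
      ∑ k, (X k : MvPolynomial σ ℂ) • Dk k G = (C ((e : ℂ) - m) : MvPolynomial σ ℂ) • G)
    (hgr : ∀ G ∈ L, ∀ e, (fun s => homogeneousComponent e (G s)) ∈ L)
    (q : MvPolynomial σ ℂ) (hq : q ≠ 0) (hqL : ∀ G : σ → MvPolynomial σ ℂ, q • G ∈ L) :
    ∃ Gb : σ → (σ → MvPolynomial σ ℂ),
      (∀ s, Gb s ∈ L) ∧ (∀ s k, (Gb s k).IsHomogeneous m) ∧ (∀ s k, Dk k (Gb s) = 0) ∧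
      LinearIndependent (MvPolynomial σ ℂ) Gb ∧
      (∀ G ∈ L, G ∈ Submodule.span (MvPolynomial σ ℂ) (Set.range Gb)) ∧
      (∀ G ∈ L, (∀ k, (G k).IsHomogeneous m) → G ∈ Submodule.span ℂ (Set.range Gb)) := by
  classical
  let I := Module.Basis.ofVectorSpaceIndex ℂ (Lm L m)
  let b : Module.Basis I ℂ (Lm L m) := Module.Basis.ofVectorSpace ℂ (Lm L m)
  let G : I → σ → MvPolynomial σ ℂ := fun i => (b i : σ → MvPolynomial σ ℂ)
  have hGL : ∀ i, G i ∈ L := fun i => (b i).2.1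
  have hGh : ∀ i s, (G i s).IsHomogeneous m := fun i => (b i).2.2
  have hGD : ∀ i k, Dk k (G i) = 0 := fun i k => flat_m h1 h4 h5 h6 (hGL i) (hGh i) k
  have hliC : LinearIndependent ℂ G :=
    b.linearIndependent.map' (Lm L m).subtype (Submodule.ker_subtype _)
  have hliR : LinearIndependent (MvPolynomial σ ℂ) G := indep h2 h3 G hGL hGD hliC
  haveI : Finite I := hliR.finite_of_isNoetherian
  haveI : Fintype I := Fintype.ofFinite I
  have hspC : ∀ H ∈ L, (∀ s, (H s).IsHomogeneous m) → H ∈ Submodule.span ℂ (Set.range G) := by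
    intro H hH hh
    have hmem : H ∈ Lm L m := ⟨hH, hh⟩
    have h7 := b.mem_span (⟨H, hmem⟩ : Lm L m)
    have h8 := Submodule.mem_map_of_mem (f := (Lm L m).subtype) h7
    rw [Submodule.map_span, ← Set.range_comp] at h8
    exact h8
  have hspR : ∀ H ∈ L, H ∈ Submodule.span (MvPolynomial σ ℂ) (Set.range G) := by
    intro H hH
    refine all_span hgr (fun e => high h1 h4 h5 h6 (fun H hH hh => ?_) e) hH
    exact Submodule.span_subset_span ℂ (MvPolynomial σ ℂ) _ (hspC H hH hh)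
  have hc1 : Fintype.card I ≤ Fintype.card σ := by
    have h7 := hliR.fintype_card_le_finrank
    rwa [Module.finrank_pi] at h7
  have hc2 : Fintype.card σ ≤ Fintype.card I := by
    have hq' : LinearIndependent (MvPolynomial σ ℂ)
        (fun s : σ => q • (Pi.single s 1 : σ → MvPolynomial σ ℂ)) := by
      rw [Fintype.linearIndependent_iff]
      intro f hf s
      have h7 := congrFun hf s
      rw [Finset.sum_apply, Finset.sum_eq_single s] at h7
      · simp only [Pi.smul_apply, Pi.single_eq_same, smul_eq_mul, mul_one, Pi.zero_apply] at h7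
        exact (mul_eq_zero.1 h7).resolve_right hq
      · intro s' _ hs'
        simp [Pi.single_eq_of_ne (Ne.symm hs')]
      · intro h
        exact absurd (Finset.mem_univ s) h
    have h8 := linearIndependent_le_span_aux' _ hq' (Set.range G) (by
      rintro _ ⟨s, rfl⟩
      exact hspR _ (hqL _))
    refine h8.trans ?_
    exact Fintype.card_range_le G
  have e : I ≃ σ := Fintype.equivOfCardEq (le_antisymm hc1 hc2)
  have hr : Set.range (fun s => G (e.symm s)) = Set.range G := by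
    ext x
    constructor
    · rintro ⟨s, rfl⟩
      exact ⟨e.symm s, rfl⟩
    · rintro ⟨i, rfl⟩
      exact ⟨e i, by simp⟩
  refine ⟨fun s => G (e.symm s), fun s => hGL _, fun s k => hGh _ _, fun s k => hGD _ _,
    hliR.comp _ e.symm.injective, ?_, ?_⟩
  · intro H hH
    rw [hr]
    exact hspR H hH
  · intro H hH hh
    rw [hr]
    exact hspC H hH hh

end Pool.Agent.Lib.P4a9818
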