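import Pool.Agent.Lib.P4a9818.DopB
import Pool.Agent.Lib.P4a9818.Flat2

/-!
# P4a9818.StabB : `Dop c`, `c ∈ H_i`, preserves the conditions of `InLam` along `H_i`
(estimate 2 h)

Notation as in `StabA` (`α = a i`, `h0 = G(α)(p)`, `h1 = ∂_α G(α)(p)`, `∂_c h0 = ∂_c G(α)(p)`,
`a'_j = a j - (l i ⬝ a j) α ∈ H_i`, `ω = om i p`, `E_j(v) = quo (G(pr j v)) ℓ_j`).
Since `l i ⬝ c = 0`, the summand `j = i` of `ap_Dop` is zero:
`(Dop c G)(v) = ∂_c G(v) - 2 ∑_{j≠i} (l j ⬝ c) E_j(v)`, with (at `p`)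
`E_j(v) = G(pr j v)/(l j ⬝ p)`, `∂_α E_j(v) = (∂_α G(pr j v) - (l j ⬝ α) E_j(v))/(l j ⬝ p)`,
`G(pr j b) = -(l j ⬝ b)(l i ⬝ a j) h0`,
`∂_α G(pr j b) = ω(b) h0 - (l j ⬝ b)((l i ⬝ a j) h1 + ω(a'_j) h0)`, `G(pr j α) = (1 - t i j) h0`.
* Value: `∂_c G(b)(p) = 0` (`ℓ_i ∣ G(b)`, `l i ⬝ c = 0`), and
  `2 h0 ∑_{j≠i} (l j ⬝ c)(l j ⬝ b)(l i ⬝ a j)/(l j ⬝ p) = 0` by `K1`.
* Value at `α`: `∂_c h0 - 2 ∑_{j≠i} (l j ⬝ c)/(l j ⬝ p) (1 - t i j) h0
  = ∂_c h0 - 2 S_c h0 + ω(c) h0`, `S_c = ∑_{j≠i} (l j ⬝ c)/(l j ⬝ p)`.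
* `∂_α ∂_c G(b) = ∂_c ∂_α G(b)` at `p`: by `W_form` the polynomial
  `q_i ∂_α G(b) - W_i(b) G(α)` is divisible by `ℓ_i`, so its `∂_c` vanishes at `p`. With
  `∂_c q_i(p) = q_i(p) S_c`, `W_i(b)(p) = q_i(p) ω(b)`,
  `∂_c W_i(b)(p) = q_i(p) [ω(b) S_c - 2 ∑_{j≠i} t i j (l j ⬝ b)(l j ⬝ c)/(l j ⬝ p)²]` one gets
  `∂_c ∂_α G(b)(p) = ω(b) ∂_c h0 - 2 h0 ∑_{j≠i} t i j (l j ⬝ b)(l j ⬝ c)/(l j ⬝ p)²`.
* Derivative: `∂_α (Dop c G)(b) = ω(b) ∂_c h0 - 2 h0 ∑ t i j (l j ⬝ b)(l j ⬝ c)/(l j ⬝ p)²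
   - 2 S_c ω(b) h0 + 2 h1 ∑ (l j ⬝ c)(l j ⬝ b)(l i ⬝ a j)/(l j ⬝ p)   [= 0 by K1]
   + 2 h0 ∑ (l j ⬝ c)(l j ⬝ b) ω(a'_j)/(l j ⬝ p) - 2 h0 ∑ t i j (l j ⬝ c)(l j ⬝ b)/(l j ⬝ p)²
   = ω(b)(∂_c h0 - 2 S_c h0) + ω(c) ω(b) h0` by `K2`.
-/

namespace Pool.Agent.Lib.P4a9818

open MvPolynomial Matrix

variable {σ : Type} [Fintype σ] [DecidableEq σ] (A : Datum σ)

namespace Datum

namespace StabBAux

lemma pr_dot (i j : A.ι) (v : σ → ℂ) :
    A.l i ⬝ᵥ A.pr j v = (A.l i ⬝ᵥ v) - (A.l j ⬝ᵥ v) * (A.l i ⬝ᵥ A.a j) := by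
  unfold pr
  rw [dotProduct_sub, dotProduct_smul, smul_eq_mul]

lemma om_sub (i : A.ι) (p v w : σ → ℂ) :
    A.om i p (v - w) = A.om i p v - A.om i p w := by
  unfold om
  rw [← Finset.sum_sub_distrib]
  refine Finset.sum_congr rfl fun k _ => ?_
  rw [dotProduct_sub]
  ring

lemma om_smul (i : A.ι) (p v : σ → ℂ) (s : ℂ) :
    A.om i p (s • v) = s * A.om i p v := by
  unfold om
  rw [Finset.mul_sum]
  refine Finset.sum_congr rfl fun k _ => ?_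
  rw [dotProduct_smul, smul_eq_mul]
  ring

lemma om_pr (i j : A.ι) {p b : σ → ℂ} (hb : A.l i ⬝ᵥ b = 0) :
    A.om i p (A.pr j b - (A.l i ⬝ᵥ A.pr j b) • A.a i) = A.om i p b -
      (A.l j ⬝ᵥ b) * A.om i p (A.a j - (A.l i ⬝ᵥ A.a j) • A.a i) := by
  rw [pr_dot, hb, om_sub, om_smul, om_sub, om_smul]
  unfold pr
  rw [om_sub, om_smul]
  ring

lemma V0 {G : σ → MvPolynomial σ ℂ} (hG : A.InLam G) (i : A.ι) {p : σ → ℂ}
    (hp : A.Gen i p) (v : σ → ℂ) :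
    eval p (ap G v) = (A.l i ⬝ᵥ v) * eval p (ap G (A.a i)) := by
  have h := (hG i p (v - (A.l i ⬝ᵥ v) • A.a i) hp (by
    rw [dotProduct_sub, dotProduct_smul, A.la, smul_eq_mul, mul_one, sub_self])).1
  rw [ap_sub, ap_smul, map_sub, map_mul, eval_C] at h
  linear_combination h

lemma V1 {G : σ → MvPolynomial σ ℂ} (hG : A.InLam G) (i : A.ι) {p : σ → ℂ}
    (hp : A.Gen i p) (v : σ → ℂ) :
    eval p (dd (A.a i) (ap G v)) = (A.l i ⬝ᵥ v) * eval p (dd (A.a i) (ap G (A.a i))) +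
      A.om i p (v - (A.l i ⬝ᵥ v) • A.a i) * eval p (ap G (A.a i)) := by
  have h := (hG i p (v - (A.l i ⬝ᵥ v) • A.a i) hp (by
    rw [dotProduct_sub, dotProduct_smul, A.la, smul_eq_mul, mul_one, sub_self])).2
  rw [ap_sub, ap_smul, dd_sub, dd_C_mul, map_sub, map_mul, eval_C] at h
  linear_combination h

lemma lE {G : σ → MvPolynomial σ ℂ} (hG : A.InLam G) (j : A.ι) (v : σ → ℂ) :
    lf (A.l j) * quo (ap G (A.pr j v)) (lf (A.l j)) = ap G (A.pr j v) :=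
  mul_quo (A.lf_dvd_ap_pr hG j v)

lemma E0 {G : σ → MvPolynomial σ ℂ} (hG : A.InLam G) (j : A.ι) (p v : σ → ℂ) :
    (A.l j ⬝ᵥ p) * eval p (quo (ap G (A.pr j v)) (lf (A.l j))) = eval p (ap G (A.pr j v)) := by
  rw [← lE A hG j v, map_mul, eval_lf]
  rw [lE A hG j v]

lemma E1 {G : σ → MvPolynomial σ ℂ} (hG : A.InLam G) (j : A.ι) (c p v : σ → ℂ) :
    (A.l j ⬝ᵥ c) * eval p (quo (ap G (A.pr j v)) (lf (A.l j))) +
      (A.l j ⬝ᵥ p) * eval p (dd c (quo (ap G (A.pr j v)) (lf (A.l j)))) =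
      eval p (dd c (ap G (A.pr j v))) := by
  have h : eval p (dd c (lf (A.l j) * quo (ap G (A.pr j v)) (lf (A.l j)))) =
      eval p (dd c (ap G (A.pr j v))) := by rw [lE A hG j v]
  rw [← h, dd_mul, dd_lf, map_add, map_mul, map_mul, eval_C, eval_lf]

/-- The logarithmic derivative of a product of linear forms. -/
lemma dd_prod (c p : σ → ℂ) (s : Finset A.ι) (hs : ∀ k ∈ s, A.l k ⬝ᵥ p ≠ 0) :
    eval p (dd c (∏ k ∈ s, lf (A.l k))) =
      eval p (∏ k ∈ s, lf (A.l k)) * ∑ k ∈ s, (A.l k ⬝ᵥ c) / (A.l k ⬝ᵥ p) := by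
  induction s using Finset.induction_on with
  | empty =>
    rw [Finset.prod_empty, Finset.sum_empty, mul_zero]
    have h : (1 : MvPolynomial σ ℂ) = C 1 := C_1.symm
    rw [h, dd_C, map_zero]
  | insert a s ha ih =>
    rw [Finset.prod_insert ha, Finset.sum_insert ha, dd_mul, dd_lf, map_add, map_mul, map_mul,
      ih fun k hk => hs k (Finset.mem_insert_of_mem hk), map_mul, eval_C, eval_lf]
    have := hs a (Finset.mem_insert_self a s)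
    field_simp

end StabBAux

open StabBAux

theorem stabB {G : σ → MvPolynomial σ ℂ} (hG : A.InLam G) (i : A.ι) {p b c : σ → ℂ}
    (hp : A.Gen i p) (hb : A.l i ⬝ᵥ b = 0) (hc : A.l i ⬝ᵥ c = 0) :
    eval p (ap (A.Dop c G) b) = 0 ∧
    eval p (dd (A.a i) (ap (A.Dop c G) b))
      = A.om i p b * eval p (ap (A.Dop c G) (A.a i)) := by
  set h0 := eval p (ap G (A.a i)) with hh0
  set h1 := eval p (dd (A.a i) (ap G (A.a i))) with hh1
  set hc0 := eval p (dd c (ap G (A.a i))) with hhc0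
  have hy : ∀ j ∈ Finset.univ.erase i, A.l j ⬝ᵥ p ≠ 0 := fun j hj =>
    hp.2 j (Finset.ne_of_mem_erase hj)
  -- values of the quotients
  have hE : ∀ v, ∀ j ∈ Finset.univ.erase i,
      eval p (quo (ap G (A.pr j v)) (lf (A.l j))) =
        ((A.l i ⬝ᵥ v) - (A.l j ⬝ᵥ v) * (A.l i ⬝ᵥ A.a j)) * h0 / (A.l j ⬝ᵥ p) := by
    intro v j hj
    rw [eq_div_iff (hy j hj), mul_comm, E0 A hG j p v, V0 A hG i hp, pr_dot]
  have hD : ∀ j ∈ Finset.univ.erase i,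
      eval p (dd (A.a i) (quo (ap G (A.pr j b)) (lf (A.l j)))) =
        (-((A.l j ⬝ᵥ b) * (A.l i ⬝ᵥ A.a j)) * h1 + (A.om i p b -
          (A.l j ⬝ᵥ b) * A.om i p (A.a j - (A.l i ⬝ᵥ A.a j) • A.a i)) * h0 +
          (A.l j ⬝ᵥ A.a i) * ((A.l j ⬝ᵥ b) * (A.l i ⬝ᵥ A.a j)) * h0 / (A.l j ⬝ᵥ p)) /
            (A.l j ⬝ᵥ p) := by
    intro j hj
    have h := E1 A hG j (A.a i) p b
    rw [hE b j hj, V1 A hG i hp, om_pr A i j hb, pr_dot, hb, zero_sub, ← hh0, ← hh1] at h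
    rw [eq_div_iff (hy j hj)]
    linear_combination h
  have hK1 : ∑ j ∈ Finset.univ.erase i,
      (A.l j ⬝ᵥ c) * ((A.l j ⬝ᵥ b) * (A.l i ⬝ᵥ A.a j)) / (A.l j ⬝ᵥ p) = 0 := by
    rw [← A.K1 i hp hc hb]
    refine Finset.sum_congr rfl fun j _ => ?_
    ring
  refine ⟨?_, ?_⟩
  · rw [A.ap_Dop hG, ← Finset.add_sum_erase Finset.univ _ (Finset.mem_univ i)]
    simp only [map_sub, map_mul, map_add, map_sum, eval_C, map_ofNat]
    have e0 : eval p (dd c (ap G b)) = 0 := by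
      obtain ⟨g, hg⟩ := lf_dvd_dd c hc (A.lf_dvd_ap hG i hb)
      rw [hg, map_mul, eval_lf, hp.1, zero_mul]
    have e1 : ∑ x ∈ Finset.univ.erase i, (A.l x ⬝ᵥ c) *
        eval p (quo (ap G (A.pr x b)) (lf (A.l x))) = -(∑ j ∈ Finset.univ.erase i,
      (A.l j ⬝ᵥ c) * ((A.l j ⬝ᵥ b) * (A.l i ⬝ᵥ A.a j)) / (A.l j ⬝ᵥ p)) * h0 := by
      rw [← Finset.sum_neg_distrib, Finset.sum_mul]
      refine Finset.sum_congr rfl fun j hj => ?_
      rw [hE b j hj, hb]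
      ring
    rw [e0, e1, hK1, hc]
    ring
  · set S := ∑ j ∈ Finset.univ.erase i, (A.l j ⬝ᵥ c) / (A.l j ⬝ᵥ p) with hS
    set R := ∑ j ∈ Finset.univ.erase i,
        A.t i j * (A.l j ⬝ᵥ b) * (A.l j ⬝ᵥ c) / (A.l j ⬝ᵥ p) ^ 2 with hR
    have e2 : eval p (ap (A.Dop c G) (A.a i)) = hc0 - 2 * S * h0 + A.om i p c * h0 := by
      rw [A.ap_Dop hG, ← Finset.add_sum_erase Finset.univ _ (Finset.mem_univ i)]
      simp only [map_sub, map_mul, map_add, map_sum, eval_C, map_ofNat]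
      rw [hc, zero_mul, zero_add, ← hhc0]
      have e1 : ∑ x ∈ Finset.univ.erase i, (A.l x ⬝ᵥ c) *
          eval p (quo (ap G (A.pr x (A.a i))) (lf (A.l x))) =
          (S - A.om i p c / 2) * h0 := by
        unfold om
        rw [hS, Finset.sum_div, ← Finset.sum_sub_distrib, Finset.sum_mul]
        refine Finset.sum_congr rfl fun j hj => ?_
        rw [hE (A.a i) j hj, A.la]
        unfold t
        ring
      rw [e1]
      ring
    -- the mixed second derivative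
    have hq0 := A.eval_q_ne_zero i hp
    have hq : eval p (dd c (A.q i)) = eval p (A.q i) * S := by
      unfold q
      rw [dd_prod A c p _ hy]
    have hW : eval p (dd c (A.W i b)) = eval p (A.q i) * (A.om i p b * S - 2 * R) := by
      unfold W
      rw [dd_sum, map_sum]
      unfold om
      rw [hR, Finset.sum_mul, Finset.mul_sum (a := (2 : ℂ)), ← Finset.sum_sub_distrib,
        Finset.mul_sum]
      refine Finset.sum_congr rfl fun j hj => ?_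
      rw [dd_C_mul, map_mul, eval_C, dd_prod A c p _ fun k hk => hy k (Finset.mem_of_mem_erase hk)]
      have e3 : eval p (A.q i) = (A.l j ⬝ᵥ p) *
          eval p (∏ k ∈ (Finset.univ.erase i).erase j, lf (A.l k)) := by
        unfold q
        rw [← Finset.mul_prod_erase (Finset.univ.erase i) _ hj, map_mul, eval_lf]
      have e4 : S = (A.l j ⬝ᵥ c) / (A.l j ⬝ᵥ p) +
          ∑ k ∈ (Finset.univ.erase i).erase j, (A.l k ⬝ᵥ c) / (A.l k ⬝ᵥ p) := by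
        rw [hS, ← Finset.add_sum_erase (Finset.univ.erase i) _ hj]
      rw [e3, e4]
      have := hy j hj
      field_simp
      ring
    have hcc : eval p (dd (A.a i) (dd c (ap G b))) = A.om i p b * hc0 - 2 * h0 * R := by
      have h2 : eval p (dd c (A.q i * dd (A.a i) (ap G b) - A.W i b * ap G (A.a i))) = 0 := by
        obtain ⟨g, hg⟩ := lf_dvd_dd c hc (A.W_form hG i hb)
        rw [hg, map_mul, eval_lf, hp.1, zero_mul]
      rw [dd_sub, dd_mul, dd_mul] at h2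
      simp only [map_sub, map_add, map_mul] at h2
      rw [hq, hW, A.eval_W i hp, V1 A hG i hp b, hb, zero_smul, sub_zero, zero_mul, zero_add,
        ← hh0, ← hhc0, ← dd_comm] at h2
      have h3 : eval p (A.q i) * (eval p (dd (A.a i) (dd c (ap G b))) -
          (A.om i p b * hc0 - 2 * h0 * R)) = 0 := by
        linear_combination h2
      exact sub_eq_zero.1 ((mul_eq_zero.1 h3).resolve_left hq0)
    rw [e2, A.ap_Dop hG, ← Finset.add_sum_erase Finset.univ _ (Finset.mem_univ i)]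
    have e5 : dd (A.a i) (dd c (ap G b) - 2 * (C (A.l i ⬝ᵥ c) *
        quo (ap G (A.pr i b)) (lf (A.l i)) + ∑ j ∈ Finset.univ.erase i, C (A.l j ⬝ᵥ c) *
          quo (ap G (A.pr j b)) (lf (A.l j)))) =
        dd (A.a i) (dd c (ap G b)) - C 2 * (C (A.l i ⬝ᵥ c) *
        dd (A.a i) (quo (ap G (A.pr i b)) (lf (A.l i))) +
          ∑ j ∈ Finset.univ.erase i, C (A.l j ⬝ᵥ c) *
          dd (A.a i) (quo (ap G (A.pr j b)) (lf (A.l j)))) := by
      have e6 : (2 : MvPolynomial σ ℂ) = C 2 := (map_ofNat C 2).symm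
      rw [e6, dd_sub, dd_C_mul, dd_add, dd_C_mul, dd_sum]
      simp only [dd_C_mul]
    rw [e5]
    simp only [map_sub, map_mul, map_add, map_sum, eval_C]
    rw [hc, zero_mul, zero_add, hcc]
    have e7 : ∑ x ∈ Finset.univ.erase i, (A.l x ⬝ᵥ c) *
        eval p (dd (A.a i) (quo (ap G (A.pr x b)) (lf (A.l x)))) =
        -h1 * (∑ j ∈ Finset.univ.erase i,
          (A.l j ⬝ᵥ c) * ((A.l j ⬝ᵥ b) * (A.l i ⬝ᵥ A.a j)) / (A.l j ⬝ᵥ p)) +
        A.om i p b * h0 * S -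
        h0 * (∑ j ∈ Finset.univ.erase i, (A.l j ⬝ᵥ c) * (A.l j ⬝ᵥ b) / (A.l j ⬝ᵥ p) *
          A.om i p (A.a j - (A.l i ⬝ᵥ A.a j) • A.a i)) +
        h0 * R := by
      rw [hS, hR, Finset.mul_sum, Finset.mul_sum, Finset.mul_sum, Finset.mul_sum,
        ← Finset.sum_add_distrib, ← Finset.sum_sub_distrib, ← Finset.sum_add_distrib]
      refine Finset.sum_congr rfl fun j hj => ?_
      rw [hD j hj]
      have := hy j hj
      unfold t
      field_simp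
      ring
    have hK2 := A.K2 i hp hb hc
    rw [e7, hK1]
    linear_combination h0 * hK2

end Datum

end Pool.Agent.Lib.P4a9818
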