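import Pool.Agent.Lib.P4a9818.StabA
import Pool.Agent.Lib.P4a9818.StabB
import Pool.Agent.Lib.P4a9818.Grad

/-!
# P4a9818.FlatBasis : the lattice `InLam` has a basis of flat sections   (estimate 2 h)

* `stab`: `c = (l i ⬝ c) a i + (c - (l i ⬝ c) a i)`; `Dop` is linear in `c` (`Dop_add_left`,
  `Dop_smul_left`), the conditions at `(i, p, b)` are linear in `G`: combine `stabA`, `stabB`.
* `inLam_homog`: use the points `s p`, `s ≠ 0`: `Gen i (s p)`,
  `eval (s p) f = ∑_e s^e eval p (f_e)`, `om i (s p) b = s⁻¹ om i p b`,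
  `eval (s p) (dd α f) = ∑_e s^(e-1) eval p (dd α f_e)`: polynomial identities in `s`, valid for all
  `s ≠ 0`, so they hold coefficientwise.
* `Dop_isHomogeneous`: `quo` of a homogeneous polynomial by `ℓ_j` is homogeneous
  (`isHomogeneous_of_mul`).
* `flat_basis`: `grad_basis` for `L = {G | InLam G}`, `Dk k = Dop (Pi.single k 1)`,
  `m = N - 1 + D`, `q = Q²`. `h6` is `Dop_euler` with `2 N - 2 λ = N - 1 + D` (`Scal.hlam`) and
  `euler`. Note `N ≥ 1` (`Scal.ne`).
-/

namespace Pool.Agent.Lib.P4a9818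

open MvPolynomial Matrix

variable {σ : Type} [Fintype σ] [DecidableEq σ] (A : Datum σ)

namespace FlatBasisAux

omit [DecidableEq σ] in
theorem eval_smul_hom {F : MvPolynomial σ ℂ} {n : ℕ} (hF : F.IsHomogeneous n) (s : ℂ)
    (p : σ → ℂ) : eval (s • p) F = s ^ n * eval p F := by
  rw [eval_eq', eval_eq', Finset.mul_sum]
  refine Finset.sum_congr rfl fun d hd => ?_
  have h1 : ∏ i, (s • p) i ^ d i = s ^ n * ∏ i, p i ^ d i := by
    have h2 : ∑ i, d i = n := by
      have := hF.degree_eq_sum_deg_support hd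
      rw [this]
      exact (Finset.sum_subset (Finset.subset_univ _) (fun i _ hi => by
        simpa using hi)).symm
    simp only [Pi.smul_apply, smul_eq_mul, mul_pow, Finset.prod_mul_distrib]
    rw [Finset.prod_pow_eq_pow_sum, h2]
  rw [h1]; ring

theorem coeff_aux (n : ℕ) (u : ℕ → ℂ) (h : ∀ s : ℂ, s ≠ 0 → ∑ e ∈ Finset.range n, s ^ e * u e = 0)
    (e : ℕ) (he : e < n) : u e = 0 := by
  set P : Polynomial ℂ := ∑ e ∈ Finset.range n, Polynomial.C (u e) * Polynomial.X ^ e with hP
  have h1 : Polynomial.X * P = 0 := by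
    apply Polynomial.funext
    intro s
    by_cases hs : s = 0
    · simp [hs]
    · have h2 := h s hs
      simp only [hP, Polynomial.eval_mul, Polynomial.eval_X, Polynomial.eval_finsetSum,
        Polynomial.eval_C, Polynomial.eval_pow, Polynomial.eval_zero]
      rw [Finset.sum_congr rfl (fun x _ => mul_comm (u x) (s ^ x)), h2, mul_zero]
  have h2 : P = 0 := by
    rcases mul_eq_zero.1 h1 with h3 | h3
    · exact absurd h3 Polynomial.X_ne_zero
    · exact h3
  have h3 : P.coeff e = u e := by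
    simp [hP, Polynomial.finsetSum_coeff, Polynomial.coeff_C_mul, Polynomial.coeff_X_pow, he]
  rw [← h3, h2, Polynomial.coeff_zero]

omit [Fintype σ] [DecidableEq σ] in
theorem sum_hc (f : MvPolynomial σ ℂ) {n : ℕ} (hn : f.totalDegree < n) :
    ∑ e ∈ Finset.range n, homogeneousComponent e f = f := by
  conv_rhs => rw [← sum_homogeneousComponent f]
  symm
  apply Finset.sum_subset
  · intro x hx
    simp only [Finset.mem_range] at hx ⊢
    omega
  · intro x _ hx
    simp only [Finset.mem_range, not_lt] at hx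
    exact homogeneousComponent_eq_zero _ _ (by omega)

omit [DecidableEq σ] in
theorem eval_smul_sum (f : MvPolynomial σ ℂ) {n : ℕ} (hn : f.totalDegree < n) (s : ℂ)
    (p : σ → ℂ) :
    eval (s • p) f = ∑ e ∈ Finset.range n, s ^ e * eval p (homogeneousComponent e f) := by
  conv_lhs => rw [← sum_hc f hn]
  rw [map_sum]
  exact Finset.sum_congr rfl fun e _ =>
    eval_smul_hom (homogeneousComponent_isHomogeneous e f) s p

theorem eval_smul_dd (α : σ → ℂ) (f : MvPolynomial σ ℂ) {n : ℕ} (hn : f.totalDegree < n) (s : ℂ)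
    (p : σ → ℂ) :
    s * eval (s • p) (dd α f)
      = ∑ e ∈ Finset.range n, s ^ e * eval p (dd α (homogeneousComponent e f)) := by
  conv_lhs => rw [← sum_hc f hn]
  rw [dd_sum, map_sum, Finset.mul_sum]
  refine Finset.sum_congr rfl fun e _ => ?_
  rcases e with _ | e
  · have h0 : dd α (homogeneousComponent 0 f) = 0 := by
      rw [homogeneousComponent_zero, dd_C]
    rw [h0]; simp
  · rw [eval_smul_hom (dd_isHomogeneous α (homogeneousComponent_isHomogeneous (e + 1) f)) s p]
    ring

omit [DecidableEq σ] in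
theorem ap_hc (G : σ → MvPolynomial σ ℂ) (b : σ → ℂ) (e : ℕ) :
    ap (fun s => homogeneousComponent e (G s)) b = homogeneousComponent e (ap G b) := by
  simp only [ap, map_sum, homogeneousComponent_C_mul]

theorem gen_smul {i : A.ι} {p : σ → ℂ} (hp : A.Gen i p) {s : ℂ} (hs : s ≠ 0) :
    A.Gen i (s • p) := by
  refine ⟨by rw [dotProduct_smul, hp.1, smul_zero], fun j hj => ?_⟩
  rw [dotProduct_smul, smul_eq_mul]
  exact mul_ne_zero hs (hp.2 j hj)

theorem om_smul (i : A.ι) (p b : σ → ℂ) {s : ℂ} (hs : s ≠ 0) :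
    s * A.om i (s • p) b = A.om i p b := by
  simp only [Datum.om, Finset.mul_sum]
  refine Finset.sum_congr rfl fun j _ => ?_
  rw [dotProduct_smul, smul_eq_mul]
  by_cases h : A.l j ⬝ᵥ p = 0
  · rw [h]; simp
  · field_simp

end FlatBasisAux

namespace Datum

open FlatBasisAux

theorem stab {G : σ → MvPolynomial σ ℂ} (hG : A.InLam G) (c : σ → ℂ) :
    A.InLam (A.Dop c G) := by
  intro i p b hp hb
  set x : ℂ := A.l i ⬝ᵥ c with hx
  set c' : σ → ℂ := c - x • A.a i with hc'
  have hc : c = x • A.a i + c' := by rw [hc']; abel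
  have hl : A.l i ⬝ᵥ c' = 0 := by
    rw [hc', dotProduct_sub, dotProduct_smul, A.la i]
    simp [hx]
  have h1 := A.stabA hG i hp hb
  have h2 := A.stabB hG i hp hb hl
  have h3 : A.Dop c G = (C x : MvPolynomial σ ℂ) • A.Dop (A.a i) G + A.Dop c' G := by
    conv_lhs => rw [hc]
    rw [A.Dop_add_left, A.Dop_smul_left]
  rw [h3, ap_add_left, ap_mul_left, ap_add_left, ap_mul_left, dd_add, dd_C_mul]
  simp only [map_add, map_mul, eval_C]
  refine ⟨by rw [h1.1, h2.1]; ring, ?_⟩
  rw [h1.2, h2.2]; ring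

theorem inLam_homog {G : σ → MvPolynomial σ ℂ} (hG : A.InLam G) (e : ℕ) :
    A.InLam (fun s => homogeneousComponent e (G s)) := by
  intro i p b hp hb
  rw [ap_hc, ap_hc]
  set f := ap G b with hf
  set h := ap G (A.a i) with hh
  set n : ℕ := max e (max f.totalDegree h.totalDegree) + 1 with hn
  have hfn : f.totalDegree < n := by omega
  have hhn : h.totalDegree < n := by omega
  have hen : e < n := by omega
  constructor
  · refine coeff_aux n (fun e => eval p (homogeneousComponent e f)) ?_ e hen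
    intro s hs
    rw [← eval_smul_sum f hfn s p]
    exact (hG i (s • p) b (gen_smul A hp hs) hb).1
  · have h1 := coeff_aux n (fun e => eval p (dd (A.a i) (homogeneousComponent e f))
      - A.om i p b * eval p (homogeneousComponent e h)) ?_ e hen
    · exact sub_eq_zero.1 h1
    · intro s hs
      have h2 := (hG i (s • p) b (gen_smul A hp hs) hb).2
      have h3 : s * eval (s • p) (dd (A.a i) f) = A.om i p b * eval (s • p) h := by
        rw [← hf, ← hh] at h2
        rw [h2, ← mul_assoc, om_smul A i p b hs]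
      rw [eval_smul_dd (A.a i) f hfn s p, eval_smul_sum h hhn s p, Finset.mul_sum] at h3
      simp only [mul_sub, Finset.sum_sub_distrib]
      rw [sub_eq_zero, h3]
      exact Finset.sum_congr rfl fun x _ => by ring

theorem Dop_isHomogeneous {G : σ → MvPolynomial σ ℂ} (hG : A.InLam G) (c : σ → ℂ) {e : ℕ}
    (h : ∀ s, (G s).IsHomogeneous (e + 1)) (s : σ) : (A.Dop c G s).IsHomogeneous e := by
  unfold Datum.Dop
  refine (dd_isHomogeneous c (h s)).sub ?_
  have h0 : ∀ v : σ → ℂ, (ap G v).IsHomogeneous (e + 1) := by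
    intro v
    refine IsHomogeneous.sum _ _ _ fun k _ => ?_
    have := (isHomogeneous_C σ (v k)).mul (h k)
    rwa [zero_add] at this
  have h1 : (∑ j, C (A.l j ⬝ᵥ c) * quo (ap G (A.pr j (Pi.single s 1))) (lf (A.l j))).IsHomogeneous
      e := by
    refine IsHomogeneous.sum _ _ _ fun j _ => ?_
    have h2 : (quo (ap G (A.pr j (Pi.single s 1))) (lf (A.l j))).IsHomogeneous e := by
      have hne : lf (A.l j) ≠ 0 := by
        intro h3
        have h4 := (lf_eq_zero_iff _).1 h3
        have h5 := A.la j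
        rw [h4] at h5
        simp at h5
      refine isHomogeneous_of_mul (isHomogeneous_lf (A.l j)) hne ?_
      rw [mul_quo (A.lf_dvd_ap_pr hG j _), add_comm]
      exact h0 _
    have := (isHomogeneous_C σ (A.l j ⬝ᵥ c)).mul h2
    rwa [zero_add] at this
  have h2 : (2 : MvPolynomial σ ℂ) = C 2 := (map_ofNat C 2).symm
  rw [h2]
  have := (isHomogeneous_C σ (2 : ℂ)).mul h1
  rwa [zero_add] at this

theorem flat_basis {lam : ℂ} {D : ℕ} (hS : A.Scal lam D) :
    ∃ Gb : σ → (σ → MvPolynomial σ ℂ),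
      (∀ s, A.InLam (Gb s)) ∧ (∀ s k, (Gb s k).IsHomogeneous (A.N - 1 + D)) ∧
      (∀ s c, A.Dop c (Gb s) = 0) ∧
      LinearIndependent (MvPolynomial σ ℂ) Gb ∧
      (∀ G, A.InLam G → G ∈ Submodule.span (MvPolynomial σ ℂ) (Set.range Gb)) ∧
      (∀ G, A.InLam G → (∀ k, (G k).IsHomogeneous (A.N - 1 + D)) →
        G ∈ Submodule.span ℂ (Set.range Gb)) := by
  have hN : 1 ≤ A.N := by
    have := hS.ne
    exact Fintype.card_pos
  set L : Submodule (MvPolynomial σ ℂ) (σ → MvPolynomial σ ℂ) :=
    { carrier := {G | A.InLam G}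
      add_mem' := fun {G H} hG hH => A.inLam_add hG hH
      zero_mem' := A.inLam_zero
      smul_mem' := fun f G hG => A.inLam_smul f hG } with hL
  have hmem : ∀ G, G ∈ L ↔ A.InLam G := fun G => Iff.rfl
  obtain ⟨Gb, g1, g2, g3, g4, g5, g6⟩ := grad_basis L (fun k G => A.Dop (Pi.single k 1) G)
    (A.N - 1 + D)
    (fun k G hG => A.stab hG _)
    (fun k G hG H hH => A.Dop_add hG hH _)
    (fun k f G hG => by
      have := A.Dop_smul hG f (Pi.single k 1)
      rwa [dd_single] at this)
    (fun k G hG e he s => A.Dop_isHomogeneous hG _ he s)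
    (fun k G hG h0 => (A.totalDegree_Dop hG _ 0 (fun m => by
      have := (h0 m).totalDegree_le
      exact this)).2 rfl)
    (fun G hG e he => by
      rw [A.Dop_euler hG hS.hT]
      funext m
      simp only [Pi.sub_apply, Pi.smul_apply, smul_eq_mul]
      rw [euler (he m)]
      have h1 : ((A.N - 1 + D : ℕ) : ℂ) = 2 * (A.N : ℂ) - 2 * lam := by
        rw [hS.hlam]
        push_cast [Nat.cast_sub hN]
        ring
      rw [h1, map_sub C (e : ℂ), map_natCast]
      ring)
    (fun G hG e => A.inLam_homog hG e)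
    (A.Q ^ 2) (pow_ne_zero 2 A.Q_ne_zero) (fun G => A.inLam_Q_sq G)
  refine ⟨Gb, g1, g2, fun s c => ?_, g4, g5, g6⟩
  let Φ : (σ → ℂ) →ₗ[ℂ] (σ → MvPolynomial σ ℂ) :=
    { toFun := fun c => A.Dop c (Gb s)
      map_add' := fun c c' => A.Dop_add_left _ _ _
      map_smul' := fun a c => by
        rw [A.Dop_smul_left]
        funext m
        simp [smul_eq_C_mul] }
  have hΦ : Φ = 0 := by
    refine (Pi.basisFun ℂ σ).ext fun k => ?_
    rw [Pi.basisFun_apply]
    exact g3 s k
  have := LinearMap.congr_fun hΦ c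
  exact this

end Datum

end Pool.Agent.Lib.P4a9818
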