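import Pool.Agent.Lib.P4a9818.GDefs

/-!
# P4a9818.GGrad : graded pieces, the ideals `Iu`
-/

namespace Pool.Agent.Lib.P4a9818

open MvPolynomial

namespace GGradAux

/-- abstract: a projection with a Leibniz type shift property preserves ideals generated by
homogeneous elements. -/
private lemma abs_mem {B G ι : Type} [CommRing B] [AddCommGroup G] (P : G → B → B)
    (hP0 : ∀ g, P g 0 = 0) (hPadd : ∀ g a b, P g (a + b) = P g a + P g b)
    (x : ι → B) (d : ι → G) (hx : ∀ g i b, P g (x i * b) = x i * P (g - d i) b)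
    (S : Set ι) {c : B} (hc : c ∈ Ideal.span (x '' S)) (g : G) : P g c ∈ Ideal.span (x '' S) := by
  have key : ∀ a g, P g (a * c) ∈ Ideal.span (x '' S) := by
    refine Submodule.span_induction (p := fun c _ => ∀ a g, P g (a * c) ∈ Ideal.span (x '' S))
      ?_ ?_ ?_ ?_ hc
    · rintro _ ⟨i, hi, rfl⟩ a g
      rw [mul_comm, hx]
      exact Ideal.mul_mem_right _ _ (Ideal.subset_span ⟨i, hi, rfl⟩)
    · intro a g
      rw [mul_zero, hP0]
      exact zero_mem _
    · intro u v _ _ hu hv a g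
      rw [mul_add, hPadd]
      exact add_mem (hu a g) (hv a g)
    · intro r u _ hu a g
      rw [smul_eq_mul, ← mul_assoc]
      exact hu _ g
  have := key 1 g
  rwa [one_mul] at this

private lemma abs_dec {B G ι : Type} [CommRing B] [AddCommGroup G] (P : G → B → B)
    (hP0 : ∀ g, P g 0 = 0) (hPadd : ∀ g a b, P g (a + b) = P g a + P g b)
    (x : ι → B) (d : ι → G) (hx : ∀ g i b, P g (x i * b) = x i * P (g - d i) b)
    (S : Set ι) (j : ι) (g : G) {b : B} (hb : P g b = b)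
    (h : b ∈ Ideal.span (x '' S) ⊔ Ideal.span {x j}) :
    ∃ a, b - x j * P (g - d j) a ∈ Ideal.span (x '' S) := by
  obtain ⟨c, hc, e, he, rfl⟩ := Submodule.mem_sup.1 h
  obtain ⟨a, rfl⟩ := Ideal.mem_span_singleton'.1 he
  refine ⟨a, ?_⟩
  rw [← hb, hPadd, mul_comm a, hx, add_sub_cancel_right]
  exact abs_mem P hP0 hPadd x d hx S hc g

section wt

variable {R κ : Type} [CommRing R]

/-- the projection to the degree `k : ℤ`. -/
private noncomputable def pr (k : ℤ) : MvPolynomial κ R →ₗ[R] MvPolynomial κ R :=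
  if 0 ≤ k then homogeneousComponent k.toNat else 0

private lemma coeff_pr (k : ℤ) (b : MvPolynomial κ R) (m : κ →₀ ℕ) :
    coeff m (pr k b) = if ((m.degree : ℕ) : ℤ) = k then coeff m b else 0 := by
  unfold pr
  by_cases hk : 0 ≤ k
  · rw [if_pos hk, coeff_homogeneousComponent]
    congr 1
    rw [eq_iff_iff]
    constructor
    · intro h; rw [h]; exact Int.toNat_of_nonneg hk
    · intro h; rw [← h]; simp
  · rw [if_neg hk, if_neg (by intro h; apply hk; rw [← h]; positivity)]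
    simp

private lemma mem_WT {k : ℤ} {b : MvPolynomial κ R} :
    b ∈ (WT k : AddSubgroup (MvPolynomial κ R)) ↔
      ∀ m, coeff m b ≠ 0 → ((m.degree : ℕ) : ℤ) = k := Iff.rfl

private lemma pr_mem (k : ℤ) (b : MvPolynomial κ R) :
    pr k b ∈ (WT k : AddSubgroup (MvPolynomial κ R)) := by
  rw [mem_WT]
  intro m hm
  rw [coeff_pr] at hm
  by_contra h
  exact hm (if_neg h)

private lemma pr_eq {k : ℤ} {b : MvPolynomial κ R}
    (hb : b ∈ (WT k : AddSubgroup (MvPolynomial κ R))) : pr k b = b := by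
  rw [mem_WT] at hb
  ext m
  rw [coeff_pr]
  split_ifs with h
  · rfl
  · by_contra h2
    exact h (hb m (Ne.symm h2))

private lemma pr_mul {k l : ℤ} {g : MvPolynomial κ R}
    (hg : g ∈ (WT l : AddSubgroup (MvPolynomial κ R))) (b : MvPolynomial κ R) :
    pr k (g * b) = g * pr (k - l) b := by
  classical
  rw [mem_WT] at hg
  ext m
  rw [coeff_pr, coeff_mul, coeff_mul]
  have h1 : ∀ p ∈ Finset.HasAntidiagonal.antidiagonal m, coeff p.1 g * coeff p.2 (pr (k - l) b)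
      = if ((m.degree : ℕ) : ℤ) = k then coeff p.1 g * coeff p.2 b else 0 := by
    intro p hp
    rw [Finset.HasAntidiagonal.mem_antidiagonal] at hp
    by_cases h0 : coeff p.1 g = 0
    · simp [h0]
    · have h2 := hg _ h0
      have h3 : ((m.degree : ℕ) : ℤ) = ((p.1.degree : ℕ) : ℤ) + ((p.2.degree : ℕ) : ℤ) := by
        rw [← hp, map_add]; push_cast; ring
      rw [coeff_pr]
      by_cases h4 : ((m.degree : ℕ) : ℤ) = k
      · rw [if_pos h4, if_pos (by rw [← h4, h3, h2]; ring)]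
      · rw [if_neg h4, if_neg (by intro h5; apply h4; rw [h3, h2, h5]; ring), mul_zero]
  rw [Finset.sum_congr rfl h1]
  split_ifs <;> simp

private lemma mul_WT {k l : ℤ} {g b : MvPolynomial κ R}
    (hg : g ∈ (WT l : AddSubgroup (MvPolynomial κ R)))
    (hb : b ∈ (WT (k - l) : AddSubgroup (MvPolynomial κ R))) :
    g * b ∈ (WT k : AddSubgroup (MvPolynomial κ R)) := by
  have h := pr_mul (k := k) hg b
  rw [pr_eq hb] at h
  rw [← h]
  exact pr_mem _ _

private lemma X_WT (k : κ) : (X k : MvPolynomial κ R) ∈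
    (WT 1 : AddSubgroup (MvPolynomial κ R)) := by
  classical
  rw [mem_WT]
  intro m hm
  rw [coeff_X] at hm
  have h : Finsupp.single k 1 = m := by
    by_contra h; exact hm (if_neg h)
  rw [← h]
  simp

private lemma hat_WT [Fintype κ] (v : κ → R) : hat v ∈
    (WT 1 : AddSubgroup (MvPolynomial κ R)) := by
  unfold hat
  refine AddSubgroup.sum_mem _ fun k _ => ?_
  rw [mem_WT]
  intro m hm
  rw [coeff_C_mul] at hm
  exact mem_WT.1 (X_WT k) m (right_ne_zero_of_mul hm)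

end wt

section wb

variable {σ κ : Type}

/-- apply an additive map to the coefficients. -/
private noncomputable def cmap {R : Type} [CommRing R] (f : R → R) (b : MvPolynomial κ R) :
    MvPolynomial κ R :=
  ∑ m ∈ b.support, monomial m (f (coeff m b))

private lemma coeff_cmap {R : Type} [CommRing R] (f : R → R) (hf : f 0 = 0)
    (b : MvPolynomial κ R) (m : κ →₀ ℕ) : coeff m (cmap f b) = f (coeff m b) := by
  classical
  unfold cmap
  rw [coeff_sum]
  simp only [coeff_monomial]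
  rw [Finset.sum_ite_eq' b.support m]
  split_ifs with h
  · rfl
  · rw [notMem_support_iff.1 h, hf]

/-- the projection to the bidegree `g`. -/
private noncomputable def pb (g : ℤ × ℤ) (b : MvPolynomial κ (MvPolynomial σ ℂ)) :
    MvPolynomial κ (MvPolynomial σ ℂ) :=
  cmap (fun a => pr g.2 a) (pr g.1 b)

private lemma coeff_pb (g : ℤ × ℤ) (b : MvPolynomial κ (MvPolynomial σ ℂ)) (m : κ →₀ ℕ)
    (u : σ →₀ ℕ) : coeff u (coeff m (pb g b)) =
      if ((m.degree : ℕ) : ℤ) = g.1 ∧ ((u.degree : ℕ) : ℤ) = g.2 then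
        coeff u (coeff m b) else 0 := by
  unfold pb
  rw [coeff_cmap _ (by simp), coeff_pr, coeff_pr]
  by_cases h1 : ((m.degree : ℕ) : ℤ) = g.1 <;> by_cases h2 : ((u.degree : ℕ) : ℤ) = g.2 <;>
    simp [h1, h2]

private lemma mem_WB {k δ : ℤ} {b : MvPolynomial κ (MvPolynomial σ ℂ)} :
    b ∈ (WB k δ : AddSubgroup (MvPolynomial κ (MvPolynomial σ ℂ))) ↔
      ∀ m u, coeff u (coeff m b) ≠ 0 →
    ((m.degree : ℕ) : ℤ) = k ∧ ((u.degree : ℕ) : ℤ) = δ := Iff.rfl

private lemma pb_mem (g : ℤ × ℤ) (b : MvPolynomial κ (MvPolynomial σ ℂ)) :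
    pb g b ∈ (WB g.1 g.2 : AddSubgroup (MvPolynomial κ (MvPolynomial σ ℂ))) := by
  rw [mem_WB]
  intro m u hm
  rw [coeff_pb] at hm
  by_contra h
  exact hm (if_neg h)

private lemma pb_eq {k δ : ℤ} {b : MvPolynomial κ (MvPolynomial σ ℂ)}
    (hb : b ∈ (WB k δ : AddSubgroup (MvPolynomial κ (MvPolynomial σ ℂ)))) :
    pb (k, δ) b = b := by
  rw [mem_WB] at hb
  ext m u
  rw [coeff_pb]
  split_ifs with h
  · rfl
  · by_contra h2
    exact h (hb m u (Ne.symm h2))

private lemma coeff2_mul [DecidableEq σ] [DecidableEq κ]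
    (a b : MvPolynomial κ (MvPolynomial σ ℂ)) (m : κ →₀ ℕ)
    (u : σ →₀ ℕ) : coeff u (coeff m (a * b)) = ∑ p ∈ Finset.HasAntidiagonal.antidiagonal m,
      ∑ q ∈ Finset.HasAntidiagonal.antidiagonal u, coeff q.1 (coeff p.1 a) * coeff q.2 (coeff p.2 b) := by
  rw [coeff_mul, coeff_sum]
  refine Finset.sum_congr rfl fun p _ => ?_
  rw [coeff_mul]

private lemma pb_mul {g h : ℤ × ℤ} {a : MvPolynomial κ (MvPolynomial σ ℂ)}
    (ha : a ∈ (WB h.1 h.2 : AddSubgroup (MvPolynomial κ (MvPolynomial σ ℂ))))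
    (b : MvPolynomial κ (MvPolynomial σ ℂ)) :
    pb g (a * b) = a * pb (g - h) b := by
  classical
  rw [mem_WB] at ha
  ext m u
  rw [coeff_pb, coeff2_mul, coeff2_mul]
  have h1 : ∀ p ∈ Finset.HasAntidiagonal.antidiagonal m, ∀ q ∈ Finset.HasAntidiagonal.antidiagonal u,
      coeff q.1 (coeff p.1 a) * coeff q.2 (coeff p.2 (pb (g - h) b))
      = if ((m.degree : ℕ) : ℤ) = g.1 ∧ ((u.degree : ℕ) : ℤ) = g.2 then
        coeff q.1 (coeff p.1 a) * coeff q.2 (coeff p.2 b) else 0 := by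
    intro p hp q hq
    rw [Finset.HasAntidiagonal.mem_antidiagonal] at hp hq
    by_cases h0 : coeff q.1 (coeff p.1 a) = 0
    · simp [h0]
    · obtain ⟨h2, h2'⟩ := ha _ _ h0
      have h3 : ((m.degree : ℕ) : ℤ) = ((p.1.degree : ℕ) : ℤ) + ((p.2.degree : ℕ) : ℤ) := by
        rw [← hp, map_add]; push_cast; ring
      have h3' : ((u.degree : ℕ) : ℤ) = ((q.1.degree : ℕ) : ℤ) + ((q.2.degree : ℕ) : ℤ) := by
        rw [← hq, map_add]; push_cast; ring
      rw [coeff_pb]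
      have h5 : (((p.2.degree : ℕ) : ℤ) = (g - h).1 ∧ ((q.2.degree : ℕ) : ℤ) = (g - h).2) ↔
          (((m.degree : ℕ) : ℤ) = g.1 ∧ ((u.degree : ℕ) : ℤ) = g.2) := by
        rw [Prod.fst_sub, Prod.snd_sub, h3, h3', h2, h2']
        constructor
        · rintro ⟨h6, h7⟩; exact ⟨by linarith, by linarith⟩
        · rintro ⟨h6, h7⟩; exact ⟨by linarith, by linarith⟩
      rw [if_congr h5 rfl rfl]
      split_ifs <;> simp
  rw [Finset.sum_congr rfl fun p hp => Finset.sum_congr rfl fun q hq => h1 p hp q hq]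
  split_ifs <;> simp

private lemma mul_WB {g h : ℤ × ℤ} {a b : MvPolynomial κ (MvPolynomial σ ℂ)}
    (ha : a ∈ (WB h.1 h.2 : AddSubgroup (MvPolynomial κ (MvPolynomial σ ℂ))))
    (hb : b ∈ (WB (g.1 - h.1) (g.2 - h.2) : AddSubgroup (MvPolynomial κ (MvPolynomial σ ℂ)))) :
    a * b ∈ (WB g.1 g.2 : AddSubgroup (MvPolynomial κ (MvPolynomial σ ℂ))) := by
  have h1 := pb_mul (g := g) ha b
  have h2 : pb (g - h) b = b := pb_eq hb
  rw [h2] at h1
  rw [← h1]
  exact pb_mem _ _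

private lemma hat_WB [Fintype κ] (v : κ → MvPolynomial σ ℂ) {β : ℤ}
    (hv : ∀ k, v k ∈ (WT β : AddSubgroup (MvPolynomial σ ℂ))) :
    hat v ∈ (WB 1 β : AddSubgroup (MvPolynomial κ (MvPolynomial σ ℂ))) := by
  unfold hat
  refine AddSubgroup.sum_mem _ fun k _ => ?_
  rw [mem_WB]
  intro m u hm
  rw [coeff_C_mul] at hm
  have h0 : coeff m (X k : MvPolynomial κ (MvPolynomial σ ℂ)) ≠ 0 := by
    intro h; apply hm; rw [h, mul_zero, coeff_zero]
  refine ⟨mem_WT.1 (X_WT k) m h0, ?_⟩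
  classical
  rw [coeff_X] at hm h0
  have h : Finsupp.single k 1 = m := by
    by_contra h; exact h0 (if_neg h)
  rw [if_pos h, mul_one] at hm
  exact mem_WT.1 (hv k) u hm

end wb

end GGradAux

open GGradAux

section grad

variable {R κ : Type} [CommRing R]

theorem mem_WT_iff (k : ℕ) (b : MvPolynomial κ R) :
    b ∈ (WT (k : ℤ) : AddSubgroup (MvPolynomial κ R)) ↔ b.IsHomogeneous k := by
  rw [mem_WT]
  unfold IsHomogeneous IsWeightedHomogeneous
  refine forall_congr' fun m => imp_congr_right fun _ => ?_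
  rw [Finsupp.degree_eq_weight_one]
  exact Nat.cast_inj

theorem WT_neg {k : ℤ} (hk : k < 0) {b : MvPolynomial κ R}
    (hb : b ∈ (WT k : AddSubgroup (MvPolynomial κ R))) : b = 0 := by
  rw [mem_WT] at hb
  ext m
  rw [coeff_zero]
  by_contra h
  have := hb m h
  omega

theorem C_mul_WT {k : ℤ} (a : R) {b : MvPolynomial κ R}
    (hb : b ∈ (WT k : AddSubgroup (MvPolynomial κ R))) :
    C a * b ∈ (WT k : AddSubgroup (MvPolynomial κ R)) := by
  rw [mem_WT] at hb ⊢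
  intro m hm
  rw [coeff_C_mul] at hm
  exact hb m (right_ne_zero_of_mul hm)

theorem hat_mul_WT [Fintype κ] {k : ℤ} (v : κ → R) {b : MvPolynomial κ R}
    (hb : b ∈ (WT (k - 1) : AddSubgroup (MvPolynomial κ R))) :
    hat v * b ∈ (WT k : AddSubgroup (MvPolynomial κ R)) :=
  mul_WT (hat_WT v) hb

theorem Iu_zero [Fintype κ] {m : ℕ} (Φ : Fin m → κ → R) : Iu Φ 0 = ⊥ := by
  unfold Iu
  have : ({i : Fin m | i.val < 0} : Set (Fin m)) = ∅ := by
    ext i; simp
  rw [this, Set.image_empty, Ideal.span_empty]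

theorem Iu_succ [Fintype κ] {m : ℕ} (Φ : Fin m → κ → R) {j : ℕ} (hj : j < m) :
    Iu Φ (j + 1) = Iu Φ j ⊔ Ideal.span {hat (Φ ⟨j, hj⟩)} := by
  unfold Iu
  rw [← Ideal.span_union]
  congr 1
  have : ({i : Fin m | i.val < j + 1} : Set (Fin m)) = {i : Fin m | i.val < j} ∪ {⟨j, hj⟩} := by
    ext i
    simp only [Set.mem_ofPred_eq, Set.mem_union, Set.mem_singleton_iff, Fin.ext_iff]
    omega
  rw [this, Set.image_union, Set.image_singleton]

theorem Iu_all [Fintype κ] {m : ℕ} (Φ : Fin m → κ → R) :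
    Iu Φ m = Ideal.span (Set.range fun i => hat (Φ i)) := by
  unfold Iu
  congr 1
  have : ({i : Fin m | i.val < m} : Set (Fin m)) = Set.univ := by
    ext i; simp
  rw [this, Set.image_univ]

theorem dec_WT [Fintype κ] {m : ℕ} (Φ : Fin m → κ → R) {j : ℕ} (hj : j < m) (k : ℤ)
    {b : MvPolynomial κ R} (hb : b ∈ (WT k : AddSubgroup (MvPolynomial κ R)))
    (h : b ∈ Iu Φ j ⊔ Ideal.span {hat (Φ ⟨j, hj⟩)}) :
    ∃ a ∈ (WT (k - 1) : AddSubgroup (MvPolynomial κ R)), b - hat (Φ ⟨j, hj⟩) * a ∈ Iu Φ j := by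
  obtain ⟨a, ha⟩ := abs_dec (G := ℤ) (fun g b => pr g b) (fun g => by simp)
    (fun g a b => by simp) (fun i => hat (Φ i)) (fun _ => 1)
    (fun g i b => pr_mul (hat_WT _) b) {i : Fin m | i.val < j} ⟨j, hj⟩ k (pr_eq hb) h
  exact ⟨_, pr_mem _ _, ha⟩

theorem reg_C {r : ℕ} {x : Fin r → R} (hx : Reg x) :
    Reg (fun t => (C (x t) : MvPolynomial κ R)) := by
  have key : ∀ S : Set (Fin r), Ideal.span ((fun t => (C (x t) : MvPolynomial κ R)) '' S)
      = Ideal.map C (Ideal.span (x '' S)) := by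
    intro S
    rw [Ideal.map_span, Set.image_image]
  intro t b hb
  rw [key, mem_map_C_iff] at hb ⊢
  intro m
  refine hx t _ ?_
  have := hb m
  rwa [coeff_C_mul] at this

end grad

section bigrad

variable {σ κ : Type}

theorem mem_WB_iff (k δ : ℤ) (b : MvPolynomial κ (MvPolynomial σ ℂ)) :
    b ∈ (WB k δ : AddSubgroup (MvPolynomial κ (MvPolynomial σ ℂ))) ↔
      b ∈ (WT k : AddSubgroup (MvPolynomial κ (MvPolynomial σ ℂ))) ∧
      ∀ m, coeff m b ∈ (WT δ : AddSubgroup (MvPolynomial σ ℂ)) := by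
  rw [mem_WB]
  constructor
  · intro h
    refine ⟨?_, fun m u hu => (h m u hu).2⟩
    rw [mem_WT]
    intro m hm
    obtain ⟨u, hu⟩ := ne_zero_iff.1 hm
    exact (h m u hu).1
  · rintro ⟨h1, h2⟩ m u hu
    refine ⟨mem_WT.1 h1 m ?_, h2 m u hu⟩
    intro h0
    rw [h0, coeff_zero] at hu
    exact hu rfl

theorem X_mul_WB {k δ : ℤ} (s : σ) {b : MvPolynomial κ (MvPolynomial σ ℂ)}
    (hb : b ∈ (WB k δ : AddSubgroup (MvPolynomial κ (MvPolynomial σ ℂ)))) :
    C (X s) * b ∈ (WB k (δ + 1) : AddSubgroup (MvPolynomial κ (MvPolynomial σ ℂ))) := by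
  rw [mem_WB_iff] at hb ⊢
  refine ⟨C_mul_WT _ hb.1, fun m => ?_⟩
  rw [coeff_C_mul]
  exact mul_WT (X_WT s) (by rw [add_sub_cancel_right]; exact hb.2 m)

theorem hat_mul_WB [Fintype κ] {k δ : ℤ} {β : ℕ} (v : κ → MvPolynomial σ ℂ)
    (hv : ∀ k, (v k).IsHomogeneous β) {b : MvPolynomial κ (MvPolynomial σ ℂ)}
    (hb : b ∈ (WB (k - 1) (δ - β) : AddSubgroup (MvPolynomial κ (MvPolynomial σ ℂ)))) :
    hat v * b ∈ (WB k δ : AddSubgroup (MvPolynomial κ (MvPolynomial σ ℂ))) :=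
  mul_WB (g := (k, δ)) (h := (1, (β : ℤ)))
    (hat_WB v fun k => (mem_WT_iff _ _).2 (hv k)) hb

theorem dec_WB [Fintype κ] {m : ℕ} (Φ : Fin m → κ → MvPolynomial σ ℂ) (β : Fin m → ℕ)
    (hΦ : ∀ i k, (Φ i k).IsHomogeneous (β i)) {j : ℕ} (hj : j < m) (k δ : ℤ)
    {b : MvPolynomial κ (MvPolynomial σ ℂ)}
    (hb : b ∈ (WB k δ : AddSubgroup (MvPolynomial κ (MvPolynomial σ ℂ))))
    (h : b ∈ Iu Φ j ⊔ Ideal.span {hat (Φ ⟨j, hj⟩)}) :
    ∃ a ∈ (WB (k - 1) (δ - β ⟨j, hj⟩) : AddSubgroup (MvPolynomial κ (MvPolynomial σ ℂ))),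
      b - hat (Φ ⟨j, hj⟩) * a ∈ Iu Φ j := by
  obtain ⟨a, ha⟩ := abs_dec (G := ℤ × ℤ) (fun g b => pb g b)
    (fun g => by ext m u; rw [coeff_pb]; simp)
    (fun g a b => by
      ext m u
      simp only [coeff_pb, coeff_add]
      split_ifs <;> simp) (fun i => hat (Φ i)) (fun i => (1, (β i : ℤ)))
    (fun g i b => pb_mul (hat_WB _ fun k => (mem_WT_iff _ _).2 (hΦ i k)) b)
    {i : Fin m | i.val < j} ⟨j, hj⟩ (k, δ) (pb_eq hb) h
  exact ⟨_, pb_mem _ _, ha⟩

/-- Projections. -/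
theorem exists_proj_WT {R : Type} [CommRing R] (k : ℤ) :
    ∃ p : MvPolynomial κ R →ₗ[R] MvPolynomial κ R,
      (∀ b, p b ∈ (WT k : AddSubgroup (MvPolynomial κ R))) ∧
      (∀ b ∈ (WT k : AddSubgroup (MvPolynomial κ R)), p b = b) :=
  ⟨pr k, pr_mem k, fun _ hb => pr_eq hb⟩

end bigrad

end Pool.Agent.Lib.P4a9818
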