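import Pool.Agent.Lib.P4a9818.GKd
import Pool.Agent.Lib.P4a9818.GGrad

/-!
# P4a9818.GBasic : (imports only)
-/
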