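import Pool.Agent.Lib.P4a9818.Defs

/-!
# P4a9818.GDefs : definitions for the homological part (do not change)
-/

namespace Pool.Agent.Lib.P4a9818

open MvPolynomial

/-- The linear form with coefficient vector `v` over a ring. -/
noncomputable def hat {R κ : Type} [CommRing R] [Fintype κ] (v : κ → R) : MvPolynomial κ R :=
  ∑ k, C (v k) * X k

/-- Weakly regular sequence. -/
def Reg {B : Type} [CommRing B] {r : ℕ} (x : Fin r → B) : Prop :=
  ∀ (t : Fin r) (b : B), x t * b ∈ Ideal.span (x '' {s | s < t}) →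
    b ∈ Ideal.span (x '' {s | s < t})

/-- Koszul differential (on cochains; a cochain of degree `i` is only looked at on the sets with
`i` elements). -/
def kd {B : Type} [CommRing B] {r : ℕ} (x : Fin r → B) (c : Finset (Fin r) → B) :
    Finset (Fin r) → B :=
  fun S => ∑ s ∈ S, (-1) ^ (S.filter (· < s)).card * x s * c (S.erase s)

/-- The `i`-th Koszul cohomology with coefficients in `W / (I ∩ W)` vanishes; `W j` contains the
values of cochains of degree `j`. -/
def KV {B : Type} [CommRing B] {r : ℕ} (x : Fin r → B) (I : Ideal B) (W : ℕ → AddSubgroup B)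
    (i : ℕ) : Prop :=
  ∀ c : Finset (Fin r) → B, (∀ S, S.card = i → c S ∈ W i) →
    (∀ S, S.card = i + 1 → kd x c S ∈ I) →
    ∃ e : Finset (Fin r) → B, (∀ S, S.card + 1 = i → e S ∈ W (i - 1)) ∧
      ∀ S, S.card = i → c S - kd x e S ∈ I

/-- Polynomials homogeneous of degree `k : ℤ` (only `0` if `k < 0`). -/
def WT {R κ : Type} [CommRing R] (k : ℤ) : AddSubgroup (MvPolynomial κ R) where
  carrier := {b | ∀ m, coeff m b ≠ 0 → ((m.degree : ℕ) : ℤ) = k}
  add_mem' := by
    intro a b ha hb m hm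
    by_cases h : coeff m a = 0
    · exact hb m (by rwa [coeff_add, h, zero_add] at hm)
    · exact ha m h
  zero_mem' := by intro m hm; simp at hm
  neg_mem' := by intro a ha m hm; exact ha m (by simpa using hm)

/-- Bihomogeneous polynomials of bidegree `(k, δ)`. -/
def WB {σ κ : Type} (k δ : ℤ) : AddSubgroup (MvPolynomial κ (MvPolynomial σ ℂ)) where
  carrier := {b | ∀ m u, coeff u (coeff m b) ≠ 0 →
    ((m.degree : ℕ) : ℤ) = k ∧ ((u.degree : ℕ) : ℤ) = δ}
  add_mem' := by
    intro a b ha hb m u hm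
    by_cases h : coeff u (coeff m a) = 0
    · exact hb m u (by rwa [coeff_add, coeff_add, h, zero_add] at hm)
    · exact ha m u h
  zero_mem' := by intro m u hm; simp at hm
  neg_mem' := by intro a ha m u hm; exact ha m u (by simpa using hm)

/-- The ideal generated by the first `j` linear forms. -/
noncomputable def Iu {R κ : Type} [CommRing R] [Fintype κ] {m : ℕ} (Φ : Fin m → κ → R) (j : ℕ) :
    Ideal (MvPolynomial κ R) :=
  Ideal.span ((fun i => hat (Φ i)) '' {i | i.val < j})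

/-- The rows of `Φ` are linearly independent modulo the prime `𝔮`. -/
def Ind {R κ : Type} [CommRing R] {m : ℕ} (Φ : Fin m → κ → R) (𝔮 : Ideal R) : Prop :=
  ∀ a : Fin m → R, (∀ k, ∑ i, a i * Φ i k ∈ 𝔮) → ∀ i, a i ∈ 𝔮

/-- The generators `F` of an ideal of height two, with free syzygies `Φ`. -/
structure Pres {σ κ : Type} [Fintype κ] (F : κ → MvPolynomial σ ℂ) (D m : ℕ)
    (Φ : Fin m → κ → MvPolynomial σ ℂ) (b : Fin m → ℕ) : Prop where
  card : m + 1 = Fintype.card κ
  homF : ∀ k, (F k).IsHomogeneous D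
  homΦ : ∀ i k, (Φ i k).IsHomogeneous (b i)
  sumb : ∑ i, b i = D
  indep : LinearIndependent (MvPolynomial σ ℂ) Φ
  syz : ∀ η : κ → MvPolynomial σ ℂ,
    η ∈ Submodule.span (MvPolynomial σ ℂ) (Set.range Φ) ↔ ∑ k, η k * F k = 0
  nodvd : ∀ p : MvPolynomial σ ℂ, Prime p → ∃ k, ¬ p ∣ F k

/-- Every prime contains a regular sequence of length four, or the ideal `(F)` is locally
generated by `c ≤ 3` elements and the prime contains a regular sequence of length `c`. -/
def LocGen {σ κ : Type} (F : κ → MvPolynomial σ ℂ) : Prop :=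
  ∀ 𝔭 : Ideal (MvPolynomial σ ℂ), 𝔭.IsPrime → 𝔭 ≠ ⊥ →
    (∃ x : Fin 4 → MvPolynomial σ ℂ, Reg x ∧ ∀ t, x t ∈ 𝔭) ∨
    ∃ c, 1 ≤ c ∧ c ≤ 3 ∧ (∃ x : Fin c → MvPolynomial σ ℂ, Reg x ∧ ∀ t, x t ∈ 𝔭) ∧
      ∃ h : Fin c → MvPolynomial σ ℂ, (∀ t, h t ∈ Ideal.span (Set.range F)) ∧
        ∃ s, s ∉ 𝔭 ∧ ∀ k, s * F k ∈ Ideal.span (Set.range h)

end Pool.Agent.Lib.P4a9818
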