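import Pool.Agent.Lib.P4a9818.Reps

/-!
# P4a9818.Sums : class sums at a generic point of `H_i`   (estimate 1 h)

All three are instances of `Reps.class_sum`.
* `K0` (matrices): the class sums of `φ k = P i * P k - P k * P i` vanish because
  `P i T_X = (c/2) P i = T_X P i` (`rank2_l`, `rank2_a`; the term `k = i` is zero).
* `K1`: `φ k = (l k ⬝ b) (l i ⬝ a k)`, `b ∈ H_i`: the class sum is `l i T_X b - (l i ⬝ b)
  = (c/2 - 1) (l i ⬝ b) = 0` (`rank2_l` with `k := i` dotted with `b`).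
* `K3`: `φ k = 1 - 2 t i k - [k ∈ rep i]` (`class_sum_rep`).
-/

namespace Pool.Agent.Lib.P4a9818

open MvPolynomial Matrix

variable {σ : Type} [Fintype σ] [DecidableEq σ] (A : Datum σ)

namespace Datum

namespace SumsAux

lemma P_mul_apply (i k : A.ι) (r s : σ) :
    (A.P i * A.P k) r s = A.a i r * (A.l i ⬝ᵥ A.a k) * A.l k s := by
  simp only [P, Matrix.mul_apply, vecMulVec_apply, dotProduct, Finset.mul_sum, Finset.sum_mul]
  refine Finset.sum_congr rfl fun x _ => ?_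
  ring

end SumsAux

open SumsAux

theorem K0 (i : A.ι) {p w : σ → ℂ} (hp : A.Gen i p) (hw : A.l i ⬝ᵥ w = 0) :
    ∑ k ∈ Finset.univ.erase i, ((A.l k ⬝ᵥ w) / (A.l k ⬝ᵥ p)) •
      (A.P i * A.P k - A.P k * A.P i) = 0 := by
  refine A.class_sum i (fun k => A.P i * A.P k - A.P k * A.P i) (fun j hj => ?_) hp hw
  rw [Finset.sum_erase (A.cls i j) (by rw [sub_self])]
  ext r s
  rw [Matrix.sum_apply, Matrix.zero_apply]
  simp only [Matrix.sub_apply, P_mul_apply]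
  rw [Finset.sum_sub_distrib]
  have h1 := congrFun (A.rank2_l hj.symm (A.left_mem_cls i j)) s
  have h2 := congrFun (A.rank2_a hj.symm (A.left_mem_cls i j)) r
  rw [Finset.sum_apply] at h1 h2
  simp only [Pi.smul_apply, smul_eq_mul] at h1 h2
  have e1 : ∑ x ∈ A.cls i j, A.a i r * (A.l i ⬝ᵥ A.a x) * A.l x s =
      A.a i r * ∑ x ∈ A.cls i j, (A.l i ⬝ᵥ A.a x) * A.l x s := by
    rw [Finset.mul_sum]
    exact Finset.sum_congr rfl fun x _ => by ring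
  have e2 : ∑ x ∈ A.cls i j, A.a x r * (A.l x ⬝ᵥ A.a i) * A.l i s =
      (∑ x ∈ A.cls i j, (A.l x ⬝ᵥ A.a i) * A.a x r) * A.l i s := by
    rw [Finset.sum_mul]
    exact Finset.sum_congr rfl fun x _ => by ring
  rw [e1, e2, h1, h2]
  ring

theorem K1 (i : A.ι) {p w b : σ → ℂ} (hp : A.Gen i p) (hw : A.l i ⬝ᵥ w = 0)
    (hb : A.l i ⬝ᵥ b = 0) :
    ∑ k ∈ Finset.univ.erase i, ((A.l k ⬝ᵥ w) / (A.l k ⬝ᵥ p)) *
      ((A.l k ⬝ᵥ b) * (A.l i ⬝ᵥ A.a k)) = 0 := by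
  refine A.class_sum i (fun k => (A.l k ⬝ᵥ b) * (A.l i ⬝ᵥ A.a k)) (fun j hj => ?_) hp hw
  rw [Finset.sum_erase (A.cls i j) (by rw [hb, zero_mul])]
  have h1 := congrArg (fun v => v ⬝ᵥ b) (A.rank2_l hj.symm (A.left_mem_cls i j))
  simp only [smul_dotProduct, hb, smul_zero] at h1
  rw [sum_dotProduct] at h1
  rw [← h1]
  refine Finset.sum_congr rfl fun k _ => ?_
  rw [smul_dotProduct, smul_eq_mul]
  ring

theorem K3 (i : A.ι) {p b : σ → ℂ} (hp : A.Gen i p) (hb : A.l i ⬝ᵥ b = 0) :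
    ∑ k ∈ Finset.univ.erase i, ((A.l k ⬝ᵥ b) / (A.l k ⬝ᵥ p)) * (1 - 2 * A.t i k)
      = ∑ r ∈ A.rep i, (A.l r ⬝ᵥ b) / (A.l r ⬝ᵥ p) := by
  classical
  have h := A.class_sum i (fun k => (1 : ℂ) - 2 * A.t i k -
    (open Classical in if k ∈ A.rep i then (1 : ℂ) else 0)) (A.class_sum_rep i) hp hb
  simp only [smul_eq_mul] at h
  have hsub : A.rep i ⊆ Finset.univ.erase i := fun r hr =>
    Finset.mem_erase.2 ⟨fun h1 => (A.isRep_rep i).1 (h1 ▸ hr), Finset.mem_univ r⟩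
  have e1 : ∑ r ∈ A.rep i, (A.l r ⬝ᵥ b) / (A.l r ⬝ᵥ p) = ∑ k ∈ Finset.univ.erase i,
      ((A.l k ⬝ᵥ b) / (A.l k ⬝ᵥ p)) * (if k ∈ A.rep i then (1 : ℂ) else 0) := by
    have e2 : ∑ r ∈ A.rep i, (A.l r ⬝ᵥ b) / (A.l r ⬝ᵥ p) = ∑ r ∈ A.rep i,
        ((A.l r ⬝ᵥ b) / (A.l r ⬝ᵥ p)) * (if r ∈ A.rep i then (1 : ℂ) else 0) :=
      Finset.sum_congr rfl fun r hr => by rw [if_pos hr, mul_one]
    rw [e2]
    refine Finset.sum_subset hsub fun k _ hk => ?_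
    rw [if_neg hk, mul_zero]
  rw [← sub_eq_zero, ← h, e1, ← Finset.sum_sub_distrib]
  refine Finset.sum_congr rfl fun k _ => ?_
  rw [mul_sub ((A.l k ⬝ᵥ b) / (A.l k ⬝ᵥ p)) (1 - 2 * A.t i k)]

end Datum

end Pool.Agent.Lib.P4a9818
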