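import Pool.Agent.Lib.P4a9818.LamBasic
import Pool.Agent.Lib.P4a9818.Sums

/-!
# P4a9818.GFL : the forms `GF F = Q ∇F - F ∇Q`   (estimate 2.5 h)

* `ap_GF`: `ap (GF F) v = Q ∂_v F - F ∂_v Q` (linearity of `dd` in the direction).
* `GF_isHomogeneous`: degrees `N + (D - 1)`; `N ≥ 1`; for `D = 0` the polynomial `F` is constant and
  `pderiv k F = 0`.
* `inLam_GF_iff`. Fix `i`, `α = a i`, `p` generic on `H_i`, `b ∈ H_i`; `Q = ℓ_i q_i`. Then
  `ap (GF F) b` vanishes at `p` (`Q(p) = 0`, `∂_b Q(p) = 0`), `ap (GF F) α (p) = -F(p) q_i(p)`,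
  `∂_α (ap (GF F) b)(p) = q_i(p) ∂_b F(p) - F(p) ∂_b q_i(p)`
  (`∂_b Q = ℓ_i ∂_b q_i`, so `∂_α ∂_b Q (p) = ∂_b q_i(p)`).
  So the condition of `InLam` is `q_i ∂_b F - F ∂_b q_i = -ω(b) F q_i` at `p`, that is, with
  `∂_b q_i(p) = q_i(p) ∑_{j≠i} (l j ⬝ b)/(l j ⬝ p)` and `ω(b) = ∑_{j≠i} 2 t i j (l j ⬝ b)/(l j ⬝ p)`,
  `∂_b F(p) = F(p) ∑_{j≠i} (l j ⬝ b)/(l j ⬝ p) (1 - 2 t i j) = F(p) ∑_{r∈rep i} (l r ⬝ b)/(l r ⬝ p)`
  (`K3`), i.e. `π_i(p) ∂_b F(p) = F(p) ∂_b π_i(p)` (`π_i = A.pi i`). So `InLam (GF F)` iff for all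
  `i`, all `p, b ∈ H_i` (generic `p`, hence all `p` by density / `lf_dvd_of_gen`):
  `(*) π_i(p) ∂_b F(p) = F(p) ∂_b π_i(p)`.
  (⇐) if `F = C c π_i + ℓ_i u` then `F = c π_i`, `∂_b F = c ∂_b π_i` at points of `H_i`.
  (⇒) let `p0` be a point of `H_i` with `π_i(p0) ≠ 0` (generic), `c = F(p0)/π_i(p0)`,
  `h = F - C c π_i`. For `p ∈ H_i` put `f(s) = h(p0 + s (p - p0))`, `g(s) = π_i(p0 + s (p - p0))`
  (one variable polynomials). By `(*)` `g f' = f g'`, `f(0) = 0`, `g(0) ≠ 0`; if `f ≠ 0`,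
  `f = s^k f1`, `k ≥ 1`, `f1(0) ≠ 0`: dividing by `s^(k-1)`: `g (k f1 + s f1') = s f1 g'`, at
  `s = 0`: `k g(0) f1(0) = 0`, contradiction. So `h(p) = 0` for all `p ∈ H_i`.
* `X_GF`: Euler for `F` and `Q`.
* `GF_add`, `GF_smul`: linearity.
* `flat_to_F`. Let `G` be flat (`Dop c G = 0`), homogeneous of degree `m = N - 1 + D`, `InLam`.
  `x·G = ∑ X_k G_k` vanishes at the points `p` of `H_i` (`x·G (p) = ap G p (p)` and `G(b)(p) = 0` for
  `b = p ∈ H_i`, `InLam`), so `Q ∣ x·G` (`prod_lf_dvd`): `Q F = x·G`, `F` homogeneous of degree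
  `m + 1 - N = D` (`isHomogeneous_of_mul`). By `Dop_closed` is not available here; it is the
  hypothesis `hcl`: `Q ∂_k G_m - 2 ∂_k Q G_m = Q ∂_m G_k - 2 ∂_m Q G_k`. Then
  `Q ∂_k (Q F) = Q G_k + ∑_m X_m Q ∂_k G_m
   = Q G_k + ∑_m X_m (Q ∂_m G_k + 2 ∂_k Q G_m - 2 ∂_m Q G_k)
   = Q G_k + m' Q G_k + 2 ∂_k Q Q F - 2 N Q G_k` (`m' = N - 1 + D` the degree), divide by `Q`:
  `∂_k Q F + Q ∂_k F = (1 + m' - 2 N) G_k + 2 F ∂_k Q`, i.e. `GF F k = (D - N) G_k`.
-/

namespace Pool.Agent.Lib.P4a9818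

open MvPolynomial Matrix

namespace GFLAux

variable {σ : Type} [Fintype σ] [DecidableEq σ]

theorem eval_dd_prod {κ : Type} [DecidableEq κ] (s : Finset κ) (w : κ → σ → ℂ)
    (b p : σ → ℂ) (h : ∀ j ∈ s, w j ⬝ᵥ p ≠ 0) :
    eval p (dd b (∏ j ∈ s, lf (w j))) =
      eval p (∏ j ∈ s, lf (w j)) * ∑ j ∈ s, (w j ⬝ᵥ b) / (w j ⬝ᵥ p) := by
  induction s using Finset.induction_on with
  | empty =>
    simp only [Finset.prod_empty, Finset.sum_empty, mul_zero]
    have := dd_C b (1 : ℂ)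
    rw [C_1] at this
    rw [this, map_zero]
  | insert a s ha ih =>
    rw [Finset.prod_insert ha, Finset.sum_insert ha, dd_mul, map_add, map_mul, map_mul, map_mul,
      ih (fun j hj => h j (Finset.mem_insert_of_mem hj)), dd_lf, eval_C, eval_lf]
    have hne := h a (Finset.mem_insert_self _ _)
    field_simp

/-- The restriction to a line. -/
noncomputable def ln (p d : σ → ℂ) : MvPolynomial σ ℂ →ₐ[ℂ] Polynomial ℂ :=
  aeval (fun k => Polynomial.C (p k) + Polynomial.X * Polynomial.C (d k))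

theorem eval_ln (p d : σ → ℂ) (f : MvPolynomial σ ℂ) (s : ℂ) :
    (ln p d f).eval s = eval (p + s • d) f := by
  unfold ln
  induction f using MvPolynomial.induction_on with
  | C a => simp
  | add f g hf hg => rw [map_add, Polynomial.eval_add, hf, hg, map_add]
  | mul_X f k hf =>
    rw [map_mul, Polynomial.eval_mul, hf, map_mul, aeval_X, eval_X]
    simp only [Polynomial.eval_add, Polynomial.eval_mul, Polynomial.eval_C, Polynomial.eval_X,
      Pi.add_apply, Pi.smul_apply, smul_eq_mul]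

theorem derivative_ln (p d : σ → ℂ) (f : MvPolynomial σ ℂ) :
    Polynomial.derivative (ln p d f) = ln p d (dd d f) := by
  induction f using MvPolynomial.induction_on with
  | C a =>
    rw [dd_C, map_zero]
    unfold ln
    rw [algHom_C]
    simp
  | add f g hf hg => rw [map_add, Polynomial.derivative_add, hf, hg, dd_add, map_add]
  | mul_X f k hf =>
    have h1 : dd d (X k : MvPolynomial σ ℂ) = C (d k) := by
      rw [← lf_single, dd_lf, single_dotProduct, one_mul]
    have h2 : ln p d (X k) = Polynomial.C (p k) + Polynomial.X * Polynomial.C (d k) := by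
      unfold ln
      rw [aeval_X]
    have h3 : ln p d (C (d k)) = Polynomial.C (d k) := by
      unfold ln
      rw [algHom_C]
      rfl
    rw [map_mul, Polynomial.derivative_mul, hf, dd_mul, map_add, map_mul, map_mul, h1, h2, h3]
    simp

theorem pow_dvd {f g : Polynomial ℂ} (h : g * Polynomial.derivative f = f * Polynomial.derivative g)
    (h0 : f.eval 0 = 0) (hg : g.eval 0 ≠ 0) (n : ℕ) : Polynomial.X ^ (n + 1) ∣ f := by
  induction n with
  | zero =>
    rw [zero_add, pow_one, Polynomial.X_dvd_iff, Polynomial.coeff_zero_eq_eval_zero]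
    exact h0
  | succ n ih =>
    obtain ⟨u, hu⟩ := ih
    have h1 : Polynomial.X ^ n * (g * (((n : Polynomial ℂ) + 1) * u + Polynomial.X * Polynomial.derivative u) -
        Polynomial.X * u * Polynomial.derivative g) = 0 := by
      rw [hu, Polynomial.derivative_mul, Polynomial.derivative_X_pow] at h
      have hC : (Polynomial.C ((n : ℂ)) : Polynomial ℂ) = (n : Polynomial ℂ) :=
        Polynomial.C_eq_natCast n
      push_cast at h
      simp only [map_add, Polynomial.C_1, hC] at h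
      linear_combination h
    have h2 := (mul_eq_zero.mp h1).resolve_left (pow_ne_zero _ Polynomial.X_ne_zero)
    have h3 := congrArg (Polynomial.eval 0) h2
    simp only [Polynomial.eval_sub, Polynomial.eval_mul, Polynomial.eval_add,
      Polynomial.eval_X, zero_mul, Polynomial.eval_zero, add_zero, sub_zero,
      Polynomial.eval_natCast, Polynomial.eval_one, mul_eq_zero, hg, false_or] at h3
    have h4 : (n : ℂ) + 1 ≠ 0 := by exact_mod_cast Nat.succ_ne_zero n
    have h5 : Polynomial.X ∣ u := by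
      rw [Polynomial.X_dvd_iff, Polynomial.coeff_zero_eq_eval_zero]
      exact h3.resolve_left h4
    rw [hu, pow_succ _ (n + 1)]
    exact mul_dvd_mul_left _ h5

theorem eq_zero_of_wronskian {f g : Polynomial ℂ}
    (h : g * Polynomial.derivative f = f * Polynomial.derivative g)
    (h0 : f.eval 0 = 0) (hg : g.eval 0 ≠ 0) : f = 0 := by
  by_contra hf
  have h1 := Polynomial.degree_le_of_dvd (pow_dvd h h0 hg f.natDegree) hf
  rw [Polynomial.degree_X_pow, Polynomial.degree_eq_natDegree hf] at h1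
  have h2 : f.natDegree + 1 ≤ f.natDegree := by exact_mod_cast h1
  omega

end GFLAux

variable {σ : Type} [Fintype σ] [DecidableEq σ] (A : Datum σ)

namespace Datum

theorem ap_GF (F : MvPolynomial σ ℂ) (v : σ → ℂ) :
    ap (A.GF F) v = A.Q * dd v F - F * dd v A.Q := by
  unfold ap GF dd
  rw [Finset.mul_sum, Finset.mul_sum, ← Finset.sum_sub_distrib]
  exact Finset.sum_congr rfl fun k _ => by ring

theorem GF_isHomogeneous (hne : Nonempty A.ι) {F : MvPolynomial σ ℂ} {D : ℕ}
    (hF : F.IsHomogeneous D) (k : σ) : (A.GF F k).IsHomogeneous (A.N - 1 + D) := by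
  have hN : 1 ≤ A.N := Fintype.card_pos
  unfold GF
  rcases Nat.eq_zero_or_pos D with rfl | hD
  · have h1 : pderiv k F = 0 := by
      rw [(totalDegree_eq_zero_iff_eq_C (p := F)).mp
        (Nat.le_zero.mp (hF.totalDegree_le)), pderiv_C]
    rw [h1, mul_zero, zero_sub]
    have h2 := (hF.mul (A.Q_isHomogeneous.pderiv (i := k))).neg
    rwa [zero_add] at h2
  · have h1 := A.Q_isHomogeneous.mul (hF.pderiv (i := k))
    have h2 := hF.mul (A.Q_isHomogeneous.pderiv (i := k))
    have e1 : A.N + (D - 1) = A.N - 1 + D := by omega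
    have e2 : D + (A.N - 1) = A.N - 1 + D := by omega
    rw [e1] at h1
    rw [e2] at h2
    exact h1.sub h2

theorem GFLAux_key (i : A.ι) {p b : σ → ℂ} (hp : A.Gen i p) (hb : A.l i ⬝ᵥ b = 0) :
    eval p (dd b (A.pi i)) = eval p (A.pi i) * ∑ r ∈ A.rep i, (A.l r ⬝ᵥ b) / (A.l r ⬝ᵥ p) := by
  unfold pi
  apply GFLAux.eval_dd_prod
  intro j hj
  apply hp.2
  rintro rfl
  exact (A.isRep_rep j).1 hj

theorem GFLAux_q (i : A.ι) {p : σ → ℂ} (b : σ → ℂ) (hp : A.Gen i p) :
    eval p (dd b (A.q i)) =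
      eval p (A.q i) * ∑ j ∈ Finset.univ.erase i, (A.l j ⬝ᵥ b) / (A.l j ⬝ᵥ p) := by
  unfold q
  apply GFLAux.eval_dd_prod
  intro j hj
  exact hp.2 j (Finset.ne_of_mem_erase hj)

theorem GFLAux_pi_ne (i : A.ι) {p : σ → ℂ} (hp : A.Gen i p) : eval p (A.pi i) ≠ 0 := by
  unfold pi
  rw [eval_prod, Finset.prod_ne_zero_iff]
  intro j hj
  rw [eval_lf]
  apply hp.2
  rintro rfl
  exact (A.isRep_rep j).1 hj

/-- The pointwise form of the lattice condition for `GF F`. -/
theorem GFLAux_iff (F : MvPolynomial σ ℂ) :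
    A.InLam (A.GF F) ↔ ∀ i b, A.l i ⬝ᵥ b = 0 →
      lf (A.l i) ∣ A.pi i * dd b F - F * dd b (A.pi i) := by
  have main : ∀ i p b, A.Gen i p → A.l i ⬝ᵥ b = 0 →
      ((eval p (ap (A.GF F) b) = 0 ∧
      eval p (dd (A.a i) (ap (A.GF F) b)) = A.om i p b * eval p (ap (A.GF F) (A.a i))) ↔
      eval p (A.pi i * dd b F - F * dd b (A.pi i)) = 0) := by
    intro i p b hp hb
    have e1 : ap (A.GF F) b = lf (A.l i) * (A.q i * dd b F - F * dd b (A.q i)) := by
      rw [ap_GF, A.Q_eq i, dd_mul, dd_lf, hb, C_0]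
      ring
    have e2 : eval p (ap (A.GF F) b) = 0 := by
      rw [e1, map_mul, eval_lf, hp.1, zero_mul]
    have e3 : eval p (dd (A.a i) (ap (A.GF F) b)) =
        eval p (A.q i) * eval p (dd b F) - eval p F * eval p (dd b (A.q i)) := by
      rw [e1, eval_dd_mul_lf _ _ _ _ hp.1, A.la i, one_mul, map_sub, map_mul, map_mul]
    have e4 : eval p (ap (A.GF F) (A.a i)) = -(eval p F * eval p (A.q i)) := by
      rw [ap_GF, A.Q_eq i, map_sub, map_mul, map_mul, map_mul,
        eval_dd_mul_lf _ _ _ _ hp.1, A.la i, eval_lf, hp.1]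
      ring
    have hq := A.eval_q_ne_zero i hp
    have hpi := A.GFLAux_pi_ne i hp
    have hK := A.K3 i hp hb
    have hom : A.om i p b = ∑ j ∈ Finset.univ.erase i,
        2 * A.t i j * (A.l j ⬝ᵥ b) / (A.l j ⬝ᵥ p) := rfl
    have hsum : ∑ j ∈ Finset.univ.erase i, (A.l j ⬝ᵥ b) / (A.l j ⬝ᵥ p) - A.om i p b =
        ∑ r ∈ A.rep i, (A.l r ⬝ᵥ b) / (A.l r ⬝ᵥ p) := by
      rw [← hK, hom, ← Finset.sum_sub_distrib]
      refine Finset.sum_congr rfl fun j _ => ?_
      ring
    rw [and_iff_right e2, e3, e4, A.GFLAux_q i b hp, map_sub, map_mul, map_mul,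
      A.GFLAux_key i hp hb, ← hsum]
    constructor
    · intro h
      have h1 : eval p (A.q i) * (eval p (dd b F) - eval p F *
          (∑ j ∈ Finset.univ.erase i, (A.l j ⬝ᵥ b) / (A.l j ⬝ᵥ p) - A.om i p b)) = 0 := by
        linear_combination h
      have h2 := (mul_eq_zero.mp h1).resolve_left hq
      linear_combination eval p (A.pi i) * h2
    · intro h
      have h1 : eval p (A.pi i) * (eval p (dd b F) - eval p F *
          (∑ j ∈ Finset.univ.erase i, (A.l j ⬝ᵥ b) / (A.l j ⬝ᵥ p) - A.om i p b)) = 0 := by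
        linear_combination h
      have h2 := (mul_eq_zero.mp h1).resolve_left hpi
      linear_combination eval p (A.q i) * h2
  constructor
  · intro h i b hb
    apply A.lf_dvd_of_gen i
    intro p hp
    exact (main i p b hp hb).mp (h i p b hp hb)
  · intro h i p b hp hb
    apply (main i p b hp hb).mpr
    exact (lf_dvd_iff (A.l_ne_zero i) _).mp (h i b hb) p hp.1

theorem inLam_GF_iff (F : MvPolynomial σ ℂ) :
    A.InLam (A.GF F) ↔ ∀ i, ∃ c : ℂ, lf (A.l i) ∣ F - C c * A.pi i := by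
  rw [A.GFLAux_iff]
  constructor
  · intro h i
    obtain ⟨p0, hp0⟩ := A.exists_gen i
    have hpi := A.GFLAux_pi_ne i hp0
    refine ⟨eval p0 F / eval p0 (A.pi i), ?_⟩
    set c : ℂ := eval p0 F / eval p0 (A.pi i) with hc
    set H : MvPolynomial σ ℂ := F - C c * A.pi i with hH
    have hH0 : eval p0 H = 0 := by
      rw [hH, map_sub, map_mul, eval_C, hc]
      field_simp
      ring
    rw [lf_dvd_iff (A.l_ne_zero i)]
    intro p hp
    have hd : A.l i ⬝ᵥ (p - p0) = 0 := by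
      rw [dotProduct_sub, hp, hp0.1, sub_zero]
    have hW : ∀ s : ℂ, eval (p0 + s • (p - p0))
        (A.pi i * dd (p - p0) H - H * dd (p - p0) (A.pi i)) = 0 := by
      intro s
      have h1 : A.pi i * dd (p - p0) H - H * dd (p - p0) (A.pi i) =
          A.pi i * dd (p - p0) F - F * dd (p - p0) (A.pi i) := by
        rw [hH, dd_sub, dd_C_mul]
        ring
      rw [h1]
      apply (lf_dvd_iff (A.l_ne_zero i) _).mp (h i _ hd)
      rw [dotProduct_add, dotProduct_smul, hd, hp0.1, smul_zero, add_zero]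
    have hwr : GFLAux.ln p0 (p - p0) (A.pi i) *
        Polynomial.derivative (GFLAux.ln p0 (p - p0) H) =
        GFLAux.ln p0 (p - p0) H * Polynomial.derivative (GFLAux.ln p0 (p - p0) (A.pi i)) := by
      rw [GFLAux.derivative_ln, GFLAux.derivative_ln, ← map_mul, ← map_mul, ← sub_eq_zero,
        ← map_sub]
      apply Polynomial.funext
      intro s
      rw [GFLAux.eval_ln, hW s, Polynomial.eval_zero]
    have hz := GFLAux.eq_zero_of_wronskian hwr
      (by rw [GFLAux.eval_ln, zero_smul, add_zero]; exact hH0)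
      (by rw [GFLAux.eval_ln, zero_smul, add_zero]; exact hpi)
    have h1 := GFLAux.eval_ln p0 (p - p0) H 1
    rw [hz, Polynomial.eval_zero, one_smul, add_sub_cancel] at h1
    exact h1.symm
  · intro h i b hb
    obtain ⟨c, u, hu⟩ := h i
    have h1 : F = C c * A.pi i + lf (A.l i) * u := by rw [← hu]; ring
    refine ⟨A.pi i * dd b u - u * dd b (A.pi i), ?_⟩
    rw [h1, dd_add, dd_C_mul, dd_mul, dd_lf, hb, C_0]
    ring

theorem X_GF {F : MvPolynomial σ ℂ} {D : ℕ} (hF : F.IsHomogeneous D) :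
    ∑ k, X k * A.GF F k = C ((D : ℂ) - A.N) * (A.Q * F) := by
  have h1 := euler hF
  have h2 := euler A.Q_isHomogeneous
  have h3 : ∑ k, X k * A.GF F k = A.Q * (∑ k, X k * pderiv k F) -
      F * (∑ k, X k * pderiv k A.Q) := by
    rw [Finset.mul_sum, Finset.mul_sum, ← Finset.sum_sub_distrib]
    refine Finset.sum_congr rfl fun k _ => ?_
    unfold GF
    ring
  rw [h3, h1, h2, map_sub, map_natCast, map_natCast]
  ring

theorem GF_add (F F' : MvPolynomial σ ℂ) : A.GF (F + F') = A.GF F + A.GF F' := by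
  funext k
  simp only [GF, Pi.add_apply, map_add]
  ring

theorem GF_smul (c : ℂ) (F : MvPolynomial σ ℂ) : A.GF (c • F) = c • A.GF F := by
  funext k
  have h : pderiv k (c • F) = c • pderiv k F := (pderiv k).map_smul c F
  simp only [GF, Pi.smul_apply, h, smul_sub, mul_smul_comm, smul_mul_assoc]

theorem flat_to_F {G : σ → MvPolynomial σ ℂ} (hG : A.InLam G) {D : ℕ} (hne : Nonempty A.ι)
    (hh : ∀ k, (G k).IsHomogeneous (A.N - 1 + D))
    (hcl : ∀ k m, A.Q * pderiv k (G m) - 2 * pderiv k A.Q * G m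
      = A.Q * pderiv m (G k) - 2 * pderiv m A.Q * G k) :
    ∃ F : MvPolynomial σ ℂ, F.IsHomogeneous D ∧ A.Q * F = ∑ k, X k * G k ∧
      A.GF F = (C ((D : ℂ) - A.N) : MvPolynomial σ ℂ) • G := by
  have hN : 1 ≤ A.N := Fintype.card_pos
  have hdvd : A.Q ∣ ∑ k, X k * G k := by
    unfold Q
    apply prod_lf_dvd
    · intro j _
      exact A.l_ne_zero j
    · intro i _ j _ hij c
      exact A.l_not_smul hij c
    · intro i _
      apply A.lf_dvd_of_gen i
      intro p hp
      have h1 := (hG i p p hp hp.1).1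
      rw [← h1]
      unfold ap
      rw [map_sum, map_sum]
      refine Finset.sum_congr rfl fun k _ => ?_
      rw [map_mul, map_mul, eval_X, eval_C]
  obtain ⟨F, hF⟩ := hdvd
  have hhs : (∑ k, X k * G k).IsHomogeneous (A.N + D) := by
    apply IsHomogeneous.sum
    intro k _
    have := (isHomogeneous_X ℂ k).mul (hh k)
    have e : 1 + (A.N - 1 + D) = A.N + D := by omega
    rwa [e] at this
  have hFh : F.IsHomogeneous D := by
    apply isHomogeneous_of_mul A.Q_isHomogeneous A.Q_ne_zero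
    rw [← hF]
    exact hhs
  refine ⟨F, hFh, hF.symm, ?_⟩
  funext k
  rw [Pi.smul_apply, smul_eq_mul]
  apply mul_left_cancel₀ A.Q_ne_zero
  have e1 := congrArg (pderiv k) hF
  rw [pderiv_mul, map_sum] at e1
  have e2 : ∑ m, pderiv k (X m * G m) = G k + ∑ m, X m * pderiv k (G m) := by
    have : ∀ m, pderiv k (X m * G m) = (if m = k then G k else 0) + X m * pderiv k (G m) := by
      intro m
      rw [pderiv_mul]
      by_cases hmk : m = k
      · subst hmk
        rw [pderiv_X_self, if_pos rfl, one_mul]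
      · rw [pderiv_X_of_ne hmk, if_neg hmk, zero_mul]
    rw [Finset.sum_congr rfl (fun m _ => this m), Finset.sum_add_distrib,
      Finset.sum_ite_eq' , if_pos (Finset.mem_univ _)]
  rw [e2] at e1
  have e3 : A.Q * ∑ m, X m * pderiv k (G m) =
      A.Q * ∑ m, X m * pderiv m (G k) + 2 * pderiv k A.Q * ∑ m, X m * G m -
        2 * (∑ m, X m * pderiv m A.Q) * G k := by
    simp only [Finset.mul_sum, Finset.sum_mul]
    rw [← Finset.sum_add_distrib, ← Finset.sum_sub_distrib]
    refine Finset.sum_congr rfl fun m _ => ?_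
    linear_combination X m * hcl k m
  rw [euler (hh k), euler A.Q_isHomogeneous, hF] at e3
  have e4 : ((A.N - 1 + D : ℕ) : MvPolynomial σ ℂ) = (A.N : MvPolynomial σ ℂ) - 1 + D := by
    push_cast [Nat.cast_sub hN]
    ring
  rw [e4] at e3
  simp only [GF, map_sub, map_natCast]
  linear_combination e3 - A.Q * e1

end Datum

end Pool.Agent.Lib.P4a9818
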