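import Pool.Agent.Lib.P4a9818.GDefs

/-!
# P4a9818.GKd : the Koszul differential

* `kd_kd`: `kd x (kd x c) S = ∑_{s∈S} ∑_{t∈S∖s} ± x s x t c(S∖{s,t})`; the terms `(s,t)` and
  `(t,s)` cancel.
-/

namespace Pool.Agent.Lib.P4a9818

open MvPolynomial

namespace GKdAux

variable {B : Type} [CommRing B] {r : ℕ}

theorem card_lt {S : Finset (Fin r)} {s t : Fin r} (hs : s ∈ S) (hst : s < t) :
    ((S.erase s).filter (· < t)).card + 1 = (S.filter (· < t)).card := by
  have h : (S.erase s).filter (· < t) = (S.filter (· < t)).erase s := by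
    ext u
    simp only [Finset.mem_filter, Finset.mem_erase]
    tauto
  rw [h, Finset.card_erase_add_one]
  exact Finset.mem_filter.mpr ⟨hs, hst⟩

theorem card_gt {S : Finset (Fin r)} {s t : Fin r} (hst : s < t) :
    (S.erase t).filter (· < s) = S.filter (· < s) := by
  ext u
  simp only [Finset.mem_filter, Finset.mem_erase]
  constructor
  · rintro ⟨⟨_, h1⟩, h2⟩
    exact ⟨h1, h2⟩
  · rintro ⟨h1, h2⟩
    exact ⟨⟨(h2.trans hst).ne, h1⟩, h2⟩

theorem cancel (x : Fin r → B) (c : Finset (Fin r) → B) {S : Finset (Fin r)} {s t : Fin r}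
    (hs : s ∈ S) (hst : s < t) :
    (-1) ^ (S.filter (· < s)).card * x s *
        ((-1) ^ ((S.erase s).filter (· < t)).card * x t * c ((S.erase s).erase t)) +
      (-1) ^ (S.filter (· < t)).card * x t *
        ((-1) ^ ((S.erase t).filter (· < s)).card * x s * c ((S.erase t).erase s)) = 0 := by
  rw [card_gt hst, ← card_lt hs hst, Finset.erase_right_comm (s := S) (a := t) (b := s), pow_succ]
  ring

end GKdAux

open GKdAux

section kos

variable {B : Type} [CommRing B] {r : ℕ} (x : Fin r → B)

theorem kd_add (c c' : Finset (Fin r) → B) : kd x (c + c') = kd x c + kd x c' := by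
  funext S
  simp only [kd, Pi.add_apply]
  rw [← Finset.sum_add_distrib]
  exact Finset.sum_congr rfl fun s _ => by ring

theorem kd_sub (c c' : Finset (Fin r) → B) : kd x (c - c') = kd x c - kd x c' := by
  funext S
  simp only [kd, Pi.sub_apply]
  rw [← Finset.sum_sub_distrib]
  exact Finset.sum_congr rfl fun s _ => by ring

theorem kd_mul (b : B) (c : Finset (Fin r) → B) :
    kd x (fun S => b * c S) = fun S => b * kd x c S := by
  funext S
  simp only [kd]
  rw [Finset.mul_sum]
  exact Finset.sum_congr rfl fun s _ => by ring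

theorem kd_kd (c : Finset (Fin r) → B) : kd x (kd x c) = 0 := by
  funext S
  simp only [kd, Pi.zero_apply, Finset.mul_sum]
  rw [Finset.sum_sigma']
  refine Finset.sum_involution (fun p _ => ⟨p.2, p.1⟩) ?_ ?_ ?_ ?_
  · rintro ⟨s, t⟩ h
    simp only [Finset.mem_sigma, Finset.mem_erase] at h
    obtain ⟨hs, hne, ht⟩ := h
    rcases lt_or_gt_of_ne hne with hlt | hlt
    · have := cancel x c ht hlt
      rw [add_comm] at this
      exact this
    · exact cancel x c hs hlt
  · rintro ⟨s, t⟩ h _ heq
    simp only [Finset.mem_sigma, Finset.mem_erase] at h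
    have : t = s := congrArg Sigma.fst heq
    exact h.2.1 this
  · rintro ⟨s, t⟩ h
    simp only [Finset.mem_sigma, Finset.mem_erase] at h ⊢
    exact ⟨h.2.2, fun e => h.2.1 e.symm, h.1⟩
  · rintro ⟨s, t⟩ _
    rfl

theorem kd_empty (c : Finset (Fin r) → B) : kd x c ∅ = 0 := by
  simp [kd]

theorem kd_singleton (c : Finset (Fin r) → B) (t : Fin r) : kd x c {t} = x t * c ∅ := by
  have h : (({t} : Finset (Fin r)).filter (· < t)) = ∅ := by
    ext u
    simp only [Finset.mem_filter, Finset.mem_singleton, Finset.notMem_empty, iff_false]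
    rintro ⟨rfl, h⟩
    exact lt_irrefl _ h
  simp only [kd, Finset.sum_singleton]
  rw [h, Finset.card_empty, pow_zero, one_mul, Finset.erase_singleton]

theorem kd_pair (c : Finset (Fin r) → B) {s t : Fin r} (h : s < t) :
    kd x c {s, t} = x s * c {t} - x t * c {s} := by
  have hne : s ≠ t := h.ne
  have h1 : (({s, t} : Finset (Fin r)).filter (· < s)) = ∅ := by
    ext u
    simp only [Finset.mem_filter, Finset.mem_insert, Finset.mem_singleton, Finset.notMem_empty,
      iff_false]
    rintro ⟨rfl | rfl, h'⟩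
    · exact lt_irrefl _ h'
    · exact lt_asymm h h'
  have h2 : (({s, t} : Finset (Fin r)).filter (· < t)) = {s} := by
    ext u
    simp only [Finset.mem_filter, Finset.mem_insert, Finset.mem_singleton]
    constructor
    · rintro ⟨rfl | rfl, h'⟩
      · rfl
      · exact absurd h' (lt_irrefl _)
    · rintro rfl
      exact ⟨Or.inl rfl, h⟩
  have h3 : ({s, t} : Finset (Fin r)).erase s = {t} := by
    rw [Finset.erase_insert]
    rwa [Finset.mem_singleton]
  have h4 : ({s, t} : Finset (Fin r)).erase t = {s} := by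
    rw [Finset.pair_comm, Finset.erase_insert]
    rw [Finset.mem_singleton]
    exact hne.symm
  simp only [kd]
  rw [Finset.sum_pair hne, h1, h2, h3, h4, Finset.card_empty, Finset.card_singleton]
  ring

end kos

end Pool.Agent.Lib.P4a9818
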