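import Pool.Agent.Lib.P4a9818.LinReg

/-!
# P4a9818.Gen : generic exactness   (estimate 2 h)

`R` an infinite domain (`ℂ[x]`), `K = FractionRing R` (an infinite field),
`μ = MvPolynomial.map (algebraMap R K)`. `μ (hat v) = hat (algebraMap ∘ v)`, and `R`-linearly independent
vectors in `R^κ` are `K`-linearly independent in `K^κ` (clear denominators;
`LinearIndependent.iff_fractionRing` or similar).
* `clear_denoms`: if `μ b` lies in the ideal generated by the `μ (g i)` (`i ∈ ι` finite) then there is `r ≠ 0`
  with `C r * b ∈ (g i)`: multiply the coefficients of the (finitely many) cofactors by a common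
  denominator; `μ` is injective.
* `gen_inj`: apply `lin_inj` over `K`, then `clear_denoms`.
* `gen_ker`: over `K` the rows `Φ i` (`m + 1 = card κ` of them are independent) span the orthogonal
  complement of `F` (they are orthogonal to `F ≠ 0`, dimension `card κ - 1`; `F ≠ 0` because otherwise
  the syzygies would be all of `R^κ`, of rank `m + 1`). So the common zero space of the `Φ i` in `K^κ`
  is the line `K F`, and `b`, homogeneous of degree `k`, with `b(F) = 0` vanishes on it. By
  `lin_vanish` `μ b ∈ (hat Φ i)`, then `clear_denoms`.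
-/

namespace Pool.Agent.Lib.P4a9818

open MvPolynomial

variable {R κ : Type} [CommRing R] [IsDomain R] [Infinite R] [Fintype κ]

omit [IsDomain R] [Infinite R] [Fintype κ] in
private theorem exists_denom (hd : IsDomain R) (c : MvPolynomial κ (FractionRing R)) :
    ∃ (r : R) (c' : MvPolynomial κ R), r ≠ 0 ∧
      MvPolynomial.map (algebraMap R (FractionRing R)) c'
        = C (algebraMap R (FractionRing R) r) * c := by
  induction c using MvPolynomial.induction_on with
  | C a =>
    obtain ⟨x, y, hy, rfl⟩ := IsFractionRing.div_surjective (A := R) a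
    refine ⟨y, C x, nonZeroDivisors.ne_zero hy, ?_⟩
    rw [map_C, ← C_mul]
    congr 1
    have hy0 : algebraMap R (FractionRing R) y ≠ 0 := by
      rw [Ne, IsFractionRing.to_map_eq_zero_iff]
      exact nonZeroDivisors.ne_zero hy
    field_simp
  | add p q hp hq =>
    obtain ⟨r1, c1, h1, e1⟩ := hp
    obtain ⟨r2, c2, h2, e2⟩ := hq
    refine ⟨r1 * r2, C r2 * c1 + C r1 * c2, mul_ne_zero h1 h2, ?_⟩
    rw [map_add, map_mul, map_mul, map_C, map_C, e1, e2, map_mul, C_mul]
    ring
  | mul_X p i hp =>
    obtain ⟨r, c', h, e⟩ := hp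
    refine ⟨r, c' * X i, h, ?_⟩
    rw [map_mul, e, map_X]
    ring

omit [Infinite R] [Fintype κ] in
theorem clear_denoms {ι : Type} [Finite ι] (g : ι → MvPolynomial κ R) (b : MvPolynomial κ R)
    (h : MvPolynomial.map (algebraMap R (FractionRing R)) b ∈
      Ideal.span (Set.range fun i => MvPolynomial.map (algebraMap R (FractionRing R)) (g i))) :
    ∃ r : R, r ≠ 0 ∧ C r * b ∈ Ideal.span (Set.range g) := by
  classical
  have := Fintype.ofFinite ι
  obtain ⟨c, hc⟩ := Ideal.mem_span_range_iff_exists_fun.1 h
  choose r c' hr hc' using fun i => exists_denom (R := R) inferInstance (c i)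
  refine ⟨∏ i, r i, Finset.prod_ne_zero_iff.2 fun i _ => hr i, ?_⟩
  rw [Ideal.mem_span_range_iff_exists_fun]
  refine ⟨fun i => C (∏ j ∈ Finset.univ.erase i, r j) * c' i, ?_⟩
  apply MvPolynomial.map_injective _ (IsFractionRing.injective R (FractionRing R))
  rw [map_sum, map_mul, map_C, ← hc, Finset.mul_sum]
  refine Finset.sum_congr rfl fun i _ => ?_
  rw [map_mul, map_mul, map_C, hc', ← Finset.mul_prod_erase Finset.univ r (Finset.mem_univ i),
    map_mul, C_mul]
  ring

omit [IsDomain R] [Infinite R] in
private theorem map_hat {S : Type} [CommRing S] (f : R →+* S) (v : κ → R) :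
    MvPolynomial.map f (hat v) = hat (fun k => f (v k)) := by
  simp [hat, map_sum]

omit [IsDomain R] [Infinite R] [Fintype κ] in
private theorem indep_frac {m : ℕ} (Φ : Fin m → κ → R) (hΦ : LinearIndependent R Φ) :
    LinearIndependent (FractionRing R)
      (fun i k => algebraMap R (FractionRing R) (Φ i k)) := by
  rw [← LinearIndependent.iff_fractionRing R (FractionRing R)]
  have h := hΦ.map' ((Algebra.linearMap R (FractionRing R)).compLeft κ) (by
    rw [LinearMap.ker_eq_bot]
    intro x y hxy
    funext k
    exact IsFractionRing.injective R (FractionRing R) (congrFun hxy k))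
  exact h

theorem gen_inj {m : ℕ} (Φ : Fin m → κ → R) (hΦ : LinearIndependent R Φ) {j : ℕ} (hj : j < m)
    {a : MvPolynomial κ R} (ha : hat (Φ ⟨j, hj⟩) * a ∈ Iu Φ j) :
    ∃ r : R, r ≠ 0 ∧ C r * a ∈ Iu Φ j := by
  set f := algebraMap R (FractionRing R) with hf
  set v : Fin m → κ → FractionRing R := fun i k => f (Φ i k) with hv
  have hinf : Infinite (FractionRing R) :=
    Infinite.of_injective f (IsFractionRing.injective R (FractionRing R))
  have hIu : ∀ x ∈ Iu Φ j, MvPolynomial.map f x ∈ Iu v j := by
    intro x hx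
    have h1 : Iu Φ j ≤ (Iu v j).comap (MvPolynomial.map f) := by
      rw [Iu, Ideal.span_le]
      rintro _ ⟨i, hi, rfl⟩
      change MvPolynomial.map f (hat (Φ i)) ∈ Iu v j
      rw [map_hat]
      exact Ideal.subset_span ⟨i, hi, rfl⟩
    exact h1 hx
  have h1 : hat (v ⟨j, hj⟩) * MvPolynomial.map f a ∈ Iu v j := by
    have h2 := hIu _ ha
    rwa [map_mul, map_hat] at h2
  have h2 := lin_inj v (indep_frac Φ hΦ) hj h1
  have e : ∀ {S : Type} [CommRing S] (w : Fin m → κ → S),
      Iu w j = Ideal.span (Set.range fun i : {i : Fin m // i.val < j} => hat (w i)) := by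
    intro S _ w
    rw [Iu, Set.image_eq_range]
    rfl
  rw [e] at h2 ⊢
  apply clear_denoms
  have e2 : (fun i : {i : Fin m // i.val < j} => MvPolynomial.map f (hat (Φ i)))
      = fun i : {i : Fin m // i.val < j} => hat (v i) := by
    funext i
    rw [map_hat]
  rw [← hf, e2]
  exact h2

omit [IsDomain R] [Infinite R] in
private theorem eval_smul_hom {k : ℕ} {b : MvPolynomial κ R} (hb : b.IsHomogeneous k) (c : R)
    (x : κ → R) : eval (c • x) b = c ^ k * eval x b := by
  rw [eval_eq', eval_eq', Finset.mul_sum]
  refine Finset.sum_congr rfl fun d hd => ?_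
  have h1 : ∑ i, d i = k := by
    have h2 := hb (mem_support_iff.1 hd)
    have h3 : Finsupp.weight (1 : κ → ℕ) d = d.degree := by
      rw [Finsupp.degree_eq_weight_one]
      rfl
    rw [← h2, h3, Finsupp.degree_eq_sum]
  have h3 : ∏ i, (c • x) i ^ d i = c ^ k * ∏ i, x i ^ d i := by
    rw [← h1, ← Finset.prod_pow_eq_pow_sum, ← Finset.prod_mul_distrib]
    exact Finset.prod_congr rfl fun i _ => by rw [Pi.smul_apply, smul_eq_mul, mul_pow]
  rw [h3]
  ring

theorem gen_ker {m : ℕ} (Φ : Fin m → κ → R) (hΦ : LinearIndependent R Φ)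
    (hm : m + 1 = Fintype.card κ) (F : κ → R)
    (hF : ∀ i, ∑ k, Φ i k * F k = 0) (hF0 : F ≠ 0) {k : ℕ} {b : MvPolynomial κ R}
    (hb : b.IsHomogeneous k) (hbF : eval F b = 0) :
    ∃ r : R, r ≠ 0 ∧ C r * b ∈ Iu Φ m := by
  classical
  set f := algebraMap R (FractionRing R) with hf
  have hfi : Function.Injective f := IsFractionRing.injective R (FractionRing R)
  set v : Fin m → κ → FractionRing R := fun i k => f (Φ i k) with hv
  have hinf : Infinite (FractionRing R) := Infinite.of_injective f hfi
  have hind := indep_frac Φ hΦ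
  rw [Iu_all]
  apply clear_denoms
  have e2 : (fun i => MvPolynomial.map f (hat (Φ i))) = fun i => hat (v i) := by
    funext i
    rw [map_hat]
  rw [← hf, e2, lin_vanish]
  intro y hy
  -- the common zero space is a line
  let M : Matrix (Fin m) κ (FractionRing R) := Matrix.of v
  have hrank : M.rank = m := by
    have h1 : LinearIndependent (FractionRing R) M.row := hind
    rw [h1.rank_matrix, Fintype.card_fin]
  have hker : Module.finrank (FractionRing R) (LinearMap.ker M.mulVecLin) = 1 := by
    have h1 := LinearMap.finrank_range_add_finrank_ker M.mulVecLin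
    rw [Module.finrank_fintype_fun_eq_card, ← hm] at h1
    have h2 : Module.finrank (FractionRing R) (LinearMap.range M.mulVecLin) = m := hrank
    omega
  have hmem : ∀ w : κ → FractionRing R, (∀ t, ∑ k, v t k * w k = 0) →
      w ∈ LinearMap.ker M.mulVecLin := by
    intro w hw
    rw [LinearMap.mem_ker]
    funext t
    exact hw t
  have hFm : (fun k => f (F k)) ∈ LinearMap.ker M.mulVecLin := by
    apply hmem
    intro t
    have h1 := congrArg f (hF t)
    rw [map_sum, map_zero] at h1
    simpa [hv] using h1
  have hF0' : (⟨fun k => f (F k), hFm⟩ : LinearMap.ker M.mulVecLin) ≠ 0 := by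
    intro h0
    apply hF0
    funext k
    have h1 := congrFun (congrArg Subtype.val h0) k
    exact hfi (by rw [Pi.zero_apply, map_zero]; exact h1)
  obtain ⟨c, hc⟩ := (finrank_eq_one_iff_of_nonzero' _ hF0').1 hker ⟨y, hmem y hy⟩
  have hc' : y = c • (fun k => f (F k)) := (congrArg Subtype.val hc).symm
  rw [hc', eval_smul_hom (hb.map f)]
  have h3 : eval (fun k => f (F k)) (MvPolynomial.map f b) = f (eval F b) := by
    rw [eval_map]
    have h4 := MvPolynomial.eval₂_comp_right f (RingHom.id R) F b
    rw [map_id] at h4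
    exact h4.symm
  rw [h3, hbF, map_zero, mul_zero]

end Pool.Agent.Lib.P4a9818
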