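import Pool.Agent.Lib.P4a9818.DpDeg

/-!
# P4a9818.HB : the syzygies of the `Fb` are free   (estimate 3 h)

Let `ηb`, `d` be from `DpG`, `u_i = ⟨ηb i⟩ / Q` (`⟨η⟩ = ∑ η_k Fb k`), zero or homogeneous of degree
`d i + D - N`. Let `𝔲` be the ideal generated by the `u_i`; then `u ∈ 𝔲 ↔ u Q ∈ (Fb)` (if
`u Q = ⟨η⟩` then `η ∈ Dp = span ηb`), so all `X_k ∈ 𝔲` (`IsBas.XQ`).
* Some `u_i` is a nonzero constant. Otherwise all `u_i` are homogeneous without constant term;
  `X_k = ∑_i a_{k i} u_i`, compare the linear terms: `X_k = ∑_i C (a_{k i}(0)) (u_i)_1`. So the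
  `n = card σ` linear forms `(u_i)_1` span the space of all linear forms, hence are all nonzero, and
  `d i + D - N = 1` for all `i`. Then `N = ∑ d i = n (N - D + 1)` (`DpDeg`), but
  `n (N + 1) = 2 N + n D` (`Scal.hN`), so `N = 2 N`, `N = 0`, contradiction to `Scal.hD : D < N`.
* Let `u_{i0} = C a`, `a ≠ 0`; so `Q ∈ (Fb)` and `d i0 = N - D`. For `i ≠ i0` put
  `φ_i = ηb i - C a⁻¹ u_i • ηb i0`, homogeneous of degree `d i` with `⟨φ_i⟩ = 0`. If `⟨η⟩ = 0` then
  `η = ∑ a_i ηb i` with `∑ a_i u_i = 0`, so `η = ∑_{i ≠ i0} a_i φ_i`. They are independent.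
  `∑_{i≠i0} d i = N - (N - D) = D`. Index `{i // i ≠ i0}` by `Fin m`, `m + 1 = card σ`.
-/

namespace Pool.Agent.Lib.P4a9818

open MvPolynomial Matrix

variable {σ : Type} [Fintype σ] [DecidableEq σ] (A : Datum σ)

namespace HBAux

theorem comp_mul {σ : Type} {c p : MvPolynomial σ ℂ} {k : ℕ} (hp : p.IsHomogeneous k) (e : ℕ) :
    homogeneousComponent (e + k) (c * p) = homogeneousComponent e c * p := by
  have h1 : ∀ d, homogeneousComponent (e + k) (homogeneousComponent d c * p)
      = if e = d then homogeneousComponent d c * p else 0 := by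
    intro d
    have hm : homogeneousComponent d c * p ∈ homogeneousSubmodule σ ℂ (d + k) :=
      (homogeneousComponent_isHomogeneous d c).mul hp
    rw [homogeneousComponent_of_mem hm]
    simp
  conv_lhs => rw [← sum_homogeneousComponent c, Finset.sum_mul, map_sum]
  simp only [h1]
  rw [Finset.sum_ite_eq]
  split_ifs with h
  · rfl
  · rw [Finset.mem_range, not_lt] at h
    rw [homogeneousComponent_eq_zero e c (by omega), zero_mul]

theorem comp_mul_lt {σ : Type} {c p : MvPolynomial σ ℂ} {k : ℕ} (hp : p.IsHomogeneous k) {e : ℕ}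
    (he : e < k) : homogeneousComponent e (c * p) = 0 := by
  conv_lhs => rw [← sum_homogeneousComponent c, Finset.sum_mul, map_sum]
  refine Finset.sum_eq_zero fun d _ => ?_
  have hm : homogeneousComponent d c * p ∈ homogeneousSubmodule σ ℂ (d + k) :=
    (homogeneousComponent_isHomogeneous d c).mul hp
  rw [homogeneousComponent_of_mem hm, if_neg (by omega)]

theorem X_indep {σ : Type} : LinearIndependent ℂ (X : σ → MvPolynomial σ ℂ) := by
  have h := (MvPolynomial.basisMonomials σ ℂ).linearIndependent.comp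
    (fun k : σ => Finsupp.single k 1) (Finsupp.single_left_injective one_ne_zero)
  rw [MvPolynomial.coe_basisMonomials] at h
  exact h

/-- If all `X k` are combinations of the `v i` then no `v i` is zero. -/
theorem ne_zero_of_span {σ : Type} [Fintype σ] [DecidableEq σ] (v : σ → MvPolynomial σ ℂ)
    (h : ∀ k, (X k : MvPolynomial σ ℂ) ∈ Submodule.span ℂ (Set.range v)) (i : σ) : v i ≠ 0 := by
  classical
  intro hi
  set W := Submodule.span ℂ (Set.range v) with hW
  have hW' : W = Submodule.span ℂ (((Finset.univ.erase i).image v : Finset (MvPolynomial σ ℂ)) :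
      Set (MvPolynomial σ ℂ)) := by
    apply le_antisymm
    · rw [hW, Submodule.span_le]
      rintro _ ⟨j, rfl⟩
      by_cases hj : j = i
      · subst hj
        rw [hi]
        exact Submodule.zero_mem _
      · apply Submodule.subset_span
        rw [Finset.mem_coe, Finset.mem_image]
        exact ⟨j, Finset.mem_erase.2 ⟨hj, Finset.mem_univ _⟩, rfl⟩
    · rw [Submodule.span_le]
      intro x hx
      rw [Finset.mem_coe, Finset.mem_image] at hx
      obtain ⟨j, _, rfl⟩ := hx
      exact Submodule.subset_span ⟨j, rfl⟩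
  have hfin : Module.finrank ℂ W ≤ Fintype.card σ - 1 := by
    rw [hW']
    refine (finrank_span_finset_le_card _).trans ?_
    refine Finset.card_image_le.trans ?_
    rw [Finset.card_erase_of_mem (Finset.mem_univ _), Finset.card_univ]
  have : Module.Finite ℂ W := by
    rw [hW']
    exact Module.Finite.span_finset _ _
  have hli : LinearIndependent ℂ (fun k : σ => (⟨X k, h k⟩ : W)) := by
    apply LinearIndependent.of_comp W.subtype
    exact X_indep
  have := hli.fintype_card_le_finrank
  have hpos : 0 < Fintype.card σ := Fintype.card_pos_iff.2 ⟨i⟩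
  omega

end HBAux

namespace Datum

theorem hilbert_burch {lam : ℂ} {D : ℕ} (hS : A.Scal lam D) {Fb : σ → MvPolynomial σ ℂ}
    (hF : A.IsBas D Fb) :
    A.Q ∈ Ideal.span (Set.range Fb) ∧
    ∃ (m : ℕ) (Φ : Fin m → σ → MvPolynomial σ ℂ) (b : Fin m → ℕ), m + 1 = Fintype.card σ ∧
      (∀ i k, (Φ i k).IsHomogeneous (b i)) ∧ ∑ i, b i = D ∧
      LinearIndependent (MvPolynomial σ ℂ) Φ ∧
      ∀ η : σ → MvPolynomial σ ℂ, η ∈ Submodule.span (MvPolynomial σ ℂ) (Set.range Φ) ↔
        ∑ k, η k * Fb k = 0 := by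
  classical
  obtain ⟨ηb, d, hh, hi, hs⟩ := A.DpS_free hS hF
  have hsum := A.DpS_degrees hS hF ηb d hh hi hs
  have hQ0 := A.Q_ne_zero
  have hu : ∀ i, ∃ u, ∑ k, ηb i k * Fb k = A.Q * u := by
    intro i
    have : ηb i ∈ A.DpS Fb := by
      rw [← hs]
      exact Submodule.subset_span ⟨i, rfl⟩
    exact this
  choose u hu using hu
  have hhom : ∀ i, (∑ k, ηb i k * Fb k).IsHomogeneous (d i + D) := by
    intro i
    exact IsHomogeneous.sum _ _ _ fun k _ => (hh i k).mul (hF.hom k)
  have hu0 : ∀ i, d i + D < A.N → u i = 0 := by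
    intro i hlt
    have h0 := eq_zero_of_dvd (hhom i) A.Q_isHomogeneous ⟨u i, hu i⟩ hlt
    rw [hu i] at h0
    rcases mul_eq_zero.1 h0 with h | h
    · exact absurd h hQ0
    · exact h
  have hu1 : ∀ i, A.N ≤ d i + D → (u i).IsHomogeneous (d i + D - A.N) := by
    intro i hle
    refine isHomogeneous_of_mul A.Q_isHomogeneous hQ0 ?_
    rw [← hu i, Nat.add_sub_cancel' hle]
    exact hhom i
  -- expansions in the basis
  have hexp : ∀ η : σ → MvPolynomial σ ℂ, η ∈ A.DpS Fb →
      ∃ a : σ → MvPolynomial σ ℂ, ∑ i, a i • ηb i = η := by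
    intro η hη
    rw [← hs] at hη
    exact (Submodule.mem_span_range_iff_exists_fun _).1 hη
  have hpair : ∀ a : σ → MvPolynomial σ ℂ,
      ∑ k, (∑ i, a i • ηb i) k * Fb k = A.Q * ∑ i, a i * u i := by
    intro a
    have h1 : ∀ k, (∑ i, a i • ηb i) k * Fb k = ∑ i, a i * (ηb i k * Fb k) := by
      intro k
      rw [Finset.sum_apply, Finset.sum_mul]
      refine Finset.sum_congr rfl fun i _ => ?_
      rw [Pi.smul_apply, smul_eq_mul, mul_assoc]
    simp only [h1]
    rw [Finset.sum_comm, Finset.mul_sum]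
    refine Finset.sum_congr rfl fun i _ => ?_
    rw [← Finset.mul_sum, hu i]
    ring
  have hX : ∀ k, ∃ a : σ → MvPolynomial σ ℂ, X k = ∑ i, a i * u i := by
    intro k
    obtain ⟨c, hc⟩ := (Submodule.mem_span_range_iff_exists_fun (MvPolynomial σ ℂ)).1 (hF.XQ k)
    simp only [smul_eq_mul] at hc
    have hcD : c ∈ A.DpS Fb := by
      show A.Q ∣ ∑ k, c k * Fb k
      rw [hc]
      exact Dvd.intro_left _ rfl
    obtain ⟨a, ha⟩ := hexp c hcD
    refine ⟨a, ?_⟩
    have h2 := hpair a
    rw [ha, hc, mul_comm] at h2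
    exact mul_left_cancel₀ hQ0 h2
  -- some `u i` is a nonzero constant
  have hconst : ∃ i0, ∃ a : ℂ, a ≠ 0 ∧ u i0 = C a := by
    by_contra hcon
    push Not at hcon
    have hpos : ∀ i, u i = 0 ∨ ∃ e, 1 ≤ e ∧ e = d i + D - A.N ∧ A.N ≤ d i + D ∧
        (u i).IsHomogeneous e := by
      intro i
      by_cases h0 : u i = 0
      · exact Or.inl h0
      right
      have hle : A.N ≤ d i + D := by
        by_contra hlt
        exact h0 (hu0 i (not_le.1 hlt))
      refine ⟨d i + D - A.N, ?_, rfl, hle, hu1 i hle⟩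
      by_contra he
      have he0 : d i + D - A.N = 0 := by omega
      have h3 := hu1 i hle
      rw [he0] at h3
      have h4 : u i = C (coeff 0 (u i)) := by
        rw [← totalDegree_eq_zero_iff_eq_C]
        exact Nat.le_zero.1 (h3.totalDegree_le)
      refine hcon i (coeff 0 (u i)) ?_ h4
      intro h5
      apply h0
      rw [h4, h5, C_0]
    have hspan : ∀ k, (X k : MvPolynomial σ ℂ) ∈
        Submodule.span ℂ (Set.range fun i => homogeneousComponent 1 (u i)) := by
      intro k
      obtain ⟨a, ha⟩ := hX k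
      have h1 : homogeneousComponent 1 (X k : MvPolynomial σ ℂ) = X k := by
        rw [homogeneousComponent_of_mem (n := 1) (isHomogeneous_X ℂ k), if_pos rfl]
      rw [← h1, ha, map_sum]
      refine Submodule.sum_mem _ fun i _ => ?_
      rcases hpos i with h0 | ⟨e, he1, he2, he3, he4⟩
      · rw [h0, mul_zero, map_zero]
        exact Submodule.zero_mem _
      · by_cases h11 : e = 1
        · subst h11
          have h5 := HBAux.comp_mul (c := a i) he4 0
          rw [zero_add, homogeneousComponent_zero] at h5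
          rw [h5]
          have h6 : homogeneousComponent 1 (u i) = u i := by
            rw [homogeneousComponent_of_mem (n := 1) he4, if_pos rfl]
          rw [← smul_eq_C_mul]
          refine Submodule.smul_mem _ _ (Submodule.subset_span ⟨i, ?_⟩)
          exact h6
        · rw [HBAux.comp_mul_lt he4 (by omega)]
          exact Submodule.zero_mem _
    have hall : ∀ i, d i + D = A.N + 1 := by
      intro i
      have hne := HBAux.ne_zero_of_span _ hspan i
      rcases hpos i with h0 | ⟨e, he1, he2, he3, he4⟩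
      · exfalso
        apply hne
        show homogeneousComponent 1 (u i) = 0
        rw [h0, map_zero]
      · by_cases h11 : e = 1
        · omega
        · exfalso
          apply hne
          show homogeneousComponent 1 (u i) = 0
          rw [homogeneousComponent_of_mem (n := e) he4, if_neg (by omega)]
    have h7 : ∑ i, (d i + D) = Fintype.card σ * (A.N + 1) := by
      rw [Finset.sum_congr rfl fun i _ => hall i]
      simp
    rw [Finset.sum_add_distrib, hsum, Finset.sum_const, Finset.card_univ, smul_eq_mul,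
      hS.hN] at h7
    have := hS.hD
    omega
  obtain ⟨i0, a0, ha0, hi0⟩ := hconst
  have hQmem : A.Q ∈ Ideal.span (Set.range Fb) := by
    have h1 : A.Q = C a0⁻¹ * ∑ k, ηb i0 k * Fb k := by
      rw [hu i0, hi0]
      have : (C a0⁻¹ * (A.Q * C a0) : MvPolynomial σ ℂ) = A.Q * (C a0⁻¹ * C a0) := by ring
      rw [this, ← C_mul, inv_mul_cancel₀ ha0, C_1, mul_one]
    rw [h1]
    exact Ideal.mul_mem_left _ _ (Ideal.sum_mem _ fun k _ =>
      Ideal.mul_mem_left _ _ (Ideal.subset_span ⟨k, rfl⟩))
  have hdi0 : d i0 + D = A.N := by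
    have h1 := hhom i0
    rw [hu i0, hi0, mul_comm, ← smul_eq_C_mul] at h1
    have h2 : (a0 • A.Q).IsHomogeneous A.N := by
      rw [smul_eq_C_mul]
      have := (isHomogeneous_C σ a0).mul A.Q_isHomogeneous
      rwa [zero_add] at this
    exact h1.inj_right h2 (smul_ne_zero ha0 hQ0)
  refine ⟨hQmem, ?_⟩
  let φ : σ → σ → MvPolynomial σ ℂ := fun i => ηb i - (C a0⁻¹ * u i) • ηb i0
  have hφpair : ∀ i, ∑ k, φ i k * Fb k = 0 := by
    intro i
    have h1 : ∀ k, φ i k * Fb k = ηb i k * Fb k - C a0⁻¹ * u i * (ηb i0 k * Fb k) := by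
      intro k
      show (ηb i k - (C a0⁻¹ * u i) * ηb i0 k) * Fb k = _
      ring
    simp only [h1]
    rw [Finset.sum_sub_distrib, ← Finset.mul_sum, hu i, hu i0, hi0]
    have : (C a0⁻¹ * u i * (A.Q * C a0) : MvPolynomial σ ℂ) = A.Q * u i * (C a0⁻¹ * C a0) := by
      ring
    rw [this, ← C_mul, inv_mul_cancel₀ ha0, C_1, mul_one, sub_self]
  have hφhom : ∀ i k, (φ i k).IsHomogeneous (d i) := by
    intro i k
    show (ηb i k - (C a0⁻¹ * u i) * ηb i0 k).IsHomogeneous (d i)
    refine (hh i k).sub ?_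
    by_cases hlt : d i + D < A.N
    · rw [hu0 i hlt, mul_zero, zero_mul]
      exact isHomogeneous_zero _ _ _
    · push Not at hlt
      have h1 := ((isHomogeneous_C σ a0⁻¹).mul (hu1 i hlt)).mul (hh i0 k)
      have h2 : 0 + (d i + D - A.N) + d i0 = d i := by omega
      rwa [h2] at h1
  have hpos : 0 < Fintype.card σ := Fintype.card_pos_iff.2 ⟨i0⟩
  have hcard : Fintype.card (Fin (Fintype.card σ - 1)) = Fintype.card {i : σ // i ≠ i0} := by
    rw [Fintype.card_fin, Fintype.card_subtype_compl, Fintype.card_subtype_eq]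
  let ε : Fin (Fintype.card σ - 1) ≃ {i : σ // i ≠ i0} := Fintype.equivOfCardEq hcard
  have hsplit : ∀ g : {i : σ // i ≠ i0} → MvPolynomial σ ℂ, ∀ w : MvPolynomial σ ℂ,
      ∑ i, (if h : i ≠ i0 then g ⟨i, h⟩ else w) • ηb i
        = w • ηb i0 + ∑ i : {i : σ // i ≠ i0}, g i • ηb i := by
    intro g w
    rw [Fintype.sum_eq_add_sum_subtype_ne _ i0]
    congr 1
    · rw [dif_neg (by simp)]
    · refine Finset.sum_congr rfl fun i _ => ?_
      rw [dif_pos i.2]
  have hφsum : ∀ g : {i : σ // i ≠ i0} → MvPolynomial σ ℂ,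
      ∑ i : {i : σ // i ≠ i0}, g i • φ i
        = (-∑ i : {i : σ // i ≠ i0}, g i * (C a0⁻¹ * u i)) • ηb i0
          + ∑ i : {i : σ // i ≠ i0}, g i • ηb i := by
    intro g
    have h1 : ∀ i : {i : σ // i ≠ i0}, g i • φ i
        = g i • ηb i - (g i * (C a0⁻¹ * u i)) • ηb i0 := by
      intro i
      show g i • (ηb i - (C a0⁻¹ * u i) • ηb i0) = _
      rw [smul_sub, smul_smul]
    simp only [h1]
    rw [Finset.sum_sub_distrib, ← Finset.sum_smul, neg_smul]
    abel
  refine ⟨Fintype.card σ - 1, fun t => φ (ε t), fun t => d (ε t), by omega,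
    fun t k => hφhom _ k, ?_, ?_, ?_⟩
  · rw [Equiv.sum_comp ε (fun i : {i : σ // i ≠ i0} => d i)]
    have h1 := Fintype.sum_eq_add_sum_subtype_ne d i0
    rw [hsum] at h1
    omega
  · rw [Fintype.linearIndependent_iff]
    intro g hg t
    let g' : {i : σ // i ≠ i0} → MvPolynomial σ ℂ := fun i => g (ε.symm i)
    have h1 : ∑ i : {i : σ // i ≠ i0}, g' i • φ i = 0 := by
      rw [← Equiv.sum_comp ε, ← hg]
      refine Finset.sum_congr rfl fun t _ => ?_
      show g (ε.symm (ε t)) • φ (ε t) = _
      rw [Equiv.symm_apply_apply]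
    rw [hφsum g', ← hsplit] at h1
    have h2 := (Fintype.linearIndependent_iff.1 hi) _ h1 (ε t)
    rw [dif_pos (ε t).2] at h2
    have h3 : g' (ε t) = g t := by
      show g (ε.symm (ε t)) = g t
      rw [Equiv.symm_apply_apply]
    rw [← h3]
    exact h2
  · intro η
    constructor
    · intro h
      induction h using Submodule.span_induction with
      | mem x hx =>
        obtain ⟨t, rfl⟩ := hx
        exact hφpair _
      | zero => simp
      | add x y _ _ hx hy =>
        simp only [Pi.add_apply, add_mul, Finset.sum_add_distrib, hx, hy, add_zero]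
      | smul c x _ hx =>
        simp only [Pi.smul_apply, smul_eq_mul, mul_assoc]
        rw [← Finset.mul_sum, hx, mul_zero]
    · intro h
      have hη : η ∈ A.DpS Fb := by
        show A.Q ∣ ∑ k, η k * Fb k
        rw [h]
        exact dvd_zero _
      obtain ⟨a, ha⟩ := hexp η hη
      have h1 := hpair a
      rw [ha, h] at h1
      have h2 : ∑ i, a i * u i = 0 := by
        rcases mul_eq_zero.1 h1.symm with h | h
        · exact absurd h hQ0
        · exact h
      rw [Fintype.sum_eq_add_sum_subtype_ne _ i0, hi0] at h2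
      have h3 : a i0 = -∑ i : {i : σ // i ≠ i0}, a i * (C a0⁻¹ * u i) := by
        have h4 : ∑ i : {i : σ // i ≠ i0}, a i * (C a0⁻¹ * u i)
            = C a0⁻¹ * ∑ i : {i : σ // i ≠ i0}, a i * u i := by
          rw [Finset.mul_sum]
          refine Finset.sum_congr rfl fun i _ => ?_
          ring
        have h5 : ∑ i : {i : σ // i ≠ i0}, a i * u i = - (a i0 * C a0) :=
          eq_neg_of_add_eq_zero_right h2
        rw [h4, h5]
        have h6 : (-(C a0⁻¹ * -(a i0 * C a0)) : MvPolynomial σ ℂ) = a i0 * (C a0⁻¹ * C a0) := by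
          ring
        rw [h6, ← C_mul, inv_mul_cancel₀ ha0, C_1, mul_one]
      have h4 : η = ∑ i : {i : σ // i ≠ i0}, a i • φ i := by
        rw [hφsum (fun i => a i), ← h3, ← ha]
        exact Fintype.sum_eq_add_sum_subtype_ne (fun i => a i • ηb i) i0
      rw [h4]
      refine Submodule.sum_mem _ fun i _ => Submodule.smul_mem _ _ (Submodule.subset_span ?_)
      exact ⟨ε.symm i, by simp⟩

end Datum

end Pool.Agent.Lib.P4a9818
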