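import Pool.Agent.Lib.P4a9818.FlatBasis
import Pool.Agent.Lib.P4a9818.GFL

/-!
# P4a9818.JD : the elements of degree `D` of `J`   (estimate 2.5 h)

* `mem_J_iff`: (⇒) `F ∈ PF l i r = (ℓ_i, ℓ_r)` for each `r ∈ rep i` (`i ∉ rep i`), so
  `LinH.restrict_dvd` with `k = 1`, `s = rep i`, `w = l`, `D = card (rep i)` gives
  `ℓ_i ∣ F - C c ∏_{r∈rep i} ℓ_r`. (The pairs `r ≠ r'` in `rep i` satisfy
  `l r' ∉ span {l i, l r}` because a class contains only one representative (`IsRep`)).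
  (⇐) for `i ≠ j` the representative `r` of the class of `j` has `l r ∈ span {l i, l j}`, so
  `π_i ∈ PF l i j` and `F ∈ PF l i j`.
* `exists_basis`: `Gb` from `flat_basis`; `Dop_closed` and `flat_to_F` give `Fb s` with
  `Q Fb s = ∑ X_k (Gb s)_k`, `GF (Fb s) = (D - N) Gb s` (`D < N`), so `InLam (GF (Fb s))` and
  `Fb s ∈ J` by `inLam_GF_iff`, `mem_J_iff`.
  Independence over `ℂ`: `∑ c_s Fb s = 0 ⇒ ∑ c_s Gb s = 0`.
  Spanning: `F ∈ J` homogeneous of degree `D`: `GF F` is in `InLam`, homogeneous of degree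
  `N - 1 + D`, so `GF F = ∑ c_s Gb s`; take `X_GF`: `(D - N) Q F = ∑ c_s Q Fb s`.
  `X_k Q ∈ (Fb)`: `Q² e_k ∈ InLam` (`inLam_Q_sq`), `Q² e_k = ∑ u_s Gb s`, multiply by `x`:
  `Q² X_k = ∑ u_s Q Fb s`, cancel `Q`.
  `ℓ_i ∤ Fb s` for some `s`: by `exists_inLam` there is `G ∈ InLam`, `ℓ_i ∤ ap G (a i)`, so
  `ℓ_i ∤ ap (Gb s) (a i)` for some `s`; `(D - N) ap (Gb s) (a i) = Q ∂F - F ∂_{a i} Q` and `ℓ_i ∣ Q`.
-/

namespace Pool.Agent.Lib.P4a9818

open MvPolynomial Matrix

variable {σ : Type} [Fintype σ] [DecidableEq σ] (A : Datum σ)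

namespace Datum

theorem mem_J_iff {lam : ℂ} {D : ℕ} (hS : A.Scal lam D) {F : MvPolynomial σ ℂ}
    (hF : F.IsHomogeneous D) :
    F ∈ A.J ↔ ∀ i, ∃ c : ℂ, lf (A.l i) ∣ F - C c * A.pi i := by
  constructor
  · intro hJ i
    have hrep := A.isRep_rep i
    have hne : ∀ r ∈ A.rep i, i ≠ r := fun r hr h => hrep.1 (h ▸ hr)
    have hw : ∀ j ∈ A.rep i, ∀ c : ℂ, A.l j ≠ c • A.l i := fun j hj c =>
      A.l_not_smul (hne j hj) c
    have hpair : ∀ r ∈ A.rep i, ∀ r' ∈ A.rep i, r ≠ r' →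
        A.l r' ∉ Submodule.span ℂ {A.l i, A.l r} := by
      intro r hr r' hr' hrr hmem
      obtain ⟨x, hx1, hx2⟩ := hrep.2 r (hne r hr).symm
      have h1 : r = x := hx2 r ⟨hr, A.right_mem_cls i r⟩
      have h2 : r' = x := hx2 r' ⟨hr', (A.mem_cls_iff i r r').2 hmem⟩
      exact hrr (h1.trans h2.symm)
    have hmem : ∀ r ∈ A.rep i, F ∈ Ideal.span {lf (A.l i), (lf (A.l r)) ^ 1} := by
      intro r hr
      rw [pow_one]
      unfold Datum.J JF at hJ
      rw [Ideal.mem_iInf] at hJ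
      have h1 := hJ i
      rw [Ideal.mem_iInf] at h1
      have h2 := h1 r
      rw [Ideal.mem_iInf] at h2
      exact h2 (hne r hr)
    obtain ⟨_, h2⟩ := restrict_dvd (A.la i) (A.rep i) A.l hw hpair hF 1 hmem
    obtain ⟨c, hc⟩ := h2 (by rw [one_mul, hS.hrep i])
    refine ⟨c, ?_⟩
    simp only [pow_one] at hc
    exact hc
  · intro h
    unfold Datum.J JF
    rw [Ideal.mem_iInf]
    intro i
    rw [Ideal.mem_iInf]
    intro j
    rw [Ideal.mem_iInf]
    intro hij
    obtain ⟨c, u, hu⟩ := h i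
    obtain ⟨r, ⟨hr1, hr2⟩, _⟩ := (A.isRep_rep i).2 j hij.symm
    have h1 : lf (A.l r) ∈ PF A.l i j := (lf_mem_PF_iff (A.li i j hij) _).2
      ((A.mem_cls_iff i j r).1 hr2)
    have h2 : A.pi i ∈ PF A.l i j := by
      unfold Datum.pi
      exact Ideal.mem_of_dvd _ (Finset.dvd_prod_of_mem (fun r => lf (A.l r)) hr1) h1
    have h3 : F = C c * A.pi i + lf (A.l i) * u := by linear_combination hu
    rw [h3]
    exact Ideal.add_mem _ (Ideal.mul_mem_left _ _ h2)
      (Ideal.mul_mem_right _ _ (Ideal.subset_span (by simp)))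

/-- If `F ∈ J` has degree `D` then `GF F` is flat. -/
theorem flat_GF {lam : ℂ} {D : ℕ} (hS : A.Scal lam D) {F : MvPolynomial σ ℂ}
    (hF : F.IsHomogeneous D) (hJ : F ∈ A.J) : A.InLam (A.GF F) ∧ ∀ c, A.Dop c (A.GF F) = 0 := by
  have h1 : A.InLam (A.GF F) := (A.inLam_GF_iff F).2 ((A.mem_J_iff hS hF).1 hJ)
  refine ⟨h1, ?_⟩
  obtain ⟨Gb, g1, g2, g3, g4, g5, g6⟩ := A.flat_basis hS
  have h2 := g6 _ h1 (fun k => A.GF_isHomogeneous hS.ne hF k)
  intro c
  -- flat sections form a subspace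
  have key : ∀ G ∈ Submodule.span ℂ (Set.range Gb), A.InLam G ∧ A.Dop c G = 0 := by
    intro G hG
    induction hG using Submodule.span_induction with
    | mem x hx =>
      obtain ⟨s, rfl⟩ := hx
      exact ⟨g1 s, g3 s c⟩
    | zero =>
      refine ⟨A.inLam_zero, ?_⟩
      have h3 := A.Dop_smul A.inLam_zero 0 c
      rw [zero_smul, zero_smul, add_zero] at h3
      rw [h3, dd_eq_zero_of_totalDegree c (by simp), zero_smul]
    | add x y _ _ hx hy =>
      refine ⟨A.inLam_add hx.1 hy.1, ?_⟩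
      rw [A.Dop_add hx.1 hy.1, hx.2, hy.2, add_zero]
    | smul a x _ hx =>
      have h3 : a • x = (C a : MvPolynomial σ ℂ) • x := by
        funext k
        rw [Pi.smul_apply, Pi.smul_apply, smul_eq_C_mul, smul_eq_mul]
      rw [h3]
      refine ⟨A.inLam_smul _ hx.1, ?_⟩
      rw [A.Dop_smul hx.1, dd_C, zero_smul, zero_add, hx.2, smul_zero]
  exact (key _ h2).2

theorem exists_basis {lam : ℂ} {D : ℕ} (hS : A.Scal lam D) :
    ∃ Fb : σ → MvPolynomial σ ℂ, A.IsBas D Fb := by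
  obtain ⟨Gb, g1, g2, g3, g4, g5, g6⟩ := A.flat_basis hS
  have hQ0 := A.Q_ne_zero
  have hDN : ((D : ℂ) - A.N) ≠ 0 := by
    intro h
    have h1 : (D : ℂ) = A.N := by linear_combination h
    have h2 : D = A.N := by exact_mod_cast h1
    have := hS.hD
    omega
  have hcl : ∀ s, ∃ F : MvPolynomial σ ℂ, F.IsHomogeneous D ∧ A.Q * F = ∑ k, X k * Gb s k ∧
      A.GF F = (C ((D : ℂ) - A.N) : MvPolynomial σ ℂ) • Gb s := by
    intro s
    exact A.flat_to_F (g1 s) hS.ne (g2 s) (A.Dop_closed (g1 s) (fun k => g3 s _))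
  choose Fb f1 f2 f3 using hcl
  have hCsmul : ∀ (a : ℂ) (x : σ → MvPolynomial σ ℂ), (C a : MvPolynomial σ ℂ) • x = a • x := by
    intro a x
    funext k
    rw [Pi.smul_apply, Pi.smul_apply, smul_eq_C_mul, smul_eq_mul]
  have hGsum : ∀ c : σ → ℂ, A.GF (∑ s, c s • Fb s) = ((D : ℂ) - A.N) • ∑ s, c s • Gb s := by
    intro c
    have h1 : ∀ t : Finset σ, A.GF (∑ s ∈ t, c s • Fb s) = ∑ s ∈ t, c s • A.GF (Fb s) := by
      classical
      intro t
      induction t using Finset.induction_on with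
      | empty =>
        have h0 := A.GF_smul 0 0
        simpa using h0
      | insert a t ha ih =>
        rw [Finset.sum_insert ha, Finset.sum_insert ha, A.GF_add, A.GF_smul, ih]
    rw [h1 Finset.univ, Finset.smul_sum]
    refine Finset.sum_congr rfl fun s _ => ?_
    rw [f3 s, hCsmul, smul_comm]
  have hGind : LinearIndependent ℂ Gb := g4.restrict_scalars' ℂ
  refine ⟨Fb, ⟨f1, ?_, ?_, ?_, ?_, ?_⟩⟩
  · intro s
    rw [A.mem_J_iff hS (f1 s), ← A.inLam_GF_iff, f3 s]
    exact A.inLam_smul _ (g1 s)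
  · rw [Fintype.linearIndependent_iff]
    intro c hc
    have h1 := hGsum c
    rw [hc] at h1
    have h2 : A.GF 0 = 0 := by
      have h0 := A.GF_smul 0 0
      simpa using h0
    rw [h2] at h1
    rcases smul_eq_zero.1 h1.symm with h | h
    · exact absurd h hDN
    · exact Fintype.linearIndependent_iff.1 hGind c h
  · intro F hF hJ
    have h1 : A.InLam (A.GF F) := (A.inLam_GF_iff F).2 ((A.mem_J_iff hS hF).1 hJ)
    have h2 := g6 _ h1 (fun k => A.GF_isHomogeneous hS.ne hF k)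
    obtain ⟨c, hc⟩ := (Submodule.mem_span_range_iff_exists_fun ℂ).1 h2
    have h3 := A.X_GF hF
    rw [← hc] at h3
    have h4 : ∑ k, X k * (∑ s, c s • Gb s) k = A.Q * ∑ s, c s • Fb s := by
      have h5 : ∀ k, X k * (∑ s, c s • Gb s) k = ∑ s, c s • (X k * Gb s k) := by
        intro k
        rw [Finset.sum_apply, Finset.mul_sum]
        refine Finset.sum_congr rfl fun s _ => ?_
        rw [Pi.smul_apply, mul_smul_comm]
      simp only [h5]
      rw [Finset.sum_comm, Finset.mul_sum]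
      refine Finset.sum_congr rfl fun s _ => ?_
      rw [← Finset.smul_sum, ← f2 s, mul_smul_comm]
    rw [h4] at h3
    have h5 : A.Q * ∑ s, c s • Fb s = A.Q * (C ((D : ℂ) - A.N) * F) := by
      rw [h3]; ring
    have h6 := mul_left_cancel₀ hQ0 h5
    have h7 : F = ((D : ℂ) - A.N)⁻¹ • ∑ s, c s • Fb s := by
      rw [h6, ← smul_eq_C_mul, smul_smul, inv_mul_cancel₀ hDN, one_smul]
    rw [h7]
    refine Submodule.smul_mem _ _ (Submodule.sum_mem _ fun s _ => Submodule.smul_mem _ _ ?_)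
    exact Submodule.subset_span ⟨s, rfl⟩
  · intro k
    have h1 := g5 _ (A.inLam_Q_sq (Pi.single k 1))
    obtain ⟨u, hu⟩ := (Submodule.mem_span_range_iff_exists_fun _).1 h1
    have h2 : ∑ m, X m * (A.Q ^ 2 • (Pi.single k 1 : σ → MvPolynomial σ ℂ)) m
        = A.Q * (X k * A.Q) := by
      have h3 : ∀ m, X m * (A.Q ^ 2 • (Pi.single k 1 : σ → MvPolynomial σ ℂ)) m
          = if m = k then X m * A.Q ^ 2 else 0 := by
        intro m
        rw [Pi.smul_apply, smul_eq_mul, Pi.single_apply]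
        split_ifs <;> simp
      simp only [h3]
      rw [Finset.sum_ite_eq' Finset.univ k, if_pos (Finset.mem_univ _)]
      ring
    have h4 : ∑ m, X m * (∑ s, u s • Gb s) m = A.Q * ∑ s, u s * Fb s := by
      have h5 : ∀ m, X m * (∑ s, u s • Gb s) m = ∑ s, u s * (X m * Gb s m) := by
        intro m
        rw [Finset.sum_apply, Finset.mul_sum]
        refine Finset.sum_congr rfl fun s _ => ?_
        rw [Pi.smul_apply, smul_eq_mul]
        ring
      simp only [h5]
      rw [Finset.sum_comm, Finset.mul_sum]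
      refine Finset.sum_congr rfl fun s _ => ?_
      rw [← Finset.mul_sum, ← f2 s]
      ring
    rw [hu, h2] at h4
    have h6 := mul_left_cancel₀ hQ0 h4
    rw [h6]
    exact Ideal.sum_mem _ fun s _ => Ideal.mul_mem_left _ _ (Ideal.subset_span ⟨s, rfl⟩)
  · intro i
    obtain ⟨G, hG1, hG2⟩ := A.exists_inLam i
    obtain ⟨u, hu⟩ := (Submodule.mem_span_range_iff_exists_fun _).1 (g5 G hG1)
    by_contra hcon
    push Not at hcon
    apply hG2
    have h1 : ∀ s, lf (A.l i) ∣ ap (Gb s) (A.a i) := by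
      intro s
      have h2 := A.ap_GF (Fb s) (A.a i)
      rw [f3 s, ap_mul_left] at h2
      have h3 : lf (A.l i) ∣ C ((D : ℂ) - A.N) * ap (Gb s) (A.a i) := by
        rw [h2]
        apply dvd_sub
        · apply Dvd.dvd.mul_right
          rw [A.Q_eq i]
          exact Dvd.intro _ rfl
        · exact Dvd.dvd.mul_right (hcon s) _
      have h4 : ap (Gb s) (A.a i)
          = C ((D : ℂ) - A.N)⁻¹ * (C ((D : ℂ) - A.N) * ap (Gb s) (A.a i)) := by
        rw [← mul_assoc, ← C_mul, inv_mul_cancel₀ hDN, C_1, one_mul]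
      rw [h4]
      exact Dvd.dvd.mul_left h3 _
    have h5 : ap G (A.a i) = ∑ s, u s * ap (Gb s) (A.a i) := by
      rw [← hu]
      unfold ap
      have h6 : ∀ k, C (A.a i k) * (∑ s, u s • Gb s) k
          = ∑ s, u s * (C (A.a i k) * Gb s k) := by
        intro k
        rw [Finset.sum_apply, Finset.mul_sum]
        refine Finset.sum_congr rfl fun s _ => ?_
        rw [Pi.smul_apply, smul_eq_mul]
        ring
      simp only [h6]
      rw [Finset.sum_comm]
      refine Finset.sum_congr rfl fun s _ => ?_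
      rw [Finset.mul_sum]
    rw [h5]
    exact Finset.dvd_sum fun s _ => Dvd.dvd.mul_left (h1 s) _

end Datum

end Pool.Agent.Lib.P4a9818
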