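import Pool.Agent.Lib.P4a9818.JD

/-!
# P4a9818.JDz : `F ∈ J` of degree `D` divisible by `ℓ_i²` is zero   (estimate 2 h)

Suppose `F ≠ 0`, `F = ℓ^k F'`, `ℓ = ℓ_i`, `ℓ ∤ F'`, `k ≥ 2`; `α = a i`; `Q = ℓ q`, `q = q_i`, `ℓ ∤ q`.
`G = GF F`, `G(v) = ap G v = Q ∂_v F - F ∂_v Q`, `Dop α G = 0` by `JD.flat_GF`. In
`ap_Dop` with `v = α` the summand `j = i` vanishes (`pr i α = 0`), so
`∂_α G(α) = 2 ∑_{j≠i} (l j ⬝ α) quo (G(pr j α)) ℓ_j`; multiply by `q = ∏_{j≠i} ℓ_j`: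
`q ∂_α G(α) = 2 ∑_{j≠i} (l j ⬝ α) (q/ℓ_j) G(pr j α)`.
All `G(v)` are divisible by `ℓ^k` (`ℓ^(k-1) ∣ ∂_v F`, `ℓ ∣ Q`), so the right side is divisible by
`ℓ^k`. And `G(α) = ℓ q (k ℓ^(k-1) F' + ℓ^k ∂F') - ℓ^k F' (q + ℓ ∂q) = (k - 1) ℓ^k q F' + ℓ^(k+1) u`,
`∂_α G(α) = (k - 1) k ℓ^(k-1) q F' + ℓ^k u'`. Hence `ℓ^k ∣ (k - 1) k ℓ^(k-1) q² F'`,
`ℓ ∣ q² F'`, a contradiction.
-/

namespace Pool.Agent.Lib.P4a9818

open MvPolynomial Matrix

variable {σ : Type} [Fintype σ] [DecidableEq σ] (A : Datum σ)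

namespace Datum

theorem eq_zero_of_sq_dvd {lam : ℂ} {D : ℕ} (hS : A.Scal lam D) {F : MvPolynomial σ ℂ}
    (hF : F.IsHomogeneous D) (hJ : F ∈ A.J) (i : A.ι) (h : (lf (A.l i)) ^ 2 ∣ F) : F = 0 := by
  classical
  by_contra hF0
  obtain ⟨hlam, hflat⟩ := A.flat_GF hS hF hJ
  have hpr := prime_lf (A.l_ne_zero i)
  set ℓ : MvPolynomial σ ℂ := lf (A.l i) with hℓ
  set q : MvPolynomial σ ℂ := A.q i with hq
  set α : σ → ℂ := A.a i with hα
  -- the exact order of divisibility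
  have hfin : FiniteMultiplicity ℓ F := FiniteMultiplicity.of_not_isUnit hpr.not_isUnit hF0
  obtain ⟨F', hF', hnd⟩ := hfin.exists_eq_pow_mul_and_not_dvd
  have hk2 : 2 ≤ multiplicity ℓ F := hfin.le_multiplicity_of_pow_dvd h
  obtain ⟨k', hk'⟩ : ∃ k', multiplicity ℓ F = k' + 2 := ⟨multiplicity ℓ F - 2, by omega⟩
  rw [hk'] at hF'
  have hdα : dd α ℓ = 1 := by
    rw [hℓ, dd_lf, A.la i, C_1]
  have hQ : A.Q = ℓ * q := A.Q_eq i
  -- derivative of powers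
  have hpow : ∀ (v : σ → ℂ) (n : ℕ), dd v (ℓ ^ (n + 1)) = (n + 1 : ℕ) * ℓ ^ n * dd v ℓ := by
    intro v n
    induction n with
    | zero => simp
    | succ n ih =>
      rw [pow_succ, dd_mul, ih]
      push_cast
      ring
  -- all `G(v)` are divisible by `ℓ ^ k`
  have hdvdG : ∀ v, ℓ ^ (k' + 2) ∣ ap (A.GF F) v := by
    intro v
    rw [A.ap_GF, hF', hQ, dd_mul, hpow v (k' + 1)]
    refine ⟨q * ((k' + 1 + 1 : ℕ) * dd v ℓ * F' + ℓ * dd v F') - F' * dd v (ℓ * q), ?_⟩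
    ring
  have hGα : ap (A.GF F) α = (k' + 1 : ℕ) * ℓ ^ (k' + 2) * (q * F')
      + ℓ ^ (k' + 3) * (q * dd α F' - F' * dd α q) := by
    rw [A.ap_GF, hF', hQ, dd_mul, hpow α (k' + 1), dd_mul, hdα]
    push_cast
    ring
  have hdGα : dd α (ap (A.GF F) α) = ((k' + 1) * (k' + 2) : ℕ) * ℓ ^ (k' + 1) * (q * F')
      + ℓ ^ (k' + 2) * ((k' + 1 : ℕ) * dd α (q * F')
        + (k' + 3 : ℕ) * (q * dd α F' - F' * dd α q)
        + ℓ * dd α (q * dd α F' - F' * dd α q)) := by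
    have hcast : ∀ n : ℕ, dd α ((n : MvPolynomial σ ℂ)) = 0 := by
      intro n
      have : ((n : MvPolynomial σ ℂ)) = C (n : ℂ) := by simp
      rw [this, dd_C]
    have hgen : ∀ U V : MvPolynomial σ ℂ,
        dd α ((k' + 1 : ℕ) * ℓ ^ (k' + 2) * U + ℓ ^ (k' + 3) * V)
          = ((k' + 1) * (k' + 2) : ℕ) * ℓ ^ (k' + 1) * U
            + ℓ ^ (k' + 2) * ((k' + 1 : ℕ) * dd α U + (k' + 3 : ℕ) * V + ℓ * dd α V) := by
      intro U V
      rw [dd_add, dd_mul, dd_mul, dd_mul, hcast, hpow α (k' + 1), hpow α (k' + 2), hdα]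
      push_cast
      ring
    rw [hGα]
    exact hgen _ _
  -- the flatness equation
  have heq : ap (A.Dop α (A.GF F)) α = ap 0 α := by rw [hflat α]
  rw [A.ap_Dop hlam] at heq
  have hz : ap (0 : σ → MvPolynomial σ ℂ) α = 0 := by
    unfold ap
    simp
  rw [hz] at heq
  have hrhs : ℓ ^ (k' + 2) ∣ q * ∑ j, C (A.l j ⬝ᵥ α) *
      quo (ap (A.GF F) (A.pr j α)) (lf (A.l j)) := by
    rw [Finset.mul_sum]
    refine Finset.dvd_sum fun j _ => ?_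
    by_cases hj : j = i
    · subst hj
      have h1 : A.pr j α = 0 := by
        unfold Datum.pr
        rw [hα, A.la j, one_smul, sub_self]
      have h2 : ap (A.GF F) (0 : σ → ℂ) = 0 := by
        unfold ap
        simp
      rw [h1, h2, quo_eq (k := 0) hpr.ne_zero (by simp)]
      simp
    · have h1 : q = lf (A.l j) * ∏ m ∈ (Finset.univ.erase i).erase j, lf (A.l m) := by
        rw [hq]
        unfold Datum.q
        rw [Finset.mul_prod_erase (Finset.univ.erase i) (fun m => lf (A.l m))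
          (Finset.mem_erase.2 ⟨hj, Finset.mem_univ _⟩)]
      have h2 := mul_quo (A.lf_dvd_ap_pr hlam j α)
      have h3 : q * (C (A.l j ⬝ᵥ α) * quo (ap (A.GF F) (A.pr j α)) (lf (A.l j)))
          = (C (A.l j ⬝ᵥ α) * ∏ m ∈ (Finset.univ.erase i).erase j, lf (A.l m)) *
            ap (A.GF F) (A.pr j α) := by
        conv_rhs => rw [← h2]
        conv_lhs => rw [h1]
        ring
      rw [h3]
      exact Dvd.dvd.mul_left (hdvdG _) _
  have hlhs : ℓ ^ (k' + 2) ∣ q * dd α (ap (A.GF F) α) := by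
    have h1 : dd α (ap (A.GF F) α) = 2 * ∑ j, C (A.l j ⬝ᵥ α) *
        quo (ap (A.GF F) (A.pr j α)) (lf (A.l j)) := by
      linear_combination heq
    rw [h1]
    have h2 : q * (2 * ∑ j, C (A.l j ⬝ᵥ α) * quo (ap (A.GF F) (A.pr j α)) (lf (A.l j)))
        = 2 * (q * ∑ j, C (A.l j ⬝ᵥ α) * quo (ap (A.GF F) (A.pr j α)) (lf (A.l j))) := by
      ring
    rw [h2]
    exact Dvd.dvd.mul_left hrhs _
  rw [hdGα] at hlhs
  have h1 : ℓ ^ (k' + 2) ∣ ((k' + 1) * (k' + 2) : ℕ) * ℓ ^ (k' + 1) * (q * (q * F')) := by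
    have h2 : (((k' + 1) * (k' + 2) : ℕ) : MvPolynomial σ ℂ) * ℓ ^ (k' + 1) * (q * (q * F'))
        = q * (((k' + 1) * (k' + 2) : ℕ) * ℓ ^ (k' + 1) * (q * F')
      + ℓ ^ (k' + 2) * ((k' + 1 : ℕ) * dd α (q * F')
        + (k' + 3 : ℕ) * (q * dd α F' - F' * dd α q)
        + ℓ * dd α (q * dd α F' - F' * dd α q)))
        - ℓ ^ (k' + 2) * (q * ((k' + 1 : ℕ) * dd α (q * F')
        + (k' + 3 : ℕ) * (q * dd α F' - F' * dd α q)
        + ℓ * dd α (q * dd α F' - F' * dd α q))) := by ring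
    rw [h2]
    exact dvd_sub hlhs (Dvd.intro _ rfl)
  have h2 : ℓ ∣ (((k' + 1) * (k' + 2) : ℕ) : MvPolynomial σ ℂ) * (q * (q * F')) := by
    obtain ⟨w, hw⟩ := h1
    refine ⟨w, ?_⟩
    apply mul_left_cancel₀ (pow_ne_zero (k' + 1) hpr.ne_zero)
    have h3 : ℓ ^ (k' + 1) * (ℓ * w) = ℓ ^ (k' + 2) * w := by ring
    rw [h3, ← hw]
    ring
  rcases hpr.dvd_or_dvd h2 with h3 | h3
  · have h4 : (((k' + 1) * (k' + 2) : ℕ) : MvPolynomial σ ℂ)
        = C (((k' + 1) * (k' + 2) : ℕ) : ℂ) := (map_natCast C _).symm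
    rw [h4] at h3
    apply hpr.not_isUnit
    apply isUnit_of_dvd_unit h3
    apply IsUnit.map C
    rw [isUnit_iff_ne_zero]
    exact_mod_cast (by positivity : (k' + 1) * (k' + 2) ≠ 0)
  · rcases hpr.dvd_or_dvd h3 with h4 | h4
    · exact A.not_lf_dvd_q i h4
    · rcases hpr.dvd_or_dvd h4 with h5 | h5
      · exact A.not_lf_dvd_q i h5
      · exact hnd h5

end Datum

end Pool.Agent.Lib.P4a9818
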