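import Mathlib

/-!
# P4a9818.Unmix : ideals with free syzygies are unmixed (abstract)   (estimate 1.5 h)

`x f = ⟨α⟩`, `y f = ⟨β⟩`, `w f = ⟨γ⟩` (`⟨η⟩ = ∑ η_k F_k`; `x, y, w` a regular sequence). Then
`s_xy = y α - x β`, `s_xw = w α - x γ`, `s_yw = w β - y γ` are syzygies with
`w s_xy - y s_xw + x s_yw = 0`. Write them in the basis `Φ` of the syzygies (coefficients are unique
by independence): coefficientwise `w a - y b + x c = 0` in `R`; since `x, y, w` is regular,
`w a ∈ (x, y) ⇒ a = y p - x q`; then `y (w p - b) = x (w q - c)`, so `w p - b = x t`,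
`w q - c = y t`: `b = w p - x t`, `c = w q - y t`. So there are syzygies `σx, σy, σw` with
`s_xy = y σx - x σy`, `s_xw = w σx - x σw`, `s_yw = w σy - y σw`. Then `y (α - σx) = x (β - σy)`, so
`α - σx = x τ` (`x ∣ y a → x ∣ a`), and `x f = ⟨α⟩ = ⟨α - σx⟩ = x ⟨τ⟩`, `f = ⟨τ⟩`.
-/

namespace Pool.Agent.Lib.P4a9818

theorem unmix {R κ : Type} [CommRing R] [IsDomain R] [Fintype κ] {m : ℕ} (F : κ → R)
    (Φ : Fin m → κ → R) (hi : LinearIndependent R Φ)
    (hs : ∀ η : κ → R, η ∈ Submodule.span R (Set.range Φ) ↔ ∑ k, η k * F k = 0)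
    (x y w f : R) (hx : x ≠ 0) (hy : ∀ a, x ∣ y * a → x ∣ a)
    (hw : ∀ a, w * a ∈ Ideal.span {x, y} → a ∈ Ideal.span {x, y})
    (h1 : x * f ∈ Ideal.span (Set.range F)) (h2 : y * f ∈ Ideal.span (Set.range F))
    (h3 : w * f ∈ Ideal.span (Set.range F)) : f ∈ Ideal.span (Set.range F) := by
  obtain ⟨α, hα⟩ := Ideal.mem_span_range_iff_exists_fun.1 h1
  obtain ⟨β, hβ⟩ := Ideal.mem_span_range_iff_exists_fun.1 h2
  obtain ⟨γ, hγ⟩ := Ideal.mem_span_range_iff_exists_fun.1 h3
  have syz : ∀ (u v : R) (μ ν : κ → R), ∑ k, μ k * F k = u * f → ∑ k, ν k * F k = v * f →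
      ∃ a : Fin m → R, ∀ k, ∑ i, a i * Φ i k = v * μ k - u * ν k := by
    intro u v μ ν hμ hν
    have h : (fun k => v * μ k - u * ν k) ∈ Submodule.span R (Set.range Φ) := by
      rw [hs]
      have h' : ∑ k, (v * μ k - u * ν k) * F k =
          v * ∑ k, μ k * F k - u * ∑ k, ν k * F k := by
        rw [Finset.mul_sum, Finset.mul_sum, ← Finset.sum_sub_distrib]
        exact Finset.sum_congr rfl fun k _ => by ring
      rw [h', hμ, hν]
      ring
    obtain ⟨a, ha⟩ := (Submodule.mem_span_range_iff_exists_fun R).1 h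
    refine ⟨a, fun k => ?_⟩
    have h2 := congrFun ha k
    simpa [Finset.sum_apply] using h2
  obtain ⟨a, ha⟩ := syz x y α β hα hβ
  obtain ⟨b, hb⟩ := syz x w α γ hα hγ
  obtain ⟨c, hc⟩ := syz y w β γ hβ hγ
  have hrel : ∀ i, w * a i - y * b i + x * c i = 0 := by
    have h := Fintype.linearIndependent_iff.1 hi (fun i => w * a i - y * b i + x * c i) (by
      funext k
      rw [Finset.sum_apply]
      have h' : ∑ i, ((w * a i - y * b i + x * c i) • Φ i) k =
          w * ∑ i, a i * Φ i k - y * ∑ i, b i * Φ i k + x * ∑ i, c i * Φ i k := by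
        rw [Finset.mul_sum, Finset.mul_sum, Finset.mul_sum, ← Finset.sum_sub_distrib,
          ← Finset.sum_add_distrib]
        refine Finset.sum_congr rfl fun i _ => ?_
        rw [Pi.smul_apply, smul_eq_mul]
        ring
      rw [h', ha, hb, hc]
      simp only [Pi.zero_apply]
      ring)
    exact h
  have hpq : ∀ i, ∃ p q : R, p * x + q * y = a i := by
    intro i
    apply Ideal.mem_span_pair.1
    apply hw
    rw [Ideal.mem_span_pair]
    exact ⟨-c i, b i, by linear_combination -hrel i⟩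
  choose p q hpq using hpq
  have hq0 : ∑ k, (∑ i, q i * Φ i k) * F k = 0 := by
    have h : (fun k => ∑ i, q i * Φ i k) ∈ Submodule.span R (Set.range Φ) := by
      rw [Submodule.mem_span_range_iff_exists_fun]
      refine ⟨q, ?_⟩
      funext k
      rw [Finset.sum_apply]
      rfl
    exact (hs _).1 h
  have hdvd : ∀ k, ∃ τ, α k - ∑ i, q i * Φ i k = x * τ := by
    intro k
    apply hy
    refine ⟨β k + ∑ i, p i * Φ i k, ?_⟩
    have h := ha k
    have h' : ∑ i, a i * Φ i k = x * ∑ i, p i * Φ i k + y * ∑ i, q i * Φ i k := by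
      rw [Finset.mul_sum, Finset.mul_sum, ← Finset.sum_add_distrib]
      refine Finset.sum_congr rfl fun i _ => ?_
      rw [← hpq i]
      ring
    linear_combination h' - h
  choose τ hτ using hdvd
  rw [Ideal.mem_span_range_iff_exists_fun]
  refine ⟨τ, ?_⟩
  apply mul_left_cancel₀ hx
  rw [← hα, Finset.mul_sum]
  calc ∑ k, x * (τ k * F k) = ∑ k, (α k * F k - (∑ i, q i * Φ i k) * F k) :=
        Finset.sum_congr rfl fun k _ => by linear_combination (-F k) * hτ k
    _ = ∑ k, α k * F k := by rw [Finset.sum_sub_distrib, hq0, sub_zero]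

end Pool.Agent.Lib.P4a9818
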