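import Pool.Agent.Lib.P4a9818.HB
import Pool.Agent.Lib.P4a9818.CInd
import Pool.Agent.Lib.P4a9818.Unmix

/-!
# P4a9818.JGen : `J` is generated by the `Fb`   (estimate 3 h)

Let `f0 ∈ J`, `f0 ∉ (Fb)`. Let `M` be the submodule of `R ⧸ (Fb)` generated by the class of `f0`. There
is an associated prime `𝔭` of `M` (`exists_le_isAssociatedPrime_of_isNoetherianRing`), i.e.
`f = r f0 ∈ J` with `𝔭 = {a | a f ∈ (Fb)}` prime (so `f ∉ (Fb)`).
`Q ∈ (Fb)` (`hilbert_burch`), so `Q ∈ 𝔭` and `ℓ_i ∈ 𝔭` for some `i`. There is `k` with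
`Fb k = C c π_i + ℓ_i u`, `c ≠ 0` (`mem_J_iff`, `IsBas.ndvd`), and `Fb k ∈ 𝔭`, so `π_i ∈ 𝔭`, and
`ℓ_r ∈ 𝔭` for some `r ∈ rep i`, `r ≠ i`. Let `𝔮 = PF l i r = (ℓ_i, ℓ_r) ⊆ 𝔭`, a prime
(`LinH.PF_prime`).
(a) `𝔮 ≠ 𝔭`: let `w ∈ 𝔭 ∖ 𝔮`; `x = ℓ_i`, `y = ℓ_r`, `w` satisfy the hypotheses of `unmix` (`ℓ_i` prime,
  `ℓ_i ∤ ℓ_r`; `𝔮` prime), so `f ∈ (Fb)`: contradiction.
(b) `𝔮 = 𝔭`. By `exists_cInd` there is `F1 ∈ J_D`, `F1 = ℓ_r B1`, `ℓ_i ∤ F1`; `F1 ∈ (Fb)`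
  (`IsBas.span`). `F1 = C c π_i + ℓ_i u`, `c ≠ 0`, `π_i = ℓ_r π'`, so `B1 ≡ C c π' mod ℓ_i`
  (cancel `ℓ_r` modulo the prime `ℓ_i`), and `π' ∉ 𝔮` (a product of linear forms `ℓ_{r'}`,
  `r' ∈ rep i`, `r' ≠ r`, not in the class; `lf_mem_PF_iff`), so `B1 ∉ 𝔮`. By symmetry (`i` and `r`
  exchanged) there is `F2 = ℓ_i B2 ∈ (Fb)`, `B2 ∉ (ℓ_r, ℓ_i) = 𝔮` (with a representative of the
  class of `i` in `rep r`). Then `B1 B2 ∉ 𝔮`, `B1 B2 ℓ_i ∈ (Fb)`, `B1 B2 ℓ_r ∈ (Fb)`, and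
  `f ∈ J ⊆ 𝔮`, so `B1 B2 f ∈ (Fb)`, i.e. `B1 B2 ∈ 𝔭 = 𝔮`: contradiction.
-/

namespace Pool.Agent.Lib.P4a9818

open MvPolynomial Matrix

variable {σ : Type} [Fintype σ] [DecidableEq σ] (A : Datum σ)

namespace JGenAux

theorem exists_ass {R : Type} [CommRing R] [IsNoetherianRing R] (𝔉 : Ideal R) {f0 : R}
    (h : f0 ∉ 𝔉) : ∃ (r : R) (𝔭 : Ideal R), 𝔭.IsPrime ∧ ∀ a, a ∈ 𝔭 ↔ a * (r * f0) ∈ 𝔉 := by
  let col : R → Ideal R := fun r =>
    { carrier := {a | a * (r * f0) ∈ 𝔉}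
      add_mem' := by
        intro a b ha hb
        show (a + b) * (r * f0) ∈ 𝔉
        rw [add_mul]
        exact 𝔉.add_mem ha hb
      zero_mem' := by
        show 0 * (r * f0) ∈ 𝔉
        rw [zero_mul]
        exact 𝔉.zero_mem
      smul_mem' := by
        intro c a ha
        show (c * a) * (r * f0) ∈ 𝔉
        rw [mul_assoc]
        exact 𝔉.mul_mem_left _ ha }
  have hne : {I : Ideal R | ∃ r, I = col r ∧ r * f0 ∉ 𝔉}.Nonempty :=
    ⟨col 1, 1, rfl, by rwa [one_mul]⟩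
  obtain ⟨P, ⟨r, rfl, hr⟩, hmax⟩ :=
    set_has_maximal_iff_noetherian.mpr (inferInstance : IsNoetherian R R) _ hne
  refine ⟨r, col r, ⟨?_, ?_⟩, fun a => Iff.rfl⟩
  · intro htop
    apply hr
    have h1 : (1 : R) ∈ col r := by rw [htop]; trivial
    have h2 : 1 * (r * f0) ∈ 𝔉 := h1
    rwa [one_mul] at h2
  · intro a b hab
    by_contra hcon
    push Not at hcon
    obtain ⟨ha, hb⟩ := hcon
    have hb' : b * r * f0 ∉ 𝔉 := by
      intro h2
      apply hb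
      show b * (r * f0) ∈ 𝔉
      rwa [← mul_assoc]
    refine hmax (col (b * r)) ⟨b * r, rfl, hb'⟩ (lt_of_le_of_ne ?_ ?_)
    · intro x hx
      show x * (b * r * f0) ∈ 𝔉
      have h3 : x * (r * f0) ∈ 𝔉 := hx
      have h4 : x * (b * r * f0) = b * (x * (r * f0)) := by ring
      rw [h4]
      exact 𝔉.mul_mem_left _ h3
    · intro heq
      apply ha
      rw [heq]
      show a * (b * r * f0) ∈ 𝔉
      have h5 : a * b * (r * f0) ∈ 𝔉 := hab
      have h6 : a * (b * r * f0) = a * b * (r * f0) := by ring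
      rwa [h6]

end JGenAux

namespace Datum

/-- If `F ∈ J_D`, `ℓ_j ∣ F`, `ℓ_i ∤ F` then `F = ℓ_j B` with `B ∉ (ℓ_i, ℓ_j)`. -/
private theorem cofactor {lam : ℂ} {D : ℕ} (hS : A.Scal lam D) {i j : A.ι} (hij : i ≠ j)
    {F : MvPolynomial σ ℂ} (hF : F.IsHomogeneous D) (hJ : F ∈ A.J) (h1 : lf (A.l j) ∣ F)
    (h2 : ¬ lf (A.l i) ∣ F) :
    ∃ B : MvPolynomial σ ℂ, F = lf (A.l j) * B ∧ B ∉ PF A.l i j := by
  have hli := A.li i j hij
  have hpr : (PF A.l i j).IsPrime := PF_prime hli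
  have hpi := prime_lf (A.l_ne_zero i)
  obtain ⟨B, rfl⟩ := h1
  refine ⟨B, rfl, ?_⟩
  obtain ⟨c, u, hu⟩ := (A.mem_J_iff hS hF).1 hJ i
  have hc : c ≠ 0 := by
    rintro rfl
    apply h2
    rw [C_0, zero_mul, sub_zero] at hu
    exact ⟨u, hu⟩
  -- the representative of the class of `j`
  obtain ⟨r, ⟨hr1, hr2⟩, hr3⟩ := (A.isRep_rep i).2 j hij.symm
  have hri : r ≠ i := fun h => (A.isRep_rep i).1 (h ▸ hr1)
  have hr2' := (A.mem_cls_iff i j r).1 hr2
  obtain ⟨x, y, hxy⟩ := Submodule.mem_span_pair.1 hr2'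
  have hy : y ≠ 0 := by
    rintro rfl
    rw [zero_smul, add_zero] at hxy
    exact A.l_not_smul hri.symm x hxy.symm
  classical
  set π' : MvPolynomial σ ℂ := ∏ r' ∈ (A.rep i).erase r, lf (A.l r') with hπ'
  have hpi' : A.pi i = lf (A.l r) * π' := by
    unfold Datum.pi
    rw [hπ', Finset.mul_prod_erase (A.rep i) (fun r => lf (A.l r)) hr1]
  have hr' : lf (A.l r) = C x * lf (A.l i) + C y * lf (A.l j) := by
    rw [← hxy, lf_add, lf_smul, lf_smul]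
  have hπn : π' ∉ PF A.l i j := by
    rw [hπ']
    intro hmem
    obtain ⟨r', h3, h4⟩ := (hpr.prod_mem_iff).1 hmem
    rw [Finset.mem_erase] at h3
    apply h3.1
    apply hr3
    refine ⟨h3.2, ?_⟩
    rw [A.mem_cls_iff]
    exact (lf_mem_PF_iff hli _).1 h4
  have hdvd : lf (A.l i) ∣ B - C (c * y) * π' := by
    have h5 : lf (A.l i) ∣ lf (A.l j) * (B - C (c * y) * π') := by
      refine ⟨u + C c * C x * π', ?_⟩
      rw [hpi', hr'] at hu
      rw [C_mul]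
      linear_combination hu
    rcases hpi.dvd_or_dvd h5 with h6 | h6
    · exfalso
      obtain ⟨c', hc'⟩ := (lf_dvd_lf_iff (A.l_ne_zero i) _).1 h6
      exact A.l_not_smul hij c' hc'
    · exact h6
  intro hB
  apply hπn
  obtain ⟨w, hw⟩ := hdvd
  have h7 : C (c * y) * π' ∈ PF A.l i j := by
    have h8 : C (c * y) * π' = B - lf (A.l i) * w := by linear_combination -hw
    rw [h8]
    exact Ideal.sub_mem _ hB (Ideal.mul_mem_right _ _ (Ideal.subset_span (by simp)))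
  rcases hpr.mem_or_mem h7 with h8 | h8
  · exfalso
    apply hpr.ne_top
    apply Ideal.eq_top_of_isUnit_mem _ h8
    exact (isUnit_iff_ne_zero.2 (mul_ne_zero hc hy)).map C
  · exact h8

private theorem PF_symm (i j : A.ι) : PF A.l i j = PF A.l j i := by
  unfold PF
  rw [Set.pair_comm]

theorem J_eq {lam : ℂ} {D : ℕ} (hS : A.Scal lam D) {Fb : σ → MvPolynomial σ ℂ}
    (hF : A.IsBas D Fb) : A.J = Ideal.span (Set.range Fb) := by
  classical
  apply le_antisymm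
  swap
  · rw [Ideal.span_le]
    rintro _ ⟨s, rfl⟩
    exact hF.mem s
  intro f0 hf0
  by_contra hcon
  obtain ⟨r0, 𝔭, hp, hmem⟩ := JGenAux.exists_ass (Ideal.span (Set.range Fb)) hcon
  obtain ⟨hQ, m, Φ, b, h1, h2, h3, h4, h5⟩ := A.hilbert_burch hS hF
  set f : MvPolynomial σ ℂ := r0 * f0 with hf
  have hfJ : f ∈ A.J := A.J.mul_mem_left _ hf0
  have hFp : ∀ g ∈ Ideal.span (Set.range Fb), g ∈ 𝔭 := by
    intro g hg
    rw [hmem]
    exact Ideal.mul_mem_right _ _ hg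
  have hfnot : f ∉ Ideal.span (Set.range Fb) := by
    intro h
    apply hp.ne_top
    rw [Ideal.eq_top_iff_one, hmem, one_mul]
    exact h
  -- some hyperplane
  have hQp : A.Q ∈ 𝔭 := hFp _ hQ
  unfold Datum.Q at hQp
  obtain ⟨i, _, hi⟩ := (hp.prod_mem_iff).1 hQp
  obtain ⟨k, hk⟩ := hF.ndvd i
  obtain ⟨c, u, hu⟩ := (A.mem_J_iff hS (hF.hom k)).1 (hF.mem k) i
  have hc : c ≠ 0 := by
    rintro rfl
    apply hk
    rw [C_0, zero_mul, sub_zero] at hu
    exact ⟨u, hu⟩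
  have hpi : A.pi i ∈ 𝔭 := by
    have h6 : C c * A.pi i ∈ 𝔭 := by
      have h7 : C c * A.pi i = Fb k - lf (A.l i) * u := by linear_combination -hu
      rw [h7]
      exact 𝔭.sub_mem (hFp _ (Ideal.subset_span ⟨k, rfl⟩)) (𝔭.mul_mem_right _ hi)
    rcases hp.mem_or_mem h6 with h8 | h8
    · exfalso
      apply hp.ne_top
      apply Ideal.eq_top_of_isUnit_mem _ h8
      exact (isUnit_iff_ne_zero.2 hc).map C
    · exact h8
  unfold Datum.pi at hpi
  obtain ⟨r, hr, hrp⟩ := (hp.prod_mem_iff).1 hpi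
  have hri : i ≠ r := fun h => (A.isRep_rep i).1 (h ▸ hr)
  have hli := A.li i r hri
  have hqpr : (PF A.l i r).IsPrime := PF_prime hli
  have hqp : PF A.l i r ≤ 𝔭 := by
    unfold PF
    rw [Ideal.span_le]
    rintro x (rfl | rfl)
    · exact hi
    · exact hrp
  by_cases heq : PF A.l i r = 𝔭
  · -- case (b)
    obtain ⟨F1, a1, a2, a3, a4⟩ := A.exists_cInd hS hri
    obtain ⟨B1, b1, b2⟩ := A.cofactor hS hri a1 a2 a3 a4
    obtain ⟨F2, c1, c2, c3, c4⟩ := A.exists_cInd hS hri.symm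
    obtain ⟨B2, d1, d2⟩ := A.cofactor hS hri.symm c1 c2 c3 c4
    rw [A.PF_symm r i] at d2
    have hF1 : F1 ∈ Ideal.span (Set.range Fb) := by
      have := hF.span F1 a1 a2
      exact Submodule.span_subset_span ℂ (MvPolynomial σ ℂ) _ this
    have hF2 : F2 ∈ Ideal.span (Set.range Fb) := by
      have := hF.span F2 c1 c2
      exact Submodule.span_subset_span ℂ (MvPolynomial σ ℂ) _ this
    have hfq : f ∈ PF A.l i r := by
      have : f ∈ A.J := hfJ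
      unfold Datum.J JF at this
      rw [Ideal.mem_iInf] at this
      have := this i
      rw [Ideal.mem_iInf] at this
      have := this r
      rw [Ideal.mem_iInf] at this
      exact this hri
    have hBB : B1 * B2 ∈ 𝔭 := by
      rw [hmem]
      unfold PF at hfq
      obtain ⟨x, y, hxy⟩ := Ideal.mem_span_pair.1 hfq
      have h9 : B1 * B2 * f = (B1 * x) * F2 + (B2 * y) * F1 := by
        rw [← hxy, d1, b1]
        ring
      rw [h9]
      exact Ideal.add_mem _ (Ideal.mul_mem_left _ _ hF2) (Ideal.mul_mem_left _ _ hF1)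
    rw [← heq] at hBB
    rcases hqpr.mem_or_mem hBB with h | h
    · exact b2 h
    · exact d2 h
  · -- case (a)
    have hlt : PF A.l i r < 𝔭 := lt_of_le_of_ne hqp heq
    obtain ⟨w, hw1, hw2⟩ := Set.exists_of_ssubset hlt
    apply hfnot
    have hpri := prime_lf (A.l_ne_zero i)
    refine unmix Fb Φ h4 h5 (lf (A.l i)) (lf (A.l r)) w f hpri.ne_zero ?_ ?_ ?_ ?_ ?_
    · intro a ha
      rcases hpri.dvd_or_dvd ha with h | h
      · exfalso
        obtain ⟨c', hc'⟩ := (lf_dvd_lf_iff (A.l_ne_zero i) _).1 h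
        exact A.l_not_smul hri c' hc'
      · exact h
    · intro a ha
      rcases hqpr.mem_or_mem (show w * a ∈ PF A.l i r from ha) with h | h
      · exact absurd h hw2
      · exact h
    · exact (hmem _).1 hi
    · exact (hmem _).1 hrp
    · exact (hmem _).1 hw1

end Datum

end Pool.Agent.Lib.P4a9818
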