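import Pool.Agent.Lib.P4a9818.TF

/-!
# P4a9818.KVClaim : vanishing of Koszul cohomology with coefficients in `B / I_j`  (estimate 2 h)

* `kv_claim`: for `j ≤ m`, integers `k, δ`, `i : ℕ` with `i + k = 4` (or `k < 0`, trivial):
  if for every `U : Finset (Fin m)`, all of whose elements are `< j`, with `card U ≤ k`:
  `i + card U < n ∨ δ - ∑_{u∈U} b u + n ≠ 0`, then `KV x (I j) (fun l => WB k (δ + l)) i`.
  Induction on `j`. `j = 0`: `kv_WB` (`U = ∅`; for `k < 0` trivial). Step: `Iu_succ`, `kv_tower` with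
  `W' l = WB (k-1) (δ - b j + l)`, `dec_WB`, `inj` from `tf_inj` (`WB ≤ WT`, `k - 1 ≤ 3`). The hypothesis for
  `(j, k - 1, δ - b j, i + 1)` and `U`: take `U ∪ {j}`.
-/

namespace Pool.Agent.Lib.P4a9818

open MvPolynomial

variable {σ κ : Type} [Fintype σ] [Fintype κ] [DecidableEq κ]

theorem kv_claim {F : κ → MvPolynomial σ ℂ} {D m : ℕ} {Φ : Fin m → κ → MvPolynomial σ ℂ}
    {b : Fin m → ℕ} (hP : Pres F D m Φ b) (hL : LocGen F) {n : ℕ} (ε : Fin n ≃ σ)
    {j : ℕ} (hj : j ≤ m) (k δ : ℤ) (i : ℕ) (hik : (i : ℤ) + k = 4)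
    (hU : ∀ U : Finset (Fin m), (∀ u ∈ U, u.val < j) → (U.card : ℤ) ≤ k →
      i + U.card < n ∨ δ - ((∑ u ∈ U, b u : ℕ) : ℤ) + n ≠ 0) :
    KV (fun t => (C (X (ε t)) : MvPolynomial κ (MvPolynomial σ ℂ))) (Iu Φ j)
      (fun l => WB k (δ + l)) i := by
  induction j generalizing k δ i with
  | zero =>
    rw [Iu_zero]
    rcases lt_or_ge k 0 with hk | hk
    · intro c hc _
      refine ⟨fun _ => 0, fun S _ => zero_mem _, fun S hS => ?_⟩
      have h0 : c S = 0 := WT_neg hk ((mem_WB_iff _ _ _).1 (hc S hS)).1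
      simp [h0, kd]
    · apply kv_WB
      have := hU ∅ (by simp) (by simpa using hk)
      simpa using this
  | succ j ih =>
    have hj' : j < m := hj
    rw [Iu_succ Φ hj']
    refine kv_tower _ _ _ _ (fun l => WB (k - 1) (δ - (b ⟨j, hj'⟩ : ℤ) + l)) i ?_ ?_ ?_ ?_ ?_ ?_ ?_
    · intro l s a ha
      have := X_mul_WB (ε s) ha
      have e : δ + ((l + 1 : ℕ) : ℤ) = δ + l + 1 := by push_cast; ring
      show _ ∈ WB k (δ + ((l + 1 : ℕ) : ℤ))
      rw [e]; exact this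
    · intro l s a ha
      have := X_mul_WB (ε s) ha
      have e : δ - (b ⟨j, hj'⟩ : ℤ) + ((l + 1 : ℕ) : ℤ) = δ - (b ⟨j, hj'⟩ : ℤ) + l + 1 := by
        push_cast; ring
      show _ ∈ WB (k - 1) (δ - (b ⟨j, hj'⟩ : ℤ) + ((l + 1 : ℕ) : ℤ))
      rw [e]; exact this
    · intro l a ha
      have e : δ - (b ⟨j, hj'⟩ : ℤ) + (l : ℤ) = δ + l - (b ⟨j, hj'⟩ : ℕ) := by ring
      have ha' : a ∈ (WB (k - 1) (δ - (b ⟨j, hj'⟩ : ℤ) + (l : ℤ)) :
        AddSubgroup (MvPolynomial κ (MvPolynomial σ ℂ))) := ha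
      rw [e] at ha'
      exact hat_mul_WB _ (hP.homΦ _) ha'
    · intro a ha hm
      obtain ⟨a', ha', h'⟩ := dec_WB Φ b hP.homΦ hj' k _ ha hm
      refine ⟨a', ?_, h'⟩
      have e : δ - (b ⟨j, hj'⟩ : ℤ) + ((i + 1 : ℕ) : ℤ) = δ + ((i + 1 : ℕ) : ℤ) - (b ⟨j, hj'⟩ : ℕ) := by
        ring
      show _ ∈ WB (k - 1) (δ - (b ⟨j, hj'⟩ : ℤ) + ((i + 1 : ℕ) : ℤ))
      rw [e]; exact ha'
    · intro a ha h
      have ha' := ((mem_WB_iff _ _ _).1 ha).1
      exact tf_inj hP hL hj' (by omega) ha' h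
    · apply ih hj'.le k δ i hik
      intro U hUj hUk
      exact hU U (fun u hu => Nat.lt_succ_of_lt (hUj u hu)) hUk
    · apply ih hj'.le (k - 1) (δ - (b ⟨j, hj'⟩ : ℤ)) (i + 1) (by push_cast; omega)
      intro U hUj hUk
      have hn : (⟨j, hj'⟩ : Fin m) ∉ U := fun h => lt_irrefl _ (hUj _ h)
      have hc : (insert (⟨j, hj'⟩ : Fin m) U).card = U.card + 1 := Finset.card_insert_of_notMem hn
      have := hU (insert ⟨j, hj'⟩ U) (by
        intro u hu
        rcases Finset.mem_insert.1 hu with h | h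
        · rw [h]; exact Nat.lt_succ_self j
        · exact Nat.lt_succ_of_lt (hUj u h)) (by rw [hc]; push_cast; omega)
      rw [hc, Finset.sum_insert hn] at this
      rcases this with h | h
      · left; omega
      · right; intro h2; apply h; push_cast at h2 ⊢; linarith

end Pool.Agent.Lib.P4a9818
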