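import Pool.Agent.Lib.P4a9818.GBasic

/-!
# P4a9818.KosReg : Koszul cohomology of a regular sequence vanishes below the top  (estimate 3 h)

`kv_reg`: for a weakly regular sequence `x : Fin r → B`, `H^i = 0` for `i < r`. Induction on `r`
(`r = 0` is void). Let `x : Fin (r+1) → B`, `x' = x ∘ castSucc` (weakly regular), `y = x (last r)`.
For a cochain `c` put `c0 T = c (T')`, `c1 T = c (insert (last r) T')`, where `T' = T.map castSuccEmb`,
`T : Finset (Fin r)`. Then
`kd x c T' = kd x' c0 T`, `kd x c (insert last T') = kd x' c1 T + (-1)^(card T) y c0 T`.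
Let `c` be a cocycle of degree `i ≤ r` (i.e. `i < r + 1`): `kd x' c0 = 0` in degree `i + 1` and
`kd x' c1 = - (-1)^i y c0` in degree `i` (on the sets `T` with `i` elements).
* `i < r`: by induction `c0 = kd x' e0` (degree `i`), so `kd x' (c1 + (-1)^i y e0) = 0` in degree `i`,
  and by induction (degree `i - 1 < r`; if `i = 0` there is nothing to do)
  `c1 + (-1)^i y e0 = kd x' e1` in degree `i - 1`. Then `e` with `e(T') = e0 T`,
  `e(insert last T') = e1 T` satisfies `kd x e (insert last T') = kd x' e1 T + (-1)^(i-1) y e0 T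
  = c1 T`. 
* `i = r`: `c0` lives in degree `r` (only `T = univ`), `c1` in degree `r - 1`, and
  `y c0(univ) = ∓ kd x' c1 univ ∈ (x')`, so `c0(univ) ∈ (x')` by regularity of `y` modulo `(x')`,
  i.e. `c0(univ) = kd x' e0 univ` for some `e0` of degree `r - 1` (every element `∑ b_s x' s` is
  `kd x' e0 univ`, `e0 (univ∖s) = ± b_s`). (If `r = 0`: `c0(∅) = 0` since the ideal is `0`.) Now
  proceed as before: `kd x' (c1 + (-1)^i y e0) = 0` in degree `i = r`, and the induction hypothesis
  in degree `i - 1 = r - 1 < r`.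
(The value of a cochain on the sets of the wrong cardinality is irrelevant; define the constructed
cochains by `0` there or do not care.)
* `kv_WT`: apply `kv_reg` to `C ∘ x` (`reg_C`) and the projection (`exists_proj_WT`, which is
  `R`-linear and so commutes with multiplication by `C (x s)` and with `kd`).
* `kv_WB`: `x t = C (X (ε t))`, `ε : Fin n ≃ σ`, `n = card σ`. The sequence `X (ε t)` is weakly regular
  in `ℂ[σ]` (`(X_s : s ∈ T)` is a prime ideal not containing `X_t`; or by monomials: `f ∈ (X_s, s ∈ T)`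
  iff every monomial of `f` contains some `X_s`, `s ∈ T`, `MvPolynomial.mem_ideal_span_X_image`),
  so for `i < n` there is a solution `e`, and one projects it to the bidegree `(k, δ + i - 1)`
  (take components). If `i ≥ n` and `δ + n ≠ 0`: for `i > n` there are no sets with `i` elements;
  for `i = n` only `S = univ`: `c univ ∈ WB k (δ + n)`; if `δ + n < 0` it is `0`; if `δ + n > 0` all
  coefficients are homogeneous of positive degree, so `c univ = ∑_t C (X (ε t)) * b_t` with
  `b_t ∈ WB k (δ + n - 1)`, and this is `kd x e univ` for `e (univ∖t) = ± b_t`.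
-/

namespace Pool.Agent.Lib.P4a9818

open MvPolynomial

namespace KosRegAux

variable {B : Type} [CommRing B]

theorem kd_map {r : ℕ} (x : Fin (r + 1) → B) (c : Finset (Fin (r + 1)) → B)
    (T : Finset (Fin r)) :
    kd x c (T.map Fin.castSuccEmb) =
      kd (fun t => x t.castSucc) (fun T => c (T.map Fin.castSuccEmb)) T := by
  unfold kd
  rw [Finset.sum_map]
  apply Finset.sum_congr rfl
  intro t ht
  have h1 : ((T.map Fin.castSuccEmb).filter (· < Fin.castSuccEmb t)) =
      (T.filter (· < t)).map Fin.castSuccEmb := by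
    ext s
    simp only [Finset.mem_filter, Finset.mem_map]
    constructor
    · rintro ⟨⟨u, hu, rfl⟩, h⟩
      exact ⟨u, ⟨hu, by simpa using h⟩, rfl⟩
    · rintro ⟨u, ⟨hu, h⟩, rfl⟩
      exact ⟨⟨u, hu, rfl⟩, by simpa using h⟩
  have h2 : ((T.map Fin.castSuccEmb).erase (Fin.castSuccEmb t)) =
      (T.erase t).map Fin.castSuccEmb := by
    rw [Finset.map_erase]
  rw [h1, h2, Finset.card_map]
  rfl

theorem last_notMem {r : ℕ} (T : Finset (Fin r)) :
    Fin.last r ∉ T.map Fin.castSuccEmb := by
  simp only [Finset.mem_map, not_exists, not_and]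
  intro u _ h
  exact absurd h (Fin.castSucc_lt_last u).ne

theorem kd_insert {r : ℕ} (x : Fin (r + 1) → B) (c : Finset (Fin (r + 1)) → B)
    (T : Finset (Fin r)) :
    kd x c (insert (Fin.last r) (T.map Fin.castSuccEmb)) =
      kd (fun t => x t.castSucc)
        (fun T => c (insert (Fin.last r) (T.map Fin.castSuccEmb))) T +
      (-1) ^ T.card * x (Fin.last r) * c (T.map Fin.castSuccEmb) := by
  unfold kd
  rw [Finset.sum_insert (last_notMem T), Finset.sum_map, add_comm]
  congr 1
  · apply Finset.sum_congr rfl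
    intro t ht
    have h1 : ((insert (Fin.last r) (T.map Fin.castSuccEmb)).filter
        (· < Fin.castSuccEmb t)) = (T.filter (· < t)).map Fin.castSuccEmb := by
      ext s
      simp only [Finset.mem_filter, Finset.mem_map, Finset.mem_insert]
      constructor
      · rintro ⟨h0 | ⟨u, hu, rfl⟩, h⟩
        · subst h0
          exact absurd h (not_lt.mpr (Fin.le_last _))
        · exact ⟨u, ⟨hu, by simpa using h⟩, rfl⟩
      · rintro ⟨u, ⟨hu, h⟩, rfl⟩
        exact ⟨Or.inr ⟨u, hu, rfl⟩, by simpa using h⟩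
    have h2 : ((insert (Fin.last r) (T.map Fin.castSuccEmb)).erase (Fin.castSuccEmb t)) =
        insert (Fin.last r) ((T.erase t).map Fin.castSuccEmb) := by
      rw [Finset.map_erase, Finset.erase_insert_of_ne]
      exact (Fin.castSucc_lt_last t).ne'
    rw [h1, h2, Finset.card_map]
    rfl
  · have h1 : ((insert (Fin.last r) (T.map Fin.castSuccEmb)).filter
        (· < Fin.last r)) = T.map Fin.castSuccEmb := by
      ext s
      simp only [Finset.mem_filter, Finset.mem_map, Finset.mem_insert]
      constructor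
      · rintro ⟨h0 | ⟨u, hu, rfl⟩, h⟩
        · exact absurd h0 h.ne
        · exact ⟨u, hu, rfl⟩
      · rintro ⟨u, hu, rfl⟩
        exact ⟨Or.inr ⟨u, hu, rfl⟩, Fin.castSucc_lt_last u⟩
    rw [h1, Finset.card_map, Finset.erase_insert (last_notMem T)]

/-- The restriction of a set. -/
def res {r : ℕ} (S : Finset (Fin (r + 1))) : Finset (Fin r) :=
  Finset.univ.filter (fun t => t.castSucc ∈ S)

theorem res_map {r : ℕ} (T : Finset (Fin r)) : res (T.map Fin.castSuccEmb) = T := by
  ext t
  simp [res]

theorem res_insert {r : ℕ} (T : Finset (Fin r)) :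
    res (insert (Fin.last r) (T.map Fin.castSuccEmb)) = T := by
  ext t
  simp [res]

theorem eq_map {r : ℕ} {S : Finset (Fin (r + 1))} (h : Fin.last r ∉ S) :
    S = (res S).map Fin.castSuccEmb := by
  ext s
  simp only [res, Finset.mem_map, Finset.mem_filter, Finset.mem_univ, true_and]
  constructor
  · intro hs
    rcases Fin.eq_castSucc_or_eq_last s with ⟨t, rfl⟩ | rfl
    · exact ⟨t, hs, rfl⟩
    · exact absurd hs h
  · rintro ⟨t, ht, rfl⟩
    exact ht

theorem eq_insert {r : ℕ} {S : Finset (Fin (r + 1))} (h : Fin.last r ∈ S) :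
    S = insert (Fin.last r) ((res S).map Fin.castSuccEmb) := by
  ext s
  simp only [res, Finset.mem_map, Finset.mem_filter, Finset.mem_univ, true_and,
    Finset.mem_insert]
  constructor
  · intro hs
    rcases Fin.eq_castSucc_or_eq_last s with ⟨t, rfl⟩ | rfl
    · exact Or.inr ⟨t, hs, rfl⟩
    · exact Or.inl rfl
  · rintro (rfl | ⟨t, ht, rfl⟩)
    · exact h
    · exact ht

/-- The signed combination with prescribed top value. -/
theorem kd_univ {r : ℕ} (x b : Fin r → B) :
    kd x (fun S => ∑ s ∈ Sᶜ, (-1) ^ ((Finset.univ : Finset (Fin r)).filter (· < s)).card * b s)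
      Finset.univ = ∑ s, x s * b s := by
  unfold kd
  apply Finset.sum_congr rfl
  intro s _
  have h : ((Finset.univ : Finset (Fin r)).erase s)ᶜ = {s} := by
    ext t
    simp
  beta_reduce
  rw [h, Finset.sum_singleton]
  have h2 : ((-1 : B) ^ ((Finset.univ : Finset (Fin r)).filter (· < s)).card) *
      ((-1) ^ ((Finset.univ : Finset (Fin r)).filter (· < s)).card) = 1 := by
    rw [← mul_pow]
    simp
  linear_combination (x s * b s) * h2

theorem exists_univ {r : ℕ} (x : Fin r → B) {b : B} (hb : b ∈ Ideal.span (Set.range x)) :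
    ∃ e : Finset (Fin r) → B, kd x e Finset.univ = b := by
  obtain ⟨a, ha⟩ := (Ideal.mem_span_range_iff_exists_fun).mp hb
  refine ⟨_, (kd_univ x a).trans ?_⟩
  rw [← ha]
  exact Finset.sum_congr rfl fun s _ => mul_comm _ _

theorem kd_mem_span {r : ℕ} (x : Fin r → B) (c : Finset (Fin r) → B) (S : Finset (Fin r)) :
    kd x c S ∈ Ideal.span (Set.range x) := by
  unfold kd
  refine Ideal.sum_mem _ fun s _ => ?_
  have h : (-1) ^ (S.filter (· < s)).card * x s * c (S.erase s) =
      ((-1) ^ (S.filter (· < s)).card * c (S.erase s)) * x s := by ring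
  rw [h]
  exact Ideal.mul_mem_left _ _ (Ideal.subset_span ⟨s, rfl⟩)

theorem core {r : ℕ} : ∀ (x : Fin r → B), Reg x → ∀ i, i < r →
    ∀ c : Finset (Fin r) → B, (∀ S, S.card = i + 1 → kd x c S = 0) →
      ∃ e : Finset (Fin r) → B, ∀ S, S.card = i → c S = kd x e S := by
  induction r with
  | zero => intro x _ i hi; omega
  | succ r ih =>
    intro x hx i hi c hc
    have himg : ∀ t : Fin r, (fun t => x t.castSucc) '' {s | s < t} =
        x '' {s | s < t.castSucc} := by
      intro t
      ext b
      constructor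
      · rintro ⟨s, hs, rfl⟩
        exact ⟨s.castSucc, by simpa using hs, rfl⟩
      · rintro ⟨s, hs, rfl⟩
        rcases Fin.eq_castSucc_or_eq_last s with ⟨u, rfl⟩ | rfl
        · exact ⟨u, by simpa using hs, rfl⟩
        · exact absurd hs (not_lt.mpr (Fin.le_last _))
    have hx' : Reg (fun t : Fin r => x t.castSucc) := by
      intro t b hb
      rw [himg] at hb ⊢
      exact hx t.castSucc b hb
    have hrange : x '' {s | s < Fin.last r} = Set.range (fun t : Fin r => x t.castSucc) := by
      ext b
      constructor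
      · rintro ⟨s, hs, rfl⟩
        rcases Fin.eq_castSucc_or_eq_last s with ⟨u, rfl⟩ | rfl
        · exact ⟨u, rfl⟩
        · exact absurd (show Fin.last r < Fin.last r from hs) (lt_irrefl _)
      · rintro ⟨u, rfl⟩
        exact ⟨u.castSucc, Fin.castSucc_lt_last u, rfl⟩
    set c0 : Finset (Fin r) → B := fun T => c (T.map Fin.castSuccEmb) with hc0
    set c1 : Finset (Fin r) → B := fun T => c (insert (Fin.last r) (T.map Fin.castSuccEmb))
      with hc1
    have h0 : ∀ T : Finset (Fin r), T.card = i + 1 → kd (fun t => x t.castSucc) c0 T = 0 := by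
      intro T hT
      rw [← kd_map]
      exact hc _ (by rw [Finset.card_map, hT])
    have h1 : ∀ T : Finset (Fin r), T.card = i →
        kd (fun t => x t.castSucc) c1 T + (-1) ^ i * x (Fin.last r) * c0 T = 0 := by
      intro T hT
      have := kd_insert x c T
      rw [hT] at this
      rw [← this]
      exact hc _ (by rw [Finset.card_insert_of_notMem (last_notMem T), Finset.card_map, hT])
    have key : ∃ e0 : Finset (Fin r) → B, ∀ T, T.card = i →
        c0 T = kd (fun t => x t.castSucc) e0 T := by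
      rcases Nat.lt_succ_iff_lt_or_eq.mp hi with hlt | heq
      · exact ih _ hx' i hlt c0 h0
      · have hU : ((Finset.univ : Finset (Fin r))).card = i := by simp [heq]
        have h2 := h1 Finset.univ hU
        have h3 : x (Fin.last r) * c0 Finset.univ ∈
            Ideal.span (x '' {s | s < Fin.last r}) := by
          rw [hrange]
          have h4 : x (Fin.last r) * c0 Finset.univ =
              -((-1) ^ i * kd (fun t => x t.castSucc) c1 Finset.univ) := by
            have h5 : ((-1 : B) ^ i) * ((-1) ^ i) = 1 := by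
              rw [← mul_pow]; simp
            linear_combination (-1 : B) ^ i * h2 - x (Fin.last r) * c0 Finset.univ * h5
          rw [h4]
          exact neg_mem (Ideal.mul_mem_left _ _ (kd_mem_span _ _ _))
        have h6 := hx (Fin.last r) _ h3
        rw [hrange] at h6
        obtain ⟨e, he⟩ := exists_univ _ h6
        refine ⟨e, fun T hT => ?_⟩
        have : T = Finset.univ := by
          rw [← Finset.card_eq_iff_eq_univ, hT, heq, Fintype.card_fin]
        rw [this, he]
    obtain ⟨e0, he0⟩ := key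
    have h7 : ∀ T : Finset (Fin r), T.card = i →
        kd (fun t => x t.castSucc)
          (c1 + fun T => (-1) ^ i * x (Fin.last r) * e0 T) T = 0 := by
      intro T hT
      rw [kd_add, kd_mul, Pi.add_apply, ← he0 T hT]
      exact h1 T hT
    rcases Nat.eq_zero_or_pos i with hi0 | hipos
    · refine ⟨0, fun S hS => ?_⟩
      rw [hi0, Finset.card_eq_zero] at hS
      subst hS
      rw [kd_empty]
      have := he0 ∅ (by simp [hi0])
      rw [kd_empty] at this
      simpa [hc0] using this
    · obtain ⟨j, rfl⟩ : ∃ j, i = j + 1 := ⟨i - 1, by omega⟩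
      obtain ⟨e1, he1⟩ := ih _ hx' j (by omega) _ h7
      classical
      refine ⟨fun S => if Fin.last r ∈ S then e1 (res S) else e0 (res S), fun S hS => ?_⟩
      by_cases hl : Fin.last r ∈ S
      · have hSe := eq_insert hl
        generalize res S = T at hSe
        subst hSe
        have hTc : T.card = j := by
          rw [Finset.card_insert_of_notMem (last_notMem T), Finset.card_map] at hS
          omega
        rw [kd_insert]
        have e1' : (fun T : Finset (Fin r) =>
            (fun S => if Fin.last r ∈ S then e1 (res S) else e0 (res S))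
              (insert (Fin.last r) (T.map Fin.castSuccEmb))) = e1 := by
          funext T
          simp only [Finset.mem_insert, true_or, if_true, res_insert]
        rw [e1', if_neg (last_notMem T), res_map, ← he1 T hTc, hTc, Pi.add_apply]
        simp only [hc1]
        ring
      · have hSe := eq_map hl
        generalize res S = T at hSe
        subst hSe
        rw [Finset.card_map] at hS
        rw [kd_map]
        have e0' : (fun T : Finset (Fin r) =>
            (fun S => if Fin.last r ∈ S then e1 (res S) else e0 (res S))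
              (T.map Fin.castSuccEmb)) = e0 := by
          funext T
          simp only [last_notMem, if_false, res_map]
        rw [e0', ← he0 T hS]

end KosRegAux

theorem kv_reg {B : Type} [CommRing B] {r : ℕ} (x : Fin r → B) (hx : Reg x) (i : ℕ)
    (hi : i < r) : KV x ⊥ (fun _ => ⊤) i := by
  intro c _ hc
  obtain ⟨e, he⟩ := KosRegAux.core x hx i hi c (fun S hS => by simpa using hc S hS)
  exact ⟨e, fun _ _ => trivial, fun S hS => by rw [he S hS, sub_self]; exact zero_mem _⟩

theorem kv_WT {R κ : Type} [CommRing R] {r : ℕ} (x : Fin r → R) (hx : Reg x) (k : ℤ) (i : ℕ)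
    (hi : i < r) :
    KV (fun t => (C (x t) : MvPolynomial κ R)) ⊥ (fun _ => WT k) i := by
  intro c hcW hc
  obtain ⟨e, he⟩ := KosRegAux.core _ (reg_C (κ := κ) hx) i hi c
    (fun S hS => by simpa using hc S hS)
  obtain ⟨p, hp1, hp2⟩ := exists_proj_WT (κ := κ) (R := R) k
  refine ⟨fun S => p (e S), fun S _ => hp1 _, fun S hS => ?_⟩
  have h1 : c S = kd (fun t => (C (x t) : MvPolynomial κ R)) (fun S => p (e S)) S := by
    rw [← hp2 _ (hcW S hS), he S hS]
    unfold kd
    rw [map_sum]
    apply Finset.sum_congr rfl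
    intro s _
    have h2 : ∀ b : MvPolynomial κ R, (-1) ^ (S.filter (· < s)).card * C (x s) * b =
        ((-1) ^ (S.filter (· < s)).card * x s) • b := by
      intro b
      rw [MvPolynomial.smul_eq_C_mul]
      simp
    rw [h2, h2, map_smul]
  rw [h1, sub_self]
  exact zero_mem _


namespace KosRegAux

section bi

variable {σ κ : Type}

/-- The homogeneous component of integer degree. -/
noncomputable def hc (δ : ℤ) (f : MvPolynomial σ ℂ) : MvPolynomial σ ℂ :=
  ∑ u ∈ f.support.filter (fun u => ((u.degree : ℕ) : ℤ) = δ), monomial u (coeff u f)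

open Classical in
theorem coeff_hc (δ : ℤ) (f : MvPolynomial σ ℂ) (u : σ →₀ ℕ) :
    coeff u (hc δ f) = if ((u.degree : ℕ) : ℤ) = δ then coeff u f else 0 := by
  unfold hc
  rw [coeff_sum]
  simp only [coeff_monomial]
  rw [Finset.sum_ite_eq']
  simp only [Finset.mem_filter, mem_support_iff]
  by_cases h1 : ((u.degree : ℕ) : ℤ) = δ <;> by_cases h2 : coeff u f = 0 <;> simp [h1, h2]

/-- The bihomogeneous component. -/
noncomputable def Q (k δ : ℤ) (f : MvPolynomial κ (MvPolynomial σ ℂ)) :
    MvPolynomial κ (MvPolynomial σ ℂ) :=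
  ∑ m ∈ f.support.filter (fun m => ((m.degree : ℕ) : ℤ) = k), monomial m (hc δ (coeff m f))

open Classical in
theorem coeff_Q (k δ : ℤ) (f : MvPolynomial κ (MvPolynomial σ ℂ)) (m : κ →₀ ℕ) :
    coeff m (Q k δ f) = if ((m.degree : ℕ) : ℤ) = k then hc δ (coeff m f) else 0 := by
  unfold Q
  rw [coeff_sum]
  simp only [coeff_monomial]
  rw [Finset.sum_ite_eq']
  simp only [Finset.mem_filter, mem_support_iff]
  by_cases h1 : ((m.degree : ℕ) : ℤ) = k <;> by_cases h2 : coeff m f = 0 <;>
    simp [h1, h2, hc]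

open Classical in
theorem coeff_coeff_Q (k δ : ℤ) (f : MvPolynomial κ (MvPolynomial σ ℂ)) (m : κ →₀ ℕ)
    (u : σ →₀ ℕ) :
    coeff u (coeff m (Q k δ f)) =
      if ((m.degree : ℕ) : ℤ) = k ∧ ((u.degree : ℕ) : ℤ) = δ then coeff u (coeff m f)
      else 0 := by
  rw [coeff_Q]
  by_cases h1 : ((m.degree : ℕ) : ℤ) = k <;> by_cases h2 : ((u.degree : ℕ) : ℤ) = δ <;>
    simp [h1, h2, coeff_hc]

theorem ext2 {f g : MvPolynomial κ (MvPolynomial σ ℂ)}
    (h : ∀ m u, coeff u (coeff m f) = coeff u (coeff m g)) : f = g := by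
  apply MvPolynomial.ext
  intro m
  apply MvPolynomial.ext
  intro u
  exact h m u

theorem Q_mem (k δ : ℤ) (f : MvPolynomial κ (MvPolynomial σ ℂ)) :
    Q k δ f ∈ (WB k δ : AddSubgroup (MvPolynomial κ (MvPolynomial σ ℂ))) := by
  classical
  intro m u h
  rw [coeff_coeff_Q] at h
  by_contra hc
  rw [if_neg hc] at h
  exact h rfl

theorem Q_id {k δ : ℤ} {f : MvPolynomial κ (MvPolynomial σ ℂ)}
    (hf : f ∈ (WB k δ : AddSubgroup (MvPolynomial κ (MvPolynomial σ ℂ)))) : Q k δ f = f := by
  classical
  apply ext2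
  intro m u
  rw [coeff_coeff_Q]
  split_ifs with h
  · rfl
  · by_contra h2
    exact h (hf m u (fun h3 => h2 h3.symm))

theorem Q_add (k δ : ℤ) (f g : MvPolynomial κ (MvPolynomial σ ℂ)) :
    Q k δ (f + g) = Q k δ f + Q k δ g := by
  classical
  apply ext2
  intro m u
  rw [coeff_add, coeff_add, coeff_coeff_Q, coeff_coeff_Q, coeff_coeff_Q, coeff_add, coeff_add]
  split_ifs <;> simp

theorem Q_zero (k δ : ℤ) : Q k δ (0 : MvPolynomial κ (MvPolynomial σ ℂ)) = 0 := by
  classical
  apply ext2
  intro m u
  rw [coeff_coeff_Q]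
  split_ifs <;> simp

theorem Q_neg (k δ : ℤ) (f : MvPolynomial κ (MvPolynomial σ ℂ)) :
    Q k δ (-f) = -Q k δ f := by
  have h := Q_add k δ f (-f)
  rw [add_neg_cancel, Q_zero] at h
  exact (neg_eq_of_add_eq_zero_right h.symm).symm

theorem Q_sum {ι : Type} (s : Finset ι) (k δ : ℤ) (f : ι → MvPolynomial κ (MvPolynomial σ ℂ)) :
    Q k δ (∑ i ∈ s, f i) = ∑ i ∈ s, Q k δ (f i) := by
  classical
  induction s using Finset.induction_on with
  | empty => simp [Q_zero]
  | insert a s ha ih => rw [Finset.sum_insert ha, Finset.sum_insert ha, Q_add, ih]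

theorem Q_X (k δ : ℤ) (s : σ) (f : MvPolynomial κ (MvPolynomial σ ℂ)) :
    Q k (δ + 1) (C (X s) * f) = C (X s) * Q k δ f := by
  classical
  apply ext2
  intro m u
  rw [coeff_coeff_Q, coeff_C_mul, coeff_C_mul, coeff_X_mul', coeff_X_mul', coeff_coeff_Q]
  by_cases hs : s ∈ u.support
  · have hd : ((u.degree : ℕ) : ℤ) = (((u - Finsupp.single s 1).degree : ℕ) : ℤ) + 1 := by
      have h1 : u = (u - Finsupp.single s 1) + Finsupp.single s 1 := by
        rw [tsub_add_cancel_of_le]
        rw [Finsupp.single_le_iff]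
        exact Nat.one_le_iff_ne_zero.mpr (Finsupp.mem_support_iff.mp hs)
      conv_lhs => rw [h1]
      rw [map_add, Finsupp.degree_single]
      push_cast
      ring
    rw [if_pos hs, if_pos hs]
    have h3 : (((m.degree : ℕ) : ℤ) = k ∧ ((u.degree : ℕ) : ℤ) = δ + 1) ↔
        (((m.degree : ℕ) : ℤ) = k ∧ (((u - Finsupp.single s 1).degree : ℕ) : ℤ) = δ) := by
      rw [hd]
      constructor
      · rintro ⟨a, b⟩; exact ⟨a, by linarith⟩
      · rintro ⟨a, b⟩; exact ⟨a, by linarith⟩
    simp only [h3]
  · rw [if_neg hs, if_neg hs]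
    split_ifs <;> rfl

theorem Q_sign (k δ : ℤ) (a : ℕ) (s : σ) (f : MvPolynomial κ (MvPolynomial σ ℂ)) :
    Q k (δ + 1) ((-1) ^ a * C (X s) * f) = (-1) ^ a * C (X s) * Q k δ f := by
  rcases neg_one_pow_eq_or (MvPolynomial κ (MvPolynomial σ ℂ)) a with h | h
  · rw [h, one_mul, Q_X]
  · rw [h, neg_one_mul, neg_mul, Q_neg, Q_X, neg_mul]

theorem Q_kd {n : ℕ} (ε : Fin n ≃ σ) (k δ : ℤ)
    (e : Finset (Fin n) → MvPolynomial κ (MvPolynomial σ ℂ)) (S : Finset (Fin n)) :
    Q k (δ + 1) (kd (fun t => (C (X (ε t)) : MvPolynomial κ (MvPolynomial σ ℂ))) e S) =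
      kd (fun t => (C (X (ε t)) : MvPolynomial κ (MvPolynomial σ ℂ)))
        (fun S => Q k δ (e S)) S := by
  unfold kd
  rw [Q_sum]
  exact Finset.sum_congr rfl fun s _ => Q_sign k δ _ _ _

theorem reg_X {n : ℕ} (ε : Fin n ≃ σ) : Reg (fun t => (X (ε t) : MvPolynomial σ ℂ)) := by
  classical
  intro t b hb
  have himg : (fun t => (X (ε t) : MvPolynomial σ ℂ)) '' {s | s < t} =
      X '' (ε '' {s | s < t}) := by
    rw [Set.image_image]
  rw [himg, mem_ideal_span_X_image] at hb ⊢
  intro m hm
  obtain ⟨i, hi, h⟩ := hb (Finsupp.single (ε t) 1 + m) (by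
    rw [mem_support_iff, coeff_X_mul]
    exact mem_support_iff.mp hm)
  refine ⟨i, hi, fun h0 => h ?_⟩
  have hne : ε t ≠ i := by
    rintro rfl
    obtain ⟨s, hs, h2⟩ := hi
    have : s = t := ε.injective h2
    exact absurd (show s < t from hs) (by rw [this]; exact lt_irrefl _)
  rw [Finsupp.add_apply, h0, Finsupp.single_eq_of_ne hne.symm]

theorem mem_span_X {n : ℕ} (ε : Fin n ≃ σ) (k δ : ℤ) (hδ : 0 < δ)
    {f : MvPolynomial κ (MvPolynomial σ ℂ)}
    (hf : f ∈ (WB k δ : AddSubgroup (MvPolynomial κ (MvPolynomial σ ℂ)))) :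
    f ∈ Ideal.span (Set.range
      (fun t => (C (X (ε t)) : MvPolynomial κ (MvPolynomial σ ℂ)))) := by
  have h1 : Set.range (fun t => (C (X (ε t)) : MvPolynomial κ (MvPolynomial σ ℂ))) =
      C '' (X '' (Set.univ : Set σ)) := by
    ext b
    constructor
    · rintro ⟨t, rfl⟩
      exact ⟨_, ⟨ε t, trivial, rfl⟩, rfl⟩
    · rintro ⟨_, ⟨s, _, rfl⟩, rfl⟩
      exact ⟨ε.symm s, by simp⟩
  rw [h1, ← Ideal.map_span, mem_map_C_iff]
  intro m
  rw [mem_ideal_span_X_image]
  intro u hu
  have h2 := (hf m u (mem_support_iff.mp hu)).2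
  by_contra h3
  push Not at h3
  have h4 : u = 0 := by
    ext i
    exact h3 i trivial
  rw [h4] at h2
  simp at h2
  omega

end bi

end KosRegAux

theorem kv_WB {σ κ : Type} {n : ℕ} (ε : Fin n ≃ σ) (k δ : ℤ) (i : ℕ)
    (hi : i < n ∨ δ + n ≠ 0) :
    KV (fun t => (C (X (ε t)) : MvPolynomial κ (MvPolynomial σ ℂ))) ⊥
      (fun j => WB k (δ + j)) i := by
  intro c hcW hc
  have key : ∃ e : Finset (Fin n) → MvPolynomial κ (MvPolynomial σ ℂ), ∀ S, S.card = i →
      c S = kd (fun t => (C (X (ε t)) : MvPolynomial κ (MvPolynomial σ ℂ))) e S := by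
    by_cases hin : i < n
    · exact KosRegAux.core _ (reg_C (κ := κ) (KosRegAux.reg_X ε)) i hin c
        (fun S hS => by simpa using hc S hS)
    · have hδ : δ + n ≠ 0 := hi.resolve_left hin
      by_cases hin2 : i = n
      · subst hin2
        have hU := hcW Finset.univ (by simp)
        rcases lt_or_gt_of_ne hδ with hneg | hpos
        · refine ⟨0, fun S hS => ?_⟩
          have h1 : c S = 0 := by
            apply KosRegAux.ext2
            intro m u
            by_contra h2
            have h3 := (hcW S hS m u (by simpa using h2)).2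
            have h4 : (0 : ℤ) ≤ ((u.degree : ℕ) : ℤ) := Int.natCast_nonneg _
            omega
          rw [h1]
          simp [kd]
        · obtain ⟨e, he⟩ := KosRegAux.exists_univ _ (KosRegAux.mem_span_X ε k _ hpos hU)
          refine ⟨e, fun S hS => ?_⟩
          have : S = Finset.univ := by
            rw [← Finset.card_eq_iff_eq_univ, hS, Fintype.card_fin]
          rw [this, he]
      · refine ⟨0, fun S hS => ?_⟩
        have h5 := Finset.card_le_univ S
        rw [Fintype.card_fin] at h5
        omega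
  obtain ⟨e, he⟩ := key
  refine ⟨fun S => KosRegAux.Q k (δ + ((i - 1 : ℕ) : ℤ)) (e S),
    fun S _ => KosRegAux.Q_mem _ _ _, fun S hS => ?_⟩
  rcases Nat.eq_zero_or_pos i with h0 | hpos
  · rw [h0, Finset.card_eq_zero] at hS
    subst hS
    rw [he ∅ (by simp [h0]), kd_empty, kd_empty, sub_zero]
    exact zero_mem _
  · have h1 : δ + ((i - 1 : ℕ) : ℤ) + 1 = δ + i := by
      push_cast [Nat.cast_sub hpos]
      ring
    rw [← KosRegAux.Q_kd, h1, ← he S hS, KosRegAux.Q_id (hcW S hS), sub_self]
    exact zero_mem _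

end Pool.Agent.Lib.P4a9818
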