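import Pool.Agent.Lib.P4a9818.GBasic

/-!
# P4a9818.LAf : fewer than `c ≤ 3` relations, killed by a regular sequence of length `c`

`B = MvPolynomial κ' A`, `Ψ i = hat (ψ i)`, `x t` also for `C (x t)` (weakly regular in `B`, `reg_C`).
`B` is a unique factorization domain. Three cases `j' = 0, 1, 2`.
-/

namespace Pool.Agent.Lib.P4a9818

open MvPolynomial

namespace LAfAux

section reg

variable {B : Type} [CommRing B] {c : ℕ} {X : Fin c → B}

theorem reg0 (hX : Reg X) (t : Fin c) (ht : t.val = 0) {b : B} (h : X t * b = 0) : b = 0 := by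
  have h1 : {s : Fin c | s < t} = ∅ := by
    ext s
    simp only [Set.mem_empty_iff_false, iff_false]
    intro (hs : s < t)
    rw [Fin.lt_def] at hs
    omega
  have h2 := hX t b
  rw [h1, Set.image_empty, Ideal.span_empty] at h2
  have h3 := h2 (by rw [h]; exact Ideal.zero_mem _)
  simpa using h3

theorem reg1 (hX : Reg X) (t0 t1 : Fin c) (h0 : t0.val = 0) (h1 : t1.val = 1) {b d : B}
    (h : X t1 * b = X t0 * d) : ∃ e, b = X t0 * e := by
  have hset : {s : Fin c | s < t1} = {t0} := by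
    ext s
    constructor
    · intro (hs : s < t1)
      rw [Fin.lt_def] at hs
      exact Fin.ext (by omega)
    · intro (hs : s = t0)
      subst hs
      change s < t1
      rw [Fin.lt_def]
      omega
  have h2 := hX t1 b
  rw [hset, Set.image_singleton] at h2
  have h3 := h2 (by rw [h]; exact Ideal.mul_mem_right _ _ (Ideal.mem_span_singleton_self _))
  obtain ⟨e, he⟩ := Ideal.mem_span_singleton.mp h3
  exact ⟨e, he⟩

theorem reg2 (hX : Reg X) (t0 t1 t2 : Fin c) (h0 : t0.val = 0) (h1 : t1.val = 1)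
    (h2 : t2.val = 2) {b d e : B}
    (h : X t2 * b = X t0 * d + X t1 * e) : ∃ u v, b = X t0 * u + X t1 * v := by
  have hset : {s : Fin c | s < t2} = {t0, t1} := by
    ext s
    constructor
    · intro (hs : s < t2)
      rw [Fin.lt_def] at hs
      have : s.val = 0 ∨ s.val = 1 := by omega
      rcases this with h | h
      · exact Or.inl (Fin.ext (by omega))
      · exact Or.inr (Fin.ext (by omega))
    · intro hs
      rcases hs with hs | hs
      · subst hs
        change s < t2
        rw [Fin.lt_def]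
        omega
      · have hs' : s = t1 := hs
        subst hs'
        change s < t2
        rw [Fin.lt_def]
        omega
  have h3 := hX t2 b
  rw [hset, Set.image_pair] at h3
  have h4 := h3 (by
    rw [h]
    refine Ideal.add_mem _ (Ideal.mul_mem_right _ _ (Ideal.subset_span (Or.inl rfl)))
      (Ideal.mul_mem_right _ _ (Ideal.subset_span (Or.inr rfl))))
  obtain ⟨u, v, huv⟩ := Ideal.mem_span_pair.mp h4
  exact ⟨u, v, by rw [← huv]; ring⟩

end reg

theorem coeff_hat {R κ : Type} [CommRing R] [Fintype κ] (v : κ → R) (k : κ) :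
    coeff (Finsupp.single k 1) (hat v) = v k := by
  classical
  unfold hat
  rw [coeff_sum, Finset.sum_eq_single k]
  · rw [coeff_C_mul, coeff_X, if_pos rfl, mul_one]
  · intro l _ hl
    rw [coeff_C_mul, coeff_X, if_neg, mul_zero]
    rwa [Finsupp.single_left_inj Nat.one_ne_zero]
  · intro h
    exact absurd (Finset.mem_univ k) h

theorem hom_hat {R κ : Type} [CommRing R] [Fintype κ] (v : κ → R) : (hat v).IsHomogeneous 1 := by
  unfold hat
  exact IsHomogeneous.sum _ _ _ fun k _ => isHomogeneous_C_mul_X _ _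

section dom

variable {A κ' : Type} [CommRing A] [IsDomain A] [Fintype κ']

theorem hat_ne {j' : ℕ} (ψ : Fin j' → κ' → A) (h0 : Ind ψ ⊥) (i : Fin j') : hat (ψ i) ≠ 0 := by
  classical
  intro h
  have h1 : ∀ k, ψ i k = 0 := by
    intro k
    rw [← coeff_hat (ψ i) k, h, coeff_zero]
  have h2 := h0 (Pi.single i 1) (fun k => by
    rw [Finset.sum_eq_single i]
    · rw [h1 k, mul_zero]; exact Ideal.zero_mem _
    · intro l _ hl
      rw [Pi.single_eq_of_ne hl, zero_mul]
    · intro h; exact absurd (Finset.mem_univ i) h) i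
  rw [Pi.single_eq_same, Ideal.mem_bot] at h2
  exact one_ne_zero h2

theorem deg_hat (v : κ' → A) (hv : hat v ≠ 0) : (hat v).totalDegree = 1 :=
  (hom_hat v).totalDegree hv

theorem hat_prime [UniqueFactorizationMonoid A] {j' : ℕ} (ψ : Fin j' → κ' → A) (h0 : Ind ψ ⊥)
    (hp : ∀ p : A, Prime p → Ind ψ (Ideal.span {p})) (i : Fin j') : Prime (hat (ψ i)) := by
  classical
  rw [← UniqueFactorizationMonoid.irreducible_iff_prime]
  have hne := hat_ne ψ h0 i
  refine irreducible_of_totalDegree_eq_one (deg_hat _ hne) ?_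
  intro x hx
  have hx' : ∀ k, x ∣ ψ i k := by
    intro k
    rw [← coeff_hat (ψ i) k]
    exact hx _
  by_contra hu
  have hx0 : x ≠ 0 := by
    rintro rfl
    apply hne
    unfold hat
    refine Finset.sum_eq_zero fun k _ => ?_
    rw [zero_dvd_iff.mp (hx' k), C_0, zero_mul]
  obtain ⟨p, hpi, hpx⟩ := WfDvdMonoid.exists_irreducible_factor hu hx0
  have hpp : Prime p := UniqueFactorizationMonoid.irreducible_iff_prime.mp hpi
  have h2 := hp p hpp (Pi.single i 1) (fun k => by
    rw [Finset.sum_eq_single i]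
    · rw [Pi.single_eq_same, one_mul]
      exact Ideal.mem_span_singleton.mpr (hpx.trans (hx' k))
    · intro l _ hl
      rw [Pi.single_eq_of_ne hl, zero_mul]
    · intro h; exact absurd (Finset.mem_univ i) h) i
  rw [Pi.single_eq_same, Ideal.mem_span_singleton] at h2
  exact hpp.not_unit (isUnit_of_dvd_one h2)

theorem not_dvd (ψ : Fin 2 → κ' → A) (h0 : Ind ψ ⊥) : ¬ hat (ψ 0) ∣ hat (ψ 1) := by
  classical
  rintro ⟨d, hd⟩
  have hne0 := hat_ne ψ h0 0
  have hne1 := hat_ne ψ h0 1
  have hd0 : d ≠ 0 := by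
    rintro rfl
    exact hne1 (by rw [hd, mul_zero])
  have h1 := congrArg totalDegree hd
  rw [totalDegree_mul_of_isDomain hne0 hd0, deg_hat _ hne0, deg_hat _ hne1] at h1
  have h2 : d.totalDegree = 0 := by omega
  rw [totalDegree_eq_zero_iff_eq_C] at h2
  have h3 : ∀ k, ψ 1 k = coeff 0 d * ψ 0 k := by
    intro k
    rw [← coeff_hat (ψ 1) k, hd, h2, mul_comm, coeff_C_mul, coeff_hat, coeff_C, if_pos rfl]
  have h4 := h0 ![coeff 0 d, -1] (fun k => by
    rw [Fin.sum_univ_two, h3 k]
    simp) 1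
  simp at h4

end dom

end LAfAux

open LAfAux

theorem laf {A κ' : Type} [CommRing A] [IsDomain A] [UniqueFactorizationMonoid A] [Fintype κ']
    {c j' : ℕ} (hc : c ≤ 3) (hj : j' < c) (x : Fin c → A) (hx : Reg x) (ψ : Fin j' → κ' → A)
    (h0 : Ind ψ ⊥) (hp : ∀ p : A, Prime p → Ind ψ (Ideal.span {p})) (b : MvPolynomial κ' A)
    (hb : ∀ t, C (x t) * b ∈ Ideal.span (Set.range fun i => hat (ψ i))) :
    b ∈ Ideal.span (Set.range fun i => hat (ψ i)) := by
  have hX : Reg (fun t => (C (x t) : MvPolynomial κ' A)) := reg_C hx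
  have hne : ∀ t0 : Fin c, t0.val = 0 → (C (x t0) : MvPolynomial κ' A) ≠ 0 := by
    intro t0 ht0 h
    have h1 : (1 : MvPolynomial κ' A) = 0 :=
      reg0 hX t0 ht0 (b := 1) (by rw [h, zero_mul])
    exact one_ne_zero h1
  rcases Nat.lt_or_ge j' 1 with hj0 | hj1
  · -- no relation
    have hj0' : j' = 0 := by omega
    subst hj0'
    have hE : (Set.range fun i : Fin 0 => hat (ψ i)) = ∅ := Set.range_eq_empty _
    rw [hE, Ideal.span_empty]
    have h1 := hb ⟨0, by omega⟩
    rw [hE, Ideal.span_empty, Ideal.mem_bot] at h1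
    rw [Ideal.mem_bot]
    exact reg0 hX ⟨0, by omega⟩ rfl h1
  rcases Nat.lt_or_ge j' 2 with hj1' | hj2
  · -- one relation
    have hj' : j' = 1 := by omega
    subst hj'
    have hr : (Set.range fun i : Fin 1 => hat (ψ i)) = {hat (ψ 0)} := by
      rw [Set.range_unique]
      rfl
    rw [hr] at hb ⊢
    have hP := hat_ne ψ h0 0
    obtain ⟨a0, ha0⟩ := Ideal.mem_span_singleton.mp (hb ⟨0, by omega⟩)
    obtain ⟨a1, ha1⟩ := Ideal.mem_span_singleton.mp (hb ⟨1, by omega⟩)
    have h1 : (C (x ⟨1, by omega⟩) : MvPolynomial κ' A) * a0 = C (x ⟨0, by omega⟩) * a1 := by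
      apply mul_left_cancel₀ hP
      linear_combination (-C (x ⟨1, by omega⟩)) * ha0 + C (x ⟨0, by omega⟩) * ha1
    obtain ⟨e, he⟩ := reg1 hX ⟨0, by omega⟩ ⟨1, by omega⟩ rfl rfl h1
    rw [Ideal.mem_span_singleton]
    refine ⟨e, ?_⟩
    apply mul_left_cancel₀ (hne ⟨0, by omega⟩ rfl)
    linear_combination ha0 + hat (ψ 0) * he
  · -- two relations
    have hj' : j' = 2 := by omega
    subst hj'
    have hc3 : c = 3 := by omega
    subst hc3
    have hr : (Set.range fun i : Fin 2 => hat (ψ i)) = {hat (ψ 0), hat (ψ 1)} := by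
      ext q
      constructor
      · rintro ⟨i, rfl⟩
        fin_cases i
        · exact Or.inl rfl
        · exact Or.inr rfl
      · rintro (h | h)
        · exact ⟨0, h.symm⟩
        · exact ⟨1, h.symm⟩
    rw [hr] at hb ⊢
    have hP0 := hat_ne ψ h0 0
    have hprime := hat_prime ψ h0 hp 0
    have hnd := not_dvd ψ h0
    have key : ∀ e, hat (ψ 0) ∣ hat (ψ 1) * e → hat (ψ 0) ∣ e := fun e he =>
      (hprime.dvd_or_dvd he).resolve_left hnd
    have hab : ∀ t, ∃ a b', C (x t) * b = hat (ψ 0) * a + hat (ψ 1) * b' := by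
      intro t
      obtain ⟨u, v, huv⟩ := Ideal.mem_span_pair.mp (hb t)
      exact ⟨u, v, by rw [← huv]; ring⟩
    choose a b' hab' using hab
    have hE : ∀ s t : Fin 3, ∃ e, C (x t) * b' s - C (x s) * b' t = hat (ψ 0) * e ∧
        C (x t) * a s - C (x s) * a t = - hat (ψ 1) * e := by
      intro s t
      have h1 : hat (ψ 0) * (C (x t) * a s - C (x s) * a t)
          = - (hat (ψ 1) * (C (x t) * b' s - C (x s) * b' t)) := by
        linear_combination (-C (x t)) * hab' s + C (x s) * hab' t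
      have h2 : hat (ψ 0) ∣ hat (ψ 1) * (C (x t) * b' s - C (x s) * b' t) := by
        rw [← dvd_neg]
        exact ⟨_, h1.symm⟩
      obtain ⟨e, he⟩ := key _ h2
      refine ⟨e, he, ?_⟩
      apply mul_left_cancel₀ hP0
      linear_combination h1 - hat (ψ 1) * he
    obtain ⟨e01, h01, k01⟩ := hE 0 1
    obtain ⟨e02, h02, k02⟩ := hE 0 2
    obtain ⟨e12, h12, k12⟩ := hE 1 2
    have h3 : C (x 2) * e01 = C (x 0) * (-e12) + C (x 1) * e02 := by
      apply mul_left_cancel₀ hP0
      linear_combination (-C (x 2)) * h01 + C (x 1) * h02 - C (x 0) * h12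
    obtain ⟨u, v, huv⟩ := reg2 hX 0 1 2 rfl rfl rfl h3
    -- `e01 = x0 u + x1 v`
    have h4 : C (x 1) * (b' 0 - hat (ψ 0) * v) = C (x 0) * (b' 1 + hat (ψ 0) * u) := by
      linear_combination h01 + hat (ψ 0) * huv
    have h5 : C (x 1) * (a 0 + hat (ψ 1) * v) = C (x 0) * (a 1 - hat (ψ 1) * u) := by
      linear_combination k01 - hat (ψ 1) * huv
    obtain ⟨h, hh⟩ := reg1 hX 0 1 rfl rfl h4
    obtain ⟨h', hh'⟩ := reg1 hX 0 1 rfl rfl h5
    rw [Ideal.mem_span_pair]
    refine ⟨h', h, ?_⟩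
    apply mul_left_cancel₀ (hne 0 rfl)
    linear_combination (-1 : MvPolynomial κ' A) * hab' 0 - hat (ψ 1) * hh - hat (ψ 0) * hh'

end Pool.Agent.Lib.P4a9818
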