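import Pool.Agent.Lib.P4a9818.GBasic

/-!
# P4a9818.LinReg : ideals generated by linear forms over an infinite field   (estimate 2.5 h)

`K` an infinite field, `v : Fin r → κ → K` linearly independent, `x t = hat (v t)`.
* `lin_vanish`: (⇒) clear. (⇐) choose vectors `a s : κ → K` with `∑_k v t k * a s k = δ_{s t}` (linear
  algebra) and let `pr y = y - ∑_s (v s ⬝ y) a s`, a projection onto the common zero space of the
  `v t`. The algebra homomorphism `π : X k ↦ hat (row k of pr)`, `eval y (π f) = eval (pr y) f`,
  satisfies `f - π f ∈ (x t)` (true for the variables, `MvPolynomial.induction_on`), and `π f = 0` if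
  `f` vanishes on the common zero space (`MvPolynomial.funext`, `K` infinite).
  The hypothesis of independence is not necessary: any family spans the same ideal as an
  independent subfamily; the statement is for arbitrary finite families.
* `lin_reg`: suppose `x t * b ∈ (x s : s < t)`. For `y` in the common zero space `V` of the `v s`,
  `s < t`: `(v t ⬝ y) b(y) = 0`. Let `pr` be a projection onto `V` as above (for the family
  `s < t`): `π (x t) * π b = 0`, and `π (x t) ≠ 0` because `v t` does not vanish on `V` (it is not
  in the span of the `v s`, `s < t`), so `π b = 0`, `b` vanishes on `V`, `b ∈ (x s : s < t)`.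
* `lin_inj`: the same for a family `v : Fin m → κ → K`, indices `< j` and the index `j`.
-/

namespace Pool.Agent.Lib.P4a9818

open MvPolynomial

variable {K κ : Type} [Field K] [Infinite K] [Fintype κ]

omit [Infinite K] in
private theorem eval_hat (y v : κ → K) : eval y (hat v) = ∑ k, v k * y k := by
  simp [hat, map_sum]

/-- The functional with coefficient vector `v`. -/
private noncomputable def fn (v : κ → K) : (κ → K) →ₗ[K] K := ∑ k, v k • LinearMap.proj k

omit [Infinite K] in
private theorem fn_apply (v y : κ → K) : fn v y = ∑ k, v k * y k := by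
  simp [fn]

omit [Infinite K] in
private theorem fn_coef (L : (κ → K) →ₗ[K] K) (y : κ → K) [DecidableEq κ] :
    L y = ∑ k, L (Pi.single k 1) * y k := by
  conv_lhs => rw [pi_eq_sum_univ' y]
  rw [map_sum]
  refine Finset.sum_congr rfl fun k _ => ?_
  rw [map_smul, smul_eq_mul, mul_comm]

omit [Infinite K] in
private theorem mem_span_of_vanish {ι : Type} [Finite ι] (v : ι → κ → K)
    (L : (κ → K) →ₗ[K] K) (h : ∀ y : κ → K, (∀ t, ∑ k, v t k * y k = 0) → L y = 0)
    [DecidableEq κ] : (fun k => L (Pi.single k 1)) ∈ Submodule.span K (Set.range v) := by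
  have := Fintype.ofFinite ι
  have h1 : L ∈ Submodule.span K (Set.range fun t => fn (v t)) := by
    apply mem_span_of_iInf_ker_le_ker
    intro y hy
    rw [Submodule.mem_iInf] at hy
    rw [LinearMap.mem_ker]
    apply h
    intro t
    rw [← fn_apply]
    exact LinearMap.mem_ker.1 (hy t)
  obtain ⟨c, hc⟩ := (Submodule.mem_span_range_iff_exists_fun K).1 h1
  rw [Submodule.mem_span_range_iff_exists_fun]
  refine ⟨c, ?_⟩
  funext k
  rw [← hc, LinearMap.sum_apply, Finset.sum_apply]
  refine Finset.sum_congr rfl fun t _ => ?_
  rw [Pi.smul_apply, LinearMap.smul_apply, fn_apply]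
  congr 1
  rw [Finset.sum_eq_single k]
  · simp
  · intro l _ hl
    simp [hl]
  · simp

omit [Infinite K] in
private theorem hat_mem_of_mem_span {ι : Type} (v : ι → κ → K) {w : κ → K}
    (h : w ∈ Submodule.span K (Set.range v)) :
    hat w ∈ Ideal.span (Set.range fun t => hat (v t)) := by
  induction h using Submodule.span_induction with
  | mem x hx =>
    obtain ⟨t, rfl⟩ := hx
    exact Ideal.subset_span ⟨t, rfl⟩
  | zero =>
    have e : hat (0 : κ → K) = 0 := by simp [hat]
    rw [e]
    exact Ideal.zero_mem _
  | add x y _ _ hx hy =>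
    have e : hat (x + y) = hat x + hat y := by
      simp [hat, add_mul, Finset.sum_add_distrib]
    rw [e]
    exact Ideal.add_mem _ hx hy
  | smul a x _ hx =>
    have e : hat (a • x) = C a * hat x := by
      simp [hat, Finset.mul_sum, mul_assoc]
    rw [e]
    exact Ideal.mul_mem_left _ _ hx

omit [Infinite K] in
private theorem vanish_of_mem {ι : Type} (v : ι → κ → K) {f : MvPolynomial κ K}
    (hf : f ∈ Ideal.span (Set.range fun t => hat (v t))) (y : κ → K)
    (hy : ∀ t, ∑ k, v t k * y k = 0) : eval y f = 0 := by
  have h1 : Ideal.span (Set.range fun t => hat (v t)) ≤ RingHom.ker (eval y) := by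
    rw [Ideal.span_le]
    rintro _ ⟨t, rfl⟩
    change eval y (hat (v t)) = 0
    rw [eval_hat]
    exact hy t
  exact h1 hf

omit [Infinite K] in
private theorem exists_pi {ι : Type} [Finite ι] (v : ι → κ → K) :
    ∃ (p : MvPolynomial κ K →ₐ[K] MvPolynomial κ K) (pr : (κ → K) → κ → K),
      (∀ y t, ∑ k, v t k * pr y k = 0) ∧
      (∀ f y, eval y (p f) = eval (pr y) f) ∧
      ∀ f, f - p f ∈ Ideal.span (Set.range fun t => hat (v t)) := by
  classical
  let V : Submodule K (κ → K) :=
    { carrier := {y | ∀ t, ∑ k, v t k * y k = 0}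
      add_mem' := by
        intro a b ha hb t
        have e : ∑ k, v t k * (a + b) k = ∑ k, v t k * a k + ∑ k, v t k * b k := by
          rw [← Finset.sum_add_distrib]
          exact Finset.sum_congr rfl fun k _ => by rw [Pi.add_apply, mul_add]
        rw [e, ha t, hb t, add_zero]
      zero_mem' := by intro t; simp
      smul_mem' := by
        intro c a ha t
        have e : ∑ k, v t k * (c • a) k = c * ∑ k, v t k * a k := by
          rw [Finset.mul_sum]
          exact Finset.sum_congr rfl fun k _ => by
            rw [Pi.smul_apply, smul_eq_mul]; ring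
        rw [e, ha t, mul_zero] }
  obtain ⟨W, hW⟩ := Submodule.exists_isCompl V
  obtain ⟨q, hq⟩ : ∃ q : (κ → K) →ₗ[K] V, ∀ y : V, q y = y := by
    obtain ⟨q, hq⟩ := V.subtype.exists_leftInverse_of_injective V.ker_subtype
    exact ⟨q, fun y => by simpa using LinearMap.congr_fun hq y⟩
  let pr : (κ → K) →ₗ[K] (κ → K) := V.subtype ∘ₗ q
  have hprV : ∀ y, pr y ∈ V := fun y => (q y).2
  have hprid : ∀ y ∈ V, pr y = y := by
    intro y hy
    exact congrArg Subtype.val (hq ⟨y, hy⟩)
  let p : MvPolynomial κ K →ₐ[K] MvPolynomial κ K :=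
    aeval (fun k => hat (fun l => pr (Pi.single l 1) k))
  refine ⟨p, pr, fun y t => hprV y t, ?_, ?_⟩
  · intro f y
    have h1 : (eval y).comp (p : MvPolynomial κ K →+* MvPolynomial κ K) = eval (pr y) := by
      apply MvPolynomial.ringHom_ext
      · intro a
        simp [p]
      · intro k
        have e : p (X k) = hat (fun l => pr (Pi.single l 1) k) := by simp [p]
        change eval y (p (X k)) = eval (pr y) (X k)
        rw [e, eval_hat, eval_X]
        exact (fn_coef ((LinearMap.proj k).comp pr) y).symm
    exact RingHom.congr_fun h1 f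
  · intro f
    induction f using MvPolynomial.induction_on with
    | C a =>
      have e : p (C a) = C a := by simp [p]
      rw [e, sub_self]
      exact Ideal.zero_mem _
    | add f g hf hg =>
      have e : f + g - p (f + g) = (f - p f) + (g - p g) := by rw [map_add]; ring
      rw [e]
      exact Ideal.add_mem _ hf hg
    | mul_X f k hf =>
      have e : f * X k - p (f * X k) = (f - p f) * X k + p f * (X k - p (X k)) := by
        rw [map_mul]; ring
      rw [e]
      refine Ideal.add_mem _ (Ideal.mul_mem_right _ _ hf) (Ideal.mul_mem_left _ _ ?_)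
      have e1 : p (X k) = hat (fun l => pr (Pi.single l 1) k) := by simp [p]
      let L : (κ → K) →ₗ[K] K := LinearMap.proj k - (LinearMap.proj k).comp pr
      have h2 := mem_span_of_vanish v L (fun y hy => by
        change y k - pr y k = 0
        rw [hprid y hy, sub_self])
      have h3 := hat_mem_of_mem_span v h2
      have e2 : X k - p (X k) = hat (fun l => L (Pi.single l 1)) := by
        rw [e1]
        have e3 : (X k : MvPolynomial κ K) = hat (fun l => (Pi.single l (1 : K) : κ → K) k) := by
          rw [hat, Finset.sum_eq_single k]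
          · simp
          · intro l _ hl
            simp [Pi.single_eq_of_ne (Ne.symm hl)]
          · simp
        rw [e3, hat, hat, hat, ← Finset.sum_sub_distrib]
        refine Finset.sum_congr rfl fun l _ => ?_
        rw [← sub_mul, ← C_sub]
        rfl
      rw [e2]
      exact h3

theorem lin_vanish {ι : Type} [Finite ι] (v : ι → κ → K) (f : MvPolynomial κ K) :
    f ∈ Ideal.span (Set.range fun t => hat (v t)) ↔
      ∀ y : κ → K, (∀ t, ∑ k, v t k * y k = 0) → eval y f = 0 := by
  refine ⟨fun h y hy => vanish_of_mem v h y hy, fun h => ?_⟩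
  obtain ⟨p, pr, h1, h2, h3⟩ := exists_pi v
  have h4 : p f = 0 := by
    apply MvPolynomial.funext
    intro y
    rw [h2, map_zero]
    exact h _ (h1 y)
  have h5 := h3 f
  rwa [h4, sub_zero] at h5

private theorem lin_prime {ι : Type} [Finite ι] (v : ι → κ → K) {f g : MvPolynomial κ K}
    (h : f * g ∈ Ideal.span (Set.range fun t => hat (v t))) :
    f ∈ Ideal.span (Set.range fun t => hat (v t)) ∨
      g ∈ Ideal.span (Set.range fun t => hat (v t)) := by
  obtain ⟨p, pr, h1, h2, h3⟩ := exists_pi v
  have key : ∀ f, p f = 0 → f ∈ Ideal.span (Set.range fun t => hat (v t)) := by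
    intro f hf
    have h5 := h3 f
    rwa [hf, sub_zero] at h5
  have h4 : p (f * g) = 0 := by
    apply MvPolynomial.funext
    intro y
    rw [h2, map_zero]
    exact vanish_of_mem v h _ (h1 y)
  rw [map_mul] at h4
  rcases mul_eq_zero.1 h4 with h5 | h5
  · exact Or.inl (key f h5)
  · exact Or.inr (key g h5)

omit [Infinite K] in
private theorem mem_span_of_hat {ι : Type} [Finite ι] (v : ι → κ → K) {w : κ → K}
    (h : hat w ∈ Ideal.span (Set.range fun t => hat (v t))) :
    w ∈ Submodule.span K (Set.range v) := by
  classical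
  have h1 := mem_span_of_vanish v (fn w) (fun y hy => by
    rw [fn_apply, ← eval_hat]
    exact vanish_of_mem v h y hy)
  have e : (fun k => fn w (Pi.single k 1)) = w := by
    funext k
    rw [fn_apply, Finset.sum_eq_single k]
    · simp
    · intro l _ hl
      simp [hl]
    · simp
  rwa [e] at h1

private theorem lin_core {m : ℕ} (v : Fin m → κ → K) (hv : LinearIndependent K v) (t : Fin m)
    (s : Set (Fin m)) (ht : t ∉ s) {b : MvPolynomial κ K}
    (h : hat (v t) * b ∈ Ideal.span ((fun t => hat (v t)) '' s)) :
    b ∈ Ideal.span ((fun t => hat (v t)) '' s) := by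
  have e : (fun t => hat (v t)) '' s = Set.range fun i : s => hat (v i) := by
    rw [Set.image_eq_range]
  rw [e] at h ⊢
  rcases lin_prime (fun i : s => v i) h with h1 | h1
  · exfalso
    have h2 := mem_span_of_hat (fun i : s => v i) h1
    have e2 : Set.range (fun i : s => v i) = v '' s := by rw [Set.image_eq_range]
    rw [e2] at h2
    exact hv.notMem_span_image ht h2
  · exact h1

theorem lin_reg {r : ℕ} (v : Fin r → κ → K) (hv : LinearIndependent K v) :
    Reg (fun t => hat (v t)) := by
  intro t b h
  exact lin_core v hv t _ (by simp) h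

theorem lin_inj {m : ℕ} (v : Fin m → κ → K) (hv : LinearIndependent K v) {j : ℕ} (hj : j < m)
    {a : MvPolynomial κ K} (ha : hat (v ⟨j, hj⟩) * a ∈ Iu v j) : a ∈ Iu v j :=
  lin_core v hv ⟨j, hj⟩ _ (by simp) ha

end Pool.Agent.Lib.P4a9818
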