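import Pool.Agent.Lib.P4a9818.Loc
import Pool.Agent.Lib.P4a9818.LinReg
import Pool.Agent.Lib.P4a9818.JGen

/-!
# P4a9818.LGen : the hypothesis `LocGen` for `J`   (estimate 2.5 h)

Note `lf v = hat v` (by definition). `T = λ` with `2 λ = N + 1 - D > 0` (`D < N`), so `T` is invertible
and the `l i` span `σ → ℂ` (`T = ∑ a i ⊗ l i`; a vector killed by all `l i` is killed by `T`).
* `locGen`. Let `𝔭 ≠ ⊥` be prime, `L = span {l i | ℓ_i ∈ 𝔭}`, `c0 = dim L`. All linear forms
  `lf v`, `v ∈ L`, are in `𝔭`.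
  - `c0 ≥ 4`: four independent vectors of `L`; `lin_reg`.
  - `c0 ≤ 3` and `c0 = card σ` (so `= 3`): `c = 3`, three independent vectors, `h = Fb` (indexed by
    `Fin 3 ≃ σ`), `s = 1`.
  - `c0 ≤ 3`, `c0 < card σ`: by `exists_generic_sub` (`S = L`; if `l j ∈ L` then `ℓ_j ∈ 𝔭`) there is `p`
    with `v ⬝ p = 0` for `v ∈ L` and `l j ⬝ p ≠ 0` for `ℓ_j ∉ 𝔭`. As the `l j` span `σ → ℂ` and
    `L ≠ ⊤` there is `j` with `ℓ_j ∉ 𝔭`, so `p ≠ 0`. Let `A'` be the arrangement at `p` (`exists_loc`):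
    `l j ⬝ p = 0 ↔ ℓ_j ∈ 𝔭`, `rkF A'.l = c0`. By the hypothesis `Str A'.l`:
    `J(A') = (h_t)`, `t < c = max 1 c0`. With `s = ∏_{l j ⬝ p ≠ 0} ℓ_j ∉ 𝔭`: `s h_t ∈ J(A) = (Fb)`,
    `Fb k ∈ J(A) ≤ J(A') = (h)`, so `s Fb k ∈ (s h_t)`. Use the generators `s h_t`.
    The regular sequence: `c0 ≥ 1`: `c0` independent vectors of `L`; `c0 = 0`, `c = 1`: any nonzero
    element of `𝔭`.
* `nodvd`: a prime dividing all `Fb k` divides `Q ∈ (Fb)` (`hilbert_burch`), so it is associated to some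
  `ℓ_i`, contradiction to `IsBas.ndvd`.
* `exists_pres`: from `hilbert_burch`.
-/

namespace Pool.Agent.Lib.P4a9818

open MvPolynomial Matrix

variable {σ : Type} [Fintype σ] [DecidableEq σ] (A : Datum σ)

namespace LGenAux

theorem reg_one {B : Type} [CommRing B] [IsDomain B] {c : ℕ} (hc : c = 1) {w : B} (hw : w ≠ 0) :
    Reg (fun _ : Fin c => w) := by
  subst hc
  intro t b hb
  have h0 : ((fun _ : Fin 1 => w) '' {s | s < t}) = ∅ := by
    rw [Set.image_eq_empty]
    ext s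
    simp only [Set.mem_ofPred_eq, Set.mem_empty_iff_false, iff_false, not_lt]
    omega
  rw [h0, Ideal.span_empty, Ideal.mem_bot] at hb ⊢
  rcases mul_eq_zero.1 hb with h | h
  · exact absurd h hw
  · exact h

theorem exists_reg {σ : Type} [Fintype σ] (L : Submodule ℂ (σ → ℂ)) {c : ℕ}
    (hc : c ≤ Module.finrank ℂ L) :
    ∃ v : Fin c → σ → ℂ, (∀ t, v t ∈ L) ∧ Reg (fun t => lf (v t)) := by
  let b := Module.finBasis ℂ L
  refine ⟨fun t => (b (Fin.castLE hc t) : σ → ℂ), fun t => (b (Fin.castLE hc t)).2, ?_⟩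
  have h1 : LinearIndependent ℂ (fun i => ((b i : L) : σ → ℂ)) :=
    b.linearIndependent.map' L.subtype (Submodule.ker_subtype L)
  have h2 : LinearIndependent ℂ (fun t : Fin c => ((b (Fin.castLE hc t) : L) : σ → ℂ)) :=
    h1.comp (Fin.castLE hc) (Fin.castLE_injective hc)
  exact lin_reg _ h2

theorem lf_mem {σ : Type} [Fintype σ] [DecidableEq σ] (𝔭 : Ideal (MvPolynomial σ ℂ))
    (S : Set (σ → ℂ)) (hS : ∀ v ∈ S, lf v ∈ 𝔭) {v : σ → ℂ} (hv : v ∈ Submodule.span ℂ S) :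
    lf v ∈ 𝔭 := by
  induction hv using Submodule.span_induction with
  | mem x hx => exact hS x hx
  | zero => rw [lf_zero]; exact Ideal.zero_mem _
  | add x y _ _ hx hy => rw [lf_add]; exact Ideal.add_mem _ hx hy
  | smul c x _ hx => rw [lf_smul]; exact Ideal.mul_mem_left _ _ hx

end LGenAux

namespace Datum

theorem span_l {lam : ℂ} {D : ℕ} (hS : A.Scal lam D) :
    Submodule.span ℂ (Set.range A.l) = ⊤ := by
  have hlam : lam ≠ 0 := by
    intro h
    have h1 := hS.hlam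
    rw [h, mul_zero] at h1
    have h2 : (A.N : ℂ) + 1 = D := by linear_combination -h1
    have h3 : A.N + 1 = D := by exact_mod_cast h2
    have := hS.hD
    omega
  rw [eq_top_iff]
  intro w _
  have h1 : w ᵥ* A.T = lam • w := by
    rw [hS.hT, vecMul_smul, vecMul_one]
  have h2 : w ᵥ* A.T = ∑ i, (w ⬝ᵥ A.a i) • A.l i := by
    unfold Datum.T Datum.P
    rw [vecMul_sum]
    refine Finset.sum_congr rfl fun i _ => ?_
    rw [vecMul_vecMulVec]
  have h3 : w = lam⁻¹ • ∑ i, (w ⬝ᵥ A.a i) • A.l i := by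
    rw [← h2, h1, smul_smul, inv_mul_cancel₀ hlam, one_smul]
  rw [h3]
  refine Submodule.smul_mem _ _ (Submodule.sum_mem _ fun i _ => ?_)
  exact Submodule.smul_mem _ _ (Submodule.subset_span ⟨i, rfl⟩)

theorem exists_pres {lam : ℂ} {D : ℕ} (hS : A.Scal lam D) {Fb : σ → MvPolynomial σ ℂ}
    (hF : A.IsBas D Fb) :
    ∃ (m : ℕ) (Φ : Fin m → σ → MvPolynomial σ ℂ) (b : Fin m → ℕ), Pres Fb D m Φ b := by
  obtain ⟨hQ, m, Φ, b, h1, h2, h3, h4, h5⟩ := A.hilbert_burch hS hF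
  refine ⟨m, Φ, b, h1, hF.hom, h2, h3, h4, h5, ?_⟩
  intro p hp
  by_contra hcon
  push Not at hcon
  have hpQ : p ∣ A.Q := by
    have hle : Ideal.span (Set.range Fb) ≤ Ideal.span {p} := by
      rw [Ideal.span_le]
      rintro _ ⟨k, rfl⟩
      exact Ideal.mem_span_singleton.2 (hcon k)
    exact Ideal.mem_span_singleton.1 (hle hQ)
  unfold Datum.Q at hpQ
  obtain ⟨i, _, hi⟩ := hp.exists_mem_finset_dvd hpQ
  have hli : lf (A.l i) ∣ p := by
    have hpr := prime_lf (A.l_ne_zero i)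
    exact (hp.associated_of_dvd hpr hi).symm.dvd
  obtain ⟨s, hs⟩ := hF.ndvd i
  exact hs (hli.trans (hcon s))

theorem locGen {lam : ℂ} {D : ℕ} (hS : A.Scal lam D) (hn : 3 ≤ Fintype.card σ)
    {Fb : σ → MvPolynomial σ ℂ} (hF : A.IsBas D Fb)
    (IH : ∀ (p : σ → ℂ) (A' : Datum σ) (e : A'.ι → A.ι), p ≠ 0 → A.IsLoc A' p e → Str A'.l) :
    LocGen Fb := by
  classical
  intro 𝔭 hp hp0
  have hJ : A.J = Ideal.span (Set.range Fb) := A.J_eq hS hF
  set S : Set (σ → ℂ) := {v | ∃ i, A.l i = v ∧ lf (A.l i) ∈ 𝔭} with hSd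
  set L : Submodule ℂ (σ → ℂ) := Submodule.span ℂ S with hLd
  have hL : ∀ v ∈ L, lf v ∈ 𝔭 := by
    intro v hv
    refine LGenAux.lf_mem 𝔭 S ?_ hv
    rintro _ ⟨i, rfl, hi⟩
    exact hi
  by_cases h4 : 4 ≤ Module.finrank ℂ L
  · left
    obtain ⟨v, hv1, hv2⟩ := LGenAux.exists_reg L h4
    exact ⟨fun t => lf (v t), hv2, fun t => hL _ (hv1 t)⟩
  right
  push Not at h4
  have hle : Module.finrank ℂ L ≤ Fintype.card σ := by
    have := Submodule.finrank_le L
    rwa [Module.finrank_fintype_fun_eq_card] at this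
  by_cases hfull : Module.finrank ℂ L = Fintype.card σ
  · have h3 : Fintype.card σ = 3 := by omega
    refine ⟨3, by norm_num, le_refl 3, ?_, ?_⟩
    · obtain ⟨v, hv1, hv2⟩ := LGenAux.exists_reg L (c := 3) (by omega)
      exact ⟨fun t => lf (v t), hv2, fun t => hL _ (hv1 t)⟩
    · have hc : Fintype.card (Fin 3) = Fintype.card σ := by rw [h3, Fintype.card_fin]
      let ε := Fintype.equivOfCardEq hc
      refine ⟨fun t => Fb (ε t), fun t => Ideal.subset_span ⟨ε t, rfl⟩, 1,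
        fun h => hp.ne_top ((Ideal.eq_top_iff_one _).2 h), ?_⟩
      intro k
      rw [one_mul]
      exact Ideal.subset_span ⟨ε.symm k, by simp⟩
  · have hnot : ∀ j ∈ Finset.univ.filter (fun j => lf (A.l j) ∉ 𝔭), A.l j ∉ L := by
      intro j hj hcon
      exact (Finset.mem_filter.1 hj).2 (hL _ hcon)
    obtain ⟨p, hp1, hp2⟩ := exists_generic_sub L _ A.l hnot
    have hiff : ∀ j, A.l j ⬝ᵥ p = 0 ↔ lf (A.l j) ∈ 𝔭 := by
      intro j
      constructor
      · intro h
        by_contra hcon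
        exact hp2 j (Finset.mem_filter.2 ⟨Finset.mem_univ _, hcon⟩) h
      · intro h
        exact hp1 _ (Submodule.subset_span ⟨j, rfl, h⟩)
    have hpne : p ≠ 0 := by
      rintro rfl
      apply hfull
      have hall : ∀ j, lf (A.l j) ∈ 𝔭 := fun j => (hiff j).1 (dotProduct_zero _)
      have hLtop : L = ⊤ := by
        rw [eq_top_iff, ← A.span_l hS]
        apply Submodule.span_mono
        rintro _ ⟨j, rfl⟩
        exact ⟨j, rfl, hall j⟩
      rw [hLtop, finrank_top, Module.finrank_fintype_fun_eq_card]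
    obtain ⟨A', e, he⟩ := A.exists_loc p
    have hrk : rkF A'.l = Module.finrank ℂ L := by
      unfold rkF
      have : Submodule.span ℂ (Set.range A'.l) = L := by
        rw [hLd]
        congr 1
        ext v
        constructor
        · rintro ⟨i, rfl⟩
          refine ⟨e i, (he.l i).symm, ?_⟩
          exact (hiff _).1 ((he.mem _).1 ⟨i, rfl⟩)
        · rintro ⟨j, rfl, hj⟩
          obtain ⟨i, hi⟩ := (he.mem j).2 ((hiff j).2 hj)
          exact ⟨i, by rw [he.l i, hi]⟩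
      rw [this]
    obtain ⟨h, hh⟩ := IH p A' e hpne he
    have hex := he.exists_h
    set s : MvPolynomial σ ℂ :=
      ∏ j ∈ Finset.univ.filter (fun j => A.l j ⬝ᵥ p ≠ 0), lf (A.l j) with hs
    have hex' : ∀ f ∈ A'.J, s * f ∈ A.J := by
      intro f hf
      have := hex f hf
      convert this using 3
    have hsp : s ∉ 𝔭 := by
      rw [hs]
      intro hmem
      obtain ⟨j, hj1, hj2⟩ := (hp.prod_mem_iff).1 hmem
      exact (Finset.mem_filter.1 hj1).2 ((hiff j).2 hj2)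
    refine ⟨max 1 (rkF A'.l), le_max_left _ _, ?_, ?_, fun t => s * h t, ?_, s, hsp, ?_⟩
    · rw [hrk]
      omega
    · by_cases h0 : Module.finrank ℂ L = 0
      · obtain ⟨w, hw1, hw2⟩ := Submodule.exists_mem_ne_zero_of_ne_bot hp0
        refine ⟨fun _ => w, LGenAux.reg_one ?_ hw2, fun _ => hw1⟩
        rw [hrk, h0]
        rfl
      · obtain ⟨v, hv1, hv2⟩ := LGenAux.exists_reg L (c := max 1 (rkF A'.l)) (by omega)
        exact ⟨fun t => lf (v t), hv2, fun t => hL _ (hv1 t)⟩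
    · intro t
      rw [← hJ]
      apply hex'
      show h t ∈ JF A'.l
      rw [hh]
      exact Ideal.subset_span ⟨t, rfl⟩
    · intro k
      have h1 : Fb k ∈ Ideal.span (Set.range h) := by
        rw [← hh]
        exact he.J_le (hF.mem k)
      have h2 : Ideal.span {s} * Ideal.span (Set.range h)
          ≤ Ideal.span (Set.range fun t => s * h t) := by
        rw [Ideal.span_mul_span', Ideal.span_le]
        rintro _ ⟨a, ha, b, ⟨t, rfl⟩, rfl⟩
        rw [Set.mem_singleton_iff.1 ha]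
        exact Ideal.subset_span ⟨t, rfl⟩
      exact h2 (Ideal.mul_mem_mul (Ideal.mem_span_singleton_self _) h1)

end Datum

end Pool.Agent.Lib.P4a9818
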