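import Pool.Agent.Lib.P4a9818.Reps
import Pool.Agent.Lib.P4a9818.LinH

/-!
# P4a9818.LamBasic : first properties of the lattice `InLam`   (estimate 1.5 h)

* `exists_gen`: `Lin.exists_generic` (`A.l_not_smul`).
* `inLam_add`, `inLam_smul`: `ap` is additive and `ap (f • G) b = f * ap G b`; use the product rule
  (`f(p)` times the identities, the term `dd f * ap G b` vanishes at `p`).
* `lf_dvd_ap`: `lf_dvd_of_generic`.
* `inLam_Q_sq`: `ap (Q² • G) b = Q² ap G b` has value and first derivatives `0` at the points of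
  all hyperplanes.
* `eval_W`: `eval p (W i b) = eval p (q i) * om i p b` for generic `p`
  (`∏_{k≠i,j} (l k ⬝ p) = q_i(p)/(l j ⬝ p)`).
* `W_form`: `q i * dd (a i) (ap G b) - W i b * ap G (a i)` vanishes at the generic points.
* `exists_inLam`: `G k = C (l i k) * q_i² + lf (l i) * q_i * W i (Pi.single k 1)`, so
  `ap G b = C (l i ⬝ b) q_i² + ℓ_i q_i W i b` (`W` is linear in `b`).
  At generic `p ∈ H_i`, `b ∈ H_i`: value `0`; `∂_{a i}` at `p` is `q_i(p) W i b (p)
  = q_i(p)² om i p b`; `ap G (a i)` at `p` is `q_i(p)² ≠ 0`. (So also `¬ lf (l i) ∣ ap G (a i)`.)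
  At generic `p ∈ H_j`, `j ≠ i`, `b ∈ H_j`: `q_i(p) = 0`, so the values of `ap G b` and
  `ap G (a j)` are `0`, and the derivative is `(l i ⬝ p) (∂ q_i)(p) (W i b)(p)`, where in `(W i b)(p)`
  only the summand `j` survives and has the factor `l j ⬝ b = 0`.
-/

namespace Pool.Agent.Lib.P4a9818

open MvPolynomial Matrix

variable {σ : Type} [Fintype σ] [DecidableEq σ] (A : Datum σ)

namespace Datum

theorem exists_gen (i : A.ι) : ∃ p, A.Gen i p := by
  obtain ⟨p, hp, h⟩ := exists_generic (A.l i) (Finset.univ.erase i) A.l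
    (fun j hj c => A.l_not_smul (Finset.ne_of_mem_erase hj).symm c)
  exact ⟨p, hp, fun j hj => h j (Finset.mem_erase.2 ⟨hj, Finset.mem_univ j⟩)⟩

/-- A polynomial vanishing at the generic points of `H_i` is divisible by `lf (l i)`. -/
theorem lf_dvd_of_gen (i : A.ι) {f : MvPolynomial σ ℂ} (h : ∀ p, A.Gen i p → eval p f = 0) :
    lf (A.l i) ∣ f := by
  refine lf_dvd_of_generic (A.l_ne_zero i) (Finset.univ.erase i) A.l
    (fun j hj c => A.l_not_smul (Finset.ne_of_mem_erase hj).symm c) f (fun p hp h' => ?_)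
  exact h p ⟨hp, fun j hj => h' j (Finset.mem_erase.2 ⟨hj, Finset.mem_univ j⟩)⟩

namespace LamBasicAux

theorem ap_zero_left (b : σ → ℂ) : ap (0 : σ → MvPolynomial σ ℂ) b = 0 := by
  simp [ap]

end LamBasicAux

open LamBasicAux

theorem inLam_zero : A.InLam 0 := by
  intro i p b _ _
  rw [ap_zero_left, ap_zero_left]
  simp [dd]

theorem inLam_add {G H : σ → MvPolynomial σ ℂ} (hG : A.InLam G) (hH : A.InLam H) :
    A.InLam (G + H) := by
  intro i p b hp hb
  obtain ⟨h1, h2⟩ := hG i p b hp hb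
  obtain ⟨h3, h4⟩ := hH i p b hp hb
  rw [ap_add_left, ap_add_left, dd_add, map_add, map_add, map_add, h1, h2, h3, h4]
  exact ⟨add_zero _, by ring⟩

theorem inLam_smul (f : MvPolynomial σ ℂ) {G : σ → MvPolynomial σ ℂ} (hG : A.InLam G) :
    A.InLam (f • G) := by
  intro i p b hp hb
  obtain ⟨h1, h2⟩ := hG i p b hp hb
  rw [ap_mul_left, ap_mul_left, dd_mul, map_mul, map_add, map_mul, map_mul, map_mul, h1, h2]
  exact ⟨mul_zero _, by ring⟩

theorem lf_dvd_ap {G : σ → MvPolynomial σ ℂ} (hG : A.InLam G) (i : A.ι) {b : σ → ℂ}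
    (hb : A.l i ⬝ᵥ b = 0) : lf (A.l i) ∣ ap G b :=
  A.lf_dvd_of_gen i (fun p hp => (hG i p b hp hb).1)

theorem lf_dvd_ap_pr {G : σ → MvPolynomial σ ℂ} (hG : A.InLam G) (j : A.ι) (v : σ → ℂ) :
    lf (A.l j) ∣ ap G (A.pr j v) := by
  refine A.lf_dvd_ap hG j ?_
  unfold pr
  rw [dotProduct_sub, dotProduct_smul, A.la, smul_eq_mul, mul_one, sub_self]

theorem Q_eq (i : A.ι) : A.Q = lf (A.l i) * A.q i :=
  (Finset.mul_prod_erase Finset.univ (fun j => lf (A.l j)) (Finset.mem_univ i)).symm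

theorem inLam_Q_sq (G : σ → MvPolynomial σ ℂ) : A.InLam (A.Q ^ 2 • G) := by
  intro i p b hp _
  have hQ : eval p A.Q = 0 := by
    rw [A.Q_eq i, map_mul, eval_lf, hp.1, zero_mul]
  have hQ2 : eval p (A.Q ^ 2) = 0 := by
    rw [map_pow, hQ]
    exact zero_pow two_ne_zero
  have hdQ : eval p (dd (A.a i) (A.Q ^ 2)) = 0 := by
    rw [pow_two, dd_mul, map_add, map_mul, map_mul, hQ]
    ring
  rw [ap_mul_left, ap_mul_left, dd_mul, map_mul, map_add, map_mul, map_mul, map_mul, hQ2, hdQ]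
  exact ⟨by ring, by ring⟩

theorem eval_q_ne_zero (i : A.ι) {p : σ → ℂ} (hp : A.Gen i p) : eval p (A.q i) ≠ 0 := by
  unfold q
  rw [map_prod, Finset.prod_ne_zero_iff]
  intro j hj
  rw [eval_lf]
  exact hp.2 j (Finset.ne_of_mem_erase hj)

theorem Q_ne_zero : A.Q ≠ 0 :=
  prod_lf_ne_zero Finset.univ A.l (fun j _ => A.l_ne_zero j)

theorem Q_isHomogeneous : A.Q.IsHomogeneous A.N :=
  isHomogeneous_prod_lf Finset.univ A.l

theorem not_lf_dvd_q (i : A.ι) : ¬ lf (A.l i) ∣ A.q i := by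
  intro h
  obtain ⟨p, hp⟩ := A.exists_gen i
  obtain ⟨g, hg⟩ := h
  apply A.eval_q_ne_zero i hp
  rw [hg, map_mul, eval_lf, hp.1, zero_mul]

theorem eval_W (i : A.ι) {p : σ → ℂ} (hp : A.Gen i p) (b : σ → ℂ) :
    eval p (A.W i b) = eval p (A.q i) * A.om i p b := by
  unfold W om
  rw [map_sum, Finset.mul_sum]
  refine Finset.sum_congr rfl fun j hj => ?_
  have hj0 := hp.2 j (Finset.ne_of_mem_erase hj)
  have h1 : A.q i = lf (A.l j) * ∏ k ∈ (Finset.univ.erase i).erase j, lf (A.l k) :=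
    (Finset.mul_prod_erase (Finset.univ.erase i) (fun j => lf (A.l j)) hj).symm
  have h2 : ∀ (c : ℂ) (x : MvPolynomial σ ℂ), eval p (C c * x) = c * eval p x := by
    intro c x
    rw [map_mul, eval_C]
  rw [h1, h2, map_mul, eval_lf]
  field_simp

theorem W_form {G : σ → MvPolynomial σ ℂ} (hG : A.InLam G) (i : A.ι) {b : σ → ℂ}
    (hb : A.l i ⬝ᵥ b = 0) :
    lf (A.l i) ∣ A.q i * dd (A.a i) (ap G b) - A.W i b * ap G (A.a i) := by
  refine A.lf_dvd_of_gen i (fun p hp => ?_)
  rw [map_sub, map_mul, map_mul, A.eval_W i hp, (hG i p b hp hb).2]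
  ring

namespace LamBasicAux

theorem sum_C_mul_C (b w : σ → ℂ) :
    ∑ k, C (b k) * (C (w k) : MvPolynomial σ ℂ) = C (w ⬝ᵥ b) := by
  unfold dotProduct
  rw [map_sum]
  refine Finset.sum_congr rfl fun k _ => ?_
  rw [← C_mul, mul_comm]

theorem sum_W (i : A.ι) (b : σ → ℂ) :
    ∑ k, C (b k) * A.W i (Pi.single k 1) = A.W i b := by
  unfold W
  simp only [Finset.mul_sum]
  rw [Finset.sum_comm]
  refine Finset.sum_congr rfl fun j _ => ?_
  have h : ∀ k, C (b k) * (C (2 * A.t i j * (A.l j ⬝ᵥ Pi.single k 1)) *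
      ∏ m ∈ (Finset.univ.erase i).erase j, lf (A.l m)) =
      (C (b k) * (C ((2 * A.t i j) * A.l j k) : MvPolynomial σ ℂ)) *
      ∏ m ∈ (Finset.univ.erase i).erase j, lf (A.l m) := by
    intro k
    rw [dotProduct_single, mul_one, mul_assoc (C (b k))]
  rw [Finset.sum_congr rfl fun k _ => h k, ← Finset.sum_mul]
  congr 1
  have h2 := sum_C_mul_C b (fun k => (2 * A.t i j) * A.l j k)
  rw [h2]
  congr 1
  unfold dotProduct
  rw [Finset.mul_sum]
  exact Finset.sum_congr rfl fun k _ => by ring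

end LamBasicAux

theorem exists_inLam (i : A.ι) :
    ∃ G, A.InLam G ∧ ¬ lf (A.l i) ∣ ap G (A.a i) := by
  have hap : ∀ b : σ → ℂ, ap (fun k => C (A.l i k) * A.q i ^ 2 +
      lf (A.l i) * A.q i * A.W i (Pi.single k 1)) b =
      C (A.l i ⬝ᵥ b) * A.q i ^ 2 + lf (A.l i) * A.q i * A.W i b := by
    intro b
    rw [← sum_C_mul_C b (A.l i), ← sum_W A i b, Finset.sum_mul, Finset.mul_sum,
      ← Finset.sum_add_distrib]
    unfold ap
    exact Finset.sum_congr rfl fun k _ => by ring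
  refine ⟨fun k => C (A.l i k) * A.q i ^ 2 + lf (A.l i) * A.q i * A.W i (Pi.single k 1),
    ?_, ?_⟩
  · intro j p b hp hb
    rw [hap, hap]
    by_cases hji : j = i
    · subst hji
      have hp1 : eval p (lf (A.l j)) = 0 := by rw [eval_lf, hp.1]
      refine ⟨?_, ?_⟩
      · rw [hb, C_0, zero_mul, zero_add, map_mul, map_mul, hp1]
        ring
      · rw [hb, C_0, zero_mul, zero_add, mul_assoc, eval_dd_mul_lf _ _ _ _ hp.1, A.la, map_mul,
          A.eval_W j hp, map_add, map_mul, map_mul, map_mul, map_pow, hp1, C_1, map_one]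
        ring
    · have hji' : j ∈ Finset.univ.erase i := Finset.mem_erase.2 ⟨hji, Finset.mem_univ j⟩
      have hqj : A.q i = lf (A.l j) * ∏ k ∈ (Finset.univ.erase i).erase j, lf (A.l k) :=
        (Finset.mul_prod_erase (Finset.univ.erase i) (fun j => lf (A.l j)) hji').symm
      have hq0 : eval p (A.q i) = 0 := by
        rw [hqj, map_mul, eval_lf, hp.1, zero_mul]
      have hW : eval p (A.W i b) = 0 := by
        unfold W
        rw [map_sum]
        refine Finset.sum_eq_zero fun k hk => ?_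
        by_cases hkj : k = j
        · subst hkj
          rw [hb, mul_zero, C_0, zero_mul, map_zero]
        · rw [map_mul, map_prod]
          refine mul_eq_zero_of_right _ (Finset.prod_eq_zero (i := j) ?_ ?_)
          · exact Finset.mem_erase.2 ⟨fun h => hkj h.symm, hji'⟩
          · rw [eval_lf, hp.1]
      refine ⟨?_, ?_⟩
      · rw [map_add, map_mul, map_mul, map_mul, map_pow, hq0]
        ring
      · have h1 : C (A.l i ⬝ᵥ b) * A.q i ^ 2 + lf (A.l i) * A.q i * A.W i b =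
            A.q i * (C (A.l i ⬝ᵥ b) * A.q i + lf (A.l i) * A.W i b) := by ring
        rw [h1, dd_mul, map_add, map_mul, map_mul, map_add, map_mul, map_mul, map_add, map_mul,
          map_mul, map_mul, map_pow, hq0, hW]
        ring
  · rintro ⟨g, hg⟩
    obtain ⟨p, hp⟩ := A.exists_gen i
    have h1 := congrArg (eval p) hg
    rw [hap, A.la, C_1, one_mul, map_add, map_mul, map_mul, map_mul, map_pow, eval_lf, hp.1,
      zero_mul, zero_mul, add_zero, zero_mul] at h1
    exact A.eval_q_ne_zero i hp (pow_eq_zero_iff two_ne_zero |>.1 h1)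

end Datum

end Pool.Agent.Lib.P4a9818
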