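import Pool.Agent.Lib.P4a9818.Defs

/-!
# P4a9818.Lin : linear forms, divisibility, generic points   (estimate 1.5 h)

Proofs.
* `prime_lf`: choose `k` with `v k ≠ 0`; the algebra automorphism `X k ↦ lf v`, `X j ↦ X j` for
  `j ≠ k`, maps the prime `X k` to `lf v` (inverse: `X k ↦ (X k - ∑_{j≠k} v j X j) / v k`). Or use
  the lemma `lf_dvd_iff` below to see that divisibility by `lf v` is the kernel of the ring
  homomorphism `f ↦ f ∘ pr` with `pr x = x - (v ⬝ x) a`, `v ⬝ a = 1` (a domain is the target).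
* `lf_dvd_iff` (⇐): with `v ⬝ a = 1` let `f' = f ∘ pr` (`sub (1 - vecMulVec a v) f`). `f - f'` is
  divisible by `lf v` (check on the variables, the set of `f` with this property is a subalgebra,
  `MvPolynomial.induction_on`), and `f'` vanishes everywhere, so `f' = 0`
  (`MvPolynomial.funext`).
* `lf_dvd_lf_iff`: if `w` is not a multiple of `v` there is `p` with `v ⬝ p = 0`, `w ⬝ p ≠ 0`
  (linear algebra: `w` vanishes on `ker v` iff it is a multiple of `v`).
* `exists_generic_sub`: the common kernel `S^⊥ = {p | ∀ v ∈ S, v ⬝ p = 0}` is not contained in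
  any of the hyperplanes `w j = 0` (because `w j ∉ S` and `S^⊥⊥ = S`), and a vector space over an
  infinite field is not a finite union of proper subspaces
  (`Subspace.biUnion_ne_univ_of_top_nmem` or similar).
* `lf_dvd_of_generic`: `f * ∏_{j∈s} lf (w j)` vanishes on the hyperplane `v = 0`, so `lf v`
  divides it; `lf v` is prime and does not divide any `lf (w j)`.
* `prod_lf_dvd`: induction on `s` with `Finset.prod_insert`; `lf (w i)` is prime and does not
  divide the product of the others.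
-/

namespace Pool.Agent.Lib.P4a9818

open MvPolynomial Matrix

variable {σ : Type} [Fintype σ] [DecidableEq σ]

theorem eval_lf (v p : σ → ℂ) : eval p (lf v) = v ⬝ᵥ p := by
  simp [lf, dotProduct]

theorem lf_add (v w : σ → ℂ) : lf (v + w) = lf v + lf w := by
  simp [lf, add_mul, Finset.sum_add_distrib]

theorem lf_smul (c : ℂ) (v : σ → ℂ) : lf (c • v) = C c * lf v := by
  simp [lf, Finset.mul_sum, mul_assoc]

theorem lf_zero : lf (0 : σ → ℂ) = 0 := by
  simp [lf]

theorem lf_single (k : σ) : lf (Pi.single k (1 : ℂ)) = X k := by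
  unfold lf
  rw [Finset.sum_eq_single k]
  · simp
  · intro j _ hj
    simp [hj]
  · intro hk
    exact absurd (Finset.mem_univ k) hk

theorem lf_eq_zero_iff (v : σ → ℂ) : lf v = 0 ↔ v = 0 := by
  constructor
  · intro h
    funext k
    have h1 := eval_lf v (Pi.single k 1)
    rw [h, map_zero, dotProduct_single, mul_one] at h1
    exact h1.symm
  · rintro rfl
    exact lf_zero

theorem isHomogeneous_lf (v : σ → ℂ) : (lf v).IsHomogeneous 1 := by
  unfold lf
  exact IsHomogeneous.sum _ _ _ fun k _ => isHomogeneous_C_mul_X _ _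

namespace LinAux

theorem exists_dot_one {v : σ → ℂ} (hv : v ≠ 0) : ∃ a : σ → ℂ, v ⬝ᵥ a = 1 := by
  obtain ⟨k, hk⟩ := Function.ne_iff.1 hv
  refine ⟨Pi.single k (v k)⁻¹, ?_⟩
  rw [dotProduct_single]
  exact mul_inv_cancel₀ hk

/-- Substitution of the projection along `a`. -/
noncomputable def rho (v a : σ → ℂ) : MvPolynomial σ ℂ →ₐ[ℂ] MvPolynomial σ ℂ :=
  aeval fun k => X k - C (a k) * lf v

theorem eval_rho (v a x : σ → ℂ) (f : MvPolynomial σ ℂ) :
    eval x (rho v a f) = eval (x - (v ⬝ᵥ x) • a) f := by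
  unfold rho
  induction f using MvPolynomial.induction_on with
  | C c => simp
  | add p q hp hq => rw [map_add, map_add, map_add, hp, hq]
  | mul_X p k hp =>
    rw [map_mul, map_mul, map_mul, hp, aeval_X, eval_X, map_sub, eval_X, map_mul, eval_C,
      eval_lf]
    simp only [Pi.sub_apply, Pi.smul_apply, smul_eq_mul]
    ring

theorem dvd_sub_rho (v a : σ → ℂ) (f : MvPolynomial σ ℂ) : lf v ∣ f - rho v a f := by
  induction f using MvPolynomial.induction_on with
  | C c => simp [rho]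
  | add p q hp hq =>
    have h : p + q - rho v a (p + q) = (p - rho v a p) + (q - rho v a q) := by
      rw [map_add]
      ring
    rw [h]
    exact dvd_add hp hq
  | mul_X p k hp =>
    have h1 : rho v a (X k) = X k - C (a k) * lf v := by
      unfold rho
      rw [aeval_X]
    have h : p * X k - rho v a (p * X k) =
        (p - rho v a p) * X k + lf v * (rho v a p * C (a k)) := by
      rw [map_mul, h1]
      ring
    rw [h]
    exact dvd_add (Dvd.dvd.mul_right hp _) (dvd_mul_right _ _)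

theorem dvd_iff_rho {v a : σ → ℂ} (ha : v ⬝ᵥ a = 1) (f : MvPolynomial σ ℂ) :
    lf v ∣ f ↔ rho v a f = 0 := by
  constructor
  · rintro ⟨g, rfl⟩
    refine MvPolynomial.funext fun x => ?_
    rw [eval_rho, map_mul, eval_lf, dotProduct_sub, dotProduct_smul, ha, smul_eq_mul, mul_one,
      sub_self, zero_mul, map_zero]
  · intro h
    have h1 := dvd_sub_rho v a f
    rwa [h, sub_zero] at h1

end LinAux

open LinAux

theorem prime_lf {v : σ → ℂ} (hv : v ≠ 0) : Prime (lf v) := by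
  obtain ⟨a, ha⟩ := exists_dot_one hv
  refine ⟨fun h => hv ((lf_eq_zero_iff v).1 h), fun h => ?_, fun f g h => ?_⟩
  · have h1 := (dvd_iff_rho ha (1 : MvPolynomial σ ℂ)).1 (isUnit_iff_dvd_one.1 h)
    rw [map_one] at h1
    exact one_ne_zero h1
  · rw [dvd_iff_rho ha, map_mul, mul_eq_zero] at h
    rwa [dvd_iff_rho ha, dvd_iff_rho ha]

theorem lf_dvd_iff {v : σ → ℂ} (hv : v ≠ 0) (f : MvPolynomial σ ℂ) :
    lf v ∣ f ↔ ∀ p, v ⬝ᵥ p = 0 → eval p f = 0 := by
  obtain ⟨a, ha⟩ := exists_dot_one hv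
  constructor
  · rintro ⟨g, rfl⟩ p hp
    rw [map_mul, eval_lf, hp, zero_mul]
  · intro h
    rw [dvd_iff_rho ha]
    refine MvPolynomial.funext fun x => ?_
    rw [eval_rho, map_zero]
    refine h _ ?_
    rw [dotProduct_sub, dotProduct_smul, ha, smul_eq_mul, mul_one, sub_self]

theorem lf_dvd_lf_iff {v : σ → ℂ} (hv : v ≠ 0) (w : σ → ℂ) :
    lf v ∣ lf w ↔ ∃ c : ℂ, w = c • v := by
  obtain ⟨a, ha⟩ := exists_dot_one hv
  constructor
  · intro h
    rw [lf_dvd_iff hv] at h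
    refine ⟨w ⬝ᵥ a, ?_⟩
    funext k
    have h1 := h (Pi.single k 1 - (v ⬝ᵥ Pi.single k 1) • a) (by
      rw [dotProduct_sub, dotProduct_smul, ha, smul_eq_mul, mul_one, sub_self])
    rw [eval_lf, dotProduct_sub, dotProduct_smul, dotProduct_single, dotProduct_single, mul_one,
      mul_one, smul_eq_mul, sub_eq_zero] at h1
    rw [h1, Pi.smul_apply, smul_eq_mul, mul_comm]
  · rintro ⟨c, rfl⟩
    rw [lf_smul]
    exact dvd_mul_left _ _

theorem exists_generic_sub {κ : Type} (S : Submodule ℂ (σ → ℂ)) (s : Finset κ)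
    (w : κ → σ → ℂ) (h : ∀ j ∈ s, w j ∉ S) :
    ∃ p : σ → ℂ, (∀ v ∈ S, v ⬝ᵥ p = 0) ∧ ∀ j ∈ s, w j ⬝ᵥ p ≠ 0 := by
  set D : Submodule ℂ (σ → ℂ) :=
    { carrier := {p | ∀ v ∈ S, v ⬝ᵥ p = 0}
      add_mem' := fun {a b} ha hb v hv => by rw [dotProduct_add, ha v hv, hb v hv, add_zero]
      zero_mem' := fun v _ => dotProduct_zero v
      smul_mem' := fun c x hx v hv => by rw [dotProduct_smul, hx v hv, smul_zero] } with hD
  have hmem : ∀ p : σ → ℂ, p ∈ D ↔ ∀ v ∈ S, v ⬝ᵥ p = 0 := fun p => Iff.rfl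
  by_contra hcon
  push Not at hcon
  set K : s → Submodule ℂ D := fun j =>
    { carrier := {p | w j ⬝ᵥ (p : σ → ℂ) = 0}
      add_mem' := fun {a b} ha hb => by
        simp only [Set.mem_setOf_eq] at ha hb ⊢
        rw [Submodule.coe_add, dotProduct_add, ha, hb, add_zero]
      zero_mem' := by simp
      smul_mem' := fun c x hx => by
        simp only [Set.mem_setOf_eq] at hx ⊢
        rw [Submodule.coe_smul, dotProduct_smul, hx, smul_zero] } with hK
  have hcov : ⋃ j, (K j : Set D) = Set.univ := by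
    refine Set.eq_univ_of_forall fun p => ?_
    obtain ⟨j, hj, hj0⟩ := hcon p ((hmem _).1 p.2)
    exact Set.mem_iUnion.2 ⟨⟨j, hj⟩, hj0⟩
  obtain ⟨⟨j, hj⟩, htop⟩ := Subspace.exists_eq_top_of_iUnion_eq_univ hcov
  obtain ⟨φ, hφ1, hφ2⟩ := Submodule.exists_le_ker_of_notMem (h j hj)
  have hφ : ∀ v : σ → ℂ, φ v = v ⬝ᵥ fun k => φ (Pi.single k 1) := by
    intro v
    have h1 : v = ∑ k, v k • (Pi.single k (1 : ℂ) : σ → ℂ) := by
      funext i
      rw [Finset.sum_apply, Finset.sum_eq_single i]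
      · simp
      · intro k _ hk
        simp [Ne.symm hk]
      · intro hi
        exact absurd (Finset.mem_univ i) hi
    calc φ v = φ (∑ k, v k • (Pi.single k (1 : ℂ) : σ → ℂ)) := by rw [← h1]
      _ = ∑ k, v k * φ (Pi.single k 1) := by
          rw [map_sum]
          refine Finset.sum_congr rfl fun k _ => ?_
          rw [map_smul, smul_eq_mul]
      _ = _ := rfl
  have hp : (fun k => φ (Pi.single k 1)) ∈ D := by
    rw [hmem]
    intro v hv
    rw [← hφ]
    exact hφ2 hv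
  have h2 : (⟨_, hp⟩ : D) ∈ K ⟨j, hj⟩ := by
    rw [htop]
    exact Submodule.mem_top
  have h3 : w j ⬝ᵥ (fun k => φ (Pi.single k 1)) = 0 := h2
  rw [← hφ] at h3
  exact hφ1 h3

theorem exists_generic {κ : Type} (v : σ → ℂ) (s : Finset κ)
    (w : κ → σ → ℂ) (h : ∀ j ∈ s, ∀ c : ℂ, w j ≠ c • v) :
    ∃ p : σ → ℂ, v ⬝ᵥ p = 0 ∧ ∀ j ∈ s, w j ⬝ᵥ p ≠ 0 := by
  obtain ⟨p, h1, h2⟩ := exists_generic_sub (Submodule.span ℂ {v}) s w (fun j hj hm => by
    obtain ⟨c, hc⟩ := Submodule.mem_span_singleton.1 hm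
    exact h j hj c hc.symm)
  exact ⟨p, h1 v (Submodule.mem_span_singleton_self v), h2⟩

theorem lf_dvd_of_generic {κ : Type} {v : σ → ℂ} (hv : v ≠ 0) (s : Finset κ)
    (w : κ → σ → ℂ) (h : ∀ j ∈ s, ∀ c : ℂ, w j ≠ c • v) (f : MvPolynomial σ ℂ)
    (hf : ∀ p, v ⬝ᵥ p = 0 → (∀ j ∈ s, w j ⬝ᵥ p ≠ 0) → eval p f = 0) :
    lf v ∣ f := by
  have h1 : lf v ∣ f * ∏ j ∈ s, lf (w j) := by
    rw [lf_dvd_iff hv]
    intro p hp
    rw [map_mul, map_prod]
    by_cases hj : ∀ j ∈ s, w j ⬝ᵥ p ≠ 0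
    · rw [hf p hp hj, zero_mul]
    · push Not at hj
      obtain ⟨j, hjs, hj0⟩ := hj
      rw [Finset.prod_eq_zero hjs (by rw [eval_lf, hj0]), mul_zero]
  rcases (prime_lf hv).dvd_or_dvd h1 with h2 | h2
  · exact h2
  · obtain ⟨j, hjs, hj⟩ := (prime_lf hv).exists_mem_finset_dvd h2
    obtain ⟨c, hc⟩ := (lf_dvd_lf_iff hv (w j)).1 hj
    exact absurd hc (h j hjs c)

theorem prod_lf_dvd {κ : Type} [DecidableEq κ] (s : Finset κ) (w : κ → σ → ℂ)
    (hw : ∀ j ∈ s, w j ≠ 0)
    (hpair : ∀ i ∈ s, ∀ j ∈ s, i ≠ j → ∀ c : ℂ, w j ≠ c • w i)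
    (f : MvPolynomial σ ℂ) (h : ∀ j ∈ s, lf (w j) ∣ f) :
    ∏ j ∈ s, lf (w j) ∣ f := by
  induction s using Finset.induction_on with
  | empty => simp
  | insert i s hi ih =>
    rw [Finset.prod_insert hi]
    obtain ⟨g, hg⟩ := ih (fun j hj => hw j (Finset.mem_insert_of_mem hj))
      (fun a ha b hb => hpair a (Finset.mem_insert_of_mem ha) b (Finset.mem_insert_of_mem hb))
      (fun j hj => h j (Finset.mem_insert_of_mem hj))
    have hi0 : w i ≠ 0 := hw i (Finset.mem_insert_self i s)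
    have h1 := h i (Finset.mem_insert_self i s)
    rw [hg] at h1
    rcases (prime_lf hi0).dvd_or_dvd h1 with h2 | h2
    · obtain ⟨j, hjs, hj⟩ := (prime_lf hi0).exists_mem_finset_dvd h2
      obtain ⟨c, hc⟩ := (lf_dvd_lf_iff hi0 (w j)).1 hj
      refine absurd hc (hpair i (Finset.mem_insert_self i s) j (Finset.mem_insert_of_mem hjs) ?_ c)
      rintro rfl
      exact hi hjs
    · obtain ⟨g', hg'⟩ := h2
      refine ⟨g', ?_⟩
      rw [hg, hg']
      ring

end Pool.Agent.Lib.P4a9818
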