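import Pool.Agent.Lib.P4a9818.Lin

/-!
# P4a9818.LinD : directional derivatives, exact quotients, double divisibility  (estimate 1.5 h)

Proofs.
* `dd` is `ℂ`-bilinear and a derivation, because `pderiv k` is; `dd_lf` is a computation.
* `euler`: `MvPolynomial.IsHomogeneous.sum_X_mul_pderiv` (or the equality on monomials).
* `totalDegree_dd_le`: monomials of `pderiv k f` are of the form `m - single k 1`, `m k ≥ 1`.
* `lf_dvd_dd`: `f = lf v * g`, `dd c f = (v ⬝ c) g + lf v * dd c g`.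
* `eval_dd_of_dvd`: same formula evaluated at `p`.
* `sq_dvd_of_generic`: `lf v ∣ f` by `lf_dvd_of_generic`, `f = lf v * g`, then
  `eval p (dd α f) = eval p g` for generic `p`, hence `lf v ∣ g`.
* `sq_dvd_eval`: the converse, at every point of the hyperplane.
* `quo`: `f = g * quo f g` is `Exists.choose_spec`; the other rules follow by cancelling `g`.
-/

namespace Pool.Agent.Lib.P4a9818

open MvPolynomial Matrix

variable {σ : Type} [Fintype σ] [DecidableEq σ]

theorem dd_add (c : σ → ℂ) (f g : MvPolynomial σ ℂ) : dd c (f + g) = dd c f + dd c g := by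
  simp only [dd, map_add, mul_add, Finset.sum_add_distrib]

theorem dd_sub (c : σ → ℂ) (f g : MvPolynomial σ ℂ) : dd c (f - g) = dd c f - dd c g := by
  simp only [dd, map_sub, mul_sub, Finset.sum_sub_distrib]

theorem dd_sum {κ : Type} (c : σ → ℂ) (s : Finset κ) (f : κ → MvPolynomial σ ℂ) :
    dd c (∑ k ∈ s, f k) = ∑ k ∈ s, dd c (f k) := by
  simp only [dd, map_sum, Finset.mul_sum]
  exact Finset.sum_comm

theorem dd_mul (c : σ → ℂ) (f g : MvPolynomial σ ℂ) :
    dd c (f * g) = dd c f * g + f * dd c g := by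
  simp only [dd, Finset.sum_mul, Finset.mul_sum, ← Finset.sum_add_distrib]
  refine Finset.sum_congr rfl fun k _ => ?_
  rw [pderiv_mul]
  ring

theorem dd_C (c : σ → ℂ) (a : ℂ) : dd c (C a : MvPolynomial σ ℂ) = 0 := by
  simp [dd]

theorem dd_C_mul (c : σ → ℂ) (a : ℂ) (f : MvPolynomial σ ℂ) :
    dd c (C a * f) = C a * dd c f := by
  rw [dd_mul, dd_C, zero_mul, zero_add]

theorem dd_lf (c v : σ → ℂ) : dd c (lf v) = C (v ⬝ᵥ c) := by
  have h : ∀ k, pderiv k (lf v) = C (v k) := by
    intro k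
    unfold lf
    rw [map_sum, Finset.sum_eq_single k]
    · rw [pderiv_C_mul, pderiv_X_self, mul_one]
    · intro j _ hj
      rw [pderiv_C_mul, pderiv_X_of_ne hj, mul_zero]
    · intro hk
      exact absurd (Finset.mem_univ k) hk
  unfold dd dotProduct
  rw [map_sum]
  refine Finset.sum_congr rfl fun k _ => ?_
  rw [h, ← C_mul, mul_comm]

theorem dd_single (k : σ) (f : MvPolynomial σ ℂ) : dd (Pi.single k 1) f = pderiv k f := by
  unfold dd
  rw [Finset.sum_eq_single k]
  · simp
  · intro j _ hj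
    simp [hj]
  · intro hk
    exact absurd (Finset.mem_univ k) hk

theorem dd_add_left (c c' : σ → ℂ) (f : MvPolynomial σ ℂ) :
    dd (c + c') f = dd c f + dd c' f := by
  simp only [dd, Pi.add_apply, map_add, add_mul, Finset.sum_add_distrib]

theorem dd_smul_left (a : ℂ) (c : σ → ℂ) (f : MvPolynomial σ ℂ) :
    dd (a • c) f = C a * dd c f := by
  simp only [dd, Pi.smul_apply, smul_eq_mul, map_mul, Finset.mul_sum, mul_assoc]

namespace LinDAux

theorem pderiv_comm' (i j : σ) (f : MvPolynomial σ ℂ) :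
    pderiv i (pderiv j f) = pderiv j (pderiv i f) := by
  induction f using MvPolynomial.induction_on with
  | C c => simp
  | add p q hp hq => simp only [map_add, hp, hq]
  | mul_X p k hp =>
    have hX : ∀ a b : σ, pderiv a (pderiv b (X k : MvPolynomial σ ℂ)) = 0 := by
      intro a b
      by_cases hb : k = b
      · subst hb
        rw [pderiv_X_self, pderiv_one]
      · rw [pderiv_X_of_ne hb, map_zero]
    simp only [pderiv_mul, map_add, hX, hp]
    ring

end LinDAux

open LinDAux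

theorem dd_comm (c c' : σ → ℂ) (f : MvPolynomial σ ℂ) :
    dd c (dd c' f) = dd c' (dd c f) := by
  have h : ∀ u v : σ → ℂ, dd u (dd v f) =
      ∑ k, ∑ j, C (u k) * C (v j) * pderiv k (pderiv j f) := by
    intro u v
    unfold dd
    refine Finset.sum_congr rfl fun k _ => ?_
    rw [map_sum, Finset.mul_sum]
    refine Finset.sum_congr rfl fun j _ => ?_
    rw [pderiv_C_mul, mul_assoc]
  rw [h, h, Finset.sum_comm]
  refine Finset.sum_congr rfl fun j _ => Finset.sum_congr rfl fun k _ => ?_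
  rw [pderiv_comm' k j]
  ring

theorem dd_isHomogeneous (c : σ → ℂ) {f : MvPolynomial σ ℂ} {n : ℕ}
    (hf : f.IsHomogeneous (n + 1)) : (dd c f).IsHomogeneous n := by
  unfold dd
  refine IsHomogeneous.sum _ _ _ fun k _ => ?_
  have h1 := hf.pderiv (i := k)
  rw [Nat.add_sub_cancel] at h1
  have h2 := (isHomogeneous_C σ (c k)).mul h1
  rwa [zero_add] at h2

namespace LinDAux

theorem coeff_pderiv' (i : σ) (f : MvPolynomial σ ℂ) (m : σ →₀ ℕ) :
    coeff m (pderiv i f) = coeff (m + Finsupp.single i 1) f * ((m i : ℂ) + 1) := by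
  induction f using MvPolynomial.induction_on' with
  | monomial u a =>
    rw [pderiv_monomial, coeff_monomial, coeff_monomial]
    by_cases h : u = m + Finsupp.single i 1
    · subst h
      have h1 : m + Finsupp.single i 1 - Finsupp.single i 1 = m := add_tsub_cancel_right _ _
      rw [if_pos h1, if_pos rfl, Finsupp.add_apply, Finsupp.single_eq_same]
      push_cast
      ring
    · rw [if_neg h, zero_mul]
      split_ifs with h2
      · by_cases h3 : u i = 0
        · rw [h3, Nat.cast_zero, mul_zero]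
        · exfalso
          apply h
          rw [← h2, tsub_add_cancel_of_le]
          rw [Finsupp.single_le_iff]
          exact Nat.one_le_iff_ne_zero.2 h3
      · rfl
  | add p q hp hq =>
    rw [map_add, coeff_add, coeff_add, hp, hq]
    ring

theorem totalDegree_pderiv_le' (i : σ) (f : MvPolynomial σ ℂ) :
    (pderiv i f).totalDegree ≤ f.totalDegree - 1 := by
  rw [totalDegree, Finset.sup_le_iff]
  intro m hm
  rw [mem_support_iff, coeff_pderiv'] at hm
  have h1 : m + Finsupp.single i 1 ∈ f.support := by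
    rw [mem_support_iff]
    exact left_ne_zero_of_mul hm
  have h2 := le_totalDegree h1
  rw [Finsupp.sum_add_index' (fun _ => rfl) (fun _ _ _ => rfl),
    Finsupp.sum_single_index rfl] at h2
  omega

end LinDAux

theorem totalDegree_dd_le (c : σ → ℂ) (f : MvPolynomial σ ℂ) :
    (dd c f).totalDegree ≤ f.totalDegree - 1 := by
  unfold dd
  refine (totalDegree_finset_sum _ _).trans (Finset.sup_le fun k _ => ?_)
  refine (totalDegree_mul _ _).trans ?_
  rw [totalDegree_C, zero_add]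
  exact totalDegree_pderiv_le' k f

theorem dd_eq_zero_of_totalDegree (c : σ → ℂ) {f : MvPolynomial σ ℂ}
    (hf : f.totalDegree = 0) : dd c f = 0 := by
  rw [totalDegree_eq_zero_iff_eq_C.1 hf, dd_C]

theorem euler {f : MvPolynomial σ ℂ} {n : ℕ} (hf : f.IsHomogeneous n) :
    ∑ k, X k * pderiv k f = (n : MvPolynomial σ ℂ) * f := by
  rw [hf.sum_X_mul_pderiv, nsmul_eq_mul]

theorem ap_add (G : σ → MvPolynomial σ ℂ) (v w : σ → ℂ) : ap G (v + w) = ap G v + ap G w := by
  simp only [ap, Pi.add_apply, map_add, add_mul, Finset.sum_add_distrib]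

theorem ap_sub (G : σ → MvPolynomial σ ℂ) (v w : σ → ℂ) : ap G (v - w) = ap G v - ap G w := by
  simp only [ap, Pi.sub_apply, map_sub, sub_mul, Finset.sum_sub_distrib]

theorem ap_smul (G : σ → MvPolynomial σ ℂ) (a : ℂ) (v : σ → ℂ) :
    ap G (a • v) = C a * ap G v := by
  simp only [ap, Pi.smul_apply, smul_eq_mul, map_mul, Finset.mul_sum, mul_assoc]

theorem ap_single (G : σ → MvPolynomial σ ℂ) (k : σ) : ap G (Pi.single k 1) = G k := by
  unfold ap
  rw [Finset.sum_eq_single k]
  · simp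
  · intro j _ hj
    simp [hj]
  · intro hk
    exact absurd (Finset.mem_univ k) hk

theorem ap_add_left (G H : σ → MvPolynomial σ ℂ) (v : σ → ℂ) :
    ap (G + H) v = ap G v + ap H v := by
  simp only [ap, Pi.add_apply, mul_add, Finset.sum_add_distrib]

theorem ap_mul_left (f : MvPolynomial σ ℂ) (G : σ → MvPolynomial σ ℂ) (v : σ → ℂ) :
    ap (f • G) v = f * ap G v := by
  simp only [ap, Pi.smul_apply, smul_eq_mul, Finset.mul_sum]
  exact Finset.sum_congr rfl fun k _ => by ring

theorem dd_ap (c : σ → ℂ) (G : σ → MvPolynomial σ ℂ) (v : σ → ℂ) :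
    dd c (ap G v) = ap (fun k => dd c (G k)) v := by
  unfold ap
  rw [dd_sum]
  exact Finset.sum_congr rfl fun k _ => dd_C_mul _ _ _

theorem lf_dvd_dd {v : σ → ℂ} {f : MvPolynomial σ ℂ} (c : σ → ℂ) (hc : v ⬝ᵥ c = 0)
    (h : lf v ∣ f) : lf v ∣ dd c f := by
  obtain ⟨g, rfl⟩ := h
  rw [dd_mul, dd_lf, hc, map_zero, zero_mul, zero_add]
  exact dvd_mul_right _ _

theorem eval_dd_mul_lf (v c p : σ → ℂ) (g : MvPolynomial σ ℂ) (hp : v ⬝ᵥ p = 0) :
    eval p (dd c (lf v * g)) = (v ⬝ᵥ c) * eval p g := by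
  rw [dd_mul, dd_lf, map_add, map_mul, map_mul, eval_C, eval_lf, hp, zero_mul, add_zero]

theorem sq_dvd_of_generic {κ : Type} {v α : σ → ℂ} (hv : v ⬝ᵥ α = 1) (s : Finset κ)
    (w : κ → σ → ℂ) (h : ∀ j ∈ s, ∀ c : ℂ, w j ≠ c • v) (f : MvPolynomial σ ℂ)
    (hf : ∀ p, v ⬝ᵥ p = 0 → (∀ j ∈ s, w j ⬝ᵥ p ≠ 0) →
      eval p f = 0 ∧ eval p (dd α f) = 0) :
    (lf v) ^ 2 ∣ f := by
  have hv0 : v ≠ 0 := by
    rintro rfl
    rw [zero_dotProduct] at hv
    exact zero_ne_one hv
  obtain ⟨g, rfl⟩ := lf_dvd_of_generic hv0 s w h f fun p hp hs => (hf p hp hs).1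
  rw [pow_two]
  refine mul_dvd_mul_left _ ?_
  refine lf_dvd_of_generic hv0 s w h g fun p hp hs => ?_
  have h1 := (hf p hp hs).2
  rwa [eval_dd_mul_lf _ _ _ _ hp, hv, one_mul] at h1

theorem sq_dvd_eval {v : σ → ℂ} (α : σ → ℂ) {f : MvPolynomial σ ℂ} (h : (lf v) ^ 2 ∣ f)
    (p : σ → ℂ) (hp : v ⬝ᵥ p = 0) : eval p f = 0 ∧ eval p (dd α f) = 0 := by
  obtain ⟨g, rfl⟩ := h
  rw [pow_two, mul_assoc]
  refine ⟨?_, ?_⟩
  · rw [map_mul, eval_lf, hp, zero_mul]
  · rw [eval_dd_mul_lf _ _ _ _ hp, map_mul, eval_lf, hp, zero_mul, mul_zero]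

theorem mul_quo {f g : MvPolynomial σ ℂ} (h : g ∣ f) : g * quo f g = f := by
  unfold quo
  rw [dif_pos h]
  exact h.choose_spec.symm

theorem quo_eq {f g k : MvPolynomial σ ℂ} (hg : g ≠ 0) (h : f = g * k) : quo f g = k := by
  refine mul_left_cancel₀ hg ?_
  rw [mul_quo ⟨k, h⟩, h]

theorem quo_add {f f' g : MvPolynomial σ ℂ} (hg : g ≠ 0) (h : g ∣ f) (h' : g ∣ f') :
    quo (f + f') g = quo f g + quo f' g := by
  refine quo_eq hg ?_
  rw [mul_add, mul_quo h, mul_quo h']

theorem quo_mul_left {f g : MvPolynomial σ ℂ} (k : MvPolynomial σ ℂ) (hg : g ≠ 0)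
    (h : g ∣ f) : quo (k * f) g = k * quo f g := by
  refine quo_eq hg ?_
  rw [mul_left_comm, mul_quo h]

end Pool.Agent.Lib.P4a9818
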