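import Pool.Agent.Lib.P4a9818.Rank2
import Pool.Agent.Lib.P4a9818.LinH

/-!
# P4a9818.Loc : the hyperplanes through a point   (estimate 2 h)

* `exists_loc`: `ι' = {i // l i ⬝ p = 0}`, all data restricted. `perm`: for `i, j` with
  `l i ⬝ p = l j ⬝ p = 0` let `g i P_j = P_k g i`. Then `l k` is a multiple of `l j (g i)⁻¹`
  (row spaces of rank one matrices) and `(g i)⁻¹ p = p` (as `g i p = p`), so `l k ⬝ p = 0`.
  `fin`: the closure of a subset is contained in the finite group `closure (range g)`.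
* `card_lt`: the map `e` is not surjective.
* `J_le`, `Js_le`: intersections over fewer pairs (`JF`, `JFs`, `iInf`).
* `exists_h`: `h = ∏_{j, l j ⬝ p ≠ 0} ℓ_j`. If `f ∈ J(A')` then `h f ∈ PF l i j` for `i ≠ j`: if both
  pass through `p` this holds for `f`; otherwise `ℓ_i ∣ h` or `ℓ_j ∣ h`.
-/

namespace Pool.Agent.Lib.P4a9818

open MvPolynomial Matrix

variable {σ : Type} [Fintype σ] [DecidableEq σ] (A : Datum σ)

/-- `A'` consists of the hyperplanes of `A` through `p`. -/
structure Datum.IsLoc (A A' : Datum σ) (p : σ → ℂ) (e : A'.ι → A.ι) : Prop where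
  inj : Function.Injective e
  l : ∀ i, A'.l i = A.l (e i)
  mem : ∀ j, (∃ i, e i = j) ↔ A.l j ⬝ᵥ p = 0

namespace LocAux

omit [DecidableEq σ] in
theorem P_mulVec (a l p : σ → ℂ) : vecMulVec a l *ᵥ p = (l ⬝ᵥ p) • a := by
  ext k
  simp only [mulVec, dotProduct, vecMulVec_apply, Pi.smul_apply, smul_eq_mul, Finset.sum_mul]
  exact Finset.sum_congr rfl fun j _ => by ring

theorem perm_aux {i j k : A.ι} {p : σ → ℂ} (hi : A.l i ⬝ᵥ p = 0) (hj : A.l j ⬝ᵥ p = 0)
    (hk : (A.g i : Matrix σ σ ℂ) * vecMulVec (A.a j) (A.l j)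
      = vecMulVec (A.a k) (A.l k) * (A.g i : Matrix σ σ ℂ)) : A.l k ⬝ᵥ p = 0 := by
  have hg : (A.g i : Matrix σ σ ℂ) *ᵥ p = p := by
    rw [A.hg, Matrix.add_mulVec, Matrix.one_mulVec, Matrix.smul_mulVec, P_mulVec, hi, zero_smul,
      smul_zero, add_zero]
  have h1 := congrArg (fun M : Matrix σ σ ℂ => M *ᵥ p) hk
  simp only [← Matrix.mulVec_mulVec] at h1
  rw [hg, P_mulVec, hj, zero_smul, Matrix.mulVec_zero, P_mulVec] at h1
  exact (smul_eq_zero.1 h1.symm).resolve_right (A.a_ne_zero k)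

end LocAux

namespace Datum

theorem exists_loc (p : σ → ℂ) : ∃ (A' : Datum σ) (e : A'.ι → A.ι), A.IsLoc A' p e := by
  classical
  refine ⟨{ ι := {i : A.ι // A.l i ⬝ᵥ p = 0}
            instF := inferInstance
            instD := inferInstance
            a := fun i => A.a i
            l := fun i => A.l i
            z := fun i => A.z i
            g := fun i => A.g i
            la := fun i => A.la i
            li := fun i j h => A.li i j fun h' => h (Subtype.ext h')
            ai := fun i j h => A.ai i j fun h' => h (Subtype.ext h')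
            hz := fun i => A.hz i
            hg := fun i => A.hg i
            perm := fun i j => by
              obtain ⟨k, hk⟩ := A.perm i j
              exact ⟨⟨k, LocAux.perm_aux A i.2 j.2 hk⟩, hk⟩
            fin := ?_ }, fun i => i.1, ?_⟩
  · have h : Subgroup.closure (Set.range fun i : {i : A.ι // A.l i ⬝ᵥ p = 0} => A.g i) ≤
        Subgroup.closure (Set.range A.g) := by
      refine Subgroup.closure_mono ?_
      rintro _ ⟨i, rfl⟩
      exact ⟨i, rfl⟩
    have := A.fin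
    exact Finite.of_injective _ (Subgroup.inclusion_injective h)
  · refine ⟨Subtype.val_injective, fun i => rfl, fun j => ?_⟩
    constructor
    · rintro ⟨i, rfl⟩
      exact i.2
    · intro h
      exact ⟨⟨j, h⟩, rfl⟩

variable {A}

theorem IsLoc.card_lt {A' : Datum σ} {p : σ → ℂ} {e : A'.ι → A.ι} (h : A.IsLoc A' p e)
    (hp : ∃ j, A.l j ⬝ᵥ p ≠ 0) : Fintype.card A'.ι < Fintype.card A.ι := by
  refine Fintype.card_lt_of_injective_not_surjective e h.inj fun hs => ?_
  obtain ⟨j, hj⟩ := hp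
  exact hj ((h.mem j).1 (hs j))

theorem IsLoc.J_le {A' : Datum σ} {p : σ → ℂ} {e : A'.ι → A.ι} (h : A.IsLoc A' p e) :
    A.J ≤ A'.J := by
  unfold Datum.J JF
  refine le_iInf fun i => le_iInf fun j => le_iInf fun hij => ?_
  have h1 : PF A'.l i j = PF A.l (e i) (e j) := by
    unfold PF
    rw [h.l, h.l]
  rw [h1]
  exact iInf_le_of_le (e i) (iInf_le_of_le (e j) (iInf_le_of_le (h.inj.ne hij) le_rfl))

theorem IsLoc.Js_le {A' : Datum σ} {p : σ → ℂ} {e : A'.ι → A.ι} (h : A.IsLoc A' p e) (m : ℕ) :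
    A.Js m ≤ A'.Js m := by
  unfold Datum.Js JFs
  refine le_iInf fun i => le_iInf fun j => le_iInf fun hij => ?_
  have h1 : PF A'.l i j = PF A.l (e i) (e j) := by
    unfold PF
    rw [h.l, h.l]
  rw [h1]
  exact iInf_le_of_le (e i) (iInf_le_of_le (e j) (iInf_le_of_le (h.inj.ne hij) le_rfl))

/-- `h = ∏_{l j ⬝ p ≠ 0} ℓ_j`. -/
theorem IsLoc.exists_h {A' : Datum σ} {p : σ → ℂ} {e : A'.ι → A.ι} (h : A.IsLoc A' p e) :
    ∀ f ∈ A'.J, (open Classical in
      ∏ j ∈ Finset.univ.filter (fun j => A.l j ⬝ᵥ p ≠ 0), lf (A.l j)) * f ∈ A.J := by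
  classical
  intro f hf
  unfold Datum.J JF at hf ⊢
  simp only [Ideal.mem_iInf] at hf ⊢
  intro i j hij
  by_cases hi : A.l i ⬝ᵥ p = 0
  · by_cases hj : A.l j ⬝ᵥ p = 0
    · obtain ⟨i', rfl⟩ := (h.mem i).2 hi
      obtain ⟨j', rfl⟩ := (h.mem j).2 hj
      have h1 : PF A'.l i' j' = PF A.l (e i') (e j') := by
        unfold PF
        rw [h.l, h.l]
      rw [← h1]
      exact Ideal.mul_mem_left _ _ (hf i' j' fun h' => hij (by rw [h']))
    · refine Ideal.mul_mem_right _ _ ?_
      refine Ideal.mem_of_dvd _ ?_ (Ideal.subset_span (Set.mem_insert_of_mem _ rfl))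
      exact Finset.dvd_prod_of_mem _ (Finset.mem_filter.2 ⟨Finset.mem_univ _, hj⟩)
  · refine Ideal.mul_mem_right _ _ ?_
    refine Ideal.mem_of_dvd _ ?_ (Ideal.subset_span (Set.mem_insert _ _))
    exact Finset.dvd_prod_of_mem _ (Finset.mem_filter.2 ⟨Finset.mem_univ _, hi⟩)

end Datum

end Pool.Agent.Lib.P4a9818
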