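import Pool.Agent.Lib.P4a9818.GDefs

/-!
# P4a9818.RKm : local generators and the rank of the syzygy matrix
-/

namespace Pool.Agent.Lib.P4a9818

open MvPolynomial

variable {R κ : Type} [CommRing R] [IsDomain R] [Fintype κ] [DecidableEq κ]

theorem rank_general {m : ℕ} (hm : m + 1 = Fintype.card κ) (F : κ → R) (Φ : Fin m → κ → R)
    (hsyz : ∀ η : κ → R, ∑ k, η k * F k = 0 → η ∈ Submodule.span R (Set.range Φ))
    {c : ℕ} (hc : 1 ≤ c) (h : Fin c → R) (hh : ∀ t, h t ∈ Ideal.span (Set.range F)) (s : R)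
    (hgen : ∀ k, s * F k ∈ Ideal.span (Set.range h))
    {k : Type} [Field k] (φ : R →+* k) (hs : φ s ≠ 0)
    (y : Fin c → Fin m → k) (hy : ∀ t l, ∑ i, y t i * φ (Φ i l) = 0) :
    ¬ LinearIndependent k y := by
  intro hli
  have hgen' : ∀ l, ∃ u : Fin c → R, ∑ t, u t * h t = s * F l := fun l => by
    have := hgen l
    rwa [Ideal.mem_span_range_iff_exists_fun] at this
  have hh' : ∀ t, ∃ w : κ → R, ∑ k', w k' * F k' = h t := fun t => by
    have := hh t
    rwa [Ideal.mem_span_range_iff_exists_fun] at this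
  choose u hu using hgen'
  choose w hw using hh'
  -- the linear map
  let T : (Fin m → k) × (Fin c → k) →ₗ[k] (κ → k) :=
    { toFun := fun p l => ∑ i, p.1 i * φ (Φ i l) + ∑ t, p.2 t * φ (w t l)
      map_add' := by
        intro p q
        funext l
        simp only [Prod.fst_add, Prod.snd_add, Pi.add_apply, add_mul, Finset.sum_add_distrib]
        ring
      map_smul' := by
        intro r p
        funext l
        simp only [Prod.smul_fst, Prod.smul_snd, Pi.smul_apply, smul_eq_mul, RingHom.id_apply,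
          mul_add, Finset.mul_sum, mul_assoc] }
  have hT : ∀ p l, T p l = ∑ i, p.1 i * φ (Φ i l) + ∑ t, p.2 t * φ (w t l) := fun _ _ => rfl
  have hsing : ∀ l, Pi.single l (φ s) ∈ LinearMap.range T := by
    intro l
    have h1 := hsyz (fun k' => (Pi.single l s : κ → R) k' - ∑ t, w t k' * u l t) (by
      simp only [sub_mul, Finset.sum_sub_distrib]
      have e1 : ∑ x, (Pi.single l s : κ → R) x * F x = s * F l := by
        rw [Finset.sum_eq_single l]
        · simp
        · intro b _ hb; simp [hb]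
        · simp
      have e2 : ∑ x, (∑ t, w t x * u l t) * F x = s * F l := by
        rw [← hu l]
        simp only [Finset.sum_mul]
        rw [Finset.sum_comm]
        refine Finset.sum_congr rfl fun t _ => ?_
        rw [← hw t, Finset.mul_sum]
        refine Finset.sum_congr rfl fun x _ => ?_
        ring
      rw [e1, e2, sub_self])
    obtain ⟨a, ha⟩ := (Submodule.mem_span_range_iff_exists_fun R).1 h1
    refine ⟨(fun i => φ (a i), fun t => φ (u l t)), ?_⟩
    funext k'
    rw [hT]
    have h2 := congrArg φ (congrFun ha k')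
    simp only [Finset.sum_apply, Pi.smul_apply, smul_eq_mul, map_sum, map_mul, map_sub] at h2
    rw [h2]
    have h3 : φ ((Pi.single l s : κ → R) k') = (Pi.single l (φ s) : κ → k) k' := by
      by_cases hk : k' = l
      · subst hk; simp
      · simp [hk]
    rw [h3]
    have h4 : ∀ t, φ (w t k') * φ (u l t) = φ (u l t) * φ (w t k') := fun t => mul_comm _ _
    simp only [h4]
    ring
  have hsurj : LinearMap.range T = ⊤ := by
    rw [eq_top_iff]
    intro x _
    have hx : x = ∑ l, (x l * (φ s)⁻¹) • (Pi.single l (φ s) : κ → k) := by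
      funext k'
      rw [Finset.sum_apply, Finset.sum_eq_single k']
      · simp only [Pi.smul_apply, Pi.single_eq_same, smul_eq_mul]
        rw [mul_assoc, inv_mul_cancel₀ hs, mul_one]
      · intro b _ hb
        simp [Ne.symm hb]
      · simp
    rw [hx]
    exact Submodule.sum_mem _ fun l _ => Submodule.smul_mem _ _ (hsing l)
  have hrank := LinearMap.finrank_range_add_finrank_ker T
  rw [hsurj, finrank_top, Module.finrank_prod, Module.finrank_fintype_fun_eq_card,
    Module.finrank_fintype_fun_eq_card, Module.finrank_fintype_fun_eq_card, Fintype.card_fin,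
    Fintype.card_fin] at hrank
  -- the family in the kernel
  let y' : Fin c → LinearMap.ker T := fun t => ⟨(y t, 0), by
    rw [LinearMap.mem_ker]
    funext l
    rw [hT]
    simp [hy t l]⟩
  have hli' : LinearIndependent k y' := by
    refine LinearIndependent.of_comp ((LinearMap.fst k (Fin m → k) (Fin c → k)).comp
      (LinearMap.ker T).subtype) ?_
    exact hli
  have hcard := hli'.fintype_card_le_finrank
  rw [Fintype.card_fin] at hcard
  omega

theorem ind_of_not_le {m : ℕ} (hm : m + 1 = Fintype.card κ) (F : κ → R) (Φ : Fin m → κ → R)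
    (hsyz : ∀ η : κ → R, ∑ k, η k * F k = 0 → η ∈ Submodule.span R (Set.range Φ))
    (𝔮 : Ideal R) (hq : 𝔮.IsPrime) (k0 : κ) (hk0 : F k0 ∉ 𝔮) : Ind Φ 𝔮 := by
  intro a ha
  let φ : R →+* FractionRing (R ⧸ 𝔮) :=
    (algebraMap (R ⧸ 𝔮) (FractionRing (R ⧸ 𝔮))).comp (Ideal.Quotient.mk 𝔮)
  have hφ : ∀ b, φ b = 0 ↔ b ∈ 𝔮 := by
    intro b
    rw [show φ b = algebraMap (R ⧸ 𝔮) (FractionRing (R ⧸ 𝔮)) (Ideal.Quotient.mk 𝔮 b) from rfl]
    rw [map_eq_zero_iff _ (IsFractionRing.injective (R ⧸ 𝔮) (FractionRing (R ⧸ 𝔮))),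
      Ideal.Quotient.eq_zero_iff_mem]
  have h1 := rank_general hm F Φ hsyz (c := 1) le_rfl (fun _ => F k0)
    (fun _ => Ideal.subset_span ⟨k0, rfl⟩) (F k0)
    (fun k => Ideal.mul_mem_right _ _ (Ideal.subset_span ⟨0, rfl⟩)) φ
    (fun h => hk0 ((hφ _).1 h)) (fun _ i => φ (a i)) (by
      intro _ l
      have := (hφ _).2 (ha l)
      simpa only [map_sum, map_mul] using this)
  rw [linearIndependent_unique_iff, not_not] at h1
  intro i
  exact (hφ _).1 (congrFun h1 i)


theorem ind_bot {m : ℕ} (Φ : Fin m → κ → R) (hΦ : LinearIndependent R Φ) : Ind Φ ⊥ := by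
  intro a ha i
  rw [Fintype.linearIndependent_iff] at hΦ
  rw [Ideal.mem_bot]
  refine hΦ a ?_ i
  funext k
  have := ha k
  rw [Ideal.mem_bot] at this
  simpa using this

end Pool.Agent.Lib.P4a9818
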