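import Pool.Agent.Lib.P4a9818.Elim
import Pool.Agent.Lib.P4a9818.LAf
import Pool.Agent.Lib.P4a9818.RKm

/-!
# P4a9818.LocTF : the local step for torsion-freeness

`A = Localization.AtPrime 𝔭`: a local domain, unique factorization domain,
`ι = algebraMap R A`, `μ = MvPolynomial.map ι`, `R = MvPolynomial σ ℂ`.
We eliminate variables over `A` (`elim`), apply `laf`, and clear denominators.
-/

namespace Pool.Agent.Lib.P4a9818

open MvPolynomial

namespace LocTFAux

section gen

variable {R A : Type} [CommRing R] [CommRing A] [Algebra R A] (M : Submonoid R)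
  [IsLocalization M A]

include M in
/-- Weakly regular sequences localize. -/
theorem reg_loc {r : ℕ} {x : Fin r → R} (hx : Reg x) : Reg (fun t => algebraMap R A (x t)) := by
  intro t b hb
  have himg : (fun t => algebraMap R A (x t)) '' {s | s < t}
      = (algebraMap R A) '' (x '' {s | s < t}) := by
    rw [Set.image_image]
  rw [himg, ← Ideal.map_span] at hb ⊢
  obtain ⟨a, s, rfl⟩ := IsLocalization.exists_mk'_eq M b
  have h1 : algebraMap R A (x t * a) ∈ Ideal.map (algebraMap R A)
      (Ideal.span (x '' {s | s < t})) := by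
    have h2 := Ideal.mul_mem_left _ (algebraMap R A s) hb
    have h3 : algebraMap R A s * (algebraMap R A (x t) * IsLocalization.mk' A a s)
        = algebraMap R A (x t * a) := by
      rw [mul_left_comm, IsLocalization.mk'_spec', map_mul]
    rwa [h3] at h2
  rw [IsLocalization.algebraMap_mem_map_algebraMap_iff M] at h1
  obtain ⟨m, hm, hma⟩ := h1
  rw [mul_left_comm] at hma
  have h4 := hx t _ hma
  rw [IsLocalization.mk'_mem_map_algebraMap_iff]
  exact ⟨m, hm, h4⟩

/-- Independence modulo a prime localizes. -/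
theorem ind_loc {κ : Type} [Fintype κ] {j : ℕ} (Φ : Fin j → κ → R) (𝔮 : Ideal R)
    (hq : 𝔮.IsPrime) (hd : ∀ s ∈ M, s ∉ 𝔮) (hI : Ind Φ 𝔮) :
    Ind (fun i k => algebraMap R A (Φ i k)) (𝔮.map (algebraMap R A)) := by
  intro a ha
  obtain ⟨s, hs⟩ := IsLocalization.exist_integer_multiples_of_finite M a
  choose b hb using hs
  have hb' : ∀ i, algebraMap R A (b i) = algebraMap R A s * a i := by
    intro i
    rw [hb i, Algebra.smul_def]
  have h1 : ∀ k, ∑ i, b i * Φ i k ∈ 𝔮 := by
    intro k
    have h2 := Ideal.mul_mem_left _ (algebraMap R A s) (ha k)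
    have h3 : algebraMap R A s * ∑ i, a i * algebraMap R A (Φ i k)
        = algebraMap R A (∑ i, b i * Φ i k) := by
      rw [map_sum, Finset.mul_sum]
      refine Finset.sum_congr rfl fun i _ => ?_
      rw [map_mul, hb' i, mul_assoc]
    rw [h3, IsLocalization.algebraMap_mem_map_algebraMap_iff M] at h2
    obtain ⟨m, hm, hmq⟩ := h2
    exact (hq.mem_or_mem hmq).resolve_left (hd m hm)
  intro i
  have h5 := hI b h1 i
  have h6 : algebraMap R A s * a i ∈ 𝔮.map (algebraMap R A) := by
    rw [← hb' i]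
    exact Ideal.mem_map_of_mem _ h5
  exact (Ideal.unit_mul_mem_iff_mem _ (IsLocalization.map_units A s)).mp h6

end gen

section ext

variable {R κ : Type} [CommRing R] [Fintype κ] {j m : ℕ}

theorem sum_extend (hj : j ≤ m) (a : Fin j → R) (f : Fin m → R) :
    ∑ i, Function.extend (Fin.castLE hj) a 0 i * f i = ∑ i, a i * f (Fin.castLE hj i) := by
  have hinj : Function.Injective (Fin.castLE hj) := Fin.castLE_injective hj
  symm
  refine Fintype.sum_of_injective (Fin.castLE hj) hinj _ _ ?_ ?_
  · intro i hi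
    rw [Function.extend_apply' _ _ _ (fun ⟨x, hx⟩ => hi ⟨x, hx⟩)]
    simp
  · intro i
    rw [hinj.extend_apply]

theorem ind_castLE (hj : j ≤ m) (Φ : Fin m → κ → R) (𝔮 : Ideal R) (h : Ind Φ 𝔮) :
    Ind (fun i : Fin j => Φ (Fin.castLE hj i)) 𝔮 := by
  intro a ha i
  have hinj : Function.Injective (Fin.castLE hj) := Fin.castLE_injective hj
  have h1 := h (Function.extend (Fin.castLE hj) a 0) (fun k => by
    rw [sum_extend hj a (fun i => Φ i k)]
    exact ha k) (Fin.castLE hj i)
  rwa [hinj.extend_apply] at h1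

theorem Iu_eq_range (hj : j ≤ m) (Φ : Fin m → κ → R) :
    Iu Φ j = Ideal.span (Set.range fun i : Fin j => hat (Φ (Fin.castLE hj i))) := by
  unfold Iu
  congr 1
  ext b
  constructor
  · rintro ⟨i, hi, rfl⟩
    exact ⟨⟨i.val, hi⟩, rfl⟩
  · rintro ⟨i, rfl⟩
    exact ⟨Fin.castLE hj i, i.isLt, rfl⟩

end ext

theorem map_hat {R A κ : Type} [CommRing R] [CommRing A] [Fintype κ] (f : R →+* A) (v : κ → R) :
    MvPolynomial.map f (hat v) = hat (fun k => f (v k)) := by
  unfold hat
  rw [map_sum]
  refine Finset.sum_congr rfl fun k _ => ?_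
  rw [map_mul, map_C, map_X]

/-- Clearing denominators in ideals of polynomials. -/
theorem clear {R A κ : Type} [CommRing R] [CommRing A] [Algebra R A] (M : Submonoid R)
    [IsLocalization M A] (I : Ideal (MvPolynomial κ R)) (b : MvPolynomial κ R)
    (hb : MvPolynomial.map (algebraMap R A) b ∈ I.map (MvPolynomial.map (algebraMap R A))) :
    ∃ s ∈ M, C s * b ∈ I := by
  let _ : Algebra (MvPolynomial κ R) (MvPolynomial κ A) := algebraMvPolynomial
  have : IsLocalization (M.map (C (σ := κ))) (MvPolynomial κ A) :=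
    MvPolynomial.isLocalization M A
  have h1 : (algebraMap (MvPolynomial κ R) (MvPolynomial κ A)) b
      ∈ I.map (algebraMap (MvPolynomial κ R) (MvPolynomial κ A)) := by
    rw [algebraMap_def]
    exact hb
  rw [IsLocalization.algebraMap_mem_map_algebraMap_iff (M.map (C (σ := κ)))] at h1
  obtain ⟨m, ⟨s, hs, rfl⟩, hm⟩ := h1
  exact ⟨s, hs, hm⟩

/-- A prime element of the localization: the ideal it generates comes from a principal prime
ideal generated by a prime element. -/
theorem prime_loc {R A : Type} [CommRing R] [IsDomain R] [UniqueFactorizationMonoid R]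
    [CommRing A] [IsDomain A] [Algebra R A] (M : Submonoid R) (hM : (0 : R) ∉ M)
    [IsLocalization M A] (p : A) (hp : Prime p) :
    ∃ p' : R, Prime p' ∧ (∀ s ∈ M, s ∉ Ideal.span {p'}) ∧
      (Ideal.span {p'}).map (algebraMap R A) = Ideal.span {p} := by
  have hM0 : M ≤ nonZeroDivisors R := by
    intro s hs
    rw [mem_nonZeroDivisors_iff_ne_zero]
    rintro rfl
    exact hM hs
  have hinj : Function.Injective (algebraMap R A) := IsLocalization.injective A hM0
  have hpp : (Ideal.span {p}).IsPrime := (Ideal.span_singleton_prime hp.ne_zero).mpr hp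
  have hqp : ((Ideal.span {p}).comap (algebraMap R A)).IsPrime := Ideal.IsPrime.comap _
  have hmap : ((Ideal.span {p}).comap (algebraMap R A)).map (algebraMap R A) = Ideal.span {p} :=
    IsLocalization.map_under M A (Ideal.span {p})
  have hne : ((Ideal.span {p}).comap (algebraMap R A)) ≠ ⊥ := by
    intro h
    rw [h, Ideal.map_bot] at hmap
    have : p ∈ (⊥ : Ideal A) := by
      rw [hmap]; exact Ideal.mem_span_singleton_self p
    exact hp.ne_zero (by simpa using this)
  obtain ⟨p', hp'mem, hp'⟩ := hqp.exists_mem_prime_of_ne_bot hne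
  have hdis : ∀ s ∈ M, s ∉ Ideal.span {p'} := by
    intro s hs hsp
    have h1 : s ∈ (Ideal.span {p}).comap (algebraMap R A) :=
      (Ideal.span_singleton_le_iff_mem _).mpr hp'mem hsp
    have h2 : algebraMap R A s ∈ Ideal.span {p} := h1
    exact hpp.ne_top (Ideal.eq_top_of_isUnit_mem _ h2 (IsLocalization.map_units A ⟨s, hs⟩))
  refine ⟨p', hp', hdis, ?_⟩
  have h3 : ((Ideal.span {p'}).map (algebraMap R A)).IsPrime := by
    refine IsLocalization.isPrime_of_isPrime_disjoint M A _
      ((Ideal.span_singleton_prime hp'.ne_zero).mpr hp') ?_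
    rw [Set.disjoint_left]
    exact fun s hs => hdis s hs
  rw [Ideal.map_span, Set.image_singleton] at h3 ⊢
  have hne' : algebraMap R A p' ≠ 0 := by
    intro h
    exact hp'.ne_zero (hinj (by rw [h, map_zero]))
  have h4 : Prime (algebraMap R A p') := (Ideal.span_singleton_prime hne').mp h3
  have h5 : p ∣ algebraMap R A p' := Ideal.mem_span_singleton.mp hp'mem
  have h6 : Associated p (algebraMap R A p') := (hp.dvd_prime_iff_associated h4).mp h5
  exact Ideal.span_singleton_eq_span_singleton.mpr h6.symm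


/-- The local step over an abstract localization. -/
theorem core {R A κ : Type} [CommRing R] [IsDomain R] [UniqueFactorizationMonoid R]
    [CommRing A] [IsDomain A] [IsLocalRing A] [UniqueFactorizationMonoid A] [Algebra R A]
    (M : Submonoid R) (hM : (0 : R) ∉ M) [IsLocalization M A] [Fintype κ] [DecidableEq κ]
    {m : ℕ} (hcard : m + 1 = Fintype.card κ) (F : κ → R) (Φ : Fin m → κ → R)
    (hindep : LinearIndependent R Φ)
    (hsyz : ∀ η : κ → R, ∑ k, η k * F k = 0 → η ∈ Submodule.span R (Set.range Φ))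
    (hnodvd : ∀ p : R, Prime p → ∃ k, ¬ p ∣ F k)
    {c : ℕ} (hc1 : 1 ≤ c) (hc3 : c ≤ 3) (x : Fin c → R) (hx : Reg x) (h : Fin c → R)
    (hh : ∀ t, h t ∈ Ideal.span (Set.range F)) (s : R) (hs : s ∈ M)
    (hgen : ∀ k, s * F k ∈ Ideal.span (Set.range h)) {j : ℕ} (hj : j ≤ m)
    (a : MvPolynomial κ R) (ha : ∀ t, C (x t) * a ∈ Iu Φ j) :
    ∃ s' ∈ M, C s' * a ∈ Iu Φ j := by
  let ΦA : Fin j → κ → A := fun i k => algebraMap R A (Φ (Fin.castLE hj i) k)
  have hinjj : Function.Injective (Fin.castLE hj) := Fin.castLE_injective hj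
  -- the ideal
  have hIu : (Iu Φ j).map (MvPolynomial.map (algebraMap R A))
      = Ideal.span (Set.range fun i => hat (ΦA i)) := by
    rw [Iu_eq_range hj, Ideal.map_span, ← Set.range_comp]
    congr 2
    funext i
    simp only [Function.comp]
    rw [map_hat]
  have hc : ∀ y : Fin c → Fin j → IsLocalRing.ResidueField A,
      (∀ t k, ∑ i, y t i * IsLocalRing.residue A (ΦA i k) = 0) →
        ¬ LinearIndependent (IsLocalRing.ResidueField A) y := by
    intro y hy hli
    let φ : R →+* IsLocalRing.ResidueField A := (IsLocalRing.residue A).comp (algebraMap R A)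
    have hφs : φ s ≠ 0 := by
      have hu : IsUnit (algebraMap R A s) := IsLocalization.map_units A ⟨s, hs⟩
      exact (hu.map (IsLocalRing.residue A)).ne_zero
    refine rank_general (k := IsLocalRing.ResidueField A) hcard F Φ hsyz hc1 h hh s hgen φ hφs
      (fun t => Function.extend (Fin.castLE hj) (y t) 0) ?_ ?_
    · intro t l
      rw [sum_extend hj (y t) (fun i => φ (Φ i l))]
      exact hy t l
    · refine LinearIndependent.of_comp
        (LinearMap.funLeft (IsLocalRing.ResidueField A) (IsLocalRing.ResidueField A)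
          (Fin.castLE hj)) ?_
      have : (LinearMap.funLeft (IsLocalRing.ResidueField A) (IsLocalRing.ResidueField A)
          (Fin.castLE hj)) ∘ (fun t => Function.extend (Fin.castLE hj) (y t) 0) = y := by
        funext t i
        simp only [Function.comp, LinearMap.funLeft_apply]
        rw [hinjj.extend_apply]
      rw [this]
      exact hli
  obtain ⟨κ', _, j', ψ, θ, hj', hθ, hInd⟩ := elim ΦA c hc
  have hxA : Reg (fun t => algebraMap R A (x t)) := reg_loc M hx
  -- independence over `A`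
  have h0 : Ind ψ ⊥ := by
    refine hInd ⊥ Ideal.isPrime_bot ?_
    have h1 : Ind Φ ⊥ := ind_bot Φ hindep
    have h2 := ind_loc (A := A) M (fun i : Fin j => Φ (Fin.castLE hj i)) ⊥
      Ideal.isPrime_bot (by
        intro s hs h0
        rw [Ideal.mem_bot] at h0
        subst h0
        exact hM hs) (ind_castLE hj Φ ⊥ h1)
    rw [Ideal.map_bot] at h2
    exact h2
  have hpA : ∀ p : A, Prime p → Ind ψ (Ideal.span {p}) := by
    intro p hpp
    refine hInd _ ((Ideal.span_singleton_prime hpp.ne_zero).mpr hpp) ?_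
    obtain ⟨p', hp', hdis, hmap⟩ := prime_loc M hM p hpp
    obtain ⟨k0, hk0⟩ := hnodvd p' hp'
    have hq : (Ideal.span {p'}).IsPrime := (Ideal.span_singleton_prime hp'.ne_zero).mpr hp'
    have h1 : Ind Φ (Ideal.span {p'}) :=
      ind_of_not_le hcard F Φ hsyz _ hq k0 (fun hmem => hk0 (Ideal.mem_span_singleton.mp hmem))
    have h2 := ind_loc (A := A) M (fun i : Fin j => Φ (Fin.castLE hj i))
      (Ideal.span {p'}) hq hdis (ind_castLE hj Φ _ h1)
    rw [hmap] at h2
    exact h2
  have hfin : θ (MvPolynomial.map (algebraMap R A) a)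
      ∈ Ideal.span (Set.range fun i => hat (ψ i)) := by
    refine laf hc3 hj' _ hxA ψ h0 hpA _ ?_
    intro t
    have h1 : MvPolynomial.map (algebraMap R A) (C (x t) * a)
        ∈ Ideal.span (Set.range fun i => hat (ΦA i)) := by
      rw [← hIu]
      exact Ideal.mem_map_of_mem _ (ha t)
    have h2 := (hθ _).mp h1
    rw [map_mul, map_C, map_mul] at h2
    have h3 : θ (C (algebraMap R A (x t))) = C (algebraMap R A (x t)) := by
      have := θ.commutes (algebraMap R A (x t))
      rwa [MvPolynomial.algebraMap_eq, MvPolynomial.algebraMap_eq] at this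
    rw [h3] at h2
    exact h2
  have hfin2 := (hθ _).mpr hfin
  rw [← hIu] at hfin2
  exact clear M (Iu Φ j) a hfin2

end LocTFAux

open LocTFAux

variable {σ κ : Type} [Fintype σ] [Fintype κ] [DecidableEq κ]

theorem loc_tf {F : κ → MvPolynomial σ ℂ} {D m : ℕ} {Φ : Fin m → κ → MvPolynomial σ ℂ}
    {b : Fin m → ℕ} (hP : Pres F D m Φ b) (𝔭 : Ideal (MvPolynomial σ ℂ)) (hp : 𝔭.IsPrime)
    {c : ℕ} (hc1 : 1 ≤ c) (hc3 : c ≤ 3) (x : Fin c → MvPolynomial σ ℂ) (hx : Reg x)
    (hxp : ∀ t, x t ∈ 𝔭) (h : Fin c → MvPolynomial σ ℂ)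
    (hh : ∀ t, h t ∈ Ideal.span (Set.range F)) (s : MvPolynomial σ ℂ) (hs : s ∉ 𝔭)
    (hgen : ∀ k, s * F k ∈ Ideal.span (Set.range h)) {j : ℕ} (hj : j ≤ m)
    (a : MvPolynomial κ (MvPolynomial σ ℂ)) (ha : ∀ t, C (x t) * a ∈ Iu Φ j) :
    ∃ s' : MvPolynomial σ ℂ, s' ∉ 𝔭 ∧ C s' * a ∈ Iu Φ j := by
  have := hp
  have hM : (0 : MvPolynomial σ ℂ) ∉ 𝔭.primeCompl := fun h0 => h0 𝔭.zero_mem
  have hM0 : 𝔭.primeCompl ≤ nonZeroDivisors (MvPolynomial σ ℂ) := by
    intro s hs
    rw [mem_nonZeroDivisors_iff_ne_zero]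
    rintro rfl
    exact hM hs
  have : IsDomain (Localization.AtPrime 𝔭) := IsLocalization.isDomain_localization hM0
  have : UniqueFactorizationMonoid (Localization.AtPrime 𝔭) := inferInstanceAs
    (UniqueFactorizationMonoid (Localization 𝔭.primeCompl))
  exact core (A := Localization.AtPrime 𝔭) 𝔭.primeCompl hM hP.card F Φ hP.indep
    (fun η hη => (hP.syz η).mpr hη) hP.nodvd hc1 hc3 x hx h hh s hs hgen hj a ha

end Pool.Agent.Lib.P4a9818
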