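import Pool.Agent.Lib.P4a9818.NZDa

/-!
# P4a9818.NZD : non-zero-divisors modulo ideals in separate variables   (estimate 1 h)

* `nzd`: by `exists_functional`: `Λ k (i2 q * f) = q * Λ k f ∈ 𝔟`, so `Λ k f ∈ 𝔟` for all `k`.
* `nzd'` is the same with the roles of `σ` and `τ` exchanged: transport along the isomorphism
  `renameEquiv ℂ (Equiv.sumComm _ _)`, which exchanges `i1` and `i2`.
-/

namespace Pool.Agent.Lib.P4a9818

open MvPolynomial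

variable {σ τ : Type} [Fintype σ] [Fintype τ] [DecidableEq σ] [DecidableEq τ]

theorem nzd (𝔞 : Ideal (MvPolynomial σ ℂ)) (𝔟 : Ideal (MvPolynomial τ ℂ)) (q : MvPolynomial τ ℂ)
    (hq : ∀ h, q * h ∈ 𝔟 → h ∈ 𝔟) (f : MvPolynomial (σ ⊕ τ) ℂ)
    (hf : i2 σ τ q * f ∈ 𝔞.map (i1 σ τ) ⊔ 𝔟.map (i2 σ τ)) :
    f ∈ 𝔞.map (i1 σ τ) ⊔ 𝔟.map (i2 σ τ) := by
  obtain ⟨K, Λ, h1, h2⟩ := exists_functional (σ := σ) (τ := τ) 𝔞
  rw [h2] at hf ⊢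
  intro k
  apply hq
  rw [← h1]
  exact hf k

omit [Fintype σ] [Fintype τ] [DecidableEq σ] [DecidableEq τ] in
private theorem swap_mem (𝔞 : Ideal (MvPolynomial σ ℂ)) (𝔟 : Ideal (MvPolynomial τ ℂ))
    (f : MvPolynomial (σ ⊕ τ) ℂ) (hf : f ∈ 𝔞.map (i1 σ τ) ⊔ 𝔟.map (i2 σ τ)) :
    rename Sum.swap f ∈ 𝔟.map (i1 τ σ) ⊔ 𝔞.map (i2 τ σ) := by
  have h1 : 𝔞.map (i1 σ τ) ⊔ 𝔟.map (i2 σ τ) ≤
      (𝔟.map (i1 τ σ) ⊔ 𝔞.map (i2 τ σ)).comap (rename (R := ℂ) (Sum.swap (α := σ) (β := τ))) := by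
    rw [sup_le_iff]
    constructor
    · rw [Ideal.map_le_iff_le_comap]
      intro g hg
      rw [Ideal.mem_comap, Ideal.mem_comap]
      have e : rename Sum.swap (i1 σ τ g) = i2 τ σ g := by
        rw [i1, i2, rename_rename]
        rfl
      rw [e]
      exact Ideal.mem_sup_right (Ideal.mem_map_of_mem _ hg)
    · rw [Ideal.map_le_iff_le_comap]
      intro g hg
      rw [Ideal.mem_comap, Ideal.mem_comap]
      have e : rename Sum.swap (i2 σ τ g) = i1 τ σ g := by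
        rw [i1, i2, rename_rename]
        rfl
      rw [e]
      exact Ideal.mem_sup_left (Ideal.mem_map_of_mem _ hg)
  exact h1 hf

omit [Fintype σ] [Fintype τ] [DecidableEq σ] [DecidableEq τ] in
private theorem swap_swap (f : MvPolynomial (σ ⊕ τ) ℂ) :
    rename Sum.swap (rename (Sum.swap (α := σ) (β := τ)) f) = f := by
  rw [rename_rename]
  have e : (Sum.swap ∘ Sum.swap : σ ⊕ τ → σ ⊕ τ) = id := by
    funext x
    cases x <;> rfl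
  rw [e, rename_id, AlgHom.id_apply]

theorem nzd' (𝔞 : Ideal (MvPolynomial σ ℂ)) (𝔟 : Ideal (MvPolynomial τ ℂ)) (q : MvPolynomial σ ℂ)
    (hq : ∀ h, q * h ∈ 𝔞 → h ∈ 𝔞) (f : MvPolynomial (σ ⊕ τ) ℂ)
    (hf : i1 σ τ q * f ∈ 𝔞.map (i1 σ τ) ⊔ 𝔟.map (i2 σ τ)) :
    f ∈ 𝔞.map (i1 σ τ) ⊔ 𝔟.map (i2 σ τ) := by
  have h1 := swap_mem 𝔞 𝔟 _ hf
  have e : rename Sum.swap (i1 σ τ q) = i2 τ σ q := by
    rw [i1, i2, rename_rename]
    rfl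
  rw [map_mul, e] at h1
  have h2 := nzd 𝔟 𝔞 q hq _ h1
  have h3 := swap_mem 𝔟 𝔞 _ h2
  rwa [swap_swap] at h3

end Pool.Agent.Lib.P4a9818
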