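import Pool.Agent.Lib.P4a9818.LinH

/-!
# P4a9818.NZDa : polynomials in two groups of variables, extension of ideals
-/

namespace Pool.Agent.Lib.P4a9818

open MvPolynomial

variable {σ τ : Type} [Fintype σ] [Fintype τ] [DecidableEq σ] [DecidableEq τ]

/-- The inclusion of the polynomials in the first group of variables. -/
noncomputable def i1 (σ τ : Type) : MvPolynomial σ ℂ →ₐ[ℂ] MvPolynomial (σ ⊕ τ) ℂ :=
  rename Sum.inl

/-- The inclusion of the polynomials in the second group of variables. -/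
noncomputable def i2 (σ τ : Type) : MvPolynomial τ ℂ →ₐ[ℂ] MvPolynomial (σ ⊕ τ) ℂ :=
  rename Sum.inr

theorem i1_lf (v : σ → ℂ) : i1 σ τ (lf v) = lf (Sum.elim v 0) := by
  rw [i1, lf, lf, Fintype.sum_sum_type, map_sum]
  simp

theorem i2_lf (v : τ → ℂ) : i2 σ τ (lf v) = lf (Sum.elim 0 v) := by
  rw [i2, lf, lf, Fintype.sum_sum_type, map_sum]
  simp

namespace NZDaAux

omit [Fintype σ] [Fintype τ] [DecidableEq σ] [DecidableEq τ]

theorem mem_map_iff {R S : Type} [CommRing R] [CommRing S] (j : R →+* S) {κ : Type}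
    (e : S ≃+* MvPolynomial κ R) (h : ∀ r, e (j r) = C r) (I : Ideal R) (f : S) :
    f ∈ I.map j ↔ ∀ m, coeff m (e f) ∈ I := by
  have h1 : (I.map j).map (e : S →+* MvPolynomial κ R) = I.map C := by
    rw [Ideal.map_map]
    congr 1
    ext1 r
    exact h r
  rw [← MvPolynomial.mem_map_C_iff, ← h1]
  constructor
  · intro hf
    exact Ideal.mem_map_of_mem _ hf
  · intro hf
    obtain ⟨x, hx, hx'⟩ := (Ideal.mem_map_iff_of_surjective (e : S →+* MvPolynomial κ R)
      e.surjective).1 hf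
    have : x = f := e.injective hx'
    rw [← this]
    exact hx

theorem iInf_map {R S : Type} [CommRing R] [CommRing S] (j : R →+* S) {κ : Type}
    (e : S ≃+* MvPolynomial κ R) (h : ∀ r, e (j r) = C r) {ι : Sort*} (I : ι → Ideal R) :
    (⨅ i, I i).map j = ⨅ i, (I i).map j := by
  ext f
  rw [mem_map_iff j e h, Submodule.mem_iInf]
  simp only [mem_map_iff j e h, Submodule.mem_iInf]
  exact ⟨fun h i m => h m i, fun h m i => h i m⟩

theorem e2 (f : MvPolynomial τ ℂ) : sumAlgEquiv ℂ σ τ (i2 σ τ f) = C f := by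
  have := DFunLike.congr_fun (sumAlgEquiv_comp_rename_inr (R := ℂ) (S₁ := σ) (S₂ := τ)) f
  exact this

theorem e1 (f : MvPolynomial σ ℂ) : sumAlgEquiv ℂ σ τ (i1 σ τ f) = map C f := by
  have := DFunLike.congr_fun (sumAlgEquiv_comp_rename_inl (R := ℂ) (S₁ := σ) (S₂ := τ)) f
  exact this

/-- every polynomial is a sum of products -/
theorem ind {P : MvPolynomial (σ ⊕ τ) ℂ → Prop} (hadd : ∀ f g, P f → P g → P (f + g))
    (hm : ∀ g h, P (i1 σ τ g * i2 σ τ h)) (f : MvPolynomial (σ ⊕ τ) ℂ) : P f := by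
  have key : ∀ f : MvPolynomial (σ ⊕ τ) ℂ, ∀ g h, P (f * (i1 σ τ g * i2 σ τ h)) := by
    intro f
    induction f using MvPolynomial.induction_on with
    | C a =>
      intro g h
      have h1 : (C a : MvPolynomial (σ ⊕ τ) ℂ) = i1 σ τ (C a) := by
        rw [i1, rename_C]
      rw [h1, ← mul_assoc, ← map_mul]
      exact hm _ _
    | add p q hp hq =>
      intro g h
      rw [add_mul]
      exact hadd _ _ (hp g h) (hq g h)
    | mul_X p n hp =>
      intro g h
      rcases n with n | n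
      · have h1 : p * X (Sum.inl n) * (i1 σ τ g * i2 σ τ h) =
            p * (i1 σ τ (X n * g) * i2 σ τ h) := by
          rw [map_mul, show i1 σ τ (X n) = X (Sum.inl n) by rw [i1, rename_X]]
          ring
        rw [h1]
        exact hp _ _
      · have h1 : p * X (Sum.inr n) * (i1 σ τ g * i2 σ τ h) =
            p * (i1 σ τ g * i2 σ τ (X n * h)) := by
          rw [map_mul, show i2 σ τ (X n) = X (Sum.inr n) by rw [i2, rename_X]]
          ring
        rw [h1]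
        exact hp _ _
  have := key f 1 1
  rw [map_one, map_one, mul_one, mul_one] at this
  exact this

/-- The functional. -/
noncomputable def Lam (φ : MvPolynomial σ ℂ →ₗ[ℂ] ℂ) :
    MvPolynomial σ (MvPolynomial τ ℂ) →ₗ[MvPolynomial τ ℂ] MvPolynomial τ ℂ :=
  (basisMonomials σ (MvPolynomial τ ℂ)).constr (MvPolynomial τ ℂ)
    (fun m => C (φ (monomial m 1)))

theorem Lam_map (φ : MvPolynomial σ ℂ →ₗ[ℂ] ℂ) (g : MvPolynomial σ ℂ) :
    Lam (τ := τ) φ (map C g) = C (φ g) := by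
  induction g using MvPolynomial.induction_on' with
  | monomial u a =>
    have h1 : (map C (monomial u a) : MvPolynomial σ (MvPolynomial τ ℂ)) =
        (C a : MvPolynomial τ ℂ) • basisMonomials σ (MvPolynomial τ ℂ) u := by
      rw [map_monomial, coe_basisMonomials, smul_monomial, smul_eq_mul, mul_one]
    have h2 : (monomial u a : MvPolynomial σ ℂ) = a • monomial u 1 := by
      rw [smul_monomial, smul_eq_mul, mul_one]
    rw [h1, map_smul, Lam, Module.Basis.constr_basis, h2, map_smul, smul_eq_mul, smul_eq_mul,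
      map_mul]
  | add p q hp hq =>
    rw [map_add, map_add, hp, hq, map_add, map_add]

/-- The functional on the big ring. -/
noncomputable def Lm (φ : MvPolynomial σ ℂ →ₗ[ℂ] ℂ) :
    MvPolynomial (σ ⊕ τ) ℂ →+ MvPolynomial τ ℂ :=
  (Lam φ).toAddMonoidHom.comp (sumAlgEquiv ℂ σ τ : _ →+ _)

theorem Lm_apply (φ : MvPolynomial σ ℂ →ₗ[ℂ] ℂ) (f : MvPolynomial (σ ⊕ τ) ℂ) :
    Lm φ f = Lam φ (sumAlgEquiv ℂ σ τ f) := rfl

theorem Lm_i2_mul (φ : MvPolynomial σ ℂ →ₗ[ℂ] ℂ) (f : MvPolynomial (σ ⊕ τ) ℂ)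
    (h : MvPolynomial τ ℂ) : Lm φ (i2 σ τ h * f) = h * Lm φ f := by
  rw [Lm_apply, Lm_apply, map_mul, e2, ← smul_eq_C_mul, map_smul, smul_eq_mul]

theorem Lm_prod (φ : MvPolynomial σ ℂ →ₗ[ℂ] ℂ) (g : MvPolynomial σ ℂ)
    (h : MvPolynomial τ ℂ) : Lm φ (i1 σ τ g * i2 σ τ h) = C (φ g) * h := by
  rw [mul_comm, Lm_i2_mul, Lm_apply, e1, Lam_map, mul_comm]

end NZDaAux

open NZDaAux

theorem iInf_map_i1 {ι : Sort*} (I : ι → Ideal (MvPolynomial σ ℂ)) :
    (⨅ i, I i).map (i1 σ τ) = ⨅ i, (I i).map (i1 σ τ) := by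
  refine iInf_map (i1 σ τ : MvPolynomial σ ℂ →+* MvPolynomial (σ ⊕ τ) ℂ)
    (κ := τ) (((renameEquiv ℂ (Equiv.sumComm σ τ)).trans (sumAlgEquiv ℂ τ σ)).toRingEquiv) ?_ I
  intro r
  change sumAlgEquiv ℂ τ σ (rename (Equiv.sumComm σ τ) (i1 σ τ r)) = C r
  rw [i1, rename_rename]
  exact e2 (σ := τ) (τ := σ) r

theorem iInf_map_i2 {ι : Sort*} (I : ι → Ideal (MvPolynomial τ ℂ)) :
    (⨅ i, I i).map (i2 σ τ) = ⨅ i, (I i).map (i2 σ τ) := by
  refine iInf_map (i2 σ τ : MvPolynomial τ ℂ →+* MvPolynomial (σ ⊕ τ) ℂ)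
    (κ := σ) ((sumAlgEquiv ℂ σ τ).toRingEquiv) ?_ I
  intro r
  exact e2 r

/-- Membership in `𝔞 + 𝔟` is tested by functionals. -/
theorem exists_functional (𝔞 : Ideal (MvPolynomial σ ℂ)) :
    ∃ (K : Type) (Λ : K → MvPolynomial (σ ⊕ τ) ℂ →+ MvPolynomial τ ℂ),
      (∀ k f h, Λ k (i2 σ τ h * f) = h * Λ k f) ∧
      ∀ (𝔟 : Ideal (MvPolynomial τ ℂ)) (f : MvPolynomial (σ ⊕ τ) ℂ),
        f ∈ 𝔞.map (i1 σ τ) ⊔ 𝔟.map (i2 σ τ) ↔ ∀ k, Λ k f ∈ 𝔟 := by
  classical
  refine ⟨{φ : MvPolynomial σ ℂ →ₗ[ℂ] ℂ // ∀ a ∈ 𝔞, φ a = 0}, fun φ => Lm φ.1,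
    fun k f h => Lm_i2_mul _ _ _, fun 𝔟 f => ⟨?_, ?_⟩⟩
  · -- (⇒)
    rintro hf ⟨φ, hφ⟩
    dsimp only
    rw [Submodule.mem_sup] at hf
    obtain ⟨x, hx, y, hy, rfl⟩ := hf
    rw [map_add]
    have h1 : ∀ r, Lm φ (r * x) = 0 := by
      refine Submodule.span_induction (p := fun x _ => ∀ r, Lm φ (r * x) = 0) ?_ ?_ ?_ ?_ hx
      · rintro _ ⟨a, ha, rfl⟩ r
        refine ind (P := fun r => Lm φ (r * i1 σ τ a) = 0) ?_ ?_ r
        · intro f g hf hg
          rw [add_mul, map_add, hf, hg, add_zero]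
        · intro g h
          have h2 : i1 σ τ g * i2 σ τ h * i1 σ τ a = i1 σ τ (g * a) * i2 σ τ h := by
            rw [map_mul]; ring
          rw [h2, Lm_prod, hφ _ (Ideal.mul_mem_left _ _ ha), map_zero, zero_mul]
      · intro r
        rw [mul_zero, map_zero]
      · intro x y _ _ hx hy r
        rw [mul_add, map_add, hx, hy, add_zero]
      · intro c x _ hx r
        rw [smul_eq_mul, ← mul_assoc]
        exact hx _
    have h2 : ∀ r, Lm φ (r * y) ∈ 𝔟 := by
      refine Submodule.span_induction (p := fun y _ => ∀ r, Lm φ (r * y) ∈ 𝔟) ?_ ?_ ?_ ?_ hy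
      · rintro _ ⟨b, hb, rfl⟩ r
        rw [mul_comm]
        erw [Lm_i2_mul]
        exact Ideal.mul_mem_right _ _ hb
      · intro r
        rw [mul_zero, map_zero]
        exact Ideal.zero_mem _
      · intro x y _ _ hx hy r
        rw [mul_add, map_add]
        exact Ideal.add_mem _ (hx r) (hy r)
      · intro c x _ hx r
        rw [smul_eq_mul, ← mul_assoc]
        exact hx _
    have h3 := h1 1
    have h4 := h2 1
    rw [one_mul] at h3 h4
    rw [h3, zero_add]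
    exact h4
  · -- (⇐)
    intro hf
    set 𝔞' : Submodule ℂ (MvPolynomial σ ℂ) := 𝔞.restrictScalars ℂ with h𝔞'
    let b := Module.Basis.ofVectorSpace ℂ (MvPolynomial σ ℂ ⧸ 𝔞')
    choose e he using fun k => Submodule.mkQ_surjective 𝔞' (b k)
    let φ : _ → (MvPolynomial σ ℂ →ₗ[ℂ] ℂ) := fun k => (b.coord k).comp 𝔞'.mkQ
    have hφ : ∀ k, ∀ a ∈ 𝔞, φ k a = 0 := by
      intro k a ha
      have h1 : 𝔞'.mkQ a = 0 := by
        rw [Submodule.mkQ_apply, Submodule.Quotient.mk_eq_zero]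
        exact ha
      change b.coord k (𝔞'.mkQ a) = 0
      rw [h1, map_zero]
    have hφe : ∀ g : MvPolynomial σ ℂ, ∃ S : Finset _, ∀ S', S ⊆ S' →
        g - ∑ k ∈ S', C (φ k g) * e k ∈ 𝔞 := by
      intro g
      refine ⟨(b.repr (𝔞'.mkQ g)).support, fun S' hS' => ?_⟩
      have h1 : 𝔞'.mkQ (g - ∑ k ∈ S', C (φ k g) * e k) = 0 := by
        rw [map_sub, map_sum]
        have h2 : ∀ k, 𝔞'.mkQ (C (φ k g) * e k) = (b.repr (𝔞'.mkQ g)) k • b k := by
          intro k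
          rw [← smul_eq_C_mul, map_smul, he]
          rfl
        rw [Finset.sum_congr rfl (fun k _ => h2 k)]
        have h3 := b.linearCombination_repr (𝔞'.mkQ g)
        rw [Finsupp.linearCombination_apply,
          Finsupp.sum_of_support_subset _ hS' (fun i a => a • b i)
            (fun i _ => zero_smul ℂ (b i))] at h3
        rw [h3, sub_self]
      rw [Submodule.mkQ_apply, Submodule.Quotient.mk_eq_zero] at h1
      exact h1
    have key : ∀ f : MvPolynomial (σ ⊕ τ) ℂ, ∃ S : Finset _, ∀ S', S ⊆ S' →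
        f - ∑ k ∈ S', i1 σ τ (e k) * i2 σ τ (Lm (φ k) f) ∈ 𝔞.map (i1 σ τ) := by
      intro f
      refine ind (P := fun f => ∃ S : Finset _, ∀ S', S ⊆ S' →
        f - ∑ k ∈ S', i1 σ τ (e k) * i2 σ τ (Lm (φ k) f) ∈ 𝔞.map (i1 σ τ)) ?_ ?_ f
      · rintro f g ⟨S, hS⟩ ⟨T, hT⟩
        refine ⟨S ∪ T, fun S' hS' => ?_⟩
        have h1 := Ideal.add_mem _ (hS S' (Finset.union_subset_left hS'))
          (hT S' (Finset.union_subset_right hS'))
        convert h1 using 1
        simp only [map_add, mul_add, Finset.sum_add_distrib]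
        ring
      · intro g h
        obtain ⟨S, hS⟩ := hφe g
        refine ⟨S, fun S' hS' => ?_⟩
        have h1 : i1 σ τ g * i2 σ τ h - ∑ k ∈ S', i1 σ τ (e k) * i2 σ τ
            (Lm (φ k) (i1 σ τ g * i2 σ τ h)) =
            i1 σ τ (g - ∑ k ∈ S', C (φ k g) * e k) * i2 σ τ h := by
          rw [map_sub, map_sum, _root_.sub_mul, Finset.sum_mul]
          congr 1
          refine Finset.sum_congr rfl fun k _ => ?_
          rw [Lm_prod, map_mul, map_mul]
          have h2 : i2 σ τ (C (φ k g)) = i1 σ τ (C (φ k g)) := by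
            rw [i1, i2, rename_C, rename_C]
          rw [h2]
          ring
        rw [h1]
        exact Ideal.mul_mem_right _ _ (Ideal.mem_map_of_mem _ (hS S' hS'))
    obtain ⟨S, hS⟩ := key f
    have h1 := hS S (Finset.Subset.refl S)
    have h2 : f = (f - ∑ k ∈ S, i1 σ τ (e k) * i2 σ τ (Lm (φ k) f)) +
        ∑ k ∈ S, i1 σ τ (e k) * i2 σ τ (Lm (φ k) f) := by ring
    rw [h2]
    refine Submodule.add_mem_sup h1 (Ideal.sum_mem _ fun k _ => ?_)
    exact Ideal.mul_mem_left _ _ (Ideal.mem_map_of_mem _ (hf ⟨φ k, hφ k⟩))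

end Pool.Agent.Lib.P4a9818
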