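import Pool.Agent.Lib.P4a9818.ProdA

/-!
# P4a9818.Prod : products of arrangements   (estimate 2 h)

Notation as in `ProdA`.
* `prod_J`: `f ∈ J`. `f ∈ (i1 Q1, i2 Q2)` (`inter`, `e = 1`; `J ≤ PF (inl i) (inr j)`):
  `f = i1 Q1 * g + i2 Q2 * r`. `f` and `i1 Q1 * g` are in `J1.map i1` (`JFs_le_i1` with `m = 1`, `Q_mem`), so
  `i2 Q2 * r ∈ J1.map i1`, and `r ∈ J1.map i1` (`nzd` with `𝔟 = ⊥`, `Q2 ≠ 0`); similarly
  `g ∈ J2.map i2`. With `mul_mem_J1/2`: `J = i1 Q1 • J2.map i2 + i2 Q2 • J1.map i1`, which is generated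
  by the elements in the statement.
* `prod_cont`: `f ∈ JFs (sumL l1 l2) 5`. For all `i, j`: `f ∈ (i1 ℓ_i, i2 ℓ'_j)^5 ≤ (i1 ℓ_i³, i2 ℓ'_j³)`, so
  `f = i1 Q1³ * g + i2 Q2³ * r` (`inter`, `e = 3`). `f ∈ (JFs l1 5).map i1 ≤ (J1³).map i1` and
  `Q1³ ∈ J1³`, so `i2 Q2³ * r ∈ (J1³).map i1`, `r ∈ (J1³).map i1 = (J1.map i1)³` (`nzd`, `𝔟 = ⊥`);
  similarly `g ∈ (J2.map i2)³`. So `f ∈ (i1 Q1 • J2.map i2)³ + (i2 Q2 • J1.map i1)³ ≤ J³`
  (`mul_mem_J1/2`).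
-/

namespace Pool.Agent.Lib.P4a9818

open MvPolynomial

variable {σ τ ι₁ ι₂ : Type} [Fintype σ] [Fintype τ] [DecidableEq σ] [DecidableEq τ]
  [Fintype ι₁] [Fintype ι₂] [DecidableEq ι₁] [DecidableEq ι₂]

namespace ProdAux

omit [Fintype τ] [DecidableEq τ] [DecidableEq σ] [Fintype σ] in
theorem mul_mem_of_span {a : MvPolynomial σ ℂ} {S : Set (MvPolynomial σ ℂ)}
    {I : Ideal (MvPolynomial σ ℂ)} (h : ∀ s ∈ S, a * s ∈ I) {x : MvPolynomial σ ℂ}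
    (hx : x ∈ Ideal.span S) : a * x ∈ I := by
  induction hx using Submodule.span_induction with
  | mem s hs => exact h s hs
  | zero => rw [mul_zero]; exact zero_mem _
  | add x y _ _ hx hy => rw [mul_add]; exact add_mem hx hy
  | smul r x _ hx =>
    rw [smul_eq_mul, mul_left_comm]
    exact Ideal.mul_mem_left _ _ hx

theorem cancel1 (I : Ideal (MvPolynomial σ ℂ)) {q : MvPolynomial τ ℂ} (hq : q ≠ 0)
    {r : MvPolynomial (σ ⊕ τ) ℂ} (h : i2 σ τ q * r ∈ I.map (i1 σ τ)) :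
    r ∈ I.map (i1 σ τ) := by
  have h1 := nzd I ⊥ q (fun h hh => by
    rw [Ideal.mem_bot] at hh ⊢
    exact (mul_eq_zero.mp hh).resolve_left hq) r (by
      rw [Ideal.map_bot, sup_bot_eq]; exact h)
  rwa [Ideal.map_bot, sup_bot_eq] at h1

theorem cancel2 (I : Ideal (MvPolynomial τ ℂ)) {q : MvPolynomial σ ℂ} (hq : q ≠ 0)
    {r : MvPolynomial (σ ⊕ τ) ℂ} (h : i1 σ τ q * r ∈ I.map (i2 σ τ)) :
    r ∈ I.map (i2 σ τ) := by
  have h1 := nzd' ⊥ I q (fun h hh => by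
    rw [Ideal.mem_bot] at hh ⊢
    exact (mul_eq_zero.mp hh).resolve_left hq) r (by
      rw [Ideal.map_bot, bot_sup_eq]; exact h)
  rwa [Ideal.map_bot, bot_sup_eq] at h1

theorem prod_ne {ι : Type} [Fintype ι] (l : ι → σ → ℂ) (h : ∀ i, l i ≠ 0) :
    ∏ i, lf (l i) ≠ 0 := prod_lf_ne_zero _ _ fun i _ => h i

omit [Fintype τ] [DecidableEq τ] [DecidableEq σ] [Fintype σ] in
theorem pow5 (x y : MvPolynomial σ ℂ) :
    Ideal.span {x, y} ^ 5 ≤ Ideal.span {x ^ 3, y ^ 3} := by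
  rw [Ideal.span_insert, Ideal.span_insert, ← Ideal.span_singleton_pow,
    ← Ideal.span_singleton_pow]
  set I := Ideal.span {x}
  set J := Ideal.span {y}
  change (I + J) ^ 5 ≤ I ^ 3 ⊔ J ^ 3
  rw [add_pow]
  rw [Ideal.sum_eq_sup]
  refine Finset.sup_le fun m hm => ?_
  refine Ideal.mul_le_left.trans ?_
  rcases Nat.lt_or_ge m 3 with h | h
  · have h1 : J ^ (5 - m) ≤ J ^ 3 := Ideal.pow_le_pow_right (by omega)
    exact (Ideal.mul_le_right.trans h1).trans (le_sup_right : J ^ 3 ≤ I ^ 3 ⊔ J ^ 3)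
  · have h1 : I ^ m ≤ I ^ 3 := Ideal.pow_le_pow_right h
    exact (Ideal.mul_le_left.trans h1).trans (le_sup_left : I ^ 3 ≤ I ^ 3 ⊔ J ^ 3)

end ProdAux

open ProdAux ProdAAux

theorem prod_J (l1 : ι₁ → σ → ℂ) (l2 : ι₂ → τ → ℂ) (h1 : ∀ i, l1 i ≠ 0) (h2 : ∀ j, l2 j ≠ 0)
    (hi1 : ∀ i j, i ≠ j → LinearIndependent ℂ ![l1 i, l1 j])
    (hi2 : ∀ i j, i ≠ j → LinearIndependent ℂ ![l2 i, l2 j])
    {κ₁ κ₂ : Type} (g1 : κ₁ → MvPolynomial σ ℂ) (g2 : κ₂ → MvPolynomial τ ℂ)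
    (hJ1 : JF l1 = Ideal.span (Set.range g1)) (hJ2 : JF l2 = Ideal.span (Set.range g2)) :
    JF (sumL l1 l2) = Ideal.span (Set.range (Sum.elim
      (fun t => i2 σ τ (∏ j, lf (l2 j)) * i1 σ τ (g1 t))
      (fun t => i1 σ τ (∏ i, lf (l1 i)) * i2 σ τ (g2 t)))) := by
  apply le_antisymm
  · intro f hf
    have hfs : f ∈ JFs (sumL l1 l2) 1 := by rwa [← JF_eq_JFs]
    have ha : f ∈ (JF l1).map (i1 σ τ) := by
      rw [JF_eq_JFs]; exact JFs_le_i1 l1 l2 1 hfs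
    have hb : f ∈ (JF l2).map (i2 σ τ) := by
      rw [JF_eq_JFs]; exact JFs_le_i2 l1 l2 1 hfs
    have hin := inter l1 l2 h1 h2 hi1 hi2 1 f (fun i j => by
      rw [pow_one, pow_one, ← PF_mix]
      unfold JF at hf
      simp only [Ideal.mem_iInf] at hf
      exact hf (Sum.inl i) (Sum.inr j) (by simp))
    rw [pow_one, pow_one] at hin
    obtain ⟨g, r, hgr⟩ := Ideal.mem_span_pair.mp hin
    have hr : r ∈ (JF l1).map (i1 σ τ) := by
      apply cancel1 _ (prod_ne l2 h2)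
      have e1 : i2 σ τ (∏ j, lf (l2 j)) * r = f - g * i1 σ τ (∏ i, lf (l1 i)) := by
        rw [← hgr]; ring
      rw [e1]
      exact Ideal.sub_mem _ ha (Ideal.mul_mem_left _ _ (Ideal.mem_map_of_mem _ (Q_mem l1)))
    have hg : g ∈ (JF l2).map (i2 σ τ) := by
      apply cancel2 _ (prod_ne l1 h1)
      have e1 : i1 σ τ (∏ j, lf (l1 j)) * g = f - r * i2 σ τ (∏ i, lf (l2 i)) := by
        rw [← hgr]; ring
      rw [e1]
      exact Ideal.sub_mem _ hb (Ideal.mul_mem_left _ _ (Ideal.mem_map_of_mem _ (Q_mem l2)))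
    rw [← hgr, mul_comm g, mul_comm r]
    rw [hJ1, Ideal.map_span] at hr
    rw [hJ2, Ideal.map_span] at hg
    apply Ideal.add_mem
    · refine mul_mem_of_span ?_ hg
      rintro _ ⟨_, ⟨t, rfl⟩, rfl⟩
      exact Ideal.subset_span ⟨Sum.inr t, rfl⟩
    · refine mul_mem_of_span ?_ hr
      rintro _ ⟨_, ⟨t, rfl⟩, rfl⟩
      exact Ideal.subset_span ⟨Sum.inl t, rfl⟩
  · rw [Ideal.span_le]
    rintro _ ⟨t | t, rfl⟩
    · apply mul_mem_J1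
      rw [hJ1]
      exact Ideal.mem_map_of_mem _ (Ideal.subset_span ⟨t, rfl⟩)
    · apply mul_mem_J2
      rw [hJ2]
      exact Ideal.mem_map_of_mem _ (Ideal.subset_span ⟨t, rfl⟩)

theorem prod_cont (l1 : ι₁ → σ → ℂ) (l2 : ι₂ → τ → ℂ) (h1 : ∀ i, l1 i ≠ 0) (h2 : ∀ j, l2 j ≠ 0)
    (hi1 : ∀ i j, i ≠ j → LinearIndependent ℂ ![l1 i, l1 j])
    (hi2 : ∀ i j, i ≠ j → LinearIndependent ℂ ![l2 i, l2 j])
    (hc1 : Cont l1) (hc2 : Cont l2) : Cont (sumL l1 l2) := by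
  intro f hf
  have ha : f ∈ ((JF l1) ^ 3).map (i1 σ τ) := Ideal.map_mono hc1 (JFs_le_i1 l1 l2 5 hf)
  have hb : f ∈ ((JF l2) ^ 3).map (i2 σ τ) := Ideal.map_mono hc2 (JFs_le_i2 l1 l2 5 hf)
  have hin := inter l1 l2 h1 h2 hi1 hi2 3 f (fun i j => by
    rw [map_pow, map_pow]
    apply pow5
    rw [← PF_mix]
    unfold JFs at hf
    simp only [Ideal.mem_iInf] at hf
    exact hf (Sum.inl i) (Sum.inr j) (by simp))
  obtain ⟨g, r, hgr⟩ := Ideal.mem_span_pair.mp hin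
  have hr : r ∈ ((JF l1) ^ 3).map (i1 σ τ) := by
    apply cancel1 _ (pow_ne_zero 3 (prod_ne l2 h2))
    have e1 : i2 σ τ ((∏ j, lf (l2 j)) ^ 3) * r = f - g * i1 σ τ ((∏ i, lf (l1 i)) ^ 3) := by
      rw [← hgr]; ring
    rw [e1]
    exact Ideal.sub_mem _ ha (Ideal.mul_mem_left _ _
      (Ideal.mem_map_of_mem _ (Ideal.pow_mem_pow (Q_mem l1) 3)))
  have hg : g ∈ ((JF l2) ^ 3).map (i2 σ τ) := by
    apply cancel2 _ (pow_ne_zero 3 (prod_ne l1 h1))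
    have e1 : i1 σ τ ((∏ j, lf (l1 j)) ^ 3) * g = f - r * i2 σ τ ((∏ i, lf (l2 i)) ^ 3) := by
      rw [← hgr]; ring
    rw [e1]
    exact Ideal.sub_mem _ hb (Ideal.mul_mem_left _ _
      (Ideal.mem_map_of_mem _ (Ideal.pow_mem_pow (Q_mem l2) 3)))
  rw [← hgr, mul_comm g, mul_comm r, map_pow, map_pow]
  rw [Ideal.map_pow] at hr hg
  apply Ideal.add_mem
  · have hle : Ideal.span {i1 σ τ (∏ i, lf (l1 i))} * (JF l2).map (i2 σ τ) ≤
        JF (sumL l1 l2) := by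
      rw [Ideal.mul_le]
      intro a ha b hb
      obtain ⟨c, rfl⟩ := Ideal.mem_span_singleton'.mp ha
      rw [mul_assoc]
      exact Ideal.mul_mem_left _ _ (mul_mem_J2 l1 l2 hb)
    apply Ideal.pow_right_mono hle 3
    rw [mul_pow]
    exact Ideal.mul_mem_mul (Ideal.pow_mem_pow (Ideal.mem_span_singleton_self _) 3) hg
  · have hle : Ideal.span {i2 σ τ (∏ i, lf (l2 i))} * (JF l1).map (i1 σ τ) ≤
        JF (sumL l1 l2) := by
      rw [Ideal.mul_le]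
      intro a ha b hb
      obtain ⟨c, rfl⟩ := Ideal.mem_span_singleton'.mp ha
      rw [mul_assoc]
      exact Ideal.mul_mem_left _ _ (mul_mem_J1 l1 l2 hb)
    apply Ideal.pow_right_mono hle 3
    rw [mul_pow]
    exact Ideal.mul_mem_mul (Ideal.pow_mem_pow (Ideal.mem_span_singleton_self _) 3) hr

end Pool.Agent.Lib.P4a9818
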