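import Pool.Agent.Lib.P4a9818.NZD

/-!
# P4a9818.ProdA : intersections for products of arrangements   (estimate 2.5 h)

`R1 = ℂ[σ]`, `R2 = ℂ[τ]`, `R = ℂ[σ ⊕ τ]`, `ℓ_i = lf (l1 i)`, `ℓ'_j = lf (l2 j)`, `Q1 = ∏ ℓ_i`,
`Q2 = ∏ ℓ'_j`, `J1 = JF l1`, `J2 = JF l2`, `J = JF (sumL l1 l2)`.
* `JFs_le_i1`: `iInf_map_i1` and `Ideal.map_pow`, `(PF l1 i i').map i1 = PF (sumL l1 l2) (inl i) (inl i')`
  (`i1_lf`), and the same for `i2`. (`JF l = JFs l 1`.)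
* `inter`: for `e ≥ 1`: if `f ∈ (i1 ℓ_i^e, i2 ℓ'_j^e)` for all `i, j` then `f ∈ (i1 Q1^e, i2 Q2^e)`.
  First, for `p ∈ R1` and a finset `s` of indices `j` by induction on `s`:
  `⋂_{j∈s} (i1 p, i2 ℓ'_j^e) ≤ (i1 p, i2 ∏_{j∈s} ℓ'_j^e)` (for `s = ∅` the right side is `⊤`). Step: let
  `q = ∏_{j∈s} ℓ'_j^e`, `j0 ∉ s`, `f = i1 p * a + i2 q * b ∈ (i1 p, i2 ℓ'_{j0}^e)`. Then
  `i2 q * b ∈ (p).map i1 ⊔ (ℓ'_{j0}^e).map i2`, so `b` is in it by `nzd` (`ℓ'_{j0}^e ∣ q h` implies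
  `ℓ'_{j0}^e ∣ h`: coprime, the `ℓ'_j` are pairwise non-associated primes), and
  `f ∈ (i1 p, i2 (q ℓ'_{j0}^e))`. Then, with `p = ∏_{i∈s1} ℓ_i^e`, in the same way by induction on
  `s1` using `nzd'`: `⋂_{i∈s1} (i1 ℓ_i^e, i2 Q2^e) ≤ (i1 ∏ ℓ_i^e, i2 Q2^e)`.
* `Q_mem`: a product containing both `ℓ_i` and `ℓ_{i'}`.
* `mul_mem_J1`, `mul_mem_J2`: `i2 Q2 * i1 h ∈ J` for `h ∈ J1`: for the pairs `(inl i, inl i')` because
  `h ∈ J1`, for the pairs containing some `inr j` because `ℓ'_j ∣ Q2`.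
-/

namespace Pool.Agent.Lib.P4a9818

open MvPolynomial

variable {σ τ ι₁ ι₂ : Type} [Fintype σ] [Fintype τ] [DecidableEq σ] [DecidableEq τ]
  [Fintype ι₁] [Fintype ι₂] [DecidableEq ι₁] [DecidableEq ι₂]

/-- The product arrangement. -/
def sumL (l1 : ι₁ → σ → ℂ) (l2 : ι₂ → τ → ℂ) : ι₁ ⊕ ι₂ → (σ ⊕ τ) → ℂ :=
  Sum.elim (fun i => Sum.elim (l1 i) 0) (fun j => Sum.elim 0 (l2 j))

namespace ProdAAux

omit [DecidableEq σ] [DecidableEq τ] [Fintype ι₁] [Fintype ι₂] [DecidableEq ι₁]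
  [DecidableEq ι₂] in
theorem PF_inl (l1 : ι₁ → σ → ℂ) (l2 : ι₂ → τ → ℂ) (i j : ι₁) :
    (PF l1 i j).map (i1 σ τ) = PF (sumL l1 l2) (Sum.inl i) (Sum.inl j) := by
  classical
  unfold PF
  rw [Ideal.map_span, Set.image_pair]
  have h : ∀ i, i1 σ τ (lf (l1 i)) = lf (sumL l1 l2 (Sum.inl i)) := fun i => i1_lf _
  rw [h, h]

omit [DecidableEq σ] [DecidableEq τ] [Fintype ι₁] [Fintype ι₂] [DecidableEq ι₁]
  [DecidableEq ι₂] in
theorem PF_inr (l1 : ι₁ → σ → ℂ) (l2 : ι₂ → τ → ℂ) (i j : ι₂) :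
    (PF l2 i j).map (i2 σ τ) = PF (sumL l1 l2) (Sum.inr i) (Sum.inr j) := by
  classical
  unfold PF
  rw [Ideal.map_span, Set.image_pair]
  have h : ∀ i, i2 σ τ (lf (l2 i)) = lf (sumL l1 l2 (Sum.inr i)) := fun i => i2_lf _
  rw [h, h]

omit [Fintype ι₁] [Fintype ι₂] [DecidableEq ι₁] [DecidableEq ι₂] in
theorem PF_mix (l1 : ι₁ → σ → ℂ) (l2 : ι₂ → τ → ℂ) (i : ι₁) (j : ι₂) :
    PF (sumL l1 l2) (Sum.inl i) (Sum.inr j) =
      Ideal.span {i1 σ τ (lf (l1 i)), i2 σ τ (lf (l2 j))} := by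
  unfold PF
  have h1 : i1 σ τ (lf (l1 i)) = lf (sumL l1 l2 (Sum.inl i)) := i1_lf _
  have h2 : i2 σ τ (lf (l2 j)) = lf (sumL l1 l2 (Sum.inr j)) := i2_lf _
  rw [h1, h2]

theorem span_pair_eq (p : MvPolynomial σ ℂ) (q : MvPolynomial τ ℂ) :
    Ideal.span {i1 σ τ p, i2 σ τ q} =
      (Ideal.span {p}).map (i1 σ τ) ⊔ (Ideal.span {q}).map (i2 σ τ) := by
  rw [Ideal.map_span, Ideal.map_span, Set.image_singleton, Set.image_singleton,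
    Ideal.span_insert]

theorem not_dvd {ι : Type} [DecidableEq ι] (l : ι → σ → ℂ) (hl : ∀ i, l i ≠ 0)
    (hi : ∀ i j, i ≠ j → LinearIndependent ℂ ![l i, l j]) (e : ℕ) (s : Finset ι) (j0 : ι)
    (hj0 : j0 ∉ s) : ¬ lf (l j0) ∣ ∏ j ∈ s, lf (l j) ^ e := by
  intro h
  obtain ⟨j, hj, h1⟩ := (Prime.dvd_finsetProd_iff (prime_lf (hl j0)) _).mp h
  have h2 := (prime_lf (hl j0)).dvd_of_dvd_pow h1
  obtain ⟨c, hc⟩ := (lf_dvd_lf_iff (hl j0) _).mp h2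
  have hne : j0 ≠ j := fun h => hj0 (h ▸ hj)
  have h3 := LinearIndependent.pair_iff.mp (hi j0 j hne) c (-1) (by
    rw [hc]
    simp)
  exact absurd h3.2 (by norm_num)

theorem step2 (l2 : ι₂ → τ → ℂ) (h2 : ∀ j, l2 j ≠ 0)
    (hi2 : ∀ i j, i ≠ j → LinearIndependent ℂ ![l2 i, l2 j]) (e : ℕ)
    (p : MvPolynomial σ ℂ) (f : MvPolynomial (σ ⊕ τ) ℂ) (s : Finset ι₂)
    (hf : ∀ j ∈ s, f ∈ Ideal.span {i1 σ τ p, i2 σ τ (lf (l2 j) ^ e)}) :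
    f ∈ Ideal.span {i1 σ τ p, i2 σ τ (∏ j ∈ s, lf (l2 j) ^ e)} := by
  induction s using Finset.induction_on with
  | empty =>
    rw [Finset.prod_empty, map_one]
    have : (1 : MvPolynomial (σ ⊕ τ) ℂ) ∈ Ideal.span {i1 σ τ p, 1} :=
      Ideal.subset_span (by simp)
    rw [(Ideal.eq_top_iff_one _).mpr this]
    trivial
  | insert j0 s hj0 ih =>
    obtain ⟨a, b, hab⟩ := Ideal.mem_span_pair.mp
      (ih (fun j hj => hf j (Finset.mem_insert_of_mem hj)))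
    have hf0 := hf j0 (Finset.mem_insert_self _ _)
    have h3 : i2 σ τ (∏ j ∈ s, lf (l2 j) ^ e) * b ∈
        (Ideal.span {p}).map (i1 σ τ) ⊔ (Ideal.span {lf (l2 j0) ^ e}).map (i2 σ τ) := by
      rw [← span_pair_eq]
      have h4 : i2 σ τ (∏ j ∈ s, lf (l2 j) ^ e) * b = f - a * i1 σ τ p := by
        rw [← hab]; ring
      rw [h4]
      exact Ideal.sub_mem _ hf0 (Ideal.mul_mem_left _ _ (Ideal.subset_span (by simp)))
    have h5 := nzd _ _ _ (fun h hh => by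
      rw [Ideal.mem_span_singleton] at hh ⊢
      exact (prime_lf (h2 j0)).pow_dvd_of_dvd_mul_left _ (not_dvd l2 h2 hi2 e s j0 hj0) hh) _ h3
    rw [← span_pair_eq] at h5
    obtain ⟨c, d, hcd⟩ := Ideal.mem_span_pair.mp h5
    rw [Finset.prod_insert hj0]
    apply Ideal.mem_span_pair.mpr
    refine ⟨a + c * i2 σ τ (∏ j ∈ s, lf (l2 j) ^ e), d, ?_⟩
    rw [← hab, ← hcd, map_mul]
    ring

theorem step1 (l1 : ι₁ → σ → ℂ) (h1 : ∀ j, l1 j ≠ 0)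
    (hi1 : ∀ i j, i ≠ j → LinearIndependent ℂ ![l1 i, l1 j]) (e : ℕ)
    (q : MvPolynomial τ ℂ) (f : MvPolynomial (σ ⊕ τ) ℂ) (s : Finset ι₁)
    (hf : ∀ j ∈ s, f ∈ Ideal.span {i1 σ τ (lf (l1 j) ^ e), i2 σ τ q}) :
    f ∈ Ideal.span {i1 σ τ (∏ j ∈ s, lf (l1 j) ^ e), i2 σ τ q} := by
  induction s using Finset.induction_on with
  | empty =>
    rw [Finset.prod_empty, map_one]
    have : (1 : MvPolynomial (σ ⊕ τ) ℂ) ∈ Ideal.span {1, i2 σ τ q} :=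
      Ideal.subset_span (by simp)
    rw [(Ideal.eq_top_iff_one _).mpr this]
    trivial
  | insert j0 s hj0 ih =>
    obtain ⟨b, a, hab⟩ := Ideal.mem_span_pair.mp
      (ih (fun j hj => hf j (Finset.mem_insert_of_mem hj)))
    have hf0 := hf j0 (Finset.mem_insert_self _ _)
    have h3 : i1 σ τ (∏ j ∈ s, lf (l1 j) ^ e) * b ∈
        (Ideal.span {lf (l1 j0) ^ e}).map (i1 σ τ) ⊔ (Ideal.span {q}).map (i2 σ τ) := by
      rw [← span_pair_eq]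
      have h4 : i1 σ τ (∏ j ∈ s, lf (l1 j) ^ e) * b = f - a * i2 σ τ q := by
        rw [← hab]; ring
      rw [h4]
      exact Ideal.sub_mem _ hf0 (Ideal.mul_mem_left _ _ (Ideal.subset_span (by simp)))
    have h5 := nzd' _ _ _ (fun h hh => by
      rw [Ideal.mem_span_singleton] at hh ⊢
      exact (prime_lf (h1 j0)).pow_dvd_of_dvd_mul_left _ (not_dvd l1 h1 hi1 e s j0 hj0) hh) _ h3
    rw [← span_pair_eq] at h5
    obtain ⟨d, c, hcd⟩ := Ideal.mem_span_pair.mp h5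
    rw [Finset.prod_insert hj0]
    apply Ideal.mem_span_pair.mpr
    refine ⟨d, a + c * i1 σ τ (∏ j ∈ s, lf (l1 j) ^ e), ?_⟩
    rw [← hab, ← hcd, map_mul]
    ring

end ProdAAux

open ProdAAux

theorem JFs_le_i1 (l1 : ι₁ → σ → ℂ) (l2 : ι₂ → τ → ℂ) (m : ℕ) :
    JFs (sumL l1 l2) m ≤ (JFs l1 m).map (i1 σ τ) := by
  unfold JFs
  rw [iInf_map_i1]
  refine le_iInf fun i => ?_
  rw [iInf_map_i1]
  refine le_iInf fun j => ?_
  rw [iInf_map_i1]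
  refine le_iInf fun hij => ?_
  rw [Ideal.map_pow, PF_inl l1 l2]
  exact iInf_le_of_le (Sum.inl i) (iInf_le_of_le (Sum.inl j)
    (iInf_le_of_le (fun h => hij (Sum.inl_injective h)) le_rfl))

theorem JFs_le_i2 (l1 : ι₁ → σ → ℂ) (l2 : ι₂ → τ → ℂ) (m : ℕ) :
    JFs (sumL l1 l2) m ≤ (JFs l2 m).map (i2 σ τ) := by
  unfold JFs
  rw [iInf_map_i2]
  refine le_iInf fun i => ?_
  rw [iInf_map_i2]
  refine le_iInf fun j => ?_
  rw [iInf_map_i2]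
  refine le_iInf fun hij => ?_
  rw [Ideal.map_pow, PF_inr l1 l2]
  exact iInf_le_of_le (Sum.inr i) (iInf_le_of_le (Sum.inr j)
    (iInf_le_of_le (fun h => hij (Sum.inr_injective h)) le_rfl))

theorem JF_eq_JFs {σ ι : Type} [Fintype σ] (l : ι → σ → ℂ) : JF l = JFs l 1 := by
  simp [JF, JFs]

theorem inter (l1 : ι₁ → σ → ℂ) (l2 : ι₂ → τ → ℂ) (h1 : ∀ i, l1 i ≠ 0) (h2 : ∀ j, l2 j ≠ 0)
    (hi1 : ∀ i j, i ≠ j → LinearIndependent ℂ ![l1 i, l1 j])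
    (hi2 : ∀ i j, i ≠ j → LinearIndependent ℂ ![l2 i, l2 j]) (e : ℕ)
    (f : MvPolynomial (σ ⊕ τ) ℂ)
    (hf : ∀ i j, f ∈ Ideal.span {i1 σ τ (lf (l1 i) ^ e), i2 σ τ (lf (l2 j) ^ e)}) :
    f ∈ Ideal.span {i1 σ τ ((∏ i, lf (l1 i)) ^ e), i2 σ τ ((∏ j, lf (l2 j)) ^ e)} := by
  rw [← Finset.prod_pow, ← Finset.prod_pow]
  exact step1 l1 h1 hi1 e _ f _ fun i _ => step2 l2 h2 hi2 e _ f _ fun j _ => hf i j

theorem Q_mem {σ ι : Type} [Fintype σ] [Fintype ι] [DecidableEq ι] (l : ι → σ → ℂ) :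
    ∏ i, lf (l i) ∈ JF l := by
  unfold JF
  simp only [Ideal.mem_iInf]
  intro i j _
  exact Ideal.mem_of_dvd _ (Finset.dvd_prod_of_mem _ (Finset.mem_univ i))
    (Ideal.subset_span (by simp))

theorem mul_mem_J1 (l1 : ι₁ → σ → ℂ) (l2 : ι₂ → τ → ℂ) {h : MvPolynomial (σ ⊕ τ) ℂ}
    (hh : h ∈ (JF l1).map (i1 σ τ)) :
    i2 σ τ (∏ j, lf (l2 j)) * h ∈ JF (sumL l1 l2) := by
  have hd : ∀ j, lf (sumL l1 l2 (Sum.inr j)) ∣ i2 σ τ (∏ j, lf (l2 j)) := by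
    intro j
    have h2 : i2 σ τ (lf (l2 j)) = lf (sumL l1 l2 (Sum.inr j)) := i2_lf _
    rw [← h2]
    exact map_dvd _ (Finset.dvd_prod_of_mem _ (Finset.mem_univ j))
  unfold JF
  simp only [Ideal.mem_iInf]
  intro i j hij
  rcases i with i | i
  · rcases j with j | j
    · apply Ideal.mul_mem_left
      rw [← PF_inl l1 l2]
      refine Ideal.map_mono ?_ hh
      exact iInf_le_of_le i (iInf_le_of_le j (iInf_le_of_le (fun h => hij (by rw [h])) le_rfl))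
    · exact Ideal.mul_mem_right _ _ (Ideal.mem_of_dvd _ (hd j) (Ideal.subset_span (by simp)))
  · exact Ideal.mul_mem_right _ _ (Ideal.mem_of_dvd _ (hd i) (Ideal.subset_span (by simp)))

theorem mul_mem_J2 (l1 : ι₁ → σ → ℂ) (l2 : ι₂ → τ → ℂ) {h : MvPolynomial (σ ⊕ τ) ℂ}
    (hh : h ∈ (JF l2).map (i2 σ τ)) :
    i1 σ τ (∏ i, lf (l1 i)) * h ∈ JF (sumL l1 l2) := by
  have hd : ∀ j, lf (sumL l1 l2 (Sum.inl j)) ∣ i1 σ τ (∏ j, lf (l1 j)) := by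
    intro j
    have h2 : i1 σ τ (lf (l1 j)) = lf (sumL l1 l2 (Sum.inl j)) := i1_lf _
    rw [← h2]
    exact map_dvd _ (Finset.dvd_prod_of_mem _ (Finset.mem_univ j))
  unfold JF
  simp only [Ideal.mem_iInf]
  intro i j hij
  rcases i with i | i
  · exact Ideal.mul_mem_right _ _ (Ideal.mem_of_dvd _ (hd i) (Ideal.subset_span (by simp)))
  · rcases j with j | j
    · exact Ideal.mul_mem_right _ _ (Ideal.mem_of_dvd _ (hd j) (Ideal.subset_span (by simp)))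
    · apply Ideal.mul_mem_left
      rw [← PF_inr l1 l2]
      refine Ideal.map_mono ?_ hh
      exact iInf_le_of_le i (iInf_le_of_le j (iInf_le_of_le (fun h => hij (by rw [h])) le_rfl))

end Pool.Agent.Lib.P4a9818
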