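import Pool.Agent.Lib.P4a9818.Lin

/-!
# P4a9818.Rank2 : the rank two identity   (estimate 2 h)

Let `i ≠ j`, `W = span {l i, l j}` (dimension 2), `X = cls i j = {k | l k ∈ W}`,
`T_X = ∑_{m∈X} P m`, acting on row vectors `l ↦ l T_X = ∑_{m∈X} (l ⬝ a m) l m ∈ W`.

`rank2_l` : `l k T_X = (card X / 2) l k` for `k ∈ X`.
Proof. For `k ∈ X` the reflection `g k` permutes the `P m`, `m ∈ X`: `g k P m = P m' g k` with `m'`
given by `perm`; reading the row spaces, `l m' ∝ l m (g k)⁻¹ ∈ span (l m, l k) ⊆ W`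
(`(g k)⁻¹ = 1 + (z⁻¹ - 1) P k`, `z k ≠ 0` because `det (g k) = z k`; or: multiply
`g k P m = P m' g k` on the left by `l m'`: `(l m' (g k) a m) l m = (l m' a m') l m' g k
= l m' + (z k - 1) (l m' ⬝ a k) l k`). The map `m ↦ m'` is injective (the `P m` are distinct), so
it permutes `X` and `g k T_X = T_X g k`, i.e. `P k T_X = T_X P k` (`z k ≠ 1`). Hence
`l k T_X = μ_k l k` with `μ_k = l k T_X a k` (multiply `P k T_X = T_X P k` by `l k` on the left: note
`l k P k = l k`, so `l k T_X = l k P k T_X = l k T_X P k = (l k T_X a k) l k`).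
The trace of `T_X` on `W` is `card X` (`∑ l m ⬝ a m`). If `card X ≥ 3`, the linear map has three
pairwise independent eigenvectors `l k` in the 2-dimensional space `W`, so it is a scalar `μ` and
`2 μ = card X`: concretely `l k = x l i + y l j` with `x, y ≠ 0` gives `μ_i = μ_k = μ_j`; and with
the basis `l i, l j` of `W`: the trace is `μ_i + μ_j`; to compute the trace write
`l m = x_m l i + y_m l j`; then `l i T_X = ∑ (l i ⬝ a m)(x_m l i + y_m l j)`, so
`μ_i = ∑ x_m (l i ⬝ a m)`, `μ_j = ∑ y_m (l j ⬝ a m)`, `μ_i + μ_j = ∑ l m ⬝ a m = card X`.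
If `card X = 2`, `X = {i, j}`: `l i T_X = l i + (l i ⬝ a j) l j = μ_i l i` forces `l i ⬝ a j = 0`
and `μ_i = 1 = card X / 2`; the same for `j`.

`rank2_a` : `T_X a k = T_X P k a k = P k T_X a k = (l k T_X a k) a k = (card X / 2) a k`.

`t_ne_one` : if `t i j = 1` let `u = a i - (l j ⬝ a i) a j`. Then `l j ⬝ u = 0`,
`l i ⬝ u = 1 - t i j = 0`, so `l m ⬝ u = 0` for `m ∈ X` and `T_X u = 0`; but
`T_X u = (card X / 2) u` by `rank2_a`. So `u = 0`, contradicting `A.ai`.

`cls` facts: if `k ∈ cls i j`, `k ≠ i`, `j ≠ i` then `span {l i, l k} = span {l i, l j}`.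
-/

namespace Pool.Agent.Lib.P4a9818

open MvPolynomial Matrix

variable {σ : Type} [Fintype σ] [DecidableEq σ] (A : Datum σ)

namespace Datum

theorem mem_cls_iff (i j k : A.ι) :
    k ∈ A.cls i j ↔ A.l k ∈ Submodule.span ℂ {A.l i, A.l j} := by
  simp [cls]

theorem left_mem_cls (i j : A.ι) : i ∈ A.cls i j := by
  rw [mem_cls_iff]
  exact Submodule.subset_span (by simp)

theorem right_mem_cls (i j : A.ι) : j ∈ A.cls i j := by
  rw [mem_cls_iff]
  exact Submodule.subset_span (by simp)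

namespace Rank2Aux

theorem l_not_smul' {i j : A.ι} (h : i ≠ j) (c : ℂ) : A.l j ≠ c • A.l i := by
  intro h1
  have h2 := LinearIndependent.pair_iff.1 (A.li i j h) c (-1)
    (by rw [h1, neg_smul, one_smul, add_neg_cancel])
  exact one_ne_zero (neg_eq_zero.1 h2.2)

theorem a_not_smul' {i j : A.ι} (h : i ≠ j) (c : ℂ) : A.a j ≠ c • A.a i := by
  intro h1
  have h2 := LinearIndependent.pair_iff.1 (A.ai i j h) c (-1)
    (by rw [h1, neg_smul, one_smul, add_neg_cancel])
  exact one_ne_zero (neg_eq_zero.1 h2.2)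

end Rank2Aux

open Rank2Aux

theorem cls_eq {i j k : A.ι} (hij : j ≠ i) (hk : k ∈ A.cls i j) (hki : k ≠ i) :
    A.cls i k = A.cls i j := by
  rw [mem_cls_iff, Submodule.mem_span_pair] at hk
  obtain ⟨x, y, hxy⟩ := hk
  have hy : y ≠ 0 := by
    rintro rfl
    rw [zero_smul, add_zero] at hxy
    exact l_not_smul' A (Ne.symm hki) x hxy.symm
  ext m
  rw [mem_cls_iff, mem_cls_iff]
  have hspan : Submodule.span ℂ {A.l i, A.l k} = Submodule.span ℂ {A.l i, A.l j} := by
    apply le_antisymm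
    · rw [Submodule.span_le]
      intro v hv
      rcases hv with rfl | hv
      · exact Submodule.subset_span (by simp)
      · rw [Set.mem_singleton_iff.1 hv]
        exact Submodule.mem_span_pair.2 ⟨x, y, hxy⟩
    · rw [Submodule.span_le]
      intro v hv
      rcases hv with rfl | hv
      · exact Submodule.subset_span (by simp)
      · rw [Set.mem_singleton_iff.1 hv]
        refine Submodule.mem_span_pair.2 ⟨-(y⁻¹ * x), y⁻¹, ?_⟩
        rw [← hxy, smul_add, smul_smul, smul_smul, inv_mul_cancel₀ hy, one_smul, neg_smul,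
          neg_add_cancel_left]
  rw [hspan]

theorem l_ne_zero (i : A.ι) : A.l i ≠ 0 := by
  intro h
  have h1 := A.la i
  rw [h, zero_dotProduct] at h1
  exact zero_ne_one h1

theorem a_ne_zero (i : A.ι) : A.a i ≠ 0 := by
  intro h
  have h1 := A.la i
  rw [h, dotProduct_zero] at h1
  exact zero_ne_one h1

theorem l_not_smul {i j : A.ι} (h : i ≠ j) (c : ℂ) : A.l j ≠ c • A.l i := by
  exact l_not_smul' A h c

namespace Rank2Aux

theorem P_mulVec (i : A.ι) (x : σ → ℂ) : A.P i *ᵥ x = (A.l i ⬝ᵥ x) • A.a i := by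
  unfold P
  rw [vecMulVec_mulVec, op_smul_eq_smul]

theorem vecMul_P (i : A.ι) (x : σ → ℂ) : x ᵥ* A.P i = (x ⬝ᵥ A.a i) • A.l i := by
  unfold P
  rw [vecMul_vecMulVec]

theorem hg' (i : A.ι) : (A.g i : Matrix σ σ ℂ) = 1 + (A.z i - 1) • A.P i := A.hg i

theorem g_cancel (i : A.ι) {M N : Matrix σ σ ℂ}
    (h : (A.g i : Matrix σ σ ℂ) * M = (A.g i : Matrix σ σ ℂ) * N) : M = N := by
  have h1 : ((A.g i)⁻¹ : GL σ ℂ).1 * (A.g i).1 = 1 := by
    rw [← Units.val_mul, inv_mul_cancel, Units.val_one]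
  calc M = ((A.g i)⁻¹ : GL σ ℂ).1 * (A.g i).1 * M := by rw [h1, one_mul]
    _ = ((A.g i)⁻¹ : GL σ ℂ).1 * (A.g i).1 * N := by rw [mul_assoc, h, mul_assoc]
    _ = N := by rw [h1, one_mul]

end Rank2Aux

theorem z_ne_zero (i : A.ι) : A.z i ≠ 0 := by
  intro h
  have h1 : (A.g i : Matrix σ σ ℂ) * A.P i = (A.g i : Matrix σ σ ℂ) * 0 := by
    rw [hg', h, mul_zero, add_mul, one_mul, Matrix.smul_mul]
    have h2 : A.P i * A.P i = A.P i := by
      unfold P
      rw [vecMulVec_mul_vecMulVec, A.la, one_smul]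
    rw [h2, zero_sub, neg_smul, one_smul, add_neg_cancel]
  have h3 := g_cancel A i h1
  have h4 := P_mulVec A i (A.a i)
  rw [h3, zero_mulVec, A.la, one_smul] at h4
  exact a_ne_zero A i h4.symm

theorem P_injective : Function.Injective A.P := by
  intro i j h
  by_contra hij
  have h1 := P_mulVec A i (A.a i)
  rw [A.la, one_smul, h, P_mulVec] at h1
  exact a_not_smul' A (Ne.symm hij) _ h1.symm

/-- The reflection `g i` permutes the projections. -/
theorem exists_perm (i : A.ι) : ∃ e : Equiv.Perm A.ι, ∀ j,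
    (A.g i : Matrix σ σ ℂ) * A.P j = A.P (e j) * (A.g i : Matrix σ σ ℂ) := by
  choose f hf using A.perm i
  have hf' : ∀ j, (A.g i : Matrix σ σ ℂ) * A.P j = A.P (f j) * (A.g i : Matrix σ σ ℂ) := hf
  have hinj : Function.Injective f := by
    intro j j' h
    apply P_injective A
    apply g_cancel A i
    rw [hf', hf', h]
  exact ⟨Equiv.ofBijective f (Finite.injective_iff_bijective.1 hinj), hf'⟩

namespace Rank2Aux

theorem comm_of_g (k : A.ι) (M : Matrix σ σ ℂ)
    (h : (A.g k : Matrix σ σ ℂ) * M = M * (A.g k : Matrix σ σ ℂ)) : A.P k * M = M * A.P k := by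
  rw [hg', add_mul, mul_add, one_mul, mul_one, add_right_inj, Matrix.smul_mul,
    Matrix.mul_smul] at h
  exact smul_right_injective _ (sub_ne_zero.2 (A.hz k)) h

/-- The partial sum of the projections. -/
noncomputable def TX (i j : A.ι) : Matrix σ σ ℂ := ∑ m ∈ A.cls i j, A.P m

theorem vecMul_TX (i j : A.ι) (x : σ → ℂ) :
    x ᵥ* TX A i j = ∑ m ∈ A.cls i j, (x ⬝ᵥ A.a m) • A.l m := by
  unfold TX
  rw [vecMul_sum]
  exact Finset.sum_congr rfl fun m _ => vecMul_P A m x

theorem TX_mulVec (i j : A.ι) (x : σ → ℂ) :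
    TX A i j *ᵥ x = ∑ m ∈ A.cls i j, (A.l m ⬝ᵥ x) • A.a m := by
  unfold TX
  rw [sum_mulVec]
  exact Finset.sum_congr rfl fun m _ => P_mulVec A m x

theorem perm_mem {i j k : A.ι} (hk : k ∈ A.cls i j) {m m' : A.ι} (hm : m ∈ A.cls i j)
    (h : (A.g k : Matrix σ σ ℂ) * A.P m = A.P m' * (A.g k : Matrix σ σ ℂ)) :
    m' ∈ A.cls i j := by
  rw [mem_cls_iff] at hk hm ⊢
  have h1 : A.l m' ᵥ* ((A.g k : Matrix σ σ ℂ) * A.P m) =
      A.l m' ᵥ* (A.P m' * (A.g k : Matrix σ σ ℂ)) := by rw [h]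
  rw [← vecMul_vecMul, ← vecMul_vecMul, vecMul_P, vecMul_P, A.la, one_smul, hg', vecMul_add,
    vecMul_one, vecMul_smul, vecMul_P] at h1
  have h2 : A.l m' = (((A.l m' + (A.z k - 1) • (A.l m' ⬝ᵥ A.a k) • A.l k) ⬝ᵥ A.a m)) • A.l m -
      ((A.z k - 1) * (A.l m' ⬝ᵥ A.a k)) • A.l k := by
    rw [h1, smul_smul, add_sub_cancel_right]
  rw [h2]
  exact Submodule.sub_mem _ (Submodule.smul_mem _ _ hm) (Submodule.smul_mem _ _ hk)

theorem P_comm_TX {i j k : A.ι} (hk : k ∈ A.cls i j) :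
    A.P k * TX A i j = TX A i j * A.P k := by
  apply comm_of_g
  obtain ⟨e, he⟩ := exists_perm A k
  have himg : (A.cls i j).image e = A.cls i j := by
    apply Finset.eq_of_subset_of_card_le
    · intro m hm
      obtain ⟨m0, hm0, rfl⟩ := Finset.mem_image.1 hm
      exact perm_mem A hk hm0 (he m0)
    · rw [Finset.card_image_of_injective _ e.injective]
  calc (A.g k : Matrix σ σ ℂ) * TX A i j
      = ∑ m ∈ A.cls i j, A.P (e m) * (A.g k : Matrix σ σ ℂ) := by
        unfold TX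
        rw [Finset.mul_sum]
        exact Finset.sum_congr rfl fun m _ => he m
    _ = (∑ m ∈ A.cls i j, A.P (e m)) * (A.g k : Matrix σ σ ℂ) := by rw [Finset.sum_mul]
    _ = (∑ m ∈ (A.cls i j).image e, A.P m) * (A.g k : Matrix σ σ ℂ) := by
        rw [Finset.sum_image fun a _ b _ hab => e.injective hab]
    _ = TX A i j * (A.g k : Matrix σ σ ℂ) := by
        rw [himg]
        rfl

/-- The eigenvalue. -/
noncomputable def mu (i j k : A.ι) : ℂ := (A.l k ᵥ* TX A i j) ⬝ᵥ A.a k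

theorem l_eig {i j k : A.ι} (hk : k ∈ A.cls i j) :
    A.l k ᵥ* TX A i j = mu A i j k • A.l k := by
  have h : A.l k ᵥ* (A.P k * TX A i j) = A.l k ᵥ* (TX A i j * A.P k) := by
    rw [P_comm_TX A hk]
  rwa [← vecMul_vecMul, ← vecMul_vecMul, vecMul_P, vecMul_P, A.la, one_smul] at h

theorem a_eig {i j k : A.ι} (hk : k ∈ A.cls i j) :
    TX A i j *ᵥ A.a k = mu A i j k • A.a k := by
  have h : (A.P k * TX A i j) *ᵥ A.a k = (TX A i j * A.P k) *ᵥ A.a k := by
    rw [P_comm_TX A hk]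
  rw [← mulVec_mulVec, ← mulVec_mulVec, P_mulVec, P_mulVec, A.la, one_smul,
    dotProduct_mulVec] at h
  exact h.symm

theorem mu_add {i j : A.ι} (hij : i ≠ j) :
    mu A i j i + mu A i j j = ((A.cls i j).card : ℂ) := by
  have hli := LinearIndependent.pair_iff.1 (A.li i j hij)
  have hex : ∀ m : A.ι, ∃ c : ℂ × ℂ, m ∈ A.cls i j → c.1 • A.l i + c.2 • A.l j = A.l m := by
    intro m
    by_cases hm : m ∈ A.cls i j
    · obtain ⟨x, y, h⟩ := Submodule.mem_span_pair.1 ((mem_cls_iff A i j m).1 hm)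
      exact ⟨(x, y), fun _ => h⟩
    · exact ⟨0, fun h => absurd h hm⟩
  choose c hc using hex
  have key : ∀ v : σ → ℂ, v ᵥ* TX A i j =
      (∑ m ∈ A.cls i j, (v ⬝ᵥ A.a m) * (c m).1) • A.l i +
      (∑ m ∈ A.cls i j, (v ⬝ᵥ A.a m) * (c m).2) • A.l j := by
    intro v
    rw [vecMul_TX, Finset.sum_smul, Finset.sum_smul, ← Finset.sum_add_distrib]
    refine Finset.sum_congr rfl fun m hm => ?_
    rw [← smul_smul, ← smul_smul, ← smul_add, hc m hm]
  have h1 := key (A.l i)
  have h2 := key (A.l j)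
  rw [l_eig A (left_mem_cls A i j)] at h1
  rw [l_eig A (right_mem_cls A i j)] at h2
  have h3 := hli (mu A i j i - ∑ m ∈ A.cls i j, (A.l i ⬝ᵥ A.a m) * (c m).1)
    (-∑ m ∈ A.cls i j, (A.l i ⬝ᵥ A.a m) * (c m).2) (by
      rw [sub_smul, h1, neg_smul]
      abel)
  have h4 := hli (-∑ m ∈ A.cls i j, (A.l j ⬝ᵥ A.a m) * (c m).1)
    (mu A i j j - ∑ m ∈ A.cls i j, (A.l j ⬝ᵥ A.a m) * (c m).2) (by
      rw [sub_smul, h2, neg_smul]
      abel)
  rw [sub_eq_zero.1 h3.1, sub_eq_zero.1 h4.2, ← Finset.sum_add_distrib]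
  rw [Finset.cast_card]
  refine Finset.sum_congr rfl fun m hm => ?_
  rw [← A.la m]
  conv_rhs => rw [← hc m hm, add_dotProduct, smul_dotProduct, smul_dotProduct, smul_eq_mul,
    smul_eq_mul]
  ring

theorem mu_eq {i j : A.ι} (hij : i ≠ j) : mu A i j i = mu A i j j := by
  have hli := LinearIndependent.pair_iff.1 (A.li i j hij)
  by_cases hex : ∃ k ∈ A.cls i j, k ≠ i ∧ k ≠ j
  · obtain ⟨k, hk, hki, hkj⟩ := hex
    obtain ⟨x, y, h⟩ := Submodule.mem_span_pair.1 ((mem_cls_iff A i j k).1 hk)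
    have hx : x ≠ 0 := by
      rintro rfl
      rw [zero_smul, zero_add] at h
      exact l_not_smul' A (Ne.symm hkj) y h.symm
    have hy : y ≠ 0 := by
      rintro rfl
      rw [zero_smul, add_zero] at h
      exact l_not_smul' A (Ne.symm hki) x h.symm
    have h1 := l_eig A hk
    rw [← h, add_vecMul, smul_vecMul, smul_vecMul, l_eig A (left_mem_cls A i j),
      l_eig A (right_mem_cls A i j)] at h1
    have h2 := hli (x * (mu A i j i - mu A i j k)) (y * (mu A i j j - mu A i j k)) (by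
      have h3 : (x * (mu A i j i - mu A i j k)) • A.l i +
          (y * (mu A i j j - mu A i j k)) • A.l j =
          (x • mu A i j i • A.l i + y • mu A i j j • A.l j) -
            mu A i j k • (x • A.l i + y • A.l j) := by
        simp only [smul_smul, smul_add, mul_sub, sub_smul, mul_comm (mu A i j k)]
        abel
      rw [h3, h1, sub_self])
    have h4 := sub_eq_zero.1 ((mul_eq_zero.1 h2.1).resolve_left hx)
    have h5 := sub_eq_zero.1 ((mul_eq_zero.1 h2.2).resolve_left hy)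
    rw [h4, h5]
  · push Not at hex
    have hcls : A.cls i j = {i, j} := by
      ext k
      rw [Finset.mem_insert, Finset.mem_singleton]
      constructor
      · intro hk
        by_cases hki : k = i
        · exact Or.inl hki
        · exact Or.inr (hex k hk hki)
      · rintro (rfl | rfl)
        · exact left_mem_cls A _ _
        · exact right_mem_cls A _ _
    have h1 := l_eig A (left_mem_cls A i j)
    have h2 := l_eig A (right_mem_cls A i j)
    rw [vecMul_TX, hcls, Finset.sum_pair hij, A.la] at h1 h2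
    have h3 := hli (1 - mu A i j i) (A.l i ⬝ᵥ A.a j) (by
      rw [sub_smul, sub_add_eq_add_sub, h1, sub_self])
    have h4 := hli (A.l j ⬝ᵥ A.a i) (1 - mu A i j j) (by
      rw [sub_smul, ← add_sub_assoc, h2, sub_self])
    rw [← sub_eq_zero.1 h3.1, ← sub_eq_zero.1 h4.2]

theorem mu_left {i j : A.ι} (hij : i ≠ j) : mu A i j i = ((A.cls i j).card / 2 : ℂ) := by
  have h1 := mu_add A hij
  rw [← mu_eq A hij] at h1
  rw [← h1]
  ring

theorem mu_val {i j k : A.ι} (hij : i ≠ j) (hk : k ∈ A.cls i j) :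
    mu A i j k = ((A.cls i j).card / 2 : ℂ) := by
  obtain ⟨x, y, h⟩ := Submodule.mem_span_pair.1 ((mem_cls_iff A i j k).1 hk)
  have h1 : A.l k ᵥ* TX A i j = ((A.cls i j).card / 2 : ℂ) • A.l k := by
    rw [← h, add_vecMul, smul_vecMul, smul_vecMul, l_eig A (left_mem_cls A i j),
      l_eig A (right_mem_cls A i j), ← mu_eq A hij, mu_left A hij, smul_add, smul_comm x,
      smul_comm y]
  unfold mu
  rw [h1, smul_dotProduct, A.la, smul_eq_mul, mul_one]

end Rank2Aux

theorem rank2_l {i j k : A.ι} (hij : i ≠ j) (hk : k ∈ A.cls i j) :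
    ∑ m ∈ A.cls i j, (A.l k ⬝ᵥ A.a m) • A.l m = ((A.cls i j).card / 2 : ℂ) • A.l k := by
  rw [← vecMul_TX, l_eig A hk, mu_val A hij hk]

theorem rank2_a {i j k : A.ι} (hij : i ≠ j) (hk : k ∈ A.cls i j) :
    ∑ m ∈ A.cls i j, (A.l m ⬝ᵥ A.a k) • A.a m = ((A.cls i j).card / 2 : ℂ) • A.a k := by
  rw [← TX_mulVec, a_eig A hk, mu_val A hij hk]

theorem t_self (i : A.ι) : A.t i i = 1 := by
  unfold t
  rw [A.la, one_mul]

theorem t_ne_one {i j : A.ι} (hij : i ≠ j) : A.t i j ≠ 1 := by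
  intro ht
  unfold t at ht
  set u : σ → ℂ := A.a i - (A.l j ⬝ᵥ A.a i) • A.a j with hu
  have h1 : A.l j ⬝ᵥ u = 0 := by
    rw [hu, dotProduct_sub, dotProduct_smul, A.la, smul_eq_mul, mul_one, sub_self]
  have h2 : A.l i ⬝ᵥ u = 0 := by
    rw [hu, dotProduct_sub, dotProduct_smul, A.la, smul_eq_mul, mul_comm, ht, sub_self]
  have h3 : TX A i j *ᵥ u = 0 := by
    rw [TX_mulVec]
    refine Finset.sum_eq_zero fun m hm => ?_
    obtain ⟨x, y, h⟩ := Submodule.mem_span_pair.1 ((mem_cls_iff A i j m).1 hm)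
    rw [← h, add_dotProduct, smul_dotProduct, smul_dotProduct, h1, h2, smul_zero, smul_zero,
      add_zero, zero_smul]
  have h4 : TX A i j *ᵥ u = ((A.cls i j).card / 2 : ℂ) • u := by
    rw [hu, mulVec_sub, mulVec_smul, a_eig A (left_mem_cls A i j), a_eig A (right_mem_cls A i j),
      mu_val A hij (left_mem_cls A i j), mu_val A hij (right_mem_cls A i j), smul_sub,
      smul_comm (A.l j ⬝ᵥ A.a i)]
  rw [h3] at h4
  have hcard : ((A.cls i j).card / 2 : ℂ) ≠ 0 := by
    refine div_ne_zero ?_ two_ne_zero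
    rw [Nat.cast_ne_zero]
    exact (Finset.card_pos.2 ⟨i, left_mem_cls A i j⟩).ne'
  have h5 : u = 0 := (smul_eq_zero.1 h4.symm).resolve_left hcard
  exact a_not_smul' A (Ne.symm hij) _ (sub_eq_zero.1 h5)

/-- `T` commutes with the `P k`. -/
theorem T_mul_P (k : A.ι) : A.T * A.P k = A.P k * A.T := by
  symm
  apply comm_of_g
  obtain ⟨e, he⟩ := exists_perm A k
  unfold T
  rw [Finset.mul_sum, Finset.sum_mul,
    ← Equiv.sum_comp e (fun m => A.P m * (A.g k : Matrix σ σ ℂ))]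
  exact Finset.sum_congr rfl fun m _ => he m

end Datum

end Pool.Agent.Lib.P4a9818
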