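import Pool.Agent.Lib.P4a9818.Rank2

/-!
# P4a9818.Reps : representatives of the flats in `H_i`, class sums, the numbers `D` and `λ`
(estimate 1.8 h)

Fix `i`. On `{j | j ≠ i}` the relation `cls i j = cls i k` is an equivalence relation with classes
`(cls i j).erase i` (`Rank2.cls_eq`).
* `isRep_rep`: choose one element in each class (image of `univ.erase i` under a choice function
  `j ↦ choose (cls i j)`, where the choice depends only on the finset `cls i j`).
* `sum_class_zero`: if `∑_{k ∈ (cls i j).erase i} φ k = 0` for all `j ≠ i` then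
  `∑_{k ≠ i} φ k = 0` (partition of `univ.erase i` into the classes, `Finset.sum_biUnion` over
  `rep i`, or `Finset.sum_fiberwise`).
* `class_sum`: for `p, w` with `l i ⬝ p = l i ⬝ w = 0`, `p` generic, the quotient
  `(l k ⬝ w)/(l k ⬝ p)` is constant on each class (for `k, k'` in the same class
  `l k' = x l i + y l k`, `y ≠ 0`), so the weighted sum vanishes as well.
* `card_rep`: the class sums of `φ k = 1 - 2 t i k - [k ∈ rep i]` vanish: with `c = card (cls i j)`,
  `(c - 1) - 2 (c/2 - 1) - 1 = 0` (`∑_{k∈cls i j} t i k = c/2` is `rank2_l` with `k := i`,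
  dotted with `a i`; `t i i = 1`; exactly one representative in each class).
  Hence `(N - 1) - 2 (∑_{k≠i} t i k) - card (rep i) = 0`.
* `scal_exists`: if `T = λ`, then `∑_k t i k = l i T a i = λ`, so `card (rep i) = N + 1 - 2λ` does
  not depend on `i`. Trace of `T`: `card σ * λ = N` (`trace (P i) = l i ⬝ a i = 1`), which gives
  `hN`. `rep i ⊆ univ.erase i` gives `hD`. `2λ = N + 1 - D ≥ 2`, so `T` is invertible, and
  `card σ = rank T ≤ ∑ rank (P i) ≤ N` (or: the `a i` span).
-/

namespace Pool.Agent.Lib.P4a9818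

open MvPolynomial Matrix

variable {σ : Type} [Fintype σ] [DecidableEq σ] (A : Datum σ)

namespace Datum

namespace RepsAux

theorem exists_isRep (i : A.ι) : ∃ s, A.IsRep i s := by
  classical
  set c : Finset A.ι → A.ι := fun F => if h : (F.erase i).Nonempty then h.choose else i with hc
  have hc1 : ∀ j, j ≠ i → c (A.cls i j) ∈ (A.cls i j).erase i := by
    intro j hj
    have h : ((A.cls i j).erase i).Nonempty := ⟨j, Finset.mem_erase.2 ⟨hj, right_mem_cls A i j⟩⟩
    rw [hc]
    simp only [dif_pos h]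
    exact h.choose_spec
  refine ⟨(Finset.univ.erase i).image fun j => c (A.cls i j), ?_, ?_⟩
  · intro h
    obtain ⟨j, hj, hji⟩ := Finset.mem_image.1 h
    have h1 := hc1 j (Finset.ne_of_mem_erase hj)
    rw [hji] at h1
    exact Finset.ne_of_mem_erase h1 rfl
  · intro j hj
    refine ⟨c (A.cls i j), ⟨Finset.mem_image.2 ⟨j, Finset.mem_erase.2 ⟨hj, Finset.mem_univ j⟩, rfl⟩,
      Finset.mem_of_mem_erase (hc1 j hj)⟩, ?_⟩
    rintro r ⟨hr1, hr2⟩
    obtain ⟨j', hj', rfl⟩ := Finset.mem_image.1 hr1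
    have hj'i := Finset.ne_of_mem_erase hj'
    have h1 := hc1 j' hj'i
    have h2 := A.cls_eq hj'i (Finset.mem_of_mem_erase h1) (Finset.ne_of_mem_erase h1)
    have h3 := A.cls_eq hj hr2 (Finset.ne_of_mem_erase h1)
    have h4 : A.cls i j' = A.cls i j := h2.symm.trans h3
    show c (A.cls i j') = c (A.cls i j)
    rw [h4]

end RepsAux

open RepsAux

theorem isRep_rep (i : A.ι) : A.IsRep i (A.rep i) := by
  have h := exists_isRep A i
  unfold rep
  rw [dif_pos h]
  exact h.choose_spec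

namespace RepsAux

theorem erase_eq_biUnion (i : A.ι) :
    Finset.univ.erase i = (A.rep i).biUnion fun r => (A.cls i r).erase i := by
  obtain ⟨hi, hrep⟩ := isRep_rep A i
  ext k
  simp only [Finset.mem_erase, Finset.mem_univ, and_true, Finset.mem_biUnion]
  constructor
  · intro hk
    obtain ⟨r, ⟨hr1, hr2⟩, -⟩ := hrep k hk
    have hri : r ≠ i := fun h => hi (h ▸ hr1)
    refine ⟨r, hr1, hk, ?_⟩
    rw [A.cls_eq hk hr2 hri]
    exact right_mem_cls A i k
  · rintro ⟨r, -, hk, -⟩
    exact hk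

theorem mem_cls_symm {i r k : A.ι} (hr : r ≠ i) (hk : k ≠ i) (h : k ∈ A.cls i r) :
    r ∈ A.cls i k := by
  rw [A.cls_eq hr h hk]
  exact right_mem_cls A i r

theorem pairwise_disj (i : A.ι) :
    (↑(A.rep i) : Set A.ι).PairwiseDisjoint fun r => (A.cls i r).erase i := by
  obtain ⟨hi, hrep⟩ := isRep_rep A i
  intro r hr r' hr' hne
  refine Finset.disjoint_left.2 fun k hk hk' => hne ?_
  rw [Finset.mem_erase] at hk hk'
  have hri : r ≠ i := fun h => hi (h ▸ hr)
  have hri' : r' ≠ i := fun h => hi (h ▸ hr')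
  exact (hrep k hk.1).unique ⟨hr, mem_cls_symm A hri hk.1 hk.2⟩
    ⟨hr', mem_cls_symm A hri' hk.1 hk'.2⟩

theorem sum_split {E : Type} [AddCommMonoid E] (i : A.ι) (φ : A.ι → E) :
    ∑ k ∈ Finset.univ.erase i, φ k = ∑ r ∈ A.rep i, ∑ k ∈ (A.cls i r).erase i, φ k := by
  rw [erase_eq_biUnion, Finset.sum_biUnion (pairwise_disj A i)]

end RepsAux

theorem sum_class_zero {E : Type} [AddCommGroup E] [Module ℂ E] (i : A.ι) (φ : A.ι → E)
    (h : ∀ j, j ≠ i → ∑ k ∈ (A.cls i j).erase i, φ k = 0) :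
    ∑ k ∈ Finset.univ.erase i, φ k = 0 := by
  rw [sum_split]
  refine Finset.sum_eq_zero fun r hr => h r ?_
  rintro rfl
  exact (isRep_rep A r).1 hr

theorem class_sum {E : Type} [AddCommGroup E] [Module ℂ E] (i : A.ι) (φ : A.ι → E)
    (h : ∀ j, j ≠ i → ∑ k ∈ (A.cls i j).erase i, φ k = 0) {p w : σ → ℂ} (hp : A.Gen i p)
    (hw : A.l i ⬝ᵥ w = 0) :
    ∑ k ∈ Finset.univ.erase i, ((A.l k ⬝ᵥ w) / (A.l k ⬝ᵥ p)) • φ k = 0 := by
  refine sum_class_zero A i _ fun j hj => ?_
  have h1 : ∀ k ∈ (A.cls i j).erase i, ((A.l k ⬝ᵥ w) / (A.l k ⬝ᵥ p)) • φ k =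
      ((A.l j ⬝ᵥ w) / (A.l j ⬝ᵥ p)) • φ k := by
    intro k hk
    rw [Finset.mem_erase] at hk
    obtain ⟨x, y, hxy⟩ := Submodule.mem_span_pair.1 ((mem_cls_iff A i j k).1 hk.2)
    have hy : y ≠ 0 := by
      rintro rfl
      rw [zero_smul, add_zero] at hxy
      exact l_not_smul A (Ne.symm hk.1) x hxy.symm
    rw [← hxy, add_dotProduct, add_dotProduct, smul_dotProduct, smul_dotProduct,
      smul_dotProduct, smul_dotProduct, hw, hp.1, smul_zero, zero_add, zero_add, smul_eq_mul,
      smul_eq_mul, mul_div_mul_left _ _ hy]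
  rw [Finset.sum_congr rfl h1, ← Finset.smul_sum, h j hj, smul_zero]

/-- The class sums of `1 - 2 t i k - [k ∈ rep i]` vanish. -/
theorem class_sum_rep (i : A.ι) (j : A.ι) (hj : j ≠ i) :
    ∑ k ∈ (A.cls i j).erase i,
      ((1 : ℂ) - 2 * A.t i k - (open Classical in if k ∈ A.rep i then (1 : ℂ) else 0)) = 0 := by
  classical
  obtain ⟨hi, hrep⟩ := isRep_rep A i
  obtain ⟨r, ⟨hr1, hr2⟩, hru⟩ := hrep j hj
  have hri : r ≠ i := fun h => hi (h ▸ hr1)
  rw [Finset.sum_sub_distrib, Finset.sum_sub_distrib, ← Finset.mul_sum]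
  have h1 : ∑ k ∈ (A.cls i j).erase i,
      (open Classical in if k ∈ A.rep i then (1 : ℂ) else 0) = 1 := by
    rw [Finset.sum_eq_single r]
    · rw [if_pos hr1]
    · intro k hk hkr
      rw [Finset.mem_erase] at hk
      rw [if_neg fun h => hkr (hru k ⟨h, hk.2⟩)]
    · intro h
      exact absurd (Finset.mem_erase.2 ⟨hri, hr2⟩) h
  have h2 : A.t i i + ∑ k ∈ (A.cls i j).erase i, A.t i k = ((A.cls i j).card / 2 : ℂ) := by
    rw [Finset.add_sum_erase _ _ (left_mem_cls A i j)]
    have h := congrArg (fun v => v ⬝ᵥ A.a i) (rank2_l A (Ne.symm hj) (left_mem_cls A i j))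
    simp only [sum_dotProduct, smul_dotProduct, A.la, smul_eq_mul, mul_one] at h
    exact h
  have h3 : ∑ k ∈ (A.cls i j).erase i, (1 : ℂ) = (A.cls i j).card - 1 := by
    rw [eq_sub_iff_add_eq', Finset.add_sum_erase _ (fun _ => (1 : ℂ)) (left_mem_cls A i j)]
    simp
  rw [h1, h3]
  rw [t_self] at h2
  linear_combination (-2 : ℂ) * h2

namespace RepsAux

theorem sum_t_erase (i : A.ι) :
    ∑ k ∈ Finset.univ.erase i, A.t i k = ∑ k, A.t i k - 1 := by
  rw [eq_sub_iff_add_eq', ← t_self A i, Finset.add_sum_erase _ _ (Finset.mem_univ i)]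

end RepsAux

theorem card_rep (i : A.ι) : ((A.rep i).card : ℂ) = A.N + 1 - 2 * ∑ k, A.t i k := by
  classical
  have h := sum_class_zero A i _ (class_sum_rep A i)
  rw [Finset.sum_sub_distrib, Finset.sum_sub_distrib, ← Finset.mul_sum, sum_t_erase,
    Finset.sum_boole] at h
  have h1 : (Finset.univ.erase i).filter (fun k => k ∈ A.rep i) = A.rep i := by
    ext k
    simp only [Finset.mem_filter, Finset.mem_erase, Finset.mem_univ, and_true]
    constructor
    · exact fun h => h.2
    · intro hk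
      exact ⟨fun h => (isRep_rep A i).1 (h ▸ hk), hk⟩
  have h2 : ∑ k ∈ Finset.univ.erase i, (1 : ℂ) = A.N - 1 := by
    rw [eq_sub_iff_add_eq', Finset.add_sum_erase _ (fun _ => (1 : ℂ)) (Finset.mem_univ i)]
    simp [N]
  have h3 : ((((Finset.univ.erase i).filter (fun k => k ∈ A.rep i)).card : ℕ) : ℂ) =
      ((A.rep i).card : ℂ) := by rw [h1]
  rw [h2] at h
  have h4 : (A.N : ℂ) - 1 - 2 * (∑ k, A.t i k - 1) - ((A.rep i).card : ℂ) = 0 := by
    rw [← h3]
    convert h using 4
  linear_combination -h4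

theorem sum_card_cls (i : A.ι) :
    ∑ r ∈ A.rep i, ((A.cls i r).card - 1) = A.N - 1 := by
  have h := sum_split A i (fun _ => (1 : ℕ))
  simp only [Finset.sum_const, smul_eq_mul, mul_one] at h
  rw [Finset.card_erase_of_mem (Finset.mem_univ i), Finset.card_univ] at h
  unfold N
  rw [h]
  refine Finset.sum_congr rfl fun r _ => ?_
  rw [Finset.card_erase_of_mem (left_mem_cls A i r)]

namespace RepsAux

theorem T_mulVec' (x : σ → ℂ) : A.T *ᵥ x = ∑ k, (A.l k ⬝ᵥ x) • A.a k := by
  unfold T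
  rw [sum_mulVec]
  refine Finset.sum_congr rfl fun k _ => ?_
  unfold P
  rw [vecMulVec_mulVec, op_smul_eq_smul]

theorem sum_t_eq {lam : ℂ} (hT : A.T = lam • 1) (i : A.ι) : ∑ k, A.t i k = lam := by
  have h := T_mulVec' A (A.a i)
  rw [hT, smul_mulVec, one_mulVec] at h
  have h1 := congrArg (fun v => A.l i ⬝ᵥ v) h
  simp only [dotProduct_sum, dotProduct_smul, A.la, smul_eq_mul, mul_one] at h1
  rw [h1]
  unfold t
  exact Finset.sum_congr rfl fun k _ => mul_comm _ _

theorem trace_eq {lam : ℂ} (hT : A.T = lam • 1) : (Fintype.card σ : ℂ) * lam = A.N := by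
  have h : A.T.trace = A.N := by
    unfold T
    rw [trace_sum]
    have h1 : ∀ i, (A.P i).trace = 1 := by
      intro i
      unfold P
      rw [trace_vecMulVec, dotProduct_comm, A.la]
    simp [h1, N]
  rw [← h, hT, trace_smul, trace_one, smul_eq_mul, mul_comm]

end RepsAux

theorem scal_exists {lam : ℂ} (hT : A.T = lam • 1) (hne : Nonempty A.ι) :
    ∃ D, A.Scal lam D := by
  obtain ⟨i0⟩ := hne
  have hcard : ∀ i, ((A.rep i).card : ℂ) = A.N + 1 - 2 * lam := by
    intro i
    rw [card_rep, sum_t_eq A hT]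
  have hD : (A.rep i0).card < A.N := by
    have h1 : A.rep i0 ⊆ Finset.univ.erase i0 := by
      intro k hk
      rw [Finset.mem_erase]
      exact ⟨fun h => (isRep_rep A i0).1 (h ▸ hk), Finset.mem_univ k⟩
    have h2 := Finset.card_le_card h1
    rw [Finset.card_erase_of_mem (Finset.mem_univ i0), Finset.card_univ] at h2
    have h3 : 0 < Fintype.card A.ι := Fintype.card_pos_iff.2 ⟨i0⟩
    unfold N
    omega
  have hlam : 2 * lam = A.N + 1 - ((A.rep i0).card : ℂ) := by
    rw [hcard i0]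
    ring
  refine ⟨(A.rep i0).card, ⟨hT, ⟨i0⟩, hlam, ?_, ?_, hD, ?_⟩⟩
  · intro i
    have h1 : ((A.rep i).card : ℂ) = ((A.rep i0).card : ℂ) := by rw [hcard, hcard]
    exact_mod_cast h1
  · have h1 := trace_eq A hT
    have h2 : (Fintype.card σ : ℂ) * (A.N + 1) =
        2 * A.N + Fintype.card σ * ((A.rep i0).card : ℂ) := by
      rw [← h1]
      linear_combination (-(Fintype.card σ : ℂ)) * hlam + (Fintype.card σ : ℂ) * h1
    exact_mod_cast h2
  · have hlam0 : lam ≠ 0 := by
      rintro rfl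
      rw [mul_zero] at hlam
      have h1 : ((A.rep i0).card : ℂ) = ((A.N + 1 : ℕ) : ℂ) := by
        push_cast
        linear_combination hlam
      have h2 : (A.rep i0).card = A.N + 1 := by exact_mod_cast h1
      omega
    have hspan : Submodule.span ℂ (Set.range A.a) = ⊤ := by
      rw [eq_top_iff]
      intro x _
      have h := T_mulVec' A x
      rw [hT, smul_mulVec, one_mulVec] at h
      have h1 : x = lam⁻¹ • ∑ k, (A.l k ⬝ᵥ x) • A.a k := by
        rw [← h, smul_smul, inv_mul_cancel₀ hlam0, one_smul]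
      rw [h1]
      exact Submodule.smul_mem _ _ (Submodule.sum_mem _ fun k _ =>
        Submodule.smul_mem _ _ (Submodule.subset_span ⟨k, rfl⟩))
    have h1 := finrank_range_le_card (R := ℂ) A.a
    rw [Set.finrank, hspan, finrank_top, Module.finrank_fintype_fun_eq_card] at h1
    exact h1

end Datum

end Pool.Agent.Lib.P4a9818
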