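import Pool.Agent.Lib.P4a9818.Rank2

/-!
# P4a9818.Sym : sums which vanish by the symmetry `g i`   (estimate 1.5 h)

Let `s = g i`, `z = z i`, `e = ` the permutation of `Rank2.exists_perm i`: `s P j = P (e j) s`.
Then `e i = i` (`s` commutes with `P i`). For every `j` there is `μ ≠ 0` with
`l (e j) = μ l j s⁻¹` and `a (e j) = μ⁻¹ s a j` (rank one matrices:
`vecMulVec (a (e j)) (l (e j)) = vecMulVec (s a j) (l j s⁻¹)`).
Since `s a i = z a i`, `l i s = z l i`, `s b = b` for `b ∈ H_i`: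
`l (e j) ⬝ a i = μ z⁻¹ (l j ⬝ a i)`, `l (e j) ⬝ b = μ (l j ⬝ b)`, `l i ⬝ a (e j) = μ⁻¹ z (l i ⬝ a j)`,
`t i (e j) = t i j`, `l (e k) ⬝ a (e j) = μ_k μ_j⁻¹ (l k ⬝ a j)`.
In each sum the summand at `e j` (resp. `(e j, e k)`) is `z⁻¹` times the summand at `j`
(resp. `(j, k)`); reindexing by `e` (a permutation of `univ.erase i`) the sum `S` satisfies
`S = z⁻¹ S`, so `S = 0` because `z ≠ 1`.
Here `p` and `b` are in `H_i` (so `s p = p`), and for `S2b` expand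
`l k ⬝ (a j - (l i ⬝ a j) a i) = l k ⬝ a j - (l i ⬝ a j)(l k ⬝ a i)`; both parts scale in the same way.
-/

namespace Pool.Agent.Lib.P4a9818

open MvPolynomial Matrix

variable {σ : Type} [Fintype σ] [DecidableEq σ] (A : Datum σ)

namespace Datum

namespace SymAux

/-- the action of the reflection `g i` on the vectors `a j` and on the forms `l j` -/
theorem key (i : A.ι) : ∃ (e : Equiv.Perm A.ι) (c : A.ι → ℂ), e i = i ∧ (∀ j, c j ≠ 0) ∧
    (∀ j, (A.g i : Matrix σ σ ℂ) *ᵥ A.a j = c j • A.a (e j)) ∧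
    (∀ j, A.l (e j) ᵥ* (A.g i : Matrix σ σ ℂ) = c j • A.l j) := by
  obtain ⟨e, he⟩ := A.exists_perm i
  have heq : ∀ j, vecMulVec ((A.g i : Matrix σ σ ℂ) *ᵥ A.a j) (A.l j) =
      vecMulVec (A.a (e j)) (A.l (e j) ᵥ* (A.g i : Matrix σ σ ℂ)) := by
    intro j
    have := he j
    unfold Datum.P at this
    rwa [mul_vecMulVec, vecMulVec_mul] at this
  have h2 : ∀ j, A.l (e j) ᵥ* (A.g i : Matrix σ σ ℂ) =
      (A.l (e j) ⬝ᵥ ((A.g i : Matrix σ σ ℂ) *ᵥ A.a j)) • A.l j := by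
    intro j
    have := congrArg (fun M => A.l (e j) ᵥ* M) (heq j)
    simp only [vecMul_vecMulVec, A.la, one_smul] at this
    exact this.symm
  have h1 : ∀ j, (A.g i : Matrix σ σ ℂ) *ᵥ A.a j =
      (A.l (e j) ⬝ᵥ ((A.g i : Matrix σ σ ℂ) *ᵥ A.a j)) • A.a (e j) := by
    intro j
    have := congrArg (fun M => M *ᵥ A.a j) (heq j)
    simp only [vecMulVec_mulVec, A.la, MulOpposite.op_one, one_smul] at this
    rw [h2 j, smul_dotProduct, A.la, smul_eq_mul, mul_one] at this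
    rw [op_smul_eq_smul] at this
    exact this
  refine ⟨e, fun j => A.l (e j) ⬝ᵥ ((A.g i : Matrix σ σ ℂ) *ᵥ A.a j), ?_, ?_, h1, h2⟩
  · apply A.P_injective
    have h3 := he i
    have h4 : (A.g i : Matrix σ σ ℂ) * A.P i = A.P i * (A.g i : Matrix σ σ ℂ) := by
      rw [A.hg i]
      unfold Datum.P
      simp [mul_add, add_mul]
    rw [h3] at h4
    have h5 := congrArg (fun M => M * ((A.g i)⁻¹ : GL σ ℂ).1) h4
    simpa [mul_assoc] using h5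
  · intro j hj
    have h3 := h2 j
    simp only at hj
    rw [hj, zero_smul] at h3
    have h4 := congrArg (fun v => v ᵥ* ((A.g i)⁻¹ : GL σ ℂ).1) h3
    simp only [vecMul_vecMul, zero_vecMul] at h4
    rw [show ((A.g i : Matrix σ σ ℂ)) * ((A.g i)⁻¹ : GL σ ℂ).1 = 1 from Units.mul_inv _,
      vecMul_one] at h4
    exact A.l_ne_zero _ h4

theorem gl_vec (i : A.ι) {b : σ → ℂ} (hb : A.l i ⬝ᵥ b = 0) :
    (A.g i : Matrix σ σ ℂ) *ᵥ b = b := by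
  rw [A.hg i, add_mulVec, one_mulVec, smul_mulVec, vecMulVec_mulVec, hb]
  simp

theorem gl_a (i : A.ι) : (A.g i : Matrix σ σ ℂ) *ᵥ A.a i = A.z i • A.a i := by
  rw [A.hg i, add_mulVec, one_mulVec, smul_mulVec, vecMulVec_mulVec, A.la]
  simp only [MulOpposite.op_one, one_smul, sub_smul]
  abel

theorem gl_l (i : A.ι) : A.l i ᵥ* (A.g i : Matrix σ σ ℂ) = A.z i • A.l i := by
  rw [A.hg i, vecMul_add, vecMul_one, vecMul_smul, vecMul_vecMulVec, A.la]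
  simp only [one_smul, sub_smul]
  abel

/-- the scalings under the permutation `e` -/
theorem scal (i : A.ι) : ∃ (e : Equiv.Perm A.ι) (c : A.ι → ℂ), e i = i ∧ (∀ j, c j ≠ 0) ∧
    (∀ j, A.l (e j) ⬝ᵥ A.a i = (A.z i)⁻¹ * c j * (A.l j ⬝ᵥ A.a i)) ∧
    (∀ j b, A.l i ⬝ᵥ b = 0 → A.l (e j) ⬝ᵥ b = c j * (A.l j ⬝ᵥ b)) ∧
    (∀ j, A.t i (e j) = A.t i j) ∧
    (∀ j, A.a (e j) - (A.l i ⬝ᵥ A.a (e j)) • A.a i =
      (c j)⁻¹ • (A.a j - (A.l i ⬝ᵥ A.a j) • A.a i)) := by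
  obtain ⟨e, c, h1, h2, h3, h4⟩ := key A i
  have hz := A.z_ne_zero i
  have e1 : ∀ j, A.l (e j) ⬝ᵥ A.a i = (A.z i)⁻¹ * c j * (A.l j ⬝ᵥ A.a i) := by
    intro j
    have h5 : A.l (e j) ⬝ᵥ ((A.g i : Matrix σ σ ℂ) *ᵥ A.a i) = c j * (A.l j ⬝ᵥ A.a i) := by
      rw [dotProduct_mulVec, h4, smul_dotProduct, smul_eq_mul]
    rw [gl_a, dotProduct_smul, smul_eq_mul] at h5
    rw [mul_assoc, ← h5]
    field_simp
  have e2 : ∀ j b, A.l i ⬝ᵥ b = 0 → A.l (e j) ⬝ᵥ b = c j * (A.l j ⬝ᵥ b) := by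
    intro j b hb
    have h5 : A.l (e j) ⬝ᵥ ((A.g i : Matrix σ σ ℂ) *ᵥ b) = c j * (A.l j ⬝ᵥ b) := by
      rw [dotProduct_mulVec, h4, smul_dotProduct, smul_eq_mul]
    rwa [gl_vec A i hb] at h5
  have e3 : ∀ j, A.l i ⬝ᵥ A.a (e j) = (c j)⁻¹ * A.z i * (A.l i ⬝ᵥ A.a j) := by
    intro j
    have h5 : A.l i ⬝ᵥ ((A.g i : Matrix σ σ ℂ) *ᵥ A.a j) = A.z i * (A.l i ⬝ᵥ A.a j) := by
      rw [dotProduct_mulVec, gl_l, smul_dotProduct, smul_eq_mul]
    rw [h3, dotProduct_smul, smul_eq_mul] at h5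
    have := h2 j
    rw [mul_assoc, ← h5]
    field_simp
  refine ⟨e, c, h1, h2, e1, e2, ?_, ?_⟩
  · intro j
    have := h2 j
    unfold Datum.t
    rw [e1, e3]
    field_simp
  · intro j
    have h5 : A.l i ⬝ᵥ (A.a j - (A.l i ⬝ᵥ A.a j) • A.a i) = 0 := by
      rw [dotProduct_sub, dotProduct_smul, A.la, smul_eq_mul, mul_one, sub_self]
    have h6 := gl_vec A i h5
    rw [mulVec_sub, mulVec_smul, h3, gl_a] at h6
    rw [← h6, e3, smul_sub, smul_smul, smul_smul, smul_smul, inv_mul_cancel₀ (h2 j), one_smul]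
    congr 2
    ring

theorem sum_zero (i : A.ι) (e : Equiv.Perm A.ι) (he : e i = i) (f : A.ι → ℂ)
    (hf : ∀ j, f (e j) = (A.z i)⁻¹ * f j) : ∑ j ∈ Finset.univ.erase i, f j = 0 := by
  have h1 : ∑ j ∈ Finset.univ.erase i, f j = ∑ j ∈ Finset.univ.erase i, f (e j) := by
    symm
    refine Finset.sum_bij' (fun j _ => e j) (fun j _ => e.symm j) ?_ ?_ ?_ ?_ ?_
    · intro j hj
      refine Finset.mem_erase.2 ⟨fun h => (Finset.mem_erase.1 hj).1 ?_, Finset.mem_univ _⟩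
      rw [← he] at h
      exact e.injective h
    · intro j hj
      refine Finset.mem_erase.2 ⟨fun h => (Finset.mem_erase.1 hj).1 ?_, Finset.mem_univ _⟩
      rw [← he, ← h, Equiv.apply_symm_apply]
    · intro j _; simp
    · intro j _; simp
    · intro j _; rfl
  have h2 : ∑ j ∈ Finset.univ.erase i, f (e j) = (A.z i)⁻¹ * ∑ j ∈ Finset.univ.erase i, f j := by
    rw [Finset.mul_sum]
    exact Finset.sum_congr rfl fun j _ => hf j
  rw [h2] at h1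
  have hz := A.z_ne_zero i
  have hz1 := A.hz i
  have h3 : (A.z i - 1) * ∑ j ∈ Finset.univ.erase i, f j = 0 := by
    have h4 : A.z i * ∑ j ∈ Finset.univ.erase i, f j = ∑ j ∈ Finset.univ.erase i, f j := by
      conv_lhs => rw [h1]
      rw [← mul_assoc, mul_inv_cancel₀ hz, one_mul]
    rw [sub_mul, h4, one_mul, sub_self]
  rcases mul_eq_zero.1 h3 with h | h
  · exact absurd (sub_eq_zero.1 h) hz1
  · exact h

theorem om_smul (i : A.ι) (p : σ → ℂ) (c : ℂ) (b : σ → ℂ) : A.om i p (c • b) = c * A.om i p b := by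
  unfold Datum.om
  rw [Finset.mul_sum]
  refine Finset.sum_congr rfl fun j _ => ?_
  rw [dotProduct_smul, smul_eq_mul]
  ring

end SymAux

open SymAux


theorem S1 (i : A.ι) {p : σ → ℂ} (hp : A.Gen i p) :
    ∑ j ∈ Finset.univ.erase i, A.t i j * (A.l j ⬝ᵥ A.a i) / (A.l j ⬝ᵥ p) = 0 := by
  obtain ⟨e, c, he, hc, h1, h2, h3, h4⟩ := scal A i
  refine sum_zero A i e he _ fun j => ?_
  have := hc j
  rw [h1, h2 j p hp.1, h3]
  rcases eq_or_ne (A.l j ⬝ᵥ p) 0 with h0 | h0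
  · simp [h0]
  · field_simp

theorem S2a (i : A.ι) {p b : σ → ℂ} (hp : A.Gen i p) (hb : A.l i ⬝ᵥ b = 0) :
    ∑ j ∈ Finset.univ.erase i, A.t i j * (A.l j ⬝ᵥ b) * (A.l j ⬝ᵥ A.a i) / (A.l j ⬝ᵥ p) ^ 2
      = 0 := by
  obtain ⟨e, c, he, hc, h1, h2, h3, h4⟩ := scal A i
  refine sum_zero A i e he _ fun j => ?_
  have := hc j
  rw [h1, h2 j p hp.1, h2 j b hb, h3]
  rcases eq_or_ne (A.l j ⬝ᵥ p) 0 with h0 | h0
  · simp [h0]
  · field_simp

theorem S2b (i : A.ι) {p b : σ → ℂ} (hp : A.Gen i p) (hb : A.l i ⬝ᵥ b = 0) :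
    ∑ j ∈ Finset.univ.erase i, (A.l j ⬝ᵥ A.a i) * (A.l j ⬝ᵥ b) / (A.l j ⬝ᵥ p) *
      A.om i p (A.a j - (A.l i ⬝ᵥ A.a j) • A.a i) = 0 := by
  obtain ⟨e, c, he, hc, h1, h2, h3, h4⟩ := scal A i
  refine sum_zero A i e he _ fun j => ?_
  have := hc j
  rw [h1, h2 j p hp.1, h2 j b hb, h4, om_smul]
  rcases eq_or_ne (A.l j ⬝ᵥ p) 0 with h0 | h0
  · simp [h0]
  · field_simp

end Datum

end Pool.Agent.Lib.P4a9818
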