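import Pool.Agent.Lib.P4a9818.DopB
import Pool.Agent.Lib.P4a9818.Sym

/-!
# P4a9818.StabA : `Dop (a i)` preserves the conditions of `InLam` along `H_i`   (estimate 2 h)

Fix `i`, `α = a i`, `p` generic on `H_i`, `b ∈ H_i`. Notation (all evaluated at `p`):
`h0 = G(α)`, `h1 = ∂_α G(α)`, where `G(v) = ap G v`; `E_j(v) = quo (G(pr j v)) ℓ_j`, so
`ℓ_j E_j(v) = G(pr j v)` (`LamBasic.lf_dvd_ap_pr`, `mul_quo`). By `ap_Dop`
`(Dop α G)(v) = ∂_α G(v) - 2 ∑_j (l j ⬝ α) E_j(v)`. `InLam G` says `G(b) = 0`,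
`∂_α G(b) = ω(b) h0` (`ω = om i p`) for `b ∈ H_i`. Put `a'_j = a j - (l i ⬝ a j) α ∈ H_i`, so
`G(a j) = (l i ⬝ a j) h0`, `∂_α G(a j) = (l i ⬝ a j) h1 + ω(a'_j) h0`.
* `j ≠ i`: `E_j(v) = G(pr j v)/(l j ⬝ p)` and, differentiating `ℓ_j E_j = G(pr j v)`,
  `∂_α E_j(v) = (∂_α G(pr j v) - (l j ⬝ α) E_j(v))/(l j ⬝ p)`.
* `j = i`: `E_i(v) = ∂_α G(pr i v)`, `∂_α E_i(v) = ½ ∂_α² G(pr i v)` (differentiate
  `ℓ_i E_i = G(pr i v)` once and twice and evaluate at `p`; `l i ⬝ α = 1`).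
* For `b ∈ H_i`: `pr i b = b`, `G(pr j b) = -(l j ⬝ b)(l i ⬝ a j) h0`,
  `∂_α G(pr j b) = ω(b) h0 - (l j ⬝ b)((l i ⬝ a j) h1 + ω(a'_j) h0)`.
* `pr i α = 0`, `E_i(α) = 0`; `G(pr j α) = (1 - t i j) h0`.
Value: `(Dop α G)(b) = ω(b) h0 - 2 ω(b) h0 + 2 h0 ∑_{j≠i} t i j (l j ⬝ b)/(l j ⬝ p) = 0`.
Value at `α`: `(Dop α G)(α) = h1 - 2 ∑_{j≠i} (l j ⬝ α)/(l j ⬝ p) (1 - t i j) h0 = h1 - 2 S h0` by `S1`,
`S = ∑_{j≠i} (l j ⬝ α)/(l j ⬝ p)`.
Derivative: `∂_α (Dop α G)(b) = ∂_α² G(b) - ∂_α² G(b)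
 - 2 ∑_{j≠i} (l j ⬝ α)/(l j ⬝ p) [ω(b) h0 - (l j ⬝ b)(l i ⬝ a j) h1 - (l j ⬝ b) ω(a'_j) h0
    + (l j ⬝ α)(l j ⬝ b)(l i ⬝ a j) h0/(l j ⬝ p)]
 = -2 S ω(b) h0 + ω(b) h1 + 0 (S2b) - 0 (S2a) = ω(b) (h1 - 2 S h0)`.
-/

namespace Pool.Agent.Lib.P4a9818

open MvPolynomial Matrix

variable {σ : Type} [Fintype σ] [DecidableEq σ] (A : Datum σ)

namespace Datum

namespace StabAAux

lemma pr_dot (i j : A.ι) (v : σ → ℂ) :
    A.l i ⬝ᵥ A.pr j v = (A.l i ⬝ᵥ v) - (A.l j ⬝ᵥ v) * (A.l i ⬝ᵥ A.a j) := by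
  unfold pr
  rw [dotProduct_sub, dotProduct_smul, smul_eq_mul]

lemma om_sub (i : A.ι) (p v w : σ → ℂ) :
    A.om i p (v - w) = A.om i p v - A.om i p w := by
  unfold om
  rw [← Finset.sum_sub_distrib]
  refine Finset.sum_congr rfl fun k _ => ?_
  rw [dotProduct_sub]
  ring

lemma om_smul (i : A.ι) (p v : σ → ℂ) (s : ℂ) :
    A.om i p (s • v) = s * A.om i p v := by
  unfold om
  rw [Finset.mul_sum]
  refine Finset.sum_congr rfl fun k _ => ?_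
  rw [dotProduct_smul, smul_eq_mul]
  ring

lemma om_pr (i j : A.ι) {p b : σ → ℂ} (hb : A.l i ⬝ᵥ b = 0) :
    A.om i p (A.pr j b - (A.l i ⬝ᵥ A.pr j b) • A.a i) = A.om i p b -
      (A.l j ⬝ᵥ b) * A.om i p (A.a j - (A.l i ⬝ᵥ A.a j) • A.a i) := by
  rw [pr_dot, hb, om_sub, om_smul, om_sub, om_smul]
  unfold pr
  rw [om_sub, om_smul]
  ring

lemma V0 {G : σ → MvPolynomial σ ℂ} (hG : A.InLam G) (i : A.ι) {p : σ → ℂ}
    (hp : A.Gen i p) (v : σ → ℂ) :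
    eval p (ap G v) = (A.l i ⬝ᵥ v) * eval p (ap G (A.a i)) := by
  have h := (hG i p (v - (A.l i ⬝ᵥ v) • A.a i) hp (by
    rw [dotProduct_sub, dotProduct_smul, A.la, smul_eq_mul, mul_one, sub_self])).1
  rw [ap_sub, ap_smul, map_sub, map_mul, eval_C] at h
  linear_combination h

lemma V1 {G : σ → MvPolynomial σ ℂ} (hG : A.InLam G) (i : A.ι) {p : σ → ℂ}
    (hp : A.Gen i p) (v : σ → ℂ) :
    eval p (dd (A.a i) (ap G v)) = (A.l i ⬝ᵥ v) * eval p (dd (A.a i) (ap G (A.a i))) +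
      A.om i p (v - (A.l i ⬝ᵥ v) • A.a i) * eval p (ap G (A.a i)) := by
  have h := (hG i p (v - (A.l i ⬝ᵥ v) • A.a i) hp (by
    rw [dotProduct_sub, dotProduct_smul, A.la, smul_eq_mul, mul_one, sub_self])).2
  rw [ap_sub, ap_smul, dd_sub, dd_C_mul, map_sub, map_mul, eval_C] at h
  linear_combination h

lemma lE {G : σ → MvPolynomial σ ℂ} (hG : A.InLam G) (j : A.ι) (v : σ → ℂ) :
    lf (A.l j) * quo (ap G (A.pr j v)) (lf (A.l j)) = ap G (A.pr j v) :=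
  mul_quo (A.lf_dvd_ap_pr hG j v)

lemma E0 {G : σ → MvPolynomial σ ℂ} (hG : A.InLam G) (j : A.ι) (p v : σ → ℂ) :
    (A.l j ⬝ᵥ p) * eval p (quo (ap G (A.pr j v)) (lf (A.l j))) = eval p (ap G (A.pr j v)) := by
  rw [← lE A hG j v, map_mul, eval_lf]
  rw [lE A hG j v]

lemma E1 {G : σ → MvPolynomial σ ℂ} (hG : A.InLam G) (j : A.ι) (c p v : σ → ℂ) :
    (A.l j ⬝ᵥ c) * eval p (quo (ap G (A.pr j v)) (lf (A.l j))) +
      (A.l j ⬝ᵥ p) * eval p (dd c (quo (ap G (A.pr j v)) (lf (A.l j)))) =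
      eval p (dd c (ap G (A.pr j v))) := by
  have h : eval p (dd c (lf (A.l j) * quo (ap G (A.pr j v)) (lf (A.l j)))) =
      eval p (dd c (ap G (A.pr j v))) := by rw [lE A hG j v]
  rw [← h, dd_mul, dd_lf, map_add, map_mul, map_mul, eval_C, eval_lf]

lemma E2 {G : σ → MvPolynomial σ ℂ} (hG : A.InLam G) (j : A.ι) (c p v : σ → ℂ) :
    2 * (A.l j ⬝ᵥ c) * eval p (dd c (quo (ap G (A.pr j v)) (lf (A.l j)))) +
      (A.l j ⬝ᵥ p) * eval p (dd c (dd c (quo (ap G (A.pr j v)) (lf (A.l j))))) =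
      eval p (dd c (dd c (ap G (A.pr j v)))) := by
  have h : eval p (dd c (dd c (lf (A.l j) * quo (ap G (A.pr j v)) (lf (A.l j))))) =
      eval p (dd c (dd c (ap G (A.pr j v)))) := by rw [lE A hG j v]
  rw [← h, dd_mul, dd_lf, dd_add, dd_C_mul, dd_mul, dd_lf]
  simp only [map_add, map_mul, eval_C, eval_lf]
  ring

end StabAAux

open StabAAux

theorem stabA {G : σ → MvPolynomial σ ℂ} (hG : A.InLam G) (i : A.ι) {p b : σ → ℂ}
    (hp : A.Gen i p) (hb : A.l i ⬝ᵥ b = 0) :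
    eval p (ap (A.Dop (A.a i) G) b) = 0 ∧
    eval p (dd (A.a i) (ap (A.Dop (A.a i) G) b))
      = A.om i p b * eval p (ap (A.Dop (A.a i) G) (A.a i)) := by
  have hpi : A.pr i b = b := by
    unfold pr
    rw [hb, zero_smul, sub_zero]
  have hpa : A.pr i (A.a i) = 0 := by
    unfold pr
    rw [A.la, one_smul, sub_self]
  set h0 := eval p (ap G (A.a i)) with hh0
  set h1 := eval p (dd (A.a i) (ap G (A.a i))) with hh1
  have hy : ∀ j ∈ Finset.univ.erase i, A.l j ⬝ᵥ p ≠ 0 := fun j hj =>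
    hp.2 j (Finset.ne_of_mem_erase hj)
  -- values of the quotients
  have hE : ∀ v, ∀ j ∈ Finset.univ.erase i,
      eval p (quo (ap G (A.pr j v)) (lf (A.l j))) =
        ((A.l i ⬝ᵥ v) - (A.l j ⬝ᵥ v) * (A.l i ⬝ᵥ A.a j)) * h0 / (A.l j ⬝ᵥ p) := by
    intro v j hj
    rw [eq_div_iff (hy j hj), mul_comm, E0 A hG j p v, V0 A hG i hp, pr_dot]
  have hEi : ∀ v, eval p (quo (ap G (A.pr i v)) (lf (A.l i))) =
      eval p (dd (A.a i) (ap G (A.pr i v))) := by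
    intro v
    have h := E1 A hG i (A.a i) p v
    rw [A.la, hp.1, one_mul, zero_mul, add_zero] at h
    exact h
  have hD : ∀ j ∈ Finset.univ.erase i,
      eval p (dd (A.a i) (quo (ap G (A.pr j b)) (lf (A.l j)))) =
        (-((A.l j ⬝ᵥ b) * (A.l i ⬝ᵥ A.a j)) * h1 + (A.om i p b -
          (A.l j ⬝ᵥ b) * A.om i p (A.a j - (A.l i ⬝ᵥ A.a j) • A.a i)) * h0 +
          (A.l j ⬝ᵥ A.a i) * ((A.l j ⬝ᵥ b) * (A.l i ⬝ᵥ A.a j)) * h0 / (A.l j ⬝ᵥ p)) /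
            (A.l j ⬝ᵥ p) := by
    intro j hj
    have h := E1 A hG j (A.a i) p b
    rw [hE b j hj, V1 A hG i hp, om_pr A i j hb, pr_dot, hb, zero_sub, ← hh0, ← hh1] at h
    rw [eq_div_iff (hy j hj)]
    linear_combination h
  have hD' : 2 * eval p (dd (A.a i) (quo (ap G (A.pr i b)) (lf (A.l i)))) =
      eval p (dd (A.a i) (dd (A.a i) (ap G b))) := by
    have h := E2 A hG i (A.a i) p b
    rw [A.la, hp.1, mul_one, zero_mul, add_zero, hpi] at h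
    rw [hpi]
    exact h
  have hom : A.om i p b = 2 * ∑ j ∈ Finset.univ.erase i,
      (A.l j ⬝ᵥ A.a i) * ((A.l j ⬝ᵥ b) * (A.l i ⬝ᵥ A.a j)) / (A.l j ⬝ᵥ p) := by
    unfold om
    rw [Finset.mul_sum]
    refine Finset.sum_congr rfl fun j _ => ?_
    unfold t
    ring
  refine ⟨?_, ?_⟩
  · rw [A.ap_Dop hG, ← Finset.add_sum_erase Finset.univ _ (Finset.mem_univ i)]
    simp only [map_sub, map_mul, map_add, map_sum, eval_C, map_ofNat]
    rw [hEi, hpi, A.la, V1 A hG i hp b, hb, zero_smul, sub_zero, zero_mul, zero_add, ← hh0]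
    have e1 : ∑ x ∈ Finset.univ.erase i, (A.l x ⬝ᵥ A.a i) *
        eval p (quo (ap G (A.pr x b)) (lf (A.l x))) = -(∑ j ∈ Finset.univ.erase i,
      (A.l j ⬝ᵥ A.a i) * ((A.l j ⬝ᵥ b) * (A.l i ⬝ᵥ A.a j)) / (A.l j ⬝ᵥ p)) * h0 := by
      rw [← Finset.sum_neg_distrib, Finset.sum_mul]
      refine Finset.sum_congr rfl fun j hj => ?_
      rw [hE b j hj, hb]
      ring
    rw [e1]
    linear_combination (-h0) * hom
  · set S := ∑ j ∈ Finset.univ.erase i, (A.l j ⬝ᵥ A.a i) / (A.l j ⬝ᵥ p) with hS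
    have e2 : eval p (ap (A.Dop (A.a i) G) (A.a i)) = h1 - 2 * S * h0 := by
      rw [A.ap_Dop hG, ← Finset.add_sum_erase Finset.univ _ (Finset.mem_univ i)]
      simp only [map_sub, map_mul, map_add, map_sum, eval_C, map_ofNat]
      rw [hEi, hpa, A.la, V1 A hG i hp 0, dotProduct_zero, zero_smul, sub_zero, zero_mul, zero_add,
        ← hh1, ← hh0]
      have e1 : ∑ x ∈ Finset.univ.erase i, (A.l x ⬝ᵥ A.a i) *
          eval p (quo (ap G (A.pr x (A.a i))) (lf (A.l x))) =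
          (S - ∑ j ∈ Finset.univ.erase i, A.t i j * (A.l j ⬝ᵥ A.a i) / (A.l j ⬝ᵥ p)) * h0 := by
        rw [hS, ← Finset.sum_sub_distrib, Finset.sum_mul]
        refine Finset.sum_congr rfl fun j hj => ?_
        rw [hE (A.a i) j hj, A.la]
        unfold t
        ring
      have e3 : A.om i p (0 : σ → ℂ) = 0 := by
        unfold om
        simp
      rw [e1, A.S1 i hp, e3]
      ring
    rw [e2, A.ap_Dop hG, ← Finset.add_sum_erase Finset.univ _ (Finset.mem_univ i)]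
    have e5 : dd (A.a i) (dd (A.a i) (ap G b) - 2 * (C (A.l i ⬝ᵥ A.a i) *
        quo (ap G (A.pr i b)) (lf (A.l i)) + ∑ j ∈ Finset.univ.erase i, C (A.l j ⬝ᵥ A.a i) *
          quo (ap G (A.pr j b)) (lf (A.l j)))) =
        dd (A.a i) (dd (A.a i) (ap G b)) - C 2 * (C (A.l i ⬝ᵥ A.a i) *
        dd (A.a i) (quo (ap G (A.pr i b)) (lf (A.l i))) +
          ∑ j ∈ Finset.univ.erase i, C (A.l j ⬝ᵥ A.a i) *
          dd (A.a i) (quo (ap G (A.pr j b)) (lf (A.l j)))) := by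
      have e6 : (2 : MvPolynomial σ ℂ) = C 2 := (map_ofNat C 2).symm
      rw [e6, dd_sub, dd_C_mul, dd_add, dd_C_mul, dd_sum]
      simp only [dd_C_mul]
    rw [e5]
    simp only [map_sub, map_mul, map_add, map_sum, eval_C]
    rw [A.la]
    have e7 : ∑ x ∈ Finset.univ.erase i, (A.l x ⬝ᵥ A.a i) *
        eval p (dd (A.a i) (quo (ap G (A.pr x b)) (lf (A.l x)))) =
        -h1 * (∑ j ∈ Finset.univ.erase i,
          (A.l j ⬝ᵥ A.a i) * ((A.l j ⬝ᵥ b) * (A.l i ⬝ᵥ A.a j)) / (A.l j ⬝ᵥ p)) +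
        A.om i p b * h0 * S -
        h0 * (∑ j ∈ Finset.univ.erase i, (A.l j ⬝ᵥ A.a i) * (A.l j ⬝ᵥ b) / (A.l j ⬝ᵥ p) *
          A.om i p (A.a j - (A.l i ⬝ᵥ A.a j) • A.a i)) +
        h0 * (∑ j ∈ Finset.univ.erase i,
          A.t i j * (A.l j ⬝ᵥ b) * (A.l j ⬝ᵥ A.a i) / (A.l j ⬝ᵥ p) ^ 2) := by
      rw [hS, Finset.mul_sum, Finset.mul_sum, Finset.mul_sum, Finset.mul_sum,
        ← Finset.sum_add_distrib, ← Finset.sum_sub_distrib, ← Finset.sum_add_distrib]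
      refine Finset.sum_congr rfl fun j hj => ?_
      rw [hD j hj]
      have := hy j hj
      unfold t
      field_simp
      ring
    rw [e7, A.S2b i hp hb, A.S2a i hp hb]
    linear_combination (-1 : ℂ) * hD' + (-h1) * hom

end Datum

end Pool.Agent.Lib.P4a9818
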