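import Pool.Agent.Lib.P4a9818.GBasic

/-!
# P4a9818.Tower : adding one generator to the ideal   (estimate 1 h)

Let `c` be a cochain of degree `i` with values in `W i` and `kd x c S ∈ I ⊔ (Φ)` for `card S = i + 1`.
By `dec` there is `a` with `kd x c S - Φ * a S ∈ I`, `a S ∈ W' (i + 1)` for `card S = i + 1` (put
`a S = 0` for the other `S`). For `card S = i + 2`: `0 = kd x (kd x c) S`, so `Φ * kd x a S ∈ I`
(`kd_mul`; `kd x` maps cochains with values in `I` to such), and `kd x a S ∈ W' (i + 2)`, so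
`kd x a S ∈ I` by `inj`. By `h2` there is `e` of degree `i` with values in `W' i` and
`a S - kd x e S ∈ I` for `card S = i + 1`. Put `c' = c - Φ * e`, with values in `W i`. Then
`kd x c' S ∈ I` for `card S = i + 1`, so by `h1` `c' S - kd x f S ∈ I`, and
`c S - kd x f S ∈ I ⊔ (Φ)`.
-/

namespace Pool.Agent.Lib.P4a9818

namespace TowerAux

theorem kd_mem {B : Type} [CommRing B] {r : ℕ} (x : Fin r → B) (I : Ideal B)
    (c : Finset (Fin r) → B) (S : Finset (Fin r)) (h : ∀ s ∈ S, c (S.erase s) ∈ I) :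
    kd x c S ∈ I := by
  unfold kd
  exact Ideal.sum_mem _ fun s hs => I.mul_mem_left _ (h s hs)

theorem kd_memW {B : Type} [CommRing B] {r : ℕ} (x : Fin r → B) (W : ℕ → AddSubgroup B) (j : ℕ)
    (hW : ∀ j s b, b ∈ W j → x s * b ∈ W (j + 1))
    (c : Finset (Fin r) → B) (S : Finset (Fin r)) (h : ∀ s ∈ S, c (S.erase s) ∈ W j) :
    kd x c S ∈ W (j + 1) := by
  unfold kd
  refine AddSubgroup.sum_mem _ fun s hs => ?_
  have h1 := hW j s _ (h s hs)
  rcases neg_one_pow_eq_or B (S.filter (· < s)).card with h2 | h2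
  · rw [h2, one_mul]
    exact h1
  · rw [h2, neg_one_mul, neg_mul]
    exact AddSubgroup.neg_mem _ h1

end TowerAux

theorem kv_tower {B : Type} [CommRing B] {r : ℕ} (x : Fin r → B) (I : Ideal B) (Φ : B)
    (W W' : ℕ → AddSubgroup B) (i : ℕ)
    (hW : ∀ j s b, b ∈ W j → x s * b ∈ W (j + 1))
    (hW' : ∀ j s b, b ∈ W' j → x s * b ∈ W' (j + 1))
    (hΦ : ∀ j b, b ∈ W' j → Φ * b ∈ W j)
    (dec : ∀ b ∈ W (i + 1), b ∈ I ⊔ Ideal.span {Φ} → ∃ a ∈ W' (i + 1), b - Φ * a ∈ I)
    (inj : ∀ a ∈ W' (i + 2), Φ * a ∈ I → a ∈ I)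
    (h1 : KV x I W i) (h2 : KV x I W' (i + 1)) : KV x (I ⊔ Ideal.span {Φ}) W i := by
  classical
  intro c hc hd
  have hcW : ∀ S : Finset (Fin r), S.card = i + 1 → kd x c S ∈ W (i + 1) := by
    intro S hS
    refine TowerAux.kd_memW x W i hW c S fun s hs => hc _ ?_
    rw [Finset.card_erase_of_mem hs, hS]
    rfl
  have hex : ∀ S : Finset (Fin r), ∃ a : B, S.card = i + 1 → a ∈ W' (i + 1) ∧
      kd x c S - Φ * a ∈ I := by
    intro S
    by_cases hS : S.card = i + 1
    · obtain ⟨a, ha, ha'⟩ := dec _ (hcW S hS) (hd S hS)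
      exact ⟨a, fun _ => ⟨ha, ha'⟩⟩
    · exact ⟨0, fun h => absurd h hS⟩
  choose a ha using hex
  have hda : ∀ S : Finset (Fin r), S.card = i + 1 + 1 → kd x a S ∈ I := by
    intro S hS
    have hcard : ∀ s ∈ S, (S.erase s).card = i + 1 := by
      intro s hs
      rw [Finset.card_erase_of_mem hs, hS]
      rfl
    have h3 : kd x a S ∈ W' (i + 2) :=
      TowerAux.kd_memW x W' (i + 1) hW' a S fun s hs => (ha _ (hcard s hs)).1
    apply inj _ h3
    have h4 : kd x (kd x c - fun S => Φ * a S) S ∈ I :=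
      TowerAux.kd_mem x I _ S fun s hs => (ha _ (hcard s hs)).2
    rw [kd_sub, kd_kd, kd_mul] at h4
    have h5 : (0 - fun S => Φ * kd x a S) S = -(Φ * kd x a S) := by
      simp
    rw [h5] at h4
    exact (Ideal.neg_mem_iff I).1 h4
  obtain ⟨e, he1, he2⟩ := h2 a (fun S hS => (ha S hS).1) hda
  have he1' : ∀ S : Finset (Fin r), S.card = i → e S ∈ W' i := by
    intro S hS
    have := he1 S (by rw [hS])
    rwa [Nat.add_sub_cancel] at this
  obtain ⟨f, hf1, hf2⟩ := h1 (c - fun S => Φ * e S)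
    (by
      intro S hS
      exact AddSubgroup.sub_mem _ (hc S hS) (hΦ i _ (he1' S hS)))
    (by
      intro S hS
      rw [kd_sub, kd_mul]
      have h3 := (ha S hS).2
      have h4 := he2 S hS
      have h5 : (kd x c - fun S => Φ * kd x e S) S
          = (kd x c S - Φ * a S) + Φ * (a S - kd x e S) := by
        simp only [Pi.sub_apply]
        ring
      rw [h5]
      exact I.add_mem h3 (I.mul_mem_left _ h4))
  refine ⟨f, hf1, fun S hS => ?_⟩
  have h3 := hf2 S hS
  have h4 : c S - kd x f S = ((c - fun S => Φ * e S) S - kd x f S) + Φ * e S := by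
    simp only [Pi.sub_apply]
    ring
  rw [h4]
  refine Ideal.add_mem _ (Ideal.mem_sup_left h3) (Ideal.mem_sup_right ?_)
  exact Ideal.mul_mem_right _ _ (Ideal.mem_span_singleton_self _)

end Pool.Agent.Lib.P4a9818
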