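import Pool.Agent.Lib.P4a9818.KosReg
import Pool.Agent.Lib.P4a9818.Tower
import Pool.Agent.Lib.P4a9818.Gen
import Pool.Agent.Lib.P4a9818.LocTF

/-!
# P4a9818.TF : torsion-freeness, linear type in degree three   (estimate 3 h)

`R = ℂ[x]`, `B = MvPolynomial κ R`. `TFj j`: for all `k ≤ 3`, `b ∈ WT k`, `r ≠ 0`:
`C r * b ∈ Iu Φ j → b ∈ Iu Φ j`.
* `inj_of_tf`: `TFj j`, `j < m`, `a ∈ WT k`, `k ≤ 3`, `hat (Φ j) * a ∈ Iu Φ j` imply `a ∈ Iu Φ j`
  (`gen_inj`).
* `tf`: strong induction on `j ≤ m`; assume `TFj j'` for `j' < j`. Suppose `b ∈ WT k`, `k ≤ 3`,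
  `C r * b ∈ Iu Φ j`, `r ≠ 0`, `b ∉ Iu Φ j`. Consider the `R`-module generated by the class of `b` in
  `B ⧸ Iu Φ j`; it has an associated prime `𝔭`
  (`exists_le_isAssociatedPrime_of_isNoetherianRing`): there is `b' = C r' * b ∈ WT k` with
  `𝔭 = {a | C a * b' ∈ Iu Φ j}` prime, `r ∈ 𝔭` (commutativity), so `𝔭 ≠ ⊥`. By `LocGen`:
  (A) `x : Fin 4 → R` weakly regular, `x t ∈ 𝔭`. Claim: for `j' ≤ j`, `k' ≤ 3` (integers),
   `i + k' ≤ 3` or `k' < 0`: `KV (C ∘ x) (Iu Φ j') (fun _ => WT k') i` (`i : ℕ`). For `k' < 0` this is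
   trivial (`WT k' = 0`). Induction on `j'`: `j' = 0`: `kv_WT` (`i ≤ 3 < 4`). Step: `Iu_succ`,
   `kv_tower` with `W = WT k'`, `W' = WT (k' - 1)`, `dec_WT`, and `inj` from `inj_of_tf` for `TFj j'`
   (`j' < j`). For `j' = j`, `k' = k`, `i = 0`: the cochain `c ∅ = b'` has `kd x c {t} = x t b' ∈ Iu Φ j`
   (`kd_singleton`), so `b' ∈ Iu Φ j` (`kd_empty`), contradiction to `1 ∉ 𝔭`.
  (B) `loc_tf` gives `s' ∉ 𝔭` with `C s' * b' ∈ Iu Φ j`: contradiction.
* `lin_type`: `gen_ker` (`F ≠ 0` by `nodvd`; if there are no primes (`σ` empty): `F 0 = 0` would give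
  `Syz = R^κ`; simply: if `F = 0` then all unit vectors are syzygies and `R^κ` would be spanned by `m`
  vectors) and `tf` for `j = m`, `k = 3`.
-/

namespace Pool.Agent.Lib.P4a9818

open MvPolynomial

variable {σ κ : Type} [Fintype σ] [Fintype κ] [DecidableEq κ]

private def annI {R B : Type} [CommRing R] [CommRing B] (f : R →+* B) (I : Ideal B) (b : B) :
    Ideal R where
  carrier := {y | f y * b ∈ I}
  add_mem' := by
    intro u v hu hv
    have h2 : f (u + v) * b = f u * b + f v * b := by rw [map_add, add_mul]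
    change f (u + v) * b ∈ I
    rw [h2]
    exact I.add_mem hu hv
  zero_mem' := by
    change f 0 * b ∈ I
    rw [map_zero, zero_mul]
    exact I.zero_mem
  smul_mem' := by
    intro u v hv
    change f (u * v) * b ∈ I
    rw [map_mul, mul_assoc]
    exact I.mul_mem_left _ hv

private theorem mem_annI {R B : Type} [CommRing R] [CommRing B] (f : R →+* B) (I : Ideal B)
    (b : B) (y : R) : y ∈ annI f I b ↔ f y * b ∈ I := Iff.rfl

/-- A maximal annihilator is a prime ideal. -/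
private theorem exists_prime_ann {R B : Type} [CommRing R] [IsNoetherianRing R] [CommRing B]
    (f : R →+* B) (I : Ideal B) (b : B) (hb : b ∉ I) :
    ∃ c : R, (annI f I (f c * b)).IsPrime := by
  have hne : ({J : Ideal R | ∃ c : R, f c * b ∉ I ∧ J = annI f I (f c * b)}).Nonempty :=
    ⟨annI f I (f 1 * b), 1, by rwa [map_one, one_mul], rfl⟩
  obtain ⟨J, ⟨c, hc, hJ⟩, hmax⟩ := set_has_maximal_iff_noetherian.2 inferInstance _ hne
  refine ⟨c, ⟨?_, ?_⟩⟩
  · intro h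
    apply hc
    have h1 : (1 : R) ∈ annI f I (f c * b) := by rw [h]; trivial
    rw [mem_annI, map_one, one_mul] at h1
    exact h1
  · intro u v huv
    by_cases hv : v ∈ annI f I (f c * b)
    · exact Or.inr hv
    · left
      have hv2 : f (v * c) * b ∉ I := by
        rw [mem_annI] at hv
        rwa [map_mul, mul_assoc]
      have hle : J ≤ annI f I (f (v * c) * b) := by
        rw [hJ]
        intro y hy
        rw [mem_annI] at hy ⊢
        have e : f y * (f (v * c) * b) = f v * (f y * (f c * b)) := by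
          rw [map_mul]; ring
        rw [e]
        exact I.mul_mem_left _ hy
      have hEq : annI f I (f (v * c) * b) = J := by
        by_contra hne2
        exact hmax _ ⟨v * c, hv2, rfl⟩ (lt_of_le_of_ne hle (Ne.symm hne2))
      rw [← hJ, ← hEq, mem_annI]
      rw [mem_annI] at huv
      have e : f u * (f (v * c) * b) = f (u * v) * (f c * b) := by
        rw [map_mul, map_mul]; ring
      rwa [e]

/-- Torsion-freeness at the stage `j`. -/
private def TFj {m : ℕ} (Φ : Fin m → κ → MvPolynomial σ ℂ) (j : ℕ) : Prop :=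
  ∀ k : ℤ, k ≤ 3 → ∀ a ∈ (WT k : AddSubgroup (MvPolynomial κ (MvPolynomial σ ℂ))),
    ∀ r : MvPolynomial σ ℂ, r ≠ 0 → C r * a ∈ Iu Φ j → a ∈ Iu Φ j

omit [Fintype σ] [DecidableEq κ] in
private theorem inj_of_tf {F : κ → MvPolynomial σ ℂ} {D m : ℕ}
    {Φ : Fin m → κ → MvPolynomial σ ℂ} {b : Fin m → ℕ} (hP : Pres F D m Φ b) {j : ℕ}
    (hj : j < m) (hT : TFj Φ j) {k : ℤ} (hk : k ≤ 3)
    {a : MvPolynomial κ (MvPolynomial σ ℂ)}
    (ha : a ∈ (WT k : AddSubgroup (MvPolynomial κ (MvPolynomial σ ℂ))))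
    (h : hat (Φ ⟨j, hj⟩) * a ∈ Iu Φ j) : a ∈ Iu Φ j := by
  obtain ⟨r, hr, h2⟩ := gen_inj Φ hP.indep hj h
  exact hT k hk a ha r hr h2

omit [Fintype σ] [Fintype κ] [DecidableEq κ] in
private theorem kv_neg {r : ℕ} (x : Fin r → MvPolynomial σ ℂ)
    (I : Ideal (MvPolynomial κ (MvPolynomial σ ℂ))) {k : ℤ} (hk : k < 0) (i : ℕ) :
    KV (fun t => (C (x t) : MvPolynomial κ (MvPolynomial σ ℂ))) I (fun _ => WT k) i := by
  intro c hc _
  refine ⟨fun _ => 0, fun S _ => AddSubgroup.zero_mem _, fun S hS => ?_⟩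
  have h1 : c S = 0 := WT_neg hk (hc S hS)
  have h2 : kd (fun t => (C (x t) : MvPolynomial κ (MvPolynomial σ ℂ))) (fun _ => 0) S = 0 := by
    simp [kd]
  rw [h1, h2, sub_zero]
  exact I.zero_mem

omit [Fintype σ] [DecidableEq κ] in
private theorem kv_all {F : κ → MvPolynomial σ ℂ} {D m : ℕ}
    {Φ : Fin m → κ → MvPolynomial σ ℂ} {b : Fin m → ℕ} (hP : Pres F D m Φ b) {j : ℕ}
    (hj : j ≤ m) (hT : ∀ j' < j, TFj Φ j') (x : Fin 4 → MvPolynomial σ ℂ) (hx : Reg x) :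
    ∀ j' ≤ j, ∀ (k : ℤ) (i : ℕ), k ≤ 3 → ((i : ℤ) + k ≤ 3 ∨ k < 0) →
      KV (fun t => (C (x t) : MvPolynomial κ (MvPolynomial σ ℂ))) (Iu Φ j') (fun _ => WT k) i := by
  intro j'
  induction j' with
  | zero =>
    intro _ k i _ h
    by_cases hk : k < 0
    · exact kv_neg x _ hk i
    · have hi : i < 4 := by omega
      rw [Iu_zero]
      exact kv_WT x hx k i hi
  | succ j' ih =>
    intro hj' k i hk h
    by_cases hk0 : k < 0
    · exact kv_neg x _ hk0 i
    have hlt : j' < m := by omega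
    rw [Iu_succ Φ hlt]
    refine kv_tower _ (Iu Φ j') (hat (Φ ⟨j', hlt⟩)) (fun _ => WT k) (fun _ => WT (k - 1)) i
      ?_ ?_ ?_ ?_ ?_ ?_ ?_
    · intro _ s b hb
      exact C_mul_WT _ hb
    · intro _ s b hb
      exact C_mul_WT _ hb
    · intro _ b hb
      exact hat_mul_WT _ hb
    · intro b hb h
      exact dec_WT Φ hlt k hb h
    · intro a ha h
      exact inj_of_tf hP hlt (hT j' (by omega)) (by omega : k - 1 ≤ 3) ha h
    · exact ih (by omega) k i hk h
    · exact ih (by omega) (k - 1) (i + 1) (by omega) (by push_cast; omega)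

private theorem tf_aux {F : κ → MvPolynomial σ ℂ} {D m : ℕ}
    {Φ : Fin m → κ → MvPolynomial σ ℂ} {b : Fin m → ℕ} (hP : Pres F D m Φ b)
    (hL : LocGen F) : ∀ j ≤ m, TFj Φ j := by
  intro j
  induction j using Nat.strong_induction_on with
  | _ j ih =>
    intro hj k hk a ha r hr h
    by_contra hna
    obtain ⟨c, hprime⟩ := exists_prime_ann
      (C : MvPolynomial σ ℂ →+* MvPolynomial κ (MvPolynomial σ ℂ)) (Iu Φ j) a hna
    have hcW : C c * a ∈ (WT k : AddSubgroup (MvPolynomial κ (MvPolynomial σ ℂ))) :=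
      C_mul_WT c ha
    have hrmem : r ∈ annI (C : MvPolynomial σ ℂ →+* MvPolynomial κ (MvPolynomial σ ℂ))
        (Iu Φ j) (C c * a) := by
      rw [mem_annI]
      have e : C r * (C c * a) = C c * (C r * a) := by ring
      rw [e]
      exact (Iu Φ j).mul_mem_left _ h
    have hbot : annI (C : MvPolynomial σ ℂ →+* MvPolynomial κ (MvPolynomial σ ℂ))
        (Iu Φ j) (C c * a) ≠ ⊥ := by
      intro h0
      rw [h0] at hrmem
      exact hr (by simpa using hrmem)
    have hnot : C c * a ∉ Iu Φ j := by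
      intro h1
      apply hprime.ne_top
      rw [Ideal.eq_top_iff_one, mem_annI, map_one, one_mul]
      exact h1
    rcases hL _ hprime hbot with ⟨x, hx, hxp⟩ | ⟨c', hc1, hc3, ⟨x, hx, hxp⟩, g, hg, s, hs, hgen⟩
    · have hKV := kv_all hP hj (fun j' hj' => ih j' hj' (by omega)) x hx j le_rfl k 0 hk
        (by left; push_cast; omega)
      obtain ⟨e, _, he⟩ := hKV (fun _ => C c * a) (fun _ _ => hcW) (by
        intro S hS
        rw [zero_add] at hS
        obtain ⟨t, rfl⟩ := Finset.card_eq_one.1 hS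
        rw [kd_singleton]
        exact hxp t)
      have h2 := he ∅ (by simp)
      rw [kd_empty, sub_zero] at h2
      exact hnot h2
    · obtain ⟨s', hs', h2⟩ := loc_tf hP _ hprime hc1 hc3 x hx hxp g hg s hs hgen hj (C c * a)
        (fun t => hxp t)
      exact hs' h2

theorem tf {F : κ → MvPolynomial σ ℂ} {D m : ℕ} {Φ : Fin m → κ → MvPolynomial σ ℂ}
    {b : Fin m → ℕ} (hP : Pres F D m Φ b) (hL : LocGen F) {j : ℕ} (hj : j ≤ m) {k : ℤ}
    (hk : k ≤ 3) {a : MvPolynomial κ (MvPolynomial σ ℂ)}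
    (ha : a ∈ (WT k : AddSubgroup (MvPolynomial κ (MvPolynomial σ ℂ))))
    {r : MvPolynomial σ ℂ} (hr : r ≠ 0) (h : C r * a ∈ Iu Φ j) : a ∈ Iu Φ j :=
  tf_aux hP hL j hj k hk a ha r hr h

theorem tf_inj {F : κ → MvPolynomial σ ℂ} {D m : ℕ} {Φ : Fin m → κ → MvPolynomial σ ℂ}
    {b : Fin m → ℕ} (hP : Pres F D m Φ b) (hL : LocGen F) {j : ℕ} (hj : j < m) {k : ℤ}
    (hk : k ≤ 3) {a : MvPolynomial κ (MvPolynomial σ ℂ)}
    (ha : a ∈ (WT k : AddSubgroup (MvPolynomial κ (MvPolynomial σ ℂ))))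
    (h : hat (Φ ⟨j, hj⟩) * a ∈ Iu Φ j) : a ∈ Iu Φ j :=
  inj_of_tf hP hj (tf_aux hP hL j hj.le) hk ha h

theorem lin_type {F : κ → MvPolynomial σ ℂ} {D m : ℕ} {Φ : Fin m → κ → MvPolynomial σ ℂ}
    {b : Fin m → ℕ} (hP : Pres F D m Φ b) (hL : LocGen F)
    {a : MvPolynomial κ (MvPolynomial σ ℂ)} (ha : a.IsHomogeneous 3) (h : eval F a = 0) :
    a ∈ Iu Φ m := by
  have hF0 : F ≠ 0 := by
    intro h0
    have htop : Submodule.span (MvPolynomial σ ℂ) (Set.range Φ) = ⊤ := by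
      rw [eq_top_iff]
      intro η _
      rw [hP.syz]
      simp [h0]
    have h1 := finrank_le_of_span_eq_top htop
    rw [Module.finrank_fintype_fun_eq_card, Fintype.card_fin] at h1
    have h2 := hP.card
    omega
  have hF : ∀ i, ∑ k, Φ i k * F k = 0 := fun i =>
    (hP.syz (Φ i)).1 (Submodule.subset_span ⟨i, rfl⟩)
  obtain ⟨r, hr, h2⟩ := gen_ker Φ hP.indep hP.card F hF hF0 ha h
  exact tf hP hL le_rfl (k := ((3 : ℕ) : ℤ)) (by norm_num) ((mem_WT_iff 3 a).2 ha) hr h2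

end Pool.Agent.Lib.P4a9818
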